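import Pool.Agent.W93.GB3
import Pool.Agent.H560R3.GB.LamE
import Pool.Agent.H560R3.GB.Defs

set_option autoImplicit false

/-! From the first moment over a family of small energy to the number of exceptional members. -/

namespace Pool.Agent.W93.GB

open Finset Real Pool.Agent.H560R3.GB
open Pool.Agent.H373R2.T7 (lamI lamzI ev_L' ev_log')

lemma energy_eq (h x : ℕ) (s : ℕ → ℕ) (c : ℤ) :
    Pool.Agent.H373R2.T7.energy h x (fun m => (s m : ℤ) - c) = energy h x s := by
  unfold energy Pool.Agent.H373R2.T7.energy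
  congr 1
  apply filter_congr
  intro q _
  change (∑ i, (((s (q.1 i) : ℕ) : ℤ) - c) = ∑ i, (((s (q.2 i) : ℕ) : ℤ) - c)) ↔ _
  rw [sum_sub_distrib, sum_sub_distrib]
  constructor
  · intro h; exact_mod_cast sub_left_inj.1 h
  · intro h; rw [sub_left_inj]; exact_mod_cast h

/-- few members of a family of small energy lie in a short interval -/
lemma small_count (h x Y : ℕ) (s : ℕ → ℕ) (S : Finset ℕ) (hSx : S ⊆ Icc 1 x) (hS : ∀ m ∈ S, s m ≤ Y) :
    S.card ^ (2 * h) ≤ (h * Y + 1) * energy h x s := by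
  classical
  set P := Fintype.piFinset (fun _ : Fin h => S) with hP
  set f : (Fin h → ℕ) → ℕ := fun v => ∑ i, s (v i) with hf
  have hcard : P.card = S.card ^ h := by
    rw [hP, Fintype.card_piFinset, prod_const, card_univ, Fintype.card_fin]
  have hmem : ∀ v ∈ P, f v ∈ range (h * Y + 1) := by
    intro v hv
    rw [mem_range, Nat.lt_succ_iff]
    have hv' := Fintype.mem_piFinset.1 hv
    calc ∑ i, s (v i) ≤ ∑ _i : Fin h, Y := sum_le_sum fun i _ => hS _ (hv' i)
      _ = h * Y := by rw [sum_const, card_univ, Fintype.card_fin, smul_eq_mul]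
  have h1 := card_eq_sum_card_fiberwise (f := f) (s := P) (t := range (h * Y + 1)) hmem
  have h2 : P.card ^ 2 ≤ (h * Y + 1) * ∑ t ∈ range (h * Y + 1), (P.filter (fun v => f v = t)).card ^ 2 := by
    rw [h1]
    have := sq_sum_le_card_mul_sum_sq (s := range (h * Y + 1)) (f := fun t => (P.filter (fun v => f v = t)).card)
    rw [card_range] at this
    exact this
  have h3 : ∑ t ∈ range (h * Y + 1), (P.filter (fun v => f v = t)).card ^ 2 ≤ energy h x s := by
    set Q := (P ×ˢ P).filter (fun q => f q.1 = f q.2) with hQ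
    have h4 : Q.card = ∑ t ∈ range (h * Y + 1), (Q.filter (fun q => f q.1 = t)).card := by
      apply card_eq_sum_card_fiberwise (f := fun q : (Fin h → ℕ) × (Fin h → ℕ) => f q.1)
      intro q hq
      have := (mem_product.1 (mem_filter.1 (mem_coe.1 hq)).1).1
      exact mem_coe.2 (hmem _ this)
    have h5 : ∀ t, (Q.filter (fun q => f q.1 = t)).card = (P.filter (fun v => f v = t)).card ^ 2 := by
      intro t
      rw [sq, ← card_product]
      congr 1
      ext q
      rw [mem_filter, hQ, mem_filter, mem_product, mem_product, mem_filter, mem_filter]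
      constructor
      · rintro ⟨⟨⟨a, b⟩, c⟩, d⟩
        exact ⟨⟨a, d⟩, b, c.symm.trans d⟩
      · rintro ⟨⟨a, d⟩, b, c⟩
        exact ⟨⟨⟨a, b⟩, d.trans c.symm⟩, d⟩
    simp only [h5] at h4
    rw [← h4]
    unfold energy
    apply card_le_card
    intro q hq
    rw [hQ, mem_filter, mem_product] at hq
    rw [mem_filter, mem_product]
    have hsub : P ⊆ Fintype.piFinset (fun _ : Fin h => Icc 1 x) := by
      apply Fintype.piFinset_subset
      intro _
      exact hSx
    exact ⟨⟨hsub hq.1.1, hsub hq.1.2⟩, hq.2⟩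
  calc S.card ^ (2 * h) = P.card ^ 2 := by rw [hcard]; ring
    _ ≤ _ := h2
    _ ≤ _ := Nat.mul_le_mul_left _ h3

lemma vM_bd (n M : ℕ) (hn : n ≤ M) (_hM : 1 ≤ M) : ArithmeticFunction.vonMangoldt n ≤ Real.log M := by
  rcases Nat.eq_zero_or_pos n with h0 | h0
  · subst h0
    simp only [ArithmeticFunction.map_zero]
    exact Real.log_natCast_nonneg M
  · refine ArithmeticFunction.vonMangoldt_le_log.trans ?_
    apply Real.log_le_log (by exact_mod_cast h0)
    exact_mod_cast hn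

/-- `n` satisfies the formula of Hardy and Littlewood with a relative error `ε`, and is a sum of two
distinct primes -/
def Good (ε : ℝ) (n : ℕ) : Prop :=
  |(g n : ℝ) - HL n| ≤ ε * HL n ∧ ∃ p q : ℕ, p.Prime ∧ q.Prime ∧ p ≠ q ∧ p + q = n

/-- the reflected sum -/
lemma reflect (A z n : ℕ) (_hA : n ≤ A) :
    ∑ a ∈ Icc 1 A, ((ArithmeticFunction.vonMangoldt (A + 1 - a) : ℝ) / Real.log (A + 1 : ℕ)) *
      (lamI ((a : ℤ) + ((n : ℤ) - ((A : ℤ) + 1))) - lamzI z ((a : ℤ) + ((n : ℤ) - ((A : ℤ) + 1)))) =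
    (∑ b ∈ Icc 1 A, ArithmeticFunction.vonMangoldt b * (lamI ((n : ℤ) - b) - lamzI z ((n : ℤ) - b))) /
      Real.log (A + 1 : ℕ) := by
  rw [sum_div]
  apply sum_bij (fun a _ => A + 1 - a)
  · intro a ha
    rw [mem_Icc] at ha ⊢
    omega
  · intro a ha b hb h
    rw [mem_Icc] at ha hb
    omega
  · intro b hb
    rw [mem_Icc] at hb
    exact ⟨A + 1 - b, by rw [mem_Icc]; omega, by omega⟩
  · intro a ha
    rw [mem_Icc] at ha
    have e : ((A + 1 - a : ℕ) : ℤ) = (A : ℤ) + 1 - a := by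
      rw [Nat.cast_sub (by omega)]; push_cast; ring
    rw [e]
    have e2 : (n : ℤ) - ((A : ℤ) + 1 - a) = (a : ℤ) + ((n : ℤ) - ((A : ℤ) + 1)) := by ring
    rw [e2]
    ring

/-- the number of exceptional members of a family of small energy -/
theorem fam (h B C U : ℕ) (hh : 1 ≤ h) (ε : ℝ) (hε : 0 < ε) :
    ∃ N₀ : ℕ, ∀ N : ℕ, N₀ ≤ N → ∀ (x : ℕ) (s : ℕ → ℕ),
      (∀ m ∈ Icc 1 x, s m ≤ B * N ∧ 2 ∣ s m) →
      (energy h x s : ℝ) * N ≤ Real.log N ^ C * (x : ℝ) ^ (2 * h) →
      ∀ S : Finset ℕ, S ⊆ Icc 1 x → (∀ m ∈ S, ¬ Good ε (s m)) →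
      (S.card : ℝ) ≤ x / Real.log N ^ U := by
  classical
  set W : ℕ := C + 1 + 2 * h * (U + 1) with hW
  set U' : ℕ := U + W + 4 with hU'
  obtain ⟨B0, hlam⟩ := Pool.Agent.H560R3.GB.lam_e h (B + 1) C U'
  set B1 := max B0 3 with hB1
  obtain ⟨n1, h1⟩ := hlam (B1 + 1)
  obtain ⟨n2, h2⟩ := good_of ε hε B W (B1 + 1)
  obtain ⟨n3, h3⟩ := ev_L' (h + B + 10)
  obtain ⟨n4, h4⟩ := ev_log' W 1
  refine ⟨max (max n1 n2) (max (max n3 n4) 3), fun N hN x s hs hE S hSx hS => ?_⟩
  have c1 := h1 N (by omega)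
  have c2 := h2 N (by omega)
  have c3 := h3 N (by omega)
  have c4 := h4 N (by omega)
  have hN3 : 3 ≤ N := by omega
  have hNr : (3 : ℝ) ≤ N := by exact_mod_cast hN3
  have hN0 : (0 : ℝ) < N := by linarith
  set L := Real.log N with hLd
  have hB0r : (0 : ℝ) ≤ B := Nat.cast_nonneg _
  have hh0r : (0 : ℝ) ≤ h := Nat.cast_nonneg _
  have hL10 : 10 ≤ L := by linarith
  have hL1 : 1 ≤ L := by linarith
  have hL0 : 0 < L := by linarith
  have hsq : √(N : ℝ) * √(N : ℝ) = N := Real.mul_self_sqrt hN0.le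
  have hsq0 : 0 < √(N : ℝ) := Real.sqrt_pos.2 hN0
  have hsq1 : 1 ≤ √(N : ℝ) := by rw [Real.one_le_sqrt]; linarith
  -- the parameter `z`
  set z := ⌈L ^ B1⌉₊ with hz
  have hzlo : L ^ B1 ≤ z := Nat.le_ceil _
  have hL1B : 1 ≤ L ^ B1 := one_le_pow₀ hL1
  have hzhi : (z : ℝ) ≤ L ^ (B1 + 1) := by
    have := Nat.ceil_lt_add_one (show 0 ≤ L ^ B1 by positivity)
    calc (z : ℝ) ≤ L ^ B1 + 1 := this.le
      _ ≤ L ^ B1 + L ^ B1 := by linarith
      _ = 2 * L ^ B1 := by ring
      _ ≤ L * L ^ B1 := mul_le_mul_of_nonneg_right (by linarith) (by positivity)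
      _ = L ^ (B1 + 1) := by ring
  have hzB0 : L ^ B0 ≤ z := (pow_le_pow_right₀ hL1 (le_max_left _ _)).trans hzlo
  have hz3 : L ^ 3 ≤ z := (pow_le_pow_right₀ hL1 (le_max_right _ _)).trans hzlo
  -- the first moment
  set A := B * N with hA
  have hAlog : 0 < Real.log (A + 1 : ℕ) ∨ A = 0 := by
    rcases Nat.eq_zero_or_pos A with h | h
    · exact Or.inr h
    · left
      apply Real.log_pos
      have : (1 : ℝ) ≤ A := by exact_mod_cast h
      push_cast
      linarith
  have hAlog2 : Real.log (A + 1 : ℕ) ≤ 2 * L := by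
    have h5 : ((A + 1 : ℕ) : ℝ) ≤ (B + 1) * N := by
      have : (1 : ℝ) ≤ N := by linarith
      rw [hA]
      push_cast
      nlinarith
    have h6 := Real.log_le_log (by positivity) h5
    rw [Real.log_mul (by positivity) hN0.ne'] at h6
    have h7 : Real.log (B + 1) ≤ B := by
      have := Real.log_le_sub_one_of_pos (show (0 : ℝ) < B + 1 by positivity)
      linarith
    linarith
  set D : ℕ → ℝ := fun m => ∑ b ∈ Icc 1 A, ArithmeticFunction.vonMangoldt b *
    (lamI (((s m : ℕ) : ℤ) - b) - lamzI z (((s m : ℕ) : ℤ) - b)) with hD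
  have hmom : ∑ m ∈ Icc 1 x, |D m| ≤ 2 * L * (N * x / L ^ U') := by
    rcases hAlog with hA0 | hA0
    · have hb : ∀ m ∈ Icc 1 x, |((s m : ℕ) : ℤ) - ((A : ℤ) + 1)| ≤ ((B + 1 : ℕ) : ℤ) * N := by
        intro m hm
        obtain ⟨h5, -⟩ := hs m hm
        rw [abs_le]
        have h6 : (A : ℤ) = B * N := by rw [hA]; push_cast; rfl
        have h7 : ((s m : ℕ) : ℤ) ≤ B * N := by exact_mod_cast h5
        have h8 : (0 : ℤ) ≤ ((s m : ℕ) : ℤ) := Int.natCast_nonneg _
        have h9 : (3 : ℤ) ≤ N := by exact_mod_cast hN3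
        push_cast
        rw [add_mul, one_mul]
        constructor <;> linarith
      have h5 := c1 x (fun m => ((s m : ℕ) : ℤ) - ((A : ℤ) + 1)) (by
        intro m hm
        exact_mod_cast hb m hm) (by
        have e := energy_eq h x s ((A : ℤ) + 1)
        rw [e]; exact hE) A (by rw [hA]; exact Nat.mul_le_mul_right _ (Nat.le_succ _)) z hzB0 hzhi
        (fun a => (((ArithmeticFunction.vonMangoldt (A + 1 - a) : ℝ) / Real.log (A + 1 : ℕ) : ℝ) : ℂ)) (by
          intro a
          rw [Complex.norm_real, Real.norm_eq_abs, abs_div, abs_of_nonneg ArithmeticFunction.vonMangoldt_nonneg,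
            abs_of_pos hA0, div_le_one hA0]
          exact vM_bd _ _ (Nat.sub_le _ _) (by omega))
      have h6 : ∀ m ∈ Icc 1 x, ‖∑ a ∈ Icc 1 A,
          (((ArithmeticFunction.vonMangoldt (A + 1 - a) : ℝ) / Real.log (A + 1 : ℕ) : ℝ) : ℂ) *
          ((lamI ((a : ℤ) + (((s m : ℕ) : ℤ) - ((A : ℤ) + 1))) - lamzI z ((a : ℤ) + (((s m : ℕ) : ℤ) - ((A : ℤ) + 1))) : ℝ) : ℂ)‖ =
          |D m| / Real.log (A + 1 : ℕ) := by
        intro m hm
        have h7 := reflect A z (s m) (hs m hm).1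
        have h8 : (∑ a ∈ Icc 1 A,
          (((ArithmeticFunction.vonMangoldt (A + 1 - a) : ℝ) / Real.log (A + 1 : ℕ) : ℝ) : ℂ) *
          ((lamI ((a : ℤ) + (((s m : ℕ) : ℤ) - ((A : ℤ) + 1))) - lamzI z ((a : ℤ) + (((s m : ℕ) : ℤ) - ((A : ℤ) + 1))) : ℝ) : ℂ)) =
          ((D m / Real.log (A + 1 : ℕ) : ℝ) : ℂ) := by
          rw [hD]
          simp only
          rw [← h7, Complex.ofReal_sum]
          apply sum_congr rfl
          intro a _
          rw [Complex.ofReal_mul]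
        rw [h8, Complex.norm_real, Real.norm_eq_abs, abs_div, abs_of_pos hA0]
      rw [sum_congr rfl h6, ← sum_div, div_le_iff₀ hA0] at h5
      have h9 : 0 ≤ (N : ℝ) * x / L ^ U' := by positivity
      calc _ ≤ _ := h5
        _ = Real.log (A + 1 : ℕ) * (N * x / L ^ U') := by ring
        _ ≤ _ := mul_le_mul_of_nonneg_right hAlog2 h9
    · have h5 : ∀ m ∈ Icc 1 x, |D m| = 0 := by
        intro m _
        rw [hD]
        simp only
        rw [hA0]
        simp
      rw [sum_congr rfl h5, sum_const_zero]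
      positivity
  -- small members
  set S1 := S.filter (fun m => (s m : ℝ) < N / L ^ W) with hS1
  set S2 := S.filter (fun m => ¬ (s m : ℝ) < N / L ^ W) with hS2
  have hcard : S.card = S1.card + S2.card := by
    rw [hS1, hS2, card_filter_add_card_filter_not]
  have hYpos : 1 ≤ (N : ℝ) / L ^ W := by
    rw [le_div_iff₀ (by positivity), one_mul]
    rw [one_mul] at c4
    calc L ^ W ≤ √(N : ℝ) := c4
      _ ≤ √(N : ℝ) * √(N : ℝ) := le_mul_of_one_le_left hsq0.le hsq1
      _ = N := hsq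
  have hx0 : (0 : ℝ) ≤ x := Nat.cast_nonneg _
  have hb1 : (S1.card : ℝ) ≤ x / L ^ (U + 1) := by
    have h5 := small_count h x ⌊(N : ℝ) / L ^ W⌋₊ s S1 ((filter_subset _ _).trans hSx) (by
      intro m hm
      rw [hS1, mem_filter] at hm
      exact Nat.le_floor hm.2.le)
    have h6 : (S1.card : ℝ) ^ (2 * h) ≤ (h * ⌊(N : ℝ) / L ^ W⌋₊ + 1) * energy h x s := by exact_mod_cast h5
    have h7 : ((h : ℝ) * ⌊(N : ℝ) / L ^ W⌋₊ + 1) ≤ (h + 1) * (N / L ^ W) := by
      have := Nat.floor_le (show 0 ≤ (N : ℝ) / L ^ W by positivity)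
      have := mul_le_mul_of_nonneg_left this hh0r
      linarith
    have h8 : (S1.card : ℝ) ^ (2 * h) * N ≤ (x / L ^ (U + 1)) ^ (2 * h) * N := by
      calc (S1.card : ℝ) ^ (2 * h) * N ≤ ((h * ⌊(N : ℝ) / L ^ W⌋₊ + 1) * energy h x s) * N :=
            mul_le_mul_of_nonneg_right h6 hN0.le
        _ = (h * ⌊(N : ℝ) / L ^ W⌋₊ + 1) * (energy h x s * N) := by ring
        _ ≤ ((h + 1) * (N / L ^ W)) * (L ^ C * (x : ℝ) ^ (2 * h)) := by
            apply mul_le_mul h7 hE (by positivity) (by positivity)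
        _ ≤ (L * (N / L ^ W)) * (L ^ C * (x : ℝ) ^ (2 * h)) := by
            apply mul_le_mul_of_nonneg_right _ (by positivity)
            apply mul_le_mul_of_nonneg_right (by linarith) (by positivity)
        _ = (x / L ^ (U + 1)) ^ (2 * h) * N := by
            have e : L ^ W = L ^ C * L * (L ^ (U + 1)) ^ (2 * h) := by
              rw [hW, ← pow_mul, ← pow_succ, ← pow_add]
              congr 1
              ring
            rw [e, div_pow]
            field_simp
    have h9 := le_of_mul_le_mul_right h8 hN0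
    exact le_of_pow_le_pow_left₀ (by omega) (by positivity) h9
  have hb2 : (S2.card : ℝ) ≤ 2 * (x / L ^ (U + 2)) := by
    have h5 : ∀ m ∈ S2, (N : ℝ) / L ^ (W + 1) ≤ |D m| := by
      intro m hm
      rw [hS2, mem_filter, not_lt] at hm
      by_contra hcon
      rw [not_le] at hcon
      apply hS m hm.1
      exact c2 z hz3 hzhi (s m) (hs m (hSx hm.1)).2 hm.2 (hs m (hSx hm.1)).1 hcon.le
    have h6 : (S2.card : ℝ) * (N / L ^ (W + 1)) ≤ 2 * L * (N * x / L ^ U') := by
      calc (S2.card : ℝ) * (N / L ^ (W + 1)) = ∑ _m ∈ S2, (N / L ^ (W + 1)) := by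
            rw [sum_const, nsmul_eq_mul]
        _ ≤ ∑ m ∈ S2, |D m| := sum_le_sum h5
        _ ≤ ∑ m ∈ Icc 1 x, |D m| :=
            sum_le_sum_of_subset_of_nonneg ((filter_subset _ _).trans hSx) fun _ _ _ => abs_nonneg _
        _ ≤ _ := hmom
    have h7 : 2 * L * (N * x / L ^ U') = 2 * (x / L ^ (U + 2)) * (N / L ^ (W + 1)) := by
      have e : L ^ U' = L * L ^ (U + 2) * L ^ (W + 1) := by
        rw [hU', ← pow_succ', ← pow_add]
        congr 1
        ring
      rw [e]
      field_simp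
    rw [h7] at h6
    exact le_of_mul_le_mul_right h6 (by positivity)
  rw [hcard]
  push_cast
  have e1 : (x : ℝ) / L ^ (U + 1) = x / L ^ U / L := by rw [pow_succ, div_div]
  have e2 : (x : ℝ) / L ^ (U + 2) = x / L ^ U / L ^ 2 := by rw [pow_add, div_div]
  have hq : 0 ≤ (x : ℝ) / L ^ U := by positivity
  have i1 : (x : ℝ) / L ^ U / L ≤ (x / L ^ U) / 2 := div_le_div_of_nonneg_left hq (by norm_num) (by linarith)
  have i2 : (x : ℝ) / L ^ U / L ^ 2 ≤ (x / L ^ U) / 4 := div_le_div_of_nonneg_left hq (by norm_num) (by nlinarith)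
  calc (S1.card : ℝ) + S2.card ≤ x / L ^ (U + 1) + 2 * (x / L ^ (U + 2)) := add_le_add hb1 hb2
    _ = x / L ^ U / L + 2 * (x / L ^ U / L ^ 2) := by rw [e1, e2]
    _ ≤ (x / L ^ U) / 2 + 2 * ((x / L ^ U) / 4) := by linarith
    _ = x / L ^ U := by ring

end Pool.Agent.W93.GB
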