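import Mathlib
import Pool.Agent.H560R3.GB.Defs
import Pool.Agent.H373R2.T7.TupleMain2

set_option autoImplicit false

/-! The singular series of the binary Goldbach problem and its truncations. -/

namespace Pool.Agent.W93.GB

open Finset Pool.Agent.H373R2.T7 Pool.Agent.H560R3.GB

/-- the shift `-n` -/
def sh (n : ℕ) : Fin 1 → ℤ := fun _ => -(n : ℤ)

/-- partial products of the twin prime constant -/
noncomputable def Pz (z : ℕ) : ℝ := ∏ p ∈ (Icc 3 z).filter Nat.Prime, (1 - 1 / ((p : ℝ) - 1) ^ 2)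

lemma C2_eq : C₂ = ⨅ z : ℕ, Pz z := rfl

lemma fac_pos (p : ℕ) (hp : 3 ≤ p) : 0 < 1 - 1 / ((p : ℝ) - 1) ^ 2 := by
  have h : (3 : ℝ) ≤ p := by exact_mod_cast hp
  rw [sub_pos, div_lt_one (by nlinarith)]
  nlinarith

lemma fac_le (p : ℕ) : 1 - 1 / ((p : ℝ) - 1) ^ 2 ≤ 1 := by
  have : 0 ≤ 1 / ((p : ℝ) - 1) ^ 2 := by positivity
  linarith

lemma Pz_pos (z : ℕ) : 0 < Pz z := by
  unfold Pz
  apply prod_pos
  intro p hp
  rw [mem_filter, mem_Icc] at hp
  exact fac_pos p hp.1.1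

lemma Pz_succ (z : ℕ) (hz : 2 ≤ z) : Pz z * (1 - 1 / (z : ℝ) ^ 2) ≤ Pz (z + 1) := by
  have hzr : (2 : ℝ) ≤ z := by exact_mod_cast hz
  have h0 := Pz_pos z
  have hfac : 1 - 1 / (z : ℝ) ^ 2 ≤ 1 := by
    have : 0 ≤ 1 / (z : ℝ) ^ 2 := by positivity
    linarith
  have e : (Icc 3 (z + 1) : Finset ℕ) = insert (z + 1) (Icc 3 z) := by
    ext p
    simp only [mem_insert, mem_Icc]
    omega
  by_cases hp : (z + 1).Prime
  · have h1 : Pz (z + 1) = (1 - 1 / (z : ℝ) ^ 2) * Pz z := by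
      unfold Pz
      rw [e, filter_insert, if_pos hp, prod_insert (by simp)]
      push_cast
      ring
    rw [h1, mul_comm]
  · have h1 : Pz (z + 1) = Pz z := by
      unfold Pz
      rw [e, filter_insert, if_neg hp]
    rw [h1]
    exact mul_le_of_le_one_right h0.le hfac

lemma Pz_tele (z : ℕ) (hz : 2 ≤ z) (z' : ℕ) (h : z ≤ z') :
    Pz z * (((z : ℝ) - 1) / z) * ((z' : ℝ) / (z' - 1)) ≤ Pz z' := by
  induction z', h using Nat.le_induction with
  | base =>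
    have hzr : (2 : ℝ) ≤ z := by exact_mod_cast hz
    have : (((z : ℝ) - 1) / z) * ((z : ℝ) / (z - 1)) = 1 := by
      have h1 : (z : ℝ) - 1 ≠ 0 := by linarith
      have h2 : (z : ℝ) ≠ 0 := by linarith
      field_simp
    rw [mul_assoc, this, mul_one]
  | succ y hy ih =>
    have hyr : (2 : ℝ) ≤ y := by exact_mod_cast (hz.trans hy)
    have h1 := Pz_succ y (hz.trans hy)
    have h2 : 0 ≤ 1 - 1 / (y : ℝ) ^ 2 := by
      rw [sub_nonneg, div_le_one (by positivity)]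
      nlinarith
    have h3 := mul_le_mul_of_nonneg_right ih h2
    have e : Pz z * (((z : ℝ) - 1) / z) * ((y : ℝ) / (y - 1)) * (1 - 1 / (y : ℝ) ^ 2) =
        Pz z * (((z : ℝ) - 1) / z) * (((y + 1 : ℕ) : ℝ) / (((y + 1 : ℕ) : ℝ) - 1)) := by
      push_cast
      have h4 : (y : ℝ) - 1 ≠ 0 := by linarith
      have h5 : (y : ℝ) ≠ 0 := by linarith
      have h6 : (y : ℝ) + 1 - 1 ≠ 0 := by
        rw [add_sub_cancel_right]; exact h5
      rw [mul_assoc]
      congr 1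
      rw [add_sub_cancel_right]
      field_simp
      ring
    linarith

lemma Pz_ge (z : ℕ) (hz : 2 ≤ z) (z' : ℕ) (h : z ≤ z') : Pz z * (1 - 1 / (z : ℝ)) ≤ Pz z' := by
  have h1 := Pz_tele z hz z' h
  have hzr : (2 : ℝ) ≤ z := by exact_mod_cast hz
  have hzr' : (2 : ℝ) ≤ z' := by exact_mod_cast hz.trans h
  have h2 : (1 : ℝ) ≤ (z' : ℝ) / (z' - 1) := by
    rw [le_div_iff₀ (by linarith)]
    linarith
  have h3 : ((z : ℝ) - 1) / z = 1 - 1 / z := by
    field_simp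
  have h4 : 0 ≤ 1 - 1 / (z : ℝ) := by
    rw [sub_nonneg, div_le_one (by linarith)]
    linarith
  rw [h3] at h1
  have h5 : 0 ≤ Pz z * (1 - 1 / (z : ℝ)) := mul_nonneg (Pz_pos z).le h4
  calc Pz z * (1 - 1 / (z : ℝ)) = Pz z * (1 - 1 / (z : ℝ)) * 1 := by ring
    _ ≤ Pz z * (1 - 1 / (z : ℝ)) * ((z' : ℝ) / (z' - 1)) := mul_le_mul_of_nonneg_left h2 h5
    _ ≤ _ := h1

lemma Pz_anti {z z' : ℕ} (h : z ≤ z') : Pz z' ≤ Pz z := by
  unfold Pz
  have hsub : (Icc 3 z).filter Nat.Prime ⊆ (Icc 3 z').filter Nat.Prime := by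
    apply filter_subset_filter
    intro p hp
    rw [mem_Icc] at hp ⊢
    omega
  rw [← prod_sdiff hsub]
  have h1 : ∏ p ∈ (Icc 3 z').filter Nat.Prime \ (Icc 3 z).filter Nat.Prime, (1 - 1 / ((p : ℝ) - 1) ^ 2) ≤ 1 := by
    apply prod_le_one
    · intro p hp
      rw [mem_sdiff, mem_filter, mem_Icc] at hp
      exact (fac_pos p hp.1.1.1).le
    · intro p _
      exact fac_le p
  exact mul_le_of_le_one_left (Pz_pos z).le h1

lemma Pz_bdd : BddBelow (Set.range Pz) := ⟨0, by rintro _ ⟨z, rfl⟩; exact (Pz_pos z).le⟩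

lemma C2_le (z : ℕ) : C₂ ≤ Pz z := by
  rw [C2_eq]
  exact ciInf_le Pz_bdd z

lemma C2_ge (z : ℕ) (hz : 2 ≤ z) : Pz z * (1 - 1 / (z : ℝ)) ≤ C₂ := by
  rw [C2_eq]
  apply le_ciInf
  intro z'
  rcases le_total z z' with h | h
  · exact Pz_ge z hz z' h
  · have h1 := Pz_anti h
    have hzr : (2 : ℝ) ≤ z := by exact_mod_cast hz
    have h2 : 1 - 1 / (z : ℝ) ≤ 1 := by
      have : 0 ≤ 1 / (z : ℝ) := by positivity
      linarith
    calc Pz z * (1 - 1 / (z : ℝ)) ≤ Pz z := mul_le_of_le_one_right (Pz_pos z).le h2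
      _ ≤ _ := h1

lemma C2_half : 1 / 2 ≤ C₂ := by
  have h := C2_ge 2 le_rfl
  have h1 : Pz 2 = 1 := by
    unfold Pz
    have : (Icc 3 2 : Finset ℕ) = ∅ := by simp
    rw [this]; simp
  rw [h1] at h
  norm_num at h ⊢
  linarith

lemma C2_pos : 0 < C₂ := by linarith [C2_half]

/-- the factor at the primes dividing `n` -/
noncomputable def dv (p : ℕ) : ℝ := ((p : ℝ) - 1) / ((p : ℝ) - 2)

lemma one_le_dv (p : ℕ) (hp : 2 < p) : 1 ≤ dv p := by
  have h : (3 : ℝ) ≤ p := by exact_mod_cast hp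
  unfold dv
  rw [le_div_iff₀ (by linarith)]
  linarith

lemma dv_le (p z : ℕ) (hp : 2 < p) (hz : z < p) (hz2 : 2 ≤ z) : dv p ≤ Real.exp (1 / ((z : ℝ) - 1)) := by
  have h : (3 : ℝ) ≤ p := by exact_mod_cast hp
  have h1 : (z : ℝ) + 1 ≤ p := by exact_mod_cast hz
  have h2 : (2 : ℝ) ≤ z := by exact_mod_cast hz2
  have h3 : dv p ≤ 1 / ((z : ℝ) - 1) + 1 := by
    unfold dv
    have e : ((p : ℝ) - 1) / ((p : ℝ) - 2) = 1 / ((p : ℝ) - 2) + 1 := by
      have : (p : ℝ) - 2 ≠ 0 := by linarith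
      field_simp
      ring
    rw [e]
    have : 1 / ((p : ℝ) - 2) ≤ 1 / ((z : ℝ) - 1) := one_div_le_one_div_of_le (by linarith) (by linarith)
    linarith
  exact h3.trans (Real.add_one_le_exp _)

lemma sing_eq (n : ℕ) : sing n = 2 * C₂ * ∏ p ∈ n.primeFactors.filter (fun p => 2 < p), dv p := rfl

lemma one_le_prod_dv (S : Finset ℕ) (h : ∀ p ∈ S, 2 < p) : 1 ≤ ∏ p ∈ S, dv p := by
  calc (1 : ℝ) = ∏ _p ∈ S, (1 : ℝ) := by simp
    _ ≤ ∏ p ∈ S, dv p := prod_le_prod (fun _ _ => zero_le_one) (fun p hp => one_le_dv p (h p hp))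

lemma one_le_sing (n : ℕ) : 1 ≤ sing n := by
  rw [sing_eq]
  have h1 := C2_half
  have h2 := one_le_prod_dv (n.primeFactors.filter (fun p => 2 < p)) (fun p hp => (mem_filter.1 hp).2)
  nlinarith

lemma nuP_sh (n p : ℕ) (hp : p.Prime) : nuP (sh n) p = if p ∣ n then 1 else 2 := by
  rw [nuP_eq _ _ hp]
  unfold rhoP sh
  split_ifs with h
  · have : (range p).filter (fun r : ℕ => ¬ p ∣ r ∧ ∃ _i : Fin 1, (p : ℤ) ∣ (r : ℤ) + -(n : ℤ)) = ∅ := by
      rw [filter_eq_empty_iff]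
      rintro r _ ⟨h1, ⟨_, h2⟩⟩
      apply h1
      have h3 : (p : ℤ) ∣ (n : ℤ) := by exact_mod_cast h
      have h4 := dvd_add h2 h3
      rw [neg_add_cancel_right] at h4
      exact_mod_cast h4
    rw [this, card_empty]
  · have : (range p).filter (fun r : ℕ => ¬ p ∣ r ∧ ∃ _i : Fin 1, (p : ℤ) ∣ (r : ℤ) + -(n : ℤ)) = {n % p} := by
      ext r
      rw [mem_filter, mem_range, mem_singleton]
      constructor
      · rintro ⟨h1, _, ⟨_, h3⟩⟩
        have h4 : (n : ℤ) ≡ (r : ℤ) [ZMOD p] := by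
          apply Int.modEq_iff_dvd.2
          have : (r : ℤ) - n = (r : ℤ) + -(n : ℤ) := by ring
          rw [this]; exact h3
        have h5 : n ≡ r [MOD p] := (Int.natCast_modEq_iff).1 h4
        have h6 : n % p = r % p := h5
        rw [h6, Nat.mod_eq_of_lt h1]
      · rintro rfl
        refine ⟨Nat.mod_lt _ hp.pos, ?_, ⟨0, ?_⟩⟩
        · intro h1
          exact h ((Nat.dvd_mod_iff (dvd_refl p)).1 h1)
        · have h5 : n % p ≡ n [MOD p] := Nat.mod_modEq n p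
          have h6 := (Int.natCast_modEq_iff).2 h5.symm
          have h7 := Int.modEq_iff_dvd.1 h6
          have : ((n % p : ℕ) : ℤ) + -(n : ℤ) = ((n % p : ℕ) : ℤ) - n := by ring
          rw [this]
          exact h7
    rw [this, card_singleton]

lemma singZ_sh (n z : ℕ) (hn : 2 ∣ n) (hn0 : n ≠ 0) (hz : 2 ≤ z) : singZ (sh n) z =
    2 * Pz z * ∏ p ∈ n.primeFactors.filter (fun p => 2 < p ∧ p ≤ z), dv p := by
  unfold singZ
  have e1 : (Icc 1 z).filter Nat.Prime = insert 2 ((Icc 3 z).filter Nat.Prime) := by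
    ext p
    rw [mem_insert, mem_filter, mem_filter, mem_Icc, mem_Icc]
    constructor
    · rintro ⟨⟨h1, h2⟩, h3⟩
      rcases Nat.lt_or_ge 2 p with h | h
      · exact Or.inr ⟨⟨h, h2⟩, h3⟩
      · left
        have := h3.two_le
        omega
    · rintro (h | ⟨⟨h1, h2⟩, h3⟩)
      · rw [h]; exact ⟨⟨by omega, hz⟩, Nat.prime_two⟩
      · exact ⟨⟨by omega, h2⟩, h3⟩
  rw [e1, prod_insert (by simp)]
  have e2 : (1 - (nuP (sh n) 2 : ℝ) / ((2 : ℕ) : ℝ)) / (1 - 1 / ((2 : ℕ) : ℝ)) ^ (1 + 1) = 2 := by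
    rw [nuP_sh n 2 Nat.prime_two, if_pos hn]
    norm_num
  rw [e2, mul_assoc]
  congr 1
  have e3 : n.primeFactors.filter (fun p => 2 < p ∧ p ≤ z) = ((Icc 3 z).filter Nat.Prime).filter (fun p => p ∣ n) := by
    ext p
    simp only [mem_filter, mem_Icc, Nat.mem_primeFactors]
    constructor
    · rintro ⟨⟨h1, h2, h3⟩, h4, h5⟩
      exact ⟨⟨⟨h4, h5⟩, h1⟩, h2⟩
    · rintro ⟨⟨⟨h4, h5⟩, h1⟩, h2⟩
      exact ⟨⟨h1, h2, hn0⟩, h4, h5⟩
  rw [e3, prod_filter (fun p => p ∣ n)]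
  unfold Pz
  rw [← prod_mul_distrib]
  apply prod_congr rfl
  intro p hp
  rw [mem_filter, mem_Icc] at hp
  have h3 : (3 : ℝ) ≤ p := by exact_mod_cast hp.1.1
  have a1 : (p : ℝ) - 1 ≠ 0 := by linarith
  have a2 : (p : ℝ) - 2 ≠ 0 := by linarith
  have a3 : (p : ℝ) ≠ 0 := by linarith
  have a4 : 1 - 1 / (p : ℝ) ≠ 0 := by
    rw [ne_eq, sub_eq_zero, eq_comm, div_eq_one_iff_eq a3]
    linarith
  rw [nuP_sh n p hp.2]
  split_ifs with h
  · unfold dv
    push_cast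
    field_simp
    ring
  · push_cast
    field_simp
    ring

lemma sing_ge (n z : ℕ) (hn : 2 ∣ n) (hn0 : n ≠ 0) (hz : 2 ≤ z) : (1 - 1 / (z : ℝ)) * singZ (sh n) z ≤ sing n := by
  rw [singZ_sh n z hn hn0 hz, sing_eq]
  have h1 := C2_ge z hz
  have h2 : ∏ p ∈ n.primeFactors.filter (fun p => 2 < p ∧ p ≤ z), dv p ≤
      ∏ p ∈ n.primeFactors.filter (fun p => 2 < p), dv p := by
    have hsub : n.primeFactors.filter (fun p => 2 < p ∧ p ≤ z) ⊆ n.primeFactors.filter (fun p => 2 < p) := by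
      intro p hp
      rw [mem_filter] at hp ⊢
      exact ⟨hp.1, hp.2.1⟩
    rw [← prod_sdiff hsub]
    have h3 := one_le_prod_dv (n.primeFactors.filter (fun p => 2 < p) \ n.primeFactors.filter (fun p => 2 < p ∧ p ≤ z))
      (fun p hp => (mem_filter.1 (mem_sdiff.1 hp).1).2)
    have h4 := one_le_prod_dv (n.primeFactors.filter (fun p => 2 < p ∧ p ≤ z)) (fun p hp => (mem_filter.1 hp).2.1)
    nlinarith
  have h4 := one_le_prod_dv (n.primeFactors.filter (fun p => 2 < p ∧ p ≤ z)) (fun p hp => (mem_filter.1 hp).2.1)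
  calc (1 - 1 / (z : ℝ)) * (2 * Pz z * ∏ p ∈ n.primeFactors.filter (fun p => 2 < p ∧ p ≤ z), dv p)
      = 2 * (Pz z * (1 - 1 / (z : ℝ))) * ∏ p ∈ n.primeFactors.filter (fun p => 2 < p ∧ p ≤ z), dv p := by ring
    _ ≤ 2 * C₂ * ∏ p ∈ n.primeFactors.filter (fun p => 2 < p ∧ p ≤ z), dv p := by
        apply mul_le_mul_of_nonneg_right _ (by linarith)
        linarith
    _ ≤ _ := mul_le_mul_of_nonneg_left h2 (by linarith [C2_pos])

lemma sing_le (n z : ℕ) (hn : 2 ∣ n) (hn0 : n ≠ 0) (hz : 2 ≤ z) :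
    sing n ≤ Real.exp ((Nat.log 2 n : ℝ) / ((z : ℝ) - 1)) * singZ (sh n) z := by
  rw [singZ_sh n z hn hn0 hz, sing_eq]
  have hzr : (2 : ℝ) ≤ z := by exact_mod_cast hz
  have hsub : n.primeFactors.filter (fun p => 2 < p ∧ p ≤ z) ⊆ n.primeFactors.filter (fun p => 2 < p) := by
    intro p hp
    rw [mem_filter] at hp ⊢
    exact ⟨hp.1, hp.2.1⟩
  rw [← prod_sdiff hsub]
  set T := n.primeFactors.filter (fun p => 2 < p) \ n.primeFactors.filter (fun p => 2 < p ∧ p ≤ z) with hT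
  have h1 : ∏ p ∈ T, dv p ≤ ∏ _p ∈ T, Real.exp (1 / ((z : ℝ) - 1)) := by
    apply prod_le_prod
    · intro p hp
      have h2 : 2 < p := (mem_filter.1 (mem_sdiff.1 hp).1).2
      linarith [one_le_dv p h2]
    · intro p hp
      rw [hT, mem_sdiff, mem_filter, mem_filter] at hp
      have h2 : 2 < p := hp.1.2
      apply dv_le p z h2 _ hz
      by_contra hcon
      exact hp.2 ⟨hp.1.1, h2, not_lt.1 hcon⟩
  have hcard : T.card ≤ Nat.log 2 n := by
    have h2 : T.card ≤ n.primeFactors.card := card_le_card (sdiff_subset.trans (filter_subset _ _))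
    have h3 : 2 ^ n.primeFactors.card ≤ n := by
      calc 2 ^ n.primeFactors.card = ∏ _p ∈ n.primeFactors, 2 := by rw [prod_const]
        _ ≤ ∏ p ∈ n.primeFactors, p := prod_le_prod' fun p hp => (Nat.prime_of_mem_primeFactors hp).two_le
        _ ≤ n := Nat.le_of_dvd (Nat.pos_of_ne_zero hn0) (Nat.prod_primeFactors_dvd n)
    have h4 : n.primeFactors.card ≤ Nat.log 2 n := by
      apply (Nat.le_log_iff_pow_le (by norm_num) hn0).2
      exact h3
    exact h2.trans h4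
  have h2 : ∏ _p ∈ T, Real.exp (1 / ((z : ℝ) - 1)) ≤ Real.exp ((Nat.log 2 n : ℝ) / ((z : ℝ) - 1)) := by
    rw [prod_const, ← Real.exp_nat_mul]
    apply Real.exp_le_exp.2
    rw [mul_one_div]
    apply div_le_div_of_nonneg_right _ (by linarith)
    exact_mod_cast hcard
  have h4 := one_le_prod_dv (n.primeFactors.filter (fun p => 2 < p ∧ p ≤ z)) (fun p hp => (mem_filter.1 hp).2.1)
  have h5 := one_le_prod_dv T (fun p hp => (mem_filter.1 (mem_sdiff.1 hp).1).2)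
  have h6 := C2_le z
  have h7 := C2_pos
  calc 2 * C₂ * ((∏ p ∈ T, dv p) * ∏ p ∈ n.primeFactors.filter (fun p => 2 < p ∧ p ≤ z), dv p)
      ≤ 2 * Pz z * (Real.exp ((Nat.log 2 n : ℝ) / ((z : ℝ) - 1)) * ∏ p ∈ n.primeFactors.filter (fun p => 2 < p ∧ p ≤ z), dv p) := by
        apply mul_le_mul (by linarith) _ (by positivity) (by linarith)
        exact mul_le_mul_of_nonneg_right (h1.trans h2) (by linarith)
    _ = _ := by ring

end Pool.Agent.W93.GB
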