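import Mathlib
import Pool.Agent.W93.GB2
import Pool.Agent.H373R2.T7.TupleMain2

set_option autoImplicit false

/-! Asymptotic comparison of the weighted count and `g`. -/

namespace Pool.Agent.W93.GB

open Finset Pool.Agent.H373R2.T7 Pool.Agent.H560R3.GB

lemma exp_cube (κ L : ℝ) (hκ : 0 < κ) (hL : 0 ≤ L) : (κ * L) ^ 3 / 6 ≤ Real.exp (κ * L) := by
  have h := Real.pow_div_factorial_le_exp (κ * L) (by positivity) 3
  have : ((3).factorial : ℝ) = 6 := by norm_num [Nat.factorial]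
  rw [this] at h
  exact h

theorem g_of_R_aux (ε : ℝ) (hε : 0 < ε) (hε1 : ε ≤ 1 / 2) : ∃ δ : ℝ, 0 < δ ∧ ∃ n0 : ℕ, ∀ n : ℕ, n0 ≤ n →
    |Rw n - sing n * n| ≤ δ * (sing n * n) → |(g n : ℝ) - HL n| ≤ ε * HL n ∧ 2 ≤ g n := by
  set δ := ε / 20 with hδ
  have hδ0 : 0 < δ := by positivity
  have hδ1 : δ ≤ 1 / 40 := by rw [hδ]; linarith
  obtain ⟨n1, h1⟩ := ev_log' 2 (4 / δ)
  obtain ⟨n2, h2⟩ := ev_L' (18 / (δ * δ ^ 3) + 1 / δ + 1)
  refine ⟨δ, hδ0, max (max n1 n2) 3, fun n hn hR => ?_⟩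
  have hn1 := h1 n (le_trans (le_trans (le_max_left _ _) (le_max_left _ _)) hn)
  have hn2 := h2 n (le_trans (le_trans (le_max_right _ _) (le_max_left _ _)) hn)
  have hn3 : 3 ≤ n := le_trans (le_max_right _ _) hn
  have hnr : (3 : ℝ) ≤ n := by exact_mod_cast hn3
  have hn0 : (0 : ℝ) < n := by linarith
  set L := Real.log n with hL
  have hd3 : 0 < 18 / (δ * δ ^ 3) := by positivity
  have hd1 : 0 < 1 / δ := by positivity
  have hL1 : 1 ≤ L := by linarith
  have hL0 : 0 < L := by linarith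
  have hs := one_le_sing n
  set X := sing n * n with hX
  have hXn : (n : ℝ) ≤ X := by rw [hX]; exact le_mul_of_one_le_left hn0.le hs
  have hX0 : 0 < X := by linarith
  have hHL : HL n = X / L ^ 2 := by
    unfold HL
    rw [hX]; ring
  have hsq : √(n : ℝ) * √(n : ℝ) = n := Real.mul_self_sqrt hn0.le
  have hsq0 : 0 < √(n : ℝ) := Real.sqrt_pos.2 hn0
  obtain ⟨hRl, hRu⟩ := abs_le.1 hR
  -- (i)
  have i1 : 4 * √(n : ℝ) * L ^ 2 ≤ δ * X := by
    have a1 : 4 * L ^ 2 ≤ δ * √(n : ℝ) := by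
      have := mul_le_mul_of_nonneg_left hn1 hδ0.le
      have e : δ * (4 / δ * L ^ 2) = 4 * L ^ 2 := by field_simp
      rw [e] at this
      exact this
    calc 4 * √(n : ℝ) * L ^ 2 = √(n : ℝ) * (4 * L ^ 2) := by ring
      _ ≤ √(n : ℝ) * (δ * √(n : ℝ)) := mul_le_mul_of_nonneg_left a1 hsq0.le
      _ = (√(n : ℝ) * √(n : ℝ)) * δ := by ring
      _ = δ * n := by rw [hsq]; ring
      _ ≤ δ * X := mul_le_mul_of_nonneg_left hXn hδ0.le
  -- lower bound
  have low : (1 - 2 * δ) * X ≤ g n * L ^ 2 := by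
    have a1 := Rw_le n (by omega)
    have a2 := Pw_le_g n (by omega)
    linarith
  have low' : (1 - 2 * δ) * HL n ≤ g n := by
    rw [hHL, mul_div_assoc', div_le_iff₀ (by positivity)]
    exact low
  -- (ii)
  set y := ⌊Real.exp ((1 - δ) * L)⌋₊ with hy
  have hexp2 : 2 ≤ Real.exp ((1 - δ) * L) := by
    have a0 : 1 ≤ (1 - δ) * L := by
      have : 2 ≤ L := by
        have : 40 ≤ 1 / δ := by
          rw [le_div_iff₀ hδ0]; linarith
        linarith
      nlinarith
    have := Real.exp_one_gt_d9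
    have := Real.exp_le_exp.2 a0
    linarith
  have hy2 : 2 ≤ y := Nat.le_floor (by exact_mod_cast hexp2)
  have hyr : (y : ℝ) ≤ Real.exp ((1 - δ) * L) := Nat.floor_le (Real.exp_pos _).le
  have hyl : Real.exp ((1 - δ) * L) / 2 ≤ y := by
    have := Nat.lt_floor_add_one (Real.exp ((1 - δ) * L))
    rw [← hy] at this
    linarith
  have hsplit : Real.exp ((1 - δ) * L) * Real.exp (δ * L) = n := by
    rw [← Real.exp_add]
    have : (1 - δ) * L + δ * L = L := by ring
    rw [this, hL, Real.exp_log hn0]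
  have ii : 3 * Real.exp ((1 - δ) * L) * L ^ 2 ≤ δ * X := by
    have a1 := exp_cube δ L hδ0 hL0.le
    have a2 : 3 * L ^ 2 ≤ δ * Real.exp (δ * L) := by
      have a3 : 18 / (δ * δ ^ 3) ≤ L := by linarith
      rw [div_le_iff₀ (by positivity)] at a3
      have a4 : 3 * L ^ 2 ≤ δ * ((δ * L) ^ 3 / 6) := by
        have : δ * ((δ * L) ^ 3 / 6) = (L * (δ * δ ^ 3)) * L ^ 2 / 6 := by ring
        rw [this]
        have a5 : 18 * L ^ 2 ≤ (L * (δ * δ ^ 3)) * L ^ 2 := mul_le_mul_of_nonneg_right a3 (by positivity)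
        linarith
      exact a4.trans (mul_le_mul_of_nonneg_left a1 hδ0.le)
    calc 3 * Real.exp ((1 - δ) * L) * L ^ 2 = Real.exp ((1 - δ) * L) * (3 * L ^ 2) := by ring
      _ ≤ Real.exp ((1 - δ) * L) * (δ * Real.exp (δ * L)) := mul_le_mul_of_nonneg_left a2 (Real.exp_pos _).le
      _ = δ * n := by rw [← hsplit]; ring
      _ ≤ δ * X := mul_le_mul_of_nonneg_left hXn hδ0.le
  -- (iii)
  have iii : (1 - 2 * δ) * L ≤ Real.log y := by
    have a1 : Real.log (Real.exp ((1 - δ) * L) / 2) ≤ Real.log y := Real.log_le_log (by positivity) hyl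
    rw [Real.log_div (Real.exp_pos _).ne' (by norm_num), Real.log_exp] at a1
    have a2 := Real.log_two_lt_d9
    have a3 : 1 ≤ δ * L := by
      have : 1 / δ ≤ L := by linarith
      rw [div_le_iff₀ hδ0] at this
      linarith
    linarith
  have up : (g n : ℝ) ≤ (1 + ε) * HL n := by
    have a1 := g_le n y hy2
    have a2 : (2 * (y : ℝ) + 1) ≤ δ * HL n := by
      rw [hHL, mul_div_assoc', le_div_iff₀ (by positivity)]
      have : (2 * (y : ℝ) + 1) * L ^ 2 ≤ 3 * Real.exp ((1 - δ) * L) * L ^ 2 := by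
        apply mul_le_mul_of_nonneg_right _ (by positivity)
        linarith
      linarith
    have hpos : 0 < (1 - 2 * δ) * L := by
      apply mul_pos _ hL0
      linarith
    have a3 : Rw n / Real.log y ^ 2 ≤ (1 + δ) * X / ((1 - 2 * δ) * L) ^ 2 := by
      apply div_le_div₀ (by positivity) (by linarith) (by positivity)
      exact pow_le_pow_left₀ hpos.le iii 2
    have a4 : (1 + δ) * X / ((1 - 2 * δ) * L) ^ 2 = (1 + δ) / (1 - 2 * δ) ^ 2 * HL n := by
      rw [hHL]
      have : (1 - 2 * δ) ≠ 0 := by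
        have : 0 < 1 - 2 * δ := by linarith
        exact this.ne'
      field_simp
    have a5 : (1 + δ) / (1 - 2 * δ) ^ 2 + δ ≤ 1 + ε := by
      have b1 : 0 < (1 - 2 * δ) ^ 2 := by
        have : 0 < 1 - 2 * δ := by linarith
        positivity
      have b2 : (1 + δ) / (1 - 2 * δ) ^ 2 ≤ 1 + 19 * δ := by
        rw [div_le_iff₀ b1]
        have b3 : 0 ≤ δ * (14 - 72 * δ + 76 * δ ^ 2) := by
          apply mul_nonneg hδ0.le
          have : 0 ≤ δ ^ 2 := sq_nonneg δ
          linarith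
        have b4 : (1 + 19 * δ) * (1 - 2 * δ) ^ 2 = 1 + δ + δ * (14 - 72 * δ + 76 * δ ^ 2) := by ring
        linarith
      have : ε = 20 * δ := by rw [hδ]; ring
      linarith
    have hHL0 : 0 ≤ HL n := by rw [hHL]; positivity
    calc (g n : ℝ) ≤ δ * HL n + (1 + δ) / (1 - 2 * δ) ^ 2 * HL n := by
          rw [← a4]; linarith
      _ = ((1 + δ) / (1 - 2 * δ) ^ 2 + δ) * HL n := by ring
      _ ≤ _ := mul_le_mul_of_nonneg_right a5 hHL0
  have hHL0 : 0 ≤ HL n := by rw [hHL]; positivity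
  refine ⟨?_, ?_⟩
  · rw [abs_le]
    constructor
    · have : (1 - ε) * HL n ≤ (1 - 2 * δ) * HL n := mul_le_mul_of_nonneg_right (by rw [hδ]; linarith) hHL0
      linarith
    · linarith
  · have a1 : (2 : ℝ) ≤ g n := by
      refine le_trans ?_ low'
      have a2 : 4 ≤ HL n := by
        rw [hHL, le_div_iff₀ (by positivity)]
        have a3 : 1 ≤ √(n : ℝ) := by
          rw [Real.one_le_sqrt]; linarith
        have a4 : 4 * L ^ 2 ≤ 4 * √(n : ℝ) * L ^ 2 := by
          apply mul_le_mul_of_nonneg_right _ (by positivity)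
          linarith
        have a5 : δ * X ≤ X := mul_le_of_le_one_left hX0.le (by linarith)
        linarith
      have a6 : 0 ≤ (1 - 2 * δ - 19 / 20) * HL n := mul_nonneg (by linarith) hHL0
      have a7 : (1 - 2 * δ) * HL n = (1 - 2 * δ - 19 / 20) * HL n + 19 / 20 * HL n := by ring
      linarith
    exact_mod_cast a1

theorem g_of_R (ε : ℝ) (hε : 0 < ε) : ∃ δ : ℝ, 0 < δ ∧ ∃ n0 : ℕ, ∀ n : ℕ, n0 ≤ n →
    |Rw n - sing n * n| ≤ δ * (sing n * n) → |(g n : ℝ) - HL n| ≤ ε * HL n ∧ 2 ≤ g n := by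
  obtain ⟨δ, hδ, n0, h⟩ := g_of_R_aux (min ε (1 / 2)) (by positivity) (min_le_right _ _)
  refine ⟨δ, hδ, n0, fun n hn hR => ?_⟩
  obtain ⟨h1, h2⟩ := h n hn hR
  refine ⟨h1.trans ?_, h2⟩
  apply mul_le_mul_of_nonneg_right (min_le_left _ _)
  unfold HL
  have := one_le_sing n
  positivity

lemma singZ_near (η : ℝ) (hη : 0 < η) : ∃ n0 : ℕ, ∀ n : ℕ, n0 ≤ n → 2 ∣ n → ∀ z : ℕ, Real.log n ^ 2 ≤ z →
    |singZ (sh n) z - sing n| ≤ η * sing n := by
  obtain ⟨n1, h1⟩ := ev_L' (8 / η + 8)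
  refine ⟨max n1 3, fun n hn h2 z hz => ?_⟩
  have hL := h1 n (le_trans (le_max_left _ _) hn)
  have hn3 : 3 ≤ n := le_trans (le_max_right _ _) hn
  have hnr : (3 : ℝ) ≤ n := by exact_mod_cast hn3
  set L := Real.log n with hLd
  have h8 : 0 < 8 / η := by positivity
  have hL8 : 8 ≤ L := by linarith
  have hzL : 8 * L ≤ z := by nlinarith
  have hz64 : (64 : ℝ) ≤ z := by nlinarith
  have hz2 : 2 ≤ z := by
    have : (2 : ℝ) ≤ z := by linarith
    exact_mod_cast this
  have hs := one_le_sing n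
  have hs0 : 0 < sing n := by linarith
  have a1 := sing_ge n z h2 (by omega) hz2
  have a2 := sing_le n z h2 (by omega) hz2
  have hlog2 : (Nat.log 2 n : ℝ) ≤ 2 * L := natlog_le n (by omega)
  have hzL2 : L * L ≤ z := by rw [← sq]; exact hz
  have hLη : 8 / η ≤ L := by linarith
  have h8L : 8 ≤ L * η := by rwa [div_le_iff₀ hη] at hLη
  rw [abs_le]
  constructor
  · -- lower bound for `singZ`
    have b1 : (Nat.log 2 n : ℝ) / ((z : ℝ) - 1) ≤ η / 2 := by
      rw [div_le_iff₀ (by linarith)]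
      have : 2 * L ≤ η / 2 * ((z : ℝ) - 1) := by
        have c1 : η * (L * L) ≤ η * z := mul_le_mul_of_nonneg_left hzL2 hη.le
        have c2 : 8 * L ≤ η * (L * L) := by nlinarith
        have c3 : η / 2 * ((z : ℝ) - 1) = η * z / 2 - η / 2 := by ring
        have c4 : η / 2 ≤ 2 * L ∨ 2 * L < η / 2 := le_or_gt _ _
        rcases c4 with c4 | c4
        · linarith
        · have c5 : η / 2 ≤ η * z / 4 := by nlinarith
          have c6 : 2 * L ≤ η * z / 4 := by nlinarith
          linarith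
      linarith
    rcases le_or_gt 1 η with hη1 | hη1
    · have c1 : 0 ≤ singZ (sh n) z := by
        rw [singZ_sh n z h2 (by omega) hz2]
        have c2 := one_le_prod_dv (n.primeFactors.filter (fun p => 2 < p ∧ p ≤ z)) (fun p hp => (mem_filter.1 hp).2.1)
        have c3 := Pz_pos z
        positivity
      nlinarith
    · have b2 : sing n ≤ Real.exp (η / 2) * singZ (sh n) z := by
        refine a2.trans ?_
        apply mul_le_mul_of_nonneg_right (Real.exp_le_exp.2 b1)
        rw [singZ_sh n z h2 (by omega) hz2]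
        have c2 := one_le_prod_dv (n.primeFactors.filter (fun p => 2 < p ∧ p ≤ z)) (fun p hp => (mem_filter.1 hp).2.1)
        have c3 := Pz_pos z
        positivity
      have b3 : (1 - η / 2) * sing n ≤ singZ (sh n) z := by
        have c1 : 1 - η / 2 ≤ Real.exp (-(η / 2)) := by
          have := Real.add_one_le_exp (-(η / 2))
          linarith
        calc (1 - η / 2) * sing n ≤ Real.exp (-(η / 2)) * sing n := mul_le_mul_of_nonneg_right c1 hs0.le
          _ ≤ Real.exp (-(η / 2)) * (Real.exp (η / 2) * singZ (sh n) z) := mul_le_mul_of_nonneg_left b2 (Real.exp_pos _).le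
          _ = singZ (sh n) z := by rw [← mul_assoc, ← Real.exp_add, neg_add_cancel, Real.exp_zero, one_mul]
      nlinarith
  · have b1 : 1 / (z : ℝ) ≤ η / 8 := by
      rw [div_le_iff₀ (by linarith)]
      nlinarith
    have b2 : 1 / (z : ℝ) ≤ 1 / 64 := one_div_le_one_div_of_le (by norm_num) hz64
    have b4 : 0 < 1 - 1 / (z : ℝ) := by linarith
    have b3 : singZ (sh n) z ≤ sing n / (1 - 1 / (z : ℝ)) := by
      rw [le_div_iff₀ b4]
      linarith
    have b5 : sing n / (1 - 1 / (z : ℝ)) ≤ (1 + η) * sing n := by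
      rw [div_le_iff₀ b4]
      have : 1 ≤ (1 + η) * (1 - 1 / (z : ℝ)) := by nlinarith
      calc sing n = 1 * sing n := by ring
        _ ≤ ((1 + η) * (1 - 1 / (z : ℝ))) * sing n := mul_le_mul_of_nonneg_right this hs0.le
        _ = _ := by ring
    linarith

/-- a number whose weighted count is close to the model satisfies the formula -/
theorem good_of (ε : ℝ) (hε : 0 < ε) (B W E : ℕ) : ∃ N0 : ℕ, ∀ N : ℕ, N0 ≤ N → ∀ z : ℕ,
    Real.log N ^ 3 ≤ z → (z : ℝ) ≤ Real.log N ^ E → ∀ n : ℕ, 2 ∣ n → (N : ℝ) / Real.log N ^ W ≤ n → n ≤ B * N →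
    |∑ b ∈ Icc 1 (B * N), ArithmeticFunction.vonMangoldt b * (lamI ((n : ℤ) - b) - lamzI z ((n : ℤ) - b))| ≤
      N / Real.log N ^ (W + 1) →
    |(g n : ℝ) - HL n| ≤ ε * HL n ∧ ∃ p q : ℕ, p.Prime ∧ q.Prime ∧ p ≠ q ∧ p + q = n := by
  obtain ⟨δ, hδ, n0, hg⟩ := g_of_R ε hε
  obtain ⟨n1, hs⟩ := singZ_near (δ / 4) (by positivity)
  obtain ⟨n2, ht⟩ := tuple_main 1 (E + 1) 1 le_rfl
  obtain ⟨m1, h1⟩ := ev_L' (2 ^ (E + 2) + 16 / δ + B + 2)
  obtain ⟨m2, h2⟩ := ev_log' W 1
  set M := max n0 (max n1 n2) with hM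
  refine ⟨max (max m1 m2) (max ((M + 1) ^ 2) 3), fun N hN z hz hzE n hn hnN hnB hdiff => ?_⟩
  have b1 := h1 N (le_trans (le_trans (le_max_left _ _) (le_max_left _ _)) hN)
  have b2 := h2 N (le_trans (le_trans (le_max_right _ _) (le_max_left _ _)) hN)
  have b3 : (M + 1) ^ 2 ≤ N := le_trans (le_trans (le_max_left _ _) (le_max_right _ _)) hN
  have hN3 : 3 ≤ N := le_trans (le_trans (le_max_right _ _) (le_max_right _ _)) hN
  have hNr : (3 : ℝ) ≤ N := by exact_mod_cast hN3
  have hN0 : (0 : ℝ) < N := by linarith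
  set L := Real.log N with hLd
  have hB0 : (0 : ℝ) ≤ B := Nat.cast_nonneg _
  have h16 : 0 < 16 / δ := by positivity
  have hp2 : (4 : ℝ) ≤ 2 ^ (E + 2) := by
    calc (4 : ℝ) = 2 ^ 2 := by norm_num
      _ ≤ 2 ^ (E + 2) := pow_le_pow_right₀ (by norm_num) (by omega)
  have hL1 : 1 ≤ L := by linarith
  have hL0 : 0 < L := by linarith
  have hsq : √(N : ℝ) * √(N : ℝ) = N := Real.mul_self_sqrt hN0.le
  have hsq0 : 0 < √(N : ℝ) := Real.sqrt_pos.2 hN0
  have hnsq : √(N : ℝ) ≤ n := by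
    refine le_trans ?_ hnN
    rw [le_div_iff₀ (by positivity)]
    rw [one_mul] at b2
    calc √(N : ℝ) * L ^ W ≤ √(N : ℝ) * √(N : ℝ) := mul_le_mul_of_nonneg_left b2 hsq0.le
      _ = N := hsq
  have hMn : M + 1 ≤ n := by
    have h3 : ((M : ℝ) + 1) ≤ √(N : ℝ) := by
      apply Real.le_sqrt_of_sq_le
      exact_mod_cast b3
    have h4 : ((M : ℝ) + 1) ≤ n := h3.trans hnsq
    exact_mod_cast h4
  have hn0' : n0 ≤ n := (le_max_left _ _).trans ((Nat.le_succ M).trans hMn)
  have hn1' : n1 ≤ n := ((le_max_left _ _).trans (le_max_right _ _)).trans ((Nat.le_succ M).trans hMn)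
  have hn2' : n2 ≤ n := ((le_max_right _ _).trans (le_max_right _ _)).trans ((Nat.le_succ M).trans hMn)
  have hnpos : (0 : ℝ) < n := hsq0.trans_le hnsq
  -- logarithms
  have hlogn : L / 2 ≤ Real.log n := by
    have := Real.log_le_log hsq0 hnsq
    rw [Real.log_sqrt hN0.le] at this
    exact this
  have hlogn' : Real.log n ≤ 2 * L := by
    have h3 : (n : ℝ) ≤ B * N := by exact_mod_cast hnB
    have h4 := Real.log_le_log hnpos h3
    rcases Nat.eq_zero_or_pos B with hB | hB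
    · subst hB
      rw [Nat.cast_zero, zero_mul] at h3
      linarith
    have hBr : (1 : ℝ) ≤ B := by exact_mod_cast hB
    rw [Real.log_mul (by linarith) hN0.ne'] at h4
    have h5 : Real.log B ≤ B := (Real.log_le_sub_one_of_pos (by linarith)).trans (by linarith)
    linarith
  have hln0 : 0 < Real.log n := by linarith
  have hln2 : 2 ^ (E + 1) ≤ Real.log n := by
    have : (2 : ℝ) ^ (E + 2) = 2 * 2 ^ (E + 1) := by ring
    linarith
  have hz1 : 1 ≤ z := by
    have : (1 : ℝ) ≤ z := (one_le_pow₀ hL1).trans hz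
    exact_mod_cast this
  have hz2 : 2 ≤ z := by
    have : (2 : ℝ) ≤ z := by
      refine le_trans ?_ hz
      have : L ≤ L ^ 3 := le_self_pow₀ hL1 (by norm_num)
      linarith
    exact_mod_cast this
  have hzE' : (z : ℝ) ≤ Real.log n ^ (E + 1) := by
    refine hzE.trans ?_
    calc L ^ E ≤ (2 * Real.log n) ^ E := pow_le_pow_left₀ hL0.le (by linarith) E
      _ = 2 ^ E * Real.log n ^ E := by rw [mul_pow]
      _ ≤ Real.log n * Real.log n ^ E := by
          apply mul_le_mul_of_nonneg_right _ (by positivity)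
          refine le_trans ?_ hln2
          exact pow_le_pow_right₀ (by norm_num) (by omega)
      _ = _ := by ring
  have hzs : Real.log n ^ 2 ≤ z := by
    calc Real.log n ^ 2 ≤ (2 * L) ^ 2 := pow_le_pow_left₀ hln0.le hlogn' 2
      _ = 4 * L ^ 2 := by ring
      _ ≤ L * L ^ 2 := mul_le_mul_of_nonneg_right (by linarith) (by positivity)
      _ = L ^ 3 := by ring
      _ ≤ z := hz
  have c1 := hs n hn1' hn z hzs
  have c2 := ht n hn2' z hz1 hzE' (sh n)
  change |Mw z n - singZ (sh n) z * n| ≤ n / Real.log n ^ 1 at c2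
  have hsing := one_le_sing n
  -- the difference
  have c3 : ∑ b ∈ Icc 1 (B * N), ArithmeticFunction.vonMangoldt b * (lamI ((n : ℤ) - b) - lamzI z ((n : ℤ) - b)) =
      Rw n - Mw z n := by
    rw [← sum_lamI n (B * N) hnB, ← sum_lamzI z n (B * N) hz2 hnB, ← sum_sub_distrib]
    apply sum_congr rfl
    intro b _
    ring
  rw [c3] at hdiff
  have c4 : |Rw n - Mw z n| ≤ δ / 4 * n := by
    refine hdiff.trans ?_
    have h3 : (N : ℝ) / L ^ (W + 1) = N / L ^ W / L := by
      rw [pow_succ, div_div]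
    rw [h3, div_le_iff₀ hL0]
    have h4 : 1 ≤ δ / 4 * L := by
      have : 16 / δ ≤ L := by linarith
      rw [div_le_iff₀ hδ] at this
      linarith
    calc (N : ℝ) / L ^ W ≤ n := hnN
      _ ≤ (δ / 4 * L) * n := le_mul_of_one_le_left hnpos.le h4
      _ = _ := by ring
  have c5 : |Mw z n - singZ (sh n) z * n| ≤ δ / 4 * n := by
    refine c2.trans ?_
    rw [pow_one, div_le_iff₀ hln0]
    have h4 : 1 ≤ δ / 4 * Real.log n := by
      have : 16 / δ ≤ L := by linarith
      rw [div_le_iff₀ hδ] at this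
      nlinarith
    calc (n : ℝ) ≤ (δ / 4 * Real.log n) * n := le_mul_of_one_le_left hnpos.le h4
      _ = _ := by ring
  have c6 : |Rw n - sing n * n| ≤ δ * (sing n * n) := by
    have e : Rw n - sing n * n = (Rw n - Mw z n) + (Mw z n - singZ (sh n) z * n) + (singZ (sh n) z - sing n) * n := by ring
    rw [e]
    have h5 : |(singZ (sh n) z - sing n) * n| ≤ δ / 4 * (sing n * n) := by
      rw [abs_mul, abs_of_pos hnpos]
      calc |singZ (sh n) z - sing n| * n ≤ (δ / 4 * sing n) * n := mul_le_mul_of_nonneg_right c1 hnpos.le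
        _ = _ := by ring
    have h6 : (n : ℝ) ≤ sing n * n := le_mul_of_one_le_left hnpos.le hsing
    have h7 : δ / 4 * (n : ℝ) ≤ δ / 4 * (sing n * n) := mul_le_mul_of_nonneg_left h6 (by positivity)
    calc _ ≤ |Rw n - Mw z n| + |Mw z n - singZ (sh n) z * n| + |(singZ (sh n) z - sing n) * n| :=
          (abs_add_le _ _).trans (add_le_add_left (abs_add_le _ _) _)
      _ ≤ δ / 4 * (sing n * n) + δ / 4 * (sing n * n) + δ / 4 * (sing n * n) := by linarith
      _ ≤ δ * (sing n * n) := by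
          have : 0 ≤ sing n * n := by positivity
          nlinarith
  obtain ⟨d1, d2⟩ := hg n hn0' c6
  exact ⟨d1, distinct_of_g n d2⟩

end Pool.Agent.W93.GB
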