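import Pool.Agent.W93.AU10

set_option autoImplicit false

/-! Automata: the final theorem. -/

namespace Pool.Agent.W93.AU
open Finset
open Pool.Agent.H807R2.Dav
open Pool.Agent.W93.RD

variable {σ : Type}

open Classical in
/-- the reduction to one base `B` and one automaton -/
theorem setup [Fintype σ] (b : ℕ) (hb : 2 ≤ b) (M : DFA ℕ σ)
    (hS : ∀ k : ℕ, ∃ᶠ N : ℕ in Filter.atTop, Real.log N ^ k < (((range N).filter fun v => Nat.digits b v ∈ M.accepts).card : ℝ)) :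
    ∃ (B : ℕ) (δ : σ × σ → ℕ → σ × σ) (F : σ × σ → Prop) (s0 : σ × σ) (κ : ℕ) (C ρ : ℝ) (k : ℕ), 2 ≤ B ∧ 1 < ρ ∧
      Gro B δ F s0 (R1 B δ) κ C ρ k ∧ ∀ m v, v < B ^ m → (F (run B δ m s0 v) ↔ Nat.digits b v ∈ M.accepts) := by
  obtain ⟨ℓ, hℓ1, hℓ⟩ := common_length b hb (pad M.step)
  obtain ⟨B, hB⟩ : ∃ B, B = b ^ ℓ := ⟨_, rfl⟩
  obtain ⟨δ, hδ⟩ : ∃ δ, δ = run b (pad M.step) ℓ := ⟨_, rfl⟩
  obtain ⟨F, hF⟩ : ∃ F : σ × σ → Prop, ∀ s, F s ↔ s.2 ∈ M.accept := ⟨_, fun s => Iff.rfl⟩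
  obtain ⟨s0, hs0⟩ : ∃ s0 : σ × σ, s0 = (M.start, M.start) := ⟨_, rfl⟩
  have hB2 : 2 ≤ B := by
    rw [hB]
    exact hb.trans (Nat.le_self_pow (by omega) b)
  have hrun : ∀ m v, v < B ^ m → (F (run B δ m s0 v) ↔ Nat.digits b v ∈ M.accepts) := by
    intro m v hv
    rw [hB, ← pow_mul] at hv
    rw [hF, hB, hδ, run_block, pad_run b hb M (ℓ * m) s0 v hv, hs0, DFA.mem_accepts]
    by_cases h0 : v = 0
    · rw [if_pos h0, h0, Nat.digits_zero, DFA.eval_nil]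
    · rw [if_neg h0]
      rfl
  have hcount : ∀ m, Ac B δ F m s0 = (((range (B ^ m)).filter fun v => Nat.digits b v ∈ M.accepts).card : ℝ) := by
    intro m
    rw [Ac_eq B (by omega), ← sum_filter, sum_const, nsmul_eq_mul, mul_one]
    congr 2
    apply filter_congr
    intro v hv
    exact hrun m v (mem_range.1 hv)
  have hmono : ∀ N m, N ≤ B ^ m → (((range N).filter fun v => Nat.digits b v ∈ M.accepts).card : ℝ) ≤ Ac B δ F m s0 := by
    intro N m h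
    rw [hcount]
    exact_mod_cast card_le_card (filter_subset_filter _ (range_mono h))
  have hne : ∃ m, 0 < Ac B δ F m s0 := by
    obtain ⟨N, hN⟩ := (hS 0).exists
    rw [pow_zero] at hN
    refine ⟨N, ?_⟩
    have h1 := hmono N N (Nat.lt_pow_self (by omega)).le
    linarith
  obtain ⟨κ, C, ρ, k, hG⟩ := growth_block b hb (pad M.step) F (by
    intro s hs
    rw [hF] at hs ⊢
    unfold pad
    rw [if_pos rfl]
    exact hs) s0 ℓ hℓ (by rw [← hB, ← hδ]; exact hne)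
  rw [← hB, ← hδ] at hG
  refine ⟨B, δ, F, s0, κ, C, ρ, k, hB2, ?_, hG, hrun⟩
  by_contra hρ
  have hρ1 : ρ = 1 := le_antisymm (not_lt.1 hρ) hG.rho1
  have hC1 := hG.C1
  have hB1 : (1 : ℝ) < B := by exact_mod_cast (by omega : 1 < B)
  have hlogB : 0 < Real.log B := Real.log_pos hB1
  have hAle : ∀ m : ℕ, Ac B δ F m s0 ≤ C * ((m : ℝ) + 1) ^ k := by
    intro m
    have h1 := (Ac_le_Zc B δ F (R1 B δ) ρ hG.rho1 m s0).trans (hG.zc m)
    rw [hρ1, one_pow, mul_one] at h1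
    exact h1
  obtain ⟨R, hR⟩ := exists_nat_ge (C * (1 / Real.log B + 2) ^ k + 1)
  obtain ⟨N, hN, hNR⟩ := ((hS (k + 1)).and_eventually (Filter.eventually_ge_atTop (3 ^ R + 1))).exists
  have hN1 : 1 < N := by
    have : 1 ≤ 3 ^ R := Nat.one_le_pow _ _ (by norm_num)
    omega
  have hNr : (0 : ℝ) < N := by exact_mod_cast (by omega : 0 < N)
  have hlogN : (R : ℝ) ≤ Real.log N := by
    rw [Real.le_log_iff_exp_le hNr]
    have h1 : Real.exp (R : ℝ) ≤ (3 : ℝ) ^ R := by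
      rw [show (R : ℝ) = R * 1 by ring, Real.exp_nat_mul]
      exact pow_le_pow_left₀ (Real.exp_pos _).le (by linarith [Real.exp_one_lt_d9]) R
    refine h1.trans ?_
    exact_mod_cast (by omega : 3 ^ R ≤ N)
  have hx1 : 1 ≤ Real.log N := by
    have h1 : 0 ≤ C * (1 / Real.log B + 2) ^ k := by positivity
    linarith
  have hm : ((Nat.log B N + 1 : ℕ) : ℝ) + 1 ≤ (1 / Real.log B + 2) * Real.log N := by
    have h1 : ((Nat.log B N : ℕ) : ℝ) * Real.log B ≤ Real.log N := by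
      rw [← Real.log_pow]
      apply Real.log_le_log (by positivity)
      exact_mod_cast Nat.pow_log_le_self B (by omega)
    have h2 : ((Nat.log B N : ℕ) : ℝ) ≤ 1 / Real.log B * Real.log N := by
      rw [one_div, inv_mul_eq_div, le_div_iff₀ hlogB]
      exact h1
    push_cast
    nlinarith
  have h1 := hmono N (Nat.log B N + 1) (Nat.lt_pow_succ_log_self (by omega) N).le
  have h2 := hAle (Nat.log B N + 1)
  have h3 : C * (((Nat.log B N + 1 : ℕ) : ℝ) + 1) ^ k ≤ Real.log N ^ (k + 1) := by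
    calc C * (((Nat.log B N + 1 : ℕ) : ℝ) + 1) ^ k ≤ C * ((1 / Real.log B + 2) * Real.log N) ^ k := by gcongr
      _ = (C * (1 / Real.log B + 2) ^ k) * Real.log N ^ k := by rw [mul_pow]; ring
      _ ≤ Real.log N * Real.log N ^ k := by
          apply mul_le_mul_of_nonneg_right _ (by positivity)
          linarith
      _ = _ := by rw [pow_succ]; ring
  linarith

open Classical in
/-- Goldbach's conjecture for almost all the elements of an automatic set -/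
theorem au_final [Fintype σ] (b : ℕ) (hb : 2 ≤ b) (M : DFA ℕ σ)
    (hS : ∀ k : ℕ, ∃ᶠ N : ℕ in Filter.atTop, Real.log N ^ k < (((range N).filter fun v => Nat.digits b v ∈ M.accepts).card : ℝ))
    (κκ : ℤ) (hκκ : κκ ≠ 0) (Bc U : ℕ) (ε : ℝ) (hε : 0 < ε) : ∃ N₀ : ℕ, ∀ N, N₀ ≤ N → ∀ cc : ℤ, |cc| ≤ Bc * N →
    (((range N).filter (fun v : ℕ => Nat.digits b v ∈ M.accepts ∧ 0 < cc + κκ * v ∧ 2 ∣ cc + κκ * v ∧
      ¬ (|(Pool.Agent.H560R3.GB.g (cc + κκ * v).toNat : ℝ) - Pool.Agent.H560R3.GB.HL (cc + κκ * v).toNat| ≤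
          ε * Pool.Agent.H560R3.GB.HL (cc + κκ * v).toNat ∧
        ∃ p q : ℕ, p.Prime ∧ q.Prime ∧ p ≠ q ∧ p + q = (cc + κκ * v).toNat))).card : ℝ) ≤
      (((range N).filter fun v => Nat.digits b v ∈ M.accepts).card : ℝ) / Real.log N ^ U := by
  obtain ⟨B, δ, F, s0, κ, C, ρ, k, hB2, hρ, hG, hrun⟩ := setup b hb M hS
  have hC1 := hG.C1
  have hC0 : 0 < C := by linarith
  have hB1 : (1 : ℝ) < B := by exact_mod_cast (by omega : 1 < B)
  have hlogB : 0 < Real.log B := Real.log_pos hB1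
  obtain ⟨e, he⟩ : ∃ e : ℕ, (Bc : ℤ) + |κκ| ≤ (B : ℤ) ^ e := by
    refine ⟨Bc + κκ.natAbs, ?_⟩
    have h1 : Bc + κκ.natAbs < B ^ (Bc + κκ.natAbs) := Nat.lt_pow_self (by omega)
    rw [Int.abs_eq_natAbs]
    exact_mod_cast h1.le
  obtain ⟨m₀, hbase⟩ := au_base B hB2 δ F s0 (R1 B δ) κ C ρ k hG hρ (fun s hs => hs) κκ hκκ e (U + 1) ε hε
  obtain ⟨R, hR⟩ := exists_nat_ge (C * Real.log B ^ U)
  refine ⟨B ^ (m₀ + κ + R + 1), fun N hN cc hcc => ?_⟩
  have hpB : 0 < B ^ (m₀ + κ + R + 1) := by positivity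
  obtain ⟨n, hn⟩ : ∃ n, n = Nat.log B N := ⟨_, rfl⟩
  have hn1 : m₀ + κ + R + 1 ≤ n := by
    rw [hn]
    exact (Nat.le_log_iff_pow_le (by omega) (by omega)).2 hN
  have hN1 : B ^ n ≤ N := by rw [hn]; exact Nat.pow_log_le_self B (by omega)
  have hN2 : N < B ^ (n + 1) := by rw [hn]; exact Nat.lt_pow_succ_log_self (by omega) N
  have hNpos : 1 < N := by
    have : B ≤ B ^ n := Nat.le_self_pow (by omega) B
    omega
  have h1 := hbase (n + 1) (by omega) cc (by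
    have e1 : (N : ℤ) ≤ (B : ℤ) ^ (n + 1) := by exact_mod_cast hN2.le
    rw [pow_add (B : ℤ) (n + 1) e]
    calc |cc| + |κκ| * (B : ℤ) ^ (n + 1) ≤ Bc * (B : ℤ) ^ (n + 1) + |κκ| * (B : ℤ) ^ (n + 1) := by
          have : (Bc : ℤ) * N ≤ Bc * (B : ℤ) ^ (n + 1) := mul_le_mul_of_nonneg_left e1 (by positivity)
          linarith
      _ = (B : ℤ) ^ (n + 1) * (Bc + |κκ|) := by ring
      _ ≤ _ := mul_le_mul_of_nonneg_left he (by positivity))
  have hsub : (range N).filter (fun v : ℕ => Nat.digits b v ∈ M.accepts ∧ 0 < cc + κκ * v ∧ 2 ∣ cc + κκ * v ∧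
      ¬ (|(Pool.Agent.H560R3.GB.g (cc + κκ * v).toNat : ℝ) - Pool.Agent.H560R3.GB.HL (cc + κκ * v).toNat| ≤
          ε * Pool.Agent.H560R3.GB.HL (cc + κκ * v).toNat ∧
        ∃ p q : ℕ, p.Prime ∧ q.Prime ∧ p ≠ q ∧ p + q = (cc + κκ * v).toNat)) ⊆
      ((range (B ^ (n + 1))).filter fun v => F (run B δ (n + 1) s0 v)).filter (fun v : ℕ => 0 < cc + κκ * v ∧ 2 ∣ cc + κκ * v ∧
      ¬ (|(Pool.Agent.H560R3.GB.g (cc + κκ * v).toNat : ℝ) - Pool.Agent.H560R3.GB.HL (cc + κκ * v).toNat| ≤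
          ε * Pool.Agent.H560R3.GB.HL (cc + κκ * v).toNat ∧
        ∃ p q : ℕ, p.Prime ∧ q.Prime ∧ p ≠ q ∧ p + q = (cc + κκ * v).toNat)) := by
    intro v hv
    rw [mem_filter, mem_range] at hv
    rw [mem_filter, mem_filter, mem_range]
    have hv2 : v < B ^ (n + 1) := hv.1.trans hN2
    exact ⟨⟨hv2, (hrun (n + 1) v hv2).2 hv.2.1⟩, hv.2.2⟩
  have h2 : (((range N).filter (fun v : ℕ => Nat.digits b v ∈ M.accepts ∧ 0 < cc + κκ * v ∧ 2 ∣ cc + κκ * v ∧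
      ¬ (|(Pool.Agent.H560R3.GB.g (cc + κκ * v).toNat : ℝ) - Pool.Agent.H560R3.GB.HL (cc + κκ * v).toNat| ≤
          ε * Pool.Agent.H560R3.GB.HL (cc + κκ * v).toNat ∧
        ∃ p q : ℕ, p.Prime ∧ q.Prime ∧ p ≠ q ∧ p + q = (cc + κκ * v).toNat))).card : ℝ) ≤
      1 / ((n + 1 : ℕ) : ℝ) ^ (U + 1) * Ac B δ F (n + 1) s0 := le_trans (by exact_mod_cast card_le_card hsub) h1
  refine h2.trans ?_
  have h3 := hG.step n (by omega) s0
  have h4 : Ac B δ F n s0 ≤ (((range N).filter fun v => Nat.digits b v ∈ M.accepts).card : ℝ) := by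
    have e1 : Ac B δ F n s0 = (((range (B ^ n)).filter fun v => Nat.digits b v ∈ M.accepts).card : ℝ) := by
      rw [Ac_eq B (by omega), ← sum_filter, sum_const, nsmul_eq_mul, mul_one]
      congr 2
      apply filter_congr
      intro v hv
      exact hrun n v (mem_range.1 hv)
    rw [e1]
    exact_mod_cast card_le_card (filter_subset_filter _ (range_mono hN1))
  obtain ⟨X, hX⟩ : ∃ X : ℝ, X = (((range N).filter fun v => Nat.digits b v ∈ M.accepts).card : ℝ) := ⟨_, rfl⟩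
  rw [← hX] at h4 ⊢
  have hX0 : 0 ≤ X := by rw [hX]; positivity
  obtain ⟨m, hm⟩ : ∃ m : ℝ, m = ((n + 1 : ℕ) : ℝ) := ⟨_, rfl⟩
  rw [← hm]
  have hm0 : 0 < m := by rw [hm]; positivity
  have hNr : (0 : ℝ) < N := by exact_mod_cast (by omega : 0 < N)
  have hlog0 : 0 < Real.log N := Real.log_pos (by exact_mod_cast hNpos)
  have hlog : Real.log N ≤ m * Real.log B := by
    rw [hm, ← Real.log_pow]
    apply Real.log_le_log hNr
    exact_mod_cast hN2.le
  have hRm : C * Real.log B ^ U ≤ m := by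
    refine hR.trans ?_
    rw [hm]
    exact_mod_cast (by omega : R ≤ n + 1)
  have h5 : Ac B δ F (n + 1) s0 ≤ C * X := h3.trans (mul_le_mul_of_nonneg_left h4 (by linarith))
  rw [le_div_iff₀ (by positivity), one_div]
  calc (m ^ (U + 1))⁻¹ * Ac B δ F (n + 1) s0 * Real.log N ^ U ≤ (m ^ (U + 1))⁻¹ * (C * X) * (m * Real.log B) ^ U := by
        gcongr
    _ = (m ^ (U + 1))⁻¹ * (C * Real.log B ^ U) * m ^ U * X := by rw [mul_pow]; ring
    _ ≤ (m ^ (U + 1))⁻¹ * m * m ^ U * X := by gcongr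
    _ = X := by
        rw [pow_succ]
        field_simp

end Pool.Agent.W93.AU
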