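import Pool.Agent.W93.LM7

set_option autoImplicit false

/-! Correlations with a nice function at random digit shifts: the form used by the results. -/

namespace Pool.Agent.W93.LM
open Finset
open Pool.Agent.H373R2.T7 (SupSmall exI liR muC)
open Pool.Agent.W93.DG
open Pool.Agent.W93.RD

theorem wrap (b H B : ℕ) (hb : 2 ≤ b) (η : ℝ) (hη : 0 < η) (f : ℕ → ℂ) (hf : Nice f) (K U : ℕ) : ∃ k₀ : ℕ, ∀ k : ℕ, k₀ ≤ k →
    ∀ w : ℕ → ℕ → ℝ, (∀ j < k, (∀ a, 0 ≤ w j a ∧ w j a ≤ 1 - η) ∧ ∑ a ∈ range H, w j a = 1) →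
    ∀ c : ℕ, c ≤ B * b ^ k → ∀ (L : ℕ), L ≤ k ^ K →
    ∀ (α : Fin L → ℕ) (g : Fin L → ℕ → ℂ), (∀ l, 1 ≤ α l) → (∀ l n, 1 ≤ n → α l * n ≤ B * b ^ k → ‖g l n‖ ≤ (k : ℝ) ^ K) →
    ∀ E : (Fin k → ℕ) → Prop, [DecidablePred E] →
    (∀ d, E d → ¬ ∀ l, ∀ N : ℕ, α l * N ≤ B * b ^ k →
      ‖∑ n ∈ Icc 1 N, g l n * f (α l * n + (c + val b d))‖ ≤ (b : ℝ) ^ k / (k : ℝ) ^ U) →
    ∑ d ∈ Str H k, (if E d then pw w d else 0) ≤ 1 / (k : ℝ) ^ U := by
  classical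
  rcases lt_or_ge 1 η with hη1 | hη1
  · refine ⟨1, fun k hk w hw _ _ _ _ _ _ _ _ E _ _ => ?_⟩
    exfalso
    obtain ⟨h1, h2⟩ := (hw 0 (by omega)).1 0
    linarith
  obtain ⟨k₀, h0⟩ := lm_prob b H B hb η hη hη1 f hf K U
  refine ⟨k₀, fun k hk w hw c hc L hL α g hα hg E _ hE => ?_⟩
  refine h0 k hk w (fun j hj a => ((hw j hj).1 a).1) (fun j hj a => ((hw j hj).1 a).2) (fun j hj => (hw j hj).2)
    (c : ℤ) ?_ L (by exact_mod_cast hL) (fun l => if h : l < L then α ⟨l, h⟩ else 1) (fun l => if h : l < L then g ⟨l, h⟩ else fun _ => 0)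
    ?_ ?_ E ?_
  · rw [abs_of_nonneg (by positivity)]
    exact_mod_cast hc
  · intro l hl
    simp only [hl, dif_pos]
    exact hα _
  · intro l hl n hn hn2
    simp only [hl, dif_pos] at hn2 ⊢
    exact hg _ n hn hn2
  · intro d hd
    have h1 := hE d hd
    push Not at h1
    obtain ⟨l, N, hN, h2⟩ := h1
    refine ⟨l, l.2, N, ?_, ?_⟩
    · simp only [l.2, dif_pos]
      exact hN
    · simp only [l.2, dif_pos]
      refine lt_of_lt_of_eq h2 ?_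
      congr 1
      apply sum_congr rfl
      intro n hn
      rw [mem_Icc] at hn
      congr 1
      have h3 := hα l
      have h4 : 0 < α l * n := Nat.mul_pos (by omega) (by omega)
      have h5 : (((α l * n : ℕ) : ℤ) + ((c : ℤ) + (val b d : ℤ))) = ((α l * n + (c + val b d) : ℕ) : ℤ) := by push_cast; ring
      unfold exI
      rw [h5, if_pos (by exact_mod_cast (by omega : 1 ≤ α l * n + (c + val b d))), Int.toNat_natCast]

end Pool.Agent.W93.LM
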