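import Pool.Agent.W93.AU11
import Pool.Agent.W93.AU13

set_option autoImplicit false

/-! Automata: the general interface, and correlations with a nice function. -/

namespace Pool.Agent.W93.AU
open Finset
open Pool.Agent.H807R2.Dav
open Pool.Agent.H373R2.T7 (exI)
open Pool.Agent.W93.RD
open Pool.Agent.W93.LM

variable {σ : Type}

/-- logarithms and digits -/
lemma log_K (B e N n : ℕ) (hB : 2 ≤ B) (hN : 1 ≤ N) (hn : N < B ^ (n + 1)) :
    Real.log N ≤ ((n + 1 + e : ℕ) : ℝ) * Real.log B := by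
  have hB1 : (1 : ℝ) < B := by exact_mod_cast (by omega : 1 < B)
  have hlogB : 0 < Real.log B := Real.log_pos hB1
  have h1 : Real.log N ≤ ((n + 1 : ℕ) : ℝ) * Real.log B := by
    rw [← Real.log_pow]
    apply Real.log_le_log (by exact_mod_cast hN)
    exact_mod_cast hn.le
  refine h1.trans (mul_le_mul_of_nonneg_right ?_ hlogB.le)
  push_cast
  linarith [(Nat.cast_nonneg e : (0 : ℝ) ≤ e)]

open Classical in
/-- the law of the elements of an automatic set -/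
theorem au_law [Fintype σ] (b : ℕ) (hb : 2 ≤ b) (M : DFA ℕ σ)
    (hS : ∀ k : ℕ, ∃ᶠ N : ℕ in Filter.atTop, Real.log N ^ k < (((range N).filter fun v => Nat.digits b v ∈ M.accepts).card : ℝ))
    (κκ : ℤ) (hκκ : κκ ≠ 0) (Bc : ℕ) : ∃ (B e : ℕ) (C : ℝ), 2 ≤ B ∧ 0 ≤ C ∧ (2 * Bc + κκ.natAbs + 1 ≤ B ^ e) ∧
    ∀ V : ℕ, ∃ D N₀ : ℕ, ∀ N, N₀ ≤ N → ∀ cc : ℤ, |cc| ≤ Bc * N → ∃ (n : ℕ) (Ω : Finset ℕ) (p : ℕ → ℝ),
      B ^ n ≤ N ∧ N < B ^ (n + 1) ∧
      Law B (B.factorial * κκ.natAbs) D V (n + 1 + e) Ω p (fun v : ℕ => cc + κκ * v) ∧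
      (∀ v ∈ Ω, v < B ^ (n + 1)) ∧
      (∀ v ∈ Ω, -((B ^ (n + 1 + e) : ℕ) : ℤ) < cc + κκ * v ∧ ((Bc * N : ℕ) : ℤ) + (cc + κκ * v) ≤ ((B ^ (n + 1 + e) : ℕ) : ℤ)) ∧
      ∀ E : ℕ → Prop, (((range N).filter (fun v : ℕ => Nat.digits b v ∈ M.accepts ∧ E v)).card : ℝ) ≤
        C * (((range N).filter fun v => Nat.digits b v ∈ M.accepts).card : ℝ) * ∑ v ∈ Ω, (if E v then p v else 0) := by
  obtain ⟨B, δ, F, s0, κ, C, ρ, k, hB2, hρ, hG, hrun⟩ := setup b hb M hS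
  have hC1 := hG.C1
  have hC0 : 0 < C := by linarith
  obtain ⟨e, he⟩ : ∃ e : ℕ, 2 * Bc + κκ.natAbs + 1 ≤ B ^ e :=
    ⟨2 * Bc + κκ.natAbs, Nat.lt_pow_self (by omega)⟩
  refine ⟨B, e, C, hB2, hC0.le, he, fun V => ?_⟩
  obtain ⟨D, K2, hchar⟩ := char_bound B hB2 δ F s0 (R1 B δ) κ C ρ k hG hρ (fun s hs => hs) κκ e V
  refine ⟨D, B ^ (K2 + κ + 1), fun N hN cc hcc => ?_⟩
  obtain ⟨n, hn⟩ : ∃ n, n = Nat.log B N := ⟨_, rfl⟩
  have hpB : 0 < B ^ (K2 + κ + 1) := by positivity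
  have hn1 : K2 + κ + 1 ≤ n := by
    rw [hn]
    exact (Nat.le_log_iff_pow_le (by omega) (by omega)).2 hN
  have hN1 : B ^ n ≤ N := by rw [hn]; exact Nat.pow_log_le_self B (by omega)
  have hN2 : N < B ^ (n + 1) := by rw [hn]; exact Nat.lt_pow_succ_log_self (by omega) N
  have hpos : 0 < Ac B δ F (n + 1) s0 := by
    have h1 := hG.low (n + 1) (by omega)
    have h2 : 0 < ρ ^ (n + 1) := by positivity
    by_contra hcon
    push Not at hcon
    have h3 : C * Ac B δ F (n + 1) s0 ≤ 0 := mul_nonpos_of_nonneg_of_nonpos (by linarith) hcon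
    linarith
  have hlaw := law_of B hB2 δ F s0 κκ V D (n + 1 + e) (n + 1) hpos (hchar (n + 1 + e) (by omega) (n + 1) rfl) cc
  refine ⟨n, (range (B ^ (n + 1))).filter (fun v => F (run B δ (n + 1) s0 v)), fun _ => 1 / Ac B δ F (n + 1) s0, hN1, hN2, hlaw, ?_, ?_, ?_⟩
  · intro v hv
    rw [mem_filter, mem_range] at hv
    exact hv.1
  · intro v hv
    rw [mem_filter, mem_range] at hv
    obtain ⟨c1, c2⟩ := abs_le.1 hcc
    have h1 : ((2 * Bc + κκ.natAbs + 1 : ℕ) : ℤ) * ((B ^ (n + 1) : ℕ) : ℤ) ≤ ((B ^ (n + 1 + e) : ℕ) : ℤ) := by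
      have : (2 * Bc + κκ.natAbs + 1) * B ^ (n + 1) ≤ B ^ (n + 1 + e) := by
        rw [pow_add B (n + 1) e, mul_comm (B ^ (n + 1))]
        exact Nat.mul_le_mul_right _ he
      exact_mod_cast this
    have h2 : |κκ * (v : ℤ)| ≤ (κκ.natAbs : ℤ) * ((B ^ (n + 1) : ℕ) : ℤ) := by
      rw [abs_mul, Int.abs_eq_natAbs κκ, abs_of_nonneg (by positivity : (0 : ℤ) ≤ (v : ℤ))]
      exact mul_le_mul_of_nonneg_left (by exact_mod_cast hv.1.le) (by positivity)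
    obtain ⟨d1, d2⟩ := abs_le.1 h2
    have h3 : (Bc : ℤ) * N ≤ (Bc : ℤ) * ((B ^ (n + 1) : ℕ) : ℤ) := mul_le_mul_of_nonneg_left (by exact_mod_cast hN2.le) (by positivity)
    have h4 : (0 : ℤ) < ((B ^ (n + 1) : ℕ) : ℤ) := by exact_mod_cast (by positivity : 0 < B ^ (n + 1))
    have h5 : (0 : ℤ) ≤ (Bc : ℤ) * ((B ^ (n + 1) : ℕ) : ℤ) := by positivity
    obtain ⟨P, hP⟩ : ∃ P : ℤ, P = ((B ^ (n + 1) : ℕ) : ℤ) := ⟨_, rfl⟩
    rw [← hP] at h1 d1 d2 h3 h4 h5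
    have h6 : ((2 * Bc + κκ.natAbs + 1 : ℕ) : ℤ) * P = 2 * (Bc * P) + κκ.natAbs * P + P := by push_cast; ring
    rw [h6] at h1
    have h7 : ((Bc * N : ℕ) : ℤ) = (Bc : ℤ) * N := by push_cast; ring
    rw [h7]
    obtain ⟨BK, hBK⟩ : ∃ BK : ℤ, BK = ((B ^ (n + 1 + e) : ℕ) : ℤ) := ⟨_, rfl⟩
    rw [← hBK] at h1 ⊢
    constructor
    · linarith
    · linarith
  · intro E
    have h3 := hG.step n (by omega) s0
    have h4 : Ac B δ F n s0 ≤ (((range N).filter fun v => Nat.digits b v ∈ M.accepts).card : ℝ) := by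
      have e1 : Ac B δ F n s0 = (((range (B ^ n)).filter fun v => Nat.digits b v ∈ M.accepts).card : ℝ) := by
        rw [Ac_eq B (by omega), ← sum_filter, sum_const, nsmul_eq_mul, mul_one]
        congr 2
        apply filter_congr
        intro v hv
        exact hrun n v (mem_range.1 hv)
      rw [e1]
      exact_mod_cast card_le_card (filter_subset_filter _ (range_mono hN1))
    rw [← sum_filter, sum_const, nsmul_eq_mul]
    have h5 : ((range N).filter (fun v : ℕ => Nat.digits b v ∈ M.accepts ∧ E v)).card ≤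
        (((range (B ^ (n + 1))).filter fun v => F (run B δ (n + 1) s0 v)).filter E).card := by
      apply card_le_card
      intro v hv
      rw [mem_filter, mem_range] at hv
      rw [mem_filter, mem_filter, mem_range]
      have hv2 : v < B ^ (n + 1) := hv.1.trans hN2
      exact ⟨⟨hv2, (hrun (n + 1) v hv2).2 hv.2.1⟩, hv.2.2⟩
    have h6 : Ac B δ F (n + 1) s0 ≤ C * (((range N).filter fun v => Nat.digits b v ∈ M.accepts).card : ℝ) :=
      h3.trans (mul_le_mul_of_nonneg_left h4 hC0.le)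
    have h7 : (((range N).filter (fun v : ℕ => Nat.digits b v ∈ M.accepts ∧ E v)).card : ℝ) ≤
        ((((range (B ^ (n + 1))).filter fun v => F (run B δ (n + 1) s0 v)).filter E).card : ℝ) := by exact_mod_cast h5
    obtain ⟨X, hX⟩ : ∃ X : ℝ, X = ((((range (B ^ (n + 1))).filter fun v => F (run B δ (n + 1) s0 v)).filter E).card : ℝ) := ⟨_, rfl⟩
    rw [← hX] at h7 ⊢
    refine h7.trans ?_
    have hX0 : 0 ≤ X := by rw [hX]; positivity
    calc X = Ac B δ F (n + 1) s0 * (X * (1 / Ac B δ F (n + 1) s0)) := by field_simp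
      _ ≤ _ := mul_le_mul_of_nonneg_right h6 (by positivity)

open Classical in
/-- correlations at almost all the elements of an automatic set -/
theorem au_corr [Fintype σ] (b : ℕ) (hb : 2 ≤ b) (M : DFA ℕ σ)
    (hS : ∀ k : ℕ, ∃ᶠ N : ℕ in Filter.atTop, Real.log N ^ k < (((range N).filter fun v => Nat.digits b v ∈ M.accepts).card : ℝ))
    (f : ℕ → ℂ) (hf : Nice f) (κκ : ℤ) (hκκ : κκ ≠ 0) (Bc T U : ℕ) : ∃ N₀ : ℕ, ∀ N, N₀ ≤ N → ∀ cc : ℤ, |cc| ≤ Bc * N →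
    ∀ L : ℕ, (L : ℝ) ≤ Real.log N ^ T → ∀ g : ℕ → ℕ → ℂ, (∀ l < L, ∀ n, 1 ≤ n → n ≤ Bc * N → ‖g l n‖ ≤ Real.log N ^ T) →
    ∀ E : ℕ → Prop, (∀ v, E v → ∃ l < L, ∃ N' ≤ Bc * N,
      N / Real.log N ^ U < ‖∑ n ∈ Icc 1 N', g l n * exI f ((n : ℤ) + (cc + κκ * v))‖) →
    (((range N).filter (fun v : ℕ => Nat.digits b v ∈ M.accepts ∧ E v)).card : ℝ) ≤
      (((range N).filter fun v => Nat.digits b v ∈ M.accepts).card : ℝ) / Real.log N ^ U := by
  obtain ⟨B, e, C, hB2, hC0, hBe, hlaw⟩ := au_law b hb M hS κκ hκκ Bc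
  obtain ⟨D, N1, hlaw⟩ := hlaw (4 * (U + 1) + 4 * (T + 1) + 1 + 6)
  obtain ⟨K0, h0⟩ := lmg_prob B (B.factorial * κκ.natAbs) hB2 (Nat.mul_pos B.factorial_pos (Int.natAbs_pos.2 hκκ)) f hf (T + 1) (U + 1) D
  have hB1 : (1 : ℝ) < B := by exact_mod_cast (by omega : 1 < B)
  have hlogB : 0 < Real.log B := Real.log_pos hB1
  obtain ⟨K1, hK1⟩ := exists_nat_ge (Real.log B ^ T + (B : ℝ) ^ (1 + e) * Real.log B ^ U + C * Real.log B ^ U)
  refine ⟨N1 + B ^ (K0 + K1 + 1), fun N hN cc hcc L hL g hg E hEv => ?_⟩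
  obtain ⟨n, Ω, p, hn1, hn2, hl, hΩ, hY, hE⟩ := hlaw N (by omega) cc hcc
  have hpB : 0 < B ^ (K0 + K1 + 1) := by positivity
  have hn : K0 + K1 + 1 ≤ n := by
    have h1 : B ^ (K0 + K1 + 1) < B ^ (n + 1) := lt_of_le_of_lt (by omega) hn2
    have := (Nat.pow_lt_pow_iff_right (by omega : 1 < B)).1 h1
    omega
  obtain ⟨K, hK⟩ : ∃ K, K = n + 1 + e := ⟨_, rfl⟩
  have hlogK := log_K B e N n hB2 (by omega) hn2
  rw [← hK] at hl hY hlogK
  have hKr : (K1 : ℝ) ≤ K := by exact_mod_cast (by omega : K1 ≤ K)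
  have hK0' : (1 : ℝ) ≤ K := by exact_mod_cast (by omega : 1 ≤ K)
  have hNpos : 1 < N := by
    have : B ≤ B ^ n := Nat.le_self_pow (by omega) B
    omega
  have hN0 : (0 : ℝ) < N := by exact_mod_cast (by omega : 0 < N)
  have hlog0 : 0 < Real.log N := Real.log_pos (by exact_mod_cast hNpos)
  have a1 : 0 ≤ Real.log B ^ T := by positivity
  have a2 : 0 ≤ (B : ℝ) ^ (1 + e) * Real.log B ^ U := by positivity
  have a3 : 0 ≤ C * Real.log B ^ U := by positivity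
  have hT : Real.log N ^ T ≤ (K : ℝ) ^ (T + 1) := by
    calc Real.log N ^ T ≤ (K * Real.log B) ^ T := pow_le_pow_left₀ hlog0.le hlogK T
      _ = Real.log B ^ T * (K : ℝ) ^ T := by rw [mul_pow]; ring
      _ ≤ K * (K : ℝ) ^ T := mul_le_mul_of_nonneg_right (by linarith) (by positivity)
      _ = _ := by rw [pow_succ]; ring
  have hU : Real.log N ^ U ≤ (K : ℝ) ^ U * Real.log B ^ U := by
    rw [← mul_pow]
    exact pow_le_pow_left₀ hlog0.le hlogK U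
  have hBK : ((B ^ K : ℕ) : ℝ) / (K : ℝ) ^ (U + 1) ≤ N / Real.log N ^ U := by
    rw [div_le_div_iff₀ (by positivity) (by positivity)]
    have b1 : ((B ^ K : ℕ) : ℝ) ≤ (B : ℝ) ^ (1 + e) * N := by
      have : B ^ K ≤ B ^ (1 + e) * N := by
        rw [hK, show n + 1 + e = (1 + e) + n by omega, pow_add]
        exact Nat.mul_le_mul_left _ hn1
      exact_mod_cast this
    calc ((B ^ K : ℕ) : ℝ) * Real.log N ^ U ≤ ((B : ℝ) ^ (1 + e) * N) * ((K : ℝ) ^ U * Real.log B ^ U) :=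
          mul_le_mul b1 hU (by positivity) (by positivity)
      _ = N * (((B : ℝ) ^ (1 + e) * Real.log B ^ U) * (K : ℝ) ^ U) := by ring
      _ ≤ N * (K * (K : ℝ) ^ U) := by
          apply mul_le_mul_of_nonneg_left _ hN0.le
          exact mul_le_mul_of_nonneg_right (by linarith) (by positivity)
      _ = _ := by rw [pow_succ]; ring
  have hQX : Bc * N ≤ B ^ K := by
    have h1 : (2 * Bc + κκ.natAbs + 1) * B ^ (n + 1) ≤ B ^ K := by
      rw [hK, pow_add B (n + 1) e, mul_comm (B ^ (n + 1))]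
      exact Nat.mul_le_mul_right _ hBe
    have h2 : Bc * N ≤ Bc * B ^ (n + 1) := Nat.mul_le_mul_left _ hn2.le
    have h3 : Bc * B ^ (n + 1) ≤ (2 * Bc + κκ.natAbs + 1) * B ^ (n + 1) := Nat.mul_le_mul_right _ (by omega)
    omega
  have h := h0 K (by omega) ℕ Ω p (fun v : ℕ => cc + κκ * v) hl (Bc * N) hY hQX L (hL.trans hT) g
    (fun l hl n hn hn' => (hg l hl n hn hn').trans hT)
    E (by
      intro v _ hv
      obtain ⟨l, hl, N', hN', h1⟩ := hEv v hv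
      exact ⟨l, hl, N', hN', lt_of_le_of_lt hBK h1⟩)
  refine (hE _).trans ?_
  obtain ⟨X, hX⟩ : ∃ X : ℝ, X = (((range N).filter fun v => Nat.digits b v ∈ M.accepts).card : ℝ) := ⟨_, rfl⟩
  rw [← hX]
  have hX0 : 0 ≤ X := by rw [hX]; positivity
  rw [le_div_iff₀ (by positivity)]
  refine (mul_le_mul_of_nonneg_right (mul_le_mul_of_nonneg_left h (by positivity)) (by positivity)).trans ?_
  calc C * X * (1 / (K : ℝ) ^ (U + 1)) * Real.log N ^ U ≤ C * X * (1 / (K : ℝ) ^ (U + 1)) * ((K : ℝ) ^ U * Real.log B ^ U) := by gcongr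
    _ = X * (C * Real.log B ^ U) * ((K : ℝ) ^ U / (K : ℝ) ^ (U + 1)) := by ring
    _ ≤ X * K * ((K : ℝ) ^ U / (K : ℝ) ^ (U + 1)) := by
        apply mul_le_mul_of_nonneg_right _ (by positivity)
        exact mul_le_mul_of_nonneg_left (by linarith) hX0
    _ = X := by
        rw [pow_succ]
        field_simp

end Pool.Agent.W93.AU
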