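import Pool.Agent.W93.AU14
import Pool.Agent.W93.TD6

set_option autoImplicit false

/-! Automata: the interface for the von Mangoldt function. -/

namespace Pool.Agent.W93.AU
open Finset
open Pool.Agent.H807R2.Dav
open Pool.Agent.H373R2.T7
open Pool.Agent.W93.DG
open Pool.Agent.W93.RD
open Pool.Agent.W93.TD

variable {σ : Type}

/-- one shift with a given law -/
theorem one_law (b F : ℕ) (hb : 2 ≤ b) (hF : 1 ≤ F) (U D : ℕ) : ∃ B0 : ℕ, ∀ Ez : ℕ, ∃ K₀ : ℕ, ∀ K : ℕ, K₀ ≤ K →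
    ∀ z : ℕ, Real.log ((b ^ K : ℕ) : ℝ) ^ B0 ≤ z → (z : ℝ) ≤ Real.log ((b ^ K : ℕ) : ℝ) ^ Ez →
    ∀ (ι : Type) (Ω : Finset ι) (p : ι → ℝ) (Y : ι → ℤ), Law b F D (2 * U + 6) K Ω p Y → ∑ ω ∈ Ω, p ω = 1 →
    ∀ N : ℕ, (∀ ω ∈ Ω, -((b ^ K : ℕ) : ℤ) < Y ω ∧ (N : ℤ) + Y ω ≤ ((b ^ K : ℕ) : ℤ)) → N ≤ b ^ K →
    ∀ Kc : ℝ, 0 < Kc → ∀ G : ℕ → ℝ, (∀ n ∈ Icc 1 N, |G n| ≤ Kc) →
    ∑ ω ∈ Ω, p ω * |∑ n ∈ Icc 1 N, G n * (lamI ((n : ℤ) + Y ω) - lamzI z ((n : ℤ) + Y ω))| ≤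
      Kc * (((b ^ K : ℕ) : ℝ) / (K : ℝ) ^ U) := by
  classical
  obtain ⟨B, hB⟩ := gl_var b F hb hF (2 * U) D
  refine ⟨B, fun Ez => ?_⟩
  obtain ⟨k₀, h0⟩ := hB Ez
  refine ⟨k₀ + 1, fun K hk z hz1 hz2 ι Ω p Y hlaw hp1 N hY hNX Kc hK G hG => ?_⟩
  obtain ⟨f, hf⟩ : ∃ f : ℕ → ℝ, f = fun n => if n ≤ N then G n else 0 := ⟨_, rfl⟩
  have hf0 : ∀ n, N < n → f n = 0 := by
    intro n hn
    rw [hf]
    simp only
    rw [if_neg (by omega)]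
  have hf1 : ∀ n, n ≤ N → f n = G n := by
    intro n hn
    rw [hf]
    simp only
    rw [if_pos hn]
  have h1 := h0 K (by omega) z hz1 hz2 ι Ω p Y hlaw f Kc hK.le (by
    intro n hn
    rcases Nat.lt_or_ge N n with h | h
    · rw [hf0 n h, abs_zero]; exact hK.le
    · rw [hf1 n h]; exact hG n (mem_Icc.2 ⟨(mem_Icc.1 hn).1, h⟩))
    (fun r => (starRingEnd ℂ) (FF f (b ^ K) (b ^ (K + 1)) r) *
        FF (fun n => ArithmeticFunction.vonMangoldt n - lamz z n) (b ^ K) (b ^ (K + 1)) r) (by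
      intro r
      rw [norm_mul, RCLike.norm_conj])
  have hbn : 0 < b := by omega
  have hX1 : 1 ≤ b ^ K := Nat.pow_pos hbn
  have hM0 : (0 : ℝ) < ((b ^ (K + 1) : ℕ) : ℝ) := by exact_mod_cast Nat.pow_pos hbn
  have hX0 : (0 : ℝ) < ((b ^ K : ℕ) : ℝ) := by exact_mod_cast hX1
  have hk0 : (0 : ℝ) < K := by exact_mod_cast (by omega : 0 < K)
  apply cs_w Ω p _ hlaw.nonneg hp1 _ (by positivity)
  obtain ⟨T, hT⟩ : ∃ T : ι → ℝ, T = fun ω => ∑ n ∈ Icc 1 N, G n * (lamI ((n : ℤ) + Y ω) - lamzI z ((n : ℤ) + Y ω)) := ⟨_, rfl⟩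
  have h2 : ∀ ω ∈ Ω, p ω * ‖EE (fun r => (starRingEnd ℂ) (FF f (b ^ K) (b ^ (K + 1)) r) *
      FF (fun n => ArithmeticFunction.vonMangoldt n - lamz z n) (b ^ K) (b ^ (K + 1)) r) (b ^ (K + 1)) (Y ω)‖ ^ 2 =
      ((b ^ (K + 1) : ℕ) : ℝ) ^ 2 * (p ω * T ω ^ 2) := by
    intro ω hω
    have hMX : 2 * b ^ K ≤ b ^ (K + 1) := by
      rw [pow_succ, mul_comm]
      exact Nat.mul_le_mul_left _ hb
    have h3 := EE_corr f (fun n => ArithmeticFunction.vonMangoldt n - lamz z n) (b ^ K) (b ^ (K + 1)) N hX1 hMX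
      hNX hf0 (Y ω) (hY ω hω).1 (hY ω hω).2
    rw [h3, Complex.norm_real, Real.norm_eq_abs, sq_abs]
    have h4 : ∑ n ∈ Icc 1 N, f n * (if 1 ≤ (n : ℤ) + Y ω then
        (fun n => ArithmeticFunction.vonMangoldt n - lamz z n) ((n : ℤ) + Y ω).toNat else 0) = T ω := by
      rw [hT]
      simp only
      apply sum_congr rfl
      intro n hn
      rw [mem_Icc] at hn
      rw [hf1 n hn.2]
      unfold lamI lamzI
      by_cases h7 : 1 ≤ (n : ℤ) + Y ω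
      · rw [if_pos h7, if_pos h7, if_pos h7]
      · rw [if_neg h7, if_neg h7, if_neg h7, sub_zero]
    rw [h4]
    ring
  rw [sum_congr rfl h2, ← mul_sum] at h1
  have h5 : ∑ ω ∈ Ω, p ω * T ω ^ 2 ≤ (Kc * (((b ^ K : ℕ) : ℝ) / (K : ℝ) ^ U)) ^ 2 := by
    have h6 : ((b ^ (K + 1) : ℕ) : ℝ) ^ 2 * ∑ ω ∈ Ω, p ω * T ω ^ 2 ≤
        ((b ^ (K + 1) : ℕ) : ℝ) ^ 2 * (Kc * (((b ^ K : ℕ) : ℝ) / (K : ℝ) ^ U)) ^ 2 := by
      refine h1.trans (le_of_eq ?_)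
      rw [mul_comm 2 U, pow_mul]
      ring
    exact le_of_mul_le_mul_left h6 (by positivity)
  rw [hT] at h5
  exact h5

open Classical in
/-- the law of the elements of an automatic set -/
theorem au_law2 [Fintype σ] (b : ℕ) (hb : 2 ≤ b) (M : DFA ℕ σ)
    (hS : ∀ k : ℕ, ∃ᶠ N : ℕ in Filter.atTop, Real.log N ^ k < (((range N).filter fun v => Nat.digits b v ∈ M.accepts).card : ℝ))
    (κκ : ℤ) (hκκ : κκ ≠ 0) (Bc : ℕ) : ∃ (B e : ℕ) (C : ℝ), 2 ≤ B ∧ 0 ≤ C ∧ (2 * Bc + κκ.natAbs + 1 ≤ B ^ e) ∧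
    ∀ V : ℕ, ∃ D N₀ : ℕ, ∀ N, N₀ ≤ N → ∀ cc : ℤ, |cc| ≤ Bc * N → ∃ (n : ℕ) (Ω : Finset ℕ) (p : ℕ → ℝ),
      B ^ n ≤ N ∧ N < B ^ (n + 1) ∧
      Law B (B.factorial * κκ.natAbs) D V (n + 1 + e) Ω p (fun v : ℕ => cc + κκ * v) ∧
      (∀ v ∈ Ω, v < B ^ (n + 1)) ∧
      (∀ v ∈ Ω, -((B ^ (n + 1 + e) : ℕ) : ℤ) < cc + κκ * v ∧ ((Bc * N : ℕ) : ℤ) + (cc + κκ * v) ≤ ((B ^ (n + 1 + e) : ℕ) : ℤ)) ∧
      ∑ v ∈ Ω, p v = 1 ∧ (∀ v ∈ Ω, p v ≤ 1 / ((n + 1 + e : ℕ) : ℝ) ^ V) ∧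
      (∀ v, v < N → Nat.digits b v ∈ M.accepts →
        v ∈ Ω ∧ 1 ≤ C * (((range N).filter fun v => Nat.digits b v ∈ M.accepts).card : ℝ) * p v) := by
  obtain ⟨B, δ, F, s0, κ, C, ρ, k, hB2, hρ, hG, hrun⟩ := setup b hb M hS
  have hC1 := hG.C1
  have hC0 : 0 < C := by linarith
  obtain ⟨e, he⟩ : ∃ e : ℕ, 2 * Bc + κκ.natAbs + 1 ≤ B ^ e :=
    ⟨2 * Bc + κκ.natAbs, Nat.lt_pow_self (by omega)⟩
  refine ⟨B, e, C, hB2, hC0.le, he, fun V => ?_⟩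
  obtain ⟨D, K2, hchar⟩ := char_bound B hB2 δ F s0 (R1 B δ) κ C ρ k hG hρ (fun s hs => hs) κκ e V
  have hexp : ∃ k3 : ℕ, ∀ K : ℕ, k3 ≤ K → C * ρ ^ e * (K : ℝ) ^ V ≤ ρ ^ K := by
    have hlim := isLittleO_pow_const_const_pow_of_one_lt (R := ℝ) V hρ
    have h2 := hlim.def (c := 1 / (C * ρ ^ e)) (by positivity)
    rw [Filter.eventually_atTop] at h2
    obtain ⟨k2, hk2⟩ := h2
    refine ⟨k2, fun K hK => ?_⟩
    have h3 := hk2 K hK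
    rw [Real.norm_of_nonneg (by positivity), Real.norm_of_nonneg (by positivity)] at h3
    calc C * ρ ^ e * (K : ℝ) ^ V ≤ C * ρ ^ e * (1 / (C * ρ ^ e) * ρ ^ K) := mul_le_mul_of_nonneg_left h3 (by positivity)
      _ = ρ ^ K := by field_simp
  obtain ⟨k3, hk3⟩ := hexp
  refine ⟨D, B ^ (K2 + κ + k3 + 1), fun N hN cc hcc => ?_⟩
  obtain ⟨n, hn⟩ : ∃ n, n = Nat.log B N := ⟨_, rfl⟩
  have hpB : 0 < B ^ (K2 + κ + k3 + 1) := by positivity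
  have hn1 : K2 + κ + k3 + 1 ≤ n := by
    rw [hn]
    exact (Nat.le_log_iff_pow_le (by omega) (by omega)).2 hN
  have hN1 : B ^ n ≤ N := by rw [hn]; exact Nat.pow_log_le_self B (by omega)
  have hN2 : N < B ^ (n + 1) := by rw [hn]; exact Nat.lt_pow_succ_log_self (by omega) N
  have hlow := hG.low (n + 1) (by omega)
  have hpos : 0 < Ac B δ F (n + 1) s0 := by
    have h2 : 0 < ρ ^ (n + 1) := by positivity
    by_contra hcon
    push Not at hcon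
    have h3 : C * Ac B δ F (n + 1) s0 ≤ 0 := mul_nonpos_of_nonneg_of_nonpos (by linarith) hcon
    linarith
  have hlaw := law_of B hB2 δ F s0 κκ V D (n + 1 + e) (n + 1) hpos (hchar (n + 1 + e) (by omega) (n + 1) rfl) cc
  have hcard : (((range (B ^ (n + 1))).filter (fun v => F (run B δ (n + 1) s0 v))).card : ℝ) = Ac B δ F (n + 1) s0 := by
    rw [Ac_eq B (by omega), ← sum_filter, sum_const, nsmul_eq_mul, mul_one]
  refine ⟨n, (range (B ^ (n + 1))).filter (fun v => F (run B δ (n + 1) s0 v)), fun _ => 1 / Ac B δ F (n + 1) s0, hN1, hN2, hlaw, ?_, ?_, ?_, ?_, ?_⟩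
  · intro v hv
    rw [mem_filter, mem_range] at hv
    exact hv.1
  · intro v hv
    rw [mem_filter, mem_range] at hv
    obtain ⟨c1, c2⟩ := abs_le.1 hcc
    have h1 : ((2 * Bc + κκ.natAbs + 1 : ℕ) : ℤ) * ((B ^ (n + 1) : ℕ) : ℤ) ≤ ((B ^ (n + 1 + e) : ℕ) : ℤ) := by
      have : (2 * Bc + κκ.natAbs + 1) * B ^ (n + 1) ≤ B ^ (n + 1 + e) := by
        rw [pow_add B (n + 1) e, mul_comm (B ^ (n + 1))]
        exact Nat.mul_le_mul_right _ he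
      exact_mod_cast this
    have h2 : |κκ * (v : ℤ)| ≤ (κκ.natAbs : ℤ) * ((B ^ (n + 1) : ℕ) : ℤ) := by
      rw [abs_mul, Int.abs_eq_natAbs κκ, abs_of_nonneg (by positivity : (0 : ℤ) ≤ (v : ℤ))]
      exact mul_le_mul_of_nonneg_left (by exact_mod_cast hv.1.le) (by positivity)
    obtain ⟨d1, d2⟩ := abs_le.1 h2
    have h3 : (Bc : ℤ) * N ≤ (Bc : ℤ) * ((B ^ (n + 1) : ℕ) : ℤ) := mul_le_mul_of_nonneg_left (by exact_mod_cast hN2.le) (by positivity)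
    have h4 : (0 : ℤ) < ((B ^ (n + 1) : ℕ) : ℤ) := by exact_mod_cast (by positivity : 0 < B ^ (n + 1))
    have h5 : (0 : ℤ) ≤ (Bc : ℤ) * ((B ^ (n + 1) : ℕ) : ℤ) := by positivity
    obtain ⟨P, hP⟩ : ∃ P : ℤ, P = ((B ^ (n + 1) : ℕ) : ℤ) := ⟨_, rfl⟩
    rw [← hP] at h1 d1 d2 h3 h4 h5
    have h6 : ((2 * Bc + κκ.natAbs + 1 : ℕ) : ℤ) * P = 2 * (Bc * P) + κκ.natAbs * P + P := by push_cast; ring
    rw [h6] at h1
    have h7 : ((Bc * N : ℕ) : ℤ) = (Bc : ℤ) * N := by push_cast; ring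
    rw [h7]
    obtain ⟨BK, hBK⟩ : ∃ BK : ℤ, BK = ((B ^ (n + 1 + e) : ℕ) : ℤ) := ⟨_, rfl⟩
    rw [← hBK] at h1 ⊢
    constructor
    · linarith
    · linarith
  · rw [sum_const, nsmul_eq_mul, hcard, mul_one_div, div_self hpos.ne']
  · intro v _
    have h1 := hk3 (n + 1 + e) (by omega)
    rw [pow_add ρ (n + 1) e] at h1
    have h2 : C * ((n + 1 + e : ℕ) : ℝ) ^ V ≤ ρ ^ (n + 1) := by
      have h3 : (C * ((n + 1 + e : ℕ) : ℝ) ^ V) * ρ ^ e ≤ ρ ^ (n + 1) * ρ ^ e := by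
        refine le_trans (le_of_eq ?_) h1
        ring
      exact le_of_mul_le_mul_right h3 (by positivity)
    have h4 : ((n + 1 + e : ℕ) : ℝ) ^ V ≤ Ac B δ F (n + 1) s0 := le_of_mul_le_mul_left (h2.trans hlow) hC0
    apply one_div_le_one_div_of_le _ h4
    have : (0 : ℝ) < ((n + 1 + e : ℕ) : ℝ) := by exact_mod_cast (by omega : 0 < n + 1 + e)
    positivity
  · intro v hv hvM
    have hv2 : v < B ^ (n + 1) := hv.trans hN2
    refine ⟨mem_filter.2 ⟨mem_range.2 hv2, (hrun (n + 1) v hv2).2 hvM⟩, ?_⟩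
    have h3 := hG.step n (by omega) s0
    have h4 : Ac B δ F n s0 ≤ (((range N).filter fun v => Nat.digits b v ∈ M.accepts).card : ℝ) := by
      have e1 : Ac B δ F n s0 = (((range (B ^ n)).filter fun v => Nat.digits b v ∈ M.accepts).card : ℝ) := by
        rw [Ac_eq B (by omega), ← sum_filter, sum_const, nsmul_eq_mul, mul_one]
        congr 2
        apply filter_congr
        intro v hv
        exact hrun n v (mem_range.1 hv)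
      rw [e1]
      exact_mod_cast card_le_card (filter_subset_filter _ (range_mono hN1))
    have h6 : Ac B δ F (n + 1) s0 ≤ C * (((range N).filter fun v => Nat.digits b v ∈ M.accepts).card : ℝ) :=
      h3.trans (mul_le_mul_of_nonneg_left h4 hC0.le)
    rw [mul_one_div, le_div_iff₀ hpos, one_mul]
    exact h6

open Classical in
/-- the interface for the von Mangoldt function -/
theorem au_one [Fintype σ] (b : ℕ) (hb : 2 ≤ b) (M : DFA ℕ σ)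
    (hS : ∀ k : ℕ, ∃ᶠ N : ℕ in Filter.atTop, Real.log N ^ k < (((range N).filter fun v => Nat.digits b v ∈ M.accepts).card : ℝ))
    (κκ : ℕ) (hκκ : 1 ≤ κκ) (Bc : ℕ) (hBc : 1 ≤ Bc) (U : ℕ) : ∃ (A B0 : ℕ) (C : ℝ), 0 ≤ C ∧ ∀ E : ℕ, ∃ N₀ : ℕ, ∀ N, N₀ ≤ N →
    ∀ cc : ℕ, cc ≤ Bc * N → ∃ (Ω : Finset ℕ) (p : ℕ → ℝ),
      (∀ v ∈ Ω, 0 ≤ p v) ∧ ∑ v ∈ Ω, p v = 1 ∧ (∀ v ∈ Ω, p v ≤ 1 / Real.log N ^ U) ∧ (∀ v ∈ Ω, cc + κκ * v ≤ A * N) ∧
      (∀ v, v < N → Nat.digits b v ∈ M.accepts →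
        v ∈ Ω ∧ 1 ≤ C * (((range N).filter fun v => Nat.digits b v ∈ M.accepts).card : ℝ) * p v) ∧
      ∀ z : ℕ, Real.log N ^ B0 ≤ z → (z : ℝ) ≤ Real.log N ^ E → ∀ Kc : ℝ, 0 < Kc → ∀ G : ℕ → ℝ, (∀ n ∈ Icc 1 N, |G n| ≤ Kc) →
        ∑ v ∈ Ω, p v * |∑ n ∈ Icc 1 N, G n * (lamI ((n : ℤ) + ((cc + κκ * v : ℕ) : ℤ)) - lamzI z ((n : ℤ) + ((cc + κκ * v : ℕ) : ℤ)))| ≤
          Kc * (N / Real.log N ^ U) := by
  have hκz : ((κκ : ℕ) : ℤ) ≠ 0 := by exact_mod_cast (by omega : κκ ≠ 0)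
  obtain ⟨B, e, C, hB2, hC0, hBe, hlaw⟩ := au_law2 b hb M hS (κκ : ℤ) hκz Bc
  obtain ⟨D, N1, hlaw⟩ := hlaw (2 * (U + 1) + 6)
  obtain ⟨B0, h0⟩ := one_law B (B.factorial * ((κκ : ℤ)).natAbs) hB2 (Nat.mul_pos B.factorial_pos (Int.natAbs_pos.2 hκz)) (U + 1) D
  have hB1 : (1 : ℝ) < B := by exact_mod_cast (by omega : 1 < B)
  have hlogB : 0 < Real.log B := Real.log_pos hB1
  refine ⟨B ^ (1 + e), B0 + 1, C, hC0, fun E => ?_⟩
  obtain ⟨K0, h0⟩ := h0 E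
  obtain ⟨K1, hK1⟩ := exists_nat_ge ((B : ℝ) ^ (1 + e) * Real.log B ^ U + Real.log B ^ U + 1)
  obtain ⟨R, hR⟩ := exists_nat_ge ((2 : ℝ) ^ B0 + Real.log ((B : ℝ) ^ (1 + e)) + 1)
  refine ⟨N1 + B ^ (K0 + K1 + 1) + 3 ^ R + 3, fun N hN cc hcc => ?_⟩
  obtain ⟨P3, hP3⟩ : ∃ P3 : ℕ, P3 = 3 ^ R := ⟨_, rfl⟩
  rw [← hP3] at hN
  obtain ⟨n, Ω, p, hn1, hn2, hl, hΩ, hY, hp1, hpV, hmem⟩ := hlaw N (by omega) (cc : ℤ) (by
    rw [abs_of_nonneg (by positivity)]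
    exact_mod_cast hcc)
  have hpB : 0 < B ^ (K0 + K1 + 1) := by positivity
  have hn : K0 + K1 + 1 ≤ n := by
    have h1 : B ^ (K0 + K1 + 1) < B ^ (n + 1) := lt_of_le_of_lt (by omega) hn2
    have := (Nat.pow_lt_pow_iff_right (by omega : 1 < B)).1 h1
    omega
  obtain ⟨K, hK⟩ : ∃ K, K = n + 1 + e := ⟨_, rfl⟩
  have hlogK := log_K B e N n hB2 (by omega) hn2
  rw [← hK] at hl hY hlogK hpV
  have hKr : (K1 : ℝ) ≤ K := by exact_mod_cast (by omega : K1 ≤ K)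
  have hK0' : (1 : ℝ) ≤ K := by exact_mod_cast (by omega : 1 ≤ K)
  have hNpos : 1 < N := by omega
  have hN0 : (0 : ℝ) < N := by exact_mod_cast (by omega : 0 < N)
  have hlog0 : 0 < Real.log N := Real.log_pos (by exact_mod_cast hNpos)
  have hlogR : (R : ℝ) ≤ Real.log N := by
    rw [Real.le_log_iff_exp_le hN0]
    have h1 : Real.exp (R : ℝ) ≤ (3 : ℝ) ^ R := by
      rw [show (R : ℝ) = R * 1 by ring, Real.exp_nat_mul]
      exact pow_le_pow_left₀ (Real.exp_pos _).le (by linarith [Real.exp_one_lt_d9]) R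
    refine h1.trans ?_
    exact_mod_cast (by rw [← hP3]; omega : 3 ^ R ≤ N)
  have a1 : 0 ≤ (B : ℝ) ^ (1 + e) * Real.log B ^ U := by positivity
  have a2 : 0 ≤ Real.log B ^ U := by positivity
  have hU : Real.log N ^ U ≤ (K : ℝ) ^ U * Real.log B ^ U := by
    rw [← mul_pow]
    exact pow_le_pow_left₀ hlog0.le hlogK U
  have hBKN : ((B ^ K : ℕ) : ℝ) ≤ (B : ℝ) ^ (1 + e) * N := by
    have : B ^ K ≤ B ^ (1 + e) * N := by
      rw [hK, show n + 1 + e = (1 + e) + n by omega, pow_add]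
      exact Nat.mul_le_mul_left _ hn1
    exact_mod_cast this
  have hBK : ((B ^ K : ℕ) : ℝ) / (K : ℝ) ^ (U + 1) ≤ N / Real.log N ^ U := by
    rw [div_le_div_iff₀ (by positivity) (by positivity)]
    calc ((B ^ K : ℕ) : ℝ) * Real.log N ^ U ≤ ((B : ℝ) ^ (1 + e) * N) * ((K : ℝ) ^ U * Real.log B ^ U) :=
          mul_le_mul hBKN hU (by positivity) (by positivity)
      _ = N * (((B : ℝ) ^ (1 + e) * Real.log B ^ U) * (K : ℝ) ^ U) := by ring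
      _ ≤ N * (K * (K : ℝ) ^ U) := by
          apply mul_le_mul_of_nonneg_left _ hN0.le
          exact mul_le_mul_of_nonneg_right (by linarith) (by positivity)
      _ = _ := by rw [pow_succ]; ring
  have hNX : N ≤ B ^ K := by
    have : B ^ (n + 1) ≤ B ^ K := Nat.pow_le_pow_right (by omega) (by omega)
    omega
  have hBcN : N ≤ Bc * N := Nat.le_mul_of_pos_left _ hBc
  refine ⟨Ω, p, hl.nonneg, hp1, ?_, ?_, hmem, ?_⟩
  · intro v hv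
    refine (hpV v hv).trans ?_
    apply one_div_le_one_div_of_le (by positivity)
    refine hU.trans ?_
    calc (K : ℝ) ^ U * Real.log B ^ U ≤ (K : ℝ) ^ U * K := mul_le_mul_of_nonneg_left (by linarith) (by positivity)
      _ = (K : ℝ) ^ (U + 1) := by rw [pow_succ]
      _ ≤ _ := pow_le_pow_right₀ hK0' (by omega)
  · intro v hv
    have h1 := (hY v hv).2
    have h2 : (cc : ℤ) + (κκ : ℤ) * v ≤ ((B ^ K : ℕ) : ℤ) := by
      have : (0 : ℤ) ≤ ((Bc * N : ℕ) : ℤ) := by positivity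
      linarith
    have h3 : B ^ K ≤ B ^ (1 + e) * N := by
      rw [hK, show n + 1 + e = (1 + e) + n by omega, pow_add]
      exact Nat.mul_le_mul_left _ hn1
    have h4 : cc + κκ * v ≤ B ^ K := by exact_mod_cast h2
    omega
  · intro z hz1 hz2 Kc hKc G hG
    have hlX1 : Real.log N ≤ Real.log ((B ^ K : ℕ) : ℝ) := Real.log_le_log hN0 (by exact_mod_cast hNX)
    have hlX2 : Real.log ((B ^ K : ℕ) : ℝ) ≤ 2 * Real.log N := by
      have h1 : Real.log ((B ^ K : ℕ) : ℝ) ≤ Real.log ((B : ℝ) ^ (1 + e) * N) := by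
        apply Real.log_le_log _ hBKN
        exact_mod_cast (by positivity : 0 < B ^ K)
      rw [Real.log_mul (by positivity) hN0.ne'] at h1
      have h2 : (0 : ℝ) < 2 ^ B0 := by positivity
      linarith
    have hzX1 : Real.log ((B ^ K : ℕ) : ℝ) ^ B0 ≤ z := by
      refine le_trans ?_ hz1
      calc Real.log ((B ^ K : ℕ) : ℝ) ^ B0 ≤ (2 * Real.log N) ^ B0 := pow_le_pow_left₀ (by linarith) hlX2 _
        _ = 2 ^ B0 * Real.log N ^ B0 := mul_pow _ _ _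
        _ ≤ Real.log N * Real.log N ^ B0 := by
            apply mul_le_mul_of_nonneg_right _ (by positivity)
            have h2 : 0 ≤ Real.log ((B : ℝ) ^ (1 + e)) := by
              rw [Real.log_pow]; positivity
            linarith
        _ = Real.log N ^ (B0 + 1) := by ring
    have hzX2 : (z : ℝ) ≤ Real.log ((B ^ K : ℕ) : ℝ) ^ E := hz2.trans (pow_le_pow_left₀ hlog0.le hlX1 _)
    have h := h0 K (by omega) z hzX1 hzX2 ℕ Ω p (fun v : ℕ => (cc : ℤ) + (κκ : ℤ) * v) hl hp1 N (fun v hv => ⟨(hY v hv).1, by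
      have h1 := (hY v hv).2
      have h2 : (N : ℤ) ≤ ((Bc * N : ℕ) : ℤ) := by exact_mod_cast hBcN
      linarith⟩) hNX Kc hKc G hG
    refine le_trans (le_of_eq ?_) (h.trans (mul_le_mul_of_nonneg_left hBK hKc.le))
    apply sum_congr rfl
    intro v _
    congr 2

end Pool.Agent.W93.AU
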