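import Pool.Agent.W93.AU15

set_option autoImplicit false

/-! Automata: prime tuples. -/

namespace Pool.Agent.W93.AU
open Finset
open Pool.Agent.H807R2.Dav
open Pool.Agent.H373R2.T7
open Pool.Agent.W93.DG
open Pool.Agent.W93.RD
open Pool.Agent.W93.TD

/-- the weighted number of degenerate vectors -/
lemma degen_w {s : ℕ} (Ω : Fin s → Finset ℕ) (p : Fin s → ℕ → ℝ) (hp0 : ∀ i, ∀ v ∈ Ω i, 0 ≤ p i v)
    (hp1 : ∀ i, ∑ v ∈ Ω i, p i v = 1) (θ : ℝ) (hθ0 : 0 ≤ θ) (i : Fin s) (hθ : ∀ v ∈ Ω i, p i v ≤ θ) (Y : ℕ → ℕ)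
    (hY : ∀ v w, Y v = Y w → v = w) (g : (Fin s → ℕ) → ℕ) (hg : ∀ m v, g (Function.update m i v) = g m) :
    ∑ ω ∈ Fintype.piFinset Ω, (∏ j, p j (ω j)) * (if Y (ω i) = g ω then (1 : ℝ) else 0) ≤ θ := by
  classical
  have h1 := avg_w Ω p hp1 i (fun ω => if Y (ω i) = g ω then (1 : ℝ) else 0)
  rw [← h1]
  have h2 : ∀ m ∈ Fintype.piFinset Ω, (∏ j, p j (m j)) *
      ∑ v ∈ Ω i, p i v * (if Y ((Function.update m i v) i) = g (Function.update m i v) then (1 : ℝ) else 0) ≤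
      (∏ j, p j (m j)) * θ := by
    intro m hm
    apply mul_le_mul_of_nonneg_left _ (prod_nonneg fun j _ => hp0 j _ (Fintype.mem_piFinset.1 hm j))
    have h3 : ∀ v ∈ Ω i, p i v * (if Y ((Function.update m i v) i) = g (Function.update m i v) then (1 : ℝ) else 0) =
        if Y v = g m then p i v else 0 := by
      intro v _
      rw [Function.update_self, hg]
      split_ifs <;> simp
    rw [sum_congr rfl h3, ← sum_filter]
    rcases ((Ω i).filter fun v => Y v = g m).eq_empty_or_nonempty with h4 | ⟨v0, hv0⟩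
    · rw [h4, sum_empty]; exact hθ0
    · have h5 : ((Ω i).filter fun v => Y v = g m) = {v0} := by
        rw [mem_filter] at hv0
        apply eq_singleton_iff_unique_mem.2
        refine ⟨mem_filter.2 hv0, fun v hv => ?_⟩
        rw [mem_filter] at hv
        exact hY v v0 (hv.2.trans hv0.2.symm)
      rw [h5, sum_singleton]
      exact hθ v0 (mem_filter.1 hv0).1
  refine (sum_le_sum h2).trans (le_of_eq ?_)
  rw [← sum_mul, total_w Ω p hp1, one_mul]

/-- the size of the total error -/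
lemma au_num (L S C N X : ℝ) (s U : ℕ) (hL : 1 ≤ L) (hN : 0 < N)
    (hX : X ≤ s * (2 * L * (2 * L) ^ s * (N / L ^ (2 * U + s + 4)))) (hC0 : 0 ≤ C)
    (hbig : C * (S + s * 2 ^ (s + 2)) ≤ L) (hS : 0 ≤ S) :
    C * (S * (1 / L ^ (2 * U + s + 4)) + 1 / ((1 / 2) * (N / L ^ (U + 2))) * X) ≤ 1 / L ^ U := by
  have hL0 : 0 < L := by linarith
  have h1 : 1 / ((1 / 2) * (N / L ^ (U + 2))) * X ≤ s * 2 ^ (s + 2) * (1 / L ^ (U + 1)) := by
    refine (mul_le_mul_of_nonneg_left hX (by positivity)).trans (le_of_eq ?_)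
    have e1 : L ^ (2 * U + s + 4) = L ^ (U + 2) * (L ^ (s + 1) * L ^ (U + 1)) := by
      rw [← pow_add, ← pow_add]; congr 1; ring
    rw [e1]
    have r1 : L ^ (U + 2) ≠ 0 := by positivity
    have r2 : L ^ (s + 1) ≠ 0 := by positivity
    have r3 : L ^ (U + 1) ≠ 0 := by positivity
    field_simp
    ring
  have h2 : S * (1 / L ^ (2 * U + s + 4)) ≤ S * (1 / L ^ (U + 1)) := by
    apply mul_le_mul_of_nonneg_left _ hS
    apply one_div_le_one_div_of_le (by positivity)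
    exact pow_le_pow_right₀ hL (by omega)
  calc C * (S * (1 / L ^ (2 * U + s + 4)) + 1 / ((1 / 2) * (N / L ^ (U + 2))) * X)
      ≤ C * (S * (1 / L ^ (U + 1)) + s * 2 ^ (s + 2) * (1 / L ^ (U + 1))) :=
        mul_le_mul_of_nonneg_left (add_le_add h2 h1) hC0
    _ = (C * (S + s * 2 ^ (s + 2))) * (1 / L ^ (U + 1)) := by ring
    _ ≤ L * (1 / L ^ (U + 1)) := mul_le_mul_of_nonneg_right hbig (by positivity)
    _ = 1 / L ^ U := by rw [pow_succ]; field_simp

open Classical in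
/-- prime tuples whose shifts belong to automatic sets -/
theorem au_tuples (s : ℕ) (hs : 1 ≤ s) (σ : Fin s → Type) [∀ i, Fintype (σ i)] (b : Fin s → ℕ) (hb : ∀ i, 2 ≤ b i)
    (M : ∀ i, DFA ℕ (σ i))
    (hS : ∀ i, ∀ k : ℕ, ∃ᶠ N : ℕ in Filter.atTop, Real.log N ^ k < (((range N).filter fun v => Nat.digits (b i) v ∈ (M i).accepts).card : ℝ))
    (κ : Fin s → ℕ) (hκ : ∀ i, 1 ≤ κ i) (Bc U : ℕ) (hBc : 1 ≤ Bc) (ε : ℝ) (hε : 0 < ε) :
    ∃ N₀ : ℕ, ∀ N, N₀ ≤ N → ∀ c : Fin s → ℕ, (∀ i, c i ≤ Bc * N) →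
      ∀ E : (Fin s → ℕ) → Prop, (∀ v, E v → ¬ HLs ε U N (fun i => c i + κ i * v i)) →
      (((Fintype.piFinset fun i => (range N).filter fun v => Nat.digits (b i) v ∈ (M i).accepts).filter E).card : ℝ) ≤
        (∏ i, (((range N).filter fun v => Nat.digits (b i) v ∈ (M i).accepts).card : ℝ)) / Real.log N ^ U := by
  choose A B0 C hC0 h0 using fun i => au_one (b i) (hb i) (M i) (hS i) (κ i) (hκ i) Bc hBc (2 * U + s + 4)
  obtain ⟨E1, hE1⟩ : ∃ E1, E1 = ∑ i, B0 i + U + s + 5 := ⟨_, rfl⟩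
  have hB0E : ∀ i, B0 i ≤ E1 := by
    intro i
    have := single_le_sum (f := B0) (fun j _ => Nat.zero_le _) (mem_univ i)
    omega
  obtain ⟨A', hA'⟩ : ∃ A', A' = ∑ i, A i := ⟨_, rfl⟩
  have hAi : ∀ i, A i ≤ A' := by
    intro i
    rw [hA']
    exact single_le_sum (f := A) (fun j _ => Nat.zero_le _) (mem_univ i)
  choose n1 h1 using fun i => h0 i (E1 + 1)
  obtain ⟨n2, h2⟩ := det3 s A' E1 U hs ε hε (by omega)
  obtain ⟨n3, h3⟩ := Vz_inv_small (E1 + 1)
  obtain ⟨CC, hCC⟩ : ∃ CC, CC = ∏ i, C i := ⟨_, rfl⟩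
  have hCC0 : 0 ≤ CC := by rw [hCC]; exact prod_nonneg fun i _ => hC0 i
  obtain ⟨SS', hSS'⟩ : ∃ x : ℝ, x = (s : ℝ) + s * s := ⟨_, rfl⟩
  have hSS0 : 0 ≤ SS' := by rw [hSS']; positivity
  obtain ⟨R, hR⟩ := exists_nat_ge (CC * (SS' + s * 2 ^ (s + 2)) + Real.log ((A' : ℝ) + 1) + 2)
  have hlA : 0 ≤ Real.log ((A' : ℝ) + 1) := Real.log_nonneg (by linarith [(Nat.cast_nonneg A' : (0 : ℝ) ≤ A')])
  refine ⟨∑ i, n1 i + n2 + n3 + 3 ^ R + 3, fun N hN c hc E hE => ?_⟩
  obtain ⟨P3, hP3⟩ : ∃ P3 : ℕ, P3 = 3 ^ R := ⟨_, rfl⟩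
  rw [← hP3] at hN
  obtain ⟨T1, hT1⟩ : ∃ T1 : ℕ, T1 = ∑ i, n1 i := ⟨_, rfl⟩
  rw [← hT1] at hN
  have hn1 : ∀ i, n1 i ≤ N := by
    intro i
    have := single_le_sum (f := n1) (fun j _ => Nat.zero_le _) (mem_univ i)
    rw [← hT1] at this
    omega
  have hN0 : (0 : ℝ) < N := by exact_mod_cast (by omega : 0 < N)
  obtain ⟨L, hL⟩ : ∃ L, L = Real.log (N : ℝ) := ⟨_, rfl⟩
  have hLR : (R : ℝ) ≤ L := by
    rw [hL, Real.le_log_iff_exp_le hN0]
    have h1 : Real.exp (R : ℝ) ≤ (3 : ℝ) ^ R := by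
      rw [show (R : ℝ) = R * 1 by ring, Real.exp_nat_mul]
      exact pow_le_pow_left₀ (Real.exp_pos _).le (by linarith [Real.exp_one_lt_d9]) R
    refine h1.trans ?_
    exact_mod_cast (by rw [← hP3]; omega : 3 ^ R ≤ N)
  have hbig0 : 0 ≤ CC * (SS' + s * 2 ^ (s + 2)) := by positivity
  have hbig : CC * (SS' + s * 2 ^ (s + 2)) ≤ L := by linarith
  have hL2 : 2 ≤ L := by linarith
  have hL1 : 1 ≤ L := by linarith
  have hL0 : 0 < L := by linarith
  -- the level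
  obtain ⟨z, hz⟩ : ∃ z, z = ⌈L ^ E1⌉₊ := ⟨_, rfl⟩
  have hz1 : L ^ E1 ≤ z := by rw [hz]; exact Nat.le_ceil _
  have hz2 : (z : ℝ) ≤ L ^ (E1 + 1) := by
    have q1 : (z : ℝ) < L ^ E1 + 1 := by rw [hz]; exact Nat.ceil_lt_add_one (by positivity)
    have q2 : 1 ≤ L ^ E1 := one_le_pow₀ (by linarith)
    rw [pow_succ]
    nlinarith
  have hzge : 1 ≤ z := by
    have : (1 : ℝ) ≤ z := (one_le_pow₀ hL1).trans hz1
    exact_mod_cast this
  choose Ω p hp0 hp1 hpθ hA hmem hone using fun i => h1 i N (hn1 i) (c i) (hc i)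
  rw [← hL] at hpθ hone
  obtain ⟨X, hX⟩ : ∃ X : ℕ, X = (A' + 1) * N := ⟨_, rfl⟩
  have hXN : N ≤ X := by rw [hX]; exact Nat.le_mul_of_pos_left _ (by omega)
  obtain ⟨LX, hLX⟩ : ∃ LX, LX = Real.log (X : ℝ) := ⟨_, rfl⟩
  have hLX1 : L ≤ LX := by
    rw [hL, hLX]
    exact Real.log_le_log hN0 (by exact_mod_cast hXN)
  have hLX2 : LX ≤ 2 * L := by
    rw [hLX, hX]
    push_cast
    rw [Real.log_mul (by positivity) hN0.ne', ← hL]
    linarith
  have hV := h3 X (by omega) z hzge (by rw [← hLX]; exact hz2.trans (pow_le_pow_left₀ hL0.le hLX1 _))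
  rw [← hLX] at hV
  have hup : ∀ i, ∀ n ∈ Icc 1 N, ∀ v ∈ Ω i, (((n : ℤ) + ((c i + κ i * v : ℕ) : ℤ) : ℤ) : ℝ) ≤ (X : ℝ) := by
    intro i n hn v hv
    rw [mem_Icc] at hn
    have h4 := hA i v hv
    have h5 : A i * N ≤ A' * N := Nat.mul_le_mul_right _ (hAi i)
    have h6 : X = A' * N + N := by rw [hX]; ring
    exact_mod_cast (by omega : n + (c i + κ i * v) ≤ X)
  have key := tele_w N Ω p hp0 hp1 (fun i n v => lamI ((n : ℤ) + ((c i + κ i * v : ℕ) : ℤ)))
    (fun i n v => lamzI z ((n : ℤ) + ((c i + κ i * v : ℕ) : ℤ)))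
    (2 * L) (N / L ^ (2 * U + s + 4)) (by linarith) (by positivity) (by
      intro i n hn v hv
      rw [abs_of_nonneg (lamI_nonneg _)]
      refine le_trans ?_ hLX2
      rw [hLX]
      exact lamI_le _ _ (by exact_mod_cast (by omega : 1 ≤ X)) (hup i n hn v hv)) (by
      intro i n hn v hv
      rw [abs_of_nonneg (lamzI_nonneg _ _)]
      exact ((lamzI_le z _).trans hV).trans hLX2) (by
      intro i K hK G hG
      exact hone i z ((pow_le_pow_right₀ hL1 (hB0E i)).trans hz1) hz2 K hK G hG)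
    univ (2 * L) (by linarith) (fun n _ => ArithmeticFunction.vonMangoldt n) (by
      intro n hn m _
      rw [mem_Icc] at hn
      rw [abs_of_nonneg ArithmeticFunction.vonMangoldt_nonneg]
      have q1 : Real.log (n : ℝ) ≤ L := by
        rw [hL]
        apply Real.log_le_log (by exact_mod_cast hn.1)
        exact_mod_cast hn.2
      exact ArithmeticFunction.vonMangoldt_le_log.trans (by linarith)) (by
      intro n m v i _; rfl)
  rw [card_univ, Fintype.card_fin] at key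
  obtain ⟨θ, hθ⟩ : ∃ θ, θ = 1 / L ^ (2 * U + s + 4) := ⟨_, rfl⟩
  rw [← hθ] at hpθ
  have hθ0 : 0 ≤ θ := by rw [hθ]; positivity
  have hinj : ∀ i : Fin s, ∀ v w, c i + κ i * v = c i + κ i * w → v = w := by
    intro i v w h
    have h1 : κ i * v = κ i * w := by omega
    exact Nat.eq_of_mul_eq_mul_left (by have := hκ i; omega) h1
  have hdeg1 : ∀ i : Fin s, ∑ ω ∈ Fintype.piFinset Ω, (∏ j, p j (ω j)) * (if c i + κ i * ω i = 0 then (1 : ℝ) else 0) ≤ θ :=
    fun i => degen_w Ω p hp0 hp1 θ hθ0 i (hpθ i) (fun v => c i + κ i * v) (hinj i) (fun _ => 0) (fun _ _ => rfl)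
  have hdeg2 : ∀ i j : Fin s, ∑ ω ∈ Fintype.piFinset Ω, (∏ j, p j (ω j)) *
      (if j ≠ i ∧ c i + κ i * ω i = c j + κ j * ω j then (1 : ℝ) else 0) ≤ θ := by
    intro i j
    by_cases hij : j ≠ i
    · refine le_trans (le_of_eq ?_) (degen_w Ω p hp0 hp1 θ hθ0 i (hpθ i) (fun v => c i + κ i * v) (hinj i) (fun ω => c j + κ j * ω j)
        (fun m v => by rw [Function.update_of_ne hij]))
      apply sum_congr rfl
      intro ω _
      simp only [hij, true_and, ne_eq, not_false_eq_true]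
    · simp only [hij, false_and, if_false, mul_zero, sum_const_zero]
      exact hθ0
  obtain ⟨DD, hDD⟩ : ∃ DD : (Fin s → ℕ) → ℝ, DD = fun ω => |∑ n ∈ Icc 1 N, ArithmeticFunction.vonMangoldt n *
        (∏ i, lamI ((n : ℤ) + ((c i + κ i * ω i : ℕ) : ℤ)) - ∏ i, lamzI z ((n : ℤ) + ((c i + κ i * ω i : ℕ) : ℤ)))| := ⟨_, rfl⟩
  have hDDr : ∀ ω : Fin s → ℕ, |∑ n ∈ Icc 1 N, ArithmeticFunction.vonMangoldt n *
        (∏ i, lamI ((n : ℤ) + ((c i + κ i * ω i : ℕ) : ℤ)) - ∏ i, lamzI z ((n : ℤ) + ((c i + κ i * ω i : ℕ) : ℤ)))| = DD ω :=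
    fun ω => by rw [hDD]
  simp only [hDDr] at key
  obtain ⟨C1, hC1⟩ : ∃ C1 : ℝ, C1 = 1 / ((1 / 2) * (N / L ^ (U + 2))) := ⟨_, rfl⟩
  have hC10 : 0 ≤ C1 := by rw [hC1]; positivity
  have hpt : ∀ ω ∈ Fintype.piFinset Ω, (if E ω then ∏ i, p i (ω i) else 0) ≤
      ∑ i : Fin s, (∏ i, p i (ω i)) * (if c i + κ i * ω i = 0 then (1 : ℝ) else 0) +
      ∑ i : Fin s, ∑ j : Fin s, (∏ i, p i (ω i)) * (if j ≠ i ∧ c i + κ i * ω i = c j + κ j * ω j then (1 : ℝ) else 0) +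
      C1 * ((∏ i, p i (ω i)) * DD ω) := by
    intro ω hω
    obtain ⟨P, hP⟩ : ∃ P, P = ∏ i, p i (ω i) := ⟨_, rfl⟩
    rw [← hP]
    have hP0 : 0 ≤ P := by rw [hP]; exact prod_nonneg fun j _ => hp0 j _ (Fintype.mem_piFinset.1 hω j)
    have hDD0 : 0 ≤ DD ω := by rw [← hDDr]; exact abs_nonneg _
    have t1 : ∀ i ∈ (univ : Finset (Fin s)), 0 ≤ P * (if c i + κ i * ω i = 0 then (1 : ℝ) else 0) := fun i _ =>
      mul_nonneg hP0 (by split_ifs <;> norm_num)
    have t2 : ∀ i ∈ (univ : Finset (Fin s)), ∀ j ∈ (univ : Finset (Fin s)), 0 ≤ P * (if j ≠ i ∧ c i + κ i * ω i = c j + κ j * ω j then (1 : ℝ) else 0) :=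
      fun i _ j _ => mul_nonneg hP0 (by split_ifs <;> norm_num)
    have t1' := sum_nonneg t1
    have t2' := sum_nonneg fun i hi => sum_nonneg (t2 i hi)
    have t3 : 0 ≤ C1 * (P * DD ω) := by positivity
    by_cases hEω : E ω
    swap
    · rw [if_neg hEω]
      linarith
    rw [if_pos hEω]
    by_cases q1 : ∃ i, c i + κ i * ω i = 0
    · obtain ⟨i, hi⟩ := q1
      have q2 := single_le_sum t1 (mem_univ i)
      rw [if_pos hi, mul_one] at q2
      linarith
    by_cases q3 : ∃ i j, j ≠ i ∧ c i + κ i * ω i = c j + κ j * ω j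
    · obtain ⟨i, j, hij⟩ := q3
      have q2 := single_le_sum (f := fun j => P * (if j ≠ i ∧ c i + κ i * ω i = c j + κ j * ω j then (1 : ℝ) else 0)) (t2 i (mem_univ i)) (mem_univ j)
      have q4 := single_le_sum (f := fun i => ∑ j : Fin s, P * (if j ≠ i ∧ c i + κ i * ω i = c j + κ j * ω j then (1 : ℝ) else 0))
        (fun i hi => sum_nonneg (t2 i hi)) (mem_univ i)
      rw [if_pos hij, mul_one] at q2
      linarith
    push Not at q1 q3
    -- the main case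
    have q5 : (1 / 2) * (N / L ^ (U + 2)) < DD ω := by
      by_contra hcon
      push Not at hcon
      apply hE ω hEω
      apply h2 N (by omega) z (by rw [← hL]; exact hz1) (by rw [← hL]; exact hz2) _ _ q1 (fun i j hij heq => q3 i j (Ne.symm hij) heq)
      · rw [hDDr, ← hL]
        exact hcon
      · intro i
        exact (hA i _ (Fintype.mem_piFinset.1 hω i)).trans (Nat.mul_le_mul_right _ (hAi i))
    have q6 : 1 ≤ C1 * DD ω := by
      rw [hC1, one_div, ← div_eq_inv_mul, le_div_iff₀ (by positivity), one_mul]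
      exact q5.le
    have q7 : P ≤ C1 * (P * DD ω) := by
      calc P = P * 1 := (mul_one _).symm
        _ ≤ P * (C1 * DD ω) := mul_le_mul_of_nonneg_left q6 hP0
        _ = _ := by ring
    linarith
  have g1 : ∑ ω ∈ Fintype.piFinset Ω, ∑ i : Fin s, (∏ i, p i (ω i)) * (if c i + κ i * ω i = 0 then (1 : ℝ) else 0) ≤ s * θ := by
    rw [sum_comm]
    refine (sum_le_sum fun i _ => hdeg1 i).trans (le_of_eq ?_)
    rw [sum_const, card_univ, Fintype.card_fin, nsmul_eq_mul]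
  have g2 : ∑ ω ∈ Fintype.piFinset Ω, ∑ i : Fin s, ∑ j : Fin s, (∏ i, p i (ω i)) *
      (if j ≠ i ∧ c i + κ i * ω i = c j + κ j * ω j then (1 : ℝ) else 0) ≤ (s * s) * θ := by
    rw [sum_comm]
    have g3 : ∀ i ∈ (univ : Finset (Fin s)), ∑ ω ∈ Fintype.piFinset Ω, ∑ j : Fin s, (∏ i, p i (ω i)) *
      (if j ≠ i ∧ c i + κ i * ω i = c j + κ j * ω j then (1 : ℝ) else 0) ≤ s * θ := by
      intro i _
      rw [sum_comm]
      refine (sum_le_sum fun j _ => hdeg2 i j).trans (le_of_eq ?_)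
      rw [sum_const, card_univ, Fintype.card_fin, nsmul_eq_mul]
    refine (sum_le_sum g3).trans (le_of_eq ?_)
    rw [sum_const, card_univ, Fintype.card_fin, nsmul_eq_mul]
    ring
  have hsum : ∑ ω ∈ Fintype.piFinset Ω, (if E ω then ∏ i, p i (ω i) else 0) ≤ SS' * θ +
      C1 * ∑ ω ∈ Fintype.piFinset Ω, (∏ i, p i (ω i)) * DD ω := by
    refine (sum_le_sum hpt).trans ?_
    rw [sum_add_distrib, sum_add_distrib, ← mul_sum, hSS']
    have g4 : ((s : ℝ) + s * s) * θ = s * θ + (s * s) * θ := by ring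
    linarith
  have hfin := au_num L SS' CC N _ s U hL1 hN0 key hCC0 hbig hSS0
  rw [← hθ, ← hC1] at hfin
  -- counting
  obtain ⟨cs, hcs⟩ : ∃ cs : Fin s → ℝ, cs = fun i => (((range N).filter fun v => Nat.digits (b i) v ∈ (M i).accepts).card : ℝ) := ⟨_, rfl⟩
  have hcsr : ∀ i, (((range N).filter fun v => Nat.digits (b i) v ∈ (M i).accepts).card : ℝ) = cs i := fun i => by rw [hcs]
  simp only [hcsr] at hmem ⊢
  have hcs0 : ∀ i, 0 ≤ cs i := fun i => by rw [← hcsr]; exact Nat.cast_nonneg _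
  have hPc : 0 ≤ ∏ i, cs i := prod_nonneg fun i _ => hcs0 i
  calc (((Fintype.piFinset fun i => (range N).filter fun v => Nat.digits (b i) v ∈ (M i).accepts).filter E).card : ℝ)
      = ∑ v ∈ (Fintype.piFinset fun i => (range N).filter fun v => Nat.digits (b i) v ∈ (M i).accepts).filter E, (1 : ℝ) := by
        rw [sum_const, nsmul_eq_mul, mul_one]
    _ ≤ ∑ v ∈ (Fintype.piFinset fun i => (range N).filter fun v => Nat.digits (b i) v ∈ (M i).accepts).filter E,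
          ∏ i, (C i * cs i * p i (v i)) := by
        apply sum_le_sum
        intro v hv
        rw [mem_filter, Fintype.mem_piFinset] at hv
        have : (1 : ℝ) = ∏ i : Fin s, (1 : ℝ) := by rw [prod_const_one]
        rw [this]
        apply prod_le_prod (fun _ _ => zero_le_one)
        intro i _
        have h5 := hv.1 i
        rw [mem_filter, mem_range] at h5
        exact (hmem i (v i) h5.1 h5.2).2
    _ = (CC * ∏ i, cs i) * ∑ v ∈ (Fintype.piFinset fun i => (range N).filter fun v => Nat.digits (b i) v ∈ (M i).accepts).filter E,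
          ∏ i, p i (v i) := by
        rw [mul_sum]
        apply sum_congr rfl
        intro v _
        rw [prod_mul_distrib, prod_mul_distrib, hCC]
    _ ≤ (CC * ∏ i, cs i) * ∑ v ∈ (Fintype.piFinset Ω).filter E, ∏ i, p i (v i) := by
        apply mul_le_mul_of_nonneg_left _ (mul_nonneg hCC0 hPc)
        apply sum_le_sum_of_subset_of_nonneg
        · intro v hv
          rw [mem_filter, Fintype.mem_piFinset] at hv ⊢
          refine ⟨fun i => ?_, hv.2⟩
          have h5 := hv.1 i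
          rw [mem_filter, mem_range] at h5
          exact (hmem i (v i) h5.1 h5.2).1
        · intro v hv _
          rw [mem_filter, Fintype.mem_piFinset] at hv
          exact prod_nonneg fun i _ => hp0 i _ (hv.1 i)
    _ ≤ (CC * ∏ i, cs i) * (SS' * θ + C1 * ∑ ω ∈ Fintype.piFinset Ω, (∏ i, p i (ω i)) * DD ω) := by
        apply mul_le_mul_of_nonneg_left _ (mul_nonneg hCC0 hPc)
        rw [sum_filter]
        exact hsum
    _ = (∏ i, cs i) * (CC * (SS' * θ + C1 * ∑ ω ∈ Fintype.piFinset Ω, (∏ i, p i (ω i)) * DD ω)) := by ring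
    _ ≤ (∏ i, cs i) * (1 / L ^ U) := mul_le_mul_of_nonneg_left hfin hPc
    _ = _ := by rw [hL, mul_one_div]

end Pool.Agent.W93.AU
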