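import Pool.Agent.W93.AU15

set_option autoImplicit false

/-! Automata: second moments of sums over `n + Y` and over `Y - n`. -/

namespace Pool.Agent.W93.AU
open Finset
open Pool.Agent.H807R2.Dav
open Pool.Agent.H373R2.T7
open Pool.Agent.W93.DG
open Pool.Agent.W93.RD
open Pool.Agent.W93.TD

/-- the difference between the von Mangoldt function and its model -/
noncomputable def dI (z : ℕ) (m : ℤ) : ℝ := lamI m - lamzI z m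

/-- second moments -/
theorem two_law (b F : ℕ) (hb : 2 ≤ b) (hF : 1 ≤ F) (U D : ℕ) : ∃ B0 : ℕ, ∀ Ez : ℕ, ∃ K₀ : ℕ, ∀ K : ℕ, K₀ ≤ K →
    ∀ z : ℕ, Real.log ((b ^ K : ℕ) : ℝ) ^ B0 ≤ z → (z : ℝ) ≤ Real.log ((b ^ K : ℕ) : ℝ) ^ Ez →
    ∀ (ι : Type) (Ω : Finset ι) (p : ι → ℝ) (Y : ι → ℤ), Law b F D (U + 6) K Ω p Y →
    ∀ Kc : ℝ, 0 ≤ Kc → ∀ G : ℕ → ℝ, ∀ N : ℕ, N ≤ b ^ K → (∀ n ∈ Icc 1 N, |G n| ≤ Kc) →
    ((∀ ω ∈ Ω, -((b ^ K : ℕ) : ℤ) < Y ω ∧ (N : ℤ) + Y ω ≤ ((b ^ K : ℕ) : ℤ)) →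
      ∑ ω ∈ Ω, p ω * (∑ n ∈ Icc 1 N, G n * dI z ((n : ℤ) + Y ω)) ^ 2 ≤ (Kc * ((b ^ K : ℕ) : ℝ)) ^ 2 / (K : ℝ) ^ U) ∧
    (∀ Ω' ⊆ Ω, (∀ ω ∈ Ω', 0 < Y ω ∧ Y ω ≤ ((b ^ K : ℕ) : ℤ)) →
      ∑ ω ∈ Ω', p ω * (∑ n ∈ Icc 1 N, G n * dI z (Y ω - (n : ℤ))) ^ 2 ≤ (Kc * ((b ^ K : ℕ) : ℝ)) ^ 2 / (K : ℝ) ^ U) := by
  classical
  obtain ⟨B, hB⟩ := gl_var b F hb hF U D
  refine ⟨B, fun Ez => ?_⟩
  obtain ⟨k₀, h0⟩ := hB Ez
  refine ⟨k₀ + 1, fun K hk z hz1 hz2 ι Ω p Y hlaw Kc hK G N hNX hG => ?_⟩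
  obtain ⟨f, hf⟩ : ∃ f : ℕ → ℝ, f = fun n => if n ≤ N then G n else 0 := ⟨_, rfl⟩
  have hf0 : ∀ n, N < n → f n = 0 := by
    intro n hn
    rw [hf]
    simp only
    rw [if_neg (by omega)]
  have hf1 : ∀ n, n ≤ N → f n = G n := by
    intro n hn
    rw [hf]
    simp only
    rw [if_pos hn]
  have hfb : ∀ n ∈ Icc 1 (b ^ K), |f n| ≤ Kc := by
    intro n hn
    rcases Nat.lt_or_ge N n with h | h
    · rw [hf0 n h, abs_zero]; exact hK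
    · rw [hf1 n h]; exact hG n (mem_Icc.2 ⟨(mem_Icc.1 hn).1, h⟩)
  have hbn : 0 < b := by omega
  have hX1 : 1 ≤ b ^ K := Nat.pow_pos hbn
  have hM0 : (0 : ℝ) < ((b ^ (K + 1) : ℕ) : ℝ) := by exact_mod_cast Nat.pow_pos hbn
  have hX0 : (0 : ℝ) < ((b ^ K : ℕ) : ℝ) := by exact_mod_cast hX1
  have hk0 : (0 : ℝ) < K := by exact_mod_cast (by omega : 0 < K)
  have hMX : 2 * b ^ K ≤ b ^ (K + 1) := by
    rw [pow_succ, mul_comm]
    exact Nat.mul_le_mul_left _ hb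
  have hfin : ∀ (A : ℕ → ℂ) (T : ι → ℝ), (∀ r, ‖A r‖ = ‖FF f (b ^ K) (b ^ (K + 1)) r‖ *
        ‖FF (fun n => ArithmeticFunction.vonMangoldt n - lamz z n) (b ^ K) (b ^ (K + 1)) r‖) → ∀ Ω' ⊆ Ω,
      (∀ ω ∈ Ω', EE A (b ^ (K + 1)) (Y ω) = ((((b ^ (K + 1) : ℕ) : ℝ) * T ω : ℝ) : ℂ)) →
      ∑ ω ∈ Ω', p ω * T ω ^ 2 ≤ (Kc * ((b ^ K : ℕ) : ℝ)) ^ 2 / (K : ℝ) ^ U := by
    intro A T hA Ω' hsub hT
    have h1 := h0 K (by omega) z hz1 hz2 ι Ω p Y hlaw f Kc hK hfb A hA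
    have h1' := (sum_le_sum_of_subset_of_nonneg hsub (f := fun ω => p ω * ‖EE A (b ^ (K + 1)) (Y ω)‖ ^ 2)
      (fun ω hω _ => mul_nonneg (hlaw.nonneg ω hω) (sq_nonneg _))).trans h1
    have h2 : ∀ ω ∈ Ω', p ω * ‖EE A (b ^ (K + 1)) (Y ω)‖ ^ 2 = ((b ^ (K + 1) : ℕ) : ℝ) ^ 2 * (p ω * T ω ^ 2) := by
      intro ω hω
      rw [hT ω hω, Complex.norm_real, Real.norm_eq_abs, sq_abs]
      ring
    rw [sum_congr rfl h2, ← mul_sum] at h1'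
    have h6 : ((b ^ (K + 1) : ℕ) : ℝ) ^ 2 * ∑ ω ∈ Ω', p ω * T ω ^ 2 ≤
        ((b ^ (K + 1) : ℕ) : ℝ) ^ 2 * ((Kc * ((b ^ K : ℕ) : ℝ)) ^ 2 / (K : ℝ) ^ U) := by
      refine h1'.trans (le_of_eq ?_)
      ring
    exact le_of_mul_le_mul_left h6 (by positivity)
  have hg : ∀ m : ℤ, (if 1 ≤ m then (fun n => ArithmeticFunction.vonMangoldt n - lamz z n) m.toNat else 0) = dI z m := by
    intro m
    unfold dI lamI lamzI
    split_ifs <;> simp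
  constructor
  · intro hY
    refine hfin (fun r => (starRingEnd ℂ) (FF f (b ^ K) (b ^ (K + 1)) r) *
        FF (fun n => ArithmeticFunction.vonMangoldt n - lamz z n) (b ^ K) (b ^ (K + 1)) r)
        (fun ω => ∑ n ∈ Icc 1 N, G n * dI z ((n : ℤ) + Y ω)) (by
      intro r
      rw [norm_mul, RCLike.norm_conj]) Ω (Finset.Subset.refl _) ?_
    intro ω hω
    rw [EE_corr f (fun n => ArithmeticFunction.vonMangoldt n - lamz z n) (b ^ K) (b ^ (K + 1)) N hX1 hMX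
      hNX hf0 (Y ω) (hY ω hω).1 (hY ω hω).2]
    congr 2
    apply sum_congr rfl
    intro n hn
    rw [mem_Icc] at hn
    rw [hf1 n hn.2, hg]
  · intro Ω' hsub hY
    refine hfin (fun r => FF f (b ^ K) (b ^ (K + 1)) r *
        FF (fun n => ArithmeticFunction.vonMangoldt n - lamz z n) (b ^ K) (b ^ (K + 1)) r)
        (fun ω => ∑ n ∈ Icc 1 N, G n * dI z (Y ω - (n : ℤ))) (by
      intro r
      rw [norm_mul]) Ω' hsub ?_
    intro ω hω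
    rw [EE_conv f (fun n => ArithmeticFunction.vonMangoldt n - lamz z n) (b ^ K) (b ^ (K + 1)) hX1 hMX (Y ω) (hY ω hω).1 (hY ω hω).2]
    congr 2
    rw [← sum_subset (Icc_subset_Icc_right hNX) (by
      intro n _ hn
      have : N < n ∨ n < 1 := by
        rw [mem_Icc] at hn
        omega
      rcases this with h | h
      · rw [hf0 n h, zero_mul]
      · exact absurd ‹n ∈ Icc 1 (b ^ K)› (by rw [mem_Icc]; omega))]
    apply sum_congr rfl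
    intro n hn
    rw [mem_Icc] at hn
    rw [hf1 n hn.2, hg]

/-- the union bound over a grid -/
theorem grid_prob {ι : Type} (Ω : Finset ι) (p : ι → ℝ) (hp0 : ∀ ω ∈ Ω, 0 ≤ p ω) (φ : ℕ → ι → ℝ) (Q H : ℕ) (hH : 1 ≤ H)
    (E0 V τ : ℝ) (hτ : 0 < τ) (hE0 : 0 ≤ E0) (hφ : ∀ n ∈ Icc 1 Q, ∀ ω ∈ Ω, |φ n ω| ≤ E0)
    (hmom : ∀ N, N ≤ Q → ∑ ω ∈ Ω, p ω * (∑ n ∈ Icc 1 N, φ n ω) ^ 2 ≤ V)
    (E : ι → Prop) [DecidablePred E] (hE : ∀ ω ∈ Ω, E ω → ∃ N ≤ Q, τ + E0 * H ≤ |∑ n ∈ Icc 1 N, φ n ω|) :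
    ∑ ω ∈ Ω, (if E ω then p ω else 0) ≤ ((Q / H + 1 : ℕ) : ℝ) * (V / τ ^ 2) := by
  have hpt : ∀ ω ∈ Ω, (if E ω then p ω else 0) ≤ ∑ j ∈ range (Q / H + 1), (p ω * (∑ n ∈ Icc 1 (j * H), φ n ω) ^ 2) * (1 / τ ^ 2) := by
    intro ω hω
    have t1 : ∀ j ∈ range (Q / H + 1), 0 ≤ (p ω * (∑ n ∈ Icc 1 (j * H), φ n ω) ^ 2) * (1 / τ ^ 2) := fun j _ =>
      mul_nonneg (mul_nonneg (hp0 ω hω) (sq_nonneg _)) (by positivity)
    by_cases h : E ω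
    swap
    · rw [if_neg h]; exact sum_nonneg t1
    rw [if_pos h]
    obtain ⟨N, hN, h1⟩ := hE ω hω h
    have h2 : N / H * H ≤ N := Nat.div_mul_le_self _ _
    have h3 : |∑ n ∈ Icc 1 N, φ n ω| ≤ |∑ n ∈ Icc 1 (N / H * H), φ n ω| + E0 * H := by
      have e1 : ∑ n ∈ Icc 1 N, φ n ω = ∑ n ∈ Icc 1 (N / H * H), φ n ω + ∑ n ∈ Icc (N / H * H + 1) N, φ n ω := by
        have e2 : Icc 1 N = Icc 1 (N / H * H) ∪ Icc (N / H * H + 1) N := by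
          ext n
          simp only [mem_union, mem_Icc]
          omega
        rw [e2, sum_union]
        rw [Finset.disjoint_left]
        intro n h1 h2
        rw [mem_Icc] at h1 h2
        omega
      rw [e1]
      refine (abs_add_le _ _).trans (add_le_add le_rfl ?_)
      refine (abs_sum_le_sum_abs _ _).trans ?_
      refine (sum_le_sum fun n hn => hφ n (by rw [mem_Icc] at hn ⊢; omega) ω hω).trans ?_
      rw [sum_const, nsmul_eq_mul, Nat.card_Icc, mul_comm]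
      apply mul_le_mul_of_nonneg_left _ hE0
      have h4 : N < N / H * H + H := by
        have := Nat.lt_div_mul_add (a := N) (b := H) (by omega)
        exact this
      exact_mod_cast (by omega : N + 1 - (N / H * H + 1) ≤ H)
    have h4 : τ ≤ |∑ n ∈ Icc 1 (N / H * H), φ n ω| := by linarith
    have h5 : τ ^ 2 ≤ (∑ n ∈ Icc 1 (N / H * H), φ n ω) ^ 2 := by
      rw [← sq_abs (∑ n ∈ Icc 1 (N / H * H), φ n ω)]
      exact pow_le_pow_left₀ hτ.le h4 2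
    have h6 := single_le_sum t1 (mem_range.2 (Nat.lt_succ_of_le (Nat.div_le_div_right (c := H) hN)))
    refine le_trans ?_ h6
    rw [mul_one_div, le_div_iff₀ (by positivity)]
    exact mul_le_mul_of_nonneg_left h5 (hp0 ω hω)
  refine (sum_le_sum hpt).trans ?_
  rw [sum_comm]
  have h7 : ∀ j ∈ range (Q / H + 1), ∑ ω ∈ Ω, (p ω * (∑ n ∈ Icc 1 (j * H), φ n ω) ^ 2) * (1 / τ ^ 2) ≤ V / τ ^ 2 := by
    intro j hj
    rw [← sum_mul, mul_one_div]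
    apply div_le_div_of_nonneg_right _ (by positivity)
    apply hmom
    have : j ≤ Q / H := by rw [mem_range] at hj; omega
    exact (Nat.mul_le_mul_right _ this).trans (Nat.div_mul_le_self _ _)
  refine (sum_le_sum h7).trans (le_of_eq ?_)
  rw [sum_const, card_range, nsmul_eq_mul]

end Pool.Agent.W93.AU
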