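import Pool.Agent.W93.AU6
import Pool.Agent.W93.AU1

set_option autoImplicit false

/-! Automata: the characteristic function at frequencies with many digits. -/

namespace Pool.Agent.W93.AU
open Finset
open Pool.Agent.H807R2.Dav
open Pool.Agent.W93.RD
open Pool.Agent.W93.DG

variable {σ : Type}

open Classical in
lemma gc_eq (B : ℕ) (g : ℝ → Prop) (κ₀ m : ℕ) : ∀ θ,
    gc B g κ₀ m θ = ∑ j ∈ range m, if κ₀ + j + 1 ≤ m ∧ g ((B : ℝ) ^ j * θ) then 1 else 0 := by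
  induction m with
  | zero => intro θ; unfold gc; simp
  | succ m ih =>
    intro θ
    rw [gc_succ, ih, sum_range_succ', add_comm]
    congr 1
    · apply sum_congr rfl
      intro j _
      have e1 : (B : ℝ) ^ j * (B * θ) = (B : ℝ) ^ (j + 1) * θ := by rw [pow_succ]; ring
      rw [e1]
      have e2 : (κ₀ + j + 1 ≤ m ∧ g ((B : ℝ) ^ (j + 1) * θ)) ↔ (κ₀ + (j + 1) + 1 ≤ m + 1 ∧ g ((B : ℝ) ^ (j + 1) * θ)) := by
        constructor
        · rintro ⟨h1, h2⟩; exact ⟨by omega, h2⟩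
        · rintro ⟨h1, h2⟩; exact ⟨by omega, h2⟩
      by_cases h : κ₀ + j + 1 ≤ m ∧ g ((B : ℝ) ^ (j + 1) * θ)
      · rw [if_pos h, if_pos (e2.1 h)]
      · rw [if_neg h, if_neg (fun h' => h (e2.2 h'))]
    · rw [pow_zero, one_mul]
      have e2 : (κ₀ ≤ m ∧ g θ) ↔ (κ₀ + 0 + 1 ≤ m + 1 ∧ g θ) := by
        constructor
        · rintro ⟨h1, h2⟩; exact ⟨by omega, h2⟩
        · rintro ⟨h1, h2⟩; exact ⟨by omega, h2⟩
      by_cases h : κ₀ ≤ m ∧ g θ
      · rw [if_pos h, if_pos (e2.1 h)]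
      · rw [if_neg h, if_neg (fun h' => h (e2.2 h'))]

/-- the frequency is far from the integers for all the differences of two digits -/
def Gd (B : ℕ) (c : ℝ) (θ : ℝ) : Prop := ∀ u v : ℕ, u < v → v < B → ‖ee (u * θ) + ee (v * θ)‖ ≤ 2 - c

lemma gd_dist (B : ℕ) (δ θ : ℝ) (hδ : 0 ≤ δ) (h : ∀ d : ℕ, 0 < d → d < B → ∀ n : ℤ, δ ≤ |(d : ℝ) * θ - n|) :
    Gd B (4 * δ ^ 2) θ := by
  intro u v huv hv
  have h1 : ee (u * θ) + ee (v * θ) = ee (u * θ) * (1 + ee (((v - u : ℕ) : ℝ) * θ)) := by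
    rw [mul_add, mul_one, ← ee_add, Nat.cast_sub huv.le]
    congr 2
    ring
  rw [h1, norm_mul, norm_ee, one_mul]
  exact cos_dist _ δ hδ (h (v - u) (by omega) (by omega))

lemma gd_of (B : ℕ) (κκ : ℤ) (t i j K : ℕ) (hB : 2 ≤ B) (hj : i + 2 + j = K + 1)
    (h : ¬ Ext B i ((B.factorial * κκ.natAbs * t) % B ^ (K + 1))) :
    Gd B (4 * (1 / ((B : ℝ) ^ 2 * (B.factorial : ℝ))) ^ 2) ((B : ℝ) ^ j * ((κκ : ℝ) * ((t : ℝ) / ((B ^ (K + 1) : ℕ) : ℝ)))) := by
  have hB0 : (0 : ℝ) < B := by exact_mod_cast (by omega : 0 < B)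
  have hF0 : (0 : ℝ) < (B.factorial : ℝ) := by exact_mod_cast B.factorial_pos
  obtain ⟨T, hT⟩ : ∃ T, T = B.factorial * κκ.natAbs * t := ⟨_, rfl⟩
  rw [← hT] at h
  -- the distance of the large frequency
  have hx : ∀ n : ℤ, 1 / (B : ℝ) ^ 2 ≤ |(T : ℝ) / (B : ℝ) ^ (i + 2) - n| := by
    intro n
    obtain ⟨w, hw⟩ : ∃ w, w = T / B ^ (K + 1) := ⟨_, rfl⟩
    obtain ⟨x, hx⟩ : ∃ x, x = T % B ^ (K + 1) := ⟨_, rfl⟩
    have e1 := ext_dist B i (T % B ^ (K + 1)) hB h (n - (B : ℤ) ^ j * w)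
    have e2 : (T : ℝ) = x + (B : ℝ) ^ (K + 1) * w := by
      rw [hw, hx]
      exact_mod_cast (Nat.mod_add_div T (B ^ (K + 1))).symm
    rw [← hx] at e1
    have e3 : (T : ℝ) / (B : ℝ) ^ (i + 2) - n = (x : ℝ) / (B : ℝ) ^ (i + 2) - ((n - (B : ℤ) ^ j * w : ℤ) : ℝ) := by
      rw [e2, ← hj, pow_add (B : ℝ) (i + 2) j]
      push_cast
      have : (B : ℝ) ^ (i + 2) ≠ 0 := by positivity
      field_simp
      ring
    rw [e3]
    exact e1
  apply gd_dist B _ _ (by positivity)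
  intro d hd0 hdB n
  obtain ⟨e, he⟩ : d ∣ B.factorial := Nat.dvd_factorial hd0 hdB.le
  have he0 : 0 < e := by
    rcases Nat.eq_zero_or_pos e with h0 | h0
    · rw [h0, mul_zero] at he
      exact absurd he B.factorial_ne_zero
    · exact h0
  have heB : e ≤ B.factorial := by rw [he]; exact Nat.le_mul_of_pos_left e hd0
  have her : (0 : ℝ) < e := by exact_mod_cast he0
  obtain ⟨θ, hθ⟩ : ∃ θ, θ = (d : ℝ) * ((B : ℝ) ^ j * ((κκ : ℝ) * ((t : ℝ) / ((B ^ (K + 1) : ℕ) : ℝ)))) := ⟨_, rfl⟩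
  rw [← hθ]
  have hmain : ∃ n' : ℤ, |(e : ℝ) * (θ - n)| = |(T : ℝ) / (B : ℝ) ^ (i + 2) - n'| := by
    have hBi : (B : ℝ) ^ (i + 2) ≠ 0 := by positivity
    have e1 : (B.factorial : ℝ) = d * e := by exact_mod_cast he
    have e2 : (e : ℝ) * θ = (B.factorial : ℝ) * κκ * t / (B : ℝ) ^ (i + 2) := by
      rw [hθ, e1, ← hj]
      push_cast
      rw [pow_add (B : ℝ) (i + 2) j]
      have : (B : ℝ) ^ j ≠ 0 := by positivity
      field_simp
    obtain ⟨na, hna⟩ : ∃ na, na = κκ.natAbs := ⟨_, rfl⟩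
    have hs := Int.natAbs_eq κκ
    rw [← hna] at hs hT
    rcases hs with hs | hs
    · refine ⟨e * n, ?_⟩
      have e3 : (T : ℝ) = (B.factorial : ℝ) * κκ * t := by
        rw [hT, hs]
        push_cast
        rfl
      rw [mul_sub, e2, e3]
      push_cast
      rfl
    · refine ⟨-(e * n), ?_⟩
      have e3 : (T : ℝ) = - ((B.factorial : ℝ) * κκ * t) := by
        rw [hT, hs]
        push_cast
        ring
      rw [mul_sub, e2, e3, ← abs_neg]
      congr 1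
      push_cast
      ring
  obtain ⟨n', hn'⟩ := hmain
  have h2 := hx n'
  rw [← hn', abs_mul, abs_of_pos her] at h2
  have h3 : 1 / ((B : ℝ) ^ 2 * (B.factorial : ℝ)) ≤ (1 / (B : ℝ) ^ 2) / e := by
    rw [div_div]
    apply one_div_le_one_div_of_le (by positivity)
    apply mul_le_mul_of_nonneg_left _ (by positivity)
    exact_mod_cast heB
  refine h3.trans ?_
  rw [div_le_iff₀ her]
  linarith

lemma gc_ge (B : ℕ) (κκ : ℤ) (t K m e κ₀ : ℕ) (hB : 2 ≤ B) (hK : K = m + e) :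
    ne B 0 K ((B.factorial * κκ.natAbs * t) % B ^ (K + 1)) ≤
      gc B (Gd B (4 * (1 / ((B : ℝ) ^ 2 * (B.factorial : ℝ))) ^ 2)) κ₀ m ((κκ : ℝ) * ((t : ℝ) / ((B ^ (K + 1) : ℕ) : ℝ))) + (e + κ₀) := by
  classical
  rw [gc_eq]
  obtain ⟨T, hT⟩ : ∃ T, T = (B.factorial * κκ.natAbs * t) % B ^ (K + 1) := ⟨_, rfl⟩
  have h1 : ne B 0 K T = ∑ i ∈ range K, if ¬ Ext B i T then 1 else 0 := by
    unfold ne
    rw [zero_add, ← range_eq_Ico, card_filter]
  rw [← hT, h1, ← sum_range_reflect]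
  have h2 : ∀ j ∈ range K, (if ¬ Ext B (K - 1 - j) T then 1 else 0) ≤
      (if j < m then (if κ₀ + j + 1 ≤ m ∧ Gd B (4 * (1 / ((B : ℝ) ^ 2 * (B.factorial : ℝ))) ^ 2) ((B : ℝ) ^ j * ((κκ : ℝ) * ((t : ℝ) / ((B ^ (K + 1) : ℕ) : ℝ)))) then 1 else 0) else 0) +
      (if m ≤ κ₀ + j then 1 else 0) := by
    intro j hj
    rw [mem_range] at hj
    by_cases h : ¬ Ext B (K - 1 - j) T
    · rw [if_pos h]
      by_cases hm : m ≤ κ₀ + j
      · rw [if_pos hm]; omega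
      · have hg := gd_of B κκ t (K - 1 - j) j K hB (by omega) (by rw [← hT]; exact h)
        rw [if_pos (by omega : j < m), if_pos ⟨by omega, hg⟩]
        omega
    · rw [if_neg h]; omega
  refine (sum_le_sum h2).trans ?_
  rw [sum_add_distrib]
  apply Nat.add_le_add
  · rw [← sum_filter]
    have h4 : (range K).filter (fun j => j < m) = range m := by
      ext j
      rw [mem_filter, mem_range, mem_range]
      omega
    rw [h4]
  · rw [← card_filter]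
    have h3 : (range K).filter (fun j => m ≤ κ₀ + j) ⊆ Ico (m - κ₀) K := by
      intro j hj
      rw [mem_filter, mem_range] at hj
      rw [mem_Ico]
      omega
    refine (card_le_card h3).trans ?_
    rw [Nat.card_Ico]
    omega

end Pool.Agent.W93.AU
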