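import Pool.Agent.W93.AU7
import Pool.Agent.W93.AU2

set_option autoImplicit false

/-! Automata: the law of the accepted integers. -/

namespace Pool.Agent.W93.AU
open Finset
open Pool.Agent.H807R2.Dav
open Pool.Agent.W93.RD
open Pool.Agent.W93.DG

variable {σ : Type}

/-- the growth of an automaton -/
structure Gro (B : ℕ) (δ : σ → ℕ → σ) (F : σ → Prop) (s0 : σ) (Rich : σ → Prop) (κ : ℕ) (C ρ : ℝ) (k : ℕ) : Prop where
  C1 : 1 ≤ C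
  rho1 : 1 ≤ ρ
  step : ∀ m, κ ≤ m → ∀ s, Ac B δ F (m + 1) s ≤ C * Ac B δ F m s
  zc : ∀ m : ℕ, Zc B δ F Rich ρ m s0 ≤ C * ((m : ℝ) + 1) ^ k * ρ ^ m
  low : ∀ m, κ ≤ m → ρ ^ m ≤ C * Ac B δ F m s0
  interval : ∀ l, κ ≤ l → ∀ n j, ∀ f : ℕ → ℝ, (∀ w, f w ≤ 1) → (∀ w, ¬ F (run B δ n (run B δ l s0 w) j) → f w ≤ 0) →
        ∑ w ∈ range (B ^ l), f w ≤ C * Ac B δ F l s0

lemma poly_le (C : ℝ) (hC : 0 ≤ C) (k : ℕ) : ∃ K₀ : ℕ, ∀ K : ℕ, K₀ ≤ K → 1 + C * ((K : ℝ) + 1) ^ k ≤ (K : ℝ) ^ (k + 1) := by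
  obtain ⟨N, hN⟩ := exists_nat_ge (1 + C * 2 ^ k)
  refine ⟨N + 1, fun K hK => ?_⟩
  have h1 : (1 : ℝ) ≤ K := by exact_mod_cast (by omega : 1 ≤ K)
  have h2 : 1 + C * 2 ^ k ≤ K := hN.trans (by exact_mod_cast (by omega : N ≤ K))
  have h3 : ((K : ℝ) + 1) ^ k ≤ 2 ^ k * (K : ℝ) ^ k := by
    rw [← mul_pow]
    exact pow_le_pow_left₀ (by positivity) (by linarith) k
  have h4 : (1 : ℝ) ≤ (K : ℝ) ^ k := one_le_pow₀ h1
  calc 1 + C * ((K : ℝ) + 1) ^ k ≤ (K : ℝ) ^ k + C * (2 ^ k * (K : ℝ) ^ k) := add_le_add h4 (mul_le_mul_of_nonneg_left h3 hC)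
    _ = (1 + C * 2 ^ k) * (K : ℝ) ^ k := by ring
    _ ≤ K * (K : ℝ) ^ k := mul_le_mul_of_nonneg_right h2 (by positivity)
    _ = _ := by rw [pow_succ]; ring

/-- powers of a number below one -/
lemma pow_log_le (B : ℕ) (hB : 2 ≤ B) (l : ℝ) (hl0 : 0 ≤ l) (V D : ℕ) (h : l ^ D ≤ (1 / (B : ℝ)) ^ V) (K : ℕ) (hK : 1 ≤ K) :
    l ^ (D * (Nat.log B K + 1)) ≤ 1 / (K : ℝ) ^ V := by
  have hB0 : (0 : ℝ) < B := by exact_mod_cast (by omega : 0 < B)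
  have hK0 : (0 : ℝ) < K := by exact_mod_cast hK
  have h1 : (K : ℝ) ≤ (B : ℝ) ^ (Nat.log B K + 1) := by
    exact_mod_cast (Nat.lt_pow_succ_log_self (by omega) K).le
  rw [pow_mul]
  calc (l ^ D) ^ (Nat.log B K + 1) ≤ ((1 / (B : ℝ)) ^ V) ^ (Nat.log B K + 1) := pow_le_pow_left₀ (by positivity) h _
    _ = 1 / ((B : ℝ) ^ (Nat.log B K + 1)) ^ V := by
        rw [one_div, inv_pow, inv_pow, one_div, ← pow_mul, ← pow_mul, mul_comm V]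
    _ ≤ _ := one_div_le_one_div_of_le (by positivity) (pow_le_pow_left₀ hK0.le h1 V)

lemma char_bound (B : ℕ) (hB : 2 ≤ B) (δ : σ → ℕ → σ) (F : σ → Prop) (s0 : σ) (Rich : σ → Prop) (κ : ℕ) (C ρ : ℝ) (k : ℕ)
    (hG : Gro B δ F s0 Rich κ C ρ k) (hρ : 1 < ρ) (hR : ∀ s, Rich s → ∃ u v, u < v ∧ v < B ∧ δ s u = s ∧ δ s v = s)
    (κκ : ℤ) (e V : ℕ) : ∃ D K₀ : ℕ, ∀ K : ℕ, K₀ ≤ K → ∀ m, K = m + e → ∀ t,
    D * (Nat.log B K + 1) ≤ ne B 0 K ((B.factorial * κκ.natAbs * t) % B ^ (K + 1)) →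
    ‖Tc B δ F m s0 ((κκ : ℝ) * ((t : ℝ) / ((B ^ (K + 1) : ℕ) : ℝ)))‖ ≤ 1 / (K : ℝ) ^ V * Ac B δ F m s0 := by
  have hB0 : (0 : ℝ) < B := by exact_mod_cast (by omega : 0 < B)
  have hB2 : (2 : ℝ) ≤ B := by exact_mod_cast hB
  have hF1 : (1 : ℝ) ≤ (B.factorial : ℝ) := by exact_mod_cast B.factorial_pos
  have hC1 := hG.C1
  have hC0 : 0 < C := by linarith
  obtain ⟨c, hc⟩ : ∃ c, c = 4 * (1 / ((B : ℝ) ^ 2 * (B.factorial : ℝ))) ^ 2 := ⟨_, rfl⟩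
  have hc0 : 0 < c := by rw [hc]; positivity
  have hc1 : c ≤ 1 / 4 := by
    rw [hc]
    have e1 : (4 : ℝ) ≤ (B : ℝ) ^ 2 * (B.factorial : ℝ) := by nlinarith
    have e2 : 1 / ((B : ℝ) ^ 2 * (B.factorial : ℝ)) ≤ 1 / 4 := one_div_le_one_div_of_le (by norm_num) e1
    have e3 : 0 ≤ 1 / ((B : ℝ) ^ 2 * (B.factorial : ℝ)) := by positivity
    nlinarith
  obtain ⟨q, hq⟩ : ∃ q, q = 1 - c / C := ⟨_, rfl⟩
  have hcC : c / C ≤ 1 / 4 := (div_le_self hc0.le hC1).trans hc1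
  have hcC0 : 0 < c / C := by positivity
  have hq0 : 0 < q := by rw [hq]; linarith
  have hq1 : q < 1 := by rw [hq]; linarith
  obtain ⟨l, hl⟩ : ∃ l, l = max q (1 / ρ) := ⟨_, rfl⟩
  have hρ0 : 0 < ρ := by linarith
  have hl1 : l < 1 := by
    rw [hl]
    apply max_lt hq1
    rw [div_lt_one hρ0]; exact hρ
  have hlq : q ≤ l := by rw [hl]; exact le_max_left _ _
  have hlρ : 1 / ρ ≤ l := by rw [hl]; exact le_max_right _ _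
  have hl0 : 0 < l := lt_of_lt_of_le hq0 hlq
  obtain ⟨D', hD'⟩ := exists_pow_lt_of_lt_one (show 0 < (1 / (B : ℝ)) ^ (V + (k + 1)) by positivity) hl1
  obtain ⟨k1, hk1⟩ := poly_le (C ^ 2) (by positivity) k
  refine ⟨2 * D' + e + κ, k1 + κ + e + 1, fun K hK m hm t ht => ?_⟩
  obtain ⟨θ, hθ⟩ : ∃ θ, θ = (κκ : ℝ) * ((t : ℝ) / ((B ^ (K + 1) : ℕ) : ℝ)) := ⟨_, rfl⟩
  obtain ⟨Lg, hLg⟩ : ∃ Lg, Lg = Nat.log B K + 1 := ⟨_, rfl⟩
  have hLg1 : 1 ≤ Lg := by omega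
  have hgc := gc_ge B κκ t K m e κ hB hm
  rw [← hc, ← hθ] at hgc
  rw [← hLg] at ht
  obtain ⟨r, hr⟩ : ∃ r, r = D' * Lg := ⟨_, rfl⟩
  have hgc2 : 2 * r ≤ gc B (Gd B c) κ m θ := by
    have e1 : (e + κ) * 1 ≤ (e + κ) * Lg := Nat.mul_le_mul_left _ hLg1
    have e2 : (2 * D' + e + κ) * Lg = 2 * (D' * Lg) + (e + κ) * Lg := by ring
    rw [e2] at ht
    rw [hr]
    omega
  have hA0 := Ac_nonneg B δ F m s0
  have h1 := Tc_le B δ F Rich (Gd B c) κ c q hc0.le (by linarith) hq0 hq1.le hR (fun θ h => h) m s0 θ r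
  have h2 := Uc_le B δ F Rich (Gd B c) κ c q C hc0.le (by linarith) hq0 hC0 (by rw [hq]) hR hG.step m s0 θ
  have h3 := Nc_le B δ F Rich (Gd B c) κ ρ hρ.le m s0 θ r
  have hN0 := Nc_nonneg B δ F Rich (Gd B c) κ m s0 θ r
  have h4 : Zc B δ F Rich ρ m s0 ≤ C ^ 2 * ((m : ℝ) + 1) ^ k * Ac B δ F m s0 := by
    refine (hG.zc m).trans ?_
    have e1 := hG.low m (by omega)
    calc C * ((m : ℝ) + 1) ^ k * ρ ^ m ≤ C * ((m : ℝ) + 1) ^ k * (C * Ac B δ F m s0) := mul_le_mul_of_nonneg_left e1 (by positivity)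
      _ = _ := by ring
  have h5 : ρ ^ r * Nc B δ F Rich (Gd B c) κ m s0 θ r ≤ C ^ 2 * ((m : ℝ) + 1) ^ k * Ac B δ F m s0 := by
    have e1 : ρ ^ (2 * r) * Nc B δ F Rich (Gd B c) κ m s0 θ r ≤ ρ ^ r * (C ^ 2 * ((m : ℝ) + 1) ^ k * Ac B δ F m s0) := by
      refine le_trans ?_ (h3.trans (mul_le_mul_of_nonneg_left h4 (by positivity)))
      exact mul_le_mul_of_nonneg_right (pow_le_pow_right₀ hρ.le hgc2) hN0
    rw [two_mul, pow_add, mul_assoc] at e1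
    exact le_of_mul_le_mul_left e1 (by positivity)
  have h6 : Nc B δ F Rich (Gd B c) κ m s0 θ r ≤ l ^ r * (C ^ 2 * ((m : ℝ) + 1) ^ k * Ac B δ F m s0) := by
    have e1 : Nc B δ F Rich (Gd B c) κ m s0 θ r ≤ (1 / ρ) ^ r * (C ^ 2 * ((m : ℝ) + 1) ^ k * Ac B δ F m s0) := by
      rw [one_div, inv_pow, inv_mul_eq_div, le_div_iff₀ (by positivity), mul_comm]
      exact h5
    refine e1.trans (mul_le_mul_of_nonneg_right (pow_le_pow_left₀ (by positivity) hlρ r) (by positivity))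
  have h7 : q ^ r * Uc B δ F Rich (Gd B c) κ c q m s0 θ ≤ l ^ r * Ac B δ F m s0 :=
    mul_le_mul (pow_le_pow_left₀ hq0.le hlq r) h2 (Uc_nonneg B δ F Rich (Gd B c) κ c q (by linarith) hq0 hR m s0 θ) (by positivity)
  have h8 : ‖Tc B δ F m s0 θ‖ ≤ l ^ r * (1 + C ^ 2 * ((m : ℝ) + 1) ^ k) * Ac B δ F m s0 := by
    have : l ^ r * (1 + C ^ 2 * ((m : ℝ) + 1) ^ k) * Ac B δ F m s0 = l ^ r * Ac B δ F m s0 + l ^ r * (C ^ 2 * ((m : ℝ) + 1) ^ k * Ac B δ F m s0) := by ring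
    linarith
  rw [← hθ]
  refine h8.trans (mul_le_mul_of_nonneg_right ?_ hA0)
  have hK1 : 1 ≤ K := by omega
  have hKr : (1 : ℝ) ≤ K := by exact_mod_cast hK1
  have h9 : l ^ r ≤ 1 / (K : ℝ) ^ (V + (k + 1)) := by
    rw [hr, hLg]
    exact pow_log_le B hB l hl0.le _ D' hD'.le K hK1
  have h10 : 1 + C ^ 2 * ((m : ℝ) + 1) ^ k ≤ (K : ℝ) ^ (k + 1) := by
    refine le_trans ?_ (hk1 K (by omega))
    have e1 : (m : ℝ) ≤ K := by exact_mod_cast (by omega : m ≤ K)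
    have e2 : ((m : ℝ) + 1) ^ k ≤ ((K : ℝ) + 1) ^ k := pow_le_pow_left₀ (by positivity) (by linarith) k
    have e3 : C ^ 2 * ((m : ℝ) + 1) ^ k ≤ C ^ 2 * ((K : ℝ) + 1) ^ k := mul_le_mul_of_nonneg_left e2 (by positivity)
    linarith
  calc l ^ r * (1 + C ^ 2 * ((m : ℝ) + 1) ^ k) ≤ 1 / (K : ℝ) ^ (V + (k + 1)) * (K : ℝ) ^ (k + 1) :=
        mul_le_mul h9 h10 (by positivity) (by positivity)
    _ = 1 / (K : ℝ) ^ V := by
        rw [pow_add]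
        field_simp

open Classical in
/-- the law of the accepted integers -/
lemma law_of (B : ℕ) (hB : 2 ≤ B) (δ : σ → ℕ → σ) (F : σ → Prop) (s0 : σ) (κκ : ℤ) (V D K m : ℕ)
    (hpos : 0 < Ac B δ F m s0)
    (h : ∀ t, D * (Nat.log B K + 1) ≤ ne B 0 K ((B.factorial * κκ.natAbs * t) % B ^ (K + 1)) →
    ‖Tc B δ F m s0 ((κκ : ℝ) * ((t : ℝ) / ((B ^ (K + 1) : ℕ) : ℝ)))‖ ≤ 1 / (K : ℝ) ^ V * Ac B δ F m s0) (cc : ℤ) :
    Law B (B.factorial * κκ.natAbs) D V K ((range (B ^ m)).filter fun v => F (run B δ m s0 v)) (fun _ => 1 / Ac B δ F m s0)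
      (fun v => cc + κκ * v) := by
  have hsum : ∑ v ∈ (range (B ^ m)).filter (fun v => F (run B δ m s0 v)), 1 / Ac B δ F m s0 = 1 := by
    rw [sum_const, nsmul_eq_mul]
    have : (((range (B ^ m)).filter (fun v => F (run B δ m s0 v))).card : ℝ) = Ac B δ F m s0 := by
      rw [Ac_eq B (by omega), ← sum_filter, sum_const, nsmul_eq_mul, mul_one]
    rw [this, mul_one_div, div_self hpos.ne']
  refine ⟨fun _ _ => by positivity, hsum.le, fun t ht => ?_⟩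
  obtain ⟨θ0, hθ0⟩ : ∃ θ0, θ0 = (t : ℝ) / ((B ^ (K + 1) : ℕ) : ℝ) := ⟨_, rfl⟩
  have h1 := h t ht
  rw [← hθ0] at h1 ⊢
  have h2 : ∑ v ∈ (range (B ^ m)).filter (fun v => F (run B δ m s0 v)), ((1 / Ac B δ F m s0 : ℝ) : ℂ) * ee (((cc + κκ * v : ℤ) : ℝ) * θ0) =
      ((1 / Ac B δ F m s0 : ℝ) : ℂ) * ee (cc * θ0) * Tc B δ F m s0 (κκ * θ0) := by
    rw [Tc_eq B (by omega), mul_sum, sum_filter]
    apply sum_congr rfl
    intro v _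
    split_ifs
    · rw [mul_assoc, ← ee_add]
      congr 2
      push_cast
      ring
    · rw [mul_zero]
  rw [h2, norm_mul, norm_mul, norm_ee, mul_one, Complex.norm_real, Real.norm_eq_abs, abs_of_pos (by positivity)]
  calc 1 / Ac B δ F m s0 * ‖Tc B δ F m s0 (κκ * θ0)‖ ≤ 1 / Ac B δ F m s0 * (1 / (K : ℝ) ^ V * Ac B δ F m s0) :=
        mul_le_mul_of_nonneg_left h1 (by positivity)
    _ = _ := by field_simp

end Pool.Agent.W93.AU
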