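import Mathlib

/-! Counting distinct subsequences of a binary word: the recursion, the deletion inequality and the
weighted sums that compute the tails of the sum-of-digits measures. -/

namespace W93.CU

open Finset

/-- total count from the counts of the words beginning with a one and with a zero -/
def tot (p : (ℕ → ℕ → ℕ) × (ℕ → ℕ → ℕ)) (i j : ℕ) : ℕ :=
  (if i = 0 ∧ j = 0 then 1 else 0) + p.1 i j + p.2 i j

/-- `(cc w).1 i j` resp. `(cc w).2 i j`: number of distinct subsequences of `w` with `i` ones and
`j` zeros which begin with a one resp. a zero -/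
def cc : List Bool → (ℕ → ℕ → ℕ) × (ℕ → ℕ → ℕ)
  | [] => (fun _ _ => 0, fun _ _ => 0)
  | true :: w => (fun i j => match i with
      | 0 => 0
      | i + 1 => tot (cc w) i j, (cc w).2)
  | false :: w => ((cc w).1, fun i j => match j with
      | 0 => 0
      | j + 1 => tot (cc w) i j)

def c1 (w : List Bool) (i j : ℕ) : ℕ := (cc w).1 i j
def c0 (w : List Bool) (i j : ℕ) : ℕ := (cc w).2 i j
/-- number of distinct subsequences with `i` ones and `j` zeros -/
def N (w : List Bool) (i j : ℕ) : ℕ := (if i = 0 ∧ j = 0 then 1 else 0) + c1 w i j + c0 w i j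

@[simp] lemma c1_nil (i j : ℕ) : c1 [] i j = 0 := rfl
@[simp] lemma c0_nil (i j : ℕ) : c0 [] i j = 0 := rfl
@[simp] lemma c1_true_zero (w : List Bool) (j : ℕ) : c1 (true :: w) 0 j = 0 := rfl
@[simp] lemma c1_true_succ (w : List Bool) (i j : ℕ) : c1 (true :: w) (i+1) j = N w i j := rfl
@[simp] lemma c0_true (w : List Bool) (i j : ℕ) : c0 (true :: w) i j = c0 w i j := rfl
@[simp] lemma c0_false_zero (w : List Bool) (i : ℕ) : c0 (false :: w) i 0 = 0 := rfl
@[simp] lemma c0_false_succ (w : List Bool) (i j : ℕ) : c0 (false :: w) i (j+1) = N w i j := rfl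
@[simp] lemma c1_false (w : List Bool) (i j : ℕ) : c1 (false :: w) i j = c1 w i j := rfl

lemma c1_zero (w : List Bool) (j : ℕ) : c1 w 0 j = 0 := by
  induction w with
  | nil => rfl
  | cons b w ih => cases b <;> simp [ih]

lemma c0_zero (w : List Bool) (i : ℕ) : c0 w i 0 = 0 := by
  induction w with
  | nil => rfl
  | cons b w ih => cases b <;> simp [ih]

/-- deletion of the first letter -/
lemma del_first (w : List Bool) : (∀ i j, c1 w (i+1) j ≤ N w i j) ∧ (∀ i j, c0 w i (j+1) ≤ N w i j) := by
  induction w with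
  | nil => exact ⟨fun i j => by simp, fun i j => by simp⟩
  | cons b w ih =>
    obtain ⟨ih1, ih0⟩ := ih
    have mono1 : ∀ i j, N w i j ≤ N (true :: w) i j := by
      intro i j
      unfold N
      cases i with
      | zero => simp [c1_zero]
      | succ i => simp only [c1_true_succ, c0_true]; have := ih1 i j; omega
    have mono0 : ∀ i j, N w i j ≤ N (false :: w) i j := by
      intro i j
      unfold N
      cases j with
      | zero => simp [c0_zero]
      | succ j => simp only [c0_false_succ, c1_false]; have := ih0 i j; omega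
    cases b with
    | true =>
      refine ⟨fun i j => by simpa using mono1 i j, fun i j => ?_⟩
      simp only [c0_true]
      exact (ih0 i j).trans (mono1 i j)
    | false =>
      refine ⟨fun i j => ?_, fun i j => by simpa using mono0 i j⟩
      simp only [c1_false]
      exact (ih1 i j).trans (mono0 i j)

/-- the deletion inequality, in the refined form that can be proved by induction -/
lemma del_ineq (w : List Bool) :
    (∀ i j, (i+1) * c1 w (i+1) j ≤ (i+1+j) * c1 w i j + c0 w i j + (if i = 0 ∧ j = 0 then 1 else 0)) ∧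
    (∀ i j, (i+1) * c0 w (i+1) j ≤ (i+j) * c0 w i j) := by
  induction w with
  | nil => exact ⟨fun i j => by simp, fun i j => by simp⟩
  | cons b w ih =>
    obtain ⟨ih1, ih0⟩ := ih
    have T : ∀ i j, (i+1) * N w (i+1) j ≤ (i+1+j) * N w i j := by
      intro i j
      have h1 := ih1 i j
      have h0 := ih0 i j
      unfold N
      have e : ¬ (i + 1 = 0 ∧ j = 0) := by omega
      rw [if_neg e]
      by_cases hc : i = 0 ∧ j = 0
      · obtain ⟨rfl, rfl⟩ := hc
        simp only [and_self, if_true] at h1 ⊢
        nlinarith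
      · rw [if_neg hc] at h1 ⊢
        nlinarith
    cases b with
    | true =>
      refine ⟨fun i j => ?_, fun i j => by simpa using ih0 i j⟩
      cases i with
      | zero =>
        simp only [c1_true_succ, c0_true, N, c1_zero]
        simp
        split_ifs <;> omega
      | succ i =>
        simp only [c1_true_succ, c0_true]
        have t := T i j
        have d := (del_first w).1 i j
        have e : ¬ (i + 1 = 0 ∧ j = 0) := by omega
        have hN : N w (i+1) j = c1 w (i+1) j + c0 w (i+1) j := by unfold N; rw [if_neg e]; omega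
        rw [if_neg e]
        have : (i + 1 + 1) * N w (i+1) j = (i+1) * N w (i+1) j + N w (i+1) j := by ring
        rw [this]
        have e2 : (i + 1 + 1 + j) * N w i j = (i+1+j) * N w i j + N w i j := by ring
        rw [e2]
        omega
    | false =>
      refine ⟨fun i j => ?_, fun i j => ?_⟩
      · simp only [c1_false]
        have h1 := ih1 i j
        have : c0 w i j ≤ c0 (false :: w) i j := by
          cases j with
          | zero => simp [c0_zero]
          | succ j => simpa using (del_first w).2 i j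
        omega
      · cases j with
        | zero => simp
        | succ j =>
          simp only [c0_false_succ]
          have := T i j
          have e : i + 1 + j = i + (j + 1) := by ring
          rwa [e] at this

lemma N_del (w : List Bool) (i j : ℕ) : (i+1) * N w (i+1) j ≤ (i+1+j) * N w i j := by
  have h1 := (del_ineq w).1 i j
  have h0 := (del_ineq w).2 i j
  unfold N
  have e : ¬ (i + 1 = 0 ∧ j = 0) := by omega
  rw [if_neg e]
  by_cases hc : i = 0 ∧ j = 0
  · obtain ⟨rfl, rfl⟩ := hc
    simp only [and_self, if_true] at h1 ⊢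
    nlinarith
  · rw [if_neg hc] at h1 ⊢
    nlinarith

/-- balanced subsequences are at most twice as many as those with one one less -/
lemma N_diag (w : List Bool) (k : ℕ) : N w (k+1) (k+1) ≤ 2 * N w k (k+1) := by
  have h := N_del w k (k+1)
  have e : (k + 1 + (k + 1)) * N w k (k+1) = (k+1) * (2 * N w k (k+1)) := by ring
  rw [e] at h
  exact Nat.le_of_mul_le_mul_left h (Nat.succ_pos k)

/-- supports -/
lemma supp (w : List Bool) : (∀ i j, w.length < i → N w i j = 0) ∧ (∀ i j, w.length < j → N w i j = 0) := by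
  have key : (∀ i j, w.length < i → c1 w i j = 0 ∧ c0 w i j = 0) ∧
      (∀ i j, w.length < j → c1 w i j = 0 ∧ c0 w i j = 0) := by
    induction w with
    | nil => exact ⟨fun i j _ => ⟨rfl, rfl⟩, fun i j _ => ⟨rfl, rfl⟩⟩
    | cons b w ih =>
      obtain ⟨ih1, ih2⟩ := ih
      have l : (b :: w).length = w.length + 1 := rfl
      cases b with
      | true =>
        refine ⟨fun i j h => ?_, fun i j h => ?_⟩
        · rw [l] at h
          obtain ⟨i, rfl⟩ : ∃ i', i = i' + 1 := ⟨i - 1, by omega⟩
          have a := ih1 i j (by omega)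
          have b := ih1 (i+1) j (by omega)
          have e : ¬ (i = 0 ∧ j = 0) := by omega
          simp only [c1_true_succ, c0_true, N, if_neg e]
          omega
        · rw [l] at h
          have b := ih2 i j (by omega)
          refine ⟨?_, by simpa using b.2⟩
          cases i with
          | zero => rfl
          | succ i =>
            have a := ih2 i j (by omega)
            have e : ¬ (i = 0 ∧ j = 0) := by omega
            simp only [c1_true_succ, N, if_neg e]
            omega
      | false =>
        refine ⟨fun i j h => ?_, fun i j h => ?_⟩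
        · rw [l] at h
          have b := ih1 i j (by omega)
          refine ⟨by simpa using b.1, ?_⟩
          cases j with
          | zero => rfl
          | succ j =>
            have a := ih1 i j (by omega)
            have e : ¬ (i = 0 ∧ j = 0) := by omega
            simp only [c0_false_succ, N, if_neg e]
            omega
        · rw [l] at h
          obtain ⟨j, rfl⟩ : ∃ j', j = j' + 1 := ⟨j - 1, by omega⟩
          have a := ih2 i j (by omega)
          have b := ih2 i (j+1) (by omega)
          have e : ¬ (i = 0 ∧ j = 0) := by omega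
          simp only [c0_false_succ, c1_false, N, if_neg e]
          omega
  refine ⟨fun i j h => ?_, fun i j h => ?_⟩
  · have a := key.1 i j h
    have e : ¬ (i = 0 ∧ j = 0) := by omega
    simp only [N, if_neg e]
    omega
  · have a := key.2 i j h
    have e : ¬ (i = 0 ∧ j = 0) := by omega
    simp only [N, if_neg e]
    omega

/-- weight of a word with `i` ones and `j` zeros on the line `i - j = k` -/
noncomputable def wt (k : ℤ) (i j : ℕ) : ℝ := if (i:ℤ) - j = k then (1/2:ℝ)^(i+j) else 0

lemma wt_left (k : ℤ) (i j : ℕ) : wt k (i+1) j = wt (k-1) i j / 2 := by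
  unfold wt
  by_cases h : (i:ℤ) - j = k - 1
  · rw [if_pos h, if_pos (by push_cast; omega)]
    rw [show i + 1 + j = (i + j) + 1 by ring, pow_succ]; ring
  · rw [if_neg h, if_neg (by push_cast; omega)]; simp

lemma wt_right (k : ℤ) (i j : ℕ) : wt k i (j+1) = wt (k+1) i j / 2 := by
  unfold wt
  by_cases h : (i:ℤ) - j = k + 1
  · rw [if_pos h, if_pos (by push_cast; omega)]
    rw [show i + (j + 1) = (i + j) + 1 by ring, pow_succ]; ring
  · rw [if_neg h, if_neg (by push_cast; omega)]; simp

/-- weighted sum of an array -/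
noncomputable def G (L : ℕ) (f : ℕ → ℕ → ℕ) (k : ℤ) : ℝ :=
  ∑ i ∈ range L, ∑ j ∈ range L, wt k i j * (f i j : ℝ)

lemma G_shift_left (L : ℕ) (f g : ℕ → ℕ → ℕ) (h0 : ∀ j, f 0 j = 0) (hs : ∀ i j, f (i+1) j = g i j)
    (hL : ∀ j, g L j = 0) (k : ℤ) : G (L+1) f k = G (L+1) g (k-1) / 2 := by
  unfold G
  rw [Finset.sum_range_succ' (fun i => ∑ j ∈ range (L+1), wt k i j * (f i j:ℝ)) L,
    Finset.sum_range_succ (fun i => ∑ j ∈ range (L+1), wt (k-1) i j * (g i j:ℝ)) L]
  simp only [h0, hL, hs]
  simp only [Nat.cast_zero, mul_zero, Finset.sum_const_zero, add_zero]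
  rw [Finset.sum_div]
  refine Finset.sum_congr rfl fun i _ => ?_
  rw [Finset.sum_div]
  refine Finset.sum_congr rfl fun j _ => ?_
  rw [wt_left]; ring

lemma G_shift_right (L : ℕ) (f g : ℕ → ℕ → ℕ) (h0 : ∀ i, f i 0 = 0) (hs : ∀ i j, f i (j+1) = g i j)
    (hL : ∀ i, g i L = 0) (k : ℤ) : G (L+1) f k = G (L+1) g (k+1) / 2 := by
  unfold G
  rw [Finset.sum_div]
  refine Finset.sum_congr rfl fun i _ => ?_
  rw [Finset.sum_range_succ' (fun j => wt k i j * (f i j:ℝ)) L,
    Finset.sum_range_succ (fun j => wt (k+1) i j * (g i j:ℝ)) L]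
  simp only [h0, hL, hs]
  simp only [Nat.cast_zero, mul_zero, add_zero]
  rw [Finset.sum_div]
  refine Finset.sum_congr rfl fun j _ => ?_
  rw [wt_right]; ring

lemma G_N (L : ℕ) (w : List Bool) (k : ℤ) :
    G (L+1) (N w) k = (if k = 0 then 1 else 0) + G (L+1) (c1 w) k + G (L+1) (c0 w) k := by
  unfold G N
  push_cast
  simp only [mul_add, Finset.sum_add_distrib]
  congr 2
  rw [Finset.sum_eq_single 0]
  · rw [Finset.sum_eq_single 0]
    · simp [wt, eq_comm]
    · intro j _ hj
      rw [if_neg (by simp [hj])]; simp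
    · intro h; simp at h
  · intro i _ hi
    refine Finset.sum_eq_zero fun j _ => ?_
    rw [if_neg (by simp [hi])]; simp
  · intro h; simp at h

/-- tails of the two measures attached to a word: state after heads and state after tails,
for arbitrary tails `α`, `β` at the end of the word -/
noncomputable def tl (α β : ℤ → ℝ) : List Bool → (ℤ → ℝ) × (ℤ → ℝ)
  | [] => (α, β)
  | true :: w => (fun k => (tl α β w).1 (k-1) / 2 + (tl α β w).2 (k+1) / 2, (tl α β w).2)
  | false :: w => ((tl α β w).1, fun k => (tl α β w).1 (k-1) / 2 + (tl α β w).2 (k+1) / 2)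

/-- tail of the point mass at zero -/
noncomputable def one0 (k : ℤ) : ℝ := if k ≤ 0 then 1 else 0

theorem tl_formula (L : ℕ) (w : List Bool) (hw : w.length ≤ L) (k : ℤ) :
    (tl one0 one0 w).1 k = one0 k + G (L+1) (c1 w) k - G (L+1) (c1 w) (k+1) ∧
    (tl one0 one0 w).2 k = one0 k + G (L+1) (c0 w) (k-2) - G (L+1) (c0 w) (k-1) := by
  induction w generalizing k with
  | nil =>
    have z : ∀ k, G (L+1) (fun _ _ => 0) k = 0 := by intro k; simp [G]
    have e1 : c1 [] = fun _ _ => 0 := rfl
    have e0 : c0 [] = fun _ _ => 0 := rfl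
    rw [e1, e0]
    simp [tl, z]
  | cons b w ih =>
    have hw' : w.length ≤ L := by simp at hw; omega
    have hw2 : w.length < L := by simp at hw; omega
    have ihh := fun k => ih hw' k
    have half : ∀ k : ℤ, one0 (k-1) / 2 + one0 (k+1) / 2 =
        one0 k + ((if k - 1 = 0 then (1:ℝ) else 0) - (if k = 0 then 1 else 0)) / 2 := by
      intro k
      unfold one0
      rcases lt_trichotomy k 0 with h | h | h
      · rw [if_pos (by omega), if_pos (by omega), if_pos (by omega), if_neg (by omega), if_neg (by omega)]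
        ring
      · subst h; norm_num
      · rcases eq_or_ne k 1 with h1 | h1
        · subst h1; norm_num
        · rw [if_neg (by omega), if_neg (by omega), if_neg (by omega), if_neg (by omega),
            if_neg (by omega)]
          ring
    have main : ∀ k : ℤ, (tl one0 one0 w).1 (k-1) / 2 + (tl one0 one0 w).2 (k+1) / 2 =
        one0 k + G (L+1) (N w) (k-1) / 2 - G (L+1) (N w) k / 2 := by
      intro k
      rw [(ihh (k-1)).1, (ihh (k+1)).2, G_N, G_N]
      have := half k
      rw [show k - 1 + 1 = k by ring, show k + 1 - 2 = k - 1 by ring, show k + 1 - 1 = k by ring]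
      linarith
    cases b with
    | true =>
      have sh : ∀ k, G (L+1) (c1 (true :: w)) k = G (L+1) (N w) (k-1) / 2 :=
        fun k => G_shift_left L _ _ (fun j => rfl) (fun i j => rfl)
          (fun j => (supp w).1 L j hw2) k
      refine ⟨?_, ?_⟩
      · show (tl one0 one0 w).1 (k-1) / 2 + (tl one0 one0 w).2 (k+1) / 2 = _
        rw [main k, sh, sh, show k + 1 - 1 = k by ring]
      · have := (ihh k).2
        exact this
    | false =>
      have sh : ∀ k, G (L+1) (c0 (false :: w)) k = G (L+1) (N w) (k+1) / 2 :=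
        fun k => G_shift_right L _ _ (fun j => rfl) (fun i j => rfl)
          (fun i => (supp w).2 i L hw2) k
      refine ⟨?_, ?_⟩
      · have := (ihh k).1
        exact this
      · show (tl one0 one0 w).1 (k-1) / 2 + (tl one0 one0 w).2 (k+1) / 2 = _
        rw [main k, sh, sh, show k - 2 + 1 = k - 1 by ring, show k - 1 + 1 = k by ring]

/-- the sum on the line `i = j` -/
lemma G_zero (L : ℕ) (f : ℕ → ℕ → ℕ) : G L f 0 = ∑ i ∈ range L, (1/4:ℝ)^i * f i i := by
  unfold G
  refine Finset.sum_congr rfl fun i hi => ?_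
  rw [Finset.sum_eq_single i]
  · unfold wt
    rw [if_pos (by simp)]
    rw [← two_mul, pow_mul]; norm_num
  · intro j _ hj
    unfold wt
    rw [if_neg (by omega)]; simp
  · intro h; exact absurd hi h

/-- the sum on the line `j = i + 1` -/
lemma G_neg_one (L : ℕ) (f : ℕ → ℕ → ℕ) (hf : ∀ i, f i L = 0) :
    G L f (-1) = ∑ i ∈ range L, 2 * (1/4:ℝ)^(i+1) * f i (i+1) := by
  unfold G
  refine Finset.sum_congr rfl fun i hi => ?_
  have hi' : i < L := by simpa using hi
  by_cases h : i + 1 < L
  · rw [Finset.sum_eq_single (i+1)]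
    · unfold wt
      rw [if_pos (by push_cast; ring)]
      have : (1/2:ℝ)^(i + (i+1)) = 2 * (1/4:ℝ)^(i+1) := by
        rw [show (1/4:ℝ) = (1/2)^2 by norm_num, ← pow_mul, show 2 * (i+1) = (i + (i+1)) + 1 by ring,
          pow_succ]
        ring
      rw [this]
    · intro j _ hj
      unfold wt
      rw [if_neg (by omega)]; simp
    · intro h'; exact absurd (by simpa using h) h'
  · have e : i + 1 = L := by omega
    rw [e, hf i]
    simp only [Nat.cast_zero, mul_zero]
    refine Finset.sum_eq_zero fun j hj => ?_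
    have : j < L := by simpa using hj
    unfold wt
    rw [if_neg (by omega)]; simp

/-- **The difference of the two weighted sums.** -/
lemma diff_sums (L : ℕ) (w : List Bool) (hw : w.length ≤ L) :
    1 + G (L+1) (N w) (-1) - G (L+1) (N w) 0 =
      ∑ k ∈ range (L+1), (1/4:ℝ)^(k+1) * ((2 * N w k (k+1) : ℕ) - N w (k+1) (k+1) : ℝ) := by
  rw [G_zero, G_neg_one _ _ (fun i => (supp w).2 i (L+1) (by omega))]
  rw [Finset.sum_range_succ' (fun i => (1/4:ℝ)^i * (N w i i : ℝ)) L]
  have h0 : N w 0 0 = 1 := by simp [N, c1_zero, c0_zero]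
  have last : N w (L+1) (L+1) = 0 := (supp w).2 _ _ (by omega)
  simp only [pow_zero, one_mul, h0, Nat.cast_one]
  have e1 : ∑ k ∈ range (L+1), (1/4:ℝ)^(k+1) * ((2 * N w k (k+1) : ℕ) - N w (k+1) (k+1) : ℝ) =
      ∑ k ∈ range (L+1), 2 * (1/4:ℝ)^(k+1) * (N w k (k+1):ℝ) -
        ∑ k ∈ range (L+1), (1/4:ℝ)^(k+1) * (N w (k+1) (k+1):ℝ) := by
    rw [← Finset.sum_sub_distrib]
    refine Finset.sum_congr rfl fun k _ => ?_
    push_cast; ring
  rw [e1, Finset.sum_range_succ (fun k => (1/4:ℝ)^(k+1) * (N w (k+1) (k+1):ℝ)) L, last]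
  simp only [Nat.cast_zero, mul_zero, add_zero]
  ring

/-- **Tail of the measure attached to `1w` (an odd number).** -/
theorem tail_odd (L : ℕ) (w : List Bool) (hw : w.length ≤ L) :
    (tl one0 one0 (true :: w)).1 0 = 1/2 + (1/2) *
      ∑ k ∈ range (L+1), (1/4:ℝ)^(k+1) * ((2 * N w k (k+1) : ℕ) - N w (k+1) (k+1) : ℝ) := by
  rw [← diff_sums L w hw]
  have h := (tl_formula (L+1) (true :: w) (by simp; omega) 0).1
  have a := (tl_formula L w hw (-1)).1
  have b := (tl_formula L w hw 1).2
  have e : (tl one0 one0 (true :: w)).1 0 = (tl one0 one0 w).1 (-1) / 2 + (tl one0 one0 w).2 1 / 2 := by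
    show (tl one0 one0 w).1 (0-1) / 2 + (tl one0 one0 w).2 (0+1) / 2 = _
    norm_num
  rw [e, a, b, G_N, G_N]
  norm_num [one0]
  ring

/-- **Median inequality.** -/
theorem median_odd (w : List Bool) : 1/2 ≤ (tl one0 one0 (true :: w)).1 0 := by
  rw [tail_odd w.length w le_rfl]
  have : 0 ≤ ∑ k ∈ range (w.length+1), (1/4:ℝ)^(k+1) * ((2 * N w k (k+1) : ℕ) - N w (k+1) (k+1) : ℝ) := by
    refine Finset.sum_nonneg fun k _ => mul_nonneg (by positivity) ?_
    have := N_diag w k
    have : (N w (k+1) (k+1) : ℝ) ≤ ((2 * N w k (k+1) : ℕ) : ℝ) := by exact_mod_cast this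
    linarith
  linarith

/-- strict version: one strict deletion inequality suffices -/
theorem strict_odd (w : List Bool) (k : ℕ) (hk : N w (k+1) (k+1) + 1 ≤ 2 * N w k (k+1)) :
    1/2 + (1/2) * (1/4:ℝ)^(k+1) ≤ (tl one0 one0 (true :: w)).1 0 := by
  have hkL : k < w.length + 1 := by
    by_contra h
    have a := (supp w).2 k (k+1) (by omega)
    have b := (supp w).2 (k+1) (k+1) (by omega)
    omega
  rw [tail_odd w.length w le_rfl]
  have : (1/4:ℝ)^(k+1) ≤ ∑ k ∈ range (w.length+1), (1/4:ℝ)^(k+1) * ((2 * N w k (k+1) : ℕ) - N w (k+1) (k+1) : ℝ) := by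
    have h1 : (1/4:ℝ)^(k+1) * ((2 * N w k (k+1) : ℕ) - N w (k+1) (k+1) : ℝ) ≤
        ∑ k ∈ range (w.length+1), (1/4:ℝ)^(k+1) * ((2 * N w k (k+1) : ℕ) - N w (k+1) (k+1) : ℝ) := by
      refine Finset.single_le_sum (f := fun k => (1/4:ℝ)^(k+1) * ((2 * N w k (k+1) : ℕ) - N w (k+1) (k+1) : ℝ))
        (fun i _ => mul_nonneg (by positivity) ?_) (by simpa using hkL)
      have := N_diag w i
      have : (N w (i+1) (i+1) : ℝ) ≤ ((2 * N w i (i+1) : ℕ) : ℝ) := by exact_mod_cast this
      linarith
    refine le_trans ?_ h1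
    have h2 : ((N w (k+1) (k+1) + 1 : ℕ) : ℝ) ≤ ((2 * N w k (k+1) : ℕ) : ℝ) := by exact_mod_cast hk
    push_cast at h2 ⊢
    have : (0:ℝ) < (1/4:ℝ)^(k+1) := by positivity
    nlinarith
  linarith

end W93.CU
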