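import Pool.Agent.W93.CU1

/-! Reflection, supports in terms of the number of ones and zeros, strictness. -/

namespace W93.CU

open Finset

lemma one0_refl (k : ℤ) : one0 k = 1 - one0 (1 - k) := by
  unfold one0
  by_cases h : k ≤ 0
  · rw [if_pos h, if_neg (by omega)]; ring
  · rw [if_neg h, if_pos (by omega)]; ring

/-- complementing all letters reflects the measures -/
lemma tl_refl (w : List Bool) : ∀ k : ℤ,
    (tl one0 one0 (w.map not)).1 k = 1 - (tl one0 one0 w).2 (1-k) ∧
    (tl one0 one0 (w.map not)).2 k = 1 - (tl one0 one0 w).1 (1-k) := by
  induction w with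
  | nil => intro k; exact ⟨one0_refl k, one0_refl k⟩
  | cons b w ih =>
    intro k
    cases b with
    | true =>
      refine ⟨(ih k).1, ?_⟩
      show (tl one0 one0 (w.map not)).1 (k-1) / 2 + (tl one0 one0 (w.map not)).2 (k+1) / 2 =
        1 - ((tl one0 one0 w).1 (1-k-1) / 2 + (tl one0 one0 w).2 (1-k+1) / 2)
      rw [(ih (k-1)).1, (ih (k+1)).2, show 1 - (k-1) = 1 - k + 1 by ring,
        show 1 - (k + 1) = 1 - k - 1 by ring]
      ring
    | false =>
      refine ⟨?_, (ih k).2⟩
      show (tl one0 one0 (w.map not)).1 (k-1) / 2 + (tl one0 one0 (w.map not)).2 (k+1) / 2 =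
        1 - ((tl one0 one0 w).1 (1-k-1) / 2 + (tl one0 one0 w).2 (1-k+1) / 2)
      rw [(ih (k-1)).1, (ih (k+1)).2, show 1 - (k-1) = 1 - k + 1 by ring,
        show 1 - (k + 1) = 1 - k - 1 by ring]
      ring

/-- the value of the measure of `1w` above `1` is the mirror image of that of `1w̄` -/
lemma odd_refl (w : List Bool) :
    (tl one0 one0 (true :: w)).1 1 = 1 - (tl one0 one0 (true :: w.map not)).1 0 := by
  show (tl one0 one0 w).1 (1-1) / 2 + (tl one0 one0 w).2 (1+1) / 2 =
    1 - ((tl one0 one0 (w.map not)).1 (0-1) / 2 + (tl one0 one0 (w.map not)).2 (0+1) / 2)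
  rw [(tl_refl w (0-1)).1, (tl_refl w (0+1)).2]
  norm_num
  ring

theorem median_odd_le (w : List Bool) : (tl one0 one0 (true :: w)).1 1 ≤ 1/2 := by
  rw [odd_refl]
  have := median_odd (w.map not)
  linarith

/-! ### supports -/

lemma supp1 (w : List Bool) : ∀ i j, w.count true < i → c1 w i j = 0 ∧ c0 w i j = 0 := by
  induction w with
  | nil => intro i j _; exact ⟨rfl, rfl⟩
  | cons b w ih =>
    intro i j h
    cases b with
    | true =>
      rw [List.count_cons_self] at h
      obtain ⟨i, rfl⟩ : ∃ i', i = i' + 1 := ⟨i - 1, by omega⟩
      have a := ih i j (by omega)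
      have b := ih (i+1) j (by omega)
      have e : ¬ (i = 0 ∧ j = 0) := by omega
      simp only [c1_true_succ, c0_true, N, if_neg e]
      omega
    | false =>
      rw [List.count_cons_of_ne (by decide)] at h
      have b := ih i j (by omega)
      refine ⟨by simpa using b.1, ?_⟩
      cases j with
      | zero => rfl
      | succ j =>
        have a := ih i j (by omega)
        have e : ¬ (i = 0 ∧ j = 0) := by omega
        simp only [c0_false_succ, N, if_neg e]
        omega

lemma supp0 (w : List Bool) : ∀ i j, w.count false < j → c1 w i j = 0 ∧ c0 w i j = 0 := by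
  induction w with
  | nil => intro i j _; exact ⟨rfl, rfl⟩
  | cons b w ih =>
    intro i j h
    cases b with
    | false =>
      rw [List.count_cons_self] at h
      obtain ⟨j, rfl⟩ : ∃ j', j = j' + 1 := ⟨j - 1, by omega⟩
      have a := ih i j (by omega)
      have b := ih i (j+1) (by omega)
      have e : ¬ (i = 0 ∧ j = 0) := by omega
      simp only [c0_false_succ, c1_false, N, if_neg e]
      omega
    | true =>
      rw [List.count_cons_of_ne (by decide)] at h
      have b := ih i j (by omega)
      refine ⟨?_, by simpa using b.2⟩
      cases i with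
      | zero => rfl
      | succ i =>
        have a := ih i j (by omega)
        have e : ¬ (i = 0 ∧ j = 0) := by omega
        simp only [c1_true_succ, N, if_neg e]
        omega

lemma N_supp1 (w : List Bool) (i j : ℕ) (h : w.count true < i) : N w i j = 0 := by
  have a := supp1 w i j h
  have e : ¬ (i = 0 ∧ j = 0) := by omega
  simp only [N, if_neg e]
  omega

lemma N_mono (b : Bool) (w : List Bool) (i j : ℕ) : N w i j ≤ N (b :: w) i j := by
  cases b with
  | true =>
    unfold N
    cases i with
    | zero => simp [c1_zero]
    | succ i => simp only [c1_true_succ, c0_true]; have := (del_first w).1 i j; omega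
  | false =>
    unfold N
    cases j with
    | zero => simp [c0_zero]
    | succ j => simp only [c0_false_succ, c1_false]; have := (del_first w).2 i j; omega

lemma N_pos (w : List Bool) : ∀ i j, i ≤ w.count true → j ≤ w.count false → 1 ≤ N w i j := by
  induction w with
  | nil =>
    intro i j hi hj
    simp at hi hj
    subst hi; subst hj
    simp [N]
  | cons b w ih =>
    intro i j hi hj
    cases b with
    | true =>
      rw [List.count_cons_self] at hi
      rw [List.count_cons_of_ne (by decide)] at hj
      cases i with
      | zero => exact (ih 0 j (by omega) hj).trans (N_mono true w 0 j)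
      | succ i =>
        have a := ih i j (by omega) hj
        have : N (true :: w) (i+1) j = (if i + 1 = 0 ∧ j = 0 then 1 else 0) + N w i j + c0 w (i+1) j := rfl
        omega
    | false =>
      rw [List.count_cons_self] at hj
      rw [List.count_cons_of_ne (by decide)] at hi
      cases j with
      | zero => exact (ih i 0 hi (by omega)).trans (N_mono false w i 0)
      | succ j =>
        have a := ih i j hi (by omega)
        have : N (false :: w) i (j+1) = (if i = 0 ∧ j + 1 = 0 then 1 else 0) + c1 w i (j+1) + N w i j := rfl
        omega

/-- If the word ends with a zero, the deletion inequality improves for the words that contain all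
zeros: no letter one can be added at the end. -/
lemma end_zero (w : List Bool) :
    (∀ i, (i+1) * c1 (w ++ [false]) (i+1) ((w ++ [false]).count false) ≤
      (i + (w ++ [false]).count false) * c1 (w ++ [false]) i ((w ++ [false]).count false) +
        c0 (w ++ [false]) i ((w ++ [false]).count false)) ∧
    (∀ i, (i+1) * c0 (w ++ [false]) (i+1) ((w ++ [false]).count false) ≤
      (i + (w ++ [false]).count false - 1) * c0 (w ++ [false]) i ((w ++ [false]).count false)) := by
  induction w with
  | nil =>
    refine ⟨fun i => by simp, fun i => ?_⟩
    have : ([] ++ [false] : List Bool).count false = 1 := by decide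
    rw [this]
    show (i+1) * N [] (i+1) 0 ≤ _
    simp [N]
  | cons b w ih =>
    set v := w ++ [false] with hv
    have hK : 1 ≤ v.count false := by rw [hv]; simp
    obtain ⟨E1, E0⟩ := ih
    generalize hKe : v.count false = K at *
    have ND : ∀ i, (i+1) * N v (i+1) K ≤ (i + K) * N v i K := by
      intro i
      have h1 := E1 i
      have h0 := E0 i
      have e : ¬ (i + 1 = 0 ∧ K = 0) := by omega
      have e' : ¬ (i = 0 ∧ K = 0) := by omega
      unfold N
      rw [if_neg e, if_neg e']
      have : (i + K) * c0 v i K = (i + K - 1) * c0 v i K + c0 v i K := by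
        obtain ⟨m, hm⟩ : ∃ m, i + K = m + 1 := ⟨i + K - 1, by omega⟩
        rw [hm, Nat.add_sub_cancel]; ring
      nlinarith
    cases b with
    | true =>
      have e : (true :: w) ++ [false] = true :: v := rfl
      rw [e]
      have cK : (true :: v).count false = K := by rw [List.count_cons_of_ne (by decide), hKe]
      rw [cK]
      refine ⟨fun i => ?_, fun i => by simpa using E0 i⟩
      cases i with
      | zero =>
        simp only [c1_true_succ, c1_true_zero, c0_true]
        have e' : ¬ ((0:ℕ) = 0 ∧ K = 0) := by omega
        unfold N
        rw [if_neg e', c1_zero]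
        simp
      | succ i =>
        simp only [c1_true_succ, c0_true]
        have t := ND i
        have d := (del_first v).1 i K
        have e' : ¬ (i + 1 = 0 ∧ K = 0) := by omega
        have hN : N v (i+1) K = c1 v (i+1) K + c0 v (i+1) K := by unfold N; rw [if_neg e']; omega
        have e1 : (i + 1 + 1) * N v (i+1) K = (i+1) * N v (i+1) K + N v (i+1) K := by ring
        rw [e1]
        have e2 : (i + 1 + K) * N v i K = (i+K) * N v i K + N v i K := by ring
        rw [e2]
        omega
    | false =>
      have e : (false :: w) ++ [false] = false :: v := rfl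
      rw [e]
      have cK : (false :: v).count false = K + 1 := by rw [List.count_cons_self, hKe]
      rw [cK]
      refine ⟨fun i => ?_, fun i => ?_⟩
      · have := (supp0 v (i+1) (K+1) (by omega)).1
        simp only [c1_false, this]
        simp
      · simp only [c0_false_succ]
        have := ND i
        have e3 : i + (K + 1) - 1 = i + K := by omega
        rw [e3]; exact this

lemma N_end_zero (w : List Bool) (i : ℕ) :
    (i+1) * N (w ++ [false]) (i+1) ((w ++ [false]).count false) ≤
      (i + (w ++ [false]).count false) * N (w ++ [false]) i ((w ++ [false]).count false) := by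
  obtain ⟨E1, E0⟩ := end_zero w
  set v := w ++ [false] with hv
  have hK : 1 ≤ v.count false := by rw [hv]; simp
  have h1 := E1 i
  have h0 := E0 i
  generalize hKe : v.count false = K at *
  have e : ¬ (i + 1 = 0 ∧ K = 0) := by omega
  have e' : ¬ (i = 0 ∧ K = 0) := by omega
  unfold N
  rw [if_neg e, if_neg e']
  have : (i + K) * c0 v i K = (i + K - 1) * c0 v i K + c0 v i K := by
    obtain ⟨m, hm⟩ : ∃ m, i + K = m + 1 := ⟨i + K - 1, by omega⟩
    rw [hm, Nat.add_sub_cancel]; ring
  nlinarith

/-- If there are at least as many... : a strict deletion inequality exists if the word has more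
zeros than ones. -/
lemma strict_of_few_ones (w : List Bool) (h : w.count true + 1 ≤ w.count false) :
    N w (w.count true + 1) (w.count true + 1) + 1 ≤ 2 * N w (w.count true) (w.count true + 1) := by
  rw [N_supp1 w _ _ (Nat.lt_succ_self _)]
  have := N_pos w (w.count true) (w.count true + 1) le_rfl h
  omega

/-- a word ending with a zero has a strict deletion inequality -/
theorem strict_end_zero (w : List Bool) :
    ∃ k, N (w ++ [false]) (k+1) (k+1) + 1 ≤ 2 * N (w ++ [false]) k (k+1) := by
  set v := w ++ [false] with hv
  have hK : 1 ≤ v.count false := by rw [hv]; simp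
  by_cases h : v.count true + 1 ≤ v.count false
  · exact ⟨_, strict_of_few_ones v h⟩
  · obtain ⟨k, hk⟩ : ∃ k, v.count false = k + 1 := ⟨v.count false - 1, by omega⟩
    refine ⟨k, ?_⟩
    have E := N_end_zero w k
    rw [← hv, hk] at E
    have pos := N_pos v k (k+1) (by omega) (by omega)
    have e : (k + (k + 1)) * N v k (k+1) + N v k (k+1) = (k+1) * (2 * N v k (k+1)) := by ring
    have : (k+1) * N v (k+1) (k+1) < (k+1) * (2 * N v k (k+1)) := by omega
    have := lt_of_mul_lt_mul_left this (Nat.zero_le _)
    omega

/-- **Strict median inequality for words ending with a zero.** -/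
theorem strict_odd_end_zero (w : List Bool) :
    1/2 < (tl one0 one0 (true :: (w ++ [false]))).1 0 := by
  obtain ⟨k, hk⟩ := strict_end_zero w
  have := strict_odd _ k hk
  have : (0:ℝ) < (1/4:ℝ)^(k+1) := by positivity
  linarith

theorem strict_odd_end_one (w : List Bool) :
    (tl one0 one0 (true :: (w ++ [true]))).1 1 < 1/2 := by
  rw [odd_refl]
  have := strict_odd_end_zero (w.map not)
  have e : (w ++ [true]).map not = w.map not ++ [false] := by simp
  rw [e]
  linarith

end W93.CU
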