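import Pool.Agent.W93.DC1

set_option autoImplicit false

/-! Counting the frequencies in a major arc scale whose digits are nearly extremal. -/

namespace Pool.Agent.W93.DG
open Finset

/-- equal middle strings: the difference is a multiple of `b ^ (i + l + 1)` up to less than `b ^ i` -/
lemma str_diff (b i l s s' : ℕ) (hb : 2 ≤ b) (h : s / b ^ i % b ^ (l + 1) = s' / b ^ i % b ^ (l + 1)) :
    ∃ A ρ : ℤ, (s : ℤ) - s' = (b : ℤ) ^ (i + l + 1) * A + ρ ∧ |ρ| < (b : ℤ) ^ i := by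
  have hbi : 0 < b ^ i := Nat.pow_pos (by omega)
  have e : ∀ x : ℕ, (x : ℤ) = (b : ℤ) ^ (i + l + 1) * ((x / b ^ i / b ^ (l + 1) : ℕ) : ℤ) +
      (b : ℤ) ^ i * ((x / b ^ i % b ^ (l + 1) : ℕ) : ℤ) + ((x % b ^ i : ℕ) : ℤ) := by
    intro x
    have h1 : x = b ^ i * (x / b ^ i) + x % b ^ i := (Nat.div_add_mod x _).symm
    have h2 : x / b ^ i = b ^ (l + 1) * (x / b ^ i / b ^ (l + 1)) + x / b ^ i % b ^ (l + 1) := (Nat.div_add_mod _ _).symm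
    have h3 : x = b ^ (i + l + 1) * (x / b ^ i / b ^ (l + 1)) + b ^ i * (x / b ^ i % b ^ (l + 1)) + x % b ^ i := by
      calc x = b ^ i * (x / b ^ i) + x % b ^ i := h1
        _ = b ^ i * (b ^ (l + 1) * (x / b ^ i / b ^ (l + 1)) + x / b ^ i % b ^ (l + 1)) + x % b ^ i := by rw [← h2]
        _ = _ := by rw [add_assoc i l 1, pow_add b i (l + 1)]; ring
    exact_mod_cast h3
  refine ⟨((s / b ^ i / b ^ (l + 1) : ℕ) : ℤ) - ((s' / b ^ i / b ^ (l + 1) : ℕ) : ℤ),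
    ((s % b ^ i : ℕ) : ℤ) - ((s' % b ^ i : ℕ) : ℤ), ?_, ?_⟩
  · have e1 := e s
    have e2 := e s'
    rw [h] at e1
    linear_combination e1 - e2
  · have h1 : s % b ^ i < b ^ i := Nat.mod_lt _ hbi
    have h2 : s' % b ^ i < b ^ i := Nat.mod_lt _ hbi
    have h3 : ((s % b ^ i : ℕ) : ℤ) < (b : ℤ) ^ i := by exact_mod_cast h1
    have h4 : ((s' % b ^ i : ℕ) : ℤ) < (b : ℤ) ^ i := by exact_mod_cast h2
    have h5 : (0 : ℤ) ≤ ((s % b ^ i : ℕ) : ℤ) := Int.natCast_nonneg _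
    have h6 : (0 : ℤ) ≤ ((s' % b ^ i : ℕ) : ℤ) := Int.natCast_nonneg _
    rw [abs_lt]
    constructor <;> linarith

lemma div_diff (b h s s' : ℕ) (hb : 2 ≤ b) (hh : s / b ^ h = s' / b ^ h) : |(s : ℤ) - s'| < (b : ℤ) ^ h := by
  have hbi : 0 < b ^ h := Nat.pow_pos (by omega)
  have h1 := Nat.div_add_mod s (b ^ h)
  have h2 := Nat.div_add_mod s' (b ^ h)
  rw [hh] at h1
  have h3 := Nat.mod_lt s hbi
  have h4 := Nat.mod_lt s' hbi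
  have h1' : (s : ℤ) = ((b ^ h * (s' / b ^ h) : ℕ) : ℤ) + ((s % b ^ h : ℕ) : ℤ) := by exact_mod_cast h1.symm
  have h2' : (s' : ℤ) = ((b ^ h * (s' / b ^ h) : ℕ) : ℤ) + ((s' % b ^ h : ℕ) : ℤ) := by exact_mod_cast h2.symm
  have h3' : ((s % b ^ h : ℕ) : ℤ) < (b : ℤ) ^ h := by exact_mod_cast h3
  have h4' : ((s' % b ^ h : ℕ) : ℤ) < (b : ℤ) ^ h := by exact_mod_cast h4
  have h5 : (0 : ℤ) ≤ ((s % b ^ h : ℕ) : ℤ) := Int.natCast_nonneg _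
  have h6 : (0 : ℤ) ≤ ((s' % b ^ h : ℕ) : ℤ) := Int.natCast_nonneg _
  rw [abs_lt]
  constructor <;> linarith

/-- two frequencies in the same fibre -/
lemma pair_lemma (b k i₁ i₂ i₃ i l j v w₁ w₃ : ℕ) (hb : 2 ≤ b) (hijk : i + l + j = k) (hvj : v ≤ j)
    (hl : 2 * i₂ ≤ l) (hi : i₃ + 2 ≤ i) (hw1 : i₃ + 2 + w₁ + 1 ≤ k)
    (q₁ q₂ q₂' : ℕ) (hq1 : q₁ ∣ b ^ v) (hq1b : q₁ ≤ b ^ i₁) (hq2 : 1 ≤ q₂) (hq2' : 1 ≤ q₂')
    (hq2b : q₂ ≤ b ^ i₂) (hq2b' : q₂' ≤ b ^ i₂) (hc2 : q₂.Coprime b) (hc2' : q₂'.Coprime b)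
    (c c' : ℤ) (hcop : IsCoprime c (q₂ : ℤ)) (hcop' : IsCoprime c' (q₂' : ℤ))
    (r r' s s' : ℕ) (e : ℤ) (he : (r : ℤ) - r' = (s : ℤ) - s' + e * (b : ℤ) ^ (k + 1))
    (hr : |(r : ℤ) * (q₁ * q₂) - c * (b : ℤ) ^ (k + 1)| ≤ q₁ * q₂ * (b : ℤ) ^ (i₃ + 1))
    (hr' : |(r' : ℤ) * (q₁ * q₂') - c' * (b : ℤ) ^ (k + 1)| ≤ q₁ * q₂' * (b : ℤ) ^ (i₃ + 1))
    (hmid : s / b ^ i % b ^ (l + 1) = s' / b ^ i % b ^ (l + 1))
    (hlow : s / b ^ (k - 1 - w₁) = s' / b ^ (k - 1 - w₁))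
    (μ : ℤ) (hhigh : (s : ℤ) - s' = (b : ℤ) ^ (w₃ + 2) * μ) :
    ∃ lam : ℤ, |lam| * (b : ℤ) ^ (w₁ + 1) ≤ (b : ℤ) ^ i₁ ∧
      |μ * (q₁ * (b : ℤ) ^ (w₃ + 2)) - lam * (b : ℤ) ^ (k + 1)| ≤ 2 * q₁ * (b : ℤ) ^ (i₃ + 1) := by
  have hbz : (2 : ℤ) ≤ b := by exact_mod_cast hb
  have hb0 : (0 : ℤ) < b := by linarith
  have hbn0 : 0 < b := by omega
  have hq1pos : 0 < q₁ := Nat.pos_of_dvd_of_pos hq1 (Nat.pow_pos hbn0)
  have hQ1 : (1 : ℤ) ≤ q₁ := by exact_mod_cast hq1pos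
  have hQ2 : (1 : ℤ) ≤ q₂ := by exact_mod_cast hq2
  have hQ2' : (1 : ℤ) ≤ q₂' := by exact_mod_cast hq2'
  obtain ⟨A, ρ, hA, hρ⟩ := str_diff b i l s s' hb hmid
  set M : ℤ := (b : ℤ) ^ (k + 1) with hM
  have hM0 : 0 < M := pow_pos hb0 _
  set X : ℤ := (r : ℤ) * (q₁ * q₂) - c * M with hX
  set X' : ℤ := (r' : ℤ) * (q₁ * q₂') - c' * M with hX'
  have hMij : (b : ℤ) ^ j * (b : ℤ) ^ (i + l + 1) = M := by
    rw [hM, ← pow_add]; congr 1; omega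
  obtain ⟨g, hg⟩ : ∃ g : ℕ, b ^ j = q₁ * g := hq1.trans (pow_dvd_pow b hvj)
  have hgz : (b : ℤ) ^ j = q₁ * g := by exact_mod_cast hg
  -- step 3
  set A' : ℤ := A + (b : ℤ) ^ j * e with hA'
  set D : ℤ := g * (c * q₂' - c' * q₂) - A' * (q₂ * q₂') with hD
  have key : D * (q₁ * M) = q₁ * q₂ * q₂' * ((b : ℤ) ^ j * ρ) - (b : ℤ) ^ j * (X * q₂' - X' * q₂) := by
    have e1 : (b : ℤ) ^ j * ((r : ℤ) - r') = M * A' + (b : ℤ) ^ j * ρ := by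
      rw [he, hA, hA', ← hMij]; ring
    have e2 : c * M = (r : ℤ) * (q₁ * q₂) - X := by rw [hX]; ring
    have e3 : c' * M = (r' : ℤ) * (q₁ * q₂') - X' := by rw [hX']; ring
    calc D * (q₁ * M) = (q₁ * g) * ((c * M) * q₂' - (c' * M) * q₂) - A' * (q₁ * q₂ * q₂') * M := by rw [hD]; ring
      _ = (b : ℤ) ^ j * (((r : ℤ) * (q₁ * q₂) - X) * q₂' - ((r' : ℤ) * (q₁ * q₂') - X') * q₂) -
          A' * (q₁ * q₂ * q₂') * M := by rw [e2, e3, ← hgz]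
      _ = q₁ * q₂ * q₂' * ((b : ℤ) ^ j * ((r : ℤ) - r')) - (b : ℤ) ^ j * (X * q₂' - X' * q₂) - A' * (q₁ * q₂ * q₂') * M := by ring
      _ = _ := by rw [e1]; ring
  have hbj : 0 < (b : ℤ) ^ j := pow_pos hb0 _
  have hXle : |X * q₂' - X' * q₂| ≤ 2 * (q₁ * q₂ * q₂' * (b : ℤ) ^ (i₃ + 1)) := by
    refine (abs_sub _ _).trans ?_
    rw [abs_mul, abs_mul, abs_of_pos (show (0 : ℤ) < q₂' by linarith), abs_of_pos (show (0 : ℤ) < q₂ by linarith)]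
    have e1 := mul_le_mul_of_nonneg_right hr (show (0 : ℤ) ≤ q₂' by linarith)
    have e2 := mul_le_mul_of_nonneg_right hr' (show (0 : ℤ) ≤ q₂ by linarith)
    linarith
  have hQQ : (0 : ℤ) < q₁ * q₂ * q₂' := by positivity
  have hb3 : 2 * (b : ℤ) ^ (i₃ + 1) ≤ (b : ℤ) ^ (i₃ + 2) := by
    rw [pow_succ (b : ℤ) (i₃ + 1)]
    have := mul_le_mul_of_nonneg_left hbz (pow_pos hb0 (i₃ + 1)).le
    linarith
  have hb3i : (b : ℤ) ^ (i₃ + 2) ≤ (b : ℤ) ^ i := pow_le_pow_right₀ (by linarith) hi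
  have hlt : |D| * (q₁ * M) < q₁ * q₂ * q₂' * ((b : ℤ) ^ j * (b : ℤ) ^ (i + 1)) := by
    have e1 : |D| * (q₁ * M) = |D * (q₁ * M)| := by
      rw [abs_mul, abs_of_pos (show (0 : ℤ) < q₁ * M by positivity)]
    rw [e1, key]
    have n1 : |(q₁ : ℤ) * q₂ * q₂' * ((b : ℤ) ^ j * ρ)| = q₁ * q₂ * q₂' * ((b : ℤ) ^ j * |ρ|) := by
      rw [abs_mul, abs_of_pos hQQ, abs_mul, abs_of_pos hbj]
    have n2 : |(b : ℤ) ^ j * (X * q₂' - X' * q₂)| = (b : ℤ) ^ j * |X * q₂' - X' * q₂| := by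
      rw [abs_mul, abs_of_pos hbj]
    calc |q₁ * q₂ * q₂' * ((b : ℤ) ^ j * ρ) - (b : ℤ) ^ j * (X * q₂' - X' * q₂)|
        ≤ |q₁ * q₂ * q₂' * ((b : ℤ) ^ j * ρ)| + |(b : ℤ) ^ j * (X * q₂' - X' * q₂)| := abs_sub _ _
      _ = q₁ * q₂ * q₂' * ((b : ℤ) ^ j * |ρ|) + (b : ℤ) ^ j * |X * q₂' - X' * q₂| := by
          rw [n1, n2]
      _ < q₁ * q₂ * q₂' * ((b : ℤ) ^ j * (b : ℤ) ^ i) + (b : ℤ) ^ j * (2 * (q₁ * q₂ * q₂' * (b : ℤ) ^ (i₃ + 1))) := by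
          apply add_lt_add_of_lt_of_le
          · apply mul_lt_mul_of_pos_left _ hQQ
            exact mul_lt_mul_of_pos_left hρ hbj
          · exact mul_le_mul_of_nonneg_left hXle hbj.le
      _ = q₁ * q₂ * q₂' * ((b : ℤ) ^ j * ((b : ℤ) ^ i + 2 * (b : ℤ) ^ (i₃ + 1))) := by ring
      _ ≤ q₁ * q₂ * q₂' * ((b : ℤ) ^ j * (b : ℤ) ^ (i + 1)) := by
          apply mul_le_mul_of_nonneg_left _ hQQ.le
          apply mul_le_mul_of_nonneg_left _ hbj.le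
          rw [pow_succ (b : ℤ) i]
          have := mul_le_mul_of_nonneg_left hbz (pow_pos hb0 i).le
          linarith
  have hD0 : D = 0 := by
    by_contra hne
    have h1 : 1 ≤ |D| := Int.one_le_abs hne
    have h2 : (q₂ : ℤ) * q₂' ≤ (b : ℤ) ^ l := by
      calc (q₂ : ℤ) * q₂' ≤ (b : ℤ) ^ i₂ * (b : ℤ) ^ i₂ := by
            apply mul_le_mul (by exact_mod_cast hq2b) (by exact_mod_cast hq2b') (by linarith) (by positivity)
        _ = (b : ℤ) ^ (2 * i₂) := by rw [two_mul, pow_add]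
        _ ≤ _ := pow_le_pow_right₀ (by linarith) hl
    have h3 : q₁ * q₂ * q₂' * ((b : ℤ) ^ j * (b : ℤ) ^ (i + 1)) ≤ q₁ * M := by
      calc q₁ * q₂ * q₂' * ((b : ℤ) ^ j * (b : ℤ) ^ (i + 1)) = (q₁ * ((b : ℤ) ^ j * (b : ℤ) ^ (i + 1))) * (q₂ * q₂') := by ring
        _ ≤ (q₁ * ((b : ℤ) ^ j * (b : ℤ) ^ (i + 1))) * (b : ℤ) ^ l := mul_le_mul_of_nonneg_left h2 (by positivity)
        _ = q₁ * M := by
            rw [← hMij]
            have : (b : ℤ) ^ (i + l + 1) = (b : ℤ) ^ (i + 1) * (b : ℤ) ^ l := by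
              rw [← pow_add]; congr 1; omega
            rw [this]; ring
    have h4 : q₁ * M ≤ |D| * (q₁ * M) := le_mul_of_one_le_left (by positivity) h1
    linarith
  -- step 4
  have hDeq : g * (c * q₂' - c' * q₂) = A' * (q₂ * q₂') := by
    rw [hD] at hD0; linarith
  have hcg : ∀ Q : ℕ, Q.Coprime b → IsCoprime (Q : ℤ) (g : ℤ) := by
    intro Q hQ
    have h1 : Q.Coprime (b ^ j) := Nat.Coprime.pow_right j hQ
    rw [hg] at h1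
    exact (Nat.Coprime.coprime_mul_left_right h1).isCoprime
  have hdiv1 : (q₂ : ℤ) ∣ q₂' := by
    have h1 : (q₂ : ℤ) ∣ g * (c * q₂') := by
      refine ⟨A' * q₂' + g * c', ?_⟩
      linear_combination hDeq
    exact (hcop.symm).dvd_of_dvd_mul_left ((hcg q₂ hc2).dvd_of_dvd_mul_left h1)
  have hdiv2 : (q₂' : ℤ) ∣ q₂ := by
    have h1 : (q₂' : ℤ) ∣ g * (c' * q₂) := by
      refine ⟨g * c - A' * q₂, ?_⟩
      linear_combination -hDeq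
    exact (hcop'.symm).dvd_of_dvd_mul_left ((hcg q₂' hc2').dvd_of_dvd_mul_left h1)
  have heq : q₂' = q₂ := Nat.dvd_antisymm (Int.natCast_dvd_natCast.1 hdiv2) (Int.natCast_dvd_natCast.1 hdiv1)
  subst heq
  obtain ⟨t, ht⟩ : (q₂' : ℤ) ∣ c - c' := by
    have h1 : (q₂' : ℤ) ∣ g * (c - c') := by
      refine ⟨A', ?_⟩
      have h2 : (q₂' : ℤ) * (g * (c - c')) = q₂' * (q₂' * A') := by linear_combination hDeq
      exact mul_left_cancel₀ (by linarith) h2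
    exact (hcg q₂' hc2').dvd_of_dvd_mul_left h1
  -- step 5
  refine ⟨t - e * q₁, ?_, ?_⟩
  · have hδ := div_diff b _ s s' hb hlow
    have e1 : X - X' = q₂' * (((s : ℤ) - s') * q₁ - (t - e * q₁) * M) := by
      have : X - X' = ((r : ℤ) - r') * (q₁ * q₂') - (c - c') * M := by rw [hX, hX']; ring
      rw [this, he, ht]; ring
    have e2 : |X - X'| ≤ 2 * (q₁ * q₂' * (b : ℤ) ^ (i₃ + 1)) := by
      refine (abs_sub _ _).trans ?_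
      linarith
    rw [e1, abs_mul, abs_of_pos (show (0 : ℤ) < q₂' by linarith)] at e2
    have e3 : |((s : ℤ) - s') * q₁ - (t - e * q₁) * M| ≤ 2 * (q₁ * (b : ℤ) ^ (i₃ + 1)) := by
      have : (q₂' : ℤ) * |((s : ℤ) - s') * q₁ - (t - e * q₁) * M| ≤ q₂' * (2 * (q₁ * (b : ℤ) ^ (i₃ + 1))) := by
        linarith
      exact le_of_mul_le_mul_left this (by linarith)
    have e4 : |t - e * q₁| * M ≤ q₁ * ((b : ℤ) ^ (k - 1 - w₁) + (b : ℤ) ^ (i₃ + 2)) := by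
      have h1 : |t - e * q₁| * M = |(t - e * q₁) * M| := by rw [abs_mul, abs_of_pos hM0]
      have h2 : (t - e * q₁) * M = ((s : ℤ) - s') * q₁ - (((s : ℤ) - s') * q₁ - (t - e * q₁) * M) := by ring
      rw [h1, h2]
      refine (abs_sub _ _).trans ?_
      rw [abs_mul, abs_of_pos (show (0 : ℤ) < q₁ by linarith)]
      have h3 := mul_le_mul_of_nonneg_right hδ.le (show (0 : ℤ) ≤ q₁ by linarith)
      have h4 := mul_le_mul_of_nonneg_left hb3 (show (0 : ℤ) ≤ q₁ by linarith)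
      linarith
    have e5 : (b : ℤ) ^ (i₃ + 2) ≤ (b : ℤ) ^ (k - 1 - w₁) := pow_le_pow_right₀ (by linarith) (by omega)
    have e6 : |t - e * q₁| * M ≤ (b : ℤ) ^ i₁ * (b : ℤ) ^ (k - 1 - w₁ + 1) := by
      refine e4.trans ?_
      have h1 : (b : ℤ) ^ (k - 1 - w₁) + (b : ℤ) ^ (i₃ + 2) ≤ (b : ℤ) ^ (k - 1 - w₁ + 1) := by
        rw [pow_succ (b : ℤ) (k - 1 - w₁)]
        have := mul_le_mul_of_nonneg_left hbz (pow_pos hb0 (k - 1 - w₁)).le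
        linarith
      apply mul_le_mul (by exact_mod_cast hq1b) h1 (by positivity) (by positivity)
    have e7 : M = (b : ℤ) ^ (w₁ + 1) * (b : ℤ) ^ (k - 1 - w₁ + 1) := by
      rw [hM, ← pow_add]; congr 1; omega
    rw [e7, ← mul_assoc] at e6
    exact le_of_mul_le_mul_right e6 (by positivity)
  · have e1 : X - X' = q₂' * (((s : ℤ) - s') * q₁ - (t - e * q₁) * M) := by
      have : X - X' = ((r : ℤ) - r') * (q₁ * q₂') - (c - c') * M := by rw [hX, hX']; ring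
      rw [this, he, ht]; ring
    have e2 : |X - X'| ≤ 2 * (q₁ * q₂' * (b : ℤ) ^ (i₃ + 1)) := by
      refine (abs_sub _ _).trans ?_
      linarith
    rw [e1, abs_mul, abs_of_pos (show (0 : ℤ) < q₂' by linarith), hhigh] at e2
    have : (q₂' : ℤ) * |(b : ℤ) ^ (w₃ + 2) * μ * q₁ - (t - e * q₁) * M| ≤ q₂' * (2 * (q₁ * (b : ℤ) ^ (i₃ + 1))) := by
      linarith
    have h3 := le_of_mul_le_mul_left this (by linarith)
    have h4 : μ * (q₁ * (b : ℤ) ^ (w₃ + 2)) - (t - e * q₁) * M = (b : ℤ) ^ (w₃ + 2) * μ * q₁ - (t - e * q₁) * M := by ring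
    rw [h4]
    linarith

end Pool.Agent.W93.DG
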