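import Pool.Agent.W93.DC3

set_option autoImplicit false

/-! The number of nearly extremal strings, and the count in each scale. -/

namespace Pool.Agent.W93.DG
open Finset

/-- few strings have few non-extremal positions -/
theorem ent (b : ℕ) (hb : 2 ≤ b) (E : ℕ) (hE : 1 ≤ E) : ∃ R : ℕ, 1 ≤ R ∧ ∀ l T : ℕ, T * R ≤ 2 * l →
    (US b l T).card ≤ b ^ (l / E + 2) := by
  set n₀ := 4 * E * b with hn
  have hn1 : 1 ≤ n₀ := by
    have : 0 < 4 * E * b := by positivity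
    omega
  have hnr : (1 : ℝ) ≤ n₀ := by exact_mod_cast hn1
  have hn0 : (0 : ℝ) < n₀ := by linarith
  refine ⟨4 * E * n₀, Nat.mul_pos (Nat.mul_pos (by norm_num) (by omega)) (by omega), fun l T hT => ?_⟩
  have hbr : (2 : ℝ) ≤ b := by exact_mod_cast hb
  have hb0 : (0 : ℝ) < b := by linarith
  have h1 := US_card b hb (1 / n₀) (by positivity) (by rw [div_le_one hn0]; exact hnr) l T
  have hx : (1 + (b : ℝ) * (1 / n₀)) ^ (2 * E) ≤ 2 := by
    have e1 : 1 + (b : ℝ) * (1 / n₀) ≤ Real.exp ((b : ℝ) * (1 / n₀)) := by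
      have := Real.add_one_le_exp ((b : ℝ) * (1 / n₀))
      linarith
    have hEr : (1 : ℝ) ≤ E := by exact_mod_cast hE
    calc (1 + (b : ℝ) * (1 / n₀)) ^ (2 * E) ≤ Real.exp ((b : ℝ) * (1 / n₀)) ^ (2 * E) :=
          pow_le_pow_left₀ (by positivity) e1 _
      _ = Real.exp (1 / 2) := by
          rw [← Real.exp_nat_mul]
          congr 1
          rw [hn]
          push_cast
          field_simp
          ring
      _ ≤ 2 := by
          have e2 : Real.exp (1 / 2) ^ 2 ≤ 2 ^ 2 := by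
            rw [← Real.exp_nat_mul]
            have : ((2 : ℕ) : ℝ) * (1 / 2) = 1 := by norm_num
            rw [this]
            have := Real.exp_one_lt_d9
            linarith
          exact le_of_pow_le_pow_left₀ (by norm_num) (by norm_num) e2
  set c : ℝ := ((US b l T).card : ℝ) with hc
  have hc0 : 0 ≤ c := Nat.cast_nonneg _
  have h2 : c ≤ (n₀ : ℝ) ^ T * (b * (1 + b * (1 / n₀)) ^ l) := by
    have e1 : (n₀ : ℝ) ^ T * ((1 / n₀) ^ T * c) = c := by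
      rw [← mul_assoc, ← mul_pow, mul_one_div_cancel hn0.ne', one_pow, one_mul]
    rw [← e1]
    exact mul_le_mul_of_nonneg_left h1 (by positivity)
  have h3 : c ^ (2 * E) ≤ (b : ℝ) ^ (2 * E + 2 * l) := by
    calc c ^ (2 * E) ≤ ((n₀ : ℝ) ^ T * (b * (1 + b * (1 / n₀)) ^ l)) ^ (2 * E) := pow_le_pow_left₀ hc0 h2 _
      _ = (n₀ : ℝ) ^ (T * (2 * E)) * (b : ℝ) ^ (2 * E) * ((1 + b * (1 / n₀)) ^ (2 * E)) ^ l := by
          rw [mul_pow, mul_pow, ← pow_mul, ← pow_mul, ← pow_mul, mul_comm l (2 * E)]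
          ring
      _ ≤ (2 : ℝ) ^ l * (b : ℝ) ^ (2 * E) * 2 ^ l := by
          have e1 : (n₀ : ℝ) ^ (T * (2 * E)) ≤ 2 ^ l := by
            calc (n₀ : ℝ) ^ (T * (2 * E)) ≤ ((2 : ℝ) ^ n₀) ^ (T * (2 * E)) := by
                  apply pow_le_pow_left₀ hn0.le
                  have : n₀ ≤ 2 ^ n₀ := Nat.lt_two_pow_self.le
                  exact_mod_cast this
              _ = (2 : ℝ) ^ (n₀ * (T * (2 * E))) := by rw [← pow_mul]
              _ ≤ 2 ^ l := by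
                  apply pow_le_pow_right₀ (by norm_num)
                  have : 2 * (n₀ * (T * (2 * E))) ≤ 2 * l := by
                    calc 2 * (n₀ * (T * (2 * E))) = T * (4 * E * n₀) := by ring
                      _ ≤ _ := hT
                  omega
          have e2 : ((1 + (b : ℝ) * (1 / n₀)) ^ (2 * E)) ^ l ≤ 2 ^ l := pow_le_pow_left₀ (by positivity) hx _
          gcongr
      _ = (b : ℝ) ^ (2 * E) * (2 * 2) ^ l := by rw [mul_pow]; ring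
      _ ≤ (b : ℝ) ^ (2 * E) * (b * b) ^ l := by gcongr
      _ = _ := by rw [pow_add, pow_mul (b : ℝ) 2 l]; ring
  have h4 : c ^ E ≤ ((b : ℝ) ^ (l / E + 2)) ^ E := by
    have e1 : (c ^ E) ^ 2 ≤ ((b : ℝ) ^ (E + l)) ^ 2 := by
      calc (c ^ E) ^ 2 = c ^ (2 * E) := by rw [← pow_mul, mul_comm]
        _ ≤ _ := h3
        _ = _ := by rw [← pow_mul]; congr 1; ring
    have e2 : c ^ E ≤ (b : ℝ) ^ (E + l) := le_of_pow_le_pow_left₀ (by norm_num) (by positivity) e1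
    refine e2.trans ?_
    rw [← pow_mul]
    apply pow_le_pow_right₀ (by linarith)
    have e3 : l < E * (l / E + 1) := Nat.lt_mul_div_succ l (by omega)
    calc E + l ≤ E + E * (l / E + 1) := by omega
      _ = (l / E + 2) * E := by ring
  have h5 : c ≤ (b : ℝ) ^ (l / E + 2) := le_of_pow_le_pow_left₀ (by omega) (by positivity) h4
  rw [hc] at h5
  exact_mod_cast h5

lemma divisors_pow_le (b v : ℕ) (hb : 2 ≤ b) : (b ^ v).divisors.card ≤ (b * v + 1) ^ b := by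
  have hb0 : b ≠ 0 := by omega
  rw [Nat.card_divisors (pow_ne_zero v hb0)]
  rcases Nat.eq_zero_or_pos v with hv | hv
  · subst hv; simp
  rw [Nat.primeFactors_pow b (by omega)]
  have h1 : ∀ x ∈ b.primeFactors, (b ^ v).factorization x + 1 ≤ b * v + 1 := by
    intro x _
    rw [Nat.factorization_pow]
    have : b.factorization x ≤ b := (Nat.factorization_lt x hb0).le
    have h2 : (v • b.factorization) x = v * b.factorization x := by simp
    rw [h2]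
    have := Nat.mul_le_mul_left v this
    rw [mul_comm v b] at this
    omega
  refine (prod_le_pow_card _ _ _ h1).trans ?_
  apply Nat.pow_le_pow_right (by omega)
  have h3 : b.primeFactors ⊆ Icc 1 b := by
    intro p hp
    rw [mem_Icc]
    exact ⟨(Nat.prime_of_mem_primeFactors hp).one_le, Nat.le_of_mem_primeFactors hp⟩
  have := card_le_card h3
  simpa using this

/-- the count in a scale -/
theorem count_all (b : ℕ) (hb : 2 ≤ b) (E : ℕ) (hE : 8 ≤ E) : ∃ R C : ℕ, 1 ≤ R ∧ 1 ≤ C ∧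
    (∀ l T : ℕ, T * R ≤ 2 * l → (US b l T).card ≤ b ^ (l / E + 2)) ∧
    ∀ (k m v h r₀ : ℕ), 1 ≤ k → m + h + 3 ≤ k → v ≤ k → ∀ i₁ i₂ i₃ : ℕ, i₁ ≤ m → i₂ ≤ m → i₃ ≤ m →
      (h ≤ i₁ ∨ h ≤ i₂ ∨ h ≤ i₃) → ∀ nb : ℕ, nb ≤ k → ∀ iblk : ℕ → ℕ,
      (∀ n < nb, i₃ + 2 ≤ iblk n ∧ iblk n + (2 * i₂ + 1) + v ≤ k) → ∀ S : Finset ℕ,
      (∀ r ∈ S, r < b ^ (k + 1) ∧
        (∃ q₁ q₂ : ℕ, ∃ c : ℤ, q₁ ∣ b ^ v ∧ q₁ ≤ b ^ i₁ ∧ 1 ≤ q₂ ∧ q₂ ≤ b ^ i₂ ∧ q₂.Coprime b ∧ IsCoprime c (q₂ : ℤ) ∧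
          |(r : ℤ) * (q₁ * q₂) - c * (b : ℤ) ^ (k + 1)| ≤ q₁ * q₂ * (b : ℤ) ^ (i₃ + 1)) ∧
        (∃ n < nb, ne b (iblk n) (2 * i₂ + 1) ((r + r₀) % b ^ (k + 1)) * R ≤ 2 * (2 * i₂ + 1)) ∧
        ne b (k - 1 - h) h ((r + r₀) % b ^ (k + 1)) * R ≤ 2 * h ∧ ne b 1 h ((r + r₀) % b ^ (k + 1)) * R ≤ 2 * h) →
      S.card * b ^ (h / 2) ≤ C * k ^ (b + 1) * b ^ (i₁ + i₂ + i₃) := by
  obtain ⟨R, hR, hent⟩ := ent b hb E (by omega)
  refine ⟨R, 21 * b ^ 8 * (2 * b) ^ b, hR, ?_, hent, ?_⟩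
  · have : 0 < 21 * b ^ 8 * (2 * b) ^ b := by positivity
    omega
  intro k m v h r₀ hk hmk hvk i₁ i₂ i₃ hi1 hi2 hi3 hcase nb hnb iblk hblk S hS
  have hbn : 0 < b := by omega
  have hb1 : ∀ n : ℕ, 1 ≤ b ^ n := fun n => Nat.pow_pos hbn
  set l := 2 * i₂ + 1 with hl
  -- thresholds
  have hdivT : ∀ x y : ℕ, x * R ≤ y → x ≤ y / R := fun x y hxy => (Nat.le_div_iff_mul_le (by omega)).2 hxy
  have hTR : ∀ y : ℕ, y / R * R ≤ y := fun y => Nat.div_mul_le_self y R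
  have hUl : (US b l (2 * l / R)).card ≤ b ^ (l / E + 2) := hent l _ (hTR _)
  have hUh : (US b h (2 * h / R)).card ≤ b ^ (h / E + 2) := hent h _ (hTR _)
  have hU0 : (US b 0 0).card ≤ b ^ (0 / E + 2) := hent 0 0 (by omega)
  have hU0' : (US b 0 0).card * b ≤ b ^ 3 := by
    rw [Nat.zero_div] at hU0
    calc (US b 0 0).card * b ≤ b ^ (0 + 2) * b := Nat.mul_le_mul_right _ hU0
      _ = b ^ 3 := by ring
  have hUh' : (US b h (2 * h / R)).card * b ≤ b ^ (h / 8 + 3) := by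
    have : h / E ≤ h / 8 := Nat.div_le_div_left hE (by norm_num)
    calc (US b h (2 * h / R)).card * b ≤ b ^ (h / E + 2) * b := Nat.mul_le_mul_right _ hUh
      _ = b ^ (h / E + 3) := by ring
      _ ≤ b ^ (h / 8 + 3) := Nat.pow_le_pow_right hbn (by omega)
  have hlE : l / E ≤ i₂ / 2 := by
    have h1 : l / E ≤ l / 8 := Nat.div_le_div_left hE (by norm_num)
    omega
  have hUl' : (US b l (2 * l / R)).card ≤ b ^ (i₂ / 2 + 2) := hUl.trans (Nat.pow_le_pow_right hbn (by omega))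
  have hdv : (b ^ v).divisors.card * nb ≤ (2 * b) ^ b * k ^ (b + 1) := by
    have h1 := divisors_pow_le b v hb
    have h2 : b * v + 1 ≤ 2 * b * k := by
      have : b * v ≤ b * k := Nat.mul_le_mul_left _ hvk
      have h3 : 1 ≤ b * k := Nat.mul_pos hbn hk
      calc b * v + 1 ≤ b * k + b * k := by omega
        _ = 2 * b * k := by ring
    calc (b ^ v).divisors.card * nb ≤ (2 * b * k) ^ b * k :=
          Nat.mul_le_mul (h1.trans (Nat.pow_le_pow_left h2 b)) hnb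
      _ = _ := by rw [mul_pow, pow_succ]; ring
  -- trivial fibre bounds
  have hf1 : 2 * (b ^ i₁ / b ^ (0 + 1)) + 1 ≤ 3 * b ^ i₁ := by
    have h1 : b ^ i₁ / b ^ (0 + 1) ≤ b ^ i₁ := Nat.div_le_self _ _
    have := hb1 i₁
    omega
  have hf3 : 2 * (2 * b ^ (i₃ + 1) / b ^ (0 + 2) + 1) + 1 ≤ 7 * b ^ i₃ := by
    have h1 : 2 * b ^ (i₃ + 1) / b ^ (0 + 2) ≤ 2 * b ^ i₃ := by
      apply Nat.div_le_of_le_mul
      calc 2 * b ^ (i₃ + 1) = b * (2 * b ^ i₃) := by ring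
        _ ≤ b ^ (0 + 2) * (2 * b ^ i₃) := by
            apply Nat.mul_le_mul_right
            calc b = b ^ 1 := (pow_one b).symm
              _ ≤ _ := Nat.pow_le_pow_right hbn (by norm_num)
    have := hb1 i₃
    omega
  -- the strings
  have hS' : ∀ (w₁ w₃ : ℕ), (w₁ = 0 ∨ w₁ = h) → (w₃ = 0 ∨ w₃ = h) → ∀ r ∈ S, r < b ^ (k + 1) ∧
      (∃ q₁ q₂ : ℕ, ∃ c : ℤ, q₁ ∣ b ^ v ∧ q₁ ≤ b ^ i₁ ∧ 1 ≤ q₂ ∧ q₂ ≤ b ^ i₂ ∧ q₂.Coprime b ∧ IsCoprime c (q₂ : ℤ) ∧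
        |(r : ℤ) * (q₁ * q₂) - c * (b : ℤ) ^ (k + 1)| ≤ q₁ * q₂ * (b : ℤ) ^ (i₃ + 1)) ∧
      (∃ n < nb, ne b (iblk n) l ((r + r₀) % b ^ (k + 1)) ≤ 2 * l / R) ∧
      ne b (k - 1 - w₁) w₁ ((r + r₀) % b ^ (k + 1)) ≤ 2 * w₁ / R ∧ ne b 1 w₃ ((r + r₀) % b ^ (k + 1)) ≤ 2 * w₃ / R := by
    intro w₁ w₃ hw1 hw3 r hr
    obtain ⟨a1, a2, ⟨n, a3, a4⟩, a5, a6⟩ := hS r hr
    refine ⟨a1, a2, ⟨n, a3, hdivT _ _ a4⟩, ?_, ?_⟩
    · rcases hw1 with rfl | rfl
      · exact (ne_le _ _ _ _).trans (Nat.zero_le _)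
      · exact hdivT _ _ a5
    · rcases hw3 with rfl | rfl
      · exact (ne_le _ _ _ _).trans (Nat.zero_le _)
      · exact hdivT _ _ a6
  have hzero : 2 * 0 / R = 0 := by simp
  rcases hcase with hc | hc | hc
  · -- the first scale is large
    have key := count_scale b k i₁ i₂ i₃ l v h 0 (2 * h / R) (2 * l / R) (2 * 0 / R) nb r₀ iblk hb
      (fun n hn => hblk n hn) (by omega) (by omega) S (hS' h 0 (Or.inr rfl) (Or.inl rfl))
    rw [hzero] at key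
    have hf1' : 2 * (b ^ i₁ / b ^ (h + 1)) + 1 ≤ 3 * b ^ (i₁ - h) := by
      have h1 : b ^ i₁ / b ^ (h + 1) ≤ b ^ (i₁ - h) := by
        apply Nat.div_le_of_le_mul
        calc b ^ i₁ = b ^ h * b ^ (i₁ - h) := by rw [← pow_add]; congr 1; omega
          _ ≤ _ := Nat.mul_le_mul_right _ (Nat.pow_le_pow_right hbn (by omega))
      have := hb1 (i₁ - h)
      omega
    calc S.card * b ^ (h / 2) ≤ ((3 * b ^ (i₁ - h)) * (7 * b ^ i₃) * ((2 * b) ^ b * k ^ (b + 1) * (b ^ (i₂ / 2 + 2) *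
          (b ^ (h / 8 + 3) * b ^ 3)))) * b ^ (h / 2) := by
          apply Nat.mul_le_mul_right
          refine key.trans ?_
          apply Nat.mul_le_mul (Nat.mul_le_mul hf1' hf3)
          rw [← mul_assoc]
          exact Nat.mul_le_mul hdv (Nat.mul_le_mul hUl' (Nat.mul_le_mul hUh' hU0'))
      _ = 21 * b ^ 8 * (2 * b) ^ b * k ^ (b + 1) * b ^ ((i₁ - h) + h / 8 + h / 2 + i₂ / 2 + i₃) := by
          rw [pow_add b (i₁ - h + h / 8 + h / 2 + i₂ / 2), pow_add b (i₁ - h + h / 8 + h / 2), pow_add b (i₁ - h + h / 8),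
            pow_add b (i₁ - h)]
          ring
      _ ≤ _ := Nat.mul_le_mul_left _ (Nat.pow_le_pow_right hbn (by omega))
  · -- the second scale is large
    have key := count_scale b k i₁ i₂ i₃ l v 0 0 (2 * 0 / R) (2 * l / R) (2 * 0 / R) nb r₀ iblk hb
      (fun n hn => hblk n hn) (by omega) (by omega) S (hS' 0 0 (Or.inl rfl) (Or.inl rfl))
    rw [hzero] at key
    calc S.card * b ^ (h / 2) ≤ ((3 * b ^ i₁) * (7 * b ^ i₃) * ((2 * b) ^ b * k ^ (b + 1) * (b ^ (i₂ / 2 + 2) *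
          (b ^ 3 * b ^ 3)))) * b ^ (h / 2) := by
          apply Nat.mul_le_mul_right
          refine key.trans ?_
          apply Nat.mul_le_mul (Nat.mul_le_mul hf1 hf3)
          rw [← mul_assoc]
          exact Nat.mul_le_mul hdv (Nat.mul_le_mul hUl' (Nat.mul_le_mul hU0' hU0'))
      _ = 21 * b ^ 8 * (2 * b) ^ b * k ^ (b + 1) * b ^ (i₁ + (i₂ / 2 + h / 2) + i₃) := by
          rw [pow_add b (i₁ + (i₂ / 2 + h / 2)), pow_add b i₁, pow_add b (i₂ / 2) (h / 2)]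
          ring
      _ ≤ _ := Nat.mul_le_mul_left _ (Nat.pow_le_pow_right hbn (by omega))
  · -- the third scale is large
    have key := count_scale b k i₁ i₂ i₃ l v 0 h (2 * 0 / R) (2 * l / R) (2 * h / R) nb r₀ iblk hb
      (fun n hn => hblk n hn) (by omega) (by omega) S (hS' 0 h (Or.inl rfl) (Or.inr rfl))
    rw [hzero] at key
    have hf3' : 2 * (2 * b ^ (i₃ + 1) / b ^ (h + 2) + 1) + 1 ≤ 7 * b ^ (i₃ - h) := by
      have h1 : 2 * b ^ (i₃ + 1) / b ^ (h + 2) ≤ 2 * b ^ (i₃ - h) := by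
        apply Nat.div_le_of_le_mul
        calc 2 * b ^ (i₃ + 1) = b ^ (h + 1) * (2 * b ^ (i₃ - h)) := by
              have : b ^ (i₃ + 1) = b ^ (h + 1) * b ^ (i₃ - h) := by rw [← pow_add]; congr 1; omega
              rw [this]; ring
          _ ≤ _ := Nat.mul_le_mul_right _ (Nat.pow_le_pow_right hbn (by omega))
      have := hb1 (i₃ - h)
      omega
    calc S.card * b ^ (h / 2) ≤ ((3 * b ^ i₁) * (7 * b ^ (i₃ - h)) * ((2 * b) ^ b * k ^ (b + 1) * (b ^ (i₂ / 2 + 2) *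
          (b ^ 3 * b ^ (h / 8 + 3))))) * b ^ (h / 2) := by
          apply Nat.mul_le_mul_right
          refine key.trans ?_
          apply Nat.mul_le_mul (Nat.mul_le_mul hf1 hf3')
          rw [← mul_assoc]
          exact Nat.mul_le_mul hdv (Nat.mul_le_mul hUl' (Nat.mul_le_mul hU0' hUh'))
      _ = 21 * b ^ 8 * (2 * b) ^ b * k ^ (b + 1) * b ^ (i₁ + i₂ / 2 + ((i₃ - h) + h / 8 + h / 2)) := by
          rw [pow_add b (i₁ + i₂ / 2), pow_add b i₁, pow_add b (i₃ - h + h / 8), pow_add b (i₃ - h)]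
          ring
      _ ≤ _ := Nat.mul_le_mul_left _ (Nat.pow_le_pow_right hbn (by omega))

end Pool.Agent.W93.DG
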