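import Pool.Agent.W93.DC4
import Pool.Agent.W93.MC

set_option autoImplicit false

/-! The scale of a frequency on the major arcs. -/

namespace Pool.Agent.W93.DG
open Finset

/-- `r / b ^ (k + 1)` has an approximation in the scale `(i₁, i₂, i₃)` -/
def InScale (b k v i₁ i₂ i₃ r : ℕ) : Prop :=
  ∃ q₁ q₂ : ℕ, ∃ c : ℤ, q₁ ∣ b ^ v ∧ q₁ ≤ b ^ i₁ ∧ 1 ≤ q₂ ∧ q₂ ≤ b ^ i₂ ∧ q₂.Coprime b ∧ IsCoprime c (q₂ : ℤ) ∧
    |(r : ℤ) * (q₁ * q₂) - c * (b : ℤ) ^ (k + 1)| ≤ q₁ * q₂ * (b : ℤ) ^ (i₃ + 1)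

/-- the part of `q` composed of the primes dividing `b` -/
lemma decomp (b : ℕ) (hb : 2 ≤ b) (q : ℕ) (hq : 1 ≤ q) : ∃ q₁ q₂ a : ℕ, q = q₁ * q₂ ∧ q₁ ∣ b ^ a ∧ 2 ^ a ≤ q₁ ∧
    q₂.Coprime b ∧ 1 ≤ q₁ ∧ 1 ≤ q₂ := by
  induction q using Nat.strong_induction_on with
  | _ q ih =>
    by_cases h : q.Coprime b
    · exact ⟨1, q, 0, by simp, by simp, by simp, h, le_rfl, hq⟩
    · set g := Nat.gcd q b with hg
      have hg0 : 0 < g := Nat.gcd_pos_of_pos_left _ hq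
      have hg1 : g ≠ 1 := h
      have hg2 : 2 ≤ g := by omega
      obtain ⟨q', hq'⟩ : g ∣ q := Nat.gcd_dvd_left _ _
      have hq'0 : 1 ≤ q' := by
        rcases Nat.eq_zero_or_pos q' with h0 | h0
        · rw [h0, mul_zero] at hq'; omega
        · exact h0
      have hlt : q' < q := by
        rw [hq']
        calc q' = 1 * q' := (one_mul _).symm
          _ < g * q' := Nat.mul_lt_mul_of_pos_right (by omega) hq'0
      obtain ⟨q₁, q₂, a, h1, h2, h3, h4, h5, h6⟩ := ih q' hlt hq'0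
      refine ⟨g * q₁, q₂, a + 1, ?_, ?_, ?_, h4, Nat.mul_pos hg0 h5, h6⟩
      · rw [hq', h1, mul_assoc]
      · rw [pow_succ', ]
        exact Nat.mul_dvd_mul (Nat.gcd_dvd_right _ _) h2
      · rw [pow_succ']
        exact Nat.mul_le_mul hg2 h3

lemma clog_le' (b x : ℕ) (hb : 2 ≤ b) (hx : 1 ≤ x) : b ^ Nat.clog b x ≤ b * x := by
  rcases Nat.lt_or_ge 1 x with h | h
  · have h1 := Nat.pow_pred_clog_lt_self (b := b) (by omega) h
    have h2 : 0 < Nat.clog b x := Nat.clog_pos (by omega) (by omega)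
    obtain ⟨y, hy⟩ : ∃ y, Nat.clog b x = y + 1 := ⟨Nat.clog b x - 1, by omega⟩
    rw [hy] at h1 ⊢
    rw [Nat.pred_succ] at h1
    rw [pow_succ']
    exact Nat.mul_le_mul_left _ h1.le
  · have : x = 1 := by omega
    subst this
    simp
    omega

/-- the scale of a frequency near a fraction with a small denominator -/
lemma scale_of (b k m : ℕ) (hb : 2 ≤ b) (r q : ℕ) (c : ℤ) (hq : 1 ≤ q) (hcop : IsCoprime c (q : ℤ)) (hqV : q ≤ b ^ m)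
    (hτ : (q : ℝ) * (((b ^ k : ℕ) : ℝ) * |(r : ℝ) / ((b ^ (k + 1) : ℕ) : ℝ) - c / q|) ≤ ((b ^ m : ℕ) : ℝ)) :
    ∃ i₁ i₂ i₃ : ℕ, i₁ ≤ m ∧ i₂ ≤ m ∧ i₃ ≤ m ∧ InScale b k (b * m) i₁ i₂ i₃ r ∧
      (b : ℝ) ^ (i₁ + i₂ + i₃) ≤ 2 * b ^ 3 * max (q : ℝ) ((q : ℝ) * (((b ^ k : ℕ) : ℝ) * |(r : ℝ) / ((b ^ (k + 1) : ℕ) : ℝ) - c / q|)) := by
  obtain ⟨q₁, q₂, a, h1, h2, h3, h4, h5, h6⟩ := decomp b hb q hq
  have hbn : 0 < b := by omega
  have hbr : (2 : ℝ) ≤ b := by exact_mod_cast hb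
  have hb0 : (0 : ℝ) < b := by linarith
  set t : ℝ := ((b ^ k : ℕ) : ℝ) * |(r : ℝ) / ((b ^ (k + 1) : ℕ) : ℝ) - c / q| with ht
  have ht0 : 0 ≤ t := by positivity
  have hqr : (1 : ℝ) ≤ q := by exact_mod_cast hq
  have hq0 : (0 : ℝ) < q := by linarith
  have htm : t ≤ ((b ^ m : ℕ) : ℝ) := by nlinarith
  have hq1m : q₁ ≤ b ^ m := (Nat.le_mul_of_pos_right _ h6).trans (h1 ▸ hqV)
  have hq2m : q₂ ≤ b ^ m := (Nat.le_mul_of_pos_left _ h5).trans (h1 ▸ hqV)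
  have ham : a ≤ b * m := by
    have e1 : 2 ^ a ≤ 2 ^ (b * m) := by
      calc 2 ^ a ≤ b ^ m := h3.trans hq1m
        _ ≤ (2 ^ b) ^ m := Nat.pow_le_pow_left Nat.lt_two_pow_self.le m
        _ = _ := by rw [← pow_mul]
    exact (Nat.pow_le_pow_iff_right (by norm_num)).1 e1
  have hb1 : 1 < b := by omega
  refine ⟨Nat.clog b q₁, Nat.clog b q₂, Nat.clog b ⌈t⌉₊, Nat.clog_le_of_le_pow hq1m, Nat.clog_le_of_le_pow hq2m,
    Nat.clog_le_of_le_pow (Nat.ceil_le.2 htm), ?_, ?_⟩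
  · refine ⟨q₁, q₂, c, h2.trans (pow_dvd_pow b ham), Nat.le_pow_clog hb1 _, h6, Nat.le_pow_clog hb1 _, h4, ?_, ?_⟩
    · rw [h1] at hcop
      push_cast at hcop
      exact hcop.of_mul_right_right
    · have e1 : |(r : ℝ) * q - c * (b : ℝ) ^ (k + 1)| = q * b * t := by
        rw [ht]
        have hM : (0 : ℝ) < (b : ℝ) ^ (k + 1) := by positivity
        have e2 : (r : ℝ) * q - c * (b : ℝ) ^ (k + 1) = (q * (b : ℝ) ^ (k + 1)) * ((r : ℝ) / ((b ^ (k + 1) : ℕ) : ℝ) - c / q) := by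
          push_cast
          field_simp
        rw [e2, abs_mul, abs_of_pos (by positivity)]
        push_cast
        ring
      have e3 : t ≤ (b : ℝ) ^ Nat.clog b ⌈t⌉₊ := by
        have := Nat.le_pow_clog hb1 ⌈t⌉₊
        have e4 : ((⌈t⌉₊ : ℕ) : ℝ) ≤ (b : ℝ) ^ Nat.clog b ⌈t⌉₊ := by exact_mod_cast this
        exact (Nat.le_ceil t).trans e4
      have e5 : |(r : ℝ) * q - c * (b : ℝ) ^ (k + 1)| ≤ q * (b : ℝ) ^ (Nat.clog b ⌈t⌉₊ + 1) := by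
        rw [e1]
        calc (q : ℝ) * b * t ≤ q * b * (b : ℝ) ^ Nat.clog b ⌈t⌉₊ := by gcongr
          _ = _ := by ring
      have e6 : (q : ℝ) = (q₁ : ℝ) * q₂ := by rw [h1]; push_cast; ring
      rw [e6] at e5
      exact_mod_cast e5
  · have e1 : ((b ^ Nat.clog b q₁ : ℕ) : ℝ) ≤ b * q₁ := by exact_mod_cast clog_le' b q₁ hb h5
    have e2 : ((b ^ Nat.clog b q₂ : ℕ) : ℝ) ≤ b * q₂ := by exact_mod_cast clog_le' b q₂ hb h6
    have e3 : ((b ^ Nat.clog b ⌈t⌉₊ : ℕ) : ℝ) ≤ 2 * b * max 1 t := by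
      rcases Nat.eq_zero_or_pos ⌈t⌉₊ with h0 | h0
      · rw [h0]
        have : Nat.clog b 0 = 0 := by simp
        rw [this, pow_zero, Nat.cast_one]
        have : 1 ≤ max 1 t := le_max_left _ _
        nlinarith
      · have e4 : ((b ^ Nat.clog b ⌈t⌉₊ : ℕ) : ℝ) ≤ b * ⌈t⌉₊ := by exact_mod_cast clog_le' b _ hb h0
        refine e4.trans ?_
        have e5 := Nat.ceil_lt_add_one ht0
        have e6 : (⌈t⌉₊ : ℝ) ≤ 2 * max 1 t := by
          have := le_max_left 1 t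
          have := le_max_right 1 t
          linarith
        calc (b : ℝ) * ⌈t⌉₊ ≤ b * (2 * max 1 t) := mul_le_mul_of_nonneg_left e6 hb0.le
          _ = _ := by ring
    have e7 : max (q : ℝ) ((q : ℝ) * t) = q * max 1 t := by
      rw [mul_max_of_nonneg _ _ hq0.le, mul_one]
    rw [e7]
    have e8 : (q : ℝ) = (q₁ : ℝ) * q₂ := by rw [h1]; push_cast; ring
    rw [e8]
    push_cast at e1 e2 e3
    rw [pow_add, pow_add]
    calc (b : ℝ) ^ Nat.clog b q₁ * (b : ℝ) ^ Nat.clog b q₂ * (b : ℝ) ^ Nat.clog b ⌈t⌉₊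
        ≤ (b * q₁) * (b * q₂) * (2 * b * max 1 t) := by
          apply mul_le_mul (mul_le_mul e1 e2 (by positivity) (by positivity)) e3 (by positivity) (by positivity)
      _ = _ := by ring

/-- the number of frequencies in small scales -/
lemma log_count (b k v h : ℕ) (hb : 2 ≤ b) (hk : h ≤ k) (S : Finset ℕ)
    (hS : ∀ r ∈ S, r < b ^ (k + 1) ∧ ∃ i₁ i₂ i₃ : ℕ, i₁ ≤ h ∧ i₂ ≤ h ∧ i₃ ≤ h ∧ InScale b k v i₁ i₂ i₃ r) :
    S.card ≤ b ^ (5 * h + 8) := by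
  classical
  have hbn : 0 < b := by omega
  have hbz : (2 : ℤ) ≤ b := by exact_mod_cast hb
  have hb0 : (0 : ℤ) < b := by linarith
  set M : ℤ := (b : ℤ) ^ (k + 1) with hM
  have hM0 : 0 < M := pow_pos hb0 _
  have hex : ∀ r ∈ S, ∃ q : ℕ, ∃ c : ℤ, 1 ≤ q ∧ q ≤ b ^ (2 * h) ∧ |(r : ℤ) * q - c * M| ≤ q * (b : ℤ) ^ (h + 1) := by
    intro r hr
    obtain ⟨_, i₁, i₂, i₃, h1, h2, h3, q₁, q₂, c, h4, h5, h6, h7, _, _, h8⟩ := hS r hr
    have hq1 : 1 ≤ q₁ := Nat.pos_of_dvd_of_pos h4 (Nat.pow_pos hbn)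
    refine ⟨q₁ * q₂, c, Nat.mul_pos hq1 h6, ?_, ?_⟩
    · calc q₁ * q₂ ≤ b ^ i₁ * b ^ i₂ := Nat.mul_le_mul h5 h7
        _ ≤ b ^ h * b ^ h := Nat.mul_le_mul (Nat.pow_le_pow_right hbn h1) (Nat.pow_le_pow_right hbn h2)
        _ = b ^ (2 * h) := by rw [two_mul, pow_add]
    · push_cast
      refine h8.trans ?_
      apply mul_le_mul_of_nonneg_left _ (by positivity)
      exact pow_le_pow_right₀ (by linarith) (by omega)
  choose! Q Cc hQ1 hQ2 hQ3 using hex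
  set T : Finset (ℕ × ℤ × ℤ) := (Icc 1 (b ^ (2 * h))) ×ˢ ((Icc (-((2 * b ^ (2 * h) : ℕ) : ℤ)) ((2 * b ^ (2 * h) : ℕ) : ℤ)) ×ˢ
    (Icc (-((b ^ (h + 1) + 1 : ℕ) : ℤ)) ((b ^ (h + 1) + 1 : ℕ) : ℤ))) with hT
  have hb1 : ∀ n : ℕ, 1 ≤ b ^ n := fun n => Nat.pow_pos hbn
  have hTcard : T.card ≤ b ^ (5 * h + 8) := by
    rw [hT, card_product, card_product, Int.card_Icc, Int.card_Icc, Nat.card_Icc, Nat.add_sub_cancel]
    have e1 : (((2 * b ^ (2 * h) : ℕ) : ℤ) + 1 - -((2 * b ^ (2 * h) : ℕ) : ℤ)).toNat = 4 * b ^ (2 * h) + 1 := by omega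
    have e2 : (((b ^ (h + 1) + 1 : ℕ) : ℤ) + 1 - -((b ^ (h + 1) + 1 : ℕ) : ℤ)).toNat = 2 * b ^ (h + 1) + 3 := by omega
    rw [e1, e2]
    have e3 : 4 * b ^ (2 * h) + 1 ≤ b ^ (2 * h + 3) := by
      have : b ^ (2 * h + 3) = b ^ 3 * b ^ (2 * h) := by ring
      rw [this]
      have h8 : 8 ≤ b ^ 3 := by
        calc 8 = 2 ^ 3 := by norm_num
          _ ≤ b ^ 3 := Nat.pow_le_pow_left hb 3
      have := hb1 (2 * h)
      nlinarith
    have e4 : 2 * b ^ (h + 1) + 3 ≤ b ^ (h + 1 + 3) := by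
      have : b ^ (h + 1 + 3) = b ^ 3 * b ^ (h + 1) := by ring
      rw [this]
      have h8 : 8 ≤ b ^ 3 := by
        calc 8 = 2 ^ 3 := by norm_num
          _ ≤ b ^ 3 := Nat.pow_le_pow_left hb 3
      have := hb1 (h + 1)
      nlinarith
    calc b ^ (2 * h) * ((4 * b ^ (2 * h) + 1) * (2 * b ^ (h + 1) + 3)) ≤ b ^ (2 * h) * (b ^ (2 * h + 3) * b ^ (h + 1 + 3)) :=
          Nat.mul_le_mul_left _ (Nat.mul_le_mul e3 e4)
      _ = b ^ (5 * h + 7) := by rw [← pow_add, ← pow_add]; congr 1; ring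
      _ ≤ b ^ (5 * h + 8) := Nat.pow_le_pow_right hbn (by omega)
  refine le_trans ?_ hTcard
  apply card_le_card_of_injOn (fun r => (Q r, Cc r, (r : ℤ) - Cc r * M / Q r))
  · intro r hr
    have hr' : r ∈ S := mem_coe.1 hr
    have hq0 : (1 : ℤ) ≤ Q r := by exact_mod_cast hQ1 r hr'
    have hq0' : (0 : ℤ) < Q r := by linarith
    have h3 := abs_le.1 (hQ3 r hr')
    have hrM : (r : ℤ) < M := by
      have := (hS r hr').1
      rw [hM]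
      exact_mod_cast this
    have hr0 : (0 : ℤ) ≤ r := Int.natCast_nonneg _
    have hbh : (b : ℤ) ^ (h + 1) ≤ M := pow_le_pow_right₀ (by linarith) (by omega)
    rw [mem_coe, hT, mem_product, mem_product, mem_Icc, mem_Icc, mem_Icc]
    refine ⟨⟨hQ1 r hr', hQ2 r hr'⟩, ?_, ?_⟩
    · have hq2 : (Q r : ℤ) ≤ (b : ℤ) ^ (2 * h) := by exact_mod_cast hQ2 r hr'
      have a1 : (r : ℤ) * Q r ≤ M * Q r := mul_le_mul_of_nonneg_right hrM.le hq0'.le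
      have a1' : 0 ≤ (r : ℤ) * Q r := by positivity
      have a2 : (Q r : ℤ) * (b : ℤ) ^ (h + 1) ≤ Q r * M := mul_le_mul_of_nonneg_left hbh hq0'.le
      have a3 : Cc r * M ≤ (2 * Q r) * M := by linarith [h3.1]
      have a4 : (-(2 * (Q r : ℤ))) * M ≤ Cc r * M := by linarith [h3.2]
      have a5 := le_of_mul_le_mul_right a3 hM0
      have a6 := le_of_mul_le_mul_right a4 hM0
      change -((2 * b ^ (2 * h) : ℕ) : ℤ) ≤ Cc r ∧ Cc r ≤ ((2 * b ^ (2 * h) : ℕ) : ℤ)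
      push_cast
      constructor <;> linarith
    · change -((b ^ (h + 1) + 1 : ℕ) : ℤ) ≤ (r : ℤ) - Cc r * M / Q r ∧ (r : ℤ) - Cc r * M / Q r ≤ ((b ^ (h + 1) + 1 : ℕ) : ℤ)
      have e1 : ((r : ℤ) - Cc r * M / Q r) * Q r = ((r : ℤ) * Q r - Cc r * M) + (Cc r * M) % Q r := by
        have := Int.mul_ediv_add_emod (Cc r * M) (Q r)
        linear_combination -this
      have e2 : 0 ≤ (Cc r * M) % Q r := Int.emod_nonneg _ hq0'.ne'
      have e3 : (Cc r * M) % Q r < Q r := Int.emod_lt_of_pos _ hq0'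
      push_cast
      constructor
      · apply le_of_mul_le_mul_right _ hq0'
        rw [e1]
        linarith [h3.1]
      · apply le_of_mul_le_mul_right _ hq0'
        rw [e1]
        linarith [h3.2]
  · intro r hr r' hr' heq
    simp only [Prod.mk.injEq] at heq
    obtain ⟨e1, e2, e3⟩ := heq
    rw [e1, e2] at e3
    have e4 : (r : ℤ) = r' := by linarith
    exact_mod_cast e4

end Pool.Agent.W93.DG
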