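import Pool.Agent.W93.DC6

set_option autoImplicit false

/-! The sum over the nearly extremal frequencies. -/

namespace Pool.Agent.W93.DG
open Finset
open Pool.Agent.H807R2.Dav
open Pool.Agent.H373R2.T7

/-- the large scales -/
def TL (m h : ℕ) : Finset (ℕ × ℕ × ℕ) := ((range (m + 1)) ×ˢ (range (m + 1)) ×ˢ (range (m + 1))).filter
  (fun i => h ≤ i.1 ∨ h ≤ i.2.1 ∨ h ≤ i.2.2)

open Classical in
/-- the weight of a frequency -/
noncomputable def wt (b k m h r : ℕ) : ℝ :=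
  1 / (b : ℝ) ^ m + ∑ i ∈ TL m h, (if InScale b k (b * m) i.1 i.2.1 i.2.2 r then
      2 * (b : ℝ) ^ 3 / (b : ℝ) ^ (i.1 + i.2.1 + i.2.2) else 0)

lemma mem_TL (m h i₁ i₂ i₃ : ℕ) : (i₁, i₂, i₃) ∈ TL m h ↔ (i₁ ≤ m ∧ i₂ ≤ m ∧ i₃ ≤ m) ∧ (h ≤ i₁ ∨ h ≤ i₂ ∨ h ≤ i₃) := by
  unfold TL
  rw [mem_filter, mem_product, mem_product, mem_range, mem_range, mem_range]
  change ((i₁ < m + 1 ∧ i₂ < m + 1 ∧ i₃ < m + 1) ∧ (h ≤ i₁ ∨ h ≤ i₂ ∨ h ≤ i₃)) ↔ _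
  omega

/-- the pointwise bound -/
lemma pointwise (b : ℕ) (hb : 2 ≤ b) (k m h : ℕ) (hm : 2 ≤ m) (hmk : 4 * m ≤ k) (Φ : ℝ) (hΦ : 0 ≤ Φ) (f g : ℕ → ℝ)
    (Hf : ∀ V q : ℕ, 1 ≤ V → (V * V) * (V * V) ≤ b ^ k → 1 ≤ q → q ≤ b ^ k →
      ∀ c : ℤ, IsCoprime c (q : ℤ) → ∀ α : ℝ, |α - c / q| ≤ 1 / (q : ℝ) ^ 2 →
      ‖∑ n ∈ Icc 1 (b ^ k), ((f n : ℝ) : ℂ) * ee ((n : ℝ) * α)‖ ≤ Φ * √(1 / (q : ℝ) + 1 / V + q / (b ^ k : ℕ)))
    (Hg : ∀ V q : ℕ, 1 ≤ V → (V * V) * (V * V) ≤ b ^ k → 1 ≤ q → q ≤ b ^ k →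
      ∀ c : ℤ, IsCoprime c (q : ℤ) → ∀ α : ℝ, |α - c / q| ≤ 1 / (q : ℝ) ^ 2 →
      ‖∑ n ∈ Icc 1 (b ^ k), ((g n : ℝ) : ℂ) * ee ((n : ℝ) * α)‖ ≤ Φ * √(1 / (q : ℝ) + 1 / V + q / (b ^ k : ℕ)))
    (r : ℕ) (hr : ¬ ∃ i₁ i₂ i₃ : ℕ, i₁ ≤ h ∧ i₂ ≤ h ∧ i₃ ≤ h ∧ InScale b k (b * m) i₁ i₂ i₃ r) :
    ‖FF f (b ^ k) (b ^ (k + 1)) r‖ * ‖FF g (b ^ k) (b ^ (k + 1)) r‖ ≤ 16 * Φ ^ 2 * wt b k m h r := by
  classical
  have hbn : 0 < b := by omega
  have hbr : (2 : ℝ) ≤ b := by exact_mod_cast hb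
  have hb0 : (0 : ℝ) < b := by linarith
  set V := b ^ m with hV
  have hV4 : 4 ≤ V := by
    calc 4 = 2 ^ 2 := by norm_num
      _ ≤ b ^ 2 := Nat.pow_le_pow_left hb 2
      _ ≤ b ^ m := Nat.pow_le_pow_right hbn hm
  have hVN : (V * V) * (V * V) ≤ b ^ k := by
    rw [hV, ← pow_add, ← pow_add]
    exact Nat.pow_le_pow_right hbn (by omega)
  have hVV : V * V ≤ b ^ k := by
    rw [hV, ← pow_add]
    exact Nat.pow_le_pow_right hbn (by omega)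
  have hV0 : (0 : ℝ) < V := by exact_mod_cast (by omega : 0 < V)
  set α : ℝ := (r : ℝ) / ((b ^ (k + 1) : ℕ) : ℝ) with hα
  have hnn : ∀ i : ℕ × ℕ × ℕ, 0 ≤ (if InScale b k (b * m) i.1 i.2.1 i.2.2 r then
      2 * (b : ℝ) ^ 3 / (b : ℝ) ^ (i.1 + i.2.1 + i.2.2) else 0) := by
    intro i
    split_ifs <;> positivity
  have hw1 : 1 / (b : ℝ) ^ m ≤ wt b k m h r := by
    unfold wt
    have := sum_nonneg (s := TL m h) (fun i _ => hnn i)
    linarith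
  obtain ⟨q, c, hq, hcop, hcase⟩ := diri (b ^ k) V (by omega) hVV α
  rcases hcase with ⟨hqV, hτ⟩ | ⟨hqV, hqN, happ⟩
  · -- major arcs
    set τ : ℝ := max (q : ℝ) ((q : ℝ) * (((b ^ k : ℕ) : ℝ) * |α - c / q|)) with hτd
    have hq0 : (0 : ℝ) < q := by exact_mod_cast hq
    have hτ0 : 0 < τ := hq0.trans_le (le_max_left _ _)
    have h1 := major_of (b ^ k) V hV4 hVN α ‖FF f (b ^ k) (b ^ (k + 1)) r‖ Φ hΦ
      (fun q hq hqN c hc h => Hf V q (by omega) hVN hq hqN c hc α h) q hq c hcop hqV hτ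
    have h2 := major_of (b ^ k) V hV4 hVN α ‖FF g (b ^ k) (b ^ (k + 1)) r‖ Φ hΦ
      (fun q hq hqN c hc h => Hg V q (by omega) hVN hq hqN c hc α h) q hq c hcop hqV hτ
    rw [← hτd] at h1 h2
    have h3 : ‖FF f (b ^ k) (b ^ (k + 1)) r‖ * ‖FF g (b ^ k) (b ^ (k + 1)) r‖ ≤ 16 * Φ ^ 2 * (1 / τ) := by
      have hs : √τ * √τ = τ := Real.mul_self_sqrt hτ0.le
      have hs0 : 0 < √τ := Real.sqrt_pos.2 hτ0
      calc _ ≤ (Φ * (4 / √τ)) * (Φ * (4 / √τ)) := mul_le_mul h1 h2 (norm_nonneg _) (by positivity)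
        _ = 16 * Φ ^ 2 * (1 / (√τ * √τ)) := by field_simp; ring
        _ = _ := by rw [hs]
    refine h3.trans (mul_le_mul_of_nonneg_left ?_ (by positivity))
    obtain ⟨i₁, i₂, i₃, a1, a2, a3, a4, a5⟩ := scale_of b k m hb r q c hq hcop hqV hτ
    have h4 : 1 / τ ≤ 2 * (b : ℝ) ^ 3 / (b : ℝ) ^ (i₁ + i₂ + i₃) := by
      rw [div_le_div_iff₀ hτ0 (by positivity), one_mul]
      exact a5
    refine h4.trans ?_
    have hlarge : h ≤ i₁ ∨ h ≤ i₂ ∨ h ≤ i₃ := by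
      by_contra hcon
      push Not at hcon
      exact hr ⟨i₁, i₂, i₃, by omega, by omega, by omega, a4⟩
    have h5 := single_le_sum (f := fun i : ℕ × ℕ × ℕ => (if InScale b k (b * m) i.1 i.2.1 i.2.2 r then
      2 * (b : ℝ) ^ 3 / (b : ℝ) ^ (i.1 + i.2.1 + i.2.2) else 0)) (fun i _ => hnn i)
      ((mem_TL m h i₁ i₂ i₃).2 ⟨⟨a1, a2, a3⟩, hlarge⟩)
    simp only at h5
    rw [if_pos a4] at h5
    have h6 : 0 ≤ 1 / (b : ℝ) ^ m := by positivity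
    unfold wt
    linarith
  · -- minor arcs
    have hqN' : q ≤ b ^ k := (Nat.le_mul_of_pos_right _ (by omega)).trans hqN
    have h1 := minor_of (b ^ k) V hV4 ‖FF f (b ^ k) (b ^ (k + 1)) r‖ Φ hΦ q hqV hqN
      (Hf V q (by omega) hVN hq hqN' c hcop α happ)
    have h2 := minor_of (b ^ k) V hV4 ‖FF g (b ^ k) (b ^ (k + 1)) r‖ Φ hΦ q hqV hqN
      (Hg V q (by omega) hVN hq hqN' c hcop α happ)
    have h3 : ‖FF f (b ^ k) (b ^ (k + 1)) r‖ * ‖FF g (b ^ k) (b ^ (k + 1)) r‖ ≤ 16 * Φ ^ 2 * (1 / (V : ℝ)) := by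
      have hs : √(V : ℝ) * √(V : ℝ) = V := Real.mul_self_sqrt hV0.le
      have hs0 : 0 < √(V : ℝ) := Real.sqrt_pos.2 hV0
      calc _ ≤ (Φ * (4 / √(V : ℝ))) * (Φ * (4 / √(V : ℝ))) := mul_le_mul h1 h2 (norm_nonneg _) (by positivity)
        _ = 16 * Φ ^ 2 * (1 / (√(V : ℝ) * √(V : ℝ))) := by field_simp; ring
        _ = _ := by rw [hs]
    refine h3.trans (mul_le_mul_of_nonneg_left ?_ (by positivity))
    refine le_trans (le_of_eq ?_) hw1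
    rw [hV]
    push_cast
    rfl

/-- multiplying a frequency by a small number -/
lemma InScale_mul (b e₀ k v i₁ i₂ i₃ r μ : ℕ) (hμ : 1 ≤ μ) (hμb : μ ≤ b ^ e₀) (h : InScale b k v i₁ i₂ i₃ r) :
    InScale b k v i₁ i₂ (i₃ + e₀) ((μ * r) % b ^ (k + 1)) := by
  obtain ⟨q₁, q₂, c, h1, h2, h3, h4, h5, h6, h7⟩ := h
  have hg0 : 0 < Nat.gcd μ q₂ := Nat.gcd_pos_of_pos_left _ hμ
  obtain ⟨μ', hμ'⟩ : Nat.gcd μ q₂ ∣ μ := Nat.gcd_dvd_left _ _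
  obtain ⟨q', hq'⟩ : Nat.gcd μ q₂ ∣ q₂ := Nat.gcd_dvd_right _ _
  have hcop' : μ'.Coprime q' := by
    have e1 : Nat.gcd (Nat.gcd μ q₂ * μ') (Nat.gcd μ q₂ * q') = Nat.gcd μ q₂ := by rw [← hμ', ← hq']
    rw [Nat.gcd_mul_left] at e1
    exact Nat.eq_of_mul_eq_mul_left hg0 (by rw [e1, mul_one])
  set g := Nat.gcd μ q₂ with hg
  have hq'0 : 1 ≤ q' := by
    rcases Nat.eq_zero_or_pos q' with h0 | h0
    · rw [h0, mul_zero] at hq'; omega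
    · exact h0
  have hq'd : q' ∣ q₂ := ⟨g, by rw [mul_comm]; exact hq'⟩
  have hdm := Nat.div_add_mod (μ * r) (b ^ (k + 1))
  set e := (μ * r) / b ^ (k + 1) with he
  set x := (μ * r) % b ^ (k + 1) with hx
  have hdz : (b : ℤ) ^ (k + 1) * e + x = μ * r := by exact_mod_cast hdm
  refine ⟨q₁, q', μ' * c - e * (q₁ * q'), h1, h2, hq'0, (Nat.le_of_dvd (by omega) hq'd).trans h4,
    Nat.Coprime.coprime_dvd_left hq'd h5, ?_, ?_⟩
  · have a1 : IsCoprime ((μ' : ℤ) * c) (q' : ℤ) := by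
      apply IsCoprime.mul_left hcop'.isCoprime
      exact h6.of_isCoprime_of_dvd_right (Int.natCast_dvd_natCast.2 hq'd)
    have a2 : (μ' : ℤ) * c - e * (q₁ * q') = μ' * c + (q' : ℤ) * (-(e * q₁)) := by ring
    rw [a2]
    exact a1.add_mul_left_left _
  · have a1 : (x : ℤ) * (q₁ * q') - (μ' * c - e * (q₁ * q')) * (b : ℤ) ^ (k + 1) = μ' * ((r : ℤ) * (q₁ * q₂) - c * (b : ℤ) ^ (k + 1)) := by
      have b1 : (μ : ℤ) = g * μ' := by exact_mod_cast hμ'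
      have b2 : (q₂ : ℤ) = g * q' := by exact_mod_cast hq'
      rw [b2]
      rw [b1] at hdz
      linear_combination (q₁ : ℤ) * q' * hdz
    rw [a1, abs_mul, abs_of_nonneg (Int.natCast_nonneg μ')]
    have b2 : (q₂ : ℤ) = g * q' := by exact_mod_cast hq'
    have b1 : (μ : ℤ) = g * μ' := by exact_mod_cast hμ'
    have b3 : (μ : ℤ) ≤ (b : ℤ) ^ e₀ := by exact_mod_cast hμb
    calc (μ' : ℤ) * |(r : ℤ) * (q₁ * q₂) - c * (b : ℤ) ^ (k + 1)| ≤ μ' * (q₁ * q₂ * (b : ℤ) ^ (i₃ + 1)) :=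
          mul_le_mul_of_nonneg_left h7 (Int.natCast_nonneg _)
      _ = μ * (q₁ * q' * (b : ℤ) ^ (i₃ + 1)) := by rw [b2, b1]; ring
      _ ≤ (b : ℤ) ^ e₀ * (q₁ * q' * (b : ℤ) ^ (i₃ + 1)) := mul_le_mul_of_nonneg_right b3 (by positivity)
      _ = _ := by ring

lemma mul_card (M μ : ℕ) (hμ : 1 ≤ μ) (S : Finset ℕ) (hS : ∀ r ∈ S, r < M) :
    S.card ≤ (S.image (fun r => (μ * r) % M)).card * μ := by
  have h1 : S.card ≤ ((S.image (fun r => (μ * r) % M)) ×ˢ (range μ)).card := by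
    apply card_le_card_of_injOn (fun r => ((μ * r) % M, (μ * r) / M))
    · intro r hr
      have hr' := mem_coe.1 hr
      rw [mem_coe, mem_product, mem_range]
      refine ⟨mem_image_of_mem _ hr', ?_⟩
      change (μ * r) / M < μ
      apply Nat.div_lt_of_lt_mul
      rw [mul_comm]
      exact Nat.mul_lt_mul_of_pos_right (hS r hr') hμ
    · intro r hr r' hr' heq
      simp only [Prod.mk.injEq] at heq
      have h2 : μ * r = μ * r' := by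
        rw [← Nat.div_add_mod (μ * r) M, ← Nat.div_add_mod (μ * r') M, heq.1, heq.2]
      exact Nat.eq_of_mul_eq_mul_left hμ h2
  rwa [card_product, card_range] at h1

/-- the sum of the weights over the nearly extremal frequencies -/
lemma wt_sum (b : ℕ) (hb : 2 ≤ b) : ∃ R : ℕ, 1 ≤ R ∧ ∀ e₀ : ℕ, ∃ C : ℕ, ∀ (k m h r₀ μ : ℕ), m = k / (16 * b) →
    15 + 4 * e₀ ≤ k → m + e₀ + h + 3 ≤ k →
    1 ≤ μ → μ ≤ b ^ e₀ →
    ∀ S : Finset ℕ, (∀ r ∈ S, r < b ^ (k + 1) ∧ Bad b R k h m ((μ * r + r₀) % b ^ (k + 1))) →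
    ∑ r ∈ S, wt b k m h r ≤ (b : ℝ) ^ (e₀ + 2) / 2 ^ (m / 2) + C * (k : ℝ) ^ (b + 4) / (b : ℝ) ^ (h / 2) := by
  classical
  obtain ⟨R, C, hR, hC, hent, hcount⟩ := count_all b hb (128 * b) (by omega)
  refine ⟨R, hR, fun e₀ => ⟨2 * b ^ (3 + 2 * e₀) * C, fun k m h r₀ μ hm hk9 hmk hμ hμb S hS => ?_⟩⟩
  have hbn : 0 < b := by omega
  have hbr : (2 : ℝ) ≤ b := by exact_mod_cast hb
  have hb0 : (0 : ℝ) < b := by linarith
  have hMpos : 0 < b ^ (k + 1) := Nat.pow_pos hbn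
  obtain ⟨v, hv⟩ : ∃ v, v = b * m := ⟨_, rfl⟩
  have h16 : 16 * v ≤ k := by
    have := Nat.mul_div_le k (16 * b)
    rw [← hm] at this
    calc 16 * v = 16 * b * m := by rw [hv]; ring
      _ ≤ k := this
  have h2m : 2 * m ≤ v := by rw [hv]; exact Nat.mul_le_mul_right _ hb
  -- the images
  have himg : ∀ r ∈ S, (μ * r) % b ^ (k + 1) < b ^ (k + 1) ∧
      Bad b R k h m (((μ * r) % b ^ (k + 1) + r₀) % b ^ (k + 1)) := by
    intro r hr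
    refine ⟨Nat.mod_lt _ hMpos, ?_⟩
    rw [Nat.mod_add_mod]
    exact (hS r hr).2
  unfold wt
  rw [sum_add_distrib, sum_const, nsmul_eq_mul, sum_comm]
  apply add_le_add
  · have h0 := mul_card (b ^ (k + 1)) μ hμ S (fun r hr => (hS r hr).1)
    have h1 := bad_card b R (128 * b) k (m / 8) r₀ hb hR hent (by omega) (S.image (fun r => (μ * r) % b ^ (k + 1))) (by
      intro x hx
      obtain ⟨r, hr, rfl⟩ := mem_image.1 hx
      exact ⟨(himg r hr).1, (himg r hr).2.2.2⟩)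
    have h2 : k / (128 * b) = m / 8 := by
      rw [hm, Nat.div_div_eq_div_mul]
      congr 1
      ring
    rw [h2] at h1
    have h3 : (S.card : ℝ) ≤ (b : ℝ) ^ (2 * (m / 8) + m / 8 + 2) * (b : ℝ) ^ e₀ := by
      have : S.card ≤ b ^ (2 * (m / 8) + m / 8 + 2) * b ^ e₀ := h0.trans (Nat.mul_le_mul h1 hμb)
      exact_mod_cast this
    rw [mul_one_div, div_le_div_iff₀ (by positivity) (by positivity)]
    calc (S.card : ℝ) * 2 ^ (m / 2) ≤ ((b : ℝ) ^ (2 * (m / 8) + m / 8 + 2) * (b : ℝ) ^ e₀) * (b : ℝ) ^ (m / 2) := by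
          apply mul_le_mul h3 (pow_le_pow_left₀ (by norm_num) hbr _) (by positivity) (by positivity)
      _ = (b : ℝ) ^ (e₀ + 2 + (2 * (m / 8) + m / 8 + m / 2)) := by rw [← pow_add, ← pow_add]; congr 1; ring
      _ ≤ (b : ℝ) ^ (e₀ + 2 + m) := pow_le_pow_right₀ (by linarith) (by omega)
      _ = _ := by rw [pow_add]
  · have h1 : ∀ i ∈ TL m h, ∑ r ∈ S, (if InScale b k (b * m) i.1 i.2.1 i.2.2 r then 2 * (b : ℝ) ^ 3 / (b : ℝ) ^ (i.1 + i.2.1 + i.2.2) else 0) ≤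
        2 * (b : ℝ) ^ (3 + 2 * e₀) * C * (k : ℝ) ^ (b + 1) / (b : ℝ) ^ (h / 2) := by
      intro i hi
      obtain ⟨i₁, i₂, i₃⟩ := i
      rw [mem_TL] at hi
      obtain ⟨⟨hi1, hi2, hi3⟩, hlarge⟩ := hi
      simp only
      rw [← sum_filter, sum_const, nsmul_eq_mul]
      have hnbl : (k - (m + e₀ + 2) - v) / (2 * i₂ + 1) * (2 * i₂ + 1) ≤ k - (m + e₀ + 2) - v := Nat.div_mul_le_self _ _
      have hnbl2 : k - (m + e₀ + 2) - v < (k - (m + e₀ + 2) - v) / (2 * i₂ + 1) * (2 * i₂ + 1) + (2 * i₂ + 1) :=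
        Nat.lt_div_mul_add (by omega)
      have hnb : (k - (m + e₀ + 2) - v) / (2 * i₂ + 1) ≤ k := (Nat.div_le_self _ _).trans (by omega)
      set S' := S.filter (fun r => InScale b k (b * m) i₁ i₂ i₃ r) with hS'
      have key := hcount k (m + e₀) v h r₀ (by omega) (by omega) (by omega) i₁ i₂ (i₃ + e₀) (by omega) (by omega) (by omega)
        (by omega)
        ((k - (m + e₀ + 2) - v) / (2 * i₂ + 1)) hnb (fun n => (m + e₀ + 2) + n * (2 * i₂ + 1)) (by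
          intro n hn
          have h2 : (n + 1) * (2 * i₂ + 1) ≤ (k - (m + e₀ + 2) - v) / (2 * i₂ + 1) * (2 * i₂ + 1) := Nat.mul_le_mul_right _ hn
          rw [add_mul, one_mul] at h2
          constructor
          · omega
          · omega) (S'.image (fun r => (μ * r) % b ^ (k + 1))) (by
          intro x hx
          obtain ⟨r, hr, rfl⟩ := mem_image.1 hx
          rw [hS', mem_filter] at hr
          obtain ⟨hrS, hsc⟩ := hr
          obtain ⟨hr1, hr2⟩ := himg r hrS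
          refine ⟨hr1, ?_, ?_, hr2.1, hr2.2.1⟩
          · rw [hv]; exact InScale_mul b e₀ k (b * m) i₁ i₂ i₃ r μ hμ hμb hsc
          · exact block_ex b R k (m + e₀ + 2) (2 * i₂ + 1) ((k - (m + e₀ + 2) - v) / (2 * i₂ + 1)) (m / 8) (k - 2 * (m / 8)) _
              (by omega) (by omega) (by omega) (by omega) (by omega) hr2.2.2)
      have h0 := mul_card (b ^ (k + 1)) μ hμ S' (fun r hr => (hS r (mem_filter.1 hr).1).1)
      have key2 : S'.card * b ^ (h / 2) ≤ (C * k ^ (b + 1) * b ^ (i₁ + i₂ + (i₃ + e₀))) * b ^ e₀ := by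
        calc S'.card * b ^ (h / 2) ≤ ((S'.image (fun r => (μ * r) % b ^ (k + 1))).card * μ) * b ^ (h / 2) :=
              Nat.mul_le_mul_right _ h0
          _ = ((S'.image (fun r => (μ * r) % b ^ (k + 1))).card * b ^ (h / 2)) * μ := by ring
          _ ≤ _ := Nat.mul_le_mul key hμb
      have h2 : (S'.card : ℝ) * (b : ℝ) ^ (h / 2) ≤
          C * (k : ℝ) ^ (b + 1) * (b : ℝ) ^ (i₁ + i₂ + i₃) * (b : ℝ) ^ (2 * e₀) := by
        have h3 : (S'.card : ℝ) * (b : ℝ) ^ (h / 2) ≤ (C * (k : ℝ) ^ (b + 1) * (b : ℝ) ^ (i₁ + i₂ + (i₃ + e₀))) * (b : ℝ) ^ e₀ := by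
          exact_mod_cast key2
        refine h3.trans (le_of_eq ?_)
        rw [← add_assoc, pow_add (b : ℝ) (i₁ + i₂ + i₃), two_mul, pow_add]
        ring
      rw [le_div_iff₀ (by positivity)]
      calc (S'.card : ℝ) * (2 * (b : ℝ) ^ 3 / (b : ℝ) ^ (i₁ + i₂ + i₃)) *
            (b : ℝ) ^ (h / 2) = (2 * (b : ℝ) ^ 3 / (b : ℝ) ^ (i₁ + i₂ + i₃)) *
            ((S'.card : ℝ) * (b : ℝ) ^ (h / 2)) := by ring
        _ ≤ (2 * (b : ℝ) ^ 3 / (b : ℝ) ^ (i₁ + i₂ + i₃)) * (C * (k : ℝ) ^ (b + 1) * (b : ℝ) ^ (i₁ + i₂ + i₃) * (b : ℝ) ^ (2 * e₀)) :=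
            mul_le_mul_of_nonneg_left h2 (by positivity)
        _ = _ := by rw [pow_add (b : ℝ) 3]; field_simp
    refine (sum_le_sum h1).trans ?_
    rw [sum_const, nsmul_eq_mul]
    have h2 : (((TL m h).card : ℕ) : ℝ) ≤ (k : ℝ) ^ 3 := by
      have h3 : (TL m h).card ≤ k ^ 3 := by
        refine (card_filter_le _ _).trans ?_
        rw [card_product, card_product, card_range]
        calc (m + 1) * ((m + 1) * (m + 1)) = (m + 1) ^ 3 := by ring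
          _ ≤ k ^ 3 := Nat.pow_le_pow_left (by omega) 3
      exact_mod_cast h3
    calc _ ≤ (k : ℝ) ^ 3 * (2 * (b : ℝ) ^ (3 + 2 * e₀) * C * (k : ℝ) ^ (b + 1) / (b : ℝ) ^ (h / 2)) :=
          mul_le_mul_of_nonneg_right h2 (by positivity)
      _ = _ := by
          push_cast
          ring

end Pool.Agent.W93.DG
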