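import Pool.Agent.W93.DC7

set_option autoImplicit false

/-! The sum over the nearly extremal frequencies. -/

namespace Pool.Agent.W93.DG
open Finset
open Pool.Agent.H807R2.Dav
open Pool.Agent.H373R2.T7

/-- elementary facts about `log (b ^ k)` -/
lemma logX (b k : ℕ) (hb : 2 ≤ b) : (k : ℝ) / 2 ≤ Real.log ((b ^ k : ℕ) : ℝ) ∧ Real.log ((b ^ k : ℕ) : ℝ) ≤ b * k := by
  have hbr : (2 : ℝ) ≤ b := by exact_mod_cast hb
  have hk0 : (0 : ℝ) ≤ k := Nat.cast_nonneg _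
  push_cast
  rw [Real.log_pow]
  constructor
  · have h1 : 1 / 2 ≤ Real.log b := by
      have := Real.log_two_gt_d9
      have := Real.log_le_log (by norm_num) hbr
      linarith
    nlinarith
  · have h1 : Real.log b ≤ b := by
      have := Real.log_le_sub_one_of_pos (show (0 : ℝ) < b by linarith)
      linarith
    nlinarith

/-- the length of the short windows -/
def hh (b A k : ℕ) : ℕ := 2 * A * (Nat.log b k + 1)

lemma hh_half (b A k : ℕ) (hb : 2 ≤ b) (hk : 1 ≤ k) : (k : ℝ) ^ A ≤ (b : ℝ) ^ (hh b A k / 2) := by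
  have h1 : hh b A k / 2 = (Nat.log b k + 1) * A := by
    unfold hh
    rw [mul_assoc, Nat.mul_div_cancel_left _ (by norm_num)]
    ring
  rw [h1, pow_mul]
  apply pow_le_pow_left₀ (Nat.cast_nonneg _)
  have := Nat.lt_pow_succ_log_self (b := b) (by omega) k
  exact_mod_cast this.le

lemma hh_up (b A k : ℕ) (hk : 1 ≤ k) : (b : ℝ) ^ hh b A k ≤ ((b : ℝ) * k) ^ (2 * A) := by
  unfold hh
  rw [mul_comm (2 * A), pow_mul]
  apply pow_le_pow_left₀ (by positivity)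
  have := Nat.pow_log_le_self b (show k ≠ 0 by omega)
  have h1 : b ^ (Nat.log b k + 1) ≤ b * k := by
    rw [pow_succ']
    exact Nat.mul_le_mul_left _ this
  exact_mod_cast h1

lemma hh_small (b A c : ℕ) (hb : 2 ≤ b) : ∃ k₀ : ℕ, ∀ k : ℕ, k₀ ≤ k → c * hh b A k ≤ k := by
  obtain ⟨y0, h0⟩ := poly_exp 1 (c * (2 * A))
  refine ⟨2 ^ y0 + 1, fun k hk => ?_⟩
  have hlog : y0 ≤ Nat.log 2 k := by
    apply Nat.le_log_of_pow_le (by norm_num)
    omega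
  have h1 := h0 _ hlog
  have h2 : c * (2 * A) * (Nat.log 2 k + 1) ≤ 2 ^ Nat.log 2 k := by
    rw [pow_one] at h1
    exact_mod_cast h1
  have hk0 : k ≠ 0 := by
    have : 0 < 2 ^ y0 := by positivity
    omega
  have h3 : 2 ^ Nat.log 2 k ≤ k := Nat.pow_log_le_self 2 hk0
  have h4 : Nat.log b k ≤ Nat.log 2 k := Nat.log_anti_left (by norm_num) hb
  unfold hh
  calc c * (2 * A * (Nat.log b k + 1)) = c * (2 * A) * (Nat.log b k + 1) := by ring
    _ ≤ c * (2 * A) * (Nat.log 2 k + 1) := Nat.mul_le_mul_left _ (by omega)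
    _ ≤ k := h2.trans h3

/-- powers of `k` against powers of `2` -/
lemma half_big (b c : ℕ) (hb : 2 ≤ b) : ∃ k₀ : ℕ, ∀ k : ℕ, k₀ ≤ k → (k : ℝ) ^ c ≤ 2 ^ (k / (16 * b) / 2) := by
  obtain ⟨y0, h0⟩ := poly_exp c ((32 * b : ℝ) ^ c)
  refine ⟨32 * b * y0, fun k hk => ?_⟩
  have h1 : k / (16 * b) / 2 = k / (32 * b) := by
    rw [Nat.div_div_eq_div_mul]; congr 1; ring
  have h2 : y0 ≤ k / (32 * b) := (Nat.le_div_iff_mul_le (by omega)).2 (by linarith [mul_comm y0 (32 * b)])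
  rw [h1]
  refine le_trans ?_ (h0 _ h2)
  rw [← mul_pow]
  apply pow_le_pow_left₀ (Nat.cast_nonneg _)
  have h3 : k < 32 * b * (k / (32 * b) + 1) := Nat.lt_mul_div_succ k (by omega)
  exact_mod_cast h3.le

lemma part1_num (b k X M L c : ℝ) (U U' A h : ℕ) (hb : 0 < b) (hk : 0 < k) (hX : 0 < X) (hXM : X ≤ M) (hL : k / 2 ≤ L)
    (hU : U' = U + 2 + 10 * A) (hc : c ≤ b ^ (5 * h + 8)) (hh : b ^ h ≤ (b * k) ^ (2 * A)) :
    c * (6 * X * (X / L ^ U')) ≤ 6 * b ^ 8 * b ^ (10 * A) * 2 ^ U' * (M * X / k ^ (U + 2)) := by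
  have hL0 : 0 < L := by linarith
  have hM0 : 0 < M := by linarith
  have e3 : b ^ (5 * h + 8) ≤ (b * k) ^ (10 * A) * b ^ 8 := by
    rw [pow_add, mul_comm 5 h, pow_mul]
    apply mul_le_mul_of_nonneg_right _ (by positivity)
    calc (b ^ h) ^ 5 ≤ ((b * k) ^ (2 * A)) ^ 5 := pow_le_pow_left₀ (by positivity) hh 5
      _ = _ := by rw [← pow_mul]; congr 1; ring
  have e4 : 1 / L ^ U' ≤ 2 ^ U' / k ^ U' := by
    rw [← div_pow, ← one_div_pow]
    apply pow_le_pow_left₀ (by positivity)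
    rw [div_le_div_iff₀ hL0 hk]
    linarith
  have e5 : k ^ U' = k ^ (U + 2) * k ^ (10 * A) := by
    rw [← pow_add, hU]
  have e6 : k ^ (10 * A) / k ^ U' = 1 / k ^ (U + 2) := by
    rw [e5, div_mul_cancel_right₀ (by positivity), one_div]
  calc c * (6 * X * (X / L ^ U')) = c * (6 * X * (X * (1 / L ^ U'))) := by ring
    _ ≤ ((b * k) ^ (10 * A) * b ^ 8) * (6 * X * (M * (2 ^ U' / k ^ U'))) := by
        apply mul_le_mul (hc.trans e3) _ (by positivity) (by positivity)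
        apply mul_le_mul_of_nonneg_left _ (by positivity)
        exact mul_le_mul hXM e4 (by positivity) (by positivity)
    _ = 6 * b ^ 8 * b ^ (10 * A) * 2 ^ U' * (M * X) * (k ^ (10 * A) / k ^ U') := by
        rw [mul_pow]; ring
    _ = _ := by rw [e6]; ring

lemma part2_num (c b k X M L D S' : ℝ) (U : ℕ) (hc : 0 ≤ c) (hb : 0 < b) (hk : 0 < k) (hX : 0 < X) (hXM : X ≤ M) (hL0 : 0 ≤ L)
    (hL : L ≤ b * k) (hD : 0 ≤ D) (hS : S' ≤ D / k ^ (U + 16)) :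
    16 * (c * L ^ 7 * X) ^ 2 * S' ≤ 16 * c ^ 2 * b ^ 14 * D * (M * X / k ^ (U + 2)) := by
  have hM0 : 0 < M := by linarith
  have e4 : (c * L ^ 7 * X) ^ 2 ≤ c ^ 2 * (b * k) ^ 14 * (M * X) := by
    have e0 : L ^ 14 ≤ (b * k) ^ 14 := pow_le_pow_left₀ hL0 hL 14
    calc (c * L ^ 7 * X) ^ 2 = c ^ 2 * L ^ 14 * (X * X) := by ring
      _ ≤ c ^ 2 * (b * k) ^ 14 * (M * X) := by
          apply mul_le_mul
          · exact mul_le_mul_of_nonneg_left e0 (by positivity)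
          · exact mul_le_mul_of_nonneg_right hXM hX.le
          · positivity
          · positivity
  have e5 : k ^ (U + 16) = k ^ (U + 2) * k ^ 14 := by rw [← pow_add]
  have e6 : k ^ 14 / k ^ (U + 16) = 1 / k ^ (U + 2) := by
    rw [e5, div_mul_cancel_right₀ (by positivity), one_div]
  have e7 : 0 ≤ D / k ^ (U + 16) := by positivity
  calc 16 * (c * L ^ 7 * X) ^ 2 * S' ≤ 16 * (c * L ^ 7 * X) ^ 2 * (D / k ^ (U + 16)) :=
        mul_le_mul_of_nonneg_left hS (by positivity)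
    _ ≤ 16 * (c ^ 2 * (b * k) ^ 14 * (M * X)) * (D / k ^ (U + 16)) := by
        apply mul_le_mul_of_nonneg_right _ e7
        exact mul_le_mul_of_nonneg_left e4 (by norm_num)
    _ = 16 * c ^ 2 * b ^ 14 * D * (M * X) * (k ^ 14 / k ^ (U + 16)) := by rw [mul_pow]; ring
    _ = _ := by rw [e6]; ring

lemma part3_num (k X M L a a2 : ℝ) (U : ℕ) (hk : 0 < k) (hX : 0 < X) (hM : 0 < M) (hL : k / 2 ≤ L)
    (ha : a ≤ 6 * X * L) (ha2 : a2 ≤ X / L ^ (2 * U + 5)) (ha20 : 0 ≤ a2) :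
    √(M * a) * √(M * a2) ≤ 3 * 2 ^ (U + 2) * (M * X / k ^ (U + 2)) := by
  have hL0 : 0 < L := by linarith
  have e3 : √(M * a) * √(M * a2) ≤ 3 * (M * X / L ^ (U + 2)) := by
    have e0 : √(M * a) * √(M * a2) ≤ √(M * (6 * X * L)) * √(M * (X / L ^ (2 * U + 5))) := by
      apply mul_le_mul _ _ (Real.sqrt_nonneg _) (Real.sqrt_nonneg _)
      · exact Real.sqrt_le_sqrt (mul_le_mul_of_nonneg_left ha hM.le)
      · exact Real.sqrt_le_sqrt (mul_le_mul_of_nonneg_left ha2 hM.le)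
    refine e0.trans ?_
    rw [← Real.sqrt_mul (by positivity)]
    rw [Real.sqrt_le_left (by positivity)]
    have e5 : L ^ (2 * U + 5) = L * (L ^ (U + 2)) ^ 2 := by
      rw [← pow_mul, ← pow_succ']
      congr 1
      ring
    have e6 : M * (6 * X * L) * (M * (X / L ^ (2 * U + 5))) = 6 * (M * X / L ^ (U + 2)) ^ 2 := by
      rw [e5]
      have : L ^ (U + 2) ≠ 0 := by positivity
      field_simp
    rw [e6, mul_pow]
    have : 0 ≤ (M * X / L ^ (U + 2)) ^ 2 := by positivity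
    linarith
  have e4 : 1 / L ^ (U + 2) ≤ 2 ^ (U + 2) / k ^ (U + 2) := by
    rw [← div_pow, ← one_div_pow]
    apply pow_le_pow_left₀ (by positivity)
    rw [div_le_div_iff₀ hL0 hk]
    linarith
  calc _ ≤ 3 * (M * X / L ^ (U + 2)) := e3
    _ = 3 * (M * X) * (1 / L ^ (U + 2)) := by ring
    _ ≤ 3 * (M * X) * (2 ^ (U + 2) / k ^ (U + 2)) := mul_le_mul_of_nonneg_left e4 (by positivity)
    _ = _ := by ring

lemma e2_num (b D C k : ℝ) (B A U m h : ℕ) (hb : 0 < b) (hD : 0 ≤ D) (hC : 0 ≤ C) (hk : 1 ≤ k) (h1 : k ^ (U + 16) ≤ 2 ^ m) (h2 : k ^ A ≤ b ^ h)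
    (hA : B + 4 + (U + 16) ≤ A) :
    D / 2 ^ m + C * k ^ (B + 4) / b ^ h ≤ (D + C) / k ^ (U + 16) := by
  have hk0 : 0 < k := by linarith
  rw [add_div]
  apply add_le_add
  · exact div_le_div_of_nonneg_left (by positivity) (by positivity) h1
  · calc C * k ^ (B + 4) / b ^ h ≤ C * k ^ (B + 4) / k ^ A :=
          div_le_div_of_nonneg_left (by positivity) (by positivity) h2
      _ ≤ C * k ^ (B + 4) / k ^ ((B + 4) + (U + 16)) := by
          apply div_le_div_of_nonneg_left (by positivity) (by positivity)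
          exact pow_le_pow_right₀ hk hA
      _ = _ := by
          rw [pow_add k (B + 4)]
          have : k ^ (B + 4) ≠ 0 := by positivity
          field_simp

lemma fin_num (k C Y : ℝ) (U : ℕ) (hk : 1 ≤ k) (hC : C ≤ k) (hY : 0 ≤ Y) : C * (Y / k ^ (U + 2)) ≤ Y / k ^ U := by
  have hk0 : 0 < k := by linarith
  have e1 : C ≤ k ^ 2 := by nlinarith
  have e2 : 0 ≤ Y / k ^ (U + 2) := by positivity
  calc C * (Y / k ^ (U + 2)) ≤ k ^ 2 * (Y / k ^ (U + 2)) := mul_le_mul_of_nonneg_right e1 e2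
    _ = Y / k ^ U := by
        have : k ^ U ≠ 0 := by positivity
        rw [pow_add]; field_simp

theorem bad_sum (b : ℕ) (hb : 2 ≤ b) : ∃ R : ℕ, 1 ≤ R ∧ ∀ e₀ U : ℕ, ∃ A B : ℕ, U ≤ A ∧ ∀ Ez : ℕ, ∃ k₀ : ℕ, ∀ k : ℕ, k₀ ≤ k →
    ∀ z : ℕ, Real.log ((b ^ k : ℕ) : ℝ) ^ B ≤ z → (z : ℝ) ≤ Real.log ((b ^ k : ℕ) : ℝ) ^ Ez → ∀ r₀ μ : ℕ, 1 ≤ μ → μ ≤ b ^ e₀ →
    ∀ S : Finset ℕ,
    (∀ r ∈ S, r < b ^ (k + 1) ∧ Bad b R k (hh b A k) (k / (16 * b)) ((μ * r + r₀) % b ^ (k + 1))) →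
    ∑ r ∈ S, ‖FF (fun n => ArithmeticFunction.vonMangoldt n) (b ^ k) (b ^ (k + 1)) r‖ *
      ‖FF (fun n => ArithmeticFunction.vonMangoldt n - lamz z n) (b ^ k) (b ^ (k + 1)) r‖ ≤
      ((b ^ (k + 1) : ℕ) : ℝ) * ((b ^ k : ℕ) : ℝ) / (k : ℝ) ^ U := by
  classical
  obtain ⟨R, hR, hwt⟩ := wt_sum b hb
  refine ⟨R, hR, fun e₀ U => ?_⟩
  obtain ⟨C, hwt⟩ := hwt e₀
  set A := U + b + 22 with hA
  set U' := U + 10 * A + 2 with hU'
  set U'' := 2 * U + 5 with hU''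
  obtain ⟨B, hsup⟩ := sup_diff U'
  refine ⟨A, B, by omega, fun Ez => ?_⟩
  obtain ⟨n1, h1⟩ := hsup Ez
  obtain ⟨n2, h2⟩ := model Ez U''
  obtain ⟨n3, h3⟩ := minor_quant
  obtain ⟨k4, h4⟩ := hh_small b A 4 hb
  obtain ⟨k5, h5⟩ := half_big b (U + 16) hb
  have hbr : (2 : ℝ) ≤ b := by exact_mod_cast hb
  have hb0 : (0 : ℝ) < b := by linarith
  have hbn : 0 < b := by omega
  set C2 : ℝ := 16 * 200000 ^ 2 * (b : ℝ) ^ 14 * ((b : ℝ) ^ (e₀ + 2) + C) with hC2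
  set C3 : ℝ := 6 * (b : ℝ) ^ 8 * (b : ℝ) ^ (10 * A) * 2 ^ U' with hC3
  set C4 : ℝ := 3 * 2 ^ (U + 2) with hC4
  have hC20 : 0 ≤ C2 := by positivity
  have hC30 : 0 ≤ C3 := by positivity
  have hC40 : 0 ≤ C4 := by positivity
  obtain ⟨k6, hk6⟩ := exists_nat_ge (C2 + C3 + C4)
  refine ⟨n1 + n2 + n3 + k4 + k5 + k6 + 48 * b + 4 * e₀ + 15, fun k hk z hz1 hz2 r₀ μ hμ1 hμb S hS => ?_⟩
  set X := b ^ k with hX
  set M := b ^ (k + 1) with hM
  have hkX : k < X := Nat.lt_pow_self (by omega)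
  have hX1 : 1 ≤ X := Nat.pow_pos hbn
  have hM1 : 1 ≤ M := Nat.pow_pos hbn
  have hXM : X ≤ M := Nat.pow_le_pow_right hbn (by omega)
  have hk1 : 1 ≤ k := by omega
  have hkr : (1 : ℝ) ≤ k := by exact_mod_cast hk1
  have hk0 : (0 : ℝ) < k := by linarith
  have hX0 : (0 : ℝ) < X := by exact_mod_cast hX1
  have hXMr : (X : ℝ) ≤ M := by exact_mod_cast hXM
  have hM0 : (0 : ℝ) < M := by exact_mod_cast hM1
  obtain ⟨hL1, hL2⟩ := logX b k hb
  rw [← hX] at hL1 hL2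
  set L := Real.log (X : ℝ) with hL
  have hL0 : 0 < L := by linarith
  have hLge1 : 1 ≤ L := by
    have : (2 : ℝ) ≤ k := by exact_mod_cast (by omega : 2 ≤ k)
    linarith
  have hz : 1 ≤ z := by
    have : (1 : ℝ) ≤ z := (one_le_pow₀ hLge1).trans hz1
    exact_mod_cast this
  set m := k / (16 * b) with hm
  set h := hh b A k with hh'
  have hm2 : 2 ≤ m := (Nat.le_div_iff_mul_le (by omega)).2 (by omega)
  have hmk : 16 * b * m ≤ k := Nat.mul_div_le k (16 * b)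
  have hmk32 : 32 * m ≤ k := by
    have h7 : 16 * 2 * m ≤ 16 * b * m := Nat.mul_le_mul_right _ (Nat.mul_le_mul_left _ hb)
    omega
  have hhk : 4 * h ≤ k := h4 k (by omega)
  obtain ⟨r', hrL, hrM⟩ := h2 X (by omega) z hz hz2
  set vM : ℕ → ℝ := fun n => ArithmeticFunction.vonMangoldt n with hvM
  set f1 : ℕ → ℝ := fun n => ArithmeticFunction.vonMangoldt n - lamR z r' n with hf1
  set f2 : ℕ → ℝ := fun n => lamz z n - lamR z r' n with hf2
  set fH : ℕ → ℝ := fun n => ArithmeticFunction.vonMangoldt n - lamz z n with hfH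
  set Φ : ℝ := 200000 * L ^ 7 * X with hΦ
  have hΦ0 : 0 ≤ Φ := by positivity
  set PL : ℕ → Prop := fun r => ∃ i₁ i₂ i₃ : ℕ, i₁ ≤ h ∧ i₂ ≤ h ∧ i₃ ≤ h ∧ InScale b k (b * m) i₁ i₂ i₃ r with hPL
  -- the pointwise bound
  have hpt : ∀ r, ¬ PL r → ‖FF vM X M r‖ * ‖FF f1 X M r‖ ≤ 16 * Φ ^ 2 * wt b k m h r := by
    intro r hr
    apply pointwise b hb k m h hm2 (by omega) Φ hΦ0 vM f1 _ _ r hr
    · intro V q hV hVN hq hqN c hc α hα
      have := h3 X (by omega) V q hV hVN hq hqN c hc α hα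
      refine this.trans ?_
      rw [hΦ, ← hL]
      have h7 : 0 ≤ L ^ 7 * X * √(1 / (q : ℝ) + 1 / V + q / (X : ℕ)) := by positivity
      linarith
    · intro V q hV hVN hq hqN c hc α hα
      have := hrM V q hV hVN hq hqN c hc α hα
      refine this.trans (le_of_eq ?_)
      rw [hΦ, ← hL]
      ring
  -- splitting
  have hsplit : ∑ r ∈ S, ‖FF vM X M r‖ * ‖FF fH X M r‖ =
      ∑ r ∈ S.filter PL, ‖FF vM X M r‖ * ‖FF fH X M r‖ + ∑ r ∈ S.filter (fun r => ¬ PL r), ‖FF vM X M r‖ * ‖FF fH X M r‖ :=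
    (sum_filter_add_sum_filter_not S PL _).symm
  -- small scales
  have hpart1 : ∑ r ∈ S.filter PL, ‖FF vM X M r‖ * ‖FF fH X M r‖ ≤ C3 * (M * X / (k : ℝ) ^ (U + 2)) := by
    have e1 : ∀ r ∈ S.filter PL, ‖FF vM X M r‖ * ‖FF fH X M r‖ ≤ 6 * X * (X / L ^ U') := by
      intro r _
      apply mul_le_mul (FF_vM_le X M r) _ (norm_nonneg _) (by positivity)
      exact h1 X (by omega) z hz1 hz2 ((r : ℝ) / (M : ℝ))
    have e2 : ((S.filter PL).card : ℝ) ≤ (b : ℝ) ^ (5 * h + 8) := by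
      have := log_count b k (b * m) h hb (by omega) (S.filter PL) (fun r hr => by
        rw [mem_filter] at hr
        exact ⟨(hS r hr.1).1, hr.2⟩)
      exact_mod_cast this
    calc _ ≤ ∑ _r ∈ S.filter PL, 6 * (X : ℝ) * (X / L ^ U') := sum_le_sum e1
      _ = ((S.filter PL).card : ℝ) * (6 * X * (X / L ^ U')) := by rw [sum_const, nsmul_eq_mul]
      _ ≤ _ := part1_num b k X M L _ U U' A h hb0 hk0 hX0 hXMr hL1 (by rw [hU']; ring) e2 (hh_up b A k hk1)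
  -- large scales
  have hpart2 : ∑ r ∈ S.filter (fun r => ¬ PL r), ‖FF vM X M r‖ * ‖FF f1 X M r‖ ≤ C2 * (M * X / (k : ℝ) ^ (U + 2)) := by
    have e1 : ∑ r ∈ S.filter (fun r => ¬ PL r), wt b k m h r ≤
        (b : ℝ) ^ (e₀ + 2) / 2 ^ (m / 2) + C * (k : ℝ) ^ (b + 4) / (b : ℝ) ^ (h / 2) :=
      hwt k m h r₀ μ rfl (by omega) (by omega) hμ1 hμb _ (fun r hr => hS r (mem_filter.1 hr).1)
    have e2 : (b : ℝ) ^ (e₀ + 2) / 2 ^ (m / 2) + C * (k : ℝ) ^ (b + 4) / (b : ℝ) ^ (h / 2) ≤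
        ((b : ℝ) ^ (e₀ + 2) + C) / (k : ℝ) ^ (U + 16) :=
      e2_num b ((b : ℝ) ^ (e₀ + 2)) C k b A U (m / 2) (h / 2) hb0 (by positivity) (Nat.cast_nonneg _) hkr (h5 k (by omega)) (hh_half b A k hb hk1) (by omega)
    calc _ ≤ ∑ r ∈ S.filter (fun r => ¬ PL r), 16 * Φ ^ 2 * wt b k m h r :=
          sum_le_sum fun r hr => hpt r (mem_filter.1 hr).2
      _ = 16 * Φ ^ 2 * ∑ r ∈ S.filter (fun r => ¬ PL r), wt b k m h r := by rw [mul_sum]
      _ ≤ _ := part2_num 200000 b k X M L ((b : ℝ) ^ (e₀ + 2) + C) _ U (by norm_num) hb0 hk0 hX0 hXMr hL0.le hL2 (by positivity)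
          (e1.trans e2)
  -- the difference of the models
  have hpart3 : ∑ r ∈ S.filter (fun r => ¬ PL r), ‖FF vM X M r‖ * ‖FF f2 X M r‖ ≤ C4 * (M * X / (k : ℝ) ^ (U + 2)) := by
    have hsub : S.filter (fun r => ¬ PL r) ⊆ range M := by
      intro r hr
      rw [mem_range]
      exact (hS r (mem_filter.1 hr).1).1
    have e1 : ∑ r ∈ S.filter (fun r => ¬ PL r), ‖FF vM X M r‖ * ‖FF f2 X M r‖ ≤
        ∑ r ∈ range M, ‖FF vM X M r‖ * ‖FF f2 X M r‖ :=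
      sum_le_sum_of_subset_of_nonneg hsub fun _ _ _ => by positivity
    have e2 := Real.sum_mul_le_sqrt_mul_sqrt (range M) (fun r => ‖FF vM X M r‖) (fun r => ‖FF f2 X M r‖)
    rw [FF_pars vM X M hM1 hXM, FF_pars f2 X M hM1 hXM] at e2
    refine e1.trans (e2.trans ?_)
    exact part3_num k X M L _ _ U hk0 hX0 hM0 hL1 (sum_vM_sq X hX1) hrL (sum_nonneg fun _ _ => sq_nonneg _)
  have hpart4 : ∑ r ∈ S.filter (fun r => ¬ PL r), ‖FF vM X M r‖ * ‖FF fH X M r‖ ≤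
      ∑ r ∈ S.filter (fun r => ¬ PL r), ‖FF vM X M r‖ * ‖FF f1 X M r‖ +
      ∑ r ∈ S.filter (fun r => ¬ PL r), ‖FF vM X M r‖ * ‖FF f2 X M r‖ := by
    rw [← sum_add_distrib]
    apply sum_le_sum
    intro r _
    rw [← mul_add]
    apply mul_le_mul_of_nonneg_left _ (norm_nonneg _)
    have e1 : FF fH X M r = FF f1 X M r - FF f2 X M r := by
      rw [← FF_sub]
      congr 1
      ext n
      rw [hfH, hf1, hf2]
      ring
    rw [e1]
    exact norm_sub_le _ _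
  rw [hsplit]
  have hY : 0 ≤ (M : ℝ) * X / (k : ℝ) ^ (U + 2) := by positivity
  have hfin : (C2 + C3 + C4) * (M * X / (k : ℝ) ^ (U + 2)) ≤ M * X / (k : ℝ) ^ U :=
    fin_num k (C2 + C3 + C4) (M * X) U hkr (hk6.trans (by exact_mod_cast (by omega : k6 ≤ k))) (by positivity)
  linarith

end Pool.Agent.W93.DG
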