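import Pool.Agent.W93.RD2
import Pool.Agent.H373R2.T7.LamZ2
import Pool.Agent.H373R2.T7.Tuple

set_option autoImplicit false

/-! Random integers with independent digits: the second moment. -/

namespace Pool.Agent.W93.RD
open Finset
open Pool.Agent.H807R2.Dav
open Pool.Agent.H373R2.T7
open Pool.Agent.W93.DG

/-- the inverse transform, without normalisation -/
noncomputable def EE (A : ℕ → ℂ) (M : ℕ) (n : ℤ) : ℂ := ∑ r ∈ range M, A r * ee (-((n : ℝ) * ((r : ℝ) / (M : ℝ))))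

/-- the convolution -/
lemma EE_conv (f g : ℕ → ℝ) (X M : ℕ) (hX : 1 ≤ X) (hM : 2 * X ≤ M) (n : ℤ) (hn0 : 0 < n) (hn : n ≤ X) :
    EE (fun r => FF f X M r * FF g X M r) M n =
      ((M * ∑ a ∈ Icc 1 X, f a * (if 1 ≤ n - a then g (n - a).toNat else 0) : ℝ) : ℂ) := by
  unfold EE
  have h1 : ∀ r ∈ range M, FF f X M r * FF g X M r * ee (-((n : ℝ) * ((r : ℝ) / (M : ℝ)))) =
      ∑ a ∈ Icc 1 X, ∑ a' ∈ Icc 1 X, (((f a * g a' : ℝ) : ℂ)) * ee ((r : ℝ) * ((((a : ℤ) + a' - n : ℤ) : ℝ) / M)) := by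
    intro r _
    unfold FF
    rw [sum_mul_sum, sum_mul]
    apply sum_congr rfl
    intro a _
    rw [sum_mul]
    apply sum_congr rfl
    intro a' _
    have e1 : ee ((r : ℝ) * ((((a : ℤ) + a' - n : ℤ) : ℝ) / M)) = ee ((a : ℝ) * ((r : ℝ) / M)) * ee ((a' : ℝ) * ((r : ℝ) / M)) *
        ee (-((n : ℝ) * ((r : ℝ) / (M : ℝ)))) := by
      rw [← ee_add, ← ee_add]
      congr 1
      push_cast
      ring
    rw [e1]
    push_cast
    ring
  rw [sum_congr rfl h1, sum_comm]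
  have h2 : ∀ a ∈ Icc 1 X, ∑ r ∈ range M, ∑ a' ∈ Icc 1 X, (((f a * g a' : ℝ) : ℂ)) * ee ((r : ℝ) * ((((a : ℤ) + a' - n : ℤ) : ℝ) / M)) =
      ((M * (f a * (if 1 ≤ n - a then g (n - a).toNat else 0)) : ℝ) : ℂ) := by
    intro a ha
    rw [mem_Icc] at ha
    rw [sum_comm]
    have h3 : ∀ a' ∈ Icc 1 X, ∑ r ∈ range M, (((f a * g a' : ℝ) : ℂ)) * ee ((r : ℝ) * ((((a : ℤ) + a' - n : ℤ) : ℝ) / M)) =
        (((f a * g a' : ℝ) : ℂ)) * (if (M : ℤ) ∣ (a : ℤ) + a' - n then (M : ℂ) else 0) := by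
      intro a' _
      rw [← mul_sum, orth M (by omega)]
    rw [sum_congr rfl h3]
    by_cases hna : 1 ≤ n - a
    · rw [if_pos hna]
      obtain ⟨y, hy⟩ : ∃ y : ℕ, (y : ℤ) = n - a := ⟨(n - a).toNat, by omega⟩
      have hy' : (n - a).toNat = y := by omega
      rw [hy', sum_eq_single y]
      · rw [if_pos (by rw [hy]; simp)]
        push_cast
        ring
      · intro a' ha' hne
        rw [mem_Icc] at ha'
        rw [if_neg, mul_zero]
        intro hd
        have := Int.eq_zero_of_abs_lt_dvd hd (by rw [abs_lt]; constructor <;> omega)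
        omega
      · intro h
        exfalso
        apply h
        rw [mem_Icc]
        omega
    · rw [if_neg hna, mul_zero, mul_zero, Complex.ofReal_zero]
      apply sum_eq_zero
      intro a' ha'
      rw [mem_Icc] at ha'
      rw [if_neg, mul_zero]
      intro hd
      have := Int.eq_zero_of_abs_lt_dvd hd (by rw [abs_lt]; constructor <;> omega)
      omega
  rw [sum_congr rfl h2]
  push_cast
  rw [mul_sum]

/-- the second moment -/
lemma EE_var (b H e k : ℕ) (hb : 2 ≤ b) (η : ℝ) (hη : 0 < η) (w : ℕ → ℕ → ℝ) (hw0 : ∀ j < k, ∀ a, 0 ≤ w j a)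
    (hw1 : ∀ j < k, ∀ a, w j a ≤ 1 - η) (hsum : ∀ j < k, ∑ a ∈ range H, w j a = 1) (A : ℕ → ℂ) (c : ℤ) :
    ∑ d ∈ Str H k, pw w d * ‖EE A (b ^ (k + e + 1)) (c + val b d)‖ ^ 2 ≤
      ∑ r ∈ range (b ^ (k + e + 1)), ‖A r‖ * ∑ r' ∈ range (b ^ (k + e + 1)), ‖A r'‖ *
        (1 - 4 * (η / H) * ((1 / (b : ℝ) ^ 2) / H.factorial) ^ 2) ^
          ne b e k ((H.factorial * r' + H.factorial * (b ^ (k + e + 1) - r)) % b ^ (k + e + 1)) := by
  set M := b ^ (k + e + 1) with hM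
  set γ := 1 - 4 * (η / H) * ((1 / (b : ℝ) ^ 2) / H.factorial) ^ 2 with hγ
  have h1 : ∀ n : ℤ, ((‖EE A M n‖ : ℂ)) ^ 2 = ∑ r ∈ range M, ∑ r' ∈ range M, A r * (starRingEnd ℂ) (A r') *
      ee ((n : ℝ) * (((r' : ℝ) - r) / (M : ℝ))) := by
    intro n
    unfold EE
    rw [← Complex.mul_conj', map_sum, sum_mul_sum]
    apply sum_congr rfl
    intro r _
    apply sum_congr rfl
    intro r' _
    rw [map_mul, conj_ee]
    have h2 : ee ((n : ℝ) * (((r' : ℝ) - r) / (M : ℝ))) = ee (-((n : ℝ) * ((r : ℝ) / (M : ℝ)))) * ee (- -((n : ℝ) * ((r' : ℝ) / (M : ℝ)))) := by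
      rw [← ee_add]
      congr 1
      ring
    rw [h2]
    ring
  have hnn : 0 ≤ ∑ d ∈ Str H k, pw w d * ‖EE A M (c + val b d)‖ ^ 2 :=
    sum_nonneg fun d _ => mul_nonneg (pw_nonneg (H := H) w hw0 d) (sq_nonneg _)
  have h2 : ((∑ d ∈ Str H k, pw w d * ‖EE A M (c + val b d)‖ ^ 2 : ℝ) : ℂ) =
      ∑ r ∈ range M, ∑ r' ∈ range M, A r * (starRingEnd ℂ) (A r') * ee ((c : ℝ) * (((r' : ℝ) - r) / (M : ℝ))) *
        ∑ d ∈ Str H k, ((pw w d : ℝ) : ℂ) * ee ((val b d : ℝ) * (((r' : ℝ) - r) / (M : ℝ))) := by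
    push_cast
    simp only [h1, mul_sum]
    rw [sum_comm]
    apply sum_congr rfl
    intro r _
    rw [sum_comm]
    apply sum_congr rfl
    intro r' _
    apply sum_congr rfl
    intro d _
    have h3 : ee (((c + (val b d : ℤ) : ℤ) : ℝ) * (((r' : ℝ) - r) / (M : ℝ))) = ee ((c : ℝ) * (((r' : ℝ) - r) / (M : ℝ))) *
        ee ((val b d : ℝ) * (((r' : ℝ) - r) / (M : ℝ))) := by
      rw [← ee_add]
      congr 1
      push_cast
      ring
    rw [h3]
    ring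
  have h3 : ∑ d ∈ Str H k, pw w d * ‖EE A M (c + val b d)‖ ^ 2 =
      ‖((∑ d ∈ Str H k, pw w d * ‖EE A M (c + val b d)‖ ^ 2 : ℝ) : ℂ)‖ := by
    rw [Complex.norm_real, Real.norm_of_nonneg hnn]
  rw [h3, h2]
  refine (norm_sum_le _ _).trans ?_
  apply sum_le_sum
  intro r hr
  rw [mem_range] at hr
  refine (norm_sum_le _ _).trans ?_
  rw [mul_sum]
  apply sum_le_sum
  intro r' _
  rw [norm_mul, norm_mul, norm_mul, norm_ee, mul_one, RCLike.norm_conj, mul_assoc]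
  apply mul_le_mul_of_nonneg_left _ (norm_nonneg _)
  apply mul_le_mul_of_nonneg_left _ (norm_nonneg _)
  exact char_decay b H e k hb η hη w hw0 hw1 hsum r r' hr.le

/-- the saving away from the nearly extremal frequencies -/
lemma saving (b R : ℕ) (hb : 2 ≤ b) (hR : 1 ≤ R) (γ : ℝ) (hγ0 : 0 ≤ γ) (hγ1 : γ < 1) (e U : ℕ) :
    ∃ A₀ : ℕ, ∀ A : ℕ, A₀ ≤ A → ∀ k n : ℕ, 1 ≤ k → 2 * hh b A k ≤ (n + e) * R → γ ^ n ≤ 2 ^ e / (k : ℝ) ^ U := by
  have hb0 : (0 : ℝ) < b := by exact_mod_cast (by omega : 0 < b)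
  set g := max γ (1 / 2) with hg
  have hg1 : g < 1 := max_lt hγ1 (by norm_num)
  have hg2 : 1 / 2 ≤ g := le_max_right _ _
  have hg0 : 0 < g := by linarith
  obtain ⟨v, hv⟩ := exists_pow_lt_of_lt_one (show (0 : ℝ) < 1 / b by positivity) hg1
  refine ⟨v * U * R, fun A hA k n hk hn => ?_⟩
  have hk0 : (0 : ℝ) < k := by exact_mod_cast hk
  have h1 : γ ^ n ≤ g ^ n := pow_le_pow_left₀ hγ0 (le_max_left _ _) n
  have h2 : g ^ n = g ^ (n + e) / g ^ e := by
    rw [pow_add]; field_simp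
  have h3 : 1 / g ^ e ≤ 2 ^ e := by
    rw [← one_div_pow]
    apply pow_le_pow_left₀ (by positivity)
    rw [div_le_iff₀ hg0]
    linarith
  have h4 : g ^ (n + e) ≤ 1 / (k : ℝ) ^ U := by
    have h5 : (g ^ (n + e)) ^ R ≤ (1 / (k : ℝ) ^ U) ^ R := by
      rw [← pow_mul]
      have h6 : v * (U * R * (Nat.log b k + 1)) ≤ (n + e) * R := by
        refine le_trans ?_ hn
        unfold hh
        calc v * (U * R * (Nat.log b k + 1)) = (v * U * R) * (Nat.log b k + 1) := by ring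
          _ ≤ A * (Nat.log b k + 1) := Nat.mul_le_mul_right _ hA
          _ ≤ 4 * (A * (Nat.log b k + 1)) := by omega
          _ = 2 * (2 * A * (Nat.log b k + 1)) := by ring
      refine (pow_le_pow_of_le_one hg0.le hg1.le h6).trans ?_
      rw [pow_mul]
      have h7 : g ^ v ≤ 1 / b := hv.le
      refine (pow_le_pow_left₀ (by positivity) h7 _).trans ?_
      rw [one_div_pow, one_div_pow, ← pow_mul]
      have h9 : (k : ℝ) ≤ (b : ℝ) ^ (Nat.log b k + 1) := by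
        have := Nat.lt_pow_succ_log_self (b := b) (by omega) k
        exact_mod_cast this.le
      apply div_le_div_of_nonneg_left (by norm_num) (by positivity)
      calc (k : ℝ) ^ (U * R) ≤ ((b : ℝ) ^ (Nat.log b k + 1)) ^ (U * R) := pow_le_pow_left₀ hk0.le h9 _
        _ = _ := by rw [← pow_mul]; congr 1; ring
    exact (pow_le_pow_iff_left₀ (by positivity) (by positivity) (by omega)).1 h5
  calc γ ^ n ≤ g ^ n := h1
    _ = g ^ (n + e) * (1 / g ^ e) := by rw [h2]; ring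
    _ ≤ (1 / (k : ℝ) ^ U) * 2 ^ e := mul_le_mul h4 h3 (by positivity) (by positivity)
    _ = _ := by ring

lemma ne_window (b i w i' w' s : ℕ) (h1 : i' ≤ i) (h2 : i + w ≤ i' + w') : ne b i w s ≤ ne b i' w' s := by
  unfold ne
  apply card_le_card
  intro j hj
  rw [mem_filter, mem_Ico] at hj ⊢
  exact ⟨⟨by omega, by omega⟩, hj.2⟩

lemma ne_window' (b h e k s : ℕ) (h2 : 1 + h ≤ e + k) : ne b 1 h s ≤ ne b e k s + e := by
  have h3 : ne b 1 h s ≤ ne b 0 e s + ne b e k s := by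
    unfold ne
    rw [← card_union_of_disjoint]
    · apply card_le_card
      intro j hj
      rw [mem_union, mem_filter, mem_filter, mem_Ico, mem_Ico]
      rw [mem_filter, mem_Ico] at hj
      rcases Nat.lt_or_ge j e with h | h
      · left; exact ⟨⟨by omega, by omega⟩, hj.2⟩
      · right; exact ⟨⟨by omega, by omega⟩, hj.2⟩
    · rw [disjoint_left]
      intro j hj hj'
      rw [mem_filter, mem_Ico] at hj hj'
      omega
  have h4 := ne_le b 0 e s
  omega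

/-- the total mass -/
lemma mass (E : ℕ) : ∃ N0 : ℕ, ∀ X : ℕ, N0 ≤ X → ∀ M : ℕ, X ≤ M → ∀ z : ℕ, 1 ≤ z → (z : ℝ) ≤ Real.log X ^ E →
    ∑ r ∈ range M, ‖FF (fun n => ArithmeticFunction.vonMangoldt n) X M r * FF (fun n => ArithmeticFunction.vonMangoldt n - lamz z n) X M r‖ ≤
      10 * (M * X * Real.log X ^ 2) := by
  obtain ⟨N0, h0⟩ := Vz_inv_small E
  refine ⟨max N0 3, fun X hX M hXM z hz hzE => ?_⟩
  have hX3 : 3 ≤ X := le_trans (le_max_right _ _) hX
  have hV := h0 X (le_trans (le_max_left _ _) hX) z hz hzE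
  have hX0 : (0 : ℝ) < X := by exact_mod_cast (by omega : 0 < X)
  have hM0 : (0 : ℝ) < M := by exact_mod_cast (by omega : 0 < M)
  set L := Real.log X with hL
  have hL1 : 1 ≤ L := by
    rw [hL, Real.le_log_iff_exp_le hX0]
    have := Real.exp_one_lt_d9
    have : (3 : ℝ) ≤ X := by exact_mod_cast hX3
    linarith
  have h1 := sum_vM_sq X (by omega)
  rw [← hL] at h1
  have h2 : ∑ n ∈ Icc 1 X, (ArithmeticFunction.vonMangoldt n - lamz z n) ^ 2 ≤ 14 * X * L ^ 2 := by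
    have h3 : ∀ n ∈ Icc 1 X, (ArithmeticFunction.vonMangoldt n - lamz z n) ^ 2 ≤ 2 * ArithmeticFunction.vonMangoldt n ^ 2 + 2 * L ^ 2 := by
      intro n _
      have h4 : lamz z n ≤ L := by
        refine le_trans ?_ hV
        unfold lamz
        split_ifs
        · exact le_rfl
        · exact (inv_pos.2 (Vz_pos z)).le
      have h5 : lamz z n ^ 2 ≤ L ^ 2 := pow_le_pow_left₀ (lamz_nonneg _ _) h4 2
      nlinarith [sq_nonneg (ArithmeticFunction.vonMangoldt n + lamz z n)]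
    refine (sum_le_sum h3).trans ?_
    rw [sum_add_distrib, ← mul_sum, sum_const, Nat.card_Icc, nsmul_eq_mul]
    have h6 : ((X + 1 - 1 : ℕ) : ℝ) = X := by simp
    rw [h6]
    have h7 : 6 * X * L ≤ 6 * X * L ^ 2 := by
      apply mul_le_mul_of_nonneg_left _ (by positivity)
      nlinarith
    nlinarith
  have h3 := Real.sum_mul_le_sqrt_mul_sqrt (range M) (fun r => ‖FF (fun n => ArithmeticFunction.vonMangoldt n) X M r‖)
    (fun r => ‖FF (fun n => ArithmeticFunction.vonMangoldt n - lamz z n) X M r‖)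
  rw [FF_pars _ X M (by omega) hXM, FF_pars _ X M (by omega) hXM] at h3
  simp only [norm_mul]
  refine h3.trans ?_
  have h4 : √(M * ∑ n ∈ Icc 1 X, ArithmeticFunction.vonMangoldt n ^ 2) ≤ √(M * (6 * X * L)) :=
    Real.sqrt_le_sqrt (mul_le_mul_of_nonneg_left h1 hM0.le)
  have h5 : √(M * ∑ n ∈ Icc 1 X, (ArithmeticFunction.vonMangoldt n - lamz z n) ^ 2) ≤ √(M * (14 * X * L ^ 2)) :=
    Real.sqrt_le_sqrt (mul_le_mul_of_nonneg_left h2 hM0.le)
  refine (mul_le_mul h4 h5 (Real.sqrt_nonneg _) (Real.sqrt_nonneg _)).trans ?_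
  rw [← Real.sqrt_mul (by positivity), Real.sqrt_le_left (by positivity)]
  have h6 : M * (6 * X * L) * (M * (14 * X * L ^ 2)) = 84 * (M * X) ^ 2 * L ^ 3 := by ring
  rw [h6]
  have h7 : (10 * (M * X * L ^ 2)) ^ 2 = 100 * (M * X) ^ 2 * L ^ 4 := by ring
  rw [h7]
  have h8 : L ^ 3 ≤ L ^ 4 := pow_le_pow_right₀ hL1 (by norm_num)
  have h9 : 0 ≤ ((M : ℝ) * X) ^ 2 := by positivity
  have h10 : 0 ≤ L ^ 4 := by positivity
  nlinarith [mul_le_mul_of_nonneg_left h8 h9, mul_nonneg h9 h10]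

end Pool.Agent.W93.RD
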