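import Pool.Agent.W93.HD4
import Pool.Agent.W93.RD3

set_option autoImplicit false

/-! The optional changes of digits. -/

namespace Pool.Agent.W93.HD
open Finset
open Pool.Agent.H807R2.Dav
open Pool.Agent.H373R2.T7
open Pool.Agent.W93.DG
open Pool.Agent.W93.RD (ext_dist cos_dist)

/-- an optional change of a digit with a position in `J` -/
noncomputable def OC (b N M : ℕ) (J : Finset ℕ) (r : ℕ) : ℂ := ∑ j ∈ J, (1 + ee (-((fl b N j : ℝ) * ((r : ℝ) / (M : ℝ)))))

lemma term_le (b N K j r : ℕ) (hb : 2 ≤ b) (hj : j + 1 ≤ K) :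
    ‖1 + ee (-((fl b N j : ℝ) * ((r : ℝ) / ((b ^ (K + 1) : ℕ) : ℝ))))‖ ≤ if ¬ Ext b (K - 1 - j) r then 2 - 4 / (b : ℝ) ^ 4 else 2 := by
  have hbn : 0 < b := by omega
  have hb0 : (0 : ℝ) < b := by exact_mod_cast hbn
  by_cases hE : Ext b (K - 1 - j) r
  · rw [if_neg (not_not.2 hE)]
    refine (norm_add_le _ _).trans ?_
    rw [norm_one, norm_ee]
    norm_num
  · rw [if_pos hE]
    have h1 := cos_dist (-((fl b N j : ℝ) * ((r : ℝ) / ((b ^ (K + 1) : ℕ) : ℝ)))) (1 / (b : ℝ) ^ 2) (by positivity) (by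
      intro n
      have h2 : (b : ℝ) ^ j * ((r : ℝ) / ((b ^ (K + 1) : ℕ) : ℝ)) = (r : ℝ) / (b : ℝ) ^ (K - 1 - j + 2) := by
        have e1 : (b : ℝ) ^ (K + 1) = (b : ℝ) ^ j * (b : ℝ) ^ (K - 1 - j + 2) := by
          rw [← pow_add]; congr 1; omega
        push_cast
        rw [e1]
        field_simp
      rcases fl_cases b N j with h | h
      · have h3 := ext_dist b (K - 1 - j) r hb hE (-n)
        rw [h]
        push_cast at h3 ⊢
        push_cast at h2
        rw [h2]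
        rw [← abs_neg]
        have e2 : -(-((r : ℝ) / (b : ℝ) ^ (K - 1 - j + 2)) - (n : ℝ)) = (r : ℝ) / (b : ℝ) ^ (K - 1 - j + 2) - (-(n : ℝ)) := by ring
        rw [e2]
        exact h3
      · have h3 := ext_dist b (K - 1 - j) r hb hE n
        rw [h]
        push_cast at h2 ⊢
        have e2 : -(-(b : ℝ) ^ j * ((r : ℝ) / (b : ℝ) ^ (K + 1))) - (n : ℝ) = (b : ℝ) ^ j * ((r : ℝ) / (b : ℝ) ^ (K + 1)) - n := by ring
        rw [e2, h2]
        exact h3)
    refine h1.trans (le_of_eq ?_)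
    ring

lemma OC_le (b N K x l r : ℕ) (hb : 2 ≤ b) (hx : x + l ≤ K) :
    ‖OC b N (b ^ (K + 1)) (Ico x (x + l)) r‖ ≤ 2 * l - 4 / (b : ℝ) ^ 4 * ne b (K - x - l) l r := by
  unfold OC
  refine (norm_sum_le _ _).trans ?_
  have h1 : ∀ j ∈ Ico x (x + l), ‖1 + ee (-((fl b N j : ℝ) * ((r : ℝ) / ((b ^ (K + 1) : ℕ) : ℝ))))‖ ≤
      2 - 4 / (b : ℝ) ^ 4 * (if ¬ Ext b (K - 1 - j) r then 1 else 0) := by
    intro j hj
    rw [mem_Ico] at hj
    refine (term_le b N K j r hb (by omega)).trans (le_of_eq ?_)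
    split_ifs <;> ring
  refine (sum_le_sum h1).trans ?_
  rw [sum_sub_distrib, sum_const, Nat.card_Ico, Nat.add_sub_cancel_left, nsmul_eq_mul, ← mul_sum]
  have h2 : ∑ j ∈ Ico x (x + l), (if ¬ Ext b (K - 1 - j) r then (1 : ℝ) else 0) = ne b (K - x - l) l r := by
    unfold ne
    rw [← sum_filter, sum_const, nsmul_eq_mul, mul_one]
    congr 1
    apply card_bij (fun j _ => K - 1 - j)
    · intro j hj
      rw [mem_filter, mem_Ico] at hj ⊢
      exact ⟨⟨by omega, by omega⟩, hj.2⟩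
    · intro j hj j' hj' h
      rw [mem_filter, mem_Ico] at hj hj'
      omega
    · intro i hi
      rw [mem_filter, mem_Ico] at hi
      refine ⟨K - 1 - i, ?_, by omega⟩
      rw [mem_filter, mem_Ico]
      have : K - 1 - (K - 1 - i) = i := by omega
      rw [this]
      exact ⟨⟨by omega, by omega⟩, hi.2⟩
  rw [h2]
  linarith

lemma OC_le' (b N K x l r : ℕ) (hb : 2 ≤ b) (hx : x + l ≤ K) :
    ‖OC b N (b ^ (K + 1)) (Ico x (x + l)) r‖ ≤ 2 * l := by
  refine (OC_le b N K x l r hb hx).trans ?_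
  have : 0 ≤ 4 / (b : ℝ) ^ 4 * ne b (K - x - l) l r := by positivity
  linarith

lemma OC_exp (b N K x l r : ℕ) (hb : 2 ≤ b) (hx : x + l ≤ K) (hl : 1 ≤ l) :
    ‖OC b N (b ^ (K + 1)) (Ico x (x + l)) r‖ ≤ 2 * l * Real.exp (-(2 / (b : ℝ) ^ 4 * ne b (K - x - l) l r / l)) := by
  refine (OC_le b N K x l r hb hx).trans ?_
  have hl0 : (0 : ℝ) < l := by exact_mod_cast hl
  have h1 := Real.add_one_le_exp (-(2 / (b : ℝ) ^ 4 * ne b (K - x - l) l r / l))
  have h2 : 2 * (l : ℝ) * (-(2 / (b : ℝ) ^ 4 * ne b (K - x - l) l r / l) + 1) = 2 * l - 4 / (b : ℝ) ^ 4 * ne b (K - x - l) l r := by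
    field_simp
    ring
  rw [← h2]
  exact mul_le_mul_of_nonneg_left h1 (by positivity)

/-- the sum over consecutive blocks -/
lemma ne_blocks (b y l s r : ℕ) : ∑ i ∈ range s, ne b (y + (s - 1 - i) * l) l r = ne b y (s * l) r := by
  rw [sum_range_reflect (fun i => ne b (y + i * l) l r) s]
  induction s with
  | zero => unfold ne; simp
  | succ s ih =>
    rw [sum_range_succ, ih]
    unfold ne
    rw [← card_union_of_disjoint]
    · congr 1
      ext j
      rw [mem_union, mem_filter, mem_filter, mem_filter, mem_Ico, mem_Ico, mem_Ico, add_mul, one_mul]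
      constructor
      · rintro (h | h)
        · exact ⟨⟨h.1.1, by omega⟩, h.2⟩
        · exact ⟨⟨by omega, by omega⟩, h.2⟩
      · rintro ⟨⟨h1, h2⟩, h3⟩
        rcases Nat.lt_or_ge j (y + s * l) with h | h
        · left; exact ⟨⟨h1, h⟩, h3⟩
        · right; exact ⟨⟨h, by omega⟩, h3⟩
    · rw [disjoint_left]
      intro j hj hj'
      rw [mem_filter, mem_Ico] at hj hj'
      omega

/-- a window, divided into `s` blocks -/
lemma window_le (b N K x w s r : ℕ) (hb : 2 ≤ b) (hs : 1 ≤ s) (hx : x + w ≤ K) (hl : 1 ≤ w / s) :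
    ∏ i ∈ range s, ‖OC b N (b ^ (K + 1)) (Ico (x + i * (w / s)) (x + i * (w / s) + w / s)) r‖ ≤
      (2 * ((w / s : ℕ) : ℝ)) ^ s * Real.exp (-(2 / (b : ℝ) ^ 4 * ((ne b (K - x - w) w r : ℝ) - s) / ((w / s : ℕ) : ℝ))) := by
  obtain ⟨l, hld⟩ : ∃ l, l = w / s := ⟨_, rfl⟩
  rw [← hld] at hl ⊢
  have hl0 : (0 : ℝ) < l := by exact_mod_cast hl
  have hsl : s * l ≤ w := by rw [hld]; exact Nat.mul_div_le w s
  have hsl2 : w < s * l + s := by
    have := Nat.lt_mul_div_succ w (show 0 < s by omega)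
    rw [← hld] at this
    rw [mul_add, mul_one] at this
    exact this
  have hblk : ∀ i ∈ range s, x + i * l + l ≤ K := by
    intro i hi
    rw [mem_range] at hi
    have : (i + 1) * l ≤ s * l := Nat.mul_le_mul_right _ hi
    rw [add_mul, one_mul] at this
    omega
  have h1 : ∏ i ∈ range s, ‖OC b N (b ^ (K + 1)) (Ico (x + i * l) (x + i * l + l)) r‖ ≤
      ∏ i ∈ range s, (2 * (l : ℝ) * Real.exp (-(2 / (b : ℝ) ^ 4 * ne b (K - (x + i * l) - l) l r / l))) :=
    prod_le_prod (fun _ _ => norm_nonneg _) fun i hi => OC_exp b N K (x + i * l) l r hb (hblk i hi) hl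
  refine h1.trans ?_
  rw [prod_mul_distrib, prod_const, card_range, ← Real.exp_sum]
  apply mul_le_mul_of_nonneg_left _ (by positivity)
  apply Real.exp_le_exp.2
  have h2 : ∑ i ∈ range s, -(2 / (b : ℝ) ^ 4 * ne b (K - (x + i * l) - l) l r / l) =
      -(2 / (b : ℝ) ^ 4 * (ne b (K - x - s * l) (s * l) r : ℝ) / l) := by
    rw [← ne_blocks b (K - x - s * l) l s r]
    push_cast
    rw [mul_sum, sum_div, ← sum_neg_distrib]
    apply sum_congr rfl
    intro i hi
    rw [mem_range] at hi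
    have e1 : K - (x + i * l) - l = K - x - s * l + (s - 1 - i) * l := by
      have e2 : s * l = (s - 1 - i) * l + (i * l + l) := by
        have : s = (s - 1 - i) + (i + 1) := by omega
        calc s * l = ((s - 1 - i) + (i + 1)) * l := by rw [← this]
          _ = _ := by ring
      omega
    rw [e1]
  rw [h2, neg_le_neg_iff]
  have h3 : ne b (K - x - w) w r ≤ ne b (K - x - s * l) (s * l) r + (w - s * l) := by
    have e1 : ne b (K - x - w) w r ≤ ne b (K - x - w) (w - s * l) r + ne b (K - x - s * l) (s * l) r := by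
      unfold ne
      rw [← card_union_of_disjoint]
      · apply card_le_card
        intro j hj
        rw [mem_union, mem_filter, mem_filter, mem_Ico, mem_Ico]
        rw [mem_filter, mem_Ico] at hj
        rcases Nat.lt_or_ge j (K - x - s * l) with h | h
        · left; exact ⟨⟨by omega, by omega⟩, hj.2⟩
        · right; exact ⟨⟨by omega, by omega⟩, hj.2⟩
      · rw [disjoint_left]
        intro j hj hj'
        rw [mem_filter, mem_Ico] at hj hj'
        omega
    have e2 := ne_le b (K - x - w) (w - s * l) r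
    omega
  have h4 : (ne b (K - x - w) w r : ℝ) - s ≤ ne b (K - x - s * l) (s * l) r := by
    have : (ne b (K - x - w) w r : ℝ) ≤ ne b (K - x - s * l) (s * l) r + s := by
      exact_mod_cast h3.trans (by omega)
    linarith
  apply div_le_div_of_nonneg_right _ hl0.le
  exact mul_le_mul_of_nonneg_left h4 (by positivity)

lemma window_le' (b N K x w s r : ℕ) (hb : 2 ≤ b) (hx : x + w ≤ K) :
    ∏ i ∈ range s, ‖OC b N (b ^ (K + 1)) (Ico (x + i * (w / s)) (x + i * (w / s) + w / s)) r‖ ≤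
      (2 * ((w / s : ℕ) : ℝ)) ^ s := by
  obtain ⟨l, hld⟩ : ∃ l, l = w / s := ⟨_, rfl⟩
  have hsl : s * l ≤ w := by rw [hld]; exact Nat.mul_div_le w s
  rw [← hld]
  have h1 : ∏ i ∈ range s, ‖OC b N (b ^ (K + 1)) (Ico (x + i * l) (x + i * l + l)) r‖ ≤ ∏ _i ∈ range s, (2 * (l : ℝ)) := by
    apply prod_le_prod (fun _ _ => norm_nonneg _)
    intro i hi
    rw [mem_range] at hi
    have : (i + 1) * l ≤ s * l := Nat.mul_le_mul_right _ hi
    rw [add_mul, one_mul] at this
    exact OC_le' b N K (x + i * l) l r hb (by omega)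
  rwa [prod_const, card_range] at h1

/-- the numerical part -/
lemma window_num (b R s w E : ℕ) (ne' δ : ℝ) (hb : 2 ≤ b) (hR : 1 ≤ R) (hs : 1 ≤ s) (hl : 1 ≤ w / s) (hw : w ≤ E) (hE : 2 * R * s ≤ E)
    (hne : (E : ℝ) ≤ ne' * R) (hδ : Real.exp (-((s : ℝ) / (R * (b : ℝ) ^ 4))) ≤ δ) :
    Real.exp (-(2 / (b : ℝ) ^ 4 * (ne' - s) / ((w / s : ℕ) : ℝ))) ≤ δ := by
  refine le_trans (Real.exp_le_exp.2 ?_) hδ
  rw [neg_le_neg_iff]
  have hb0 : (0 : ℝ) < b := by exact_mod_cast (by omega : 0 < b)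
  have hR0 : (0 : ℝ) < R := by exact_mod_cast hR
  have hs0 : (0 : ℝ) < s := by exact_mod_cast hs
  have hl0 : (0 : ℝ) < ((w / s : ℕ) : ℝ) := by exact_mod_cast hl
  have hEr : 2 * (R : ℝ) * s ≤ E := by exact_mod_cast hE
  have hE0 : (0 : ℝ) < E := lt_of_lt_of_le (by positivity) hEr
  have h1 : ((w / s : ℕ) : ℝ) ≤ E / s := by
    refine (Nat.cast_div_le).trans ?_
    apply div_le_div_of_nonneg_right _ hs0.le
    exact_mod_cast hw
  have h2 : (E : ℝ) / (2 * R) ≤ ne' - s := by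
    rw [div_le_iff₀ (by positivity)]
    nlinarith
  have h3 : (s : ℝ) / (R * (b : ℝ) ^ 4) = 2 / (b : ℝ) ^ 4 * ((E : ℝ) / (2 * R)) / (E / s) := by
    field_simp
  rw [h3]
  apply div_le_div₀ _ _ hl0 h1
  · have : 0 ≤ (E : ℝ) / (2 * R) := by positivity
    have h4 : 0 ≤ ne' - s := this.trans h2
    positivity
  · exact mul_le_mul_of_nonneg_left h2 (by positivity)

end Pool.Agent.W93.HD
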