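import Pool.Agent.W93.HD5

set_option autoImplicit false

/-! Changes of digits. -/

namespace Pool.Agent.W93.HD
open Finset
open Pool.Agent.H807R2.Dav
open Pool.Agent.H373R2.T7
open Pool.Agent.W93.DG

/-- one change -/
lemma flip_one (b n j : ℕ) (hb : 2 ≤ b) : ∃ y : ℕ, (y : ℤ) = n + fl b n j ∧ y / b ^ (j + 1) = n / b ^ (j + 1) ∧
    ∀ i, i ≠ j → y / b ^ i % b = n / b ^ i % b := by
  have hbn : 0 < b := by omega
  obtain ⟨P, hP⟩ : ∃ P, P = b ^ j := ⟨_, rfl⟩
  have hP0 : 0 < P := by rw [hP]; exact Nat.pow_pos hbn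
  obtain ⟨q, hq⟩ : ∃ q, q = n / P := ⟨_, rfl⟩
  obtain ⟨B, hB⟩ : ∃ B, B = n % P := ⟨_, rfl⟩
  have hn : n = P * q + B := by rw [hq, hB]; exact (Nat.div_add_mod n P).symm
  have hBP : B < P := by rw [hB]; exact Nat.mod_lt _ hP0
  have key : ∃ q' : ℕ, (q' : ℤ) = q + (if q % b = 0 then 1 else -1) ∧ q' / b = q / b := by
    by_cases h : q % b = 0
    · refine ⟨q + 1, by rw [if_pos h]; push_cast; ring, ?_⟩
      have e1 := Nat.div_add_mod q b
      rw [h, add_zero] at e1
      have e2 : q + 1 = b * (q / b) + 1 := by omega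
      rw [e2, Nat.mul_add_div hbn, Nat.div_eq_of_lt (by omega : 1 < b), add_zero]
    · have e1 := Nat.div_add_mod q b
      have e3 : q % b < b := Nat.mod_lt _ hbn
      refine ⟨q - 1, ?_, ?_⟩
      · rw [if_neg h]
        have : 1 ≤ q := by
          rcases Nat.eq_zero_or_pos q with h0 | h0
          · exfalso; apply h; rw [h0]; exact Nat.zero_mod b
          · exact h0
        push_cast [Nat.cast_sub this]
        ring
      · have e2 : q - 1 = b * (q / b) + (q % b - 1) := by omega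
        rw [e2, Nat.mul_add_div hbn, Nat.div_eq_of_lt (by omega : q % b - 1 < b), add_zero]
  obtain ⟨q', hq'1, hq'2⟩ := key
  have hyd : (P * q' + B) / P = q' := by rw [Nat.mul_add_div hP0, Nat.div_eq_of_lt hBP, add_zero]
  have hym : (P * q' + B) % P = B := by rw [Nat.mul_add_mod, Nat.mod_eq_of_lt hBP]
  have hdiv : (P * q' + B) / b ^ (j + 1) = n / b ^ (j + 1) := by
    rw [pow_succ, ← Nat.div_div_eq_div_mul, ← Nat.div_div_eq_div_mul, ← hP, hyd, hq'2, hq]
  refine ⟨P * q' + B, ?_, hdiv, fun i hi => ?_⟩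
  · have e1 : fl b n j = (if q % b = 0 then 1 else -1) * (P : ℤ) := by
      unfold fl
      rw [hq, hP]
      push_cast
      rfl
    rw [e1]
    have e2 : (n : ℤ) = P * q + B := by exact_mod_cast hn
    rw [e2]
    push_cast
    rw [hq'1]
    ring
  · rcases Nat.lt_or_ge i j with h | h
    · rw [← digit_mod b i j (P * q' + B) h, ← digit_mod b i j n h, ← hP, hym, hB]
    · have h2 : j + 1 ≤ i := by omega
      obtain ⟨d, hd⟩ : ∃ d, i = (j + 1) + d := ⟨i - (j + 1), by omega⟩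
      rw [hd, pow_add b (j + 1), ← Nat.div_div_eq_div_mul, ← Nat.div_div_eq_div_mul, hdiv]

/-- several changes -/
lemma flip_many (b N : ℕ) (hb : 2 ≤ b) (P : Finset ℕ) : ∃ y : ℕ, (y : ℤ) = N + ∑ j ∈ P, fl b N j ∧
    (∀ i, i ∉ P → y / b ^ i % b = N / b ^ i % b) ∧ ∀ k, (∀ j ∈ P, j < k) → y / b ^ k = N / b ^ k := by
  classical
  induction P using Finset.induction_on with
  | empty => exact ⟨N, by simp, fun _ _ => rfl, fun _ _ => rfl⟩
  | insert a P ha ih =>
    obtain ⟨y, h1, h2, h3⟩ := ih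
    obtain ⟨y', g1, g2, g3⟩ := flip_one b y a hb
    have e1 : fl b y a = fl b N a := by
      unfold fl
      rw [h2 a ha]
    refine ⟨y', ?_, ?_, ?_⟩
    · rw [g1, h1, e1, sum_insert ha]
      ring
    · intro i hi
      rw [mem_insert, not_or] at hi
      rw [g3 i hi.1, h2 i hi.2]
    · intro k hk
      have hak : a + 1 ≤ k := hk a (mem_insert_self a P)
      obtain ⟨d, hd⟩ : ∃ d, k = (a + 1) + d := ⟨k - (a + 1), by omega⟩
      rw [← h3 k (fun j hj => hk j (mem_insert_of_mem hj))]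
      rw [hd, pow_add b (a + 1), ← Nat.div_div_eq_div_mul, ← Nat.div_div_eq_div_mul, g2]

/-- the set of the positions of the changes -/
lemma flips_set {ι : Type*} [Fintype ι] [DecidableEq ι] (b N j0 j1 : ℕ) (v : ι → ℕ × ℕ) (hdis : ∀ c c', c ≠ c' → (v c).1 ≠ (v c').1)
    (h01 : j0 ≠ j1) (h0 : ∀ c, (v c).1 ≠ j0) (h1 : ∀ c, (v c).1 ≠ j1) (hv : ∀ c, (v c).2 < 2) :
    ∃ P : Finset ℕ, P.card ≤ 2 + Fintype.card ι ∧ ∑ j ∈ P, fl b N j = fl b N j0 + fl b N j1 + ∑ c, ((v c).2 : ℤ) * fl b N (v c).1 ∧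
      ∀ j ∈ P, j = j0 ∨ j = j1 ∨ ∃ c, j = (v c).1 := by
  classical
  set F := (univ : Finset ι).filter (fun c => (v c).2 = 1) with hF
  set Im := F.image (fun c => (v c).1) with hIm
  have hinj : Set.InjOn (fun c => (v c).1) (F : Set ι) := by
    intro c _ c' _ h
    by_contra hne
    exact hdis c c' hne h
  have hj1 : j1 ∉ Im := by
    rw [hIm, mem_image]
    rintro ⟨c, _, hc⟩
    exact h1 c hc
  have hj0 : j0 ∉ insert j1 Im := by
    rw [mem_insert, hIm, mem_image]
    rintro (h | ⟨c, _, hc⟩)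
    · exact h01 h
    · exact h0 c hc
  refine ⟨insert j0 (insert j1 Im), ?_, ?_, ?_⟩
  · have e1 : Im.card ≤ Fintype.card ι := by
      rw [hIm]
      refine card_image_le.trans ?_
      rw [hF]
      exact (card_filter_le _ _).trans (by rw [card_univ])
    have e2 := card_insert_le j0 (insert j1 Im)
    have e3 := card_insert_le j1 Im
    omega
  · rw [sum_insert hj0, sum_insert hj1, hIm, sum_image hinj, hF, sum_filter, ← add_assoc]
    congr 1
    apply sum_congr rfl
    intro c _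
    have := hv c
    by_cases h : (v c).2 = 1
    · rw [if_pos h, h]; simp
    · have h2 : (v c).2 = 0 := by omega
      rw [if_neg h, h2]; simp
  · intro j hj
    rw [mem_insert, mem_insert, hIm, mem_image] at hj
    rcases hj with h | h | ⟨c, _, h⟩
    · left; exact h
    · right; left; exact h
    · right; right; exact ⟨c, h.symm⟩

section Omega
variable {ι : Type*} [Fintype ι] [DecidableEq ι]

/-- the choices for the optional changes -/
def Ov (x l : ι → ℕ) : Finset (ι → ℕ × ℕ) := Fintype.piFinset (fun c => (Ico (x c) (x c + l c)) ×ˢ range 2)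

/-- the integer after the changes -/
def nv (b N : ℕ) (o : ℕ × ℕ × (ι → ℕ × ℕ)) : ℤ :=
  N + fl b N o.1 + fl b N o.2.1 + ∑ c, ((o.2.2 c).2 : ℤ) * fl b N (o.2.2 c).1

lemma card_Ov (x l : ι → ℕ) : (Ov x l).card = ∏ c, (2 * l c) := by
  unfold Ov
  rw [Fintype.card_piFinset]
  apply prod_congr rfl
  intro c _
  rw [card_product, Nat.card_Ico, card_range, Nat.add_sub_cancel_left, mul_comm]

/-- a sum of a multiplicative function over all choices -/
lemma sum_mult {E : Type*} [CommRing E] (χ : ℤ → E) (h0 : χ 0 = 1) (hadd : ∀ a a', χ (a + a') = χ a * χ a') (b N : ℕ) (J J' : Finset ℕ)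
    (x l : ι → ℕ) :
    ∑ o ∈ J ×ˢ (J' ×ˢ Ov x l), χ (nv b N o) =
      χ N * (∑ j ∈ J, χ (fl b N j)) * (∑ j ∈ J', χ (fl b N j)) *
        ∏ c, ∑ j ∈ Ico (x c) (x c + l c), (1 + χ (fl b N j)) := by
  have hsum : ∀ (S : Finset ι) (f : ι → ℤ), χ (∑ c ∈ S, f c) = ∏ c ∈ S, χ (f c) := by
    intro S f
    induction S using Finset.induction_on with
    | empty => simp [h0]
    | insert a s ha ih => rw [sum_insert ha, prod_insert ha, hadd, ih]
  have hprod : ∏ c, ∑ j ∈ Ico (x c) (x c + l c), (1 + χ (fl b N j)) =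
      ∑ v ∈ Ov x l, ∏ c, χ (((v c).2 : ℤ) * fl b N (v c).1) := by
    unfold Ov
    rw [← Finset.prod_univ_sum (t := fun c => (Ico (x c) (x c + l c)) ×ˢ range 2)
      (f := fun _ p => χ ((p.2 : ℤ) * fl b N p.1))]
    apply prod_congr rfl
    intro c _
    rw [sum_product]
    apply sum_congr rfl
    intro j _
    rw [sum_range_succ, sum_range_succ, sum_range_zero]
    simp [h0]
  rw [hprod, sum_product]
  have h1 : ∀ j ∈ J, ∑ p ∈ J' ×ˢ Ov x l, χ (nv b N (j, p)) =
      χ (fl b N j) * (χ N * (∑ j' ∈ J', χ (fl b N j')) * ∑ v ∈ Ov x l, ∏ c, χ (((v c).2 : ℤ) * fl b N (v c).1)) := by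
    intro j _
    obtain ⟨W, hW⟩ : ∃ W, W = ∑ v ∈ Ov x l, ∏ c, χ (((v c).2 : ℤ) * fl b N (v c).1) := ⟨_, rfl⟩
    rw [← hW, sum_product]
    have h2 : ∀ j' ∈ J', ∑ v ∈ Ov x l, χ (nv b N (j, j', v)) = χ (fl b N j) * χ N * χ (fl b N j') * W := by
      intro j' _
      rw [hW, mul_sum]
      apply sum_congr rfl
      intro v _
      unfold nv
      simp only
      rw [hadd, hadd, hadd, hsum]
      ring
    rw [sum_congr rfl h2, ← sum_mul, ← mul_sum]
    ring
  rw [sum_congr rfl h1, ← sum_mul]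
  ring

end Omega

/-- the sign of the parity -/
noncomputable def par (n : ℤ) : ℝ := if 2 ∣ n then 1 else -1

lemma par_add (a a' : ℤ) : par (a + a') = par a * par a' := by
  unfold par
  by_cases h1 : (2 : ℤ) ∣ a <;> by_cases h2 : (2 : ℤ) ∣ a'
  · rw [if_pos h1, if_pos h2, if_pos (dvd_add h1 h2)]; ring
  · rw [if_pos h1, if_neg h2, if_neg (by omega)]; ring
  · rw [if_neg h1, if_pos h2, if_neg (by omega)]; ring
  · rw [if_neg h1, if_neg h2, if_pos (by omega)]; ring

lemma fl_odd (b N j : ℕ) (hb : b % 2 = 1) : par (fl b N j) = -1 := by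
  have h1 : (b ^ j) % 2 = 1 := by
    rw [Nat.pow_mod, hb, one_pow]
    norm_num
  have h2 : ¬ (2 : ℤ) ∣ (b : ℤ) ^ j := by
    have : ((b ^ j : ℕ) : ℤ) = (b : ℤ) ^ j := by push_cast; rfl
    rw [← this]
    omega
  unfold par
  rcases fl_cases b N j with h | h
  · rw [h, if_neg h2]
  · rw [h, if_neg (by rw [dvd_neg]; exact h2)]

lemma fl_even (b N j : ℕ) (hb : b % 2 = 0) (hj : 1 ≤ j) : (2 : ℤ) ∣ fl b N j := by
  have h1 : (2 : ℤ) ∣ (b : ℤ) ^ j := by
    apply dvd_pow _ (by omega)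
    omega
  rcases fl_cases b N j with h | h
  · rw [h]; exact h1
  · rw [h, dvd_neg]; exact h1

/-- at least half of the integers are even -/
lemma half_even {ι : Type*} [Fintype ι] [DecidableEq ι] [Nonempty ι] (b N : ℕ) (J J' : Finset ℕ) (x l : ι → ℕ)
    (hN : b % 2 = 0 → 2 ∣ N) (hJ : ∀ j ∈ J, 1 ≤ j) (hJ' : ∀ j ∈ J', 1 ≤ j) (hx : ∀ c, 1 ≤ x c) :
    (((J ×ˢ (J' ×ˢ Ov x l)).card : ℕ) : ℝ) ≤ 2 * ∑ o ∈ J ×ˢ (J' ×ˢ Ov x l), (if (2 : ℤ) ∣ nv b N o then (1 : ℝ) else 0) := by
  have h1 : 0 ≤ ∑ o ∈ J ×ˢ (J' ×ˢ Ov x l), par (nv b N o) := by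
    rcases Nat.mod_two_eq_zero_or_one b with hb | hb
    · apply sum_nonneg
      intro o ho
      rw [mem_product, mem_product] at ho
      have : (2 : ℤ) ∣ nv b N o := by
        unfold nv
        have e1 := fl_even b N o.1 hb (hJ _ ho.1)
        have e2 := fl_even b N o.2.1 hb (hJ' _ ho.2.1)
        have e3 : (2 : ℤ) ∣ N := by
          have := hN hb
          omega
        have e4 : (2 : ℤ) ∣ ∑ c, ((o.2.2 c).2 : ℤ) * fl b N (o.2.2 c).1 := by
          apply dvd_sum
          intro c _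
          apply Dvd.dvd.mul_left
          apply fl_even b N _ hb
          have := ho.2.2
          unfold Ov at this
          rw [Fintype.mem_piFinset] at this
          have h5 := this c
          rw [mem_product, mem_Ico] at h5
          exact (hx c).trans h5.1.1
        exact dvd_add (dvd_add (dvd_add e3 e1) e2) e4
      unfold par
      rw [if_pos this]
      norm_num
    · rw [sum_mult par (by unfold par; simp) par_add b N J J' x l]
      have h2 : ∏ c : ι, ∑ j ∈ Ico (x c) (x c + l c), (1 + par (fl b N j)) = 0 := by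
        obtain ⟨c⟩ := (inferInstance : Nonempty ι)
        apply prod_eq_zero (mem_univ c)
        apply sum_eq_zero
        intro j _
        rw [fl_odd b N j hb]
        norm_num
      rw [h2, mul_zero]
  have h2 : ∑ o ∈ J ×ˢ (J' ×ˢ Ov x l), par (nv b N o) =
      2 * ∑ o ∈ J ×ˢ (J' ×ˢ Ov x l), (if (2 : ℤ) ∣ nv b N o then (1 : ℝ) else 0) - (((J ×ˢ (J' ×ˢ Ov x l)).card : ℕ) : ℝ) := by
    rw [card_eq_sum_ones]
    push_cast
    rw [mul_sum, ← sum_sub_distrib]
    apply sum_congr rfl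
    intro o _
    unfold par
    split_ifs <;> norm_num
  linarith

end Pool.Agent.W93.HD
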