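import Pool.Agent.W93.HD6
import Pool.Agent.W93.GB3

set_option autoImplicit false

/-! The main term, and the number of representations. -/

namespace Pool.Agent.W93.HD
open Finset
open Pool.Agent.H373R2.T7 Pool.Agent.H560R3.GB
open Pool.Agent.W93.GB

lemma Mw_nonneg (z n : ℕ) : 0 ≤ Mw z n := by
  unfold Mw
  apply sum_nonneg
  intro b _
  apply mul_nonneg ArithmeticFunction.vonMangoldt_nonneg
  apply prod_nonneg
  intro i _
  have := (inv_pos.2 (Vz_pos z)).le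
  split_ifs
  · exact this
  · exact le_rfl

lemma Mw_ge (b E : ℕ) (hb : 2 ≤ b) : ∃ N0 : ℕ, ∀ N : ℕ, N0 ≤ N → ∀ z : ℕ,
    Real.log N ^ 3 ≤ z → (z : ℝ) ≤ Real.log N ^ E → ∀ n : ℕ, 2 ∣ n → N ≤ b * n → n ≤ N → (n : ℝ) / 2 ≤ Mw z n := by
  obtain ⟨n1, hs⟩ := singZ_near (1 / 4) (by positivity)
  obtain ⟨n2, ht⟩ := tuple_main 1 (E + 1) 1 le_rfl
  obtain ⟨m1, h1⟩ := ev_L' (2 ^ (E + 2) + 16)
  refine ⟨max m1 (max (b * (n1 + n2)) (b ^ 2 + 3)), fun N hN z hz hzE n hn hNn hnN => ?_⟩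
  have b1 := h1 N (le_trans (le_max_left _ _) hN)
  have b2 : b * (n1 + n2) ≤ N := le_trans (le_trans (le_max_left _ _) (le_max_right _ _)) hN
  have b3 : b ^ 2 + 3 ≤ N := le_trans (le_trans (le_max_right _ _) (le_max_right _ _)) hN
  obtain ⟨L, hL⟩ : ∃ L, L = Real.log (N : ℝ) := ⟨_, rfl⟩
  rw [← hL] at b1 hz hzE
  have hbn : 0 < b := by omega
  have hn12 : n1 + n2 ≤ n := by
    have : b * (n1 + n2) ≤ b * n := b2.trans hNn
    exact Nat.le_of_mul_le_mul_left this hbn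
  have hpow : (0 : ℝ) < 2 ^ (E + 2) := by positivity
  have hL1 : 1 ≤ L := by linarith
  have hL0 : 0 < L := by linarith
  have hN0 : (0 : ℝ) < N := by exact_mod_cast (by omega : 0 < N)
  have hn1 : 1 ≤ n := by
    rcases Nat.eq_zero_or_pos n with h0 | h0
    · rw [h0, mul_zero] at hNn; omega
    · exact h0
  have hnpos : (0 : ℝ) < n := by exact_mod_cast hn1
  have hnsq : √(N : ℝ) ≤ n := by
    rw [Real.sqrt_le_left hnpos.le]
    have e1 : (b : ℝ) ^ 2 ≤ N := by exact_mod_cast (by omega : b ^ 2 ≤ N)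
    have e2 : (N : ℝ) ≤ b * n := by exact_mod_cast hNn
    have hb0 : (0 : ℝ) < b := by exact_mod_cast hbn
    have e3 : (b : ℝ) ≤ n := by nlinarith
    nlinarith
  have hlogn : L / 2 ≤ Real.log n := by
    have := Real.log_le_log (Real.sqrt_pos.2 hN0) hnsq
    rw [Real.log_sqrt hN0.le, ← hL] at this
    exact this
  have hlogn' : Real.log n ≤ L := by
    rw [hL]
    exact Real.log_le_log hnpos (by exact_mod_cast hnN)
  have hln0 : 0 < Real.log n := by linarith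
  have hln2 : 2 ^ (E + 1) ≤ Real.log n := by
    have : (2 : ℝ) ^ (E + 2) = 2 * 2 ^ (E + 1) := by ring
    linarith
  have hz1 : 1 ≤ z := by
    have : (1 : ℝ) ≤ z := (one_le_pow₀ hL1).trans hz
    exact_mod_cast this
  have hzE' : (z : ℝ) ≤ Real.log n ^ (E + 1) := by
    refine hzE.trans ?_
    calc L ^ E ≤ (2 * Real.log n) ^ E := pow_le_pow_left₀ hL0.le (by linarith) E
      _ = 2 ^ E * Real.log n ^ E := by rw [mul_pow]
      _ ≤ Real.log n * Real.log n ^ E := by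
          apply mul_le_mul_of_nonneg_right _ (by positivity)
          refine le_trans ?_ hln2
          exact pow_le_pow_right₀ (by norm_num) (by omega)
      _ = _ := by ring
  have hzs : Real.log n ^ 2 ≤ z := by
    calc Real.log n ^ 2 ≤ L ^ 2 := pow_le_pow_left₀ hln0.le hlogn' 2
      _ ≤ L ^ 3 := pow_le_pow_right₀ hL1 (by norm_num)
      _ ≤ z := hz
  have c1 := hs n (by omega) hn z hzs
  have c2 := ht n (by omega) z hz1 hzE' (sh n)
  change |Mw z n - singZ (sh n) z * n| ≤ n / Real.log n ^ 1 at c2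
  have hsing := one_le_sing n
  have c3 : (n : ℝ) / Real.log n ^ 1 ≤ 1 / 4 * n := by
    rw [pow_one, div_le_iff₀ hln0]
    have : 4 ≤ Real.log n := by linarith
    nlinarith
  have c4 := (abs_le.1 c2).1
  have c5 := (abs_le.1 c1).1
  have c6 : 3 / 4 ≤ singZ (sh n) z := by linarith
  have c7 : 3 / 4 * (n : ℝ) ≤ singZ (sh n) z * n := mul_le_mul_of_nonneg_right c6 hnpos.le
  linarith

lemma g_ge (c : ℝ) (hc : 0 < c) : ∃ n0 : ℕ, ∀ n : ℕ, n0 ≤ n → c * n ≤ Rw n →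
    c / 2 * n / Real.log n ^ 2 ≤ g n ∧ 2 ≤ g n := by
  obtain ⟨n1, h1⟩ := ev_log' 2 (8 / c)
  refine ⟨max n1 3, fun n hn hR => ?_⟩
  have hn3 : 3 ≤ n := le_trans (le_max_right _ _) hn
  have e1 := h1 n (le_trans (le_max_left _ _) hn)
  have hn0 : (0 : ℝ) < n := by exact_mod_cast (by omega : 0 < n)
  obtain ⟨L, hL⟩ : ∃ L, L = Real.log (n : ℝ) := ⟨_, rfl⟩
  have a1 := Rw_le n (by omega)
  have a2 := Pw_le_g n (by omega)
  rw [← hL] at e1 a1 a2 ⊢
  have hL0 : 0 < L := by rw [hL]; exact Real.log_pos (by exact_mod_cast (by omega : 1 < n))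
  have hs : √(n : ℝ) * √(n : ℝ) = n := Real.mul_self_sqrt hn0.le
  have hs0 : 0 < √(n : ℝ) := Real.sqrt_pos.2 hn0
  have e2 : 8 * L ^ 2 ≤ c * √(n : ℝ) := by
    have := mul_le_mul_of_nonneg_left e1 hc.le
    have e3 : c * (8 / c * L ^ 2) = 8 * L ^ 2 := by field_simp
    linarith
  have e4 : 4 * √(n : ℝ) * L ^ 2 ≤ c / 2 * n := by
    calc 4 * √(n : ℝ) * L ^ 2 = √(n : ℝ) * (8 * L ^ 2) / 2 := by ring
      _ ≤ √(n : ℝ) * (c * √(n : ℝ)) / 2 := by
          have := mul_le_mul_of_nonneg_left e2 hs0.le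
          linarith
      _ = c / 2 * (√(n : ℝ) * √(n : ℝ)) := by ring
      _ = _ := by rw [hs]
  have e5 : c / 2 * n ≤ g n * L ^ 2 := by linarith
  have e6 : c / 2 * n / L ^ 2 ≤ g n := by
    rw [div_le_iff₀ (by positivity)]
    exact e5
  refine ⟨e6, ?_⟩
  have e7 : (2 : ℝ) ≤ g n := by
    refine le_trans ?_ e6
    rw [le_div_iff₀ (by positivity)]
    have h1 : 1 ≤ √(n : ℝ) := by
      rw [Real.one_le_sqrt]
      exact_mod_cast (by omega : 1 ≤ n)
    calc 2 * L ^ 2 ≤ c * √(n : ℝ) / 4 := by linarith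
      _ ≤ c / 2 * (√(n : ℝ) * √(n : ℝ)) := by
          have : 0 < c * √(n : ℝ) := by positivity
          nlinarith
      _ = _ := by rw [hs]
  exact_mod_cast e7

end Pool.Agent.W93.HD
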