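import Pool.Agent.W93.HD7
import Pool.Agent.W93.RD4

set_option autoImplicit false

/-! Goldbach's conjecture after a bounded number of changes of digits. -/

namespace Pool.Agent.W93.HD
open Finset
open Pool.Agent.H807R2.Dav
open Pool.Agent.H373R2.T7
open Pool.Agent.W93.DG
open Pool.Agent.W93.RD (EE EE_conv)
open Pool.Agent.W93.GB (Rw Mw sum_lamI sum_lamzI)

/-- the transform of the sum over all choices -/
lemma sum_EE {ι : Type*} [Fintype ι] [DecidableEq ι] (b N K : ℕ) (A : ℕ → ℂ) (J J' : Finset ℕ) (x l : ι → ℕ) :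
    ‖∑ o ∈ J ×ˢ (J' ×ˢ Ov x l), EE A (b ^ (K + 1)) (nv b N o)‖ ≤
      ∑ r ∈ range (b ^ (K + 1)), ‖A r‖ * (‖PJ b N (b ^ (K + 1)) J r‖ * ‖PJ b N (b ^ (K + 1)) J' r‖ *
        ∏ c, ‖OC b N (b ^ (K + 1)) (Ico (x c) (x c + l c)) r‖) := by
  set M := b ^ (K + 1) with hM
  have h1 : ∑ o ∈ J ×ˢ (J' ×ˢ Ov x l), EE A M (nv b N o) = ∑ r ∈ range M, A r * (ee (-((N : ℝ) * ((r : ℝ) / (M : ℝ)))) *
      PJ b N M J r * PJ b N M J' r * ∏ c, OC b N M (Ico (x c) (x c + l c)) r) := by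
    unfold EE
    rw [sum_comm]
    apply sum_congr rfl
    intro r _
    rw [← mul_sum]
    congr 1
    have h2 := sum_mult (fun n : ℤ => ee (-((n : ℝ) * ((r : ℝ) / (M : ℝ))))) (by simp [ee_zero]) (by
      intro a a'
      rw [← ee_add]
      congr 1
      push_cast
      ring) b N J J' x l
    simp only [Int.cast_natCast] at h2
    unfold PJ OC
    exact h2
  rw [h1]
  refine (norm_sum_le _ _).trans ?_
  apply sum_le_sum
  intro r _
  rw [norm_mul, norm_mul, norm_mul, norm_mul, norm_ee, one_mul, norm_prod]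

lemma three_prod (P T : Fin 3 → ℝ) (δ : ℝ) (hδ : δ ≤ 1) (hP : ∀ q, 0 ≤ P q) (hPT : ∀ q, P q ≤ T q)
    (q₀ : Fin 3) (h : P q₀ ≤ T q₀ * δ) (hδ0 : 0 ≤ δ) : ∏ q, P q ≤ δ * ∏ q, T q := by
  classical
  rw [← mul_prod_erase univ P (mem_univ q₀), ← mul_prod_erase univ T (mem_univ q₀)]
  have h1 : ∏ q ∈ univ.erase q₀, P q ≤ ∏ q ∈ univ.erase q₀, T q := prod_le_prod (fun q _ => hP q) fun q _ => hPT q
  have h2 : 0 ≤ ∏ q ∈ univ.erase q₀, P q := prod_nonneg fun q _ => hP q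
  calc P q₀ * ∏ q ∈ univ.erase q₀, P q ≤ (T q₀ * δ) * ∏ q ∈ univ.erase q₀, T q :=
        mul_le_mul h h1 h2 ((hP q₀).trans h)
    _ = _ := by ring

theorem core (b : ℕ) (hb : 2 ≤ b) : ∃ s k₀ : ℕ, ∀ K : ℕ, k₀ ≤ K → ∀ N : ℕ, (b % 2 = 0 → 2 ∣ N) → b ^ (K - 1) ≤ N → N < b ^ K →
    ∃ P : Finset ℕ, P.card ≤ 2 + 3 * s ∧ (∀ j ∈ P, j + 1 < K) ∧
      ∀ y : ℕ, (y : ℤ) = N + ∑ j ∈ P, fl b N j → ((b ^ K : ℕ) : ℝ) / (8 * b) ≤ Rw y := by
  classical
  have hbn : 0 < b := by omega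
  have hb1 : 1 < b := by omega
  have hbr : (2 : ℝ) ≤ b := by exact_mod_cast hb
  have hb0 : (0 : ℝ) < b := by linarith
  obtain ⟨R, hR, hbad⟩ := bad_sum b hb
  obtain ⟨C, hC0, hEn⟩ := energy_main b (1024 * b) hb
  obtain ⟨δ, hδ⟩ : ∃ δ : ℝ, δ = 1 / (64 * b * (C + 1)) := ⟨_, rfl⟩
  have hδ0 : 0 < δ := by rw [hδ]; positivity
  have hδ1 : δ ≤ 1 := by
    rw [hδ, div_le_one (by positivity)]
    nlinarith
  have hR0 : (0 : ℝ) < R := by exact_mod_cast hR
  obtain ⟨s, hs⟩ : ∃ s : ℕ, s = ⌈(R : ℝ) * (b : ℝ) ^ 4 / δ⌉₊ + 1 := ⟨_, rfl⟩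
  have hs1 : 1 ≤ s := by omega
  have hδs : Real.exp (-((s : ℝ) / (R * (b : ℝ) ^ 4))) ≤ δ := by
    have e1 : (R : ℝ) * (b : ℝ) ^ 4 / δ ≤ s := by
      have := Nat.le_ceil ((R : ℝ) * (b : ℝ) ^ 4 / δ)
      rw [hs]; push_cast; linarith
    have e2 : 1 / δ ≤ (s : ℝ) / (R * (b : ℝ) ^ 4) := by
      rw [le_div_iff₀ (by positivity)]
      calc 1 / δ * (R * (b : ℝ) ^ 4) = (R : ℝ) * (b : ℝ) ^ 4 / δ := by ring
        _ ≤ (s : ℝ) := e1
    rw [Real.exp_neg, inv_le_comm₀ (Real.exp_pos _) hδ0, ← one_div]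
    have := Real.add_one_le_exp ((s : ℝ) / (R * (b : ℝ) ^ 4))
    linarith
  obtain ⟨A, B, hUA, hB⟩ := hbad 1 (R * s + 2)
  obtain ⟨B₂, hB₂⟩ : ∃ B₂, B₂ = max B 3 := ⟨_, rfl⟩
  obtain ⟨k1, h1⟩ := hB (B₂ + 1)
  obtain ⟨k2, h2⟩ := hEn (B₂ + 1)
  obtain ⟨n3, h3⟩ := Mw_ge b (B₂ + 1) hb
  obtain ⟨k4, h4⟩ := hh_small b A (512 * b) hb
  refine ⟨s, k1 + k2 + n3 + k4 + 64 * b + 4 * R * s + 8, fun K hK N hN2 hN1 hN3 => ?_⟩
  obtain ⟨X, hX⟩ : ∃ X, X = b ^ K := ⟨_, rfl⟩
  obtain ⟨M, hM⟩ : ∃ M, M = b ^ (K + 1) := ⟨_, rfl⟩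
  have hKX : K < X := by rw [hX]; exact Nat.lt_pow_self hb1
  have hMX : M = b * X := by rw [hM, hX, pow_succ']
  have hXM : 2 * X ≤ M := by rw [hMX]; exact Nat.mul_le_mul_right _ hb
  have hX0 : (0 : ℝ) < X := by exact_mod_cast (by omega : 0 < X)
  have hM0 : (0 : ℝ) < M := by exact_mod_cast (by omega : 0 < M)
  obtain ⟨hL1, hL2⟩ := logX b K hb
  obtain ⟨L, hL⟩ : ∃ L, L = Real.log (X : ℝ) := ⟨_, rfl⟩
  rw [← hX, ← hL] at hL1 hL2
  have hK4 : (4 : ℝ) ≤ K := by exact_mod_cast (by omega : 4 ≤ K)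
  have hL2' : 2 ≤ L := by linarith
  have hL0 : 0 < L := by linarith
  -- the level
  obtain ⟨z, hz⟩ : ∃ z, z = ⌈L ^ B₂⌉₊ := ⟨_, rfl⟩
  have hz1 : L ^ B₂ ≤ z := by rw [hz]; exact Nat.le_ceil _
  have hz2 : (z : ℝ) ≤ L ^ (B₂ + 1) := by
    have e1 : (z : ℝ) < L ^ B₂ + 1 := by rw [hz]; exact Nat.ceil_lt_add_one (by positivity)
    have e2 : 1 ≤ L ^ B₂ := one_le_pow₀ (by linarith)
    rw [pow_succ]
    nlinarith
  have hz3 : L ^ B ≤ z := (pow_le_pow_right₀ (by linarith) (by rw [hB₂]; exact le_max_left _ _)).trans hz1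
  have hz4 : L ^ 3 ≤ z := (pow_le_pow_right₀ (by linarith) (by rw [hB₂]; exact le_max_right _ _)).trans hz1
  have hz5 : L ≤ z := by
    refine le_trans ?_ hz4
    have : L * 1 ≤ L * L ^ 2 := mul_le_mul_of_nonneg_left (one_le_pow₀ (by linarith)) hL0.le
    calc L = L * 1 := (mul_one L).symm
      _ ≤ L * L ^ 2 := this
      _ = L ^ 3 := by ring
  have hz6 : 2 ≤ z := by
    have : (2 : ℝ) ≤ z := by linarith
    exact_mod_cast this
  -- the windows
  obtain ⟨h, hh'⟩ : ∃ h, h = hh b A K := ⟨_, rfl⟩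
  obtain ⟨g, hg⟩ : ∃ g, g = K / (16 * b) / 8 := ⟨_, rfl⟩
  have hhA : 2 * A ≤ h := by
    rw [hh']; unfold hh
    exact Nat.le_mul_of_pos_right _ (by omega)
  have hhs : 2 * R * s + 4 ≤ h := by
    have : 2 * (R * s + 2) ≤ 2 * A := Nat.mul_le_mul_left _ hUA
    have e : 2 * (R * s + 2) = 2 * R * s + 4 := by ring
    omega
  have hsR : s ≤ R * s := Nat.le_mul_of_pos_left _ (by omega)
  have hRs2 : 2 * R * s = 2 * (R * s) := by ring
  have hgh : 4 * h ≤ g := by
    have e1 := h4 K (by omega)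
    rw [← hh'] at e1
    rw [hg, Nat.div_div_eq_div_mul]
    apply (Nat.le_div_iff_mul_le (by omega)).2
    calc 4 * h * (16 * b * 8) = 512 * b * h := by ring
      _ ≤ K := e1
  have hgK : 128 * b * g ≤ K := by
    rw [hg, Nat.div_div_eq_div_mul]
    have : 16 * b * 8 = 128 * b := by ring
    rw [this]
    exact Nat.mul_div_le K (128 * b)
  have hgK2 : K < 128 * b * (g + 1) := by
    rw [hg, Nat.div_div_eq_div_mul]
    have : 16 * b * 8 = 128 * b := by ring
    rw [this]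
    exact Nat.lt_mul_div_succ K (by omega)
  have hgK3 : 256 * g ≤ K := by
    refine le_trans ?_ hgK
    exact Nat.mul_le_mul_right _ (by omega)
  obtain ⟨w, hw⟩ : ∃ w, w = g / 4 := ⟨_, rfl⟩
  have hw1 : 4 * w ≤ g := by omega
  have hw2 : g + 1 ≤ 8 * w := by omega
  have hKw : K ≤ 1024 * b * w := by
    calc K ≤ 128 * b * (g + 1) := hgK2.le
      _ ≤ 128 * b * (8 * w) := Nat.mul_le_mul_left _ hw2
      _ = _ := by ring
  obtain ⟨st, hst0, hst1, hst2⟩ : ∃ st : Fin 3 → ℕ, st 0 = 1 ∧ st 1 = K - 1 - h ∧ st 2 = g := ⟨![1, K - 1 - h, g], rfl, rfl, rfl⟩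
  obtain ⟨len, hln0, hln1, hln2⟩ : ∃ len : Fin 3 → ℕ, len 0 = h ∧ len 1 = h ∧ len 2 = K - 2 * g := ⟨![h, h, K - 2 * g], rfl, rfl, rfl⟩
  have hq3 : ∀ q : Fin 3, q = 0 ∨ q = 1 ∨ q = 2 := by decide
  have hwin : ∀ q, 1 ≤ st q ∧ st q + len q + 1 ≤ K ∧ s ≤ len q := by
    intro q
    rcases hq3 q with rfl | rfl | rfl
    · rw [hst0, hln0]; omega
    · rw [hst1, hln1]; omega
    · rw [hst2, hln2]; omega
  have hdisw : ∀ q q', q ≠ q' → st q + len q ≤ st q' ∨ st q' + len q' ≤ st q := by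
    intro q q' hne
    rcases hq3 q with rfl | rfl | rfl <;> rcases hq3 q' with rfl | rfl | rfl
    · exact absurd rfl hne
    · left; rw [hst0, hln0, hst1]; omega
    · left; rw [hst0, hln0, hst2]; omega
    · right; rw [hst0, hln0, hst1]; omega
    · exact absurd rfl hne
    · right; rw [hst2, hln2, hst1]; omega
    · right; rw [hst0, hln0, hst2]; omega
    · left; rw [hst2, hln2, hst1]; omega
    · exact absurd rfl hne
  have hdisJ : ∀ q, st q + len q ≤ 1 + h ∨ 1 + h + w + w ≤ st q := by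
    intro q
    rcases hq3 q with rfl | rfl | rfl
    · left; rw [hst0, hln0]
    · right; rw [hst1]; omega
    · right; rw [hst2]; omega
  obtain ⟨x, hx⟩ : ∃ x : Fin 3 × Fin s → ℕ, x = fun c => st c.1 + c.2 * (len c.1 / s) := ⟨_, rfl⟩
  obtain ⟨l, hl⟩ : ∃ l : Fin 3 × Fin s → ℕ, l = fun c => len c.1 / s := ⟨_, rfl⟩
  have hl1 : ∀ q, 1 ≤ len q / s := fun q => (Nat.le_div_iff_mul_le (by omega)).2 (by rw [one_mul]; exact (hwin q).2.2)
  have hxl : ∀ c : Fin 3 × Fin s, st c.1 ≤ x c ∧ x c + l c ≤ st c.1 + len c.1 := by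
    intro c
    rw [hx, hl]
    simp only
    have e1 : (c.2 : ℕ) * (len c.1 / s) + len c.1 / s ≤ len c.1 := by
      calc (c.2 : ℕ) * (len c.1 / s) + len c.1 / s = ((c.2 : ℕ) + 1) * (len c.1 / s) := by ring
        _ ≤ s * (len c.1 / s) := Nat.mul_le_mul_right _ c.2.2
        _ ≤ len c.1 := Nat.mul_div_le _ _
    omega
  have : Nonempty (Fin 3 × Fin s) := ⟨(0, ⟨0, by omega⟩)⟩
  obtain ⟨J, hJ⟩ : ∃ J, J = Ico (1 + h) (1 + h + w) := ⟨_, rfl⟩
  obtain ⟨J', hJ'⟩ : ∃ J', J' = Ico (1 + h + w) (1 + h + w + w) := ⟨_, rfl⟩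
  have hJcard : (J.card : ℝ) = w := by rw [hJ, Nat.card_Ico, Nat.add_sub_cancel_left]
  have hJ'card : (J'.card : ℝ) = w := by rw [hJ', Nat.card_Ico, Nat.add_sub_cancel_left]
  obtain ⟨Ω, hΩ⟩ : ∃ Ω, Ω = J ×ˢ (J' ×ˢ Ov x l) := ⟨_, rfl⟩
  obtain ⟨Tt, hTt⟩ : ∃ Tt : ℝ, Tt = ∏ c : Fin 3 × Fin s, (2 * (l c : ℝ)) := ⟨_, rfl⟩
  have hTt0 : 0 ≤ Tt := by rw [hTt]; exact prod_nonneg fun _ _ => by positivity
  have hΩcard : ((Ω.card : ℕ) : ℝ) = (w : ℝ) ^ 2 * Tt := by
    rw [hΩ, card_product, card_product, card_Ov]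
    push_cast
    rw [hJcard, hJ'card, hTt]
    ring
  have hw0 : (0 : ℝ) < w := by exact_mod_cast (by omega : 0 < w)
  have hTtpos : 0 < Tt := by
    rw [hTt]
    apply prod_pos
    intro c _
    have : (1 : ℝ) ≤ l c := by rw [hl]; exact_mod_cast hl1 c.1
    linarith
  -- the data for every choice
  have hdata : ∀ o ∈ Ω, ∃ P : Finset ℕ, P.card ≤ 2 + 3 * s ∧ (∀ j ∈ P, j + 1 < K) ∧ nv b N o = N + ∑ j ∈ P, fl b N j := by
    intro o ho
    rw [hΩ, mem_product, mem_product, hJ, hJ', mem_Ico, mem_Ico] at ho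
    obtain ⟨ho1, ho2, ho3⟩ := ho
    unfold Ov at ho3
    rw [Fintype.mem_piFinset] at ho3
    have hv1 : ∀ c, x c ≤ (o.2.2 c).1 ∧ (o.2.2 c).1 < x c + l c ∧ (o.2.2 c).2 < 2 := by
      intro c
      have := ho3 c
      rw [mem_product, mem_Ico, mem_range] at this
      exact ⟨this.1.1, this.1.2, this.2⟩
    have hdis : ∀ c c', c ≠ c' → (o.2.2 c).1 ≠ (o.2.2 c').1 := by
      intro c c' hne
      have a1 := hv1 c
      have a2 := hv1 c'
      have a3 := hxl c
      have a4 := hxl c'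
      by_cases hq : c.1 = c'.1
      · have hi : (c.2 : ℕ) ≠ c'.2 := by
          intro hi
          apply hne
          exact Prod.ext hq (Fin.ext hi)
        have hxc : x c = st c.1 + c.2 * (len c.1 / s) := by rw [hx]
        have hxc' : x c' = st c.1 + c'.2 * (len c.1 / s) := by rw [hx, hq]
        have hlc : l c = len c.1 / s := by rw [hl]
        have hlc' : l c' = len c.1 / s := by rw [hl, hq]
        rcases Nat.lt_or_gt_of_ne hi with h5 | h5
        · have : ((c.2 : ℕ) + 1) * (len c.1 / s) ≤ c'.2 * (len c.1 / s) := Nat.mul_le_mul_right _ h5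
          rw [add_mul, one_mul] at this
          omega
        · have : ((c'.2 : ℕ) + 1) * (len c.1 / s) ≤ c.2 * (len c.1 / s) := Nat.mul_le_mul_right _ h5
          rw [add_mul, one_mul] at this
          omega
      · rcases hdisw _ _ hq with h5 | h5 <;> omega
    obtain ⟨P, hP1, hP2, hP3⟩ := flips_set b N o.1 o.2.1 o.2.2 hdis (by omega)
      (fun c => by
        have a1 := hv1 c
        have a3 := hxl c
        rcases hdisJ c.1 with h5 | h5 <;> omega)
      (fun c => by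
        have a1 := hv1 c
        have a3 := hxl c
        rcases hdisJ c.1 with h5 | h5 <;> omega)
      (fun c => (hv1 c).2.2)
    refine ⟨P, ?_, ?_, ?_⟩
    · rw [Fintype.card_prod, Fintype.card_fin, Fintype.card_fin] at hP1
      exact hP1
    · intro j hj
      rcases hP3 j hj with h5 | h5 | ⟨c, h5⟩
      · omega
      · omega
      · have a1 := hv1 c
        have a3 := hxl c
        have a4 := hwin c.1
        omega
    · rw [hP2]
      unfold nv
      ring
  have hrange : ∀ o ∈ Ω, 0 < nv b N o ∧ nv b N o ≤ X ∧ X ≤ b * (nv b N o).toNat := by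
    intro o ho
    obtain ⟨P, _, hP2, hP3⟩ := hdata o ho
    obtain ⟨y, hy1, _, hy3⟩ := flip_many b N hb P
    have hy4 := hy3 (K - 1) (fun j hj => by have := hP2 j hj; omega)
    rw [← hP3] at hy1
    have hbK : 0 < b ^ (K - 1) := Nat.pow_pos hbn
    have hXK : X = b ^ (K - 1) * b := by rw [hX, ← pow_succ]; congr 1; omega
    have e1 : 1 ≤ N / b ^ (K - 1) := (Nat.one_le_div_iff hbK).2 hN1
    have e2 : N / b ^ (K - 1) < b := Nat.div_lt_of_lt_mul (by rw [← hXK, hX]; exact hN3)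
    rw [← hy4] at e1 e2
    have e3 : b ^ (K - 1) ≤ y := (Nat.one_le_div_iff hbK).1 e1
    have e4 : y < X := by
      rw [hXK]
      exact (Nat.div_lt_iff_lt_mul hbK).1 e2 |>.trans_le (by rw [mul_comm])
    have e5 : (nv b N o).toNat = y := by omega
    have e6 : 1 ≤ y := hbK.trans_le e3
    rw [e5]
    refine ⟨by omega, by omega, ?_⟩
    rw [hXK, mul_comm]
    exact Nat.mul_le_mul_left _ e3
  -- the transforms
  obtain ⟨F, hF⟩ : ∃ F : ℕ → ℂ, F = FF (fun n => ArithmeticFunction.vonMangoldt n) X M := ⟨_, rfl⟩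
  obtain ⟨G, hG⟩ : ∃ G : ℕ → ℂ, G = FF (fun n => ArithmeticFunction.vonMangoldt n - lamz z n) X M := ⟨_, rfl⟩
  have hEE := sum_EE b N K (fun r => F r * G r) J J' x l
  rw [← hM, ← hΩ] at hEE
  -- the bound for the products
  have hprodc : ∀ r, ∏ c, ‖OC b N M (Ico (x c) (x c + l c)) r‖ =
      ∏ q : Fin 3, ∏ i ∈ range s, ‖OC b N M (Ico (st q + i * (len q / s)) (st q + i * (len q / s) + len q / s)) r‖ := by
    intro r
    rw [Fintype.prod_prod_type]
    apply prod_congr rfl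
    intro q _
    rw [← Fin.prod_univ_eq_prod_range (fun i => ‖OC b N M (Ico (st q + i * (len q / s)) (st q + i * (len q / s) + len q / s)) r‖) s]
    rw [hx, hl]
  have hTtq : Tt = ∏ q : Fin 3, (2 * ((len q / s : ℕ) : ℝ)) ^ s := by
    rw [hTt, Fintype.prod_prod_type]
    apply prod_congr rfl
    intro q _
    rw [hl]
    simp only
    rw [prod_const, card_univ, Fintype.card_fin]
  have hP0 : ∀ r, 0 ≤ ∏ c, ‖OC b N M (Ico (x c) (x c + l c)) r‖ := fun r => prod_nonneg fun _ _ => norm_nonneg _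
  have htriv : ∀ r, ∏ c, ‖OC b N M (Ico (x c) (x c + l c)) r‖ ≤ Tt := by
    intro r
    rw [hprodc, hTtq]
    apply prod_le_prod
    · intro q _
      exact prod_nonneg fun _ _ => norm_nonneg _
    · intro q _
      rw [hM]
      exact window_le' b N K (st q) (len q) s r hb (by have := hwin q; omega)
  have hgood : ∀ r, ¬ Bad b R K h (K / (16 * b)) r → ∏ c, ‖OC b N M (Ico (x c) (x c + l c)) r‖ ≤ δ * Tt := by
    intro r hr
    -- one of the windows
    have hex : ∃ q : Fin 3, ∃ E : ℕ, len q ≤ E ∧ 2 * R * s ≤ E ∧ E ≤ ne b (K - st q - len q) (len q) r * R := by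
      unfold Bad at hr
      rw [← hg] at hr
      by_cases c1 : ne b (K - 1 - h) h r * R ≤ 2 * h
      · by_cases c2 : ne b 1 h r * R ≤ 2 * h
        · by_cases c3 : ne b g (K - 2 * g) r * R ≤ K
          · exact absurd ⟨c1, c2, c3⟩ hr
          · refine ⟨2, K, ?_, ?_, ?_⟩
            · rw [hln2]; omega
            · have : 4 * R * s = 2 * (2 * R * s) := by ring
              omega
            · rw [hst2, hln2]
              have : K - g - (K - 2 * g) = g := by omega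
              rw [this]
              omega
        · refine ⟨1, h, ?_, by omega, ?_⟩
          · rw [hln1]
          · rw [hst1, hln1]
            have : K - (K - 1 - h) - h = 1 := by omega
            rw [this]
            omega
      · refine ⟨0, h, ?_, by omega, ?_⟩
        · rw [hln0]
        · rw [hst0, hln0]
          omega
    obtain ⟨q, E, hE1, hE2, hE3⟩ := hex
    rw [hprodc, hTtq]
    apply three_prod _ _ δ hδ1 (fun q => prod_nonneg fun _ _ => norm_nonneg _)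
      (fun q => by rw [hM]; exact window_le' b N K (st q) (len q) s r hb (by have := hwin q; omega)) q _ hδ0.le
    have e1 := window_le b N K (st q) (len q) s r hb hs1 (by have := hwin q; omega) (hl1 q)
    rw [← hM] at e1
    refine e1.trans ?_
    apply mul_le_mul_of_nonneg_left _ (by positivity)
    apply window_num b R s (len q) E _ δ hb hR hs1 (hl1 q) hE1 hE2 _ hδs
    exact_mod_cast hE3
  -- the energies
  have hLX : Real.log ((b ^ K : ℕ) : ℝ) = L := by rw [← hX, hL]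
  have hen1 := (h2 K (by omega) z (by rw [hLX]; exact hz5) (by rw [hLX]; exact hz2) N (1 + h) w (by omega) hKw).1
  have hen2 := (h2 K (by omega) z (by rw [hLX]; exact hz5) (by rw [hLX]; exact hz2) N (1 + h + w) w (by omega) hKw).2
  rw [← hX, ← hJ] at hen1
  rw [← hX, ← hJ'] at hen2
  have hTJ : ∀ j ∈ J, b ^ j ≤ b ^ (K - 1) := by
    intro j hj
    rw [hJ, mem_Ico] at hj
    exact Nat.pow_le_pow_right hbn (by omega)
  have hTJ' : ∀ j ∈ J', b ^ j ≤ b ^ (K - 1) := by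
    intro j hj
    rw [hJ', mem_Ico] at hj
    exact Nat.pow_le_pow_right hbn (by omega)
  have hTM : X + 2 * b ^ (K - 1) ≤ M := by
    have e1 : 2 * b ^ (K - 1) ≤ X := by
      have hXK : X = b ^ (K - 1) * b := by rw [hX, ← pow_succ]; congr 1; omega
      rw [hXK, mul_comm]
      exact Nat.mul_le_mul_left _ hb
    omega
  have hq1 := energy_eq b N (fun n => ArithmeticFunction.vonMangoldt n) X M (by omega) J _ hTJ hTM
  have hq2 := energy_eq b N (fun n => ArithmeticFunction.vonMangoldt n - lamz z n) X M (by omega) J' _ hTJ' hTM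
  rw [← hF] at hq1
  rw [← hG] at hq2
  have hgs : ∑ r ∈ range M, ‖F r * PJ b N M J r‖ * ‖G r * PJ b N M J' r‖ ≤ M * (C * X * (w : ℝ) ^ 2) := by
    have e1 := Real.sum_mul_le_sqrt_mul_sqrt (range M) (fun r => ‖F r * PJ b N M J r‖) (fun r => ‖G r * PJ b N M J' r‖)
    rw [hq1, hq2] at e1
    refine e1.trans ?_
    have e2 : √(M * Qe b N (fun n => ArithmeticFunction.vonMangoldt n) X J) ≤ √(M * (C * X * (w : ℝ) ^ 2)) :=
      Real.sqrt_le_sqrt (mul_le_mul_of_nonneg_left hen1 hM0.le)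
    have e3 : √(M * Qe b N (fun n => ArithmeticFunction.vonMangoldt n - lamz z n) X J') ≤ √(M * (C * X * (w : ℝ) ^ 2)) :=
      Real.sqrt_le_sqrt (mul_le_mul_of_nonneg_left hen2 hM0.le)
    refine (mul_le_mul e2 e3 (Real.sqrt_nonneg _) (Real.sqrt_nonneg _)).trans ?_
    rw [Real.mul_self_sqrt (by positivity)]
  -- nearly extremal frequencies
  obtain ⟨S, hS⟩ : ∃ S, S = (range M).filter (fun r => Bad b R K h (K / (16 * b)) r) := ⟨_, rfl⟩
  have hbads : ∑ r ∈ S, ‖F r‖ * ‖G r‖ ≤ M * X / (K : ℝ) ^ (R * s + 2) := by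
    have e1 := h1 K (by omega) z (by rw [hLX]; exact hz3) (by rw [hLX]; exact hz2) 0 1 le_rfl (by rw [pow_one]; omega) S (by
      intro r hr
      rw [hS, mem_filter, mem_range] at hr
      rw [← hM, ← hh', one_mul, add_zero, Nat.mod_eq_of_lt hr.1]
      exact hr)
    rw [← hX, ← hM, ← hF, ← hG] at e1
    exact e1
  have htotal : ‖∑ o ∈ Ω, EE (fun r => F r * G r) M (nv b N o)‖ ≤
      (w : ℝ) ^ 2 * Tt * (M * X / (K : ℝ) ^ (R * s + 2)) + δ * Tt * (M * (C * X * (w : ℝ) ^ 2)) := by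
    refine hEE.trans ?_
    rw [← sum_filter_add_sum_filter_not (range M) (fun r => Bad b R K h (K / (16 * b)) r), ← hS]
    apply add_le_add
    · calc _ ≤ ∑ r ∈ S, ((w : ℝ) ^ 2 * Tt) * (‖F r‖ * ‖G r‖) := by
            apply sum_le_sum
            intro r _
            rw [norm_mul]
            have e1 := norm_PJ_le b N M J r
            have e2 := norm_PJ_le b N M J' r
            rw [hJcard] at e1
            rw [hJ'card] at e2
            have e3 : ‖PJ b N M J r‖ * ‖PJ b N M J' r‖ * ∏ c, ‖OC b N M (Ico (x c) (x c + l c)) r‖ ≤ (w : ℝ) ^ 2 * Tt := by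
              rw [sq]
              exact mul_le_mul (mul_le_mul e1 e2 (norm_nonneg _) hw0.le) (htriv r) (hP0 r) (by positivity)
            calc ‖F r‖ * ‖G r‖ * (‖PJ b N M J r‖ * ‖PJ b N M J' r‖ * ∏ c, ‖OC b N M (Ico (x c) (x c + l c)) r‖) ≤
                  ‖F r‖ * ‖G r‖ * ((w : ℝ) ^ 2 * Tt) := mul_le_mul_of_nonneg_left e3 (by positivity)
              _ = _ := by ring
        _ = ((w : ℝ) ^ 2 * Tt) * ∑ r ∈ S, ‖F r‖ * ‖G r‖ := by rw [mul_sum]
        _ ≤ _ := mul_le_mul_of_nonneg_left hbads (by positivity)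
    · calc _ ≤ ∑ r ∈ (range M).filter (fun r => ¬ Bad b R K h (K / (16 * b)) r),
            (δ * Tt) * (‖F r * PJ b N M J r‖ * ‖G r * PJ b N M J' r‖) := by
            apply sum_le_sum
            intro r hr
            rw [mem_filter] at hr
            have e1 := hgood r hr.2
            rw [norm_mul, norm_mul, norm_mul]
            calc ‖F r‖ * ‖G r‖ * (‖PJ b N M J r‖ * ‖PJ b N M J' r‖ * ∏ c, ‖OC b N M (Ico (x c) (x c + l c)) r‖) ≤
                  ‖F r‖ * ‖G r‖ * (‖PJ b N M J r‖ * ‖PJ b N M J' r‖ * (δ * Tt)) := by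
                  apply mul_le_mul_of_nonneg_left _ (by positivity)
                  exact mul_le_mul_of_nonneg_left e1 (by positivity)
              _ = _ := by ring
        _ = (δ * Tt) * ∑ r ∈ (range M).filter (fun r => ¬ Bad b R K h (K / (16 * b)) r),
            (‖F r * PJ b N M J r‖ * ‖G r * PJ b N M J' r‖) := by rw [mul_sum]
        _ ≤ (δ * Tt) * ∑ r ∈ range M, (‖F r * PJ b N M J r‖ * ‖G r * PJ b N M J' r‖) := by
            apply mul_le_mul_of_nonneg_left _ (by positivity)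
            exact sum_le_sum_of_subset_of_nonneg (filter_subset _ _) fun _ _ _ => by positivity
        _ ≤ _ := mul_le_mul_of_nonneg_left hgs (by positivity)
  -- the values
  have hval : ∀ o ∈ Ω, EE (fun r => F r * G r) M (nv b N o) = ((M * (Rw (nv b N o).toNat - Mw z (nv b N o).toNat) : ℝ) : ℂ) := by
    intro o ho
    obtain ⟨g1, g2, _⟩ := hrange o ho
    have hconv := EE_conv (fun n => ArithmeticFunction.vonMangoldt n) (fun n => ArithmeticFunction.vonMangoldt n - lamz z n) X M (by omega)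
        hXM (nv b N o) g1 g2
    rw [← hF, ← hG] at hconv
    rw [hconv]
    obtain ⟨n, hn⟩ : ∃ n : ℕ, (n : ℤ) = nv b N o := ⟨(nv b N o).toNat, by omega⟩
    have hn' : (nv b N o).toNat = n := by omega
    rw [hn', ← sum_lamI n X (by omega), ← sum_lamzI z n X hz6 (by omega), ← sum_sub_distrib]
    congr 2
    apply sum_congr rfl
    intro a _
    rw [← hn]
    unfold lamI lamzI
    by_cases h7 : 1 ≤ (n : ℤ) - (a : ℤ)
    · rw [if_pos h7, if_pos h7, if_pos h7]; ring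
    · rw [if_neg h7, if_neg h7, if_neg h7]; ring
  have hdiff : |∑ o ∈ Ω, (Rw (nv b N o).toNat - Mw z (nv b N o).toNat)| ≤ Ω.card * (X / (32 * b)) := by
    have e1 : ∑ o ∈ Ω, EE (fun r => F r * G r) M (nv b N o) =
        ((M * ∑ o ∈ Ω, (Rw (nv b N o).toNat - Mw z (nv b N o).toNat) : ℝ) : ℂ) := by
      rw [sum_congr rfl hval, mul_sum]
      push_cast
      rfl
    rw [e1, Complex.norm_real, Real.norm_eq_abs, abs_mul, abs_of_pos hM0] at htotal
    have e2 : 1 / (K : ℝ) ^ (R * s + 2) ≤ 1 / (64 * b) := by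
      apply div_le_div_of_nonneg_left (by norm_num) (by positivity)
      have e3 : (64 * b : ℝ) ≤ K := by exact_mod_cast (by omega : 64 * b ≤ K)
      calc (64 * b : ℝ) ≤ K := e3
        _ = (K : ℝ) ^ 1 := (pow_one _).symm
        _ ≤ (K : ℝ) ^ (R * s + 2) := pow_le_pow_right₀ (by linarith) (by omega)
    have e4 : δ * C ≤ 1 / (64 * b) := by
      rw [hδ, div_mul_eq_mul_div, one_mul, div_le_div_iff₀ (by positivity) (by positivity)]
      nlinarith
    have e5 : (w : ℝ) ^ 2 * Tt * (M * X / (K : ℝ) ^ (R * s + 2)) + δ * Tt * (M * (C * X * (w : ℝ) ^ 2)) ≤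
        M * (Ω.card * (X / (32 * b))) := by
      rw [hΩcard]
      calc (w : ℝ) ^ 2 * Tt * (M * X / (K : ℝ) ^ (R * s + 2)) + δ * Tt * (M * (C * X * (w : ℝ) ^ 2)) =
            ((w : ℝ) ^ 2 * Tt * (M * X)) * (1 / (K : ℝ) ^ (R * s + 2) + δ * C) := by ring
        _ ≤ ((w : ℝ) ^ 2 * Tt * (M * X)) * (1 / (64 * b) + 1 / (64 * b)) :=
            mul_le_mul_of_nonneg_left (add_le_add e2 e4) (by positivity)
        _ = _ := by ring
    exact le_of_mul_le_mul_left (htotal.trans e5) hM0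
  -- the main term
  have hmain : (Ω.card : ℝ) * (X / (4 * b)) ≤ ∑ o ∈ Ω, Mw z (nv b N o).toNat := by
    have e1 := half_even b N J J' x l hN2 (by intro j hj; rw [hJ, mem_Ico] at hj; omega)
      (by intro j hj; rw [hJ', mem_Ico] at hj; omega) (by
        intro c
        have a1 := hxl c
        have a2 := hwin c.1
        omega)
    rw [← hΩ] at e1
    have e2 : ∀ o ∈ Ω, (X / (2 * b)) * (if (2 : ℤ) ∣ nv b N o then (1 : ℝ) else 0) ≤ Mw z (nv b N o).toNat := by
      intro o ho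
      obtain ⟨g1, g2, g3⟩ := hrange o ho
      split_ifs with hev
      · rw [mul_one]
        have e3 := h3 X (by omega) z (by rw [← hL]; exact hz4) (by rw [← hL]; exact hz2) (nv b N o).toNat (by omega) g3 (by omega)
        refine le_trans ?_ e3
        rw [div_le_div_iff₀ (by positivity) (by norm_num)]
        have : (X : ℝ) ≤ b * ((nv b N o).toNat : ℝ) := by exact_mod_cast g3
        linarith
      · rw [mul_zero]; exact Mw_nonneg _ _
    have e3 := sum_le_sum e2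
    rw [← mul_sum] at e3
    refine le_trans ?_ e3
    have e4 : (Ω.card : ℝ) * (X / (4 * b)) = (X / (2 * b)) * (Ω.card / 2) := by ring
    rw [e4]
    apply mul_le_mul_of_nonneg_left _ (by positivity)
    linarith
  -- conclusion
  have hRsum : ∑ _o ∈ Ω, (X : ℝ) / (8 * b) ≤ ∑ o ∈ Ω, Rw (nv b N o).toNat := by
    rw [sum_const, nsmul_eq_mul]
    have e1 := (abs_le.1 hdiff).1
    rw [sum_sub_distrib] at e1
    have e2 : (Ω.card : ℝ) * (X / (8 * b)) ≤ (Ω.card : ℝ) * (X / (4 * b)) - (Ω.card : ℝ) * (X / (32 * b)) := by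
      rw [← mul_sub]
      apply mul_le_mul_of_nonneg_left _ (Nat.cast_nonneg _)
      have : 0 < (X : ℝ) / b := by positivity
      have a1 : (X : ℝ) / (8 * b) = (X / b) / 8 := by rw [div_div, mul_comm]
      have a2 : (X : ℝ) / (4 * b) = (X / b) / 4 := by rw [div_div, mul_comm]
      have a3 : (X : ℝ) / (32 * b) = (X / b) / 32 := by rw [div_div, mul_comm]
      rw [a1, a2, a3]
      linarith
    linarith
  have hΩne : Ω.Nonempty := by
    rw [← card_pos]
    have : (0 : ℝ) < Ω.card := by rw [hΩcard]; positivity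
    exact_mod_cast this
  obtain ⟨o, ho, hRo⟩ := exists_le_of_sum_le hΩne hRsum
  obtain ⟨P, hP1, hP2, hP3⟩ := hdata o ho
  refine ⟨P, hP1, hP2, fun y hy => ?_⟩
  rw [← hP3] at hy
  have : (nv b N o).toNat = y := by omega
  rw [this] at hRo
  rw [← hX]
  exact hRo

end Pool.Agent.W93.HD
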