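import Pool.Agent.W93.HD8

set_option autoImplicit false

/-! Goldbach's conjecture after a bounded number of changes of digits. -/

namespace Pool.Agent.W93.HD
open Finset
open Pool.Agent.H560R3.GB
open Pool.Agent.W93.GB (Rw distinct_of_g)

theorem hd_main (b : ℕ) (hb : 2 ≤ b) : ∃ (t N₀ : ℕ) (c : ℝ), 0 < c ∧ ∀ N : ℕ, N₀ ≤ N → ∃ n : ℕ,
    (∃ P : Finset ℕ, P.card ≤ t ∧ ∀ i, i ∉ P → n / b ^ i % b = N / b ^ i % b) ∧
    c * n / Real.log n ^ 2 ≤ g n ∧ ∃ p q : ℕ, p.Prime ∧ q.Prime ∧ p ≠ q ∧ p + q = n := by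
  classical
  obtain ⟨s, k₀, hcore⟩ := core b hb
  have hbn : 0 < b := by omega
  have hb1 : 1 < b := by omega
  have hb0 : (0 : ℝ) < b := by exact_mod_cast hbn
  obtain ⟨n0, hg⟩ := g_ge (1 / (8 * b)) (by positivity)
  refine ⟨3 + 3 * s, b ^ (k₀ + n0 + 2), 1 / (8 * b) / 2, by positivity, fun N hN => ?_⟩
  have hN0 : N ≠ 0 := by
    have : 0 < b ^ (k₀ + n0 + 2) := Nat.pow_pos hbn
    omega
  obtain ⟨κ, hκ⟩ : ∃ κ, κ = Nat.log b N := ⟨_, rfl⟩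
  have hκ1 : b ^ κ ≤ N := by rw [hκ]; exact Nat.pow_log_le_self b hN0
  have hκ2 : N < b ^ (κ + 1) := by rw [hκ]; exact Nat.lt_pow_succ_log_self hb1 N
  have hκ3 : k₀ + n0 + 2 ≤ κ := by rw [hκ]; exact Nat.le_log_of_pow_le hb1 hN
  -- the last digit
  have hfirst : ∃ N₁ : ℕ, (b % 2 = 0 → 2 ∣ N₁) ∧ N₁ / b ^ κ = N / b ^ κ ∧ ∀ i, i ≠ 0 → N₁ / b ^ i % b = N / b ^ i % b := by
    by_cases hcase : b % 2 = 0 ∧ N % 2 = 1
    · obtain ⟨y, hy1, hy2, hy3⟩ := flip_one b N 0 hb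
      refine ⟨y, fun _ => ?_, ?_, hy3⟩
      · have e1 : fl b N 0 = 1 ∨ fl b N 0 = -1 := by
          have := fl_cases b N 0
          rw [pow_zero] at this
          exact this
        omega
      · obtain ⟨d, hd⟩ : ∃ d, κ = (0 + 1) + d := ⟨κ - 1, by omega⟩
        rw [hd, pow_add b (0 + 1), ← Nat.div_div_eq_div_mul, ← Nat.div_div_eq_div_mul, hy2]
    · refine ⟨N, fun h => ?_, rfl, fun _ _ => rfl⟩
      omega
  obtain ⟨N₁, hN1, hN2, hN3⟩ := hfirst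
  have hpow : 0 < b ^ κ := Nat.pow_pos hbn
  have e1 : 1 ≤ N₁ / b ^ κ := by rw [hN2]; exact (Nat.one_le_div_iff hpow).2 hκ1
  have e2 : N₁ / b ^ κ < b := by
    rw [hN2]
    exact Nat.div_lt_of_lt_mul (by rw [← pow_succ]; exact hκ2)
  have e3 : b ^ κ ≤ N₁ := (Nat.one_le_div_iff hpow).1 e1
  have e4 : N₁ < b ^ (κ + 1) := by
    rw [pow_succ, mul_comm]
    exact (Nat.div_lt_iff_lt_mul hpow).1 e2
  obtain ⟨P, hP1, hP2, hP3⟩ := hcore (κ + 1) (by omega) N₁ hN1 (by rw [Nat.add_sub_cancel]; exact e3) e4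
  obtain ⟨y, hy1, hy2, hy3⟩ := flip_many b N₁ hb P
  have hR := hP3 y hy1
  have hyκ := hy3 κ (fun j hj => by have := hP2 j hj; omega)
  rw [hN2] at hyκ
  have f1 : b ^ κ ≤ y := by
    apply (Nat.one_le_div_iff hpow).1
    rw [hyκ, ← hN2]
    exact e1
  have f2 : y < b ^ (κ + 1) := by
    rw [pow_succ, mul_comm]
    apply (Nat.div_lt_iff_lt_mul hpow).1
    rw [hyκ, ← hN2]
    exact e2
  have f3 : κ < b ^ κ := Nat.lt_pow_self hb1
  have hRy : 1 / (8 * b) * (y : ℝ) ≤ Rw y := by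
    refine le_trans ?_ hR
    have : (y : ℝ) ≤ ((b ^ (κ + 1) : ℕ) : ℝ) := by exact_mod_cast f2.le
    calc 1 / (8 * b) * (y : ℝ) = y / (8 * b) := by ring
      _ ≤ ((b ^ (κ + 1) : ℕ) : ℝ) / (8 * b) := div_le_div_of_nonneg_right this (by positivity)
  obtain ⟨g1, g2⟩ := hg y (by omega) hRy
  refine ⟨y, ⟨insert 0 P, ?_, fun i hi => ?_⟩, g1, distinct_of_g y g2⟩
  · have := card_insert_le 0 P
    omega
  · rw [mem_insert, not_or] at hi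
    rw [hy2 i hi.2, hN3 i hi.1]

end Pool.Agent.W93.HD
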