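import Pool.Agent.W93.LM2

set_option autoImplicit false

/-! The exponential sum of the Liouville function on the major and minor arcs. -/

namespace Pool.Agent.W93.LM
open Finset
open Pool.Agent.H807R2.Dav
open Pool.Agent.H373R2.T7 (muC liR liou_split muC_norm muC_eq)

/-- reduction of the fraction `a c / q` -/
lemma reduce (a q : ℕ) (c : ℤ) (ha : 1 ≤ a) (hq : 1 ≤ q) (hc : IsCoprime c (q : ℤ)) :
    ∃ (q' : ℕ) (c' : ℤ), 1 ≤ q' ∧ IsCoprime c' (q' : ℤ) ∧ q' ≤ q ∧ q ≤ a * q' ∧ (a : ℝ) * (c / q) = c' / q' := by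
  have hg0 : 0 < Nat.gcd a q := Nat.gcd_pos_of_pos_left _ ha
  obtain ⟨a', ha'⟩ : Nat.gcd a q ∣ a := Nat.gcd_dvd_left _ _
  obtain ⟨q', hq'⟩ : Nat.gcd a q ∣ q := Nat.gcd_dvd_right _ _
  have hcop' : a'.Coprime q' := by
    have e1 : Nat.gcd (Nat.gcd a q * a') (Nat.gcd a q * q') = Nat.gcd a q := by rw [← ha', ← hq']
    rw [Nat.gcd_mul_left] at e1
    exact Nat.eq_of_mul_eq_mul_left hg0 (by rw [e1, mul_one])
  obtain ⟨g, hg⟩ : ∃ g, g = Nat.gcd a q := ⟨_, rfl⟩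
  rw [← hg] at ha' hq' hg0
  have hq'0 : 1 ≤ q' := by
    rcases Nat.eq_zero_or_pos q' with h0 | h0
    · rw [h0, mul_zero] at hq'; omega
    · exact h0
  have ha'0 : 1 ≤ a' := by
    rcases Nat.eq_zero_or_pos a' with h0 | h0
    · rw [h0, mul_zero] at ha'; omega
    · exact h0
  have hq'd : q' ∣ q := ⟨g, by rw [mul_comm]; exact hq'⟩
  refine ⟨q', a' * c, hq'0, ?_, Nat.le_of_dvd (by omega) hq'd, ?_, ?_⟩
  · apply IsCoprime.mul_left hcop'.isCoprime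
    exact hc.of_isCoprime_of_dvd_right (Int.natCast_dvd_natCast.2 hq'd)
  · rw [hq', ha']
    calc g * q' ≤ g * q' * a' := Nat.le_mul_of_pos_right _ ha'0
      _ = g * a' * q' := by ring
  · have e1 : (a : ℝ) = g * a' := by exact_mod_cast ha'
    have e2 : (q : ℝ) = g * q' := by exact_mod_cast hq'
    have hgr : (0 : ℝ) < g := by exact_mod_cast hg0
    have hqr : (0 : ℝ) < q' := by exact_mod_cast hq'0
    rw [e1, e2]
    push_cast
    field_simp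

/-- the other direction: `c' / (q' a)` -/
lemma reduce' (a q' : ℕ) (c' : ℤ) (ha : 1 ≤ a) (hq : 1 ≤ q') :
    ∃ (q : ℕ) (c : ℤ), 1 ≤ q ∧ IsCoprime c (q : ℤ) ∧ q ≤ a * q' ∧ (c' : ℝ) / (q' * a) = c / q := by
  have hpos : (0 : ℤ) < (a * q' : ℕ) := by exact_mod_cast Nat.mul_pos ha hq
  have hne : ((a * q' : ℕ) : ℤ) ≠ 0 := hpos.ne'
  obtain ⟨ρ, hρ⟩ : ∃ ρ : ℚ, ρ = (c' : ℚ) / ((a * q' : ℕ) : ℚ) := ⟨_, rfl⟩
  have hcast : ((ρ : ℚ) : ℝ) = (ρ.num : ℝ) / (ρ.den : ℝ) := Rat.cast_def ρ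
  refine ⟨ρ.den, ρ.num, ρ.den_pos, Rat.isCoprime_num_den ρ, ?_, ?_⟩
  · have h1 : ((ρ.den : ℕ) : ℤ) ∣ ((a * q' : ℕ) : ℤ) := by
      have h2 := Rat.den_dvd c' ((a * q' : ℕ) : ℤ)
      rw [Rat.divInt_eq_div] at h2
      rw [hρ]
      exact_mod_cast h2
    exact Nat.le_of_dvd (Nat.mul_pos ha hq) (Int.natCast_dvd_natCast.1 h1)
  · rw [← hcast, hρ]
    push_cast
    rw [mul_comm]

/-- the contribution of one `d` -/
lemma one_d (C : ℝ) (hC : 0 ≤ C) (N V d : ℕ) (hd : 1 ≤ d) (hV : 1 ≤ V) (hdN : 2 * d ^ 2 ≤ N) (hPP : PP muC C 7 (N / d ^ 2) V)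
    (hL : 1 ≤ Real.log N) (α : ℝ) :
    (∀ (q : ℕ) (c : ℤ), MajAt N V α q c →
      ‖∑ m ∈ Icc 1 (N / d ^ 2), muC m * ee ((m : ℝ) * ((d : ℝ) ^ 2 * α))‖ ≤
        2 * C * Real.log N ^ 7 * N / √(max (q : ℝ) (q * (N * |α - c / q|))) * (1 / d)) ∧
    ((¬ ∃ (q : ℕ) (c : ℤ), MajAt N V α q c) →
      ‖∑ m ∈ Icc 1 (N / d ^ 2), muC m * ee ((m : ℝ) * ((d : ℝ) ^ 2 * α))‖ ≤
        2 * C * Real.log N ^ 7 * N / √(V : ℝ) * (1 / d)) := by
  obtain ⟨K, hK⟩ : ∃ K, K = N / d ^ 2 := ⟨_, rfl⟩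
  have hd0 : (0 : ℝ) < d := by exact_mod_cast hd
  have hd2 : 0 < d ^ 2 := pow_pos (by omega) 2
  have hK1 : K * d ^ 2 ≤ N := by rw [hK]; exact Nat.div_mul_le_self _ _
  have hKpos : 2 ≤ K := by rw [hK]; exact (Nat.le_div_iff_mul_le hd2).2 hdN
  have hK2 : N ≤ 2 * (K * d ^ 2) := by
    have h1 : N < (K + 1) * d ^ 2 := by
      rw [hK]
      exact Nat.lt_mul_of_div_lt (Nat.lt_succ_self _) (by positivity)
    have h2 : (K + 1) * d ^ 2 ≤ (2 * K) * d ^ 2 := Nat.mul_le_mul_right _ (by omega)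
    calc N ≤ (K + 1) * d ^ 2 := h1.le
      _ ≤ (2 * K) * d ^ 2 := h2
      _ = _ := by ring
  have hK1r : (K : ℝ) * (d : ℝ) ^ 2 ≤ N := by exact_mod_cast hK1
  have hK2r : (N : ℝ) ≤ 2 * (K * (d : ℝ) ^ 2) := by exact_mod_cast hK2
  have hK0 : (0 : ℝ) < K := by exact_mod_cast (by omega : 0 < K)
  have hN0 : (0 : ℝ) < N := lt_of_lt_of_le (by positivity) hK1r
  have hV0 : (0 : ℝ) < V := by exact_mod_cast hV
  rw [← hK] at hPP ⊢
  have hlogK : Real.log K ≤ Real.log N := by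
    apply Real.log_le_log hK0
    have : K ≤ N := (Nat.le_mul_of_pos_right _ hd2).trans hK1
    exact_mod_cast this
  have hlogK0 : 0 ≤ Real.log K := Real.log_natCast_nonneg K
  -- the comparison
  have hcmp : ∀ τ τ' : ℝ, 0 < τ → 0 < τ' → τ ≤ 2 * (d : ℝ) ^ 2 * τ' →
      C * Real.log K ^ 7 * K / √τ' ≤ 2 * C * Real.log N ^ 7 * N / √τ * (1 / d) := by
    intro τ τ' hτ hτ' h
    have h1 : √τ ≤ 2 * d * √τ' := by
      rw [Real.sqrt_le_left (by positivity), mul_pow, Real.sq_sqrt hτ'.le]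
      nlinarith [mul_pos (pow_pos hd0 2) hτ']
    have hs : 0 < √τ := Real.sqrt_pos.2 hτ
    have hs' : 0 < √τ' := Real.sqrt_pos.2 hτ'
    have h2 : Real.log K ^ 7 ≤ Real.log N ^ 7 := pow_le_pow_left₀ hlogK0 hlogK 7
    have h3 : (K : ℝ) ≤ N / (d : ℝ) ^ 2 := by
      rw [le_div_iff₀ (by positivity)]
      exact hK1r
    calc C * Real.log K ^ 7 * K / √τ' ≤ C * Real.log N ^ 7 * (N / (d : ℝ) ^ 2) / √τ' := by gcongr
      _ ≤ C * Real.log N ^ 7 * (N / (d : ℝ) ^ 2) * (2 * d / √τ) := by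
          rw [div_eq_mul_one_div]
          apply mul_le_mul_of_nonneg_left _ (by positivity)
          rw [div_le_div_iff₀ hs' hs, one_mul]
          exact h1
      _ = _ := by field_simp
  constructor
  · intro q c hqc
    obtain ⟨h1, h2, h3, h4⟩ := hqc
    obtain ⟨q', c', a1, a2, a3, a4, a5⟩ := reduce (d ^ 2) q c hd2 h1 h2
    have hqr : (1 : ℝ) ≤ q := by exact_mod_cast h1
    have hq'r : (1 : ℝ) ≤ q' := by exact_mod_cast a1
    have hqq : (q' : ℝ) ≤ q := by exact_mod_cast a3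
    have hqq2 : (q : ℝ) ≤ (d : ℝ) ^ 2 * q' := by exact_mod_cast a4
    have hdist : |(d : ℝ) ^ 2 * α - c' / q'| = (d : ℝ) ^ 2 * |α - c / q| := by
      rw [← a5]
      push_cast
      rw [← mul_sub, abs_mul, abs_of_pos (by positivity)]
    have hθ0 : 0 ≤ |α - c / q| := abs_nonneg _
    have hmaj : MajAt K V ((d : ℝ) ^ 2 * α) q' c' := by
      refine ⟨a1, a2, a3.trans h3, ?_⟩
      rw [hdist]
      refine le_trans ?_ h4
      calc (q' : ℝ) * (K * ((d : ℝ) ^ 2 * |α - c / q|)) = q' * ((K * (d : ℝ) ^ 2) * |α - c / q|) := by ring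
        _ ≤ q * (N * |α - c / q|) := by gcongr
    refine ((hPP _).1 q' c' hmaj).trans ?_
    apply hcmp _ _ (lt_of_lt_of_le (by linarith) (le_max_left _ _)) (lt_of_lt_of_le (by linarith) (le_max_left _ _))
    rw [hdist]
    apply max_le
    · have e1 : (q' : ℝ) ≤ max (q' : ℝ) (q' * (K * ((d : ℝ) ^ 2 * |α - c / q|))) := le_max_left _ _
      have e2 : (d : ℝ) ^ 2 * q' ≤ (d : ℝ) ^ 2 * max (q' : ℝ) (q' * (K * ((d : ℝ) ^ 2 * |α - c / q|))) :=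
        mul_le_mul_of_nonneg_left e1 (by positivity)
      have e3 : 0 ≤ (d : ℝ) ^ 2 * max (q' : ℝ) (q' * (K * ((d : ℝ) ^ 2 * |α - c / q|))) := le_trans (by positivity) e2
      linarith
    · have e1 : q' * (K * ((d : ℝ) ^ 2 * |α - c / q|)) ≤ max (q' : ℝ) (q' * (K * ((d : ℝ) ^ 2 * |α - c / q|))) := le_max_right _ _
      calc (q : ℝ) * (N * |α - c / q|) ≤ ((d : ℝ) ^ 2 * q') * ((2 * (K * (d : ℝ) ^ 2)) * |α - c / q|) := by gcongr
        _ = 2 * (d : ℝ) ^ 2 * (q' * (K * ((d : ℝ) ^ 2 * |α - c / q|))) := by ring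
        _ ≤ _ := mul_le_mul_of_nonneg_left e1 (by positivity)
  · intro hno
    by_cases hβ : ∃ (q' : ℕ) (c' : ℤ), MajAt K V ((d : ℝ) ^ 2 * α) q' c'
    · obtain ⟨q', c', hmaj⟩ := hβ
      refine ((hPP _).1 q' c' hmaj).trans ?_
      obtain ⟨h1, h2, h3, h4⟩ := hmaj
      have hq'r : (1 : ℝ) ≤ q' := by exact_mod_cast h1
      apply hcmp _ _ hV0 (lt_of_lt_of_le (by linarith) (le_max_left _ _))
      by_contra hcon
      push Not at hcon
      apply hno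
      obtain ⟨q, c, b1, b2, b3, b4⟩ := reduce' (d ^ 2) q' c' hd2 h1
      have hb3 : (q : ℝ) ≤ (d : ℝ) ^ 2 * q' := by exact_mod_cast b3
      have hdist : (d : ℝ) ^ 2 * |α - c / q| = |(d : ℝ) ^ 2 * α - c' / q'| := by
        rw [← b4]
        push_cast
        rw [← abs_of_pos (show 0 < (d : ℝ) ^ 2 by positivity), ← abs_mul, abs_of_pos (show 0 < (d : ℝ) ^ 2 by positivity), mul_sub]
        congr 2
        field_simp
      have e1 : (q' : ℝ) ≤ max (q' : ℝ) (q' * (K * |(d : ℝ) ^ 2 * α - c' / q'|)) := le_max_left _ _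
      have e2 : q' * (K * |(d : ℝ) ^ 2 * α - c' / q'|) ≤ max (q' : ℝ) (q' * (K * |(d : ℝ) ^ 2 * α - c' / q'|)) := le_max_right _ _
      have e3 := mul_le_mul_of_nonneg_left e1 (show 0 ≤ (d : ℝ) ^ 2 by positivity)
      have e4 := mul_le_mul_of_nonneg_left e2 (show 0 ≤ 2 * (d : ℝ) ^ 2 by positivity)
      have e5 : 0 ≤ (d : ℝ) ^ 2 * max (q' : ℝ) (q' * (K * |(d : ℝ) ^ 2 * α - c' / q'|)) := le_trans (by positivity) e3
      refine ⟨q, c, b1, b2, ?_, ?_⟩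
      · have : (q : ℝ) < V := by linarith
        exact_mod_cast this.le
      · have hθ0 : 0 ≤ |α - c / q| := abs_nonneg _
        calc (q : ℝ) * (N * |α - c / q|) ≤ ((d : ℝ) ^ 2 * q') * ((2 * (K * (d : ℝ) ^ 2)) * |α - c / q|) := by gcongr
          _ = 2 * (d : ℝ) ^ 2 * (q' * (K * ((d : ℝ) ^ 2 * |α - c / q|))) := by ring
          _ ≤ V := by rw [hdist]; linarith
    · refine ((hPP _).2 hβ).trans (hcmp _ _ hV0 hV0 ?_)
      have : (1 : ℝ) ≤ (d : ℝ) ^ 2 := by exact_mod_cast hd2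
      nlinarith

end Pool.Agent.W93.LM
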