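import Pool.Agent.W93.TD2

set_option autoImplicit false

/-! Tuples: telescoping with weights. -/

namespace Pool.Agent.W93.TD
open Finset
open Pool.Agent.H807R2.Dav
open Pool.Agent.H373R2.T7
open Pool.Agent.W93.DG
open Pool.Agent.W93.RD

variable {s : ℕ} {α : Type*}

/-- averaging over one coordinate -/
lemma avg_w [DecidableEq α] (Ω : Fin s → Finset α) (p : Fin s → α → ℝ) (hp1 : ∀ i, ∑ v ∈ Ω i, p i v = 1) (i : Fin s) (Φ : (Fin s → α) → ℝ) :
    ∑ m ∈ Fintype.piFinset Ω, (∏ j, p j (m j)) * ∑ v ∈ Ω i, p i v * Φ (Function.update m i v) =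
      ∑ m ∈ Fintype.piFinset Ω, (∏ j, p j (m j)) * Φ m := by
  have h0 : ∑ m ∈ Fintype.piFinset Ω, (∏ j, p j (m j)) * ∑ v ∈ Ω i, p i v * Φ (Function.update m i v) =
      ∑ m ∈ Fintype.piFinset Ω, ∑ v ∈ Ω i, (∏ j, p j (m j)) * p i v * Φ (Function.update m i v) := by
    apply sum_congr rfl
    intro m _
    rw [mul_sum]
    apply sum_congr rfl
    intro v _
    ring
  have h1 : ∑ m ∈ Fintype.piFinset Ω, (∏ j, p j (m j)) * Φ m =
      ∑ m ∈ Fintype.piFinset Ω, ∑ v ∈ Ω i, (∏ j, p j (m j)) * p i v * Φ m := by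
    apply sum_congr rfl
    intro m _
    rw [← sum_mul, ← mul_sum, hp1, mul_one]
  rw [h0, h1, ← sum_product', ← sum_product']
  have hprod : ∀ m : Fin s → α, ∏ j, p j (m j) = p i (m i) * ∏ j ∈ univ.erase i, p j (m j) := fun m =>
    (mul_prod_erase univ (fun j => p j (m j)) (mem_univ i)).symm
  refine sum_bij' (fun q _ => (Function.update q.1 i q.2, q.1 i)) (fun q _ => (Function.update q.1 i q.2, q.1 i)) ?_ ?_ ?_ ?_ ?_
  · rintro ⟨m, v⟩ hq
    rw [mem_product, Fintype.mem_piFinset] at hq ⊢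
    refine ⟨fun j => ?_, hq.1 i⟩
    by_cases hj : j = i
    · subst hj; simpa using hq.2
    · simpa [Function.update_of_ne hj] using hq.1 j
  · rintro ⟨m, v⟩ hq
    rw [mem_product, Fintype.mem_piFinset] at hq ⊢
    refine ⟨fun j => ?_, hq.1 i⟩
    by_cases hj : j = i
    · subst hj; simpa using hq.2
    · simpa [Function.update_of_ne hj] using hq.1 j
  · rintro ⟨m, v⟩ _
    simp
  · rintro ⟨m, v⟩ _
    simp
  · rintro ⟨m, v⟩ _
    simp only
    rw [hprod m, hprod (Function.update m i v), Function.update_self]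
    have h2 : ∏ j ∈ univ.erase i, p j (Function.update m i v j) = ∏ j ∈ univ.erase i, p j (m j) := by
      apply prod_congr rfl
      intro j hj
      rw [Function.update_of_ne (ne_of_mem_erase hj)]
    rw [h2]
    ring

lemma total_w [DecidableEq α] (Ω : Fin s → Finset α) (p : Fin s → α → ℝ) (hp1 : ∀ i, ∑ v ∈ Ω i, p i v = 1) :
    ∑ m ∈ Fintype.piFinset Ω, (∏ j, p j (m j)) = 1 := by
  rw [← prod_univ_sum, prod_congr rfl (fun i _ => hp1 i), prod_const_one]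

/-- telescoping -/
theorem tele_w [DecidableEq α] (N : ℕ) (Ω : Fin s → Finset α) (p : Fin s → α → ℝ) (hp0 : ∀ i, ∀ v ∈ Ω i, 0 ≤ p i v)
    (hp1 : ∀ i, ∑ v ∈ Ω i, p i v = 1) (P Q : Fin s → ℕ → α → ℝ) (Λ δ : ℝ) (hΛ : 1 ≤ Λ) (hδ : 0 ≤ δ)
    (hP : ∀ i, ∀ n ∈ Icc 1 N, ∀ v ∈ Ω i, |P i n v| ≤ Λ) (hQ : ∀ i, ∀ n ∈ Icc 1 N, ∀ v ∈ Ω i, |Q i n v| ≤ Λ)
    (hone : ∀ i, ∀ K : ℝ, 0 < K → ∀ G : ℕ → ℝ, (∀ n ∈ Icc 1 N, |G n| ≤ K) →
      ∑ v ∈ Ω i, p i v * |∑ n ∈ Icc 1 N, G n * (P i n v - Q i n v)| ≤ K * δ)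
    (J : Finset (Fin s)) : ∀ K : ℝ, 0 < K → ∀ G : ℕ → (Fin s → α) → ℝ,
    (∀ n ∈ Icc 1 N, ∀ m ∈ Fintype.piFinset Ω, |G n m| ≤ K) →
    (∀ n m v, ∀ i ∈ J, G n (Function.update m i v) = G n m) →
    ∑ m ∈ Fintype.piFinset Ω, (∏ j, p j (m j)) * |∑ n ∈ Icc 1 N, G n m * (∏ i ∈ J, P i n (m i) - ∏ i ∈ J, Q i n (m i))| ≤
      J.card * (K * Λ ^ J.card * δ) := by
  classical
  have hpp : ∀ m ∈ Fintype.piFinset Ω, 0 ≤ ∏ j, p j (m j) := fun m hm =>
    prod_nonneg fun j _ => hp0 j _ (Fintype.mem_piFinset.1 hm j)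
  induction J using Finset.induction_on with
  | empty => intro K _ G _ _; simp
  | insert i J hi ih =>
    intro K hK G hG hind
    rw [card_insert_of_notMem hi]
    -- splitting
    have hsplit : ∀ m ∈ Fintype.piFinset Ω,
        (∏ j, p j (m j)) * |∑ n ∈ Icc 1 N, G n m * (∏ i ∈ insert i J, P i n (m i) - ∏ i ∈ insert i J, Q i n (m i))| ≤
        (∏ j, p j (m j)) * |∑ n ∈ Icc 1 N, (G n m * P i n (m i)) * (∏ i ∈ J, P i n (m i) - ∏ i ∈ J, Q i n (m i))| +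
        (∏ j, p j (m j)) * |∑ n ∈ Icc 1 N, (G n m * ∏ j ∈ J, Q j n (m j)) * (P i n (m i) - Q i n (m i))| := by
      intro m hm
      rw [← mul_add]
      apply mul_le_mul_of_nonneg_left _ (hpp m hm)
      refine le_trans (le_of_eq ?_) (abs_add_le _ _)
      rw [← sum_add_distrib]
      congr 1
      apply sum_congr rfl
      intro n _
      rw [prod_insert hi, prod_insert hi]
      ring
    refine (sum_le_sum hsplit).trans ?_
    rw [sum_add_distrib]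
    -- first part
    have h1 := ih (K * Λ) (by positivity) (fun n m => if n ∈ Icc 1 N ∧ m i ∈ Ω i then G n m * P i n (m i) else 0)
      (by
        intro n hn m hm
        rw [Fintype.mem_piFinset] at hm
        simp only [if_pos (And.intro hn (hm i))]
        rw [abs_mul]
        exact mul_le_mul (hG n hn m (Fintype.mem_piFinset.2 hm)) (hP i n hn _ (hm i)) (abs_nonneg _) hK.le)
      (by
        intro n m v j hj
        have hne : i ≠ j := fun h => hi (h ▸ hj)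
        rw [Function.update_of_ne hne]
        rw [hind n m v j (mem_insert_of_mem hj)])
    have h1' : ∑ m ∈ Fintype.piFinset Ω,
        (∏ j, p j (m j)) * |∑ n ∈ Icc 1 N, (G n m * P i n (m i)) * (∏ i ∈ J, P i n (m i) - ∏ i ∈ J, Q i n (m i))| ≤
        J.card * (K * Λ * Λ ^ J.card * δ) := by
      refine le_trans (le_of_eq ?_) h1
      apply sum_congr rfl
      intro m hm
      congr 2
      apply sum_congr rfl
      intro n hn
      rw [Fintype.mem_piFinset] at hm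
      simp only [if_pos (And.intro hn (hm i))]
    -- second part
    have h2 : ∑ m ∈ Fintype.piFinset Ω,
        (∏ j, p j (m j)) * |∑ n ∈ Icc 1 N, (G n m * ∏ j ∈ J, Q j n (m j)) * (P i n (m i) - Q i n (m i))| ≤
        K * Λ ^ J.card * δ := by
      obtain ⟨Φ, hΦ⟩ : ∃ Φ : (Fin s → α) → ℝ, Φ = fun m => |∑ n ∈ Icc 1 N, (G n m * ∏ j ∈ J, Q j n (m j)) * (P i n (m i) - Q i n (m i))| := ⟨_, rfl⟩
      have h3 := avg_w Ω p hp1 i Φ
      have h5 : ∀ m ∈ Fintype.piFinset Ω, ∑ v ∈ Ω i, p i v * Φ (Function.update m i v) ≤ (K * Λ ^ J.card) * δ := by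
        intro m hm
        have hm' := Fintype.mem_piFinset.1 hm
        have h6 := hone i (K * Λ ^ J.card) (by positivity) (fun n => G n m * ∏ j ∈ J, Q j n (m j)) (by
          intro n hn
          rw [abs_mul, abs_prod]
          apply mul_le_mul (hG n hn m hm) _ (prod_nonneg fun _ _ => abs_nonneg _) hK.le
          calc ∏ j ∈ J, |Q j n (m j)| ≤ ∏ _j ∈ J, Λ := prod_le_prod (fun _ _ => abs_nonneg _) (fun j _ => hQ j n hn _ (hm' j))
            _ = Λ ^ J.card := by rw [prod_const])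
        refine le_trans (le_of_eq ?_) h6
        apply sum_congr rfl
        intro v _
        rw [hΦ]
        simp only
        congr 2
        apply sum_congr rfl
        intro n _
        rw [hind n m v i (mem_insert_self _ _), Function.update_self]
        congr 2
        apply prod_congr rfl
        intro j hj
        have hne : j ≠ i := fun h => hi (h ▸ hj)
        rw [Function.update_of_ne hne]
      have h6 : ∑ m ∈ Fintype.piFinset Ω, (∏ j, p j (m j)) * ∑ v ∈ Ω i, p i v * Φ (Function.update m i v) ≤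
          ∑ m ∈ Fintype.piFinset Ω, (∏ j, p j (m j)) * ((K * Λ ^ J.card) * δ) :=
        sum_le_sum fun m hm => mul_le_mul_of_nonneg_left (h5 m hm) (hpp m hm)
      rw [h3, ← sum_mul, total_w Ω p hp1, one_mul] at h6
      rw [hΦ] at h6
      exact h6
    refine (add_le_add h1' h2).trans ?_
    have h9 : K * Λ ^ J.card * δ ≤ K * Λ ^ (J.card + 1) * δ := by
      have : Λ ^ J.card ≤ Λ ^ (J.card + 1) := pow_le_pow_right₀ hΛ (by omega)
      gcongr
    have h10 : K * Λ * Λ ^ J.card * δ = K * Λ ^ (J.card + 1) * δ := by ring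
    rw [h10]
    push_cast
    calc _ ≤ (J.card : ℝ) * (K * Λ ^ (J.card + 1) * δ) + K * Λ ^ (J.card + 1) * δ := by
          linarith
      _ = _ := by ring

/-- Cauchy-Schwarz -/
lemma cs_w (Ω : Finset α) (p T : α → ℝ) (hp0 : ∀ v ∈ Ω, 0 ≤ p v) (hp1 : ∑ v ∈ Ω, p v = 1) (D : ℝ) (hD : 0 ≤ D)
    (h : ∑ v ∈ Ω, p v * T v ^ 2 ≤ D ^ 2) : ∑ v ∈ Ω, p v * |T v| ≤ D := by
  have h1 := Real.sum_mul_le_sqrt_mul_sqrt Ω (fun v => √(p v)) (fun v => √(p v) * |T v|)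
  have h2 : ∑ v ∈ Ω, √(p v) * (√(p v) * |T v|) = ∑ v ∈ Ω, p v * |T v| := by
    apply sum_congr rfl
    intro v hv
    rw [← mul_assoc, Real.mul_self_sqrt (hp0 v hv)]
  have h3 : ∑ v ∈ Ω, √(p v) ^ 2 = 1 := by
    rw [← hp1]
    apply sum_congr rfl
    intro v hv
    rw [Real.sq_sqrt (hp0 v hv)]
  have h4 : ∑ v ∈ Ω, (√(p v) * |T v|) ^ 2 = ∑ v ∈ Ω, p v * T v ^ 2 := by
    apply sum_congr rfl
    intro v hv
    rw [mul_pow, Real.sq_sqrt (hp0 v hv), sq_abs]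
  rw [h2, h3, h4, Real.sqrt_one, one_mul] at h1
  refine h1.trans ?_
  rw [Real.sqrt_le_left hD]
  exact h

/-- one shift with random digits -/
theorem td_one (b H e : ℕ) (hb : 2 ≤ b) (η : ℝ) (hη : 0 < η) (hη1 : η ≤ 1) (U : ℕ) : ∃ B : ℕ, ∀ Ez : ℕ, ∃ k₀ : ℕ, ∀ k : ℕ, k₀ ≤ k →
    ∀ z : ℕ, Real.log ((b ^ (k + e) : ℕ) : ℝ) ^ B ≤ z → (z : ℝ) ≤ Real.log ((b ^ (k + e) : ℕ) : ℝ) ^ Ez →
    ∀ w : ℕ → ℕ → ℝ, (∀ j < k, ∀ a, 0 ≤ w j a) → (∀ j < k, ∀ a, w j a ≤ 1 - η) → (∀ j < k, ∑ a ∈ range H, w j a = 1) →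
    ∀ N c : ℕ, N + c + H * b ^ k ≤ b ^ (k + e) →
    ∀ K : ℝ, 0 < K → ∀ G : ℕ → ℝ, (∀ n ∈ Icc 1 N, |G n| ≤ K) →
    ∑ d ∈ Str H k, pw w d * |∑ n ∈ Icc 1 N, G n * (lamI ((n : ℤ) + ((c + val b d : ℕ) : ℤ)) - lamzI z ((n : ℤ) + ((c + val b d : ℕ) : ℤ)))| ≤
      K * (((b ^ (k + e) : ℕ) : ℝ) / (k : ℝ) ^ U) := by
  classical
  obtain ⟨B, hB⟩ := td_var b H e hb η hη hη1 (2 * U)
  refine ⟨B, fun Ez => ?_⟩
  obtain ⟨k₀, h0⟩ := hB Ez
  refine ⟨k₀ + 1, fun k hk z hz1 hz2 w hw0 hw1 hsum N c hN K hK G hG => ?_⟩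
  obtain ⟨f, hf⟩ : ∃ f : ℕ → ℝ, f = fun n => if n ≤ N then G n else 0 := ⟨_, rfl⟩
  have hf0 : ∀ n, N < n → f n = 0 := by
    intro n hn
    rw [hf]
    simp only
    rw [if_neg (by omega)]
  have hf1 : ∀ n, n ≤ N → f n = G n := by
    intro n hn
    rw [hf]
    simp only
    rw [if_pos hn]
  have h1 := h0 k (by omega) z hz1 hz2 w hw0 hw1 hsum c N f K hK.le (by
    intro n hn
    rw [hf1 n (mem_Icc.1 hn).2]
    exact hG n hn) hf0
  have hbn : 0 < b := by omega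
  have hX1 : 1 ≤ b ^ (k + e) := Nat.pow_pos hbn
  have hM0 : (0 : ℝ) < ((b ^ (k + e + 1) : ℕ) : ℝ) := by exact_mod_cast Nat.pow_pos hbn
  have hX0 : (0 : ℝ) < ((b ^ (k + e) : ℕ) : ℝ) := by exact_mod_cast hX1
  have hk0 : (0 : ℝ) < k := by exact_mod_cast (by omega : 0 < k)
  apply cs_w (Str H k) (pw w) _ (fun d _ => pw_nonneg (H := H) w hw0 d) _ _ (by positivity)
  · obtain ⟨T, hT⟩ : ∃ T : (Fin k → ℕ) → ℝ, T = fun d => ∑ n ∈ Icc 1 N, G n *
        (lamI ((n : ℤ) + ((c + val b d : ℕ) : ℤ)) - lamzI z ((n : ℤ) + ((c + val b d : ℕ) : ℤ))) := ⟨_, rfl⟩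
    have h2 : ∀ d ∈ Str H k, pw w d * ‖EE (fun r => (starRingEnd ℂ) (FF f (b ^ (k + e)) (b ^ (k + e + 1)) r) *
        FF (fun n => ArithmeticFunction.vonMangoldt n - lamz z n) (b ^ (k + e)) (b ^ (k + e + 1)) r) (b ^ (k + e + 1)) (c + val b d)‖ ^ 2 =
        ((b ^ (k + e + 1) : ℕ) : ℝ) ^ 2 * (pw w d * T d ^ 2) := by
      intro d hd
      have hv := val_le b H k hb d hd
      have hMX : 2 * b ^ (k + e) ≤ b ^ (k + e + 1) := by
        rw [pow_succ, mul_comm]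
        exact Nat.mul_le_mul_left _ hb
      have h3 := EE_corr f (fun n => ArithmeticFunction.vonMangoldt n - lamz z n) (b ^ (k + e)) (b ^ (k + e + 1)) N hX1 hMX
        (by omega) hf0 ((c : ℤ) + (val b d : ℤ)) (by omega) (by
          have : ((N + (c + val b d) : ℕ) : ℤ) ≤ ((b ^ (k + e) : ℕ) : ℤ) := by
            exact_mod_cast (by omega : N + (c + val b d) ≤ b ^ (k + e))
          push_cast at this ⊢
          linarith)
      rw [h3, Complex.norm_real, Real.norm_eq_abs, sq_abs]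
      have h4 : ∑ n ∈ Icc 1 N, f n * (if 1 ≤ (n : ℤ) + ((c : ℤ) + (val b d : ℤ)) then
          (fun n => ArithmeticFunction.vonMangoldt n - lamz z n) ((n : ℤ) + ((c : ℤ) + (val b d : ℤ))).toNat else 0) = T d := by
        rw [hT]
        simp only
        apply sum_congr rfl
        intro n hn
        rw [mem_Icc] at hn
        rw [hf1 n hn.2]
        unfold lamI lamzI
        push_cast
        by_cases h7 : 1 ≤ (n : ℤ) + ((c : ℤ) + (val b d : ℤ))
        · rw [if_pos h7, if_pos h7, if_pos h7]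
        · rw [if_neg h7, if_neg h7, if_neg h7, sub_zero]
      rw [h4]
      ring
    rw [sum_congr rfl h2, ← mul_sum] at h1
    have h5 : ∑ d ∈ Str H k, pw w d * T d ^ 2 ≤ (K * (((b ^ (k + e) : ℕ) : ℝ) / (k : ℝ) ^ U)) ^ 2 := by
      have h6 : ((b ^ (k + e + 1) : ℕ) : ℝ) ^ 2 * ∑ d ∈ Str H k, pw w d * T d ^ 2 ≤
          ((b ^ (k + e + 1) : ℕ) : ℝ) ^ 2 * (K * (((b ^ (k + e) : ℕ) : ℝ) / (k : ℝ) ^ U)) ^ 2 := by
        refine h1.trans (le_of_eq ?_)
        rw [mul_comm 2 U, pow_mul]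
        ring
      exact le_of_mul_le_mul_left h6 (by positivity)
    rw [hT] at h5
    exact h5
  · exact pw_sum H k w hsum

end Pool.Agent.W93.TD
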