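import Pool.Agent.W93.LV2

set_option autoImplicit false

/-! Level of distribution: splitting, moduli not coprime to the residue. -/

namespace Pool.Agent.W93.LV
open Finset
open Pool.Agent.H373R2.T7

/-- the divisor sum -/
noncomputable def DD (lam : ℕ → ℝ) (Q n : ℕ) : ℝ := ∑ q ∈ (Icc 1 Q).filter (fun q => q ∣ n), lam q

lemma DD_le (lam : ℕ → ℝ) (Q n : ℕ) (hn : 1 ≤ n) (B : ℝ) (hlam : ∀ q, |lam q| ≤ B) : |DD lam Q n| ≤ B * (n.divisors.card : ℝ) := by
  unfold DD
  refine (abs_sum_le_sum_abs _ _).trans ?_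
  refine (sum_le_sum fun q _ => hlam q).trans ?_
  rw [sum_const, nsmul_eq_mul, mul_comm]
  have hB : 0 ≤ B := (abs_nonneg _).trans (hlam 0)
  apply mul_le_mul_of_nonneg_left _ hB
  exact_mod_cast card_le_card (by
    intro q hq
    rw [mem_filter] at hq
    exact Nat.mem_divisors.2 ⟨hq.2, by omega⟩)

lemma modEq_dist (u a q : ℕ) : u ≡ a [MOD q] ↔ q ∣ (u - a) + (a - u) := by
  rcases le_total u a with h | h
  · rw [show (u - a) + (a - u) = a - u by omega]
    exact Nat.modEq_iff_dvd' h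
  · rw [show (u - a) + (a - u) = u - a by omega]
    exact ⟨fun h' => (Nat.modEq_iff_dvd' h).1 h'.symm, fun h' => ((Nat.modEq_iff_dvd' h).2 h').symm⟩

/-- interchange of the summations -/
lemma swap_sum (lam : ℕ → ℝ) (Q : ℕ) (g : ℕ → ℝ) (a y : ℕ) :
    ∑ q ∈ Icc 1 Q, lam q * ∑ u ∈ ((Icc 1 y).filter (fun u => u ≡ a [MOD q])).filter (fun u => u ≠ a), g u =
      ∑ u ∈ (Icc 1 y).filter (fun u => u ≠ a), g u * DD lam Q ((u - a) + (a - u)) := by
  have h1 : ∀ q ∈ Icc 1 Q, lam q * ∑ u ∈ ((Icc 1 y).filter (fun u => u ≡ a [MOD q])).filter (fun u => u ≠ a), g u =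
      ∑ u ∈ (Icc 1 y).filter (fun u => u ≠ a), g u * (if q ∣ (u - a) + (a - u) then lam q else 0) := by
    intro q _
    rw [filter_comm, sum_filter, mul_sum]
    apply sum_congr rfl
    intro u _
    by_cases h : u ≡ a [MOD q]
    · rw [if_pos h, if_pos ((modEq_dist u a q).1 h), mul_comm]
    · rw [if_neg h, if_neg (fun h' => h ((modEq_dist u a q).2 h'))]
      ring
  rw [sum_congr rfl h1, sum_comm]
  apply sum_congr rfl
  intro u _
  rw [← mul_sum]
  unfold DD
  rw [sum_filter]

/-- splitting at `a` -/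
lemma split_sum (G g : ℕ → ℝ) (a y : ℕ) (ha : 1 ≤ a) :
    ∑ u ∈ (Icc 1 y).filter (fun u => u ≠ a), g u * G ((u - a) + (a - u)) =
      ∑ n ∈ Icc 1 (y - a), G n * g (n + a) + (∑ n ∈ Icc 1 (a - 1), G n * g (a - n) - ∑ n ∈ Icc 1 (a - 1 - y), G n * g (a - n)) := by
  have h1 : (Icc 1 y).filter (fun u => u ≠ a) = (Icc 1 y).filter (fun u => a < u) ∪ (Icc 1 y).filter (fun u => u < a) := by
    ext u
    simp only [mem_filter, mem_union, mem_Icc]
    omega
  have h2 : Disjoint ((Icc 1 y).filter (fun u => a < u)) ((Icc 1 y).filter (fun u => u < a)) := by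
    rw [Finset.disjoint_left]
    intro u h1 h2
    rw [mem_filter] at h1 h2
    omega
  rw [h1, sum_union h2]
  congr 1
  · apply sum_nbij' (fun u => u - a) (fun n => n + a)
    · intro u hu
      rw [mem_filter, mem_Icc] at hu
      rw [mem_Icc]
      omega
    · intro n hn
      rw [mem_Icc] at hn
      rw [mem_filter, mem_Icc]
      omega
    · intro u hu
      rw [mem_filter, mem_Icc] at hu
      omega
    · intro n _
      omega
    · intro u hu
      rw [mem_filter, mem_Icc] at hu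
      rw [show (u - a) + (a - u) = u - a by omega, show u - a + a = u by omega, mul_comm]
  · have h3 : Icc 1 (a - 1) = Icc 1 (a - 1 - y) ∪ Icc (a - 1 - y + 1) (a - 1) := by
      ext n
      simp only [mem_union, mem_Icc]
      omega
    have h4 : Disjoint (Icc 1 (a - 1 - y)) (Icc (a - 1 - y + 1) (a - 1)) := by
      rw [Finset.disjoint_left]
      intro n h1 h2
      rw [mem_Icc] at h1 h2
      omega
    rw [h3, sum_union h4, add_sub_cancel_left]
    apply sum_nbij' (fun u => a - u) (fun n => a - n)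
    · intro u hu
      rw [mem_filter, mem_Icc] at hu
      rw [mem_Icc]
      omega
    · intro n hn
      rw [mem_Icc] at hn
      rw [mem_filter, mem_Icc]
      omega
    · intro u hu
      rw [mem_filter, mem_Icc] at hu
      omega
    · intro n hn
      rw [mem_Icc] at hn
      omega
    · intro u hu
      rw [mem_filter, mem_Icc] at hu
      rw [show (u - a) + (a - u) = a - u by omega, show a - (a - u) = u by omega, mul_comm]

lemma omega_le (a : ℕ) (ha : 1 ≤ a) : (a.primeFactors.card : ℝ) ≤ 2 * Real.log a := by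
  have h8 : 2 ^ a.primeFactors.card ≤ a := by
    calc 2 ^ a.primeFactors.card = ∏ p ∈ a.primeFactors, 2 := by rw [prod_const]
      _ ≤ ∏ p ∈ a.primeFactors, p := prod_le_prod' fun p hp => (Nat.prime_of_mem_primeFactors hp).two_le
      _ ≤ a := Nat.le_of_dvd (by omega) (Nat.prod_primeFactors_dvd a)
  have q1 : (2 : ℝ) ^ a.primeFactors.card ≤ a := by exact_mod_cast h8
  have q2 := Real.log_le_log (by positivity) q1
  rw [Real.log_pow] at q2
  have q3 : (1 : ℝ) / 2 ≤ Real.log 2 := by linarith [Real.log_two_gt_d9]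
  nlinarith [(Nat.cast_nonneg a.primeFactors.card : (0 : ℝ) ≤ (a.primeFactors.card : ℝ))]

lemma log2_le (N : ℕ) (hN : 1 ≤ N) : ((Nat.log 2 N : ℕ) : ℝ) ≤ 2 * Real.log N := by
  have q1 : (2 : ℝ) ^ (Nat.log 2 N) ≤ N := by exact_mod_cast Nat.pow_log_le_self 2 (by omega)
  have q2 := Real.log_le_log (by positivity) q1
  rw [Real.log_pow] at q2
  have q3 : (1 : ℝ) / 2 ≤ Real.log 2 := by linarith [Real.log_two_gt_d9]
  nlinarith [(Nat.cast_nonneg (Nat.log 2 N) : (0 : ℝ) ≤ ((Nat.log 2 N : ℕ) : ℝ))]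

/-- the von Mangoldt function and the moduli not coprime to the residue -/
lemma nc_lam (Q a y : ℕ) (ha : 1 ≤ a) :
    ∑ q ∈ (Icc 1 Q).filter (fun q => ¬ a.Coprime q), ∑ u ∈ ((Icc 1 y).filter (fun u => u ≡ a [MOD q])).filter (fun u => u ≠ a),
      ArithmeticFunction.vonMangoldt u ≤ Q * (2 * Real.log a * ((Nat.log 2 y + 1 : ℝ) * Real.log y)) := by
  have hL : 0 ≤ (Nat.log 2 y + 1 : ℝ) * Real.log y := by
    have := Real.log_natCast_nonneg y
    positivity
  have h1 : ∀ q ∈ (Icc 1 Q).filter (fun q => ¬ a.Coprime q), ∑ u ∈ ((Icc 1 y).filter (fun u => u ≡ a [MOD q])).filter (fun u => u ≠ a),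
      ArithmeticFunction.vonMangoldt u ≤ 2 * Real.log a * ((Nat.log 2 y + 1 : ℝ) * Real.log y) := by
    intro q hq
    rw [mem_filter] at hq
    obtain ⟨r, hr, hra, hrq⟩ := Nat.Prime.not_coprime_iff_dvd.1 hq.2
    have h2 : ∑ u ∈ ((Icc 1 y).filter (fun u => u ≡ a [MOD q])).filter (fun u => u ≠ a), ArithmeticFunction.vonMangoldt u ≤
        ∑ u ∈ (Icc 1 y).filter (fun u => r ∣ u), ArithmeticFunction.vonMangoldt u := by
      apply sum_le_sum_of_subset_of_nonneg
      · intro u hu
        rw [mem_filter, mem_filter] at hu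
        rw [mem_filter]
        refine ⟨hu.1.1, ?_⟩
        exact ((hu.1.2.dvd_iff hrq).2 hra)
      · intro u _ _
        exact ArithmeticFunction.vonMangoldt_nonneg
    refine h2.trans ((lam_mult_prime y r hr).trans ?_)
    apply le_mul_of_one_le_left hL
    have h3 : (1 : ℝ) ≤ a.primeFactors.card := by
      exact_mod_cast card_pos.2 ⟨r, Nat.mem_primeFactors.2 ⟨hr, hra, by omega⟩⟩
    exact h3.trans (omega_le a ha)
  refine (sum_le_sum h1).trans ?_
  rw [sum_const, nsmul_eq_mul]
  have h4 : 0 ≤ 2 * Real.log a * ((Nat.log 2 y + 1 : ℝ) * Real.log y) := mul_nonneg (by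
    have := Real.log_natCast_nonneg a
    linarith) hL
  apply mul_le_mul_of_nonneg_right _ h4
  have h5 : ((Icc 1 Q).filter (fun q => ¬ a.Coprime q)).card ≤ Q := (card_filter_le _ _).trans (by simp)
  exact_mod_cast h5

/-- the model and the moduli not coprime to the residue -/
lemma nc_model (z Q a y X : ℕ) (hz : 1 ≤ z) (ha : 1 ≤ a) (hQ : Q ≤ X) :
    ∑ q ∈ (Icc 1 Q).filter (fun q => ¬ a.Coprime q), ∑ u ∈ ((Icc 1 y).filter (fun u => u ≡ a [MOD q])).filter (fun u => u ≠ a),
      lamz z u ≤ (Vz z)⁻¹ * (2 * Real.log a * ((y * (1 + Real.log X) + Q) / z)) := by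
  have hV : 0 < (Vz z)⁻¹ := inv_pos.2 (Vz_pos z)
  have hz0 : (0 : ℝ) < z := by exact_mod_cast hz
  have hL1 := log1_nonneg X
  -- for each modulus
  have h1 : ∀ q ∈ (Icc 1 Q).filter (fun q => ¬ a.Coprime q), ∑ u ∈ ((Icc 1 y).filter (fun u => u ≡ a [MOD q])).filter (fun u => u ≠ a),
      lamz z u ≤ ∑ p ∈ a.primeFactors.filter (fun p => z < p), if p ∣ q then (Vz z)⁻¹ * (y / q + 1) else 0 := by
    intro q hq
    rw [mem_filter, mem_Icc] at hq
    have hq0 : (0 : ℝ) < q := by exact_mod_cast (by omega : 0 < q)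
    have t1 : ∀ p ∈ a.primeFactors.filter (fun p => z < p), 0 ≤ (if p ∣ q then (Vz z)⁻¹ * ((y : ℝ) / q + 1) else 0) := by
      intro p _
      split_ifs
      · positivity
      · exact le_rfl
    obtain ⟨r, hr, hra, hrq⟩ := Nat.Prime.not_coprime_iff_dvd.1 hq.2
    by_cases hrz : r ≤ z
    · have h2 : ∀ u ∈ ((Icc 1 y).filter (fun u => u ≡ a [MOD q])).filter (fun u => u ≠ a), lamz z u = 0 := by
        intro u hu
        rw [mem_filter, mem_filter] at hu
        unfold lamz
        rw [if_neg]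
        intro h
        exact h r (mem_pz.2 ⟨hrz, hr⟩) ((hu.1.2.dvd_iff hrq).2 hra)
      rw [sum_congr rfl h2, sum_const_zero]
      exact sum_nonneg t1
    · have h3 := single_le_sum t1 (mem_filter.2 ⟨Nat.mem_primeFactors.2 ⟨hr, hra, by omega⟩, (by omega : z < r)⟩)
      rw [if_pos hrq] at h3
      refine le_trans ?_ h3
      have h4 : ∀ u ∈ ((Icc 1 y).filter (fun u => u ≡ a [MOD q])).filter (fun u => u ≠ a), lamz z u ≤ (Vz z)⁻¹ := by
        intro u _
        unfold lamz
        split_ifs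
        · exact le_rfl
        · exact hV.le
      refine (sum_le_sum h4).trans ?_
      rw [sum_const, nsmul_eq_mul, mul_comm]
      apply mul_le_mul_of_nonneg_left _ hV.le
      have h5 : ((((Icc 1 y).filter (fun u => u ≡ a [MOD q])).filter (fun u => u ≠ a)).card : ℝ) ≤ (((Icc 1 y).filter (fun u => u ≡ a [MOD q])).card : ℝ) := by
        exact_mod_cast card_filter_le _ _
      have h6 := (abs_le.1 (count_class y q a hq.1.1)).2
      linarith
  refine (sum_le_sum h1).trans ?_
  rw [sum_comm]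
  have h2 : ∀ p ∈ a.primeFactors.filter (fun p => z < p), ∑ q ∈ (Icc 1 Q).filter (fun q => ¬ a.Coprime q),
      (if p ∣ q then (Vz z)⁻¹ * ((y : ℝ) / q + 1) else 0) ≤ (Vz z)⁻¹ * ((y * (1 + Real.log X) + Q) / z) := by
    intro p hp
    rw [mem_filter] at hp
    have hp0 : 0 < p := by omega
    have hpr : (0 : ℝ) < p := by exact_mod_cast hp0
    have h3 : ∑ q ∈ (Icc 1 Q).filter (fun q => ¬ a.Coprime q), (if p ∣ q then (Vz z)⁻¹ * ((y : ℝ) / q + 1) else 0) ≤
        ∑ q ∈ Icc 1 Q, (if p ∣ q then (Vz z)⁻¹ * ((y : ℝ) / q + 1) else 0) := by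
      apply sum_le_sum_of_subset_of_nonneg (filter_subset _ _)
      intro q _ _
      split_ifs
      · positivity
      · exact le_rfl
    refine h3.trans ?_
    rw [← sum_filter]
    have h4 : ∑ q ∈ (Icc 1 Q).filter (fun q => p ∣ q), (Vz z)⁻¹ * ((y : ℝ) / q + 1) =
        ∑ m ∈ Icc 1 (Q / p), (Vz z)⁻¹ * ((y : ℝ) / p * (1 / m) + 1) := by
      apply sum_nbij' (fun n => n / p) (fun m => p * m)
      · intro n hn
        rw [mem_filter, mem_Icc] at hn
        rw [mem_Icc]
        obtain ⟨⟨h1, h2⟩, c, rfl⟩ := hn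
        rw [Nat.mul_div_cancel_left _ (by omega)]
        refine ⟨Nat.pos_of_ne_zero (by rintro rfl; simp at h1), ?_⟩
        rw [Nat.le_div_iff_mul_le (by omega), mul_comm]
        exact h2
      · intro m hm
        rw [mem_Icc] at hm
        rw [mem_filter, mem_Icc]
        refine ⟨⟨Nat.mul_pos (by omega) (by omega), ?_⟩, dvd_mul_right _ _⟩
        have := (Nat.le_div_iff_mul_le hp0).1 hm.2
        rw [mul_comm]
        exact this
      · intro n hn
        rw [mem_filter] at hn
        exact Nat.mul_div_cancel' hn.2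
      · intro m _
        exact Nat.mul_div_cancel_left _ hp0
      · intro n hn
        rw [mem_filter, mem_Icc] at hn
        have h5 : (0 : ℝ) < n := by exact_mod_cast (by omega : 0 < n)
        rw [Nat.cast_div hn.2 hpr.ne']
        field_simp
    rw [h4, ← mul_sum]
    apply mul_le_mul_of_nonneg_left _ hV.le
    rw [sum_add_distrib, ← mul_sum, sum_const, nsmul_eq_mul, mul_one, Nat.card_Icc, Nat.add_sub_cancel]
    have h5 := harm_le (Q / p) X ((Nat.div_le_self _ _).trans hQ)
    have h6 : ((Q / p : ℕ) : ℝ) ≤ Q / p := Nat.cast_div_le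
    have h7 : (y : ℝ) / p * ∑ m ∈ Icc 1 (Q / p), 1 / (m : ℝ) ≤ (y : ℝ) / p * (1 + Real.log X) :=
      mul_le_mul_of_nonneg_left h5 (by positivity)
    have h8 : (y : ℝ) / p * (1 + Real.log X) + Q / p = (y * (1 + Real.log X) + Q) / p := by ring
    have h9 : (y * (1 + Real.log X) + Q) / p ≤ (y * (1 + Real.log X) + Q) / (z : ℝ) := by
      apply div_le_div_of_nonneg_left (by positivity) hz0
      exact_mod_cast hp.2.le
    linarith
  refine (sum_le_sum h2).trans ?_
  rw [sum_const, nsmul_eq_mul]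
  have h3 : ((a.primeFactors.filter (fun p => z < p)).card : ℝ) ≤ 2 * Real.log a := by
    refine le_trans ?_ (omega_le a ha)
    exact_mod_cast card_filter_le _ _
  calc ((a.primeFactors.filter (fun p => z < p)).card : ℝ) * ((Vz z)⁻¹ * ((y * (1 + Real.log X) + Q) / z)) ≤
        (2 * Real.log a) * ((Vz z)⁻¹ * ((y * (1 + Real.log X) + Q) / z)) := by
        apply mul_le_mul_of_nonneg_right h3
        positivity
    _ = _ := by ring

end Pool.Agent.W93.LV
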