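import Pool.Agent.W93.LV3

set_option autoImplicit false

/-! Level of distribution: the main terms. -/

namespace Pool.Agent.W93.LV
open Finset
open Pool.Agent.H373R2.T7

/-- the sum over the `u ≤ y`, `u ≡ a (mod q)` -/
noncomputable def Fu (g : ℕ → ℝ) (y q a : ℕ) : ℝ := ∑ u ∈ (Icc 1 y).filter (fun u => u ≡ a [MOD q]), g u

/-- the same sum without `u = a` -/
noncomputable def Su (g : ℕ → ℝ) (y q a : ℕ) : ℝ :=
  ∑ u ∈ ((Icc 1 y).filter (fun u => u ≡ a [MOD q])).filter (fun u => u ≠ a), g u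

lemma Fu_eq (g : ℕ → ℝ) (y q a : ℕ) (ha : 1 ≤ a) : Fu g y q a = Su g y q a + (if a ≤ y then g a else 0) := by
  unfold Fu Su
  have h1 := sum_filter_add_sum_filter_not ((Icc 1 y).filter (fun u => u ≡ a [MOD q])) (fun u => u ≠ a) g
  rw [← h1]
  congr 1
  by_cases h : a ≤ y
  · rw [if_pos h]
    have : ((Icc 1 y).filter (fun u => u ≡ a [MOD q])).filter (fun u => ¬ u ≠ a) = {a} := by
      ext u
      simp only [mem_filter, mem_Icc, mem_singleton, not_not]
      constructor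
      · rintro ⟨_, h⟩; exact h
      · rintro rfl; exact ⟨⟨⟨ha, h⟩, Nat.ModEq.refl _⟩, rfl⟩
    rw [this, sum_singleton]
  · rw [if_neg h]
    have : ((Icc 1 y).filter (fun u => u ≡ a [MOD q])).filter (fun u => ¬ u ≠ a) = ∅ := by
      ext u
      simp only [mem_filter, mem_Icc, not_not, notMem_empty, iff_false]
      rintro ⟨⟨⟨_, hu⟩, _⟩, hua⟩
      rw [hua] at hu
      exact h hu
    rw [this, sum_empty]

lemma Su_sub (g h : ℕ → ℝ) (y q a : ℕ) : Su (fun u => g u - h u) y q a = Su g y q a - Su h y q a := by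
  unfold Su
  rw [sum_sub_distrib]

/-- the identity -/
lemma ident (lam : ℕ → ℝ) (Q y a z : ℕ) (ha : 1 ≤ a) :
    ∑ q ∈ (Icc 1 Q).filter (fun q => a.Coprime q), lam q * (Fu (fun n => ArithmeticFunction.vonMangoldt n) y q a - (y : ℝ) / Nat.totient q) =
      ∑ u ∈ (Icc 1 y).filter (fun u => u ≠ a), (ArithmeticFunction.vonMangoldt u - lamz z u) * DD lam Q ((u - a) + (a - u)) +
      ∑ q ∈ (Icc 1 Q).filter (fun q => a.Coprime q), lam q * ((Fu (lamz z) y q a - (y : ℝ) / Nat.totient q) +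
        ((if a ≤ y then ArithmeticFunction.vonMangoldt a else 0) - (if a ≤ y then lamz z a else 0))) +
      ∑ q ∈ (Icc 1 Q).filter (fun q => ¬ a.Coprime q), lam q * (Su (lamz z) y q a - Su (fun n => ArithmeticFunction.vonMangoldt n) y q a) := by
  rw [← swap_sum lam Q (fun u => ArithmeticFunction.vonMangoldt u - lamz z u) a y]
  rw [← sum_filter_add_sum_filter_not (Icc 1 Q) (fun q => a.Coprime q)]
  have h1 : ∀ q, ∑ u ∈ ((Icc 1 y).filter (fun u => u ≡ a [MOD q])).filter (fun u => u ≠ a), (ArithmeticFunction.vonMangoldt u - lamz z u) =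
      Su (fun n => ArithmeticFunction.vonMangoldt n) y q a - Su (lamz z) y q a := by
    intro q
    rw [← Su_sub]
    rfl
  simp only [h1]
  have h2 : ∑ q ∈ (Icc 1 Q).filter (fun q => a.Coprime q), lam q * (Fu (fun n => ArithmeticFunction.vonMangoldt n) y q a - (y : ℝ) / Nat.totient q) =
      ∑ q ∈ (Icc 1 Q).filter (fun q => a.Coprime q), lam q * (Su (fun n => ArithmeticFunction.vonMangoldt n) y q a - Su (lamz z) y q a) +
      ∑ q ∈ (Icc 1 Q).filter (fun q => a.Coprime q), lam q * ((Fu (lamz z) y q a - (y : ℝ) / Nat.totient q) +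
        ((if a ≤ y then ArithmeticFunction.vonMangoldt a else 0) - (if a ≤ y then lamz z a else 0))) := by
    rw [← sum_add_distrib]
    apply sum_congr rfl
    intro q _
    rw [Fu_eq _ y q a ha, Fu_eq (lamz z) y q a ha]
    ring
  have h3 : ∑ q ∈ (Icc 1 Q).filter (fun q => ¬ a.Coprime q), lam q * (Su (fun n => ArithmeticFunction.vonMangoldt n) y q a - Su (lamz z) y q a) +
      ∑ q ∈ (Icc 1 Q).filter (fun q => ¬ a.Coprime q), lam q * (Su (lamz z) y q a - Su (fun n => ArithmeticFunction.vonMangoldt n) y q a) = 0 := by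
    rw [← sum_add_distrib]
    apply sum_eq_zero
    intro q _
    ring
  linarith

/-- the error in terms of the parameters -/
lemma det1 (lam : ℕ → ℝ) (Q y a z r X : ℕ) (Bm V Lx : ℝ) (ha : 1 ≤ a) (hz : 1 ≤ z) (haX : a ≤ X) (hyX : y ≤ X) (hQX : Q ≤ X)
    (hlam : ∀ q, |lam q| ≤ Bm) (hV : (Vz z)⁻¹ ≤ V) (hLx : Real.log X = Lx) (hVL : V ≤ Lx) (hL1 : 1 ≤ Lx) :
    |∑ q ∈ (Icc 1 Q).filter (fun q => a.Coprime q), lam q * (Fu (fun n => ArithmeticFunction.vonMangoldt n) y q a - (y : ℝ) / Nat.totient q)| ≤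
      |∑ u ∈ (Icc 1 y).filter (fun u => u ≠ a), (ArithmeticFunction.vonMangoldt u - lamz z u) * DD lam Q ((u - a) + (a - u))| +
      Bm * ((Lx * (Q * ((z : ℝ) + 1) ^ r) + 2 * Lx * (X * (2 * Lx)) * Real.exp (3 * (1 + Real.log z) - r) + X * (2 * Lx) ^ 2 * (2 * Lx / z)) +
        Q * (2 * Lx) + Q * (6 * Lx ^ 3) + Lx * (2 * Lx * ((X * (2 * Lx) + X) / z))) := by
  have hz0 : (0 : ℝ) < z := by exact_mod_cast hz
  have hX1 : 1 ≤ X := ha.trans haX
  have hX0 : (0 : ℝ) < X := by exact_mod_cast hX1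
  have hVpos : 0 < (Vz z)⁻¹ := inv_pos.2 (Vz_pos z)
  have hVLx : (Vz z)⁻¹ ≤ Lx := hV.trans hVL
  have hBm : 0 ≤ Bm := (abs_nonneg _).trans (hlam 0)
  have hLx0 : 0 < Lx := by linarith
  have h1L : 1 + Real.log X ≤ 2 * Lx := by rw [hLx]; linarith
  have hloga : Real.log a ≤ Lx := by rw [← hLx]; exact Real.log_le_log (by exact_mod_cast ha) (by exact_mod_cast haX)
  have hloga0 : 0 ≤ Real.log a := Real.log_natCast_nonneg a
  have hlogy : Real.log y ≤ Lx := by
    rcases Nat.eq_zero_or_pos y with h | h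
    · subst h; simp; linarith
    · rw [← hLx]; exact Real.log_le_log (by exact_mod_cast h) (by exact_mod_cast hyX)
  have hlogy0 : 0 ≤ Real.log y := Real.log_natCast_nonneg y
  rw [ident lam Q y a z ha]
  refine (abs_add_le _ _).trans ?_
  obtain ⟨η, hη⟩ : ∃ η, η = Real.exp (3 * (1 + Real.log z) - r) := ⟨_, rfl⟩
  have hη0 : 0 ≤ η := by rw [hη]; exact (Real.exp_pos _).le
  rw [← hη]
  -- the coprime moduli
  have c1 : |∑ q ∈ (Icc 1 Q).filter (fun q => a.Coprime q), lam q * ((Fu (lamz z) y q a - (y : ℝ) / Nat.totient q) +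
        ((if a ≤ y then ArithmeticFunction.vonMangoldt a else 0) - (if a ≤ y then lamz z a else 0)))| ≤
      Bm * ((Lx * (Q * ((z : ℝ) + 1) ^ r) + 2 * Lx * (X * (2 * Lx)) * η + X * (2 * Lx) ^ 2 * (2 * Lx / z)) + Q * (2 * Lx)) := by
    have d1 : ∀ q ∈ (Icc 1 Q).filter (fun q => a.Coprime q), |lam q * ((Fu (lamz z) y q a - (y : ℝ) / Nat.totient q) +
        ((if a ≤ y then ArithmeticFunction.vonMangoldt a else 0) - (if a ≤ y then lamz z a else 0)))| ≤
        Bm * ((Lx * (((z : ℝ) + 1) ^ r) + 2 * Lx * X * η * (1 / q) + X * (2 * Lx / z) * (1 / Nat.totient q)) + 2 * Lx) := by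
      intro q hq
      rw [mem_filter, mem_Icc] at hq
      have hq0 : (0 : ℝ) < q := by exact_mod_cast (by omega : 0 < q)
      have hφ0 : (0 : ℝ) < Nat.totient q := by exact_mod_cast Nat.totient_pos.2 hq.1.1
      rw [abs_mul]
      apply mul_le_mul (hlam q) _ (abs_nonneg _) hBm
      refine (abs_add_le _ _).trans (add_le_add ?_ ?_)
      · have e1 := lamz_ap2 z q a y r hz hq.1.1 hq.2
        unfold Fu
        refine e1.trans ?_
        rw [← hη]
        have hlogq : Real.log q ≤ Lx := by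
          rw [← hLx]
          exact Real.log_le_log hq0 (by exact_mod_cast hq.1.2.trans hQX)
        have hyr : (y : ℝ) ≤ X := by exact_mod_cast hyX
        have f1 : (Vz z)⁻¹ * (((z : ℝ) + 1) ^ r + 2 * ((y : ℝ) / q) * η) ≤ Lx * (((z : ℝ) + 1) ^ r) + 2 * Lx * X * η * (1 / q) := by
          have : 2 * ((y : ℝ) / q) * η ≤ 2 * ((X : ℝ) / q) * η := by gcongr
          calc (Vz z)⁻¹ * (((z : ℝ) + 1) ^ r + 2 * ((y : ℝ) / q) * η) ≤ Lx * (((z : ℝ) + 1) ^ r + 2 * ((X : ℝ) / q) * η) :=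
                mul_le_mul hVLx (by linarith) (by positivity) hLx0.le
            _ = _ := by ring
        have f2 : (y : ℝ) / (Nat.totient q : ℝ) * (2 * Real.log q / z) ≤ X * (2 * Lx / z) * (1 / Nat.totient q) := by
          have g1 : 0 ≤ Real.log q := Real.log_natCast_nonneg q
          calc (y : ℝ) / (Nat.totient q : ℝ) * (2 * Real.log q / z) ≤ (X : ℝ) / (Nat.totient q : ℝ) * (2 * Lx / z) := by gcongr
            _ = _ := by ring
        linarith
      · have g1 : 0 ≤ (if a ≤ y then ArithmeticFunction.vonMangoldt a else (0 : ℝ)) ∧ (if a ≤ y then ArithmeticFunction.vonMangoldt a else (0 : ℝ)) ≤ Lx := by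
          split_ifs
          · exact ⟨ArithmeticFunction.vonMangoldt_nonneg, ArithmeticFunction.vonMangoldt_le_log.trans hloga⟩
          · exact ⟨le_rfl, hLx0.le⟩
        have g2 : 0 ≤ (if a ≤ y then lamz z a else (0 : ℝ)) ∧ (if a ≤ y then lamz z a else (0 : ℝ)) ≤ Lx := by
          split_ifs
          · refine ⟨lamz_nonneg z a, ?_⟩
            unfold lamz
            split_ifs
            · exact hVLx
            · exact hLx0.le
          · exact ⟨le_rfl, hLx0.le⟩
        rw [abs_le]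
        constructor <;> linarith [g1.1, g1.2, g2.1, g2.2]
    refine (abs_sum_le_sum_abs _ _).trans ((sum_le_sum d1).trans ?_)
    have d2 : ∑ q ∈ (Icc 1 Q).filter (fun q => a.Coprime q), Bm * ((Lx * (((z : ℝ) + 1) ^ r) + 2 * Lx * X * η * (1 / q) + X * (2 * Lx / z) * (1 / Nat.totient q)) + 2 * Lx) ≤
        ∑ q ∈ Icc 1 Q, Bm * ((Lx * (((z : ℝ) + 1) ^ r) + 2 * Lx * X * η * (1 / q) + X * (2 * Lx / z) * (1 / Nat.totient q)) + 2 * Lx) := by
      apply sum_le_sum_of_subset_of_nonneg (filter_subset _ _)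
      intro q _ _
      positivity
    refine d2.trans ?_
    rw [← mul_sum]
    apply mul_le_mul_of_nonneg_left _ hBm
    rw [sum_add_distrib, sum_add_distrib, sum_add_distrib, ← mul_sum, ← mul_sum, sum_const, sum_const, nsmul_eq_mul, nsmul_eq_mul,
      Nat.card_Icc, Nat.add_sub_cancel]
    have k1 := (harm_le Q X hQX).trans h1L
    have k2 := (inv_phi_sum Q X hQX).trans (pow_le_pow_left₀ (log1_nonneg X) h1L 2)
    have k3 : 2 * Lx * X * η * ∑ q ∈ Icc 1 Q, 1 / (q : ℝ) ≤ 2 * Lx * X * η * (2 * Lx) := mul_le_mul_of_nonneg_left k1 (by positivity)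
    have k4 : X * (2 * Lx / z) * ∑ q ∈ Icc 1 Q, 1 / (Nat.totient q : ℝ) ≤ X * (2 * Lx / z) * (2 * Lx) ^ 2 := mul_le_mul_of_nonneg_left k2 (by positivity)
    have k5 : 2 * Lx * X * η * (2 * Lx) = 2 * Lx * (X * (2 * Lx)) * η := by ring
    have k6 : X * (2 * Lx / z) * (2 * Lx) ^ 2 = X * (2 * Lx) ^ 2 * (2 * Lx / z) := by ring
    have k7 : (Q : ℝ) * (Lx * ((z : ℝ) + 1) ^ r) = Lx * (Q * ((z : ℝ) + 1) ^ r) := by ring
    have k8 : ∑ q ∈ Icc 1 Q, X * (2 * Lx / z) * (1 / (Nat.totient q : ℝ)) = X * (2 * Lx / z) * ∑ q ∈ Icc 1 Q, 1 / (Nat.totient q : ℝ) := by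
      rw [mul_sum]
    linarith
  -- the other moduli
  have c2 : |∑ q ∈ (Icc 1 Q).filter (fun q => ¬ a.Coprime q), lam q * (Su (lamz z) y q a - Su (fun n => ArithmeticFunction.vonMangoldt n) y q a)| ≤
      Bm * (Q * (6 * Lx ^ 3) + Lx * (2 * Lx * ((X * (2 * Lx) + X) / z))) := by
    have d1 : ∀ q ∈ (Icc 1 Q).filter (fun q => ¬ a.Coprime q), |lam q * (Su (lamz z) y q a - Su (fun n => ArithmeticFunction.vonMangoldt n) y q a)| ≤
        Bm * (Su (lamz z) y q a + Su (fun n => ArithmeticFunction.vonMangoldt n) y q a) := by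
      intro q _
      rw [abs_mul]
      apply mul_le_mul (hlam q) _ (abs_nonneg _) hBm
      have s1 : 0 ≤ Su (lamz z) y q a := sum_nonneg fun u _ => lamz_nonneg z u
      have s2 : 0 ≤ Su (fun n => ArithmeticFunction.vonMangoldt n) y q a := sum_nonneg fun u _ => ArithmeticFunction.vonMangoldt_nonneg
      rw [abs_le]
      constructor <;> linarith
    refine (abs_sum_le_sum_abs _ _).trans ((sum_le_sum d1).trans ?_)
    rw [← mul_sum, sum_add_distrib]
    apply mul_le_mul_of_nonneg_left _ hBm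
    have k1 := nc_lam Q a y ha
    have k2 := nc_model z Q a y X hz ha hQX
    have k3 : (Q : ℝ) * (2 * Real.log a * ((Nat.log 2 y + 1 : ℝ) * Real.log y)) ≤ Q * (6 * Lx ^ 3) := by
      apply mul_le_mul_of_nonneg_left _ (Nat.cast_nonneg _)
      have g1 : ((Nat.log 2 y : ℕ) : ℝ) + 1 ≤ 3 * Lx := by
        rcases Nat.eq_zero_or_pos y with h | h
        · subst h; simp; linarith
        · have := log2_le y h
          linarith
      have g2 : (Nat.log 2 y + 1 : ℝ) * Real.log y ≤ 3 * Lx * Lx := mul_le_mul g1 hlogy hlogy0 (by positivity)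
      calc 2 * Real.log a * ((Nat.log 2 y + 1 : ℝ) * Real.log y) ≤ 2 * Lx * (3 * Lx * Lx) :=
            mul_le_mul (by linarith) g2 (by positivity) (by positivity)
        _ = _ := by ring
    have k4 : (Vz z)⁻¹ * (2 * Real.log a * ((y * (1 + Real.log X) + Q) / z)) ≤ Lx * (2 * Lx * ((X * (2 * Lx) + X) / z)) := by
      have hyr : (y : ℝ) ≤ X := by exact_mod_cast hyX
      have hQr : (Q : ℝ) ≤ X := by exact_mod_cast hQX
      have h0 := log1_nonneg X
      have g1 : (y : ℝ) * (1 + Real.log X) ≤ X * (2 * Lx) := mul_le_mul hyr h1L h0 hX0.le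
      have g2 : (y * (1 + Real.log X) + Q) / (z : ℝ) ≤ (X * (2 * Lx) + X) / z := div_le_div_of_nonneg_right (by linarith) hz0.le
      have g3 : 2 * Real.log a * ((y * (1 + Real.log X) + Q) / (z : ℝ)) ≤ 2 * Lx * ((X * (2 * Lx) + X) / z) :=
        mul_le_mul (by linarith) g2 (by positivity) (by positivity)
      exact mul_le_mul hVLx g3 (by positivity) hLx0.le
    unfold Su
    linarith
  have c3 := abs_add_le (∑ u ∈ (Icc 1 y).filter (fun u => u ≠ a), (ArithmeticFunction.vonMangoldt u - lamz z u) * DD lam Q ((u - a) + (a - u)))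
      (∑ q ∈ (Icc 1 Q).filter (fun q => a.Coprime q), lam q * ((Fu (lamz z) y q a - (y : ℝ) / Nat.totient q) +
        ((if a ≤ y then ArithmeticFunction.vonMangoldt a else 0) - (if a ≤ y then lamz z a else 0))))
  have c4 : Bm * ((Lx * (Q * ((z : ℝ) + 1) ^ r) + 2 * Lx * (X * (2 * Lx)) * η + X * (2 * Lx) ^ 2 * (2 * Lx / z)) + Q * (2 * Lx)) +
      Bm * (Q * (6 * Lx ^ 3) + Lx * (2 * Lx * ((X * (2 * Lx) + X) / z))) =
      Bm * ((Lx * (Q * ((z : ℝ) + 1) ^ r) + 2 * Lx * (X * (2 * Lx)) * η + X * (2 * Lx) ^ 2 * (2 * Lx / z)) +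
        Q * (2 * Lx) + Q * (6 * Lx ^ 3) + Lx * (2 * Lx * ((X * (2 * Lx) + X) / z))) := by ring
  rw [← c4]
  linarith

end Pool.Agent.W93.LV
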