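import Pool.Agent.W93.LV4

set_option autoImplicit false

/-! Level of distribution: truncation of the divisor sum. -/

namespace Pool.Agent.W93.LV
open Finset
open Pool.Agent.H373R2.T7
open Pool.Agent.W93.AU

open Classical in
/-- the truncated divisor sum -/
noncomputable def DT (lam : ℕ → ℝ) (Q : ℕ) (τ : ℝ) (n : ℕ) : ℝ :=
  if 1 ≤ n ∧ (n.divisors.card : ℝ) ≤ τ then DD lam Q n else 0

lemma DT_le (lam : ℕ → ℝ) (Q : ℕ) (τ B : ℝ) (hτ : 0 ≤ τ) (hlam : ∀ q, |lam q| ≤ B) (n : ℕ) : |DT lam Q τ n| ≤ B * τ := by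
  have hB : 0 ≤ B := (abs_nonneg _).trans (hlam 0)
  unfold DT
  split_ifs with h
  · exact (DD_le lam Q n h.1 B hlam).trans (mul_le_mul_of_nonneg_left h.2 hB)
  · rw [abs_zero]; positivity

lemma DT_diff (lam : ℕ → ℝ) (Q : ℕ) (τ B : ℝ) (hτ : 0 < τ) (hlam : ∀ q, |lam q| ≤ B) (n : ℕ) (hn : 1 ≤ n) :
    |DD lam Q n - DT lam Q τ n| ≤ B / τ * (n.divisors.card : ℝ) ^ 2 := by
  have hB : 0 ≤ B := (abs_nonneg _).trans (hlam 0)
  unfold DT
  split_ifs with h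
  · rw [sub_self, abs_zero]; positivity
  · rw [sub_zero]
    have h1 : τ < (n.divisors.card : ℝ) := by
      by_contra hcon
      push Not at hcon
      exact h ⟨hn, hcon⟩
    refine (DD_le lam Q n hn B hlam).trans ?_
    rw [div_mul_eq_mul_div, le_div_iff₀ hτ, pow_two, mul_assoc]
    apply mul_le_mul_of_nonneg_left _ hB
    exact mul_le_mul_of_nonneg_left h1.le (Nat.cast_nonneg _)

/-- truncation in a sum -/
lemma trunc_sum (lam : ℕ → ℝ) (Q : ℕ) (τ B Lx : ℝ) (hτ : 0 < τ) (hlam : ∀ q, |lam q| ≤ B) (X M : ℕ) (hM : M ≤ X) (F : ℕ → ℝ)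
    (hLx : 0 ≤ Lx) (hF : ∀ n ∈ Icc 1 M, |F n| ≤ Lx) :
    |∑ n ∈ Icc 1 M, DD lam Q n * F n| ≤ |∑ n ∈ Icc 1 M, DT lam Q τ n * F n| + Lx * (B / τ * (X * (1 + Real.log X) ^ 3)) := by
  have hB : 0 ≤ B := (abs_nonneg _).trans (hlam 0)
  have e1 : ∑ n ∈ Icc 1 M, DD lam Q n * F n = ∑ n ∈ Icc 1 M, DT lam Q τ n * F n + ∑ n ∈ Icc 1 M, (DD lam Q n - DT lam Q τ n) * F n := by
    rw [← sum_add_distrib]
    apply sum_congr rfl
    intro n _
    ring
  rw [e1]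
  refine (abs_add_le _ _).trans (add_le_add le_rfl ?_)
  refine (abs_sum_le_sum_abs _ _).trans ?_
  have h1 : ∀ n ∈ Icc 1 M, |(DD lam Q n - DT lam Q τ n) * F n| ≤ (B / τ * (n.divisors.card : ℝ) ^ 2) * Lx := by
    intro n hn
    rw [abs_mul]
    exact mul_le_mul (DT_diff lam Q τ B hτ hlam n (mem_Icc.1 hn).1) (hF n hn) (abs_nonneg _) (by positivity)
  refine (sum_le_sum h1).trans ?_
  rw [← sum_mul, ← mul_sum, mul_comm]
  apply mul_le_mul_of_nonneg_left _ hLx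
  apply mul_le_mul_of_nonneg_left _ (by positivity)
  refine le_trans ?_ (tau_sq X)
  exact sum_le_sum_of_subset_of_nonneg (Icc_subset_Icc_right hM) (fun _ _ _ => by positivity)

lemma dI_nat (z m : ℕ) (hm : 1 ≤ m) : dI z (m : ℤ) = ArithmeticFunction.vonMangoldt m - lamz z m := by
  unfold dI lamI lamzI
  rw [if_pos (by exact_mod_cast hm), if_pos (by exact_mod_cast hm), Int.toNat_natCast]

/-- the three sums -/
lemma three (lam : ℕ → ℝ) (Q a y z X : ℕ) (τ B Lx : ℝ) (hτ : 0 < τ) (hlam : ∀ q, |lam q| ≤ B) (ha : 1 ≤ a) (haX : a ≤ X) (hyX : y ≤ X)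
    (hLx : Real.log X = Lx) (hV : (Vz z)⁻¹ ≤ Lx) (hL1 : 1 ≤ Lx) :
    |∑ u ∈ (Icc 1 y).filter (fun u => u ≠ a), (ArithmeticFunction.vonMangoldt u - lamz z u) * DD lam Q ((u - a) + (a - u))| ≤
      |∑ n ∈ Icc 1 (y - a), DT lam Q τ n * dI z ((n : ℤ) + ((a : ℕ) : ℤ))| +
      (|∑ n ∈ Icc 1 (a - 1), DT lam Q τ n * dI z (((a : ℕ) : ℤ) - (n : ℤ))| +
      |∑ n ∈ Icc 1 (a - 1 - y), DT lam Q τ n * dI z (((a : ℕ) : ℤ) - (n : ℤ))|) +
      3 * (Lx * (B / τ * (X * (1 + Real.log X) ^ 3))) := by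
  obtain ⟨f, hf⟩ : ∃ f : ℕ → ℝ, f = fun u => ArithmeticFunction.vonMangoldt u - lamz z u := ⟨_, rfl⟩
  have hfr : ∀ u, ArithmeticFunction.vonMangoldt u - lamz z u = f u := fun u => by rw [hf]
  have hfb : ∀ u, 1 ≤ u → u ≤ X → |f u| ≤ Lx := by
    intro u hu1 hu2
    rw [← hfr]
    have q1 : (0 : ℝ) ≤ ArithmeticFunction.vonMangoldt u := ArithmeticFunction.vonMangoldt_nonneg
    have q2 := lamz_nonneg z u
    have q3 : ArithmeticFunction.vonMangoldt u ≤ Lx := by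
      refine ArithmeticFunction.vonMangoldt_le_log.trans ?_
      rw [← hLx]
      exact Real.log_le_log (by exact_mod_cast hu1) (by exact_mod_cast hu2)
    have q4 : lamz z u ≤ Lx := by
      unfold lamz
      split_ifs
      · exact hV
      · linarith
    rw [abs_le]
    constructor <;> linarith
  simp only [hfr]
  rw [split_sum (DD lam Q) f a y ha]
  have s1 := trunc_sum lam Q τ B Lx hτ hlam X (y - a) (by omega) (fun n => f (n + a)) (by linarith) (by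
    intro n hn
    rw [mem_Icc] at hn
    exact hfb _ (by omega) (by omega))
  have s2 := trunc_sum lam Q τ B Lx hτ hlam X (a - 1) (by omega) (fun n => f (a - n)) (by linarith) (by
    intro n hn
    rw [mem_Icc] at hn
    exact hfb _ (by omega) (by omega))
  have s3 := trunc_sum lam Q τ B Lx hτ hlam X (a - 1 - y) (by omega) (fun n => f (a - n)) (by linarith) (by
    intro n hn
    rw [mem_Icc] at hn
    exact hfb _ (by omega) (by omega))
  have e1 : ∑ n ∈ Icc 1 (y - a), DT lam Q τ n * f (n + a) = ∑ n ∈ Icc 1 (y - a), DT lam Q τ n * dI z ((n : ℤ) + ((a : ℕ) : ℤ)) := by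
    apply sum_congr rfl
    intro n hn
    rw [mem_Icc] at hn
    have := dI_nat z (n + a) (by omega)
    rw [hfr] at this
    rw [← this]
    push_cast
    rfl
  have e2 : ∀ M, M ≤ a - 1 → ∑ n ∈ Icc 1 M, DT lam Q τ n * f (a - n) = ∑ n ∈ Icc 1 M, DT lam Q τ n * dI z (((a : ℕ) : ℤ) - (n : ℤ)) := by
    intro M hM
    apply sum_congr rfl
    intro n hn
    rw [mem_Icc] at hn
    have := dI_nat z (a - n) (by omega)
    rw [hfr] at this
    rw [← this, Nat.cast_sub (by omega)]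
  rw [e1] at s1
  rw [e2 _ le_rfl] at s2
  rw [e2 _ (by omega)] at s3
  have t1 := abs_add_le (∑ n ∈ Icc 1 (y - a), DD lam Q n * f (n + a)) (∑ n ∈ Icc 1 (a - 1), DD lam Q n * f (a - n) - ∑ n ∈ Icc 1 (a - 1 - y), DD lam Q n * f (a - n))
  have t2 := abs_sub (∑ n ∈ Icc 1 (a - 1), DD lam Q n * f (a - n)) (∑ n ∈ Icc 1 (a - 1 - y), DD lam Q n * f (a - n))
  linarith

/-- the final numerical inequality -/
lemma fin_num (L Lx N X Q W η z T1 T2' T3 C0 : ℝ) (T U E1 : ℕ) (hL : 1 ≤ L) (hLx0 : 1 ≤ Lx) (hLx : Lx ≤ 2 * L) (hN : 0 < N) (hX : X = C0 * N) (hC0 : 0 ≤ C0)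
    (hQ : 0 ≤ Q) (hW : 1 ≤ W) (hη0 : 0 ≤ η) (hη : η ≤ 1 / L ^ (T + U + 3)) (hz0 : 0 < z) (hz : L ^ E1 ≤ z) (hE1 : T + U + 4 ≤ E1)
    (hQW : 54 * L ^ (T + U + 4) * (Q * W) ≤ N) (hbig : 4 + 504 * C0 ≤ L)
    (h1 : T1 ≤ N / L ^ (U + 1)) (h2 : T2' ≤ N / L ^ (U + 1)) (h3 : T3 ≤ N / L ^ (U + 1)) :
    T1 + (T2' + T3) + 3 * (Lx * (L ^ T / L ^ (T + U + 5) * (X * (2 * Lx) ^ 3))) +
      L ^ T * ((Lx * (Q * W) + 2 * Lx * (X * (2 * Lx)) * η + X * (2 * Lx) ^ 2 * (2 * Lx / z)) +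
        Q * (2 * Lx) + Q * (6 * Lx ^ 3) + Lx * (2 * Lx * ((X * (2 * Lx) + X) / z))) ≤ N / L ^ U := by
  have hL0 : 0 < L := by linarith
  have hX0 : 0 ≤ X := by rw [hX]; positivity
  have hLT : 0 < L ^ T := by positivity
  have hLU : 0 < L ^ (U + 1) := by positivity
  -- truncation
  have k1 : 3 * (Lx * (L ^ T / L ^ (T + U + 5) * (X * (2 * Lx) ^ 3))) ≤ 384 * C0 * (N / L ^ (U + 1)) := by
    have e1 : L ^ T / L ^ (T + U + 5) = 1 / (L ^ (U + 1) * L ^ 4) := by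
      rw [show T + U + 5 = T + ((U + 1) + 4) by ring, pow_add L T, pow_add L (U + 1)]
      have := pow_pos hL0 4
      field_simp
    rw [e1]
    calc 3 * (Lx * (1 / (L ^ (U + 1) * L ^ 4) * (X * (2 * Lx) ^ 3))) ≤ 3 * ((2 * L) * (1 / (L ^ (U + 1) * L ^ 4) * (X * (2 * (2 * L)) ^ 3))) := by gcongr
      _ = _ := by
        rw [hX]
        have := pow_pos hL0 4
        field_simp
        ring
  -- the sieve error
  have k2 : L ^ T * (Lx * (Q * W) + Q * (2 * Lx) + Q * (6 * Lx ^ 3)) ≤ N / L ^ (U + 1) := by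
    have f1 : Lx * (Q * W) + Q * (2 * Lx) + Q * (6 * Lx ^ 3) ≤ 54 * L ^ 3 * (Q * W) := by
      have g0 : Q ≤ Q * W := le_mul_of_one_le_right hQ hW
      have g1 : L ≤ L ^ 3 := le_self_pow₀ hL (by norm_num)
      have g2 : Lx ^ 3 ≤ 8 * L ^ 3 := by
        calc Lx ^ 3 ≤ (2 * L) ^ 3 := pow_le_pow_left₀ (by linarith) hLx 3
          _ = _ := by ring
      have g3 : Lx * (Q * W) ≤ 2 * L ^ 3 * (Q * W) := mul_le_mul_of_nonneg_right (by linarith) (by positivity)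
      have g4 : Q * (2 * Lx) ≤ (Q * W) * (4 * L ^ 3) := mul_le_mul g0 (by linarith) (by positivity) (by positivity)
      have g5 : Q * (6 * Lx ^ 3) ≤ (Q * W) * (48 * L ^ 3) := mul_le_mul g0 (by linarith) (by positivity) (by positivity)
      linarith
    rw [le_div_iff₀ hLU]
    calc L ^ T * (Lx * (Q * W) + Q * (2 * Lx) + Q * (6 * Lx ^ 3)) * L ^ (U + 1) ≤ L ^ T * (54 * L ^ 3 * (Q * W)) * L ^ (U + 1) := by gcongr
      _ = 54 * L ^ (T + U + 4) * (Q * W) := by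
          rw [show T + U + 4 = T + 3 + (U + 1) by ring, pow_add L (T + 3) (U + 1), pow_add L T 3]; ring
      _ ≤ N := hQW
  have k3 : L ^ T * (2 * Lx * (X * (2 * Lx)) * η) ≤ 16 * C0 * (N / L ^ (U + 1)) := by
    calc L ^ T * (2 * Lx * (X * (2 * Lx)) * η) ≤ L ^ T * (2 * (2 * L) * (X * (2 * (2 * L))) * (1 / L ^ (T + U + 3))) := by gcongr
      _ = _ := by
        rw [hX, show T + U + 3 = T + (2 + (U + 1)) by ring, pow_add L T, pow_add L 2]
        field_simp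
        ring
  have k4 : 1 / z ≤ 1 / L ^ (T + U + 4) := by
    apply one_div_le_one_div_of_le (by positivity)
    exact (pow_le_pow_right₀ hL hE1).trans hz
  have k5 : L ^ T * (X * (2 * Lx) ^ 2 * (2 * Lx / z) + Lx * (2 * Lx * ((X * (2 * Lx) + X) / z))) ≤ 104 * C0 * (N / L ^ (U + 1)) := by
    have e1 : X * (2 * Lx) ^ 2 * (2 * Lx / z) + Lx * (2 * Lx * ((X * (2 * Lx) + X) / z)) = X * (12 * Lx ^ 3 + 2 * Lx ^ 2) * (1 / z) := by
      field_simp
      ring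
    rw [e1]
    have g2 : 12 * Lx ^ 3 + 2 * Lx ^ 2 ≤ 104 * L ^ 3 := by
      have g3 : Lx ^ 3 ≤ (2 * L) ^ 3 := pow_le_pow_left₀ (by linarith) hLx 3
      have g4 : Lx ^ 2 ≤ (2 * L) ^ 2 := pow_le_pow_left₀ (by linarith) hLx 2
      have g5 : L ^ 2 ≤ L ^ 3 := pow_le_pow_right₀ hL (by norm_num)
      nlinarith
    calc L ^ T * (X * (12 * Lx ^ 3 + 2 * Lx ^ 2) * (1 / z)) ≤ L ^ T * (X * (104 * L ^ 3) * (1 / L ^ (T + U + 4))) := by gcongr
      _ = _ := by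
        rw [hX, show T + U + 4 = T + (3 + (U + 1)) by ring, pow_add L T, pow_add L 3]
        field_simp
  have k6 : L ^ T * ((Lx * (Q * W) + 2 * Lx * (X * (2 * Lx)) * η + X * (2 * Lx) ^ 2 * (2 * Lx / z)) +
        Q * (2 * Lx) + Q * (6 * Lx ^ 3) + Lx * (2 * Lx * ((X * (2 * Lx) + X) / z))) =
      L ^ T * (Lx * (Q * W) + Q * (2 * Lx) + Q * (6 * Lx ^ 3)) + L ^ T * (2 * Lx * (X * (2 * Lx)) * η) +
      L ^ T * (X * (2 * Lx) ^ 2 * (2 * Lx / z) + Lx * (2 * Lx * ((X * (2 * Lx) + X) / z))) := by ring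
  rw [k6]
  have k7 : (4 + 504 * C0) * (N / L ^ (U + 1)) ≤ N / L ^ U := by
    calc (4 + 504 * C0) * (N / L ^ (U + 1)) ≤ L * (N / L ^ (U + 1)) := mul_le_mul_of_nonneg_right hbig (by positivity)
      _ = N / L ^ U := by rw [pow_succ]; field_simp
  linarith

end Pool.Agent.W93.LV
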