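import Pool.Agent.W93.LV5

set_option autoImplicit false

/-! Level of distribution: the final theorem. -/

namespace Pool.Agent.W93.LV
open Finset
open Pool.Agent.H373R2.T7
open Pool.Agent.W93.AU
open Pool.Agent.W93.TD

variable {σ : Type}

lemma pow_small (δ C : ℝ) (hδ : 0 < δ) (k : ℕ) : ∃ N₀ : ℕ, ∀ N : ℕ, N₀ ≤ N → C * Real.log N ^ k ≤ (N : ℝ) ^ δ := by
  have h1 := isLittleO_log_rpow_rpow_atTop (k : ℝ) hδ
  have h2 := h1.def (c := 1 / (|C| + 1)) (by positivity)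
  have h3 := (tendsto_natCast_atTop_atTop (R := ℝ)).eventually h2
  obtain ⟨N0, h0⟩ := Filter.eventually_atTop.1 h3
  refine ⟨N0 + 1, fun N hN => ?_⟩
  have h4 := h0 N (by omega)
  have hN1 : (1 : ℝ) ≤ N := by exact_mod_cast (by omega : 1 ≤ N)
  have hl := Real.log_natCast_nonneg N
  rw [Real.rpow_natCast, Real.norm_of_nonneg (by positivity), Real.norm_of_nonneg (by positivity), one_div, inv_mul_eq_div,
    le_div_iff₀ (by positivity)] at h4
  have h5 : 0 ≤ Real.log N ^ k := by positivity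
  have h6 := le_abs_self C
  nlinarith

open Classical in
theorem lv_final [Fintype σ] (b : ℕ) (hb : 2 ≤ b) (M : DFA ℕ σ)
    (hS : ∀ k : ℕ, ∃ᶠ N : ℕ in Filter.atTop, Real.log N ^ k < (((range N).filter fun v => Nat.digits b v ∈ M.accepts).card : ℝ))
    (κκ : ℕ) (hκκ : 1 ≤ κκ) (Bc : ℕ) (hBc : 1 ≤ Bc) (ε : ℝ) (hε : 0 < ε) (T U : ℕ) : ∃ N₀ : ℕ, ∀ N, N₀ ≤ N →
    ∀ cc : ℕ, cc ≤ Bc * N → ∀ lam : ℕ → ℝ, (∀ q, |lam q| ≤ Real.log N ^ T) → ∀ Q : ℕ, (Q : ℝ) ≤ (N : ℝ) ^ (1 - ε) →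
    ∀ P : ℕ → Prop, (∀ v, P v → 0 < cc + κκ * v ∧ ∃ y ≤ Bc * N, N / Real.log N ^ U <
      |∑ q ∈ (Icc 1 Q).filter (fun q => (cc + κκ * v).Coprime q),
        lam q * (Fu (fun n => ArithmeticFunction.vonMangoldt n) y q (cc + κκ * v) - (y : ℝ) / Nat.totient q)|) →
    (((range N).filter (fun v : ℕ => Nat.digits b v ∈ M.accepts ∧ P v)).card : ℝ) ≤
      (((range N).filter fun v => Nat.digits b v ∈ M.accepts).card : ℝ) / Real.log N ^ U := by
  obtain ⟨B0, h0⟩ := au_two b hb M hS κκ hκκ Bc hBc (T + (T + U + 5)) (U + 1)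
  obtain ⟨E1, hE1⟩ : ∃ E1, E1 = B0 + T + U + 5 := ⟨_, rfl⟩
  obtain ⟨n0, h0⟩ := h0 (E1 + 1)
  obtain ⟨Mm, hMm⟩ := exists_nat_ge (2 / ε + 1)
  obtain ⟨n1, h1⟩ := choice 1 (E1 + 1) (T + U + 3) Mm
  obtain ⟨n2, h2⟩ := Vz_inv_small (E1 + 1)
  obtain ⟨n3, h3⟩ := pow_small (ε / 2) 54 (by positivity) (T + U + 4)
  obtain ⟨C0, hC0⟩ : ∃ C0 : ℕ, C0 = Bc + κκ := ⟨_, rfl⟩
  obtain ⟨R, hR⟩ := exists_nat_ge (4 + 504 * (C0 : ℝ) + Real.log (C0 : ℝ) + 2)
  have hC01 : 1 ≤ C0 := by omega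
  have hlC0 : 0 ≤ Real.log (C0 : ℝ) := Real.log_natCast_nonneg C0
  refine ⟨n0 + n1 + n2 + n3 + 3 ^ R + 3, fun N hN cc hcc lam hlam Q hQ P hP => ?_⟩
  obtain ⟨P3, hP3⟩ : ∃ P3 : ℕ, P3 = 3 ^ R := ⟨_, rfl⟩
  rw [← hP3] at hN
  have hN1 : 1 ≤ N := by omega
  have hNr : (1 : ℝ) ≤ N := by exact_mod_cast hN1
  have hN0 : (0 : ℝ) < N := by linarith
  obtain ⟨L, hL⟩ : ∃ L, L = Real.log (N : ℝ) := ⟨_, rfl⟩
  have hLR : (R : ℝ) ≤ L := by
    rw [hL, Real.le_log_iff_exp_le hN0]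
    have h1 : Real.exp (R : ℝ) ≤ (3 : ℝ) ^ R := by
      rw [show (R : ℝ) = R * 1 by ring, Real.exp_nat_mul]
      exact pow_le_pow_left₀ (Real.exp_pos _).le (by linarith [Real.exp_one_lt_d9]) R
    refine h1.trans ?_
    exact_mod_cast (by rw [← hP3]; omega : 3 ^ R ≤ N)
  have hC0r : (1 : ℝ) ≤ C0 := by exact_mod_cast hC01
  have hbig : 4 + 504 * (C0 : ℝ) ≤ L := by linarith
  have hL1 : 1 ≤ L := by linarith
  have hL0 : 0 < L := by linarith
  -- the level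
  obtain ⟨z, hz⟩ : ∃ z, z = ⌈L ^ E1⌉₊ := ⟨_, rfl⟩
  have hz1 : L ^ E1 ≤ z := by rw [hz]; exact Nat.le_ceil _
  have hz2 : (z : ℝ) ≤ L ^ (E1 + 1) := by
    have q1 : (z : ℝ) < L ^ E1 + 1 := by rw [hz]; exact Nat.ceil_lt_add_one (by positivity)
    have q2 : 1 ≤ L ^ E1 := one_le_pow₀ (by linarith)
    rw [pow_succ]
    nlinarith
  have hzge : 1 ≤ z := by
    have : (1 : ℝ) ≤ z := (one_le_pow₀ hL1).trans hz1
    exact_mod_cast this
  -- the range
  obtain ⟨X, hX⟩ : ∃ X : ℕ, X = C0 * N := ⟨_, rfl⟩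
  have hXN : N ≤ X := by rw [hX]; exact Nat.le_mul_of_pos_left _ (by omega)
  have hBcX : Bc * N ≤ X := by rw [hX, hC0]; exact Nat.mul_le_mul_right _ (by omega)
  obtain ⟨Lx, hLx⟩ : ∃ Lx, Lx = Real.log (X : ℝ) := ⟨_, rfl⟩
  have hLx1 : L ≤ Lx := by
    rw [hL, hLx]
    exact Real.log_le_log hN0 (by exact_mod_cast hXN)
  have hLx2 : Lx ≤ 2 * L := by
    rw [hLx, hX]
    push_cast
    rw [Real.log_mul (by positivity) hN0.ne', ← hL]
    linarith
  have hV := h2 X (by omega) z hzge (by rw [← hLx]; exact hz2.trans (pow_le_pow_left₀ hL0.le hLx1 _))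
  rw [← hLx] at hV
  -- the sieve
  obtain ⟨r, hr1, hr2, _⟩ := h1 N (by omega) z (by rw [← hL]; exact hz2)
  rw [← hL] at hr1
  obtain ⟨W, hW⟩ : ∃ W : ℝ, W = ((z : ℝ) + 1) ^ r := ⟨_, rfl⟩
  rw [← hW] at hr2
  have hW1 : 1 ≤ W := by rw [hW]; exact one_le_pow₀ (by linarith [(Nat.cast_nonneg z : (0 : ℝ) ≤ z)])
  have hQN : (Q : ℝ) * W ≤ (N : ℝ) ^ (1 - ε / 2) := by
    have hMpos : 0 < 2 / ε := by positivity
    have hM0 : (0 : ℝ) < Mm := by linarith
    have hM0' : Mm ≠ 0 := by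
      rintro rfl
      simp at hM0
    have q1 : W ≤ (N : ℝ) ^ (ε / 2) := by
      calc W = (W ^ Mm) ^ ((1 : ℝ) / Mm) := by
            rw [one_div, Real.pow_rpow_inv_natCast (by linarith) hM0']
        _ ≤ (N : ℝ) ^ ((1 : ℝ) / Mm) := Real.rpow_le_rpow (by positivity) hr2 (by positivity)
        _ ≤ (N : ℝ) ^ (ε / 2) := by
            apply Real.rpow_le_rpow_of_exponent_le hNr
            rw [div_le_div_iff₀ hM0 (by norm_num)]
            have : 2 / ε ≤ Mm := by linarith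
            rw [div_le_iff₀ hε] at this
            linarith
    calc (Q : ℝ) * W ≤ (N : ℝ) ^ (1 - ε) * (N : ℝ) ^ (ε / 2) := mul_le_mul hQ q1 (by linarith) (by positivity)
      _ = (N : ℝ) ^ (1 - ε / 2) := by
          rw [← Real.rpow_add hN0]
          congr 1
          ring
  have hQX : Q ≤ X := by
    have q1 : (Q : ℝ) ≤ N := by
      calc (Q : ℝ) ≤ (N : ℝ) ^ (1 - ε) := hQ
        _ ≤ (N : ℝ) ^ (1 : ℝ) := Real.rpow_le_rpow_of_exponent_le hNr (by linarith)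
        _ = N := Real.rpow_one _
    have q2 : Q ≤ N := by exact_mod_cast q1
    omega
  have hQW : 54 * L ^ (T + U + 4) * ((Q : ℝ) * W) ≤ N := by
    have q1 := h3 N (by omega)
    rw [← hL] at q1
    calc 54 * L ^ (T + U + 4) * ((Q : ℝ) * W) ≤ (N : ℝ) ^ (ε / 2) * (N : ℝ) ^ (1 - ε / 2) :=
          mul_le_mul q1 hQN (by positivity) (by positivity)
      _ = N := by
          rw [← Real.rpow_add hN0, show ε / 2 + (1 - ε / 2) = 1 by ring, Real.rpow_one]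
  -- the exceptional set
  rw [← hL] at hlam hP
  have hτ : (0 : ℝ) < L ^ (T + U + 5) := by positivity
  have key := h0 N (by omega) cc hcc z (by rw [← hL]; exact (pow_le_pow_right₀ hL1 (by omega)).trans hz1) (by rw [← hL]; exact hz2)
    (DT lam Q (L ^ (T + U + 5))) (fun n => by
      refine (DT_le lam Q _ (L ^ T) hτ.le hlam n).trans (le_of_eq ?_)
      rw [← hL, ← pow_add]) P (by
      intro v hv hPv
      obtain ⟨ha, y, hy, hlt⟩ := hP v hPv
      obtain ⟨a, haa⟩ : ∃ a, a = cc + κκ * v := ⟨_, rfl⟩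
      rw [← haa] at ha hlt ⊢
      rw [← hL]
      by_contra hcon
      rw [not_or] at hcon
      obtain ⟨c1, c2⟩ := hcon
      push Not at c1 c2
      have haX : a ≤ X := by
        have g1 : κκ * v ≤ κκ * N := Nat.mul_le_mul_left _ hv.le
        calc a = cc + κκ * v := haa
          _ ≤ Bc * N + κκ * N := by omega
          _ = X := by rw [hX, hC0]; ring
      have hyX : y ≤ X := hy.trans hBcX
      have s1 := c1 (y - a) (by omega)
      have s2 := c2 (a - 1) (by omega)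
      have s3 := c2 (a - 1 - y) (by omega)
      have d1 := det1 lam Q y a z r X (L ^ T) Lx Lx ha hzge haX hyX hQX hlam hV hLx.symm le_rfl (by linarith)
      have d2 := three lam Q a y z X (L ^ (T + U + 5)) (L ^ T) Lx hτ hlam ha haX hyX hLx.symm hV (by linarith)
      rw [← hW] at d1
      have d3 : 1 + Real.log (X : ℝ) ≤ 2 * Lx := by rw [← hLx]; linarith
      have d4 : Lx * (L ^ T / L ^ (T + U + 5) * (X * (1 + Real.log X) ^ 3)) ≤ Lx * (L ^ T / L ^ (T + U + 5) * (X * (2 * Lx) ^ 3)) := by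
        have g0 := log1_nonneg X
        have g1 : 0 ≤ Lx := by linarith
        gcongr
      have d5 := fin_num L Lx N X Q W (Real.exp (3 * (1 + Real.log z) - r)) z _ _ _ C0 T U E1 hL1 (by linarith) hLx2 hN0
        (by rw [hX]; push_cast; rfl) (by linarith) (Nat.cast_nonneg Q) hW1 (Real.exp_pos _).le (by
          refine le_trans (le_of_eq ?_) hr1
          push_cast
          ring_nf) (by exact_mod_cast hzge) hz1 (by omega) hQW hbig s1 s2 s3
      linarith)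
  rw [← hL] at key ⊢
  refine key.trans ?_
  apply div_le_div_of_nonneg_left (Nat.cast_nonneg _) (by positivity)
  exact pow_le_pow_right₀ hL1 (by omega)

end Pool.Agent.W93.LV
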