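import Pool.Agent.H373R2.T7.LamZ2
import Pool.Agent.W93.MA

set_option autoImplicit false

/-! The truncated sieve model: exponential sums and the distance to the sieve model in `L²`. -/

namespace Pool.Agent.W93.DG
open Finset
open Pool.Agent.H807R2.Dav
open Pool.Agent.H373R2.T7

/-- the truncated inclusion-exclusion -/
noncomputable def lamR (z r n : ℕ) : ℝ :=
  (Vz z)⁻¹ * ∑ j ∈ range r, (-1 : ℝ) ^ j * ∑ S ∈ (pz z).powersetCard j, (if ∏ p ∈ S, p ∣ n then (1 : ℝ) else 0)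

lemma pzc_prime {z j : ℕ} {S : Finset ℕ} (hS : S ∈ (pz z).powersetCard j) : ∀ p ∈ S, p.Prime := fun _ hp =>
  (mem_pz.1 ((mem_powersetCard.1 hS).1 hp)).2

lemma pzc_pos {z j : ℕ} {S : Finset ℕ} (hS : S ∈ (pz z).powersetCard j) : 1 ≤ ∏ p ∈ S, p :=
  Nat.pos_of_ne_zero (prod_ne_zero_iff.2 fun p hp => (pzc_prime hS p hp).ne_zero)

/-- exponential sums of the truncated model -/
lemma lamR_exp (z r N : ℕ) (α : ℝ) :
    ‖∑ n ∈ Icc 1 N, ((lamR z r n : ℝ) : ℂ) * ee ((n : ℝ) * α)‖ ≤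
      (Vz z)⁻¹ * ∑ d ∈ Icc 1 ((z + 1) ^ r), KK (2 * N / d) (d * α) := by
  set χ : Finset ℕ → ℕ → ℝ := fun S n => if ∏ p ∈ S, p ∣ n then (1 : ℝ) else 0 with hχ
  have hV0 : 0 < (Vz z)⁻¹ := inv_pos.2 (Vz_pos z)
  have h4 : ∑ n ∈ Icc 1 N, ((lamR z r n : ℝ) : ℂ) * ee ((n : ℝ) * α) =
      (((Vz z)⁻¹ : ℝ) : ℂ) * ∑ j ∈ range r, (-1 : ℂ) ^ j * ∑ S ∈ (pz z).powersetCard j,
        ∑ n ∈ Icc 1 N, ((χ S n : ℝ) : ℂ) * ee ((n : ℝ) * α) := by
    unfold lamR
    push_cast
    simp only [sum_mul, mul_sum]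
    rw [sum_comm]
    apply sum_congr rfl
    intro j _
    rw [sum_comm]
    apply sum_congr rfl
    intro S _
    apply sum_congr rfl
    intro n _
    rw [hχ]
    simp only
    ring
  rw [h4, norm_mul, Complex.norm_real, Real.norm_of_nonneg hV0.le]
  apply mul_le_mul_of_nonneg_left _ hV0.le
  refine (norm_sum_le _ _).trans ?_
  have h5 : ∀ j ∈ range r, ‖(-1 : ℂ) ^ j * ∑ S ∈ (pz z).powersetCard j,
        ∑ n ∈ Icc 1 N, ((χ S n : ℝ) : ℂ) * ee ((n : ℝ) * α)‖ ≤
      ∑ S ∈ (pz z).powersetCard j, KK (2 * N / ((∏ p ∈ S, p : ℕ) : ℝ)) (((∏ p ∈ S, p : ℕ) : ℝ) * α) := by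
    intro j _
    rw [norm_mul, norm_pow, norm_neg, norm_one, one_pow, one_mul]
    refine (norm_sum_le _ _).trans (sum_le_sum fun S hS => ?_)
    set d := ∏ p ∈ S, p with hd
    have hd1 : 1 ≤ d := pzc_pos hS
    have hd0 : (0 : ℝ) < d := by exact_mod_cast hd1
    have h6 : ∑ n ∈ Icc 1 N, ((χ S n : ℝ) : ℂ) * ee ((n : ℝ) * α) =
        ∑ n ∈ (Icc 1 N).filter (fun n => d ∣ n), ee ((n : ℝ) * α) := by
      rw [sum_filter]
      apply sum_congr rfl
      intro n _
      rw [hχ]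
      simp only
      rw [← hd]
      split_ifs <;> simp
    rw [h6, sum_mult N d hd1]
    have h7 : ∀ m ∈ Icc 1 (N / d), ee (((d * m : ℕ) : ℝ) * α) = ee ((m : ℝ) * (d * α)) := by
      intro m _; congr 1; push_cast; ring
    rw [sum_congr rfl h7]
    have h8 : Icc 1 (N / d) = Ico 1 (N / d + 1) := by ext x; rw [mem_Icc, mem_Ico]; omega
    rw [h8]
    apply geo_bound _ _ (Nat.le_add_left 1 _)
    push_cast
    have h9 : ((N / d : ℕ) : ℝ) ≤ N / d := Nat.cast_div_le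
    have h10 : 0 ≤ (N : ℝ) / d := by positivity
    have h11 : 2 * (N : ℝ) / d = 2 * (N / d) := by ring
    rw [h11]
    linarith
  refine (sum_le_sum h5).trans ?_
  have h6 := sum_small_le z r (fun d => KK (2 * N / (d : ℝ)) ((d : ℝ) * α)) (fun d => KK_nonneg (by positivity) _)
  rw [sum_range_succ] at h6
  have h7 : 0 ≤ ∑ S ∈ (pz z).powersetCard r, KK (2 * N / ((∏ p ∈ S, p : ℕ) : ℝ)) (((∏ p ∈ S, p : ℕ) : ℝ) * α) :=
    sum_nonneg fun S _ => KK_nonneg (by positivity) _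
  linarith

/-- the number of `r`-element sets of small primes dividing `n` -/
noncomputable def cR (z r n : ℕ) : ℝ := ∑ S ∈ (pz z).powersetCard r, (if ∏ p ∈ S, p ∣ n then (1 : ℝ) else 0)

lemma lam_sub (z r n : ℕ) : |lamz z n - lamR z r n| ≤ (Vz z)⁻¹ * cR z r n := by
  have hV0 : 0 < (Vz z)⁻¹ := inv_pos.2 (Vz_pos z)
  have h1 : lamz z n = (Vz z)⁻¹ * (if ∀ p ∈ pz z, ¬ p ∣ n then (1 : ℝ) else 0) := by
    unfold lamz
    split_ifs <;> simp
  unfold lamR cR
  rw [h1, ← mul_sub, abs_mul, abs_of_pos hV0]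
  apply mul_le_mul_of_nonneg_left _ hV0.le
  have h2 := bonf_ind (fun p n => p ∣ n) (pz z) r n
  have h3 : ∀ j, ∀ S ∈ (pz z).powersetCard j, (if ∀ p ∈ S, p ∣ n then (1 : ℝ) else 0) =
      if ∏ p ∈ S, p ∣ n then (1 : ℝ) else 0 := by
    intro j S hS
    simp only [prod_dvd_iff S (pzc_prime hS)]
  have h4 : ∑ S ∈ (pz z).powersetCard r, (if ∀ p ∈ S, p ∣ n then (1 : ℝ) else 0) =
      ∑ S ∈ (pz z).powersetCard r, (if ∏ p ∈ S, p ∣ n then (1 : ℝ) else 0) := sum_congr rfl (h3 r)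
  have h5 : ∑ j ∈ range r, (-1 : ℝ) ^ j * ∑ S ∈ (pz z).powersetCard j, (if ∀ p ∈ S, p ∣ n then (1 : ℝ) else 0) =
      ∑ j ∈ range r, (-1 : ℝ) ^ j * ∑ S ∈ (pz z).powersetCard j, (if ∏ p ∈ S, p ∣ n then (1 : ℝ) else 0) := by
    apply sum_congr rfl
    intro j _
    rw [sum_congr rfl (h3 j)]
  rw [← h4, ← h5]
  convert h2 <;> rfl

lemma sum_cR_sq (z r N : ℕ) : ∑ n ∈ Icc 1 N, cR z r n ^ 2 ≤ N * Real.exp (7 * (1 + Real.log z) - r) := by
  classical
  have hN0 : (0 : ℝ) ≤ N := Nat.cast_nonneg _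
  have hx : ∀ p : ℕ, (0 : ℝ) ≤ 1 / (p : ℝ) := fun p => by positivity
  have h1 : ∀ n, cR z r n ^ 2 = ∑ S ∈ (pz z).powersetCard r, ∑ S' ∈ (pz z).powersetCard r,
      (if ∏ p ∈ S ∪ S', p ∣ n then (1 : ℝ) else 0) := by
    intro n
    unfold cR
    rw [sq, sum_mul_sum]
    apply sum_congr rfl
    intro S hS
    apply sum_congr rfl
    intro S' hS'
    have e1 : (∏ p ∈ S ∪ S', p ∣ n) ↔ (∏ p ∈ S, p ∣ n) ∧ (∏ p ∈ S', p ∣ n) := by
      rw [← prod_dvd_iff (S ∪ S') (fun p hp => by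
        rcases mem_union.1 hp with h | h
        · exact pzc_prime hS p h
        · exact pzc_prime hS' p h), ← prod_dvd_iff S (pzc_prime hS), ← prod_dvd_iff S' (pzc_prime hS')]
      constructor
      · intro h
        exact ⟨fun p hp => h p (mem_union_left _ hp), fun p hp => h p (mem_union_right _ hp)⟩
      · rintro ⟨h, h'⟩ p hp
        rcases mem_union.1 hp with h2 | h2
        · exact h p h2
        · exact h' p h2
    by_cases ha : ∏ p ∈ S, p ∣ n
    · by_cases hb : ∏ p ∈ S', p ∣ n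
      · rw [if_pos ha, if_pos hb, if_pos (e1.2 ⟨ha, hb⟩), one_mul]
      · rw [if_pos ha, if_neg hb, if_neg (fun h => hb (e1.1 h).2), mul_zero]
    · rw [if_neg ha, if_neg (fun h => ha (e1.1 h).1), zero_mul]
  simp only [h1]
  rw [sum_comm]
  have h2 : ∀ S ∈ (pz z).powersetCard r, ∑ n ∈ Icc 1 N, ∑ S' ∈ (pz z).powersetCard r,
      (if ∏ p ∈ S ∪ S', p ∣ n then (1 : ℝ) else 0) ≤
      N * ((∏ p ∈ S, (2 * (1 / (p : ℝ)))) * Real.exp (1 + Real.log z)) := by
    intro S hS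
    rw [sum_comm]
    have h3 : ∀ S' ∈ (pz z).powersetCard r, ∑ n ∈ Icc 1 N, (if ∏ p ∈ S ∪ S', p ∣ n then (1 : ℝ) else 0) ≤
        N * ((∏ p ∈ S, (1 / (p : ℝ))) * ∏ p ∈ S', (if p ∈ S then (1 : ℝ) else 1 / (p : ℝ))) := by
      intro S' hS'
      have h5 : ∑ n ∈ Icc 1 N, (if ∏ p ∈ S ∪ S', p ∣ n then (1 : ℝ) else 0) =
          (((Icc 1 N).filter (fun n => ∏ p ∈ S ∪ S', p ∣ n)).card : ℝ) := by
        rw [card_eq_sum_ones]
        push_cast
        rw [sum_filter]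
      rw [h5]
      have h6 : ((Icc 1 N).filter (fun n => ∏ p ∈ S ∪ S', p ∣ n)).card = N / ∏ p ∈ S ∪ S', p := by
        rw [← Nat.Ioc_filter_dvd_card_eq_div N (∏ p ∈ S ∪ S', p)]
        congr 1
      rw [h6]
      refine Nat.cast_div_le.trans (le_of_eq ?_)
      have h7 : S ∪ S' = S ∪ (S' \ S) := by rw [union_sdiff_self_eq_union]
      have h8 : ∏ p ∈ S', (if p ∈ S then (1 : ℝ) else 1 / (p : ℝ)) = ∏ p ∈ S' \ S, (1 / (p : ℝ)) := by
        rw [← prod_sdiff (inter_subset_left : S' ∩ S ⊆ S')]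
        have h9 : ∏ p ∈ S' ∩ S, (if p ∈ S then (1 : ℝ) else 1 / (p : ℝ)) = 1 := by
          apply prod_eq_one
          intro p hp
          rw [if_pos (mem_inter.1 hp).2]
        rw [h9, mul_one]
        have h10 : S' \ (S' ∩ S) = S' \ S := by
          ext p
          simp only [mem_sdiff, mem_inter, not_and]
          tauto
        rw [h10]
        apply prod_congr rfl
        intro p hp
        rw [if_neg (mem_sdiff.1 hp).2]
      rw [h8, h7, ← prod_union disjoint_sdiff, prod_div_distrib, prod_const_one]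
      push_cast
      rw [mul_one_div]
    refine (sum_le_sum h3).trans ?_
    rw [← mul_sum, ← mul_sum]
    apply mul_le_mul_of_nonneg_left _ hN0
    have h4 : ∑ S' ∈ (pz z).powersetCard r, ∏ p ∈ S', (if p ∈ S then (1 : ℝ) else 1 / (p : ℝ)) ≤
        2 ^ r * Real.exp (1 + Real.log z) := by
      have h5 : ∑ S' ∈ (pz z).powersetCard r, ∏ p ∈ S', (if p ∈ S then (1 : ℝ) else 1 / (p : ℝ)) ≤
          ∑ S' ∈ (pz z).powerset, ∏ p ∈ S', (if p ∈ S then (1 : ℝ) else 1 / (p : ℝ)) := by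
        apply sum_le_sum_of_subset_of_nonneg
        · intro S' hS'
          rw [mem_powerset]
          exact (mem_powersetCard.1 hS').1
        · intro S' _ _
          apply prod_nonneg
          intro p _
          split_ifs
          · exact zero_le_one
          · exact hx p
      refine h5.trans ?_
      rw [← prod_one_add]
      have hSz : S ⊆ pz z := (mem_powersetCard.1 hS).1
      rw [← prod_sdiff hSz]
      have h6 : ∏ p ∈ S, (1 + (if p ∈ S then (1 : ℝ) else 1 / (p : ℝ))) = 2 ^ r := by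
        rw [← (mem_powersetCard.1 hS).2, ← prod_const]
        apply prod_congr rfl
        intro p hp
        rw [if_pos hp]; norm_num
      have h7 : ∏ p ∈ pz z \ S, (1 + (if p ∈ S then (1 : ℝ) else 1 / (p : ℝ))) ≤ Real.exp (1 + Real.log z) := by
        calc ∏ p ∈ pz z \ S, (1 + (if p ∈ S then (1 : ℝ) else 1 / (p : ℝ))) ≤ ∏ p ∈ pz z \ S, Real.exp (1 / (p : ℝ)) := by
              apply prod_le_prod
              · intro p _
                split_ifs
                · norm_num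
                · have := hx p; linarith
              · intro p hp
                rw [if_neg (mem_sdiff.1 hp).2]
                have := Real.add_one_le_exp (1 / (p : ℝ))
                linarith
          _ = Real.exp (∑ p ∈ pz z \ S, 1 / (p : ℝ)) := by rw [Real.exp_sum]
          _ ≤ Real.exp (1 + Real.log z) := by
              apply Real.exp_le_exp.2
              refine le_trans ?_ (sum_pz_le z)
              exact sum_le_sum_of_subset_of_nonneg sdiff_subset (fun _ _ _ => hx _)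
      rw [h6, mul_comm]
      exact mul_le_mul_of_nonneg_left h7 (by positivity)
    have h5 : 0 ≤ ∏ p ∈ S, (1 / (p : ℝ)) := prod_nonneg fun p _ => hx p
    calc (∏ p ∈ S, (1 / (p : ℝ))) * ∑ S' ∈ (pz z).powersetCard r, ∏ p ∈ S', (if p ∈ S then (1 : ℝ) else 1 / (p : ℝ))
        ≤ (∏ p ∈ S, (1 / (p : ℝ))) * (2 ^ r * Real.exp (1 + Real.log z)) := mul_le_mul_of_nonneg_left h4 h5
      _ = _ := by
          rw [prod_mul_distrib, prod_const, (mem_powersetCard.1 hS).2]
          ring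
  refine (sum_le_sum h2).trans ?_
  rw [← mul_sum, ← sum_mul]
  apply mul_le_mul_of_nonneg_left _ hN0
  have h3 := es_le (x := fun p => 2 * (1 / (p : ℝ))) (T := pz z) (fun p _ => by positivity) r
  unfold es at h3
  have h4 : Real.exp (3 * ∑ p ∈ pz z, 2 * (1 / (p : ℝ)) - r) ≤ Real.exp (6 * (1 + Real.log z) - r) := by
    apply Real.exp_le_exp.2
    rw [← mul_sum]
    have := sum_pz_le z
    linarith
  calc (∑ S ∈ (pz z).powersetCard r, ∏ p ∈ S, (2 * (1 / (p : ℝ)))) * Real.exp (1 + Real.log z)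
      ≤ Real.exp (6 * (1 + Real.log z) - r) * Real.exp (1 + Real.log z) :=
        mul_le_mul_of_nonneg_right (h3.trans h4) (Real.exp_pos _).le
    _ = _ := by rw [← Real.exp_add]; congr 1; ring

/-- everything about the truncated model -/
theorem model (E U : ℕ) : ∃ N0 : ℕ, ∀ N : ℕ, N0 ≤ N → ∀ z : ℕ, 1 ≤ z → (z : ℝ) ≤ Real.log N ^ E →
    ∃ r : ℕ, ∑ n ∈ Icc 1 N, (lamz z n - lamR z r n) ^ 2 ≤ N / Real.log N ^ U ∧
      ∀ V q : ℕ, 1 ≤ V → (V * V) * (V * V) ≤ N → 1 ≤ q → q ≤ N →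
      ∀ c : ℤ, IsCoprime c (q : ℤ) → ∀ α : ℝ, |α - c / q| ≤ 1 / (q : ℝ) ^ 2 →
      ‖∑ n ∈ Icc 1 N, ((ArithmeticFunction.vonMangoldt n - lamR z r n : ℝ) : ℂ) * ee ((n : ℝ) * α)‖ ≤
        200000 * Real.log N ^ 7 * (N * √(1 / (q : ℝ) + 1 / V + q / N)) := by
  obtain ⟨N0, h0⟩ := choice 3 E (U + 2) 4
  obtain ⟨N1, h1⟩ := minor_quant
  obtain ⟨n2, h2⟩ := ev_L' 10
  obtain ⟨n3, h3⟩ := Vz_inv_small E
  refine ⟨max (max N0 N1) (max n2 (max n3 16)), fun N hN z hz hzE => ?_⟩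
  have a0 := h0 N (by omega) z hzE
  have a1 := h1 N (by omega)
  have hL := h2 N (by omega)
  have hV := h3 N (by omega) z hz hzE
  have hN16 : 16 ≤ N := by omega
  have hNr : (16 : ℝ) ≤ N := by exact_mod_cast hN16
  have hN0 : (0 : ℝ) < N := by linarith
  set L := Real.log N with hLd
  have hL0 : 0 < L := by linarith
  obtain ⟨r, hr1, hr2, _⟩ := a0
  have hVz0 : 0 < (Vz z)⁻¹ := inv_pos.2 (Vz_pos z)
  refine ⟨r, ?_, ?_⟩
  · have b1 : ∀ n ∈ Icc 1 N, (lamz z n - lamR z r n) ^ 2 ≤ L ^ 2 * cR z r n ^ 2 := by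
      intro n _
      have c1 := lam_sub z r n
      have c2 : 0 ≤ cR z r n := sum_nonneg fun _ _ => by split_ifs <;> norm_num
      have c3 : |lamz z n - lamR z r n| ≤ L * cR z r n := c1.trans (mul_le_mul_of_nonneg_right hV c2)
      calc (lamz z n - lamR z r n) ^ 2 = |lamz z n - lamR z r n| ^ 2 := (sq_abs _).symm
        _ ≤ (L * cR z r n) ^ 2 := pow_le_pow_left₀ (abs_nonneg _) c3 2
        _ = _ := by ring
    refine (sum_le_sum b1).trans ?_
    rw [← mul_sum]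
    have b2 := sum_cR_sq z r N
    have b3 : Real.exp (7 * (1 + Real.log z) - r) ≤ 1 / L ^ (U + 2) := by
      refine le_trans ?_ hr1
      apply Real.exp_le_exp.2
      have : 0 ≤ Real.log z := Real.log_natCast_nonneg z
      push_cast
      linarith
    calc L ^ 2 * ∑ n ∈ Icc 1 N, cR z r n ^ 2 ≤ L ^ 2 * (N * (1 / L ^ (U + 2))) := by
          apply mul_le_mul_of_nonneg_left _ (by positivity)
          exact b2.trans (mul_le_mul_of_nonneg_left b3 hN0.le)
      _ = N / L ^ U := by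
          rw [pow_add]; field_simp
  · intro V q hVn hV4 hqn hqN c hcop α hα
    have key := a1 V q hVn hV4 hqn hqN c hcop α hα
    set D := (z + 1) ^ r with hD
    have hD1 : 1 ≤ D := Nat.one_le_pow _ _ (by omega)
    have hD4 : (D : ℝ) ^ 4 ≤ N := by
      rw [hD]; push_cast; exact hr2
    have hqr : (1 : ℝ) ≤ q := by exact_mod_cast hqn
    have hq0 : (0 : ℝ) < q := by linarith
    have hqNr : (q : ℝ) ≤ N := by exact_mod_cast hqN
    have hVr : (1 : ℝ) ≤ V := by exact_mod_cast hVn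
    have hVpos : (0 : ℝ) < V := by linarith
    have hDr : (1 : ℝ) ≤ D := by exact_mod_cast hD1
    have hlq : Real.log q ≤ L := Real.log_le_log hq0 hqNr
    have hlq0 : 0 ≤ Real.log q := Real.log_nonneg hqr
    set δ : ℝ := 1 / (q : ℝ) + 1 / V + q / N with hδ
    set d : ℝ := √δ with hd
    have hδ0 : 0 ≤ δ := by positivity
    have hd0 : 0 ≤ d := Real.sqrt_nonneg _
    have hδd : δ = d * d := (Real.mul_self_sqrt hδ0).symm
    have hδ3 : δ ≤ 3 := by
      have a1 : 1 / (q : ℝ) ≤ 1 := by rw [div_le_one hq0]; exact hqr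
      have a2 : 1 / (V : ℝ) ≤ 1 := by rw [div_le_one hVpos]; exact hVr
      have a3 : (q : ℝ) / N ≤ 1 := by rw [div_le_one hN0]; exact hqNr
      linarith
    have hd2 : d ≤ 2 := by
      rw [hd, Real.sqrt_le_left (by norm_num)]
      linarith
    have hδ2 : δ ≤ 2 * d := by
      rw [hδd]
      exact mul_le_mul_of_nonneg_right hd2 hd0
    have hNδ : (N : ℝ) * δ = N / q + N / V + q := by
      rw [hδ]; field_simp
    have hDV : (D : ℝ) ≤ N / V := by
      rw [le_div_iff₀ hVpos]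
      have e1 : ((V : ℝ) * V) * (V * V) ≤ N := by exact_mod_cast hV4
      have e2 : ((D : ℝ) * V) ^ 4 ≤ (N : ℝ) ^ 4 := by
        calc ((D : ℝ) * V) ^ 4 = D ^ 4 * (((V : ℝ) * V) * (V * V)) := by ring
          _ ≤ (N : ℝ) * (N : ℝ) := mul_le_mul hD4 e1 (by positivity) hN0.le
          _ = (N : ℝ) ^ 2 := by ring
          _ ≤ (N : ℝ) ^ 4 := pow_le_pow_right₀ (by linarith) (by norm_num)
      exact le_of_pow_le_pow_left₀ (by norm_num) hN0.le e2
    have htI := typeI_lin hqn hcop hα N D (by omega) hD1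
    have hR := lamR_exp z r N α
    rw [← hD] at hR
    have hlog2 : (Nat.log 2 D + 1 : ℝ) ≤ 2 * L := by
      have h4 : (2 : ℝ) ^ Nat.log 2 D ≤ D := by exact_mod_cast Nat.pow_log_le_self 2 (by omega : D ≠ 0)
      have h5 : (D : ℝ) ≤ N := hDV.trans (div_le_self hN0.le hVr)
      have h6 := Real.log_le_log (by positivity) (h4.trans h5)
      rw [Real.log_pow] at h6
      have := Real.log_two_gt_d9
      have h7 : (0 : ℝ) ≤ Nat.log 2 D := Nat.cast_nonneg _
      rw [← hLd] at h6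
      nlinarith
    have hR2 : ‖∑ n ∈ Icc 1 N, ((lamR z r n : ℝ) : ℂ) * ee ((n : ℝ) * α)‖ ≤ 100000 * L ^ 7 * (N * d) := by
      refine hR.trans ?_
      calc (Vz z)⁻¹ * ∑ d ∈ Icc 1 D, KK (2 * N / d) (d * α) ≤
          L * (600 * (2 * L) * (N / q + N / V + q) * (2 * L)) := by
            apply mul_le_mul hV _ (sum_nonneg fun _ _ => KK_nonneg (by positivity) _) hL0.le
            refine htI.trans ?_
            gcongr
            linarith
        _ = 2400 * (L ^ 3 * (N * δ)) := by rw [hNδ]; ring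
        _ ≤ 2400 * (L ^ 7 * (N * (2 * d))) := by
            have : L ^ 3 ≤ L ^ 7 := pow_le_pow_right₀ (by linarith) (by norm_num)
            gcongr
        _ = 4800 * (L ^ 7 * (N * d)) := by ring
        _ ≤ 100000 * L ^ 7 * (N * d) := by
            have : 0 ≤ L ^ 7 * (N * d) := by positivity
            linarith
    have e : ∑ n ∈ Icc 1 N, ((ArithmeticFunction.vonMangoldt n - lamR z r n : ℝ) : ℂ) * ee ((n : ℝ) * α) =
        ∑ n ∈ Icc 1 N, ((ArithmeticFunction.vonMangoldt n : ℝ) : ℂ) * ee ((n : ℝ) * α) -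
        ∑ n ∈ Icc 1 N, ((lamR z r n : ℝ) : ℂ) * ee ((n : ℝ) * α) := by
      rw [← sum_sub_distrib]
      apply sum_congr rfl
      intro n _
      push_cast
      ring
    rw [e]
    refine (norm_sub_le _ _).trans ?_
    linarith

end Pool.Agent.W93.DG
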