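import Pool.Agent.W93.TD3

set_option autoImplicit false

/-! Goldbach pairs in windows: the mean value over random digits. -/

namespace Pool.Agent.W93.PG
open Finset
open Pool.Agent.H807R2.Dav
open Pool.Agent.H373R2.T7
open Pool.Agent.W93.DG
open Pool.Agent.W93.RD
open Pool.Agent.W93.TD (td_var EE_corr cs_w)

/-- the reflected sum -/
lemma reflect (G : ℕ → ℝ) (z N : ℕ) (m : ℤ) :
    ∑ a ∈ Icc 1 N, G (N + 1 - a) * (lamI ((a : ℤ) + (m - ((N : ℤ) + 1))) - lamzI z ((a : ℤ) + (m - ((N : ℤ) + 1)))) =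
    ∑ j ∈ Icc 1 N, G j * (lamI (m - j) - lamzI z (m - j)) := by
  apply sum_bij (fun a _ => N + 1 - a)
  · intro a ha
    rw [mem_Icc] at ha ⊢
    omega
  · intro a ha b hb h
    rw [mem_Icc] at ha hb
    omega
  · intro b hb
    rw [mem_Icc] at hb
    exact ⟨N + 1 - b, by rw [mem_Icc]; omega, by omega⟩
  · intro a ha
    rw [mem_Icc] at ha
    have e : ((N + 1 - a : ℕ) : ℤ) = (N : ℤ) + 1 - a := by
      rw [Nat.cast_sub (by omega)]; push_cast; ring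
    rw [e]
    have e2 : m - ((N : ℤ) + 1 - a) = (a : ℤ) + (m - ((N : ℤ) + 1)) := by ring
    rw [e2]

/-- Goldbach sums with one arbitrary function, a random total -/
theorem pg_one (b H e : ℕ) (hb : 2 ≤ b) (η : ℝ) (hη : 0 < η) (hη1 : η ≤ 1) (U : ℕ) : ∃ B : ℕ, ∀ Ez : ℕ, ∃ k₀ : ℕ, ∀ k : ℕ, k₀ ≤ k →
    ∀ z : ℕ, Real.log ((b ^ (k + e) : ℕ) : ℝ) ^ B ≤ z → (z : ℝ) ≤ Real.log ((b ^ (k + e) : ℕ) : ℝ) ^ Ez →
    ∀ w : ℕ → ℕ → ℝ, (∀ j < k, ∀ a, 0 ≤ w j a) → (∀ j < k, ∀ a, w j a ≤ 1 - η) → (∀ j < k, ∑ a ∈ range H, w j a = 1) →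
    ∀ N : ℕ, ∀ c : ℤ, (N : ℤ) + |c| + H * (b : ℤ) ^ k + 1 < (b : ℤ) ^ (k + e) →
    ∀ K : ℝ, 0 < K → ∀ G : ℕ → ℝ, (∀ n ∈ Icc 1 N, |G n| ≤ K) →
    ∑ d ∈ Str H k, pw w d * |∑ j ∈ Icc 1 N, G j * (lamI (c + (val b d : ℤ) - j) - lamzI z (c + (val b d : ℤ) - j))| ≤
      K * (((b ^ (k + e) : ℕ) : ℝ) / (k : ℝ) ^ U) := by
  classical
  obtain ⟨B, hB⟩ := td_var b H e hb η hη hη1 (2 * U)
  refine ⟨B, fun Ez => ?_⟩
  obtain ⟨k₀, h0⟩ := hB Ez
  refine ⟨k₀ + 1, fun k hk z hz1 hz2 w hw0 hw1 hsum N c hN K hK G hG => ?_⟩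
  obtain ⟨f, hf⟩ : ∃ f : ℕ → ℝ, f = fun n => if 1 ≤ n ∧ n ≤ N then G (N + 1 - n) else 0 := ⟨_, rfl⟩
  have hf0 : ∀ n, N < n → f n = 0 := by
    intro n hn
    rw [hf]
    simp only
    rw [if_neg (by omega)]
  have hf1 : ∀ n, 1 ≤ n → n ≤ N → f n = G (N + 1 - n) := by
    intro n hn1 hn
    rw [hf]
    simp only
    rw [if_pos ⟨hn1, hn⟩]
  obtain ⟨c', hc'⟩ : ∃ c' : ℤ, c' = c - ((N : ℤ) + 1) := ⟨_, rfl⟩
  have h1 := h0 k (by omega) z hz1 hz2 w hw0 hw1 hsum c' N f K hK.le (by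
    intro n hn
    rw [mem_Icc] at hn
    rw [hf1 n hn.1 hn.2]
    exact hG _ (mem_Icc.2 (by omega))) hf0
  have hbn : 0 < b := by omega
  have hX1 : 1 ≤ b ^ (k + e) := Nat.pow_pos hbn
  have hM0 : (0 : ℝ) < ((b ^ (k + e + 1) : ℕ) : ℝ) := by exact_mod_cast Nat.pow_pos hbn
  have hX0 : (0 : ℝ) < ((b ^ (k + e) : ℕ) : ℝ) := by exact_mod_cast hX1
  have hk0 : (0 : ℝ) < k := by exact_mod_cast (by omega : 0 < k)
  have hbe : ((b ^ (k + e) : ℕ) : ℤ) = (b : ℤ) ^ (k + e) := by push_cast; ring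
  have hHb : ((H * b ^ k : ℕ) : ℤ) = H * (b : ℤ) ^ k := by push_cast; ring
  have hca := abs_nonneg c
  have hc1 := le_abs_self c
  have hc2 := neg_abs_le c
  have hNX : N ≤ b ^ (k + e) := by
    have : (N : ℤ) ≤ ((b ^ (k + e) : ℕ) : ℤ) := by
      rw [hbe]
      have : (0 : ℤ) ≤ ((H * b ^ k : ℕ) : ℤ) := Int.natCast_nonneg _
      rw [hHb] at this
      linarith
    exact_mod_cast this
  apply cs_w (Str H k) (pw w) _ (fun d _ => pw_nonneg (H := H) w hw0 d) _ _ (by positivity)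
  · obtain ⟨T, hT⟩ : ∃ T : (Fin k → ℕ) → ℝ, T = fun d => ∑ j ∈ Icc 1 N, G j *
        (lamI (c + (val b d : ℤ) - j) - lamzI z (c + (val b d : ℤ) - j)) := ⟨_, rfl⟩
    have h2 : ∀ d ∈ Str H k, pw w d * ‖EE (fun r => (starRingEnd ℂ) (FF f (b ^ (k + e)) (b ^ (k + e + 1)) r) *
        FF (fun n => ArithmeticFunction.vonMangoldt n - lamz z n) (b ^ (k + e)) (b ^ (k + e + 1)) r) (b ^ (k + e + 1)) (c' + val b d)‖ ^ 2 =
        ((b ^ (k + e + 1) : ℕ) : ℝ) ^ 2 * (pw w d * T d ^ 2) := by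
      intro d hd
      have hv := val_le b H k hb d hd
      have hvz : (val b d : ℤ) ≤ H * (b : ℤ) ^ k := by
        rw [← hHb]
        exact_mod_cast hv
      have hv0 : (0 : ℤ) ≤ (val b d : ℤ) := Int.natCast_nonneg _
      have hMX : 2 * b ^ (k + e) ≤ b ^ (k + e + 1) := by
        rw [pow_succ, mul_comm]
        exact Nat.mul_le_mul_left _ hb
      have hN0 : (0 : ℤ) ≤ N := Int.natCast_nonneg _
      have h3 := EE_corr f (fun n => ArithmeticFunction.vonMangoldt n - lamz z n) (b ^ (k + e)) (b ^ (k + e + 1)) N hX1 hMX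
        hNX hf0 (c' + (val b d : ℤ)) (by rw [hbe, hc']; linarith) (by
          rw [hbe, hc']
          linarith)
      rw [h3, Complex.norm_real, Real.norm_eq_abs, sq_abs]
      have h4 : ∑ n ∈ Icc 1 N, f n * (if 1 ≤ (n : ℤ) + (c' + (val b d : ℤ)) then
          (fun n => ArithmeticFunction.vonMangoldt n - lamz z n) ((n : ℤ) + (c' + (val b d : ℤ))).toNat else 0) = T d := by
        rw [hT]
        simp only
        rw [← reflect G z N (c + (val b d : ℤ))]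
        apply sum_congr rfl
        intro n hn
        rw [mem_Icc] at hn
        rw [hf1 n hn.1 hn.2]
        have e1 : (n : ℤ) + (c' + (val b d : ℤ)) = (n : ℤ) + (c + (val b d : ℤ) - ((N : ℤ) + 1)) := by rw [hc']; ring
        rw [e1]
        unfold lamI lamzI
        by_cases h7 : 1 ≤ (n : ℤ) + (c + (val b d : ℤ) - ((N : ℤ) + 1))
        · rw [if_pos h7, if_pos h7, if_pos h7]
        · rw [if_neg h7, if_neg h7, if_neg h7, sub_zero]
      rw [h4]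
      ring
    rw [sum_congr rfl h2, ← mul_sum] at h1
    have h5 : ∑ d ∈ Str H k, pw w d * T d ^ 2 ≤ (K * (((b ^ (k + e) : ℕ) : ℝ) / (k : ℝ) ^ U)) ^ 2 := by
      have h6 : ((b ^ (k + e + 1) : ℕ) : ℝ) ^ 2 * ∑ d ∈ Str H k, pw w d * T d ^ 2 ≤
          ((b ^ (k + e + 1) : ℕ) : ℝ) ^ 2 * (K * (((b ^ (k + e) : ℕ) : ℝ) / (k : ℝ) ^ U)) ^ 2 := by
        refine h1.trans (le_of_eq ?_)
        rw [mul_comm 2 U, pow_mul]
        ring
      exact le_of_mul_le_mul_left h6 (by positivity)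
    rw [hT] at h5
    exact h5
  · exact pw_sum H k w hsum

end Pool.Agent.W93.PG
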