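import Pool.Agent.W93.TD3

set_option autoImplicit false

/-! The random part. -/

namespace Pool.Agent.W93.PP
open Finset
open Pool.Agent.H373R2.T7
open Pool.Agent.W93.DG
open Pool.Agent.W93.RD
open Pool.Agent.W93.TD (td_one)

/-- the extended law: `m` more digits, each of them `0` or `1` with probability `1/2` -/
noncomputable def wx (k : ℕ) (w : ℕ → ℕ → ℝ) (j a : ℕ) : ℝ := if j < k then w j a else (if a < 2 then 1 / 2 else 0)

lemma wx_nonneg (k : ℕ) (w : ℕ → ℕ → ℝ) (hw0 : ∀ j < k, ∀ a, 0 ≤ w j a) (j a : ℕ) : 0 ≤ wx k w j a := by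
  unfold wx
  split_ifs with h1 h2
  · exact hw0 j h1 a
  · norm_num
  · norm_num

lemma wx_le (k : ℕ) (w : ℕ → ℕ → ℝ) (η : ℝ) (hw : ∀ j < k, ∀ a, w j a ≤ 1 - η) (j a : ℕ) :
    wx k w j a ≤ 1 - min η (1 / 2) := by
  have h3 : min η (1 / 2) ≤ η := min_le_left _ _
  have h4 : min η (1 / 2) ≤ 1 / 2 := min_le_right _ _
  unfold wx
  split_ifs with h1 h2
  · linarith [hw j h1 a]
  · linarith
  · linarith

lemma wx_sum (k H : ℕ) (hH : 2 ≤ H) (w : ℕ → ℕ → ℝ) (hsum : ∀ j < k, ∑ a ∈ range H, w j a = 1) (j : ℕ) :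
    ∑ a ∈ range H, wx k w j a = 1 := by
  by_cases h1 : j < k
  · rw [← hsum j h1]
    apply sum_congr rfl
    intro a _
    unfold wx
    rw [if_pos h1]
  · have h2 : ∀ a ∈ range H, wx k w j a = if a ∈ range 2 then (1 / 2 : ℝ) else 0 := by
      intro a _
      unfold wx
      rw [if_neg h1]
      simp only [mem_range]
    rw [sum_congr rfl h2, ← sum_filter, filter_mem_eq_inter, sum_const]
    have : range H ∩ range 2 = range 2 := inter_eq_right.2 (range_subset_range.2 hH)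
    rw [this]
    simp

lemma embed (b H k : ℕ) (hH : 2 ≤ H) (w : ℕ → ℕ → ℝ) (hw0 : ∀ j < k, ∀ a, 0 ≤ w j a) (f : ℕ → ℝ) (hf : ∀ n, 0 ≤ f n) (m : ℕ) :
    ∑ d ∈ Str H k, pw w d * f (val b d) ≤ 2 ^ m * ∑ d ∈ Str H (k + m), pw (wx k w) d * f (val b d) := by
  induction m with
  | zero =>
    rw [pow_zero, one_mul]
    apply le_of_eq
    apply sum_congr rfl
    intro d _
    congr 1
    unfold pw
    apply prod_congr rfl
    intro j _
    unfold wx
    rw [if_pos j.2]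
  | succ m ih =>
    refine ih.trans ?_
    rw [show k + (m + 1) = (k + m) + 1 by ring, ex_succ, pow_succ, mul_assoc]
    apply mul_le_mul_of_nonneg_left _ (by positivity)
    have h1 : wx k w (k + m) 0 = 1 / 2 := by
      unfold wx
      rw [if_neg (by omega), if_pos (by omega)]
    have h2 := single_le_sum (f := fun a => wx k w (k + m) a * ∑ d ∈ Str H (k + m), pw (wx k w) d * f (val b d + a * b ^ (k + m)))
      (s := range H) (fun a _ => mul_nonneg (wx_nonneg k w hw0 _ _) (sum_nonneg fun d _ =>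
        mul_nonneg (pw_nonneg (H := H) (wx k w) (fun j _ a => wx_nonneg k w hw0 j a) d) (hf _))) (mem_range.2 (by omega : 0 < H))
    simp only [h1, zero_mul, add_zero] at h2
    linarith

lemma two_le_H (H : ℕ) (η : ℝ) (hη : 0 < η) (v : ℕ → ℝ) (hv : ∀ a, v a ≤ 1 - η) (hs : ∑ a ∈ range H, v a = 1) : 2 ≤ H := by
  by_contra hcon
  have h1 : H = 0 ∨ H = 1 := by omega
  rcases h1 with h1 | h1
  · rw [h1] at hs; simp at hs
  · rw [h1] at hs
    simp at hs
    have := hv 0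
    linarith

set_option maxHeartbeats 1000000 in
theorem pp_rand (b H : ℕ) (hb : 2 ≤ b) (η : ℝ) (hη : 0 < η) (W U : ℕ) : ∃ B0 : ℕ, ∀ Ez : ℕ, ∃ k₀ : ℕ, ∀ k : ℕ, k₀ ≤ k →
    ∀ w : ℕ → ℕ → ℝ, (∀ j < k, ∀ a, 0 ≤ w j a) → (∀ j < k, ∀ a, w j a ≤ 1 - η) → (∀ j < k, ∑ a ∈ range H, w j a = 1) →
    ∀ X : ℕ, b ^ k ≤ X → (X : ℝ) ≤ b ^ k * Real.log X ^ W →
    ∀ z : ℕ, Real.log X ^ B0 ≤ z → (z : ℝ) ≤ Real.log X ^ Ez →
    ∀ y c q a : ℕ, y ≤ X → c ≤ 2 * X →
    ∑ d ∈ Str H k, pw w d * |∑ n ∈ Icc 1 y, (if n ≡ a [MOD q] then ArithmeticFunction.vonMangoldt n else 0) *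
      (lamI ((n : ℤ) + ((c + val b d : ℕ) : ℤ)) - lamzI z ((n : ℤ) + ((c + val b d : ℕ) : ℤ)))| ≤ X / Real.log X ^ U := by
  classical
  obtain ⟨e, he⟩ : ∃ e, e = 3 + H := ⟨_, rfl⟩
  obtain ⟨η', hη'⟩ : ∃ η' : ℝ, η' = min η (1 / 2) := ⟨_, rfl⟩
  have hη'0 : 0 < η' := by rw [hη']; exact lt_min hη (by norm_num)
  have hη'1 : η' ≤ 1 := by rw [hη']; exact (min_le_right _ _).trans (by norm_num)
  obtain ⟨U1, hU1⟩ : ∃ U1, U1 = W + U + 2 := ⟨_, rfl⟩
  obtain ⟨B1, hB1⟩ := td_one b H e hb η' hη'0 hη'1 U1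
  refine ⟨B1 + 1, fun Ez => ?_⟩
  obtain ⟨k1, h1⟩ := hB1 Ez
  obtain ⟨n1, hn1⟩ := ev_L' (2 ^ B1 + (e + 1) * b + 2 * (b : ℝ) ^ (e + 1 + U1) + 1)
  refine ⟨k1 + n1 + 1, fun k hk w hw0 hw1 hsum X hX1 hX2 z hz1 hz2 y c q a hy hc => ?_⟩
  have hH : 2 ≤ H := two_le_H H η hη (w 0) (hw1 0 (by omega)) (hsum 0 (by omega))
  have hb1 : 1 < b := by omega
  have hbn : 0 < b := by omega
  have hkX : k < X := (Nat.lt_pow_self hb1).trans_le hX1
  have hXn : n1 ≤ X := by omega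
  have hL := hn1 X hXn
  obtain ⟨L, hLd⟩ : ∃ L, L = Real.log (X : ℝ) := ⟨_, rfl⟩
  rw [← hLd] at hL hX2 hz1 hz2 ⊢
  have hbr : (2 : ℝ) ≤ b := by exact_mod_cast hb
  have hp1 : (0 : ℝ) < 2 ^ B1 := by positivity
  have hp2 : (0 : ℝ) ≤ (e + 1) * b := by positivity
  have hp3 : (0 : ℝ) < 2 * (b : ℝ) ^ (e + 1 + U1) := by positivity
  have hL1 : 1 ≤ L := by linarith
  have hL0 : 0 < L := by linarith
  have hX0 : (0 : ℝ) < X := by exact_mod_cast (by omega : 0 < X)
  -- the number of digits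
  obtain ⟨K, hK⟩ : ∃ K, K = Nat.clog b X := ⟨_, rfl⟩
  have hK1 : X ≤ b ^ K := by rw [hK]; exact Nat.le_pow_clog hb1 _
  have hK2 : b ^ (K - 1) < X := by
    rw [hK]; exact Nat.pow_pred_clog_lt_self hb1 (by omega)
  have hkK : k ≤ K := by
    by_contra hcon
    have : b ^ K < b ^ k := Nat.pow_lt_pow_right hb1 (by omega)
    omega
  obtain ⟨m, hm⟩ : ∃ m, m = K - k := ⟨_, rfl⟩
  have hKm : K = k + m := by omega
  have hKr : (K : ℝ) * b ≥ L := by
    have h2 : L ≤ K * Real.log b := by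
      rw [hLd, ← Real.log_pow]
      apply Real.log_le_log hX0
      exact_mod_cast hK1
    have h3 : Real.log b ≤ b := (Real.log_le_sub_one_of_pos (by linarith)).trans (by linarith)
    have h4 : (0 : ℝ) ≤ K := Nat.cast_nonneg _
    nlinarith
  have hK0 : (0 : ℝ) < K := by exact_mod_cast (by omega : 0 < K)
  have hpowK : ((b ^ (K + e) : ℕ) : ℝ) ≤ (b : ℝ) ^ (e + 1) * X := by
    push_cast
    have h2 : (b : ℝ) ^ (K - 1) ≤ X := by exact_mod_cast hK2.le
    have h3 : K + e = (e + 1) + (K - 1) := by omega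
    rw [h3, pow_add (b : ℝ) (e + 1) (K - 1)]
    exact mul_le_mul_of_nonneg_left h2 (by positivity)
  have hpowK0 : (X : ℝ) ≤ ((b ^ (K + e) : ℕ) : ℝ) := by
    exact_mod_cast hK1.trans (Nat.pow_le_pow_right hbn (by omega))
  obtain ⟨LK, hLK⟩ : ∃ LK, LK = Real.log ((b ^ (K + e) : ℕ) : ℝ) := ⟨_, rfl⟩
  have hLK1 : L ≤ LK := by rw [hLK, hLd]; exact Real.log_le_log hX0 hpowK0
  have hLK2 : LK ≤ 2 * L := by
    have h2 : LK ≤ (e + 1) * Real.log b + L := by
      rw [hLK, hLd]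
      calc Real.log ((b ^ (K + e) : ℕ) : ℝ) ≤ Real.log ((b : ℝ) ^ (e + 1) * X) := Real.log_le_log (by linarith) hpowK
        _ = _ := by rw [Real.log_mul (by positivity) hX0.ne', Real.log_pow]; push_cast; ring
    have h3 : Real.log b ≤ b := (Real.log_le_sub_one_of_pos (by linarith)).trans (by linarith)
    have h4 : ((e : ℝ) + 1) * Real.log b ≤ (e + 1) * b := mul_le_mul_of_nonneg_left h3 (by positivity)
    linarith
  have h2 := h1 K (by omega) z (by
      rw [← hLK]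
      refine le_trans ?_ hz1
      calc LK ^ B1 ≤ (2 * L) ^ B1 := pow_le_pow_left₀ (by linarith) hLK2 _
        _ = 2 ^ B1 * L ^ B1 := by rw [mul_pow]
        _ ≤ L * L ^ B1 := mul_le_mul_of_nonneg_right (by linarith) (by positivity)
        _ = L ^ (B1 + 1) := by rw [pow_succ]; ring)
    (by
      rw [← hLK]
      exact hz2.trans (pow_le_pow_left₀ hL0.le hLK1 _))
    (wx k w) (fun j _ a => wx_nonneg k w hw0 j a) (fun j _ a => by rw [hη']; exact wx_le k w η hw1 j a)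
    (fun j _ => wx_sum k H hH w hsum j) y c (by
      have h3 : e + 1 ≤ b ^ e := Nat.lt_pow_self hb1
      have h4 : b ^ (K + e) = b ^ e * b ^ K := by rw [pow_add]; ring
      rw [h4]
      calc y + c + H * b ^ K ≤ b ^ K + 2 * b ^ K + H * b ^ K := by omega
        _ = e * b ^ K := by rw [he]; ring
        _ ≤ b ^ e * b ^ K := Nat.mul_le_mul_right _ (by omega))
    L hL0 (fun n => if n ≡ a [MOD q] then ArithmeticFunction.vonMangoldt n else 0) (by
      intro n hn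
      rw [mem_Icc] at hn
      have h3 : ArithmeticFunction.vonMangoldt n ≤ L := by
        refine ArithmeticFunction.vonMangoldt_le_log.trans ?_
        rw [hLd]
        apply Real.log_le_log (by exact_mod_cast (by omega : 0 < n))
        exact_mod_cast hn.2.trans hy
      have h4 : (0 : ℝ) ≤ ArithmeticFunction.vonMangoldt n := ArithmeticFunction.vonMangoldt_nonneg
      split_ifs
      · rw [abs_of_nonneg h4]; exact h3
      · rw [abs_zero]; exact hL0.le)
  have h3 := embed b H k hH w hw0 (fun v => |∑ n ∈ Icc 1 y, (if n ≡ a [MOD q] then ArithmeticFunction.vonMangoldt n else 0) *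
      (lamI ((n : ℤ) + ((c + v : ℕ) : ℤ)) - lamzI z ((n : ℤ) + ((c + v : ℕ) : ℤ)))|) (fun _ => abs_nonneg _) m
  rw [← hKm] at h3
  refine h3.trans ?_
  have h2m : (2 : ℝ) ^ m ≤ 2 * L ^ W := by
    rcases Nat.eq_zero_or_pos m with h4 | h4
    · rw [h4, pow_zero]
      have : 1 ≤ L ^ W := one_le_pow₀ hL1
      linarith
    · have h5 : (b : ℝ) ^ (m - 1) ≤ L ^ W := by
        have h6 : (b : ℝ) ^ k * (b : ℝ) ^ (m - 1) ≤ (b : ℝ) ^ k * L ^ W := by
          rw [← pow_add]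
          refine le_trans ?_ hX2
          have h7 : k + (m - 1) = K - 1 := by omega
          rw [h7]
          exact_mod_cast hK2.le
        exact le_of_mul_le_mul_left h6 (by positivity)
      calc (2 : ℝ) ^ m = 2 * 2 ^ (m - 1) := by
            rw [← pow_succ']
            congr 1
            omega
        _ ≤ 2 * (b : ℝ) ^ (m - 1) := by
            apply mul_le_mul_of_nonneg_left _ (by norm_num)
            exact pow_le_pow_left₀ (by norm_num) hbr _
        _ ≤ _ := by linarith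
  calc (2 : ℝ) ^ m * ∑ d ∈ Str H K, pw (wx k w) d * |∑ n ∈ Icc 1 y, (if n ≡ a [MOD q] then ArithmeticFunction.vonMangoldt n else 0) *
      (lamI ((n : ℤ) + ((c + val b d : ℕ) : ℤ)) - lamzI z ((n : ℤ) + ((c + val b d : ℕ) : ℤ)))|
      ≤ (2 * L ^ W) * (L * (((b ^ (K + e) : ℕ) : ℝ) / (K : ℝ) ^ U1)) := by
        apply mul_le_mul h2m h2 _ (by positivity)
        apply sum_nonneg
        intro d _
        exact mul_nonneg (pw_nonneg (H := H) (wx k w) (fun j _ a => wx_nonneg k w hw0 j a) d) (abs_nonneg _)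
    _ ≤ (2 * L ^ W) * (L * (((b : ℝ) ^ (e + 1) * X) / (L / b) ^ U1)) := by
        have h5 : L / b ≤ K := by rw [div_le_iff₀ (by linarith)]; exact hKr
        have h6 : (L / b) ^ U1 ≤ (K : ℝ) ^ U1 := pow_le_pow_left₀ (by positivity) h5 _
        gcongr
    _ = (2 * (b : ℝ) ^ (e + 1 + U1)) * (X * (L ^ (W + 1) / L ^ U1)) := by
        rw [div_pow, pow_add (b : ℝ) (e + 1) U1, pow_succ L W]
        field_simp
    _ ≤ L * (X * (L ^ (W + 1) / L ^ U1)) := by
        apply mul_le_mul_of_nonneg_right _ (by positivity)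
        linarith
    _ = X / L ^ U := by
        have h5 : L ^ U1 = L ^ (W + 1) * L * L ^ U := by rw [hU1]; ring
        rw [h5]
        field_simp

end Pool.Agent.W93.PP
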