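import Pool.Agent.W93.PP7
import Pool.Agent.W93.PP4

set_option autoImplicit false

/-! The final theorem on prime pairs in progressions. -/

namespace Pool.Agent.W93.PP
open Finset
open Pool.Agent.H373R2.T7
open Pool.Agent.W93.RD (Str pw val pw_nonneg val_le)

lemma markov {Ω ι : Type*} (P : Finset Ω) (I : Finset ι) (p : Ω → ℝ) (hp : ∀ d ∈ P, 0 ≤ p d) (F : Ω → ι → ℝ) (hF : ∀ d i, 0 ≤ F d i)
    (bad : Ω → Prop) [DecidablePred bad] (t m : ℝ) (ht : 0 < t) (hbad : ∀ d ∈ P, bad d → ∃ i ∈ I, t ≤ F d i)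
    (hm : ∀ i ∈ I, ∑ d ∈ P, p d * F d i ≤ m) : ∑ d ∈ P, (if bad d then p d else 0) ≤ I.card * m / t := by
  rw [le_div_iff₀ ht, sum_mul]
  have h1 : ∀ d ∈ P, (if bad d then p d else 0) * t ≤ ∑ i ∈ I, p d * F d i := by
    intro d hd
    have h2 : ∀ i ∈ I, 0 ≤ p d * F d i := fun i _ => mul_nonneg (hp d hd) (hF d i)
    by_cases h3 : bad d
    · rw [if_pos h3]
      obtain ⟨i, hi, h4⟩ := hbad d hd h3
      exact (mul_le_mul_of_nonneg_left h4 (hp d hd)).trans (single_le_sum (f := fun i => p d * F d i) h2 hi)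
    · rw [if_neg h3, zero_mul]
      exact sum_nonneg h2
  refine (sum_le_sum h1).trans ?_
  rw [sum_comm]
  refine (sum_le_sum hm).trans ?_
  rw [sum_const, nsmul_eq_mul]

set_option maxHeartbeats 1000000 in
theorem pp_final (b H A B C U W B0 : ℕ) (hb : 2 ≤ b) (η : ℝ) (hη : 0 < η) : ∃ k₀ : ℕ, ∀ k : ℕ, k₀ ≤ k →
    ∀ w : ℕ → ℕ → ℝ, (∀ j < k, ∀ a, 0 ≤ w j a) → (∀ j < k, ∀ a, w j a ≤ 1 - η) → (∀ j < k, ∑ a ∈ range H, w j a = 1) →
    ∀ X : ℕ, b ^ k ≤ X → (b : ℝ) ^ k * Real.log X ^ (C + 6) ≤ X → (X : ℝ) ≤ b ^ k * Real.log X ^ W → ∀ c : ℕ, c ≤ B0 * b ^ k →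
    ∀ bad : (Fin k → ℕ) → Prop, ∀ _hdec : DecidablePred bad, (∀ d ∈ Str H k, bad d → ¬ GoodD A B C X (c + val b d)) →
    ∑ d ∈ Str H k, (if bad d then pw w d else 0) ≤ 1 / (k : ℝ) ^ U := by
  classical
  obtain ⟨U', hU'⟩ : ∃ U', U' = A + 2 * B + C + 9 + (C + 3) + U + 1 := ⟨_, rfl⟩
  obtain ⟨B1, hB1⟩ := pp_rand b H hb η hη W U'
  obtain ⟨E1, hE1⟩ : ∃ E1, E1 = B1 + (C + 7 + B) := ⟨_, rfl⟩
  obtain ⟨k1, h1⟩ := hB1 (E1 + 1)
  obtain ⟨X1, hdet⟩ := det_good A B C E1 (by omega)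
  obtain ⟨n2, h2⟩ := ev_L' (2 ^ (U + 1) + B0 + H + 3)
  obtain ⟨n3, h3⟩ := ev_log' A 1
  refine ⟨k1 + X1 + n2 + n3 + 3, fun k hk w hw0 hw1 hsum X hX0 hX1 hX2 c hc bad hdec hbad => ?_⟩
  have hb1 : 1 < b := by omega
  have hbr : (2 : ℝ) ≤ b := by exact_mod_cast hb
  have hbk0 : (0 : ℝ) < (b : ℝ) ^ k := by positivity
  have hkX : k < X := (Nat.lt_pow_self hb1).trans_le hX0
  have hXpos : (0 : ℝ) < X := by exact_mod_cast (by omega : 0 < X)
  have hX3 : (3 : ℝ) ≤ X := by exact_mod_cast (by omega : 3 ≤ X)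
  have a2 := h2 X (by omega)
  have a3 := h3 X (by omega)
  obtain ⟨L, hL⟩ : ∃ L, L = Real.log (X : ℝ) := ⟨_, rfl⟩
  rw [← hL] at a2 a3 hX1 hX2
  rw [one_mul] at a3
  have hp : (0 : ℝ) < 2 ^ (U + 1) := by positivity
  have hB00 : (0 : ℝ) ≤ B0 := Nat.cast_nonneg _
  have hH0 : (0 : ℝ) ≤ H := Nat.cast_nonneg _
  have hL3 : 3 ≤ L := by linarith
  have hL1 : 1 ≤ L := by linarith
  have hL0 : 0 < L := by linarith
  have hk0 : (0 : ℝ) < k := by exact_mod_cast (by omega : 0 < k)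
  have hkL : (k : ℝ) / 2 ≤ L := by
    have h5 : (k : ℝ) * Real.log 2 ≤ L := by
      rw [hL, ← Real.log_pow]
      apply Real.log_le_log (by positivity)
      calc (2 : ℝ) ^ k ≤ (b : ℝ) ^ k := pow_le_pow_left₀ (by norm_num) hbr _
        _ ≤ X := by exact_mod_cast hX0
    have h6 := Real.log_two_gt_d9
    nlinarith
  have hfl : ∀ E : ℕ, L ^ E ≤ (⌈L ^ E⌉₊ : ℝ) ∧ (⌈L ^ E⌉₊ : ℝ) ≤ L ^ (E + 1) := by
    intro E
    refine ⟨Nat.le_ceil _, ?_⟩
    have h5 : (⌈L ^ E⌉₊ : ℝ) < L ^ E + 1 := Nat.ceil_lt_add_one (by positivity)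
    have h6 : 1 ≤ L ^ E := one_le_pow₀ hL1
    rw [pow_succ]
    nlinarith
  have hfr : ∀ E : ℕ, ((⌊L ^ E⌋₊ + 1 : ℕ) : ℝ) ≤ L ^ (E + 1) := by
    intro E
    have h5 : (⌊L ^ E⌋₊ : ℝ) ≤ L ^ E := Nat.floor_le (by positivity)
    have h6 : 1 ≤ L ^ E := one_le_pow₀ hL1
    push_cast
    rw [pow_succ]
    nlinarith
  obtain ⟨z, hz⟩ : ∃ z, z = ⌈L ^ E1⌉₊ := ⟨_, rfl⟩
  obtain ⟨T, hT⟩ : ∃ T, T = ⌈L ^ (C + 4)⌉₊ := ⟨_, rfl⟩
  have hz1 : L ^ E1 ≤ z := by rw [hz]; exact (hfl E1).1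
  have hz2 : (z : ℝ) ≤ L ^ (E1 + 1) := by rw [hz]; exact (hfl E1).2
  have hT1 : L ^ (C + 4) ≤ T := by rw [hT]; exact (hfl (C + 4)).1
  have hT2 : (T : ℝ) ≤ L ^ (C + 5) := by rw [hT]; exact (hfl (C + 4)).2
  obtain ⟨I, hI⟩ : ∃ I, I = range (T + 1) ×ˢ range (⌊L ^ A⌋₊ + 1) ×ˢ range (⌊L ^ B⌋₊ + 1) ×ˢ range (⌊L ^ B⌋₊ + 1) := ⟨_, rfl⟩
  have hIcard : (I.card : ℝ) ≤ L ^ (A + 2 * B + C + 9) := by
    rw [hI, card_product, card_product, card_product, card_range, card_range, card_range]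
    push_cast
    have f1 : (T : ℝ) + 1 ≤ L ^ (C + 6) := by
      have h6 : 1 ≤ L ^ (C + 5) := one_le_pow₀ hL1
      rw [show C + 6 = (C + 5) + 1 by ring, pow_succ L (C + 5)]
      nlinarith
    have f2 := hfr A
    have f3 := hfr B
    push_cast at f2 f3
    have g1 : (0 : ℝ) ≤ T := Nat.cast_nonneg _
    have g2 : (0 : ℝ) ≤ (⌊L ^ A⌋₊ : ℝ) := Nat.cast_nonneg _
    have g3 : (0 : ℝ) ≤ (⌊L ^ B⌋₊ : ℝ) := Nat.cast_nonneg _
    calc ((T : ℝ) + 1) * (((⌊L ^ A⌋₊ : ℝ) + 1) * (((⌊L ^ B⌋₊ : ℝ) + 1) * ((⌊L ^ B⌋₊ : ℝ) + 1)))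
        ≤ L ^ (C + 6) * (L ^ (A + 1) * (L ^ (B + 1) * L ^ (B + 1))) := by gcongr
      _ = L ^ (A + 2 * B + C + 9) := by rw [← pow_add, ← pow_add, ← pow_add]; congr 1; ring
  obtain ⟨s, hs⟩ : ∃ s, s = X / T + 1 := ⟨_, rfl⟩
  have hLA : L ^ A ≤ X := by
    have hs0 : 0 < √(X : ℝ) := Real.sqrt_pos.2 hXpos
    have hs1 : 1 ≤ √(X : ℝ) := (one_le_pow₀ hL1).trans a3
    calc L ^ A ≤ √(X : ℝ) := a3
      _ ≤ √(X : ℝ) * √(X : ℝ) := by nlinarith
      _ = X := Real.mul_self_sqrt hXpos.le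
  have hbkX : ((B0 + H : ℕ) : ℝ) * (b : ℝ) ^ k ≤ X / L ^ (C + 5) := by
    rw [le_div_iff₀ (by positivity)]
    push_cast
    calc ((B0 : ℝ) + H) * (b : ℝ) ^ k * L ^ (C + 5) ≤ L * (b : ℝ) ^ k * L ^ (C + 5) := by
          apply mul_le_mul_of_nonneg_right _ (by positivity)
          apply mul_le_mul_of_nonneg_right _ (by positivity)
          linarith
      _ = (b : ℝ) ^ k * L ^ (C + 6) := by ring
      _ ≤ X := hX1
  have key := markov (Str H k) I (fun d => pw w d) (fun d _ => pw_nonneg (H := H) w hw0 d)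
    (fun d i => |∑ n ∈ Icc 1 (min (i.1 * s) X), (if n ≡ i.2.2.2 [MOD i.2.2.1] then ArithmeticFunction.vonMangoldt n else 0) *
        (lamI ((n : ℤ) + ((c + i.2.1 + val b d : ℕ) : ℤ)) - lamzI z ((n : ℤ) + ((c + i.2.1 + val b d : ℕ) : ℤ)))|)
    (fun _ _ => abs_nonneg _) bad (X / L ^ (C + 3)) (X / L ^ U') (by positivity) (by
      intro d hd hb2
      by_contra hcon
      push Not at hcon
      apply hbad d hd hb2
      have hval := val_le b H k hb d hd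
      refine hdet X (by omega) (c + val b d) ?_ z (by rw [← hL]; exact hz1) (by rw [← hL]; exact hz2) T (by rw [← hL]; exact hT1)
        (by rw [← hL]; exact hT2) ?_
      · rw [← hL]
        refine le_trans ?_ hbkX
        have : c + val b d ≤ (B0 + H) * b ^ k := by rw [add_mul]; omega
        exact_mod_cast this
      · intro i hi δ q a hδ hq1 hq2 haq
        rw [← hL] at hδ hq2 ⊢
        have hmem : (i, δ, q, a) ∈ I := by
          rw [hI, mem_product, mem_product, mem_product]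
          have c1 : δ ≤ ⌊L ^ A⌋₊ := Nat.le_floor hδ
          have c2 : q ≤ ⌊L ^ B⌋₊ := Nat.le_floor hq2
          refine ⟨hi, mem_range.2 (by simp only; omega), mem_range.2 (by simp only; omega), mem_range.2 (by simp only; omega)⟩
        have h5 := (hcon (i, δ, q, a) hmem).le
        simp only at h5
        rw [← hs, show c + val b d + δ = c + δ + val b d by ring]
        exact h5)
    (by
      intro i hi
      rw [hI, mem_product, mem_product, mem_product] at hi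
      have hδ : (i.2.1 : ℝ) ≤ L ^ A := by
        have h5 : i.2.1 ≤ ⌊L ^ A⌋₊ := by
          have := mem_range.1 hi.2.1
          omega
        exact (Nat.le_floor_iff (by positivity)).1 h5
      refine h1 k (by omega) w hw0 hw1 hsum X hX0 (by rw [← hL]; exact hX2) z ?_ (by rw [← hL]; exact hz2) (min (i.1 * s) X) (c + i.2.1) i.2.2.1 i.2.2.2
        (min_le_right _ _) ?_ |>.trans (le_of_eq (by rw [← hL]))
      · rw [← hL]
        refine le_trans ?_ hz1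
        exact pow_le_pow_right₀ hL1 (by omega)
      · have h5 : (c : ℝ) ≤ X := by
          have h6 : ((B0 + H : ℕ) : ℝ) * (b : ℝ) ^ k ≤ X := hbkX.trans (div_le_self hXpos.le (one_le_pow₀ hL1))
          have h7 : (c : ℝ) ≤ (B0 : ℝ) * (b : ℝ) ^ k := by exact_mod_cast hc
          push_cast at h6
          nlinarith
        have h6 : (i.2.1 : ℝ) ≤ X := hδ.trans hLA
        have h7 : ((c + i.2.1 : ℕ) : ℝ) ≤ ((2 * X : ℕ) : ℝ) := by push_cast; linarith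
        exact_mod_cast h7)
  refine key.trans ?_
  have hfin : (I.card : ℝ) * (X / L ^ U') / (X / L ^ (C + 3)) ≤ 1 / L ^ (U + 1) := by
    calc (I.card : ℝ) * (X / L ^ U') / (X / L ^ (C + 3)) ≤ L ^ (A + 2 * B + C + 9) * (X / L ^ U') / (X / L ^ (C + 3)) := by
          gcongr
      _ = 1 / L ^ (U + 1) := by
          have e : L ^ U' = L ^ (A + 2 * B + C + 9) * L ^ (C + 3) * L ^ (U + 1) := by rw [hU', ← pow_add, ← pow_add]; congr 1
          rw [e]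
          field_simp
  refine hfin.trans ?_
  apply one_div_le_one_div_of_le (by positivity)
  calc (k : ℝ) ^ U = 2 ^ U * (k / 2) ^ U := by rw [div_pow]; field_simp
    _ ≤ L * L ^ U := by
        apply mul_le_mul _ (pow_le_pow_left₀ (by positivity) hkL _) (by positivity) hL0.le
        have : (2 : ℝ) ^ U ≤ 2 ^ (U + 1) := pow_le_pow_right₀ (by norm_num) (by omega)
        linarith
    _ = L ^ (U + 1) := by rw [pow_succ]; ring

end Pool.Agent.W93.PP
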