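import Pool.Agent.W93.PG2
import Pool.Agent.W93.PP8
import Pool.Agent.W93.RD4

set_option autoImplicit false

/-! Goldbach pairs in windows: random digits. -/

namespace Pool.Agent.W93.PG
open Finset
open Pool.Agent.H373R2.T7
open Pool.Agent.H560R3.GB (sing)
open Pool.Agent.W93.GB (vM_le)
open Pool.Agent.W93.DG
open Pool.Agent.W93.RD (Str pw val pw_nonneg val_le anti')
open Pool.Agent.W93.PP (markov)

/-- the number of Goldbach pairs of `m` in all windows -/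
def GoodG (V X m : ℕ) : Prop :=
  ∀ y : ℕ, y < m → |∑ n ∈ Icc 1 y, ArithmeticFunction.vonMangoldt n * lamI ((m : ℤ) - n) - sing m * y| ≤ X / Real.log X ^ V

/-- small values are rare -/
lemma small_prob (b H e U : ℕ) (hb : 2 ≤ b) (η : ℝ) (hη : 0 < η) (hη1 : η ≤ 1) : ∃ W : ℕ, ∃ k₀ : ℕ, ∀ k : ℕ, k₀ ≤ k →
    ∀ w : ℕ → ℕ → ℝ, (∀ j < k, ∀ a, 0 ≤ w j a) → (∀ j < k, ∀ a, w j a ≤ 1 - η) → (∀ j < k, ∑ a ∈ range H, w j a = 1) →
    ∀ c : ℤ, ∀ bad : (Fin k → ℕ) → Prop, ∀ _hdec : DecidablePred bad,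
    (∀ d ∈ Str H k, bad d → 1 ≤ c + (val b d : ℤ) ∧
      ((c + (val b d : ℤ) : ℤ) : ℝ) < ((b ^ (k + e) : ℕ) : ℝ) / Real.log ((b ^ (k + e) : ℕ) : ℝ) ^ W) →
    ∑ d ∈ Str H k, (if bad d then pw w d else 0) ≤ 1 / (k : ℝ) ^ U := by
  have hbr : (2 : ℝ) ≤ b := by exact_mod_cast hb
  have hb0 : (0 : ℝ) < b := by linarith
  obtain ⟨v, hv⟩ := exists_pow_lt_of_lt_one (show (0 : ℝ) < 1 / b by positivity) (show 1 - η < 1 by linarith)
  obtain ⟨W₁, hW₁⟩ : ∃ W₁, W₁ = (H + 1) * (v * (U + 1)) := ⟨_, rfl⟩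
  obtain ⟨k3, hk3⟩ := exists_nat_ge ((2 : ℝ) ^ (W₁ + 1) * b ^ (e + W₁))
  obtain ⟨k5, h5⟩ := hh_small b (v * (U + 1)) (H + 1) hb
  refine ⟨W₁ + 1, k3 + 2 * k5 + e + 4, fun k hk w hw0 hw1 hsum c bad hdec hbad => ?_⟩
  obtain ⟨K, hK⟩ : ∃ K, K = k + e := ⟨_, rfl⟩
  obtain ⟨X, hX⟩ : ∃ X, X = b ^ K := ⟨_, rfl⟩
  have hKX : K < X := by rw [hX]; exact Nat.lt_pow_self (by omega)
  have hX0 : (0 : ℝ) < X := by exact_mod_cast (by omega : 0 < X)
  obtain ⟨hL1, hL2⟩ := logX b K hb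
  rw [← hX] at hL1 hL2
  rw [← hK, ← hX] at hbad
  obtain ⟨L, hL⟩ : ∃ L, L = Real.log (X : ℝ) := ⟨_, rfl⟩
  rw [← hL] at hL1 hL2 hbad
  have hK4 : (4 : ℝ) ≤ K := by exact_mod_cast (by omega : 4 ≤ K)
  have hL2' : 2 ≤ L := by linarith
  have hL0 : 0 < L := by linarith
  obtain ⟨T, hT⟩ : ∃ T, T = v * (U + 1) * (Nat.log b K + 1) := ⟨_, rfl⟩
  have hTk : T * (H + 1) ≤ k := by
    have e1 := h5 K (by omega)
    unfold hh at e1
    have e2 : 2 * (T * (H + 1)) ≤ K := by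
      calc 2 * (T * (H + 1)) = (H + 1) * (2 * (v * (U + 1)) * (Nat.log b K + 1)) := by rw [hT]; ring
        _ ≤ K := e1
    omega
  obtain ⟨l, hl⟩ : ∃ l, l = k - T * (H + 1) := ⟨_, rfl⟩
  have hanti := anti' b H l T hb η w k (by omega) hη1 hw0 hw1 hsum 1 c
  have hTK : (1 - η) ^ T ≤ 1 / (K : ℝ) ^ (U + 1) := by
    have e1 : (1 - η) ^ T = ((1 - η) ^ v) ^ ((U + 1) * (Nat.log b K + 1)) := by
      rw [← pow_mul, hT]; congr 1; ring
    rw [e1]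
    refine (pow_le_pow_left₀ (pow_nonneg (by linarith) _) hv.le _).trans ?_
    rw [one_div_pow]
    apply div_le_div_of_nonneg_left (by norm_num) (by positivity)
    have h9 : (K : ℝ) ≤ (b : ℝ) ^ (Nat.log b K + 1) := by
      have := Nat.lt_pow_succ_log_self (b := b) (by omega) K
      exact_mod_cast this.le
    calc (K : ℝ) ^ (U + 1) ≤ ((b : ℝ) ^ (Nat.log b K + 1)) ^ (U + 1) := pow_le_pow_left₀ (by positivity) h9 _
      _ = _ := by rw [← pow_mul]; congr 1; ring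
  have hshort : (X : ℝ) / L ^ (W₁ + 1) ≤ (b : ℝ) ^ l := by
    rw [div_le_iff₀ (by positivity)]
    have e1 : (X : ℝ) = (b : ℝ) ^ l * (b : ℝ) ^ (e + T * (H + 1)) := by
      rw [hX, ← pow_add]
      push_cast
      congr 1
      omega
    rw [e1]
    apply mul_le_mul_of_nonneg_left _ (by positivity)
    have e2 : (b : ℝ) ^ (e + T * (H + 1)) ≤ (b : ℝ) ^ e * (b * K) ^ W₁ := by
      rw [pow_add]
      apply mul_le_mul_of_nonneg_left _ (by positivity)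
      have e3 : T * (H + 1) = (Nat.log b K + 1) * W₁ := by rw [hT, hW₁]; ring
      rw [e3, pow_mul]
      apply pow_le_pow_left₀ (by positivity)
      have := Nat.pow_log_le_self b (show K ≠ 0 by omega)
      have h1 : b ^ (Nat.log b K + 1) ≤ b * K := by
        rw [pow_succ']
        exact Nat.mul_le_mul_left _ this
      exact_mod_cast h1
    refine e2.trans ?_
    have e4 : ((K : ℝ) / 2) ^ (W₁ + 1) ≤ L ^ (W₁ + 1) := pow_le_pow_left₀ (by positivity) hL1 _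
    refine le_trans ?_ e4
    have e5 : (2 : ℝ) ^ (W₁ + 1) * b ^ (e + W₁) ≤ K := hk3.trans (by exact_mod_cast (by omega : k3 ≤ K))
    rw [div_pow, le_div_iff₀ (by positivity)]
    calc (b : ℝ) ^ e * (b * K) ^ W₁ * 2 ^ (W₁ + 1) = (K : ℝ) ^ W₁ * (2 ^ (W₁ + 1) * b ^ (e + W₁)) := by
          rw [mul_pow, pow_add (b : ℝ) e]; ring
      _ ≤ (K : ℝ) ^ W₁ * K := mul_le_mul_of_nonneg_left e5 (by positivity)
      _ = _ := by rw [pow_succ]
  have hpt : ∀ d ∈ Str H k, (if bad d then pw w d else 0) ≤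
      pw w d * (fun x : ℤ => if 1 ≤ x ∧ x < 1 + (b : ℤ) ^ l then (1 : ℝ) else 0) (c + val b d) := by
    intro d hd
    have hp := pw_nonneg (H := H) w hw0 d
    by_cases hEd : bad d
    · rw [if_pos hEd]
      obtain ⟨h1, h2⟩ := hbad d hd hEd
      have h7 := h2.trans_le hshort
      have h8 : c + (val b d : ℤ) < (b : ℤ) ^ l := by exact_mod_cast h7
      simp only
      rw [if_pos ⟨h1, by omega⟩, mul_one]
    · rw [if_neg hEd]
      apply mul_nonneg hp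
      simp only
      split_ifs <;> norm_num
  refine (sum_le_sum hpt).trans (hanti.trans (hTK.trans ?_))
  have hk0 : (0 : ℝ) < k := by exact_mod_cast (by omega : 0 < k)
  have hkK : (k : ℝ) ≤ K := by exact_mod_cast (by omega : k ≤ K)
  apply one_div_le_one_div_of_le (by positivity)
  calc (k : ℝ) ^ U ≤ (K : ℝ) ^ U := pow_le_pow_left₀ hk0.le hkK _
    _ ≤ (K : ℝ) ^ (U + 1) := pow_le_pow_right₀ (by linarith) (by omega)

/-- almost all integers with random digits are good -/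
theorem pg_final (b H B V U : ℕ) (hb : 2 ≤ b) (η : ℝ) (hη : 0 < η) (hη1 : η ≤ 1) : ∃ k₀ : ℕ, ∀ k : ℕ, k₀ ≤ k →
    ∀ w : ℕ → ℕ → ℝ, (∀ j < k, ∀ a, 0 ≤ w j a) → (∀ j < k, ∀ a, w j a ≤ 1 - η) → (∀ j < k, ∑ a ∈ range H, w j a = 1) →
    ∀ c : ℤ, |c| ≤ B * (b : ℤ) ^ k → ∀ bad : (Fin k → ℕ) → Prop, ∀ _hdec : DecidablePred bad,
    (∀ d ∈ Str H k, bad d → 0 < c + (val b d : ℤ) ∧ 2 ∣ c + (val b d : ℤ) ∧
      ¬ GoodG V (b ^ (k + (B + H + 1))) (c + (val b d : ℤ)).toNat) →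
    ∑ d ∈ Str H k, (if bad d then pw w d else 0) ≤ 1 / (k : ℝ) ^ U := by
  classical
  obtain ⟨e, he⟩ : ∃ e, e = B + H + 1 := ⟨_, rfl⟩
  obtain ⟨B1, hB1⟩ := pg_one b H (e + 2) hb η hη hη1 (U + 2 * V + 9)
  obtain ⟨E1, hE1⟩ : ∃ E1, E1 = B1 + V + 7 := ⟨_, rfl⟩
  obtain ⟨k1, h1⟩ := hB1 (E1 + 1)
  obtain ⟨X1, hdet⟩ := pg_det V E1 (by omega)
  obtain ⟨k2, hk2⟩ := exists_nat_ge ((b : ℝ) ^ 2 * (b * (e + 1)) ^ (2 * V + 8))
  obtain ⟨k3, hk3⟩ := exists_nat_ge ((2 : ℝ) ^ (B1 + 2))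
  refine ⟨k1 + X1 + k2 + k3 + 4, fun k hk w hw0 hw1 hsum c hc bad hdec hbad => ?_⟩
  rw [← he] at hbad
  have hbr : (2 : ℝ) ≤ b := by exact_mod_cast hb
  have hb0 : (0 : ℝ) < b := by linarith
  have hbn : 0 < b := by omega
  obtain ⟨K, hK⟩ : ∃ K, K = k + e := ⟨_, rfl⟩
  obtain ⟨X, hX⟩ : ∃ X, X = b ^ K := ⟨_, rfl⟩
  obtain ⟨Y, hY⟩ : ∃ Y, Y = b ^ (k + (e + 2)) := ⟨_, rfl⟩
  have hKX : K < X := by rw [hX]; exact Nat.lt_pow_self (by omega)
  have hX0 : (0 : ℝ) < X := by exact_mod_cast (by omega : 0 < X)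
  have hYX : Y = b ^ 2 * X := by rw [hY, hX, hK, ← pow_add]; congr 1; ring
  obtain ⟨hL1, hL2⟩ := logX b K hb
  rw [← hX] at hL1 hL2
  rw [← hK, ← hX] at hbad
  obtain ⟨L, hL⟩ : ∃ L, L = Real.log (X : ℝ) := ⟨_, rfl⟩
  rw [← hL] at hL1 hL2
  have hK4 : (4 : ℝ) ≤ K := by exact_mod_cast (by omega : 4 ≤ K)
  have hL2' : 2 ≤ L := by linarith
  have hL1' : 1 ≤ L := by linarith
  have hL0 : 0 < L := by linarith
  have hk0 : (1 : ℝ) ≤ k := by exact_mod_cast (by omega : 1 ≤ k)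
  -- the logarithm of `Y`
  have hLY1 : L ≤ Real.log Y := by
    rw [hL]
    apply Real.log_le_log hX0
    rw [hYX]
    have : 1 ≤ b ^ 2 := Nat.one_le_pow _ _ hbn
    exact_mod_cast Nat.le_mul_of_pos_left X (by omega)
  have hLY2 : Real.log Y ≤ 2 * L := by
    have e1 : Real.log (Y : ℝ) = (k + (e + 2) : ℕ) * Real.log b := by
      rw [hY]; push_cast; rw [Real.log_pow]; push_cast; ring
    have e2 : L = (K : ℕ) * Real.log b := by
      rw [hL, hX]; push_cast; rw [Real.log_pow]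
    rw [e1, e2]
    have e3 : 0 ≤ Real.log (b : ℝ) := Real.log_nonneg (by linarith)
    have e4 : ((k + (e + 2) : ℕ) : ℝ) ≤ 2 * (K : ℕ) := by
      have : k + (e + 2) ≤ 2 * K := by omega
      exact_mod_cast this
    calc ((k + (e + 2) : ℕ) : ℝ) * Real.log b ≤ (2 * (K : ℕ)) * Real.log b := mul_le_mul_of_nonneg_right e4 e3
      _ = _ := by ring
  obtain ⟨z, hz⟩ : ∃ z, z = ⌈L ^ E1⌉₊ := ⟨_, rfl⟩
  have hfl : ∀ E : ℕ, L ^ E ≤ (⌈L ^ E⌉₊ : ℝ) ∧ (⌈L ^ E⌉₊ : ℝ) ≤ L ^ (E + 1) := by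
    intro E
    refine ⟨Nat.le_ceil _, ?_⟩
    have h5 : (⌈L ^ E⌉₊ : ℝ) < L ^ E + 1 := Nat.ceil_lt_add_one (by positivity)
    have h6 : 1 ≤ L ^ E := one_le_pow₀ hL1'
    rw [pow_succ]
    nlinarith
  have hz1 : L ^ E1 ≤ z := by rw [hz]; exact (hfl E1).1
  have hz2 : (z : ℝ) ≤ L ^ (E1 + 1) := by rw [hz]; exact (hfl E1).2
  obtain ⟨T, hT⟩ : ∃ T, T = ⌈L ^ (V + 3)⌉₊ := ⟨_, rfl⟩
  have hT1 : L ^ (V + 3) ≤ T := by rw [hT]; exact (hfl (V + 3)).1
  have hT2 : (T : ℝ) ≤ L ^ (V + 4) := by rw [hT]; exact (hfl (V + 3)).2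
  have hz3 : Real.log Y ^ B1 ≤ z := by
    refine le_trans ?_ hz1
    have hk3L : (2 : ℝ) ^ B1 ≤ L := by
      have e1 : (k3 : ℝ) ≤ K := by exact_mod_cast (by omega : k3 ≤ K)
      have e2 : (2 : ℝ) ^ (B1 + 2) = 4 * 2 ^ B1 := by rw [pow_add]; ring
      have e3 : (0 : ℝ) < 2 ^ B1 := by positivity
      linarith
    calc Real.log Y ^ B1 ≤ (2 * L) ^ B1 := pow_le_pow_left₀ (by linarith) hLY2 _
      _ = 2 ^ B1 * L ^ B1 := mul_pow _ _ _
      _ ≤ L * L ^ B1 := mul_le_mul_of_nonneg_right hk3L (by positivity)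
      _ = L ^ (B1 + 1) := by ring
      _ ≤ L ^ E1 := pow_le_pow_right₀ hL1' (by omega)
  have hz4 : (z : ℝ) ≤ Real.log Y ^ (E1 + 1) := hz2.trans (pow_le_pow_left₀ hL0.le hLY1 _)
  have hBHX : ((B + H + 1 : ℕ) : ℤ) * (b : ℤ) ^ k ≤ (X : ℤ) := by
    have e1 : (B + H + 1) * b ^ k ≤ X := by
      rw [hX, hK, add_comm k e, pow_add]
      apply Nat.mul_le_mul_right
      rw [he]
      exact (Nat.lt_pow_self (by omega)).le
    exact_mod_cast e1
  have hbk : (1 : ℤ) ≤ (b : ℤ) ^ k := by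
    have : 1 ≤ b ^ k := Nat.one_le_pow _ _ hbn
    exact_mod_cast this
  have hsize : |c| + H * (b : ℤ) ^ k + 1 ≤ (X : ℤ) := by
    push_cast at hBHX
    nlinarith
  have key := markov (Str H k) (range (T + 1)) (fun d => pw w d) (fun d _ => pw_nonneg (H := H) w hw0 d)
    (fun d i => |∑ n ∈ Icc 1 (min (i * (X / T + 1)) X), ArithmeticFunction.vonMangoldt n *
        (lamI (c + (val b d : ℤ) - n) - lamzI z (c + (val b d : ℤ) - n))|)
    (fun _ _ => abs_nonneg _) bad (X / L ^ (V + 2)) (L * ((Y : ℝ) / (k : ℝ) ^ (U + 2 * V + 9))) (by positivity) (by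
      intro d hd hb2
      by_contra hcon
      push Not at hcon
      obtain ⟨c1, c2, c3⟩ := hbad d hd hb2
      apply c3
      obtain ⟨m, hm⟩ : ∃ m : ℕ, (m : ℤ) = c + (val b d : ℤ) := ⟨(c + (val b d : ℤ)).toNat, by omega⟩
      rw [← hm] at c1 c2 ⊢
      rw [Int.toNat_natCast]
      have hval := val_le b H k hb d hd
      have hmX : m ≤ X := by
        have e1 : (val b d : ℤ) ≤ H * (b : ℤ) ^ k := by exact_mod_cast hval
        have e2 := le_abs_self c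
        have e3 : (m : ℤ) ≤ X := by linarith
        exact_mod_cast e3
      intro y hy
      refine hdet X (by omega) m hmX (by exact_mod_cast c2) (by omega) z (by rw [← hL]; exact hz1) (by rw [← hL]; exact hz2) T
        (by rw [← hL]; exact hT1) ?_ y hy
      intro i hi
      have h5 := (hcon i hi).le
      rw [← hm] at h5
      rw [← hL]
      exact h5)
    (by
      intro i hi
      refine h1 k (by omega) z (by rw [← hY]; exact hz3) (by rw [← hY]; exact hz4) w hw0 hw1 hsum (min (i * (X / T + 1)) X) c ?_ L hL0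
        (fun n => ArithmeticFunction.vonMangoldt n) ?_ |>.trans (le_of_eq (by rw [← hY]))
      · have e1 : ((min (i * (X / T + 1)) X : ℕ) : ℤ) ≤ X := by exact_mod_cast min_le_right _ _
        have e2 : (b : ℤ) ^ (k + (e + 2)) = (b : ℤ) ^ 2 * X := by
          have : ((Y : ℕ) : ℤ) = ((b ^ 2 * X : ℕ) : ℤ) := by rw [hYX]
          rw [hY] at this
          push_cast at this
          exact this
        rw [e2]
        have e3 : (4 : ℤ) ≤ (b : ℤ) ^ 2 := by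
          have : (2 : ℤ) ≤ b := by exact_mod_cast hb
          nlinarith
        have e4 : (0 : ℤ) < X := by exact_mod_cast (by omega : 0 < X)
        nlinarith
      · intro n hn
        rw [mem_Icc] at hn
        rw [abs_of_nonneg ArithmeticFunction.vonMangoldt_nonneg, hL]
        exact vM_le n X (by omega) (hn.2.trans (min_le_right _ _)))
  refine key.trans ?_
  rw [card_range]
  push_cast
  have hT3 : (T : ℝ) + 1 ≤ L ^ (V + 5) := by
    have h6 : 1 ≤ L ^ (V + 4) := one_le_pow₀ hL1'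
    rw [show V + 5 = (V + 4) + 1 by ring, pow_succ L (V + 4)]
    nlinarith
  have hYr : (Y : ℝ) = (b : ℝ) ^ 2 * X := by rw [hYX]; push_cast; ring
  have hLk : L ≤ (b * (e + 1)) * k := by
    have e1 : (K : ℝ) ≤ (e + 1) * k := by
      rw [hK]; push_cast
      have : (0 : ℝ) ≤ e := Nat.cast_nonneg _
      nlinarith
    calc L ≤ b * K := hL2
      _ ≤ b * ((e + 1) * k) := mul_le_mul_of_nonneg_left e1 hb0.le
      _ = _ := by ring
  calc ((T : ℝ) + 1) * (L * ((Y : ℝ) / (k : ℝ) ^ (U + 2 * V + 9))) / (X / L ^ (V + 2))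
      ≤ L ^ (V + 5) * (L * ((Y : ℝ) / (k : ℝ) ^ (U + 2 * V + 9))) / (X / L ^ (V + 2)) := by gcongr
    _ = (b : ℝ) ^ 2 * L ^ (2 * V + 8) / (k : ℝ) ^ (U + 2 * V + 9) := by
        rw [hYr, show 2 * V + 8 = (V + 5) + 1 + (V + 2) by ring, pow_add L (V + 5 + 1) (V + 2), pow_succ L (V + 5)]
        field_simp
    _ ≤ (b : ℝ) ^ 2 * ((b * (e + 1)) * k) ^ (2 * V + 8) / (k : ℝ) ^ (U + 2 * V + 9) := by gcongr
    _ = ((b : ℝ) ^ 2 * (b * (e + 1)) ^ (2 * V + 8)) * (k : ℝ) ^ (2 * V + 8) / (k : ℝ) ^ (U + 2 * V + 9) := by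
        rw [mul_pow (b * ((e : ℝ) + 1)) (k : ℝ)]; ring
    _ ≤ (k : ℝ) * (k : ℝ) ^ (2 * V + 8) / (k : ℝ) ^ (U + 2 * V + 9) := by
        have : (b : ℝ) ^ 2 * (b * (e + 1)) ^ (2 * V + 8) ≤ k := hk2.trans (by exact_mod_cast (by omega : k2 ≤ k))
        gcongr
    _ = 1 / (k : ℝ) ^ U := by
        have e1 : (k : ℝ) ^ (U + 2 * V + 9) = (k : ℝ) ^ U * ((k : ℝ) * (k : ℝ) ^ (2 * V + 8)) := by
          rw [show U + 2 * V + 9 = U + (1 + (2 * V + 8)) by ring, pow_add, pow_add, pow_one]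
        rw [e1]
        field_simp

end Pool.Agent.W93.PG
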