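import Pool.Agent.W93.PG3

set_option autoImplicit false

/-! Goldbach pairs in windows: from weights to numbers of pairs. -/

namespace Pool.Agent.W93.PG
open Finset
open Pool.Agent.H373R2.T7
open Pool.Agent.H560R3.GB (sing)
open Pool.Agent.W93.GB

/-- the number of primes `p` in `(y₁, y₂]` such that `m - p` is prime -/
def cnt (m y₁ y₂ : ℕ) : ℕ := ((Ioc y₁ y₂).filter (fun p => p.Prime ∧ (m - p).Prime)).card

/-- the weighted number -/
noncomputable def wn (m y₁ y₂ : ℕ) : ℝ := ∑ n ∈ Ioc y₁ y₂, ArithmeticFunction.vonMangoldt n * lamI ((m : ℤ) - n)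

lemma lam_sub (m n : ℕ) (h : n ≤ m) : lamI ((m : ℤ) - n) = ArithmeticFunction.vonMangoldt (m - n) := by
  have e : (m : ℤ) - n = ((m - n : ℕ) : ℤ) := by rw [Nat.cast_sub h]
  rw [e, lam_nat]

lemma wn_le (m y₁ y₂ : ℕ) (h2 : y₂ ≤ m) (hm : 1 ≤ m) : wn m y₁ y₂ ≤ cnt m y₁ y₂ * Real.log m ^ 2 + 4 * √(m : ℝ) * Real.log m ^ 2 := by
  have hlog : 0 ≤ Real.log m := Real.log_natCast_nonneg m
  have key : ∀ c : ℕ, c ≤ m → lamP (c : ℤ) ≤ Real.log m := by
    intro c hc
    have := lamP_le (c : ℤ)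
    rw [lam_nat] at this
    exact this.trans (vM_le c m hm hc)
  have h1 : ∀ b ∈ Ioc y₁ y₂, ArithmeticFunction.vonMangoldt b * lamI ((m : ℤ) - b) ≤
      lamP (b : ℤ) * lamP ((m - b : ℕ) : ℤ) + Real.log m * (pp b + pp (m - b)) := by
    intro b hb
    rw [mem_Ioc] at hb
    rw [lam_sub m b (by omega)]
    have a1 := vM_le (m - b) m hm (by omega)
    have a3 := key b (by omega)
    have a4 := pp_nonneg b
    have a5 := pp_nonneg (m - b)
    have a7 := lamP_nonneg (b : ℤ)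
    have e : ArithmeticFunction.vonMangoldt b * ArithmeticFunction.vonMangoldt (m - b) =
        lamP (b : ℤ) * lamP ((m - b : ℕ) : ℤ) + (pp b * ArithmeticFunction.vonMangoldt (m - b) + lamP (b : ℤ) * pp (m - b)) := by
      unfold pp
      ring
    rw [e]
    have a8 : pp b * ArithmeticFunction.vonMangoldt (m - b) ≤ pp b * Real.log m := mul_le_mul_of_nonneg_left a1 a4
    have a9 : lamP (b : ℤ) * pp (m - b) ≤ Real.log m * pp (m - b) := mul_le_mul_of_nonneg_right a3 a5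
    linarith
  unfold wn
  refine (sum_le_sum h1).trans ?_
  rw [sum_add_distrib, ← mul_sum]
  have hsub : Ioc y₁ y₂ ⊆ Icc 1 m := by
    intro n hn
    rw [mem_Ioc] at hn
    rw [mem_Icc]
    omega
  have h3 : ∑ n ∈ Ioc y₁ y₂, (pp n + pp (m - n)) ≤ ∑ n ∈ Icc 1 m, (pp n + pp (m - n)) :=
    sum_le_sum_of_subset_of_nonneg hsub (fun n _ _ => add_nonneg (pp_nonneg _) (pp_nonneg _))
  rw [sum_add_distrib (s := Icc 1 m)] at h3
  have h4 := sum_pp m hm
  have h5 := sum_pp' m hm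
  have h6 : ∑ b ∈ Ioc y₁ y₂, lamP (b : ℤ) * lamP ((m - b : ℕ) : ℤ) ≤ cnt m y₁ y₂ * Real.log m ^ 2 := by
    unfold cnt
    rw [card_filter]
    push_cast
    rw [sum_mul]
    apply sum_le_sum
    intro b hb
    rw [mem_Ioc] at hb
    split_ifs with h
    · rw [one_mul, sq]
      exact mul_le_mul (key b (by omega)) (key _ (by omega)) (lamP_nonneg _) hlog
    · rw [zero_mul]
      apply le_of_eq
      rw [not_and_or] at h
      unfold lamP
      rw [Int.toNat_natCast, Int.toNat_natCast]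
      rcases h with h | h
      · rw [if_neg h, zero_mul]
      · rw [if_neg h, mul_zero]
  have h7 : Real.log m * ∑ n ∈ Ioc y₁ y₂, (pp n + pp (m - n)) ≤
      Real.log m * (2 * √(m : ℝ) * Real.log m + 2 * √(m : ℝ) * Real.log m) :=
    mul_le_mul_of_nonneg_left (by linarith) hlog
  have e : Real.log m * (2 * √(m : ℝ) * Real.log m + 2 * √(m : ℝ) * Real.log m) = 4 * √(m : ℝ) * Real.log m ^ 2 := by ring
  linarith

lemma cnt_le (m y₁ y₂ y : ℕ) (h2 : y₂ ≤ m) (hy : 2 ≤ y) : (cnt m y₁ y₂ : ℝ) ≤ 2 * y + 1 + wn m y₁ y₂ / Real.log y ^ 2 := by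
  have hly : 0 < Real.log y := Real.log_pos (by exact_mod_cast (by omega : 1 < y))
  have h1 : ((Ioc y₁ y₂).filter (fun p => p.Prime ∧ (m - p).Prime)) ⊆
      Icc 1 y ∪ ((Icc 1 m).filter (fun b => m - b ≤ y)) ∪
        ((Ioc y₁ y₂).filter (fun b => b.Prime ∧ (m - b).Prime ∧ y < b ∧ y < m - b)) := by
    intro b hb
    rw [mem_filter, mem_Ioc] at hb
    rw [mem_union, mem_union, mem_Icc, mem_filter, mem_filter, mem_Icc, mem_Ioc]
    by_cases h1 : b ≤ y
    · exact Or.inl (Or.inl ⟨by omega, h1⟩)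
    · by_cases h2 : m - b ≤ y
      · exact Or.inl (Or.inr ⟨by omega, h2⟩)
      · exact Or.inr ⟨hb.1, hb.2.1, hb.2.2, by omega, by omega⟩
  have h2' : ((Icc 1 m).filter (fun b => m - b ≤ y)).card ≤ y + 1 := by
    have : (Icc 1 m).filter (fun b => m - b ≤ y) ⊆ Icc (m - y) m := by
      intro b hb
      rw [mem_filter, mem_Icc] at hb
      rw [mem_Icc]
      omega
    refine (card_le_card this).trans ?_
    rw [Nat.card_Icc]
    omega
  have h3 : (((Ioc y₁ y₂).filter (fun b => b.Prime ∧ (m - b).Prime ∧ y < b ∧ y < m - b)).card : ℝ) * Real.log y ^ 2 ≤ wn m y₁ y₂ := by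
    rw [card_filter]
    push_cast
    rw [sum_mul]
    unfold wn
    apply sum_le_sum
    intro b hb
    rw [mem_Ioc] at hb
    split_ifs with h
    · rw [lam_sub m b (by omega), ArithmeticFunction.vonMangoldt_apply_prime h.1, ArithmeticFunction.vonMangoldt_apply_prime h.2.1, one_mul, sq]
      have a1 : Real.log y ≤ Real.log b := Real.log_le_log (by exact_mod_cast (by omega : 0 < y)) (by exact_mod_cast h.2.2.1.le)
      have a2 : Real.log y ≤ Real.log ((m - b : ℕ) : ℝ) :=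
        Real.log_le_log (by exact_mod_cast (by omega : 0 < y)) (by exact_mod_cast h.2.2.2.le)
      exact mul_le_mul a1 a2 hly.le (hly.le.trans a1)
    · rw [zero_mul]
      exact mul_nonneg ArithmeticFunction.vonMangoldt_nonneg (lamI_nonneg _)
  have h4 : cnt m y₁ y₂ ≤ y + (y + 1) + ((Ioc y₁ y₂).filter (fun b => b.Prime ∧ (m - b).Prime ∧ y < b ∧ y < m - b)).card := by
    unfold cnt
    refine (card_le_card h1).trans ((card_union_le _ _).trans ?_)
    have := card_union_le (Icc 1 y) ((Icc 1 m).filter (fun b => m - b ≤ y))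
    rw [Nat.card_Icc] at this
    omega
  have h5 : (((Ioc y₁ y₂).filter (fun b => b.Prime ∧ (m - b).Prime ∧ y < b ∧ y < m - b)).card : ℝ) ≤ wn m y₁ y₂ / Real.log y ^ 2 := by
    rw [le_div_iff₀ (by positivity)]
    exact h3
  have h6 : (cnt m y₁ y₂ : ℝ) ≤ ((y + (y + 1) + ((Ioc y₁ y₂).filter (fun b => b.Prime ∧ (m - b).Prime ∧ y < b ∧ y < m - b)).card : ℕ) : ℝ) := by
    exact_mod_cast h4
  push_cast at h6
  linarith

/-- the weighted number in a window -/
lemma wn_near (V X m y₁ y₂ : ℕ) (h12 : y₁ < y₂) (h2 : y₂ ≤ m) (hm : 1 ≤ m) (hG : GoodG V X m) :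
    |wn m y₁ y₂ - sing m * ((y₂ : ℝ) - y₁)| ≤ 2 * (X / Real.log X ^ V) + sing m := by
  have hs : 0 ≤ sing m := by linarith [one_le_sing m]
  have hX : 0 ≤ (X : ℝ) / Real.log X ^ V := (abs_nonneg _).trans (hG 0 (by omega))
  obtain ⟨D, hD⟩ : ∃ D : ℕ → ℝ, D = fun y => ∑ n ∈ Icc 1 y, ArithmeticFunction.vonMangoldt n * lamI ((m : ℤ) - n) := ⟨_, rfl⟩
  have hDy : ∀ y, y ≤ m → |D y - sing m * y| ≤ X / Real.log X ^ V + (if y = m then sing m else 0) := by
    intro y hy
    by_cases h3 : y = m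
    · rw [if_pos h3, hD]
      simp only
      obtain ⟨m', hm'⟩ : ∃ m', m = m' + 1 := ⟨m - 1, by omega⟩
      have h4 := hG m' (by omega)
      have hs' : 0 ≤ sing (m' + 1) := by linarith [one_le_sing (m' + 1)]
      rw [h3]
      rw [hm'] at h4 ⊢
      rw [sum_Icc_succ_top (by omega)]
      have e1 : lamI (((m' + 1 : ℕ) : ℤ) - ((m' + 1 : ℕ) : ℤ)) = 0 := by
        unfold lamI
        rw [if_neg (by omega)]
      rw [e1, mul_zero, add_zero]
      have e2 : ∑ n ∈ Icc 1 m', ArithmeticFunction.vonMangoldt n * lamI (((m' + 1 : ℕ) : ℤ) - n) - sing (m' + 1) * ((m' + 1 : ℕ) : ℝ) =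
          (∑ n ∈ Icc 1 m', ArithmeticFunction.vonMangoldt n * lamI (((m' + 1 : ℕ) : ℤ) - n) - sing (m' + 1) * m') - sing (m' + 1) := by
        push_cast; ring
      rw [e2]
      refine (abs_sub _ _).trans ?_
      rw [abs_of_nonneg hs']
      linarith
    · rw [if_neg h3, add_zero, hD]
      exact hG y (by omega)
  have e : wn m y₁ y₂ = D y₂ - D y₁ := by
    unfold wn
    rw [hD]
    simp only
    have h3 : Icc 1 y₂ = Icc 1 y₁ ∪ Ioc y₁ y₂ := by
      ext n
      rw [mem_union, mem_Icc, mem_Icc, mem_Ioc]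
      omega
    have h4 : Disjoint (Icc 1 y₁) (Ioc y₁ y₂) := by
      rw [disjoint_left]
      intro n h5 h6
      rw [mem_Icc] at h5
      rw [mem_Ioc] at h6
      omega
    rw [h3, sum_union h4]
    ring
  rw [e]
  have e2 : D y₂ - D y₁ - sing m * ((y₂ : ℝ) - y₁) = (D y₂ - sing m * y₂) - (D y₁ - sing m * y₁) := by ring
  rw [e2]
  refine (abs_sub _ _).trans ?_
  have a1 := hDy y₁ (by omega)
  have a2 := hDy y₂ h2
  rw [if_neg (by omega), add_zero] at a1
  have a3 : (if y₂ = m then sing m else 0) ≤ sing m := by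
    split_ifs
    · exact le_rfl
    · exact hs
  linarith

end Pool.Agent.W93.PG
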