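import Pool.Agent.W93.PG4

set_option autoImplicit false

/-! Goldbach pairs in windows: the numbers of pairs. -/

namespace Pool.Agent.W93.PG
open Finset
open Pool.Agent.H373R2.T7
open Pool.Agent.H560R3.GB (sing)
open Pool.Agent.W93.GB

lemma num1 (ε : ℝ) (hε : 0 < ε) (hε1 : ε ≤ 1 / 2) : 1 ≤ (1 + ε / 2) * (1 - ε / 8) ^ 2 ∧ (1 + ε / 8) * (1 + ε / 2) + ε / 6 ≤ 1 + ε := by
  have h1 : ε * ε ≤ ε / 2 := by nlinarith
  have h3 : 0 ≤ ε * ε * ε := by positivity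
  constructor
  · have e : (1 + ε / 2) * (1 - ε / 8) ^ 2 = 1 + ε / 4 - 7 / 64 * (ε * ε) + 1 / 128 * (ε * ε * ε) := by ring
    rw [e]
    linarith
  · have e : (1 + ε / 8) * (1 + ε / 2) + ε / 6 = 1 + 5 / 8 * ε + 1 / 16 * (ε * ε) + ε / 6 := by ring
    rw [e]
    linarith

lemma win_aux (ε : ℝ) (hε : 0 < ε) (hε1 : ε ≤ 1 / 2) (A W : ℕ) : ∃ X0 : ℕ, ∀ X : ℕ, X0 ≤ X → ∀ m : ℕ, m ≤ X →
    (X : ℝ) / Real.log X ^ W ≤ m → GoodG (A + W + 4) X m → ∀ y₁ y₂ : ℕ, y₁ < y₂ → y₂ ≤ m →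
    (m : ℝ) / Real.log m ^ A ≤ (y₂ : ℝ) - y₁ →
    |(cnt m y₁ y₂ : ℝ) - sing m * ((y₂ : ℝ) - y₁) / Real.log m ^ 2| ≤ ε * (sing m * ((y₂ : ℝ) - y₁) / Real.log m ^ 2) := by
  obtain ⟨n1, h1⟩ := ev_L' ((2 * (A + 3) / (ε / 8)) ^ 2 + 24 / ε + 24)
  obtain ⟨n2, h2⟩ := ev_log' (A + 6) 1
  obtain ⟨n3, h3⟩ := ev_log' W 1
  refine ⟨(n1 + n2 + 4) ^ 2 + n3 + 3, fun X hX m hmX hmW hG y₁ y₂ h12 hy2 hΔ => ?_⟩
  have hX3 : 3 ≤ X := by omega
  have hXr : (3 : ℝ) ≤ X := by exact_mod_cast hX3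
  have hX0 : (0 : ℝ) < X := by linarith
  have a3 := h3 X (by omega)
  rw [one_mul] at a3
  have hlogX1 : 1 ≤ Real.log X := by
    rw [Real.le_log_iff_exp_le hX0]
    have := Real.exp_one_lt_d9
    linarith
  have hss : √(X : ℝ) * √(X : ℝ) = X := Real.mul_self_sqrt hX0.le
  have hs0 : 0 < √(X : ℝ) := Real.sqrt_pos.2 hX0
  have hmsq : √(X : ℝ) ≤ m := by
    refine le_trans ?_ hmW
    rw [le_div_iff₀ (by positivity)]
    calc √(X : ℝ) * Real.log X ^ W ≤ √(X : ℝ) * √(X : ℝ) := mul_le_mul_of_nonneg_left a3 hs0.le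
      _ = X := hss
  have hmn : n1 + n2 + 4 ≤ m := by
    have h4 : (((n1 + n2 + 4 : ℕ)) : ℝ) ≤ √(X : ℝ) := by
      apply Real.le_sqrt_of_sq_le
      exact_mod_cast (by omega : (n1 + n2 + 4) ^ 2 ≤ X)
    exact_mod_cast h4.trans hmsq
  have hm1 : 1 ≤ m := by omega
  have hm4 : (4 : ℝ) ≤ m := by exact_mod_cast (by omega : 4 ≤ m)
  have hm0 : (0 : ℝ) < m := by linarith
  have b1 := h1 m (by omega)
  have b2 := h2 m (by omega)
  rw [one_mul] at b2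
  obtain ⟨M, hM⟩ : ∃ M, M = Real.log (m : ℝ) := ⟨_, rfl⟩
  obtain ⟨L, hL⟩ : ∃ L, L = Real.log (X : ℝ) := ⟨_, rfl⟩
  obtain ⟨S, hS⟩ : ∃ S, S = sing m := ⟨_, rfl⟩
  obtain ⟨Δ, hΔd⟩ : ∃ Δ, Δ = (y₂ : ℝ) - y₁ := ⟨_, rfl⟩
  have hwn := wn_near (A + W + 4) X m y₁ y₂ h12 hy2 hm1 hG
  have hlow := wn_le m y₁ y₂ hy2 hm1
  rw [← hM] at b1 b2 hΔ hlow ⊢
  rw [← hL] at hmW hlogX1 a3 hwn
  rw [← hS, ← hΔd] at hwn
  rw [← hΔd] at hΔ
  rw [← hS, ← hΔd]
  have hS1 : 1 ≤ S := by rw [hS]; exact one_le_sing m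
  have hML : M ≤ L := by rw [hM, hL]; exact Real.log_le_log hm0 (by exact_mod_cast hmX)
  have hp1 : 0 < (2 * ((A : ℝ) + 3) / (ε / 8)) ^ 2 := by positivity
  have hp2 : 0 < 24 / ε := by positivity
  have hM24 : 24 ≤ M := by linarith
  have hM1 : 1 ≤ M := by linarith
  have hM0 : 0 < M := by linarith
  have hMε : 24 ≤ M * ε := by
    have : 24 / ε ≤ M := by linarith
    rwa [div_le_iff₀ hε] at this
  have hmm : √(m : ℝ) * √(m : ℝ) = m := Real.mul_self_sqrt hm0.le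
  have hsm0 : 0 < √(m : ℝ) := Real.sqrt_pos.2 hm0
  have hΔ0 : 0 < Δ := lt_of_lt_of_le (by positivity) hΔ
  have hmΔ : (m : ℝ) ≤ Δ * M ^ A := by rwa [div_le_iff₀ (by positivity)] at hΔ
  -- the errors
  have e1 : (X : ℝ) / L ^ (A + W + 4) ≤ Δ / M ^ 4 := by
    have hXm : (X : ℝ) ≤ m * L ^ W := by rwa [div_le_iff₀ (by positivity)] at hmW
    have hL0 : 0 < L := by linarith
    rw [div_le_div_iff₀ (by positivity) (by positivity)]
    calc (X : ℝ) * M ^ 4 ≤ (Δ * M ^ A * L ^ W) * M ^ 4 := by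
          apply mul_le_mul_of_nonneg_right _ (by positivity)
          exact hXm.trans (mul_le_mul_of_nonneg_right hmΔ (by positivity))
      _ ≤ (Δ * L ^ A * L ^ W) * L ^ 4 := by gcongr
      _ = Δ * L ^ (A + W + 4) := by rw [pow_add, pow_add]; ring
  have hΔM : M ^ 6 * √m ≤ Δ := by
    have h5 : M ^ 6 * √(m : ℝ) * M ^ A ≤ Δ * M ^ A := by
      refine le_trans ?_ hmΔ
      calc M ^ 6 * √(m : ℝ) * M ^ A = √(m : ℝ) * M ^ (A + 6) := by rw [pow_add]; ring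
        _ ≤ √(m : ℝ) * √(m : ℝ) := mul_le_mul_of_nonneg_left b2 hsm0.le
        _ = m := hmm
    exact le_of_mul_le_mul_right h5 (by positivity)
  have hsm1 : 1 ≤ √(m : ℝ) := by
    rw [Real.one_le_sqrt]; linarith
  have e2 : S ≤ S * Δ / M ^ 4 := by
    rw [le_div_iff₀ (by positivity)]
    apply mul_le_mul_of_nonneg_left _ (by linarith)
    calc M ^ 4 ≤ M ^ 6 := pow_le_pow_right₀ hM1 (by norm_num)
      _ ≤ M ^ 6 * √m := le_mul_of_one_le_right (by positivity) hsm1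
      _ ≤ Δ := hΔM
  have hSΔ : 0 < S * Δ := mul_pos (by linarith) hΔ0
  have e3 : Δ / M ^ 4 ≤ S * Δ / M ^ 4 := by
    apply div_le_div_of_nonneg_right _ (by positivity)
    exact le_mul_of_one_le_left hΔ0.le hS1
  have hw : |wn m y₁ y₂ - S * Δ| ≤ 3 * (S * Δ / M ^ 4) := by linarith
  have e4 : S * Δ / M ^ 4 ≤ S * Δ / M := by
    apply div_le_div_of_nonneg_left hSΔ.le hM0
    exact le_self_pow₀ hM1 (by norm_num)
  have e5 : 1 / M ≤ ε / 24 := by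
    rw [div_le_iff₀ hM0]
    linarith
  have e6 : S * Δ / M ≤ S * Δ * (ε / 24) := by
    rw [div_eq_mul_one_div]
    exact mul_le_mul_of_nonneg_left e5 hSΔ.le
  rw [abs_le] at hw
  rw [abs_le]
  constructor
  · -- lower bound
    have c1 : 4 * √(m : ℝ) * M ^ 2 ≤ S * Δ / M := by
      rw [le_div_iff₀ hM0]
      calc 4 * √(m : ℝ) * M ^ 2 * M = 4 * M ^ 3 * √m := by ring
        _ ≤ M * M ^ 3 * √m := by gcongr; linarith
        _ = M ^ 4 * √m := by ring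
        _ ≤ M ^ 6 * √m := by
            apply mul_le_mul_of_nonneg_right _ hsm0.le
            exact pow_le_pow_right₀ hM1 (by norm_num)
        _ ≤ Δ := hΔM
        _ ≤ S * Δ := le_mul_of_one_le_left hΔ0.le hS1
    have hSε : 0 ≤ S * Δ * ε := by positivity
    have c2 : S * Δ * (1 - ε) ≤ cnt m y₁ y₂ * M ^ 2 := by
      have d0 : S * Δ * (1 - ε) = S * Δ - S * Δ * ε := by ring
      rw [d0]
      linarith [hw.1]
    have c3 : S * Δ * (1 - ε) / M ^ 2 ≤ cnt m y₁ y₂ := by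
      rw [div_le_iff₀ (by positivity)]
      exact c2
    have c4 : S * Δ * (1 - ε) / M ^ 2 = S * Δ / M ^ 2 - ε * (S * Δ / M ^ 2) := by ring
    linarith
  · -- upper bound
    obtain ⟨y, hy⟩ : ∃ y, y = ⌈(m : ℝ) / M ^ (A + 3)⌉₊ := ⟨_, rfl⟩
    have hq : √(m : ℝ) ≤ (m : ℝ) / M ^ (A + 3) := by
      rw [le_div_iff₀ (by positivity)]
      calc √(m : ℝ) * M ^ (A + 3) ≤ √(m : ℝ) * M ^ (A + 6) :=
            mul_le_mul_of_nonneg_left (pow_le_pow_right₀ hM1 (by omega)) hsm0.le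
        _ ≤ √(m : ℝ) * √(m : ℝ) := mul_le_mul_of_nonneg_left b2 hsm0.le
        _ = m := hmm
    have hsm2 : 2 ≤ √(m : ℝ) := by
      apply Real.le_sqrt_of_sq_le
      linarith
    have hy1 : (m : ℝ) / M ^ (A + 3) ≤ y := by rw [hy]; exact Nat.le_ceil _
    have hy2' : (y : ℝ) ≤ (m : ℝ) / M ^ (A + 3) + 1 := by rw [hy]; exact (Nat.ceil_lt_add_one (by positivity)).le
    have hy2n : 2 ≤ y := by
      have : (2 : ℝ) ≤ y := by linarith
      exact_mod_cast this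
    have c0 := cnt_le m y₁ y₂ y hy2 hy2n
    have c1 : 2 * (y : ℝ) + 1 ≤ 4 * (S * Δ / M ^ 3) := by
      have d1 : (m : ℝ) / M ^ (A + 3) ≤ Δ / M ^ 3 := by
        rw [div_le_div_iff₀ (by positivity) (by positivity)]
        calc (m : ℝ) * M ^ 3 ≤ (Δ * M ^ A) * M ^ 3 := mul_le_mul_of_nonneg_right hmΔ (by positivity)
          _ = Δ * M ^ (A + 3) := by rw [pow_add]; ring
      have d2 : Δ / M ^ 3 ≤ S * Δ / M ^ 3 := by
        apply div_le_div_of_nonneg_right _ (by positivity)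
        exact le_mul_of_one_le_left hΔ0.le hS1
      have d3 : 2 ≤ Δ / M ^ 3 := by linarith
      linarith
    -- the logarithm of `y`
    have hlogy : (1 - ε / 8) * M ≤ Real.log y := by
      have d1 : Real.log ((m : ℝ) / M ^ (A + 3)) ≤ Real.log y := Real.log_le_log (by positivity) hy1
      rw [Real.log_div hm0.ne' (by positivity), Real.log_pow, ← hM] at d1
      have d2 : Real.log M ≤ 2 * √M := by
        have d3 := Real.log_le_sub_one_of_pos (Real.sqrt_pos.2 hM0)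
        rw [Real.log_sqrt hM0.le] at d3
        linarith [Real.sqrt_nonneg M]
      have d4 : 2 * ((A : ℝ) + 3) / (ε / 8) ≤ √M := by
        apply Real.le_sqrt_of_sq_le
        linarith
      have d5 : 2 * ((A : ℝ) + 3) ≤ √M * (ε / 8) := by rwa [div_le_iff₀ (by positivity)] at d4
      have d6 : √M * √M = M := Real.mul_self_sqrt hM0.le
      have d7 : ((A + 3 : ℕ) : ℝ) * Real.log M ≤ ε / 8 * M := by
        push_cast
        calc ((A : ℝ) + 3) * Real.log M ≤ ((A : ℝ) + 3) * (2 * √M) := mul_le_mul_of_nonneg_left d2 (by positivity)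
          _ = (2 * ((A : ℝ) + 3)) * √M := by ring
          _ ≤ (√M * (ε / 8)) * √M := mul_le_mul_of_nonneg_right d5 (Real.sqrt_nonneg _)
          _ = ε / 8 * (√M * √M) := by ring
          _ = ε / 8 * M := by rw [d6]
      linarith
    have hεM : 0 < (1 - ε / 8) * M := mul_pos (by linarith) hM0
    have hly0 : 0 < Real.log y := lt_of_lt_of_le hεM hlogy
    have c2 : wn m y₁ y₂ / Real.log y ^ 2 ≤ S * Δ * (1 + ε / 8) * (1 + ε / 2) / M ^ 2 := by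
      have d1 : wn m y₁ y₂ ≤ S * Δ * (1 + ε / 8) := by
        have d0 : S * Δ * (1 + ε / 8) = S * Δ + S * Δ * (ε / 24) * 3 := by ring
        rw [d0]
        linarith [hw.2]
      have d2 : ((1 - ε / 8) * M) ^ 2 ≤ Real.log y ^ 2 := pow_le_pow_left₀ hεM.le hlogy 2
      have d3 := (num1 ε hε hε1).1
      rw [div_le_div_iff₀ (by positivity) (by positivity)]
      calc wn m y₁ y₂ * M ^ 2 ≤ (S * Δ * (1 + ε / 8)) * M ^ 2 := mul_le_mul_of_nonneg_right d1 (by positivity)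
        _ ≤ (S * Δ * (1 + ε / 8)) * (((1 + ε / 2) * (1 - ε / 8) ^ 2) * M ^ 2) := by
            apply mul_le_mul_of_nonneg_left _ (by positivity)
            exact le_mul_of_one_le_left (sq_nonneg M) d3
        _ = S * Δ * (1 + ε / 8) * (1 + ε / 2) * ((1 - ε / 8) * M) ^ 2 := by ring
        _ ≤ S * Δ * (1 + ε / 8) * (1 + ε / 2) * Real.log y ^ 2 := mul_le_mul_of_nonneg_left d2 (by positivity)
    have c3 : 4 * (S * Δ / M ^ 3) ≤ ε / 6 * (S * Δ / M ^ 2) := by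
      have : S * Δ / M ^ 3 = S * Δ / M ^ 2 * (1 / M) := by rw [pow_succ M 2]; field_simp
      rw [this]
      have d1 : 0 ≤ S * Δ / M ^ 2 := by positivity
      have d2 := mul_le_mul_of_nonneg_left e5 d1
      linarith
    have c4 : S * Δ * (1 + ε / 8) * (1 + ε / 2) / M ^ 2 = (1 + ε / 8) * (1 + ε / 2) * (S * Δ / M ^ 2) := by ring
    rw [c4] at c2
    have c6 : 0 ≤ S * Δ / M ^ 2 := by positivity
    have c5 := mul_le_mul_of_nonneg_right (num1 ε hε hε1).2 c6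
    linarith

/-- the numbers of Goldbach pairs in all windows -/
theorem win_count (ε : ℝ) (hε : 0 < ε) (A W : ℕ) : ∃ X0 : ℕ, ∀ X : ℕ, X0 ≤ X → ∀ m : ℕ, m ≤ X →
    (X : ℝ) / Real.log X ^ W ≤ m → GoodG (A + W + 4) X m → ∀ y₁ y₂ : ℕ, y₁ < y₂ → y₂ ≤ m →
    (m : ℝ) / Real.log m ^ A ≤ (y₂ : ℝ) - y₁ →
    |(cnt m y₁ y₂ : ℝ) - sing m * ((y₂ : ℝ) - y₁) / Real.log m ^ 2| ≤ ε * (sing m * ((y₂ : ℝ) - y₁) / Real.log m ^ 2) := by
  obtain ⟨X0, h⟩ := win_aux (min ε (1 / 2)) (lt_min hε (by norm_num)) (min_le_right _ _) A W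
  refine ⟨X0, fun X hX m hmX hmW hG y₁ y₂ h12 hy2 hΔ => ?_⟩
  refine (h X hX m hmX hmW hG y₁ y₂ h12 hy2 hΔ).trans ?_
  apply mul_le_mul_of_nonneg_right (min_le_left _ _)
  have h1 := one_le_sing m
  have h2 : (0 : ℝ) ≤ (y₂ : ℝ) - y₁ := by
    have : (y₁ : ℝ) ≤ y₂ := by exact_mod_cast h12.le
    linarith
  positivity

end Pool.Agent.W93.PG
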