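import Pool.Agent.W93.PG5

set_option autoImplicit false

/-! Goldbach pairs in windows for integers with random digits. -/

namespace Pool.Agent.W93.PG
open Finset
open Pool.Agent.H373R2.T7
open Pool.Agent.H560R3.GB (sing)
open Pool.Agent.W93.DG
open Pool.Agent.W93.GB
open Pool.Agent.W93.RD (Str pw val pw_nonneg val_le)

/-- the numbers of Goldbach pairs in all windows are as predicted -/
def WinP (ε : ℝ) (A m : ℕ) : Prop :=
  ∀ y₁ y₂ : ℕ, y₁ < y₂ → y₂ ≤ m → (m : ℝ) / Real.log m ^ A ≤ (y₂ : ℝ) - y₁ →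
    |(cnt m y₁ y₂ : ℝ) - sing m * ((y₂ : ℝ) - y₁) / Real.log m ^ 2| ≤ ε * (sing m * ((y₂ : ℝ) - y₁) / Real.log m ^ 2)

theorem pg_windows (b H B A U m₀ : ℕ) (hb : 2 ≤ b) (η ε : ℝ) (hη : 0 < η) (hε : 0 < ε) (P : ℕ → Prop)
    (hP : ∀ m : ℕ, m₀ ≤ m → 2 ∣ m → WinP ε A m → P m) : ∃ k₀ : ℕ, ∀ k : ℕ, k₀ ≤ k →
    ∀ w : ℕ → ℕ → ℝ, (∀ j < k, ∀ a, 0 ≤ w j a) → (∀ j < k, ∀ a, w j a ≤ 1 - η) → (∀ j < k, ∑ a ∈ range H, w j a = 1) →
    ∀ c : ℤ, |c| ≤ B * (b : ℤ) ^ k → ∀ bad : (Fin k → ℕ) → Prop, ∀ _hdec : DecidablePred bad,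
    (∀ d ∈ Str H k, bad d → 0 < c + (val b d : ℤ) ∧ 2 ∣ c + (val b d : ℤ) ∧ ¬ P (c + (val b d : ℤ)).toNat) →
    ∑ d ∈ Str H k, (if bad d then pw w d else 0) ≤ 1 / (k : ℝ) ^ U := by
  classical
  rcases lt_or_ge 1 η with hη1 | hη1
  · refine ⟨1, fun k hk w hw0 hw1 _ c _ bad _ _ => ?_⟩
    exfalso
    have := hw0 0 (by omega) 0
    have := hw1 0 (by omega) 0
    linarith
  obtain ⟨W, k1, h1⟩ := small_prob b H (B + H + 1) (U + 1) hb η hη hη1
  obtain ⟨k2, h2⟩ := pg_final b H B (A + W + 4) (U + 1) hb η hη hη1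
  obtain ⟨X0, h3⟩ := win_count ε hε A W
  obtain ⟨n4, h4⟩ := ev_log' W 1
  refine ⟨k1 + k2 + X0 + n4 + m₀ ^ 2 + 4, fun k hk w hw0 hw1 hsum c hc bad hdec hbad => ?_⟩
  obtain ⟨X, hX⟩ : ∃ X, X = b ^ (k + (B + H + 1)) := ⟨_, rfl⟩
  have hkX : k < X := by
    rw [hX]
    calc k < b ^ k := Nat.lt_pow_self (by omega)
      _ ≤ b ^ (k + (B + H + 1)) := Nat.pow_le_pow_right (by omega) (by omega)
  have hX3 : (3 : ℝ) ≤ X := by exact_mod_cast (by omega : 3 ≤ X)
  have hX0 : (0 : ℝ) < X := by linarith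
  obtain ⟨L, hL⟩ : ∃ L, L = Real.log (X : ℝ) := ⟨_, rfl⟩
  have hL1 : 1 ≤ L := by
    rw [hL, Real.le_log_iff_exp_le hX0]
    have := Real.exp_one_lt_d9
    linarith
  have a4 := h4 X (by omega)
  rw [one_mul, ← hL] at a4
  have hss : √(X : ℝ) * √(X : ℝ) = X := Real.mul_self_sqrt hX0.le
  have hs0 : 0 < √(X : ℝ) := Real.sqrt_pos.2 hX0
  have g1 := h1 k (by omega) w hw0 hw1 hsum c (fun d => 1 ≤ c + (val b d : ℤ) ∧
      ((c + (val b d : ℤ) : ℤ) : ℝ) < ((b ^ (k + (B + H + 1)) : ℕ) : ℝ) / Real.log ((b ^ (k + (B + H + 1)) : ℕ) : ℝ) ^ W) (Classical.decPred _)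
      (fun d _ h => h)
  have g2 := h2 k (by omega) w hw0 hw1 hsum c hc (fun d => 0 < c + (val b d : ℤ) ∧ 2 ∣ c + (val b d : ℤ) ∧
      ¬ GoodG (A + W + 4) (b ^ (k + (B + H + 1))) (c + (val b d : ℤ)).toNat) (Classical.decPred _) (fun d _ h => h)
  rw [← hX, ← hL] at g1
  rw [← hX] at g2
  have hbr : (1 : ℝ) ≤ b := by exact_mod_cast (by omega : 1 ≤ b)
  have hpt : ∀ d ∈ Str H k, (if bad d then pw w d else 0) ≤
      (if (1 ≤ c + (val b d : ℤ) ∧ ((c + (val b d : ℤ) : ℤ) : ℝ) < (X : ℝ) / L ^ W) then pw w d else 0) +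
      (if (0 < c + (val b d : ℤ) ∧ 2 ∣ c + (val b d : ℤ) ∧ ¬ GoodG (A + W + 4) X (c + (val b d : ℤ)).toNat) then pw w d else 0) := by
    intro d hd
    have hp := pw_nonneg (H := H) w hw0 d
    have hn : ∀ Q : Prop, ∀ _ : Decidable Q, 0 ≤ (if Q then pw w d else 0) := by
      intro Q _
      split_ifs
      · exact hp
      · exact le_rfl
    by_cases hB : bad d
    swap
    · rw [if_neg hB]
      exact add_nonneg (hn _ _) (hn _ _)
    rw [if_pos hB]
    obtain ⟨c1, c2, c3⟩ := hbad d hd hB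
    by_cases hA : (1 ≤ c + (val b d : ℤ) ∧ ((c + (val b d : ℤ) : ℤ) : ℝ) < (X : ℝ) / L ^ W)
    · rw [if_pos hA]
      linarith [hn (0 < c + (val b d : ℤ) ∧ 2 ∣ c + (val b d : ℤ) ∧ ¬ GoodG (A + W + 4) X (c + (val b d : ℤ)).toNat) inferInstance]
    · by_cases hC : (0 < c + (val b d : ℤ) ∧ 2 ∣ c + (val b d : ℤ) ∧ ¬ GoodG (A + W + 4) X (c + (val b d : ℤ)).toNat)
      · rw [if_pos hC]
        linarith [hn (1 ≤ c + (val b d : ℤ) ∧ ((c + (val b d : ℤ) : ℤ) : ℝ) < (X : ℝ) / L ^ W) inferInstance]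
      · exfalso
        apply c3
        obtain ⟨m, hm⟩ : ∃ m : ℕ, (m : ℤ) = c + (val b d : ℤ) := ⟨(c + (val b d : ℤ)).toNat, by omega⟩
        rw [← hm, Int.toNat_natCast] at hC
        rw [← hm] at c1 c2 hA ⊢
        rw [Int.toNat_natCast]
        have hm2 : 2 ∣ m := by exact_mod_cast c2
        have hGood : GoodG (A + W + 4) X m := by
          by_contra hcon
          exact hC ⟨c1, c2, hcon⟩
        have hmW : (X : ℝ) / L ^ W ≤ m := by
          by_contra hcon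
          push Not at hcon
          apply hA
          refine ⟨by omega, ?_⟩
          push_cast
          exact hcon
        have hmX : m ≤ X := by
          have e1 : (val b d : ℤ) ≤ H * (b : ℤ) ^ k := by exact_mod_cast val_le b H k hb d hd
          have e2 : c ≤ B * (b : ℤ) ^ k := (le_abs_self c).trans hc
          have e3 : (m : ℤ) ≤ ((B + H : ℕ) : ℤ) * (b : ℤ) ^ k := by rw [hm]; push_cast; linarith
          have e4 : m ≤ (B + H) * b ^ k := by exact_mod_cast e3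
          refine e4.trans ?_
          rw [hX, add_comm k, pow_add]
          apply Nat.mul_le_mul_right
          have : B + H < b ^ (B + H) := Nat.lt_pow_self (by omega)
          refine this.le.trans ?_
          exact Nat.pow_le_pow_right (by omega) (by omega)
        have hmsq : √(X : ℝ) ≤ m := by
          refine le_trans ?_ hmW
          rw [le_div_iff₀ (by positivity)]
          calc √(X : ℝ) * L ^ W ≤ √(X : ℝ) * √(X : ℝ) := mul_le_mul_of_nonneg_left a4 hs0.le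
            _ = X := hss
        have hmm : m₀ ≤ m := by
          have h5 : ((m₀ : ℕ) : ℝ) ≤ √(X : ℝ) := by
            apply Real.le_sqrt_of_sq_le
            exact_mod_cast (by omega : m₀ ^ 2 ≤ X)
          exact_mod_cast h5.trans hmsq
        apply hP m hmm hm2
        intro y₁ y₂ h12 hy2 hΔ
        exact h3 X (by omega) m hmX (by rw [← hL]; exact hmW) hGood y₁ y₂ h12 hy2 hΔ
  refine (sum_le_sum hpt).trans ?_
  rw [sum_add_distrib]
  have hk0 : (2 : ℝ) ≤ k := by exact_mod_cast (by omega : 2 ≤ k)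
  have e : 1 / (k : ℝ) ^ (U + 1) + 1 / (k : ℝ) ^ (U + 1) ≤ 1 / (k : ℝ) ^ U := by
    rw [← two_mul, mul_one_div, div_le_div_iff₀ (by positivity) (by positivity), pow_succ]
    have : 0 < (k : ℝ) ^ U := by positivity
    nlinarith
  refine le_trans (add_le_add ?_ ?_) e
  · refine le_trans (le_of_eq ?_) g1
    apply sum_congr rfl
    intro d _
    congr
  · refine le_trans (le_of_eq ?_) g2
    apply sum_congr rfl
    intro d _
    congr

end Pool.Agent.W93.PG
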