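import Pool.Agent.W93.PG6
import Mathlib.NumberTheory.PrimeCounting

set_option autoImplicit false

/-! Goldbach pairs in primorial intervals. -/

namespace Pool.Agent.W93.PG
open Finset
open Pool.Agent.H373R2.T7
open Pool.Agent.H560R3.GB (sing)
open Pool.Agent.W93.GB

/-- the product of the first `n` primes -/
noncomputable def PR (n : ℕ) : ℕ := ∏ i ∈ range n, Nat.nth Nat.Prime i

lemma PR_pos (n : ℕ) : 0 < PR n := prod_pos fun i _ => (Nat.prime_nth_prime i).pos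

lemma PR_succ (n : ℕ) : PR (n + 1) = PR n * Nat.nth Nat.Prime n := by
  unfold PR
  rw [prod_range_succ]

lemma PR_mono {n m : ℕ} (h : n ≤ m) : PR n ≤ PR m := by
  induction m, h using Nat.le_induction with
  | base => exact le_rfl
  | succ m _ ih =>
    rw [PR_succ]
    exact ih.trans (Nat.le_mul_of_pos_right _ (Nat.prime_nth_prime m).pos)

lemma log_PR (n : ℕ) : Real.log (PR n) = ∑ p ∈ (range (Nat.nth Nat.Prime n)).filter Nat.Prime, Real.log p := by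
  induction n with
  | zero =>
    unfold PR
    rw [range_zero, prod_empty, Nat.cast_one, Real.log_one, Nat.nth_prime_zero_eq_two]
    symm
    apply sum_eq_zero
    intro p hp
    rw [mem_filter, mem_range] at hp
    have := hp.2.two_le
    omega
  | succ n ih =>
    rw [PR_succ, Nat.cast_mul, Real.log_mul (by exact_mod_cast (PR_pos n).ne') (by exact_mod_cast (Nat.prime_nth_prime n).ne_zero), ih,
      Nat.filter_range_nth_eq_insert_of_infinite Nat.infinite_setOfPred_prime, sum_insert (by simp)]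
    ring

lemma theta_ge : ∃ N0 : ℕ, ∀ N : ℕ, N0 ≤ N → (N : ℝ) / 4 ≤ ∑ p ∈ (range (N + 1)).filter Nat.Prime, Real.log p := by
  obtain ⟨C, N1, hC, h1⟩ := pnt_lam 1
  obtain ⟨n2, h2⟩ := ev_L' (8 * C + 1)
  obtain ⟨n3, h3⟩ := ev_log' 2 1
  obtain ⟨n4, h4⟩ := ev_L' 32
  refine ⟨N1 + n2 + n3 + n4 + 64, fun N hN => ?_⟩
  have a1 := h1 N (by omega)
  have a2 := h2 N (by omega)
  have a3 := h3 N (by omega)
  have a4 := h4 N (by omega)
  rw [one_mul] at a3
  rw [pow_one] at a1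
  have hNr : (64 : ℝ) ≤ N := by exact_mod_cast (by omega : 64 ≤ N)
  have hN0 : (0 : ℝ) < N := by linarith
  obtain ⟨L, hL⟩ : ∃ L, L = Real.log (N : ℝ) := ⟨_, rfl⟩
  rw [← hL] at a1 a2 a3 a4
  have hL0 : 0 < L := by linarith
  have hss : √(N : ℝ) * √(N : ℝ) = N := Real.mul_self_sqrt hN0.le
  have hs0 : 0 < √(N : ℝ) := Real.sqrt_pos.2 hN0
  have b1 : C * (N / L) ≤ N / 8 := by
    rw [mul_div_assoc', div_le_div_iff₀ hL0 (by norm_num)]
    nlinarith
  have b2 : 2 * √(N : ℝ) * L ≤ N / 16 := by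
    have : 32 * L ≤ √(N : ℝ) := by nlinarith
    nlinarith
  have b3 := sum_pp N (by omega)
  rw [← hL] at b3
  have e1 : ∑ b ∈ Icc 1 N, pp b = lam1 N - ∑ b ∈ Icc 1 N, lamP (b : ℤ) := by
    unfold lam1
    rw [← sum_sub_distrib]
    rfl
  rw [e1] at b3
  have e2 : ∑ b ∈ Icc 1 N, lamP (b : ℤ) = ∑ p ∈ (range (N + 1)).filter Nat.Prime, Real.log p := by
    rw [sum_filter]
    symm
    have h5 : Icc 1 N ⊆ range (N + 1) := by
      intro n hn
      rw [mem_Icc] at hn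
      rw [mem_range]
      omega
    rw [← sum_subset h5]
    · apply sum_congr rfl
      intro n _
      unfold lamP
      rw [Int.toNat_natCast]
    · intro n hn hn'
      rw [mem_range] at hn
      rw [mem_Icc] at hn'
      have : n = 0 := by omega
      rw [this]
      simp
  rw [e2] at b3
  rw [abs_le] at a1
  linarith [a1.1]

/-- the next prime is small -/
lemma next_prime : ∃ n0 : ℕ, ∀ n : ℕ, n0 ≤ n → (Nat.nth Nat.Prime n : ℝ) ≤ 4 * Real.log (PR n) + 1 := by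
  obtain ⟨N0, h0⟩ := theta_ge
  refine ⟨N0 + 1, fun n hn => ?_⟩
  have h1 := Nat.add_two_le_nth_prime n
  obtain ⟨N, hN⟩ : ∃ N, Nat.nth Nat.Prime n = N + 1 := ⟨Nat.nth Nat.Prime n - 1, by omega⟩
  have h2 := h0 N (by omega)
  rw [log_PR, hN]
  push_cast
  linarith

/-- the primes `p` of the `n`-th interval such that `m - p` is a prime of the `n`-th or `n + 1`-st interval -/
noncomputable def reps (n m : ℕ) : ℕ :=
  ((Icc (PR (n - 1) + 1) (PR n + 1)).filter (fun p => p.Prime ∧ (m - p).Prime ∧ PR (n - 1) + 1 ≤ m - p ∧ m - p ≤ PR (n + 1) + 1)).card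

theorem reps_of_win (ε : ℝ) (hε : 0 < ε) (hε1 : ε ≤ 1) : ∃ m₀ : ℕ, ∀ m : ℕ, m₀ ≤ m → WinP (ε / 4) 2 m → ∀ n : ℕ, 1 ≤ n → PR n + 1 ≤ m →
    m ≤ PR (n + 1) + 1 → |(reps n m : ℝ) - sing m * PR n / Real.log m ^ 2| ≤ ε * (sing m * PR n / Real.log m ^ 2) := by
  obtain ⟨n0, h0⟩ := next_prime
  obtain ⟨n1, hn1⟩ := exists_nat_ge (8 / ε)
  obtain ⟨n2, h2⟩ := ev_L' 20
  refine ⟨PR (n0 + n1 + 4) + n2 + 4, fun m hm hwin n hn1' hnm hmn => ?_⟩
  have hn : n0 + n1 + 4 ≤ n := by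
    by_contra hcon
    have : PR (n + 1) ≤ PR (n0 + n1 + 4) := PR_mono (by omega)
    omega
  obtain ⟨n', hn'⟩ : ∃ n', n = n' + 1 := ⟨n - 1, by omega⟩
  obtain ⟨q, hq⟩ : ∃ q, q = PR n' := ⟨_, rfl⟩
  obtain ⟨Q, hQ⟩ : ∃ Q, Q = PR n := ⟨_, rfl⟩
  obtain ⟨p, hp⟩ : ∃ p, p = Nat.nth Nat.Prime n' := ⟨_, rfl⟩
  have hQq : Q = q * p := by rw [hQ, hn', PR_succ, ← hq, ← hp]
  have hp1 : n + 1 ≤ p := by
    have := Nat.add_two_le_nth_prime n'
    rw [hp]
    omega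
  have hnext := h0 n (by omega)
  have hPR1 : PR (n + 1) = Q * Nat.nth Nat.Prime n := by rw [PR_succ, ← hQ]
  rw [← hQ] at hnext hnm ⊢
  rw [hPR1] at hmn
  have hq0 : 0 < q := by rw [hq]; exact PR_pos _
  have hqr : (1 : ℝ) ≤ q := by exact_mod_cast hq0
  have hpr : 8 / ε ≤ p := hn1.trans (by exact_mod_cast (by omega : n1 ≤ p))
  have hpε : 8 ≤ ε * p := by rw [div_le_iff₀ hε] at hpr; linarith
  have hQr : (Q : ℝ) = q * p := by rw [hQq]; push_cast; ring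
  have hp5 : (5 : ℝ) ≤ p := by exact_mod_cast (by omega : 5 ≤ p)
  have hq2 : (q : ℝ) ≤ ε / 8 * Q := by rw [hQr]; nlinarith
  have hQ5 : (5 : ℝ) ≤ Q := by rw [hQr]; nlinarith
  have hQ0 : (0 : ℝ) < Q := by linarith
  have h1Q : 1 ≤ ε / 8 * Q := hqr.trans hq2
  have a2 := h2 m (by omega)
  obtain ⟨M, hM⟩ : ∃ M, M = Real.log (m : ℝ) := ⟨_, rfl⟩
  rw [← hM] at a2 ⊢
  have hM0 : 0 < M := by linarith
  have hm4 : (4 : ℝ) ≤ m := by exact_mod_cast (by omega : 4 ≤ m)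
  have hQm : (Q : ℝ) ≤ m := by exact_mod_cast (by omega : Q ≤ m)
  have hlogQ : Real.log Q ≤ M := by rw [hM]; exact Real.log_le_log hQ0 hQm
  have hnx : (Nat.nth Nat.Prime n : ℝ) ≤ 5 * M := by linarith
  have hmQ : (m : ℝ) ≤ 6 * M * Q := by
    have h5 : (m : ℝ) ≤ Q * Nat.nth Nat.Prime n + 1 := by exact_mod_cast hmn
    have h6 : (Q : ℝ) * Nat.nth Nat.Prime n ≤ Q * (5 * M) := mul_le_mul_of_nonneg_left hnx hQ0.le
    have h7 : 1 ≤ M * Q := by nlinarith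
    linarith
  obtain ⟨S, hS⟩ : ∃ S, S = sing m := ⟨_, rfl⟩
  have hS1 : 1 ≤ S := by rw [hS]; exact one_le_sing m
  rw [← hS]
  have hmM : (m : ℝ) / M ^ 2 ≤ Q / 2 := by
    rw [div_le_iff₀ (by positivity)]
    have : 6 * M * Q ≤ Q / 2 * M ^ 2 := by
      have : 0 ≤ M * Q * (M - 12) := by
        apply mul_nonneg (by positivity)
        linarith
      nlinarith
    linarith
  have hd1 : n - 1 = n' := by omega
  have hPQ : 0 ≤ S * Q / M ^ 2 := by positivity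
  -- lower window
  have h2q : 2 * q < Q := by
    rw [hQq]
    nlinarith
  have hw1 := hwin q (Q - q) (by omega) (by omega) (by
    rw [← hM, Nat.cast_sub (by omega)]
    have : (q : ℝ) ≤ 1 / 8 * Q := hq2.trans (by gcongr)
    linarith)
  have hw2 := hwin 0 (Q + 1) (by omega) (by omega) (by
    rw [← hM]
    push_cast
    linarith)
  rw [← hM, ← hS] at hw1 hw2
  rw [Nat.cast_sub (by omega)] at hw1
  push_cast at hw2
  have hr1 : cnt m q (Q - q) ≤ reps n m := by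
    unfold cnt reps
    apply card_le_card
    intro x hx
    rw [mem_filter, mem_Ioc] at hx
    rw [mem_filter, mem_Icc, hd1, ← hq, ← hQ, hPR1]
    refine ⟨⟨by omega, by omega⟩, hx.2.1, hx.2.2, by omega, by omega⟩
  have hr2 : reps n m ≤ cnt m 0 (Q + 1) := by
    unfold cnt reps
    apply card_le_card
    intro x hx
    rw [mem_filter, mem_Icc, ← hQ] at hx
    rw [mem_filter, mem_Ioc]
    exact ⟨⟨by omega, hx.1.2⟩, hx.2.1, hx.2.2.1⟩
  have hr1' : (cnt m q (Q - q) : ℝ) ≤ reps n m := by exact_mod_cast hr1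
  have hr2' : (reps n m : ℝ) ≤ cnt m 0 (Q + 1) := by exact_mod_cast hr2
  have hSM : 0 < S / M ^ 2 := by positivity
  rw [abs_le] at hw1 hw2 ⊢
  have e0 : S * Q / M ^ 2 = S / M ^ 2 * Q := by ring
  have e1 : S * ((Q : ℝ) - q - q) / M ^ 2 = S / M ^ 2 * (Q - 2 * q) := by ring
  have e2 : S * ((Q : ℝ) + 1 - 0) / M ^ 2 = S / M ^ 2 * (Q + 1) := by ring
  rw [e0]
  rw [e1] at hw1
  rw [e2] at hw2
  obtain ⟨s, hs⟩ : ∃ s, s = S / M ^ 2 := ⟨_, rfl⟩
  rw [← hs] at hw1 hw2 hSM ⊢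
  have f1 : (1 - ε) * Q ≤ (1 - ε / 4) * (Q - 2 * q) := by nlinarith
  have f2 : (1 + ε / 4) * ((Q : ℝ) + 1) ≤ (1 + ε) * Q := by nlinarith
  have g1 := mul_le_mul_of_nonneg_left f1 hSM.le
  have g2 := mul_le_mul_of_nonneg_left f2 hSM.le
  constructor
  · linarith [hw1.1]
  · linarith [hw2.2]

end Pool.Agent.W93.PG
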