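import Pool.Agent.W93.TD3
import Pool.Agent.W93.GB1

set_option autoImplicit false

/-! Primes `n ≡ a (mod q)` with `n + h` free of small primes. -/

namespace Pool.Agent.W93.PP
open Finset
open Pool.Agent.H373R2.T7

/-- the primes up to `z` which divide neither `q` nor `h` -/
def PS (z q h : ℕ) : Finset ℕ := (pz z).filter (fun p => ¬ p ∣ q ∧ ¬ p ∣ h)

lemma mem_PS {z q h p : ℕ} : p ∈ PS z q h ↔ (p ≤ z ∧ p.Prime) ∧ ¬ p ∣ q ∧ ¬ p ∣ h := by
  unfold PS
  rw [mem_filter, mem_pz]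

/-- the family of classes -/
noncomputable def LP (z r q a h m : ℕ) : Finset ℕ := by
  classical exact if ∃ S ⊆ PS z q h, S.card ≤ r ∧ q * ∏ p ∈ S, p = m then
    (range m).filter (fun c => c ≡ a [MOD q] ∧ (m / q) ∣ c + h) else ∅

lemma LP_eq (z r q a h : ℕ) (hq : 1 ≤ q) (S : Finset ℕ) (hS : S ⊆ PS z q h) (hr : S.card ≤ r) :
    LP z r q a h (q * ∏ p ∈ S, p) = (range (q * ∏ p ∈ S, p)).filter (fun c => c ≡ a [MOD q] ∧ (∏ p ∈ S, p) ∣ c + h) := by
  classical
  unfold LP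
  rw [if_pos ⟨S, hS, hr, rfl⟩]
  apply filter_congr
  intro b _
  rw [Nat.mul_div_cancel_left _ (by omega)]

lemma cop_prod (q : ℕ) (S : Finset ℕ) (hS : ∀ p ∈ S, p.Prime ∧ ¬ p ∣ q) : q.Coprime (∏ p ∈ S, p) :=
  Nat.Coprime.prod_right fun p hp => ((Nat.Prime.coprime_iff_not_dvd (hS p hp).1).2 (hS p hp).2).symm

lemma LP_card (z r q a h : ℕ) (hq : 1 ≤ q) (S : Finset ℕ) (hS : S ⊆ PS z q h) (hr : S.card ≤ r) :
    (LP z r q a h (q * ∏ p ∈ S, p)).card = 1 := by
  rw [LP_eq z r q a h hq S hS hr]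
  have hSp : ∀ p ∈ S, p.Prime ∧ ¬ p ∣ q := fun p hp => ⟨(mem_PS.1 (hS hp)).1.2, (mem_PS.1 (hS hp)).2.1⟩
  obtain ⟨P, hP⟩ : ∃ P, P = ∏ p ∈ S, p := ⟨_, rfl⟩
  rw [← hP]
  have hP1 : 1 ≤ P := by rw [hP]; exact Nat.pos_of_ne_zero (prod_ne_zero_iff.2 fun p hp => (hSp p hp).1.ne_zero)
  have hcop : q.Coprime P := by rw [hP]; exact cop_prod q S hSp
  rw [card_eq_one]
  obtain ⟨c, hc⟩ := Nat.chineseRemainder hcop a ((P - 1) * h)
  refine ⟨c % (q * P), ?_⟩
  have hm1 : c % (q * P) ≡ c [MOD q] := Nat.ModEq.of_dvd (dvd_mul_right _ _) (Nat.mod_modEq _ _)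
  have hm2 : c % (q * P) ≡ c [MOD P] := Nat.ModEq.of_dvd (dvd_mul_left _ _) (Nat.mod_modEq _ _)
  have hPh : (P - 1) * h + h ≡ 0 [MOD P] := by
    have : (P - 1) * h + h = P * h := by
      obtain ⟨P', rfl⟩ : ∃ P', P = P' + 1 := ⟨P - 1, by omega⟩
      rw [Nat.add_sub_cancel]; ring
    rw [this]
    exact (Nat.modEq_zero_iff_dvd.2 (dvd_mul_right _ _))
  have hdv : P ∣ c % (q * P) + h := by
    apply Nat.modEq_zero_iff_dvd.1
    exact ((hm2.trans hc.2).add_right h).trans hPh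
  ext x
  rw [mem_filter, mem_range, mem_singleton]
  constructor
  · rintro ⟨h1, h2, h3⟩
    have h4 : x ≡ c % (q * P) [MOD q] := h2.trans (hc.1.symm.trans hm1.symm)
    have h5 : x ≡ c % (q * P) [MOD P] := by
      have h6 : x + h ≡ c % (q * P) + h [MOD P] :=
        (Nat.modEq_zero_iff_dvd.2 h3).trans (Nat.modEq_zero_iff_dvd.2 hdv).symm
      exact Nat.ModEq.add_right_cancel' h h6
    have h6 : x ≡ c % (q * P) [MOD (q * P)] := (Nat.modEq_and_modEq_iff_modEq_mul hcop).1 ⟨h4, h5⟩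
    have h7 := h6
    unfold Nat.ModEq at h7
    rwa [Nat.mod_eq_of_lt h1, Nat.mod_mod] at h7
  · rintro rfl
    exact ⟨Nat.mod_lt _ (Nat.mul_pos (by omega) (by omega)), hm1.trans hc.1, hdv⟩

lemma LP_fam (z r q a h : ℕ) (hq : 1 ≤ q) (ha : Nat.Coprime a q) : H343E.Fam 1 (LP z r q a h) := by
  classical
  constructor
  · intro m c hc
    by_cases hex : ∃ S ⊆ PS z q h, S.card ≤ r ∧ q * ∏ p ∈ S, p = m
    · obtain ⟨S, hS, hr, rfl⟩ := hex
      rw [LP_eq z r q a h hq S hS hr, mem_filter, mem_range] at hc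
      refine ⟨hc.1, ?_⟩
      have h1 : Nat.Coprime c q := by
        have := hc.2.1.gcd_eq
        unfold Nat.Coprime at ha ⊢
        rw [this, ha]
      apply Nat.Coprime.mul_right h1
      apply Nat.Coprime.prod_right
      intro p hp
      have h2 := mem_PS.1 (hS hp)
      apply Nat.Coprime.symm
      rw [Nat.Prime.coprime_iff_not_dvd h2.1.2]
      intro h3
      apply h2.2.2
      have h4 : p ∣ c + h := (dvd_prod_of_mem _ hp).trans hc.2.2
      exact (Nat.dvd_add_right h3).1 h4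
    · unfold LP at hc
      rw [if_neg hex] at hc
      simp at hc
  · intro m
    by_cases hex : ∃ S ⊆ PS z q h, S.card ≤ r ∧ q * ∏ p ∈ S, p = m
    · obtain ⟨S, hS, hr, rfl⟩ := hex
      rw [LP_card z r q a h hq S hS hr]
      norm_num
    · unfold LP
      rw [if_neg hex]
      simp

/-- the error terms -/
noncomputable def EP (N z r q a h m : ℕ) : ℝ := ∑ c ∈ LP z r q a h m, |lamAP N m c - lam1 N / (Nat.totient m : ℝ)|

lemma EP_nonneg (N z r q a h m : ℕ) : 0 ≤ EP N z r q a h m := sum_nonneg fun _ _ => abs_nonneg _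

theorem ap_sieve (N z r q a h : ℕ) (hq : 1 ≤ q) :
    |∑ n ∈ ((Icc 1 N).filter (fun n : ℕ => n ≡ a [MOD q])).filter (fun n : ℕ => ∀ p ∈ PS z q h, ¬ p ∣ n + h),
        ArithmeticFunction.vonMangoldt n - (lam1 N / (Nat.totient q : ℝ)) * ∏ p ∈ PS z q h, (1 - 1 / (p - 1 : ℝ))| ≤
      ∑ m ∈ Icc 1 (q * (z + 1) ^ r), EP N z r q a h m +
      2 * lam1 N * Real.exp (3 * ((2 : ℕ) * (1 + Real.log z)) - r) := by
  classical
  have hψ : 0 ≤ lam1 N := sum_nonneg fun _ _ => ArithmeticFunction.vonMangoldt_nonneg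
  have hφ : 1 ≤ (Nat.totient q : ℝ) := by exact_mod_cast Nat.totient_pos.2 (by omega)
  have hX : 0 ≤ lam1 N / (Nat.totient q : ℝ) := div_nonneg hψ (by linarith)
  have hX1 : lam1 N / (Nat.totient q : ℝ) ≤ lam1 N := div_le_self hψ hφ
  have hpg : ∀ p ∈ PS z q h, 0 ≤ 1 / ((p : ℝ) - 1) ∧ 1 / ((p : ℝ) - 1) ≤ 1 := by
    intro p hp
    have hp2 : (2 : ℝ) ≤ p := by exact_mod_cast (mem_PS.1 hp).1.2.two_le
    constructor
    · apply div_nonneg zero_le_one; linarith
    · rw [div_le_one (by linarith)]; linarith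
  have key := sieve_gen' ((Icc 1 N).filter (fun n : ℕ => n ≡ a [MOD q])) (fun n => ArithmeticFunction.vonMangoldt n)
    (fun _ _ => ArithmeticFunction.vonMangoldt_nonneg) (fun p n => p ∣ n + h) (PS z q h)
    (fun p => 1 / ((p : ℝ) - 1)) hpg (lam1 N / (Nat.totient q : ℝ)) hX
    (fun S => EP N z r q a h (q * ∏ p ∈ S, p)) r (by
      intro S hS hr
      have hSp : ∀ p ∈ S, p.Prime ∧ ¬ p ∣ q := fun p hp => ⟨(mem_PS.1 (hS hp)).1.2, (mem_PS.1 (hS hp)).2.1⟩
      have hcard := LP_card z r q a h hq S hS hr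
      have hLPe := LP_eq z r q a h hq S hS hr
      have hcop : q.Coprime (∏ p ∈ S, p) := cop_prod q S hSp
      have hP1 : 1 ≤ ∏ p ∈ S, p := Nat.pos_of_ne_zero (prod_ne_zero_iff.2 fun p hp => (hSp p hp).1.ne_zero)
      have hall : ∀ n : ℕ, (∀ p ∈ S, p ∣ n + h) ↔ (∏ p ∈ S, p) ∣ n + h := by
        intro n
        constructor
        · intro hh
          exact Finset.prod_primes_dvd _ (fun p hp => (hSp p hp).1.prime) hh
        · intro hh p hp
          exact (dvd_prod_of_mem _ hp).trans hh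
      have e1 : ∑ i ∈ ((Icc 1 N).filter (fun n : ℕ => n ≡ a [MOD q])).filter (fun i => ∀ p ∈ S, p ∣ i + h), ArithmeticFunction.vonMangoldt i =
          ∑ c ∈ LP z r q a h (q * ∏ p ∈ S, p), lamAP N (q * ∏ p ∈ S, p) c := by
        rw [← sum_fiberwise_of_maps_to (t := LP z r q a h (q * ∏ p ∈ S, p)) (g := fun n => n % (q * ∏ p ∈ S, p))]
        · apply sum_congr rfl
          intro c hc
          rw [hLPe, mem_filter, mem_range] at hc
          unfold lamAP
          apply sum_congr _ (fun _ _ => rfl)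
          ext n
          simp only [mem_filter]
          constructor
          · rintro ⟨⟨⟨h1, h2⟩, h3⟩, h4⟩
            refine ⟨h1, ?_⟩
            unfold Nat.ModEq
            rw [h4, Nat.mod_eq_of_lt hc.1]
          · rintro ⟨h1, h2⟩
            have h2' : n % (q * ∏ p ∈ S, p) = c := by
              have := h2
              unfold Nat.ModEq at this
              rwa [Nat.mod_eq_of_lt hc.1] at this
            refine ⟨⟨⟨h1, (Nat.ModEq.of_dvd (dvd_mul_right _ _) h2).trans hc.2.1⟩, (hall n).2 ?_⟩, h2'⟩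
            have h3 : n + h ≡ c + h [MOD ∏ p ∈ S, p] := (Nat.ModEq.of_dvd (dvd_mul_left _ _) h2).add_right h
            exact Nat.modEq_zero_iff_dvd.1 (h3.trans (Nat.modEq_zero_iff_dvd.2 hc.2.2))
        · intro n hn
          rw [mem_filter, mem_filter] at hn
          rw [hLPe, mem_filter, mem_range]
          have hmod : n % (q * ∏ p ∈ S, p) ≡ n [MOD (q * ∏ p ∈ S, p)] := Nat.mod_modEq _ _
          refine ⟨Nat.mod_lt _ (Nat.mul_pos (by omega) hP1), (Nat.ModEq.of_dvd (dvd_mul_right _ _) hmod).trans hn.1.2, ?_⟩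
          have h3 : n % (q * ∏ p ∈ S, p) + h ≡ n + h [MOD ∏ p ∈ S, p] := (Nat.ModEq.of_dvd (dvd_mul_left _ _) hmod).add_right h
          exact Nat.modEq_zero_iff_dvd.1 (h3.trans (Nat.modEq_zero_iff_dvd.2 ((hall n).1 hn.2)))
      have e2 : lam1 N / (Nat.totient q : ℝ) * ∏ p ∈ S, 1 / ((p : ℝ) - 1) =
          ∑ c ∈ LP z r q a h (q * ∏ p ∈ S, p), lam1 N / (Nat.totient (q * ∏ p ∈ S, p) : ℝ) := by
        rw [sum_const, nsmul_eq_mul, hcard, Nat.cast_one, one_mul, Nat.totient_mul hcop,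
          totient_prod S (fun p hp => (hSp p hp).1)]
        push_cast
        have h3 : ∏ p ∈ S, ((p - 1 : ℕ) : ℝ) = ∏ p ∈ S, ((p : ℝ) - 1) := by
          apply prod_congr rfl
          intro p hp
          rw [Nat.cast_sub (hSp p hp).1.one_le]
          push_cast
          ring
        rw [h3, prod_div_distrib, prod_const_one, div_mul_div_comm, mul_one]
      rw [e1, e2, ← sum_sub_distrib]
      exact abs_sum_le_sum_abs _ _)
  refine key.trans ?_
  apply add_le_add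
  · have h1 : ∑ j ∈ range (r + 1), ∑ S ∈ (PS z q h).powersetCard j, EP N z r q a h (q * ∏ p ∈ S, p) ≤
        ∑ j ∈ range (r + 1), ∑ S ∈ (pz z).powersetCard j, EP N z r q a h (q * ∏ p ∈ S, p) := by
      apply sum_le_sum
      intro j _
      apply sum_le_sum_of_subset_of_nonneg
      · exact powersetCard_mono (filter_subset _ _)
      · intro S _ _
        exact EP_nonneg _ _ _ _ _ _ _
    refine h1.trans ?_
    have h2 := sum_small_le z r (fun d => EP N z r q a h (q * d)) (fun d => EP_nonneg N z r q a h (q * d))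
    refine h2.trans ?_
    rw [← sum_image (s := Icc 1 ((z + 1) ^ r)) (g := fun d => q * d) (f := fun m => EP N z r q a h m)]
    · apply sum_le_sum_of_subset_of_nonneg
      · intro m hm
        rw [mem_image] at hm
        obtain ⟨d, hd, rfl⟩ := hm
        rw [mem_Icc] at hd ⊢
        exact ⟨Nat.mul_pos (by omega) (by omega), Nat.mul_le_mul_left _ hd.2⟩
      · intro m _ _
        exact EP_nonneg _ _ _ _ _ _ _
    · intro x _ y _ hxy
      exact Nat.eq_of_mul_eq_mul_left (by omega) hxy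
  · have h5 : es (fun p => 1 / ((p : ℝ) - 1)) (PS z q h) r ≤ Real.exp (3 * ((2 : ℕ) * (1 + Real.log z)) - r) := by
      refine (es_le (fun p hp => (hpg p hp).1) r).trans ?_
      apply Real.exp_le_exp.2
      have hg : ∀ p ∈ PS z q h, 1 / ((p : ℝ) - 1) ≤ (2 : ℕ) * (1 / (p : ℝ)) := by
        intro p hp
        have hp2 : (2 : ℝ) ≤ p := by exact_mod_cast (mem_PS.1 hp).1.2.two_le
        rw [mul_one_div, div_le_div_iff₀ (by linarith) (by linarith)]
        push_cast
        nlinarith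
      have h6 := sum_le_sum hg
      rw [← mul_sum] at h6
      have h7 : ∑ p ∈ PS z q h, 1 / (p : ℝ) ≤ ∑ p ∈ pz z, 1 / (p : ℝ) :=
        sum_le_sum_of_subset_of_nonneg (filter_subset _ _) fun _ _ _ => by positivity
      have h8 : ((2 : ℕ) : ℝ) * ∑ p ∈ PS z q h, 1 / (p : ℝ) ≤ ((2 : ℕ) : ℝ) * (1 + Real.log z) :=
        mul_le_mul_of_nonneg_left (h7.trans (sum_pz_le z)) (Nat.cast_nonneg _)
      linarith
    have h9 : 0 ≤ es (fun p => 1 / ((p : ℝ) - 1)) (PS z q h) r := by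
      unfold es
      apply sum_nonneg
      intro S hS
      apply prod_nonneg
      intro p hp
      exact (hpg p ((mem_powersetCard.1 hS).1 hp)).1
    calc 2 * (lam1 N / (Nat.totient q : ℝ)) * es (fun p => 1 / ((p : ℝ) - 1)) (PS z q h) r
        ≤ 2 * lam1 N * es (fun p => 1 / ((p : ℝ) - 1)) (PS z q h) r := by
          apply mul_le_mul_of_nonneg_right _ h9
          linarith
      _ ≤ _ := mul_le_mul_of_nonneg_left h5 (by positivity)

end Pool.Agent.W93.PP
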