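import Pool.Agent.W93.PP1

set_option autoImplicit false

/-! The main term, with an error term saving any power of the logarithm. -/

namespace Pool.Agent.W93.PP
open Finset
open Pool.Agent.H373R2.T7

/-- the main term -/
noncomputable def MT (z q h : ℕ) : ℝ := (Vz z)⁻¹ / (Nat.totient q : ℝ) * ∏ p ∈ PS z q h, (1 - 1 / (p - 1 : ℝ))

lemma choose_two (E U : ℕ) : ∃ N0 : ℕ, ∀ N : ℕ, N0 ≤ N → ∀ z : ℕ, (z : ℝ) ≤ Real.log N ^ E →
    ∃ r : ℕ, Real.exp (3 * ((2 : ℕ) * (1 + Real.log z)) - r) ≤ 1 / Real.log N ^ U ∧ (((z + 1) ^ r) ^ 4 : ℝ) ≤ N := by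
  obtain ⟨N0, h0⟩ := choice 2 E U 4
  refine ⟨N0, fun N hN z hz => ?_⟩
  obtain ⟨r, h1, h2, _⟩ := h0 N hN z hz
  exact ⟨r, by push_cast at h1 ⊢; exact h1, h2⟩

lemma diff_count (N z q a h : ℕ) (hh : Nat.Coprime (a + h) q) :
    |∑ n ∈ ((Icc 1 N).filter (fun n : ℕ => n ≡ a [MOD q])).filter (fun n : ℕ => ∀ p ∈ pz z, ¬ p ∣ n + h), ArithmeticFunction.vonMangoldt n -
      ∑ n ∈ ((Icc 1 N).filter (fun n : ℕ => n ≡ a [MOD q])).filter (fun n : ℕ => ∀ p ∈ PS z q h, ¬ p ∣ n + h),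
        ArithmeticFunction.vonMangoldt n| ≤ z * ((Nat.log 2 N + 1 : ℝ) * Real.log N) := by
  classical
  have hlN : 0 ≤ (Nat.log 2 N + 1 : ℝ) * Real.log N := by
    have := Real.log_natCast_nonneg N
    positivity
  rw [filter_filter, filter_filter, sum_filter, sum_filter, ← sum_sub_distrib]
  refine (abs_sum_le_sum_abs _ _).trans ?_
  have h7 : ∀ n ∈ Icc 1 N, |(if n ≡ a [MOD q] ∧ (∀ p ∈ pz z, ¬ p ∣ n + h) then ArithmeticFunction.vonMangoldt n else 0) -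
      (if n ≡ a [MOD q] ∧ (∀ p ∈ PS z q h, ¬ p ∣ n + h) then ArithmeticFunction.vonMangoldt n else 0)| ≤
      ∑ p ∈ pz z, if p ∣ n then ArithmeticFunction.vonMangoldt n else 0 := by
    intro n _
    have h8 : (0 : ℝ) ≤ ArithmeticFunction.vonMangoldt n := ArithmeticFunction.vonMangoldt_nonneg
    have h9 : 0 ≤ ∑ p ∈ pz z, if p ∣ n then ArithmeticFunction.vonMangoldt n else 0 :=
      sum_nonneg fun p _ => by split_ifs <;> simp [h8]
    by_cases h10 : n ≡ a [MOD q] ∧ (∀ p ∈ pz z, ¬ p ∣ n + h)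
    · rw [if_pos h10, if_pos ⟨h10.1, fun p hp => h10.2 p (mem_filter.1 hp).1⟩, sub_self, abs_zero]
      exact h9
    · rw [if_neg h10, zero_sub, abs_neg]
      by_cases h11 : n ≡ a [MOD q] ∧ (∀ p ∈ PS z q h, ¬ p ∣ n + h)
      · rw [if_pos h11, abs_of_nonneg h8]
        have h12 : ∃ p ∈ pz z, p ∣ n + h := by
          by_contra hcon
          push Not at hcon
          exact h10 ⟨h11.1, hcon⟩
        obtain ⟨p, hp, hpn⟩ := h12
        have hpp := (mem_pz.1 hp).2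
        have h13 : p ∣ n := by
          by_cases h14 : p ∣ q
          · exfalso
            have h15 : a + h ≡ n + h [MOD p] := (Nat.ModEq.of_dvd h14 h11.1.symm).add_right h
            have h16 : p ∣ a + h := Nat.modEq_zero_iff_dvd.1 (h15.trans (Nat.modEq_zero_iff_dvd.2 hpn))
            have h17 := Nat.dvd_gcd h16 h14
            rw [hh] at h17
            exact hpp.one_lt.ne' (Nat.dvd_one.1 h17)
          · by_cases h15 : p ∣ h
            · exact (Nat.dvd_add_left h15).1 hpn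
            · exact absurd hpn (h11.2 p (mem_PS.2 ⟨mem_pz.1 hp, h14, h15⟩))
        have h14 := single_le_sum (f := fun p => if p ∣ n then ArithmeticFunction.vonMangoldt n else (0 : ℝ))
          (s := pz z) (fun p _ => by split_ifs <;> simp [h8]) hp
        simp only [if_pos h13] at h14
        exact h14
      · rw [if_neg h11, abs_zero]
        exact h9
  refine (sum_le_sum h7).trans ?_
  rw [sum_comm]
  have h8 : ∀ p ∈ pz z, ∑ n ∈ Icc 1 N, (if p ∣ n then ArithmeticFunction.vonMangoldt n else 0) ≤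
      (Nat.log 2 N + 1 : ℝ) * Real.log N := by
    intro p hp
    rw [← sum_filter]
    exact lam_mult_prime N p (mem_pz.1 hp).2
  refine (sum_le_sum h8).trans ?_
  rw [sum_const, nsmul_eq_mul]
  apply mul_le_mul_of_nonneg_right _ hlN
  exact_mod_cast card_pz_le z

set_option maxHeartbeats 1000000 in
theorem ap_main (E U : ℕ) : ∃ N0 : ℕ, ∀ N : ℕ, N0 ≤ N → ∀ z : ℕ, 1 ≤ z → (z : ℝ) ≤ Real.log N ^ E →
    ∀ q a h : ℕ, 1 ≤ q → (q : ℝ) ≤ Real.log N ^ E → Nat.Coprime a q → Nat.Coprime (a + h) q →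
    |∑ n ∈ Icc 1 N, (if n ≡ a [MOD q] then ArithmeticFunction.vonMangoldt n else 0) * lamzI z ((n : ℤ) + (h : ℤ)) - MT z q h * N| ≤
      N / Real.log N ^ U := by
  obtain ⟨N0, h0⟩ := choose_two E (U + 3)
  obtain ⟨B, X0, hBV⟩ := H343E.unsmoothed (U + 3)
  obtain ⟨C, N1, hC, hpnt⟩ := pnt_lam (U + 3)
  obtain ⟨n1, h1⟩ := ev_log' (B + 2 * E + U + 8) 1
  obtain ⟨n2, h2⟩ := ev_L' (C + 40)
  obtain ⟨n3, h3⟩ := Vz_inv_small E
  refine ⟨max (max (max N0 ⌈X0⌉₊) (max N1 n1)) (max (max n2 n3) 4), fun N hN z hz hzE q a h hq hqE ha hah => ?_⟩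
  have b1 := le_trans (le_trans (le_trans (le_max_left _ _) (le_max_left _ _)) (le_max_left _ _)) hN
  have b2 := le_trans (le_trans (le_trans (le_max_right _ _) (le_max_left _ _)) (le_max_left _ _)) hN
  have b3 := le_trans (le_trans (le_trans (le_max_left _ _) (le_max_right _ _)) (le_max_left _ _)) hN
  have b4 := le_trans (le_trans (le_trans (le_max_right _ _) (le_max_right _ _)) (le_max_left _ _)) hN
  have b5 := le_trans (le_trans (le_trans (le_max_left _ _) (le_max_left _ _)) (le_max_right _ _)) hN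
  have b6 := le_trans (le_trans (le_trans (le_max_right _ _) (le_max_left _ _)) (le_max_right _ _)) hN
  have hN4 : 4 ≤ N := le_trans (le_trans (le_max_right _ _) (le_max_right _ _)) hN
  obtain ⟨r, hr1, hr2⟩ := h0 N b1 z hzE
  have hX0 : X0 ≤ (N : ℝ) := (Nat.le_ceil _).trans (by exact_mod_cast b2)
  have hP := hpnt N b3
  have a1 := h1 N b4
  have hL := h2 N b5
  have hV := h3 N b6 z hz hzE
  have hNr : (4 : ℝ) ≤ N := by exact_mod_cast hN4
  have hN0 : (0 : ℝ) < N := by linarith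
  set L := Real.log N with hLd
  have hL40 : 40 ≤ L := by linarith
  have hL0 : 0 < L := by linarith
  have hL1 : 1 ≤ L := by linarith
  rw [one_mul] at a1
  have hss : √(N : ℝ) * √(N : ℝ) = N := Real.mul_self_sqrt hN0.le
  have hs0 : 0 < √(N : ℝ) := Real.sqrt_pos.2 hN0
  obtain ⟨D, hD⟩ : ∃ D : ℕ, D = (z + 1) ^ r := ⟨_, rfl⟩
  have hD1 : 1 ≤ D := by rw [hD]; exact Nat.one_le_pow _ _ (by omega)
  have hD1r : (1 : ℝ) ≤ D := by exact_mod_cast hD1
  have hDr : (D : ℝ) = ((z : ℝ) + 1) ^ r := by rw [hD]; push_cast; ring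
  have hD2 : (D : ℝ) ^ 2 ≤ √N := by
    have h5 : ((D : ℝ) ^ 2) ^ 2 ≤ N := by rw [← pow_mul, hDr, ← pow_mul]; rw [← pow_mul] at hr2; exact hr2
    have h6 := Real.sqrt_le_sqrt h5
    rwa [Real.sqrt_sq (by positivity)] at h6
  have hq1r : (1 : ℝ) ≤ q := by exact_mod_cast hq
  have hpow : ∀ j, j ≤ B + 2 * E + U + 8 → L ^ j ≤ √(N : ℝ) := fun j hj => (pow_le_pow_right₀ hL1 hj).trans a1
  have hqD2 : (((q * D : ℕ)) : ℝ) ^ 2 ≤ N / L ^ B := by
    rw [le_div_iff₀ (by positivity)]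
    push_cast
    calc ((q : ℝ) * D) ^ 2 * L ^ B = (q : ℝ) ^ 2 * (D : ℝ) ^ 2 * L ^ B := by ring
      _ ≤ (L ^ E) ^ 2 * √N * L ^ B := by gcongr
      _ = √N * L ^ (2 * E + B) := by rw [← pow_mul, pow_add, mul_comm E 2]; ring
      _ ≤ √(N : ℝ) * √(N : ℝ) := by
          apply mul_le_mul_of_nonneg_left (hpow _ (by omega)) hs0.le
      _ = N := hss
  have hqD1 : 1 ≤ q * D := Nat.mul_pos (by omega) (by omega)
  have hqD1r : (1 : ℝ) ≤ ((q * D : ℕ) : ℝ) := by exact_mod_cast hqD1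
  have hqD : ((q * D : ℕ) : ℝ) ≤ N / L ^ B := (le_self_pow₀ hqD1r (by norm_num)).trans hqD2
  have hbv := hBV N hX0 1 le_rfl (q * D) hqD (by rw [one_mul]; exact hqD2) (LP z r q a h) (LP_fam z r q a h hq ha)
  rw [one_mul] at hbv
  have hEf : ∑ m ∈ Icc 1 (q * (z + 1) ^ r), EP N z r q a h m ≤ N / L ^ (U + 3) := by
    rw [← hD]
    refine le_trans (le_of_eq ?_) hbv
    apply sum_congr rfl
    intro d _
    unfold EP
    apply sum_congr rfl
    intro b _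
    rw [lamAP_eq, lam1_eq']
  have hsv := ap_sieve N z r q a h hq
  have hdf := diff_count N z q a h hah
  obtain ⟨c0, hc0⟩ : ∃ c0 : ℝ, c0 = z * ((Nat.log 2 N + 1 : ℝ) * Real.log N) := ⟨_, rfl⟩
  rw [← hc0] at hdf
  have hlog2 : (Nat.log 2 N : ℝ) ≤ 2 * L := natlog_le N (by omega)
  have hc0' : c0 ≤ L ^ (E + 3) := by
    rw [hc0]
    calc (z : ℝ) * ((Nat.log 2 N + 1 : ℝ) * Real.log N) ≤ L ^ E * ((2 * L + 1) * L) := by gcongr
      _ ≤ L ^ E * L ^ 3 := by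
          apply mul_le_mul_of_nonneg_left _ (by positivity)
          have h5 : 2 * L + 1 ≤ L * L := by nlinarith
          calc (2 * L + 1) * L ≤ (L * L) * L := mul_le_mul_of_nonneg_right h5 hL0.le
            _ = L ^ 3 := by ring
      _ = L ^ (E + 3) := by rw [pow_add]
  obtain ⟨P1, hP1⟩ : ∃ P1 : ℝ, P1 = ∏ p ∈ PS z q h, (1 - 1 / (p - 1 : ℝ)) := ⟨_, rfl⟩
  have hP10 : 0 ≤ P1 ∧ P1 ≤ 1 := by
    have hh : ∀ p ∈ PS z q h, 0 ≤ 1 - 1 / ((p : ℝ) - 1) ∧ 1 - 1 / ((p : ℝ) - 1) ≤ 1 := by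
      intro p hp
      have hp2 : (2 : ℝ) ≤ p := by exact_mod_cast (mem_PS.1 hp).1.2.two_le
      have h7 : 1 / ((p : ℝ) - 1) ≤ 1 := by rw [div_le_one (by linarith)]; linarith
      have h8 : 0 ≤ 1 / ((p : ℝ) - 1) := div_nonneg zero_le_one (by linarith)
      constructor <;> linarith
    rw [hP1]
    exact ⟨prod_nonneg fun p hp => (hh p hp).1, prod_le_one (fun p hp => (hh p hp).1) (fun p hp => (hh p hp).2)⟩
  have hφ : 1 ≤ (Nat.totient q : ℝ) := by exact_mod_cast Nat.totient_pos.2 (by omega)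
  rw [← hP1] at hsv
  obtain ⟨W0, hW0⟩ : ∃ W0 : ℝ, W0 = ∑ n ∈ ((Icc 1 N).filter (fun n : ℕ => n ≡ a [MOD q])).filter (fun n : ℕ => ∀ p ∈ pz z, ¬ p ∣ n + h), ArithmeticFunction.vonMangoldt n := ⟨_, rfl⟩
  obtain ⟨W1, hW1⟩ : ∃ W1 : ℝ, W1 = ∑ n ∈ ((Icc 1 N).filter (fun n : ℕ => n ≡ a [MOD q])).filter (fun n : ℕ => ∀ p ∈ PS z q h, ¬ p ∣ n + h), ArithmeticFunction.vonMangoldt n := ⟨_, rfl⟩
  rw [← hW0, ← hW1] at hdf
  rw [← hW1] at hsv
  have hsum : ∑ n ∈ Icc 1 N, (if n ≡ a [MOD q] then ArithmeticFunction.vonMangoldt n else 0) * lamzI z ((n : ℤ) + (h : ℤ)) =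
      (Vz z)⁻¹ * W0 := by
    rw [hW0, filter_filter, sum_filter, mul_sum]
    apply sum_congr rfl
    intro n hn
    rw [mem_Icc] at hn
    have h5 : lamzI z ((n : ℤ) + (h : ℤ)) = if ∀ p ∈ pz z, ¬ p ∣ n + h then (Vz z)⁻¹ else 0 := by
      unfold lamzI lamz
      rw [if_pos (by omega)]
      have : ((n : ℤ) + (h : ℤ)).toNat = n + h := by omega
      rw [this]
    rw [h5]
    by_cases h6 : n ≡ a [MOD q]
    · by_cases h7 : ∀ p ∈ pz z, ¬ p ∣ n + h
      · rw [if_pos h6, if_pos h7, if_pos ⟨h6, h7⟩, mul_comm]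
      · have h8 : ¬ (n ≡ a [MOD q] ∧ ∀ p ∈ pz z, ¬ p ∣ n + h) := fun hh => h7 hh.2
        rw [if_pos h6, if_neg h7, if_neg h8, mul_zero, mul_zero]
    · have h8 : ¬ (n ≡ a [MOD q] ∧ ∀ p ∈ pz z, ¬ p ∣ n + h) := fun hh => h6 hh.1
      rw [if_neg h6, if_neg h8, zero_mul, mul_zero]
  have hψ := lam1_le N
  have hψ0 : 0 ≤ lam1 N := sum_nonneg fun _ _ => ArithmeticFunction.vonMangoldt_nonneg
  have htot : |W0 - N / (Nat.totient q : ℝ) * P1| ≤ c0 + (N / L ^ (U + 3) + 2 * (6 * N) * (1 / L ^ (U + 3))) + (C * (N / L ^ (U + 3)) + 2) := by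
    have e : W0 - N / (Nat.totient q : ℝ) * P1 = (W0 - W1) + (W1 - lam1 N / (Nat.totient q : ℝ) * P1) + (lam1 N - N) * (P1 / (Nat.totient q : ℝ)) := by ring
    rw [e]
    refine (abs_add_le _ _).trans (add_le_add ((abs_add_le _ _).trans (add_le_add hdf ?_)) ?_)
    · refine hsv.trans ?_
      apply add_le_add hEf
      gcongr
    · have h6 : 0 ≤ P1 / (Nat.totient q : ℝ) := div_nonneg hP10.1 (by linarith)
      have h7 : P1 / (Nat.totient q : ℝ) ≤ 1 := by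
        rw [div_le_one (by linarith)]
        linarith [hP10.2]
      rw [abs_mul, abs_of_nonneg h6]
      calc |lam1 N - N| * (P1 / (Nat.totient q : ℝ)) ≤ |lam1 N - N| * 1 := mul_le_mul_of_nonneg_left h7 (abs_nonneg _)
        _ ≤ _ := by rw [mul_one]; exact hP
  obtain ⟨T, hT⟩ : ∃ T : ℝ, T = N / L ^ (U + 3) := ⟨_, rfl⟩
  have hT0 : 0 < T := by rw [hT]; positivity
  have hsT : L ^ (E + 3) ≤ T := by
    rw [hT, le_div_iff₀ (by positivity)]
    calc L ^ (E + 3) * L ^ (U + 3) = L ^ (E + 3 + (U + 3)) := by rw [← pow_add]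
      _ ≤ √(N : ℝ) := hpow _ (by omega)
      _ ≤ √(N : ℝ) * √(N : ℝ) := by
          have h6 : 1 ≤ √(N : ℝ) := (one_le_pow₀ hL1).trans (hpow 0 (by omega))
          nlinarith
      _ = N := hss
  have g5 : (2 : ℝ) ≤ 2 * T := by
    have : 1 ≤ T := (one_le_pow₀ hL1).trans hsT
    linarith
  have hfin : |W0 - N / (Nat.totient q : ℝ) * P1| ≤ (C + 16) * T := by
    refine htot.trans ?_
    have e2 : 2 * (6 * (N : ℝ)) * (1 / L ^ (U + 3)) = 12 * T := by rw [hT]; ring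
    rw [e2, ← hT]
    have := hc0'.trans hsT
    linarith
  rw [hsum]
  have e : (Vz z)⁻¹ * W0 - MT z q h * N = (Vz z)⁻¹ * (W0 - N / (Nat.totient q : ℝ) * P1) := by
    unfold MT
    rw [← hP1]
    ring
  rw [e, abs_mul, abs_of_nonneg (inv_pos.2 (Vz_pos z)).le]
  calc (Vz z)⁻¹ * |W0 - N / (Nat.totient q : ℝ) * P1| ≤ L * ((C + 16) * T) := by
        apply mul_le_mul hV hfin (abs_nonneg _) hL0.le
    _ = ((C + 16) / L) / L * (N / L ^ U) := by
        rw [hT, pow_add]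
        field_simp
    _ ≤ 1 * (N / L ^ U) := by
        apply mul_le_mul_of_nonneg_right _ (by positivity)
        rw [div_le_one (by positivity), div_le_iff₀ (by positivity)]
        nlinarith
    _ = _ := one_mul _

end Pool.Agent.W93.PP
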