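import Pool.Agent.W93.PP2

set_option autoImplicit false

/-! The singular series in progressions. -/

namespace Pool.Agent.W93.PP
open Finset
open Pool.Agent.H373R2.T7
open Pool.Agent.H560R3.GB (sing C₂)
open Pool.Agent.W93.GB

/-- the number of admissible classes -/
def Cnt (q h : ℕ) : ℕ := ((range q).filter (fun A => Nat.Coprime A q ∧ Nat.Coprime (A + h) q)).card

lemma per_card (P : ℕ → Prop) [DecidablePred P] (r : ℕ) (hP : ∀ b, P (b + r) ↔ P b) (m : ℕ) :
    ((range (m * r)).filter P).card = m * ((range r).filter P).card := by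
  induction m with
  | zero => simp
  | succ m ih =>
    have h1 : range ((m + 1) * r) = range (m * r) ∪ (range r).map (addRightEmbedding (m * r)) := by
      ext x
      simp only [mem_range, mem_union, mem_map, addRightEmbedding_apply]
      constructor
      · intro h
        by_cases h2 : x < m * r
        · exact Or.inl h2
        · right
          refine ⟨x - m * r, ?_, by omega⟩
          have : (m + 1) * r = m * r + r := by ring
          omega
      · rintro (h | ⟨y, hy, rfl⟩)
        · have : (m + 1) * r = m * r + r := by ring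
          omega
        · have : (m + 1) * r = m * r + r := by ring
          omega
    have hdis : Disjoint (range (m * r)) ((range r).map (addRightEmbedding (m * r))) := by
      rw [disjoint_left]
      intro x hx hy
      rw [mem_range] at hx
      rw [mem_map] at hy
      obtain ⟨y, _, rfl⟩ := hy
      simp only [addRightEmbedding_apply] at hx
      omega
    have hP2 : ∀ (j b : ℕ), P (b + j * r) ↔ P b := by
      intro j
      induction j with
      | zero => intro b; simp
      | succ j ihj =>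
        intro b
        have : b + (j + 1) * r = (b + j * r) + r := by ring
        rw [this, hP, ihj]
    rw [h1, filter_union, card_union_of_disjoint (disjoint_filter_filter hdis), ih, filter_map, card_map]
    have h2 : (range r).filter (P ∘ (addRightEmbedding (m * r))) = (range r).filter P := by
      apply filter_congr
      intro x _
      simp only [Function.comp, addRightEmbedding_apply]
      exact hP2 m x
    rw [h2]
    ring

lemma cnt_prime (p h : ℕ) (hp : p.Prime) :
    (((range p).filter (fun r => ¬ p ∣ r ∧ ¬ p ∣ r + h)).card : ℝ) = (p - 1) * (if p ∣ h then 1 else (1 - 1 / ((p : ℝ) - 1))) := by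
  have hp2 := hp.two_le
  have hp2r : (2 : ℝ) ≤ p := by exact_mod_cast hp2
  obtain ⟨t, ht⟩ : ∃ t, t = h % p := ⟨_, rfl⟩
  have htp : t < p := by rw [ht]; exact Nat.mod_lt _ hp.pos
  have hdt : ∀ r, p ∣ r + h ↔ p ∣ r + t := by
    intro r
    have e : r + h = (r + t) + p * (h / p) := by
      have := Nat.mod_add_div h p
      rw [ht]; omega
    rw [e]
    exact (Nat.dvd_add_iff_left (dvd_mul_right _ _)).symm
  by_cases h0 : p ∣ h
  · rw [if_pos h0, mul_one]
    have ht0 : t = 0 := by rw [ht]; exact Nat.mod_eq_zero_of_dvd h0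
    have h1 : (range p).filter (fun r => ¬ p ∣ r ∧ ¬ p ∣ r + h) = Ico 1 p := by
      ext r
      rw [mem_filter, mem_range, mem_Ico, hdt r, ht0, add_zero]
      constructor
      · rintro ⟨h1, h2, _⟩
        refine ⟨?_, h1⟩
        rcases Nat.eq_zero_or_pos r with h3 | h3
        · exact absurd (h3 ▸ dvd_zero _) h2
        · exact h3
      · rintro ⟨h1, h2⟩
        have h3 : ¬ p ∣ r := fun h4 => by
          have := Nat.le_of_dvd (by omega) h4
          omega
        exact ⟨h2, h3, h3⟩
    rw [h1, Nat.card_Ico, Nat.cast_sub hp.one_le]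
    push_cast
    ring
  · rw [if_neg h0]
    have ht0 : 0 < t := by
      rcases Nat.eq_zero_or_pos t with h3 | h3
      · exact absurd (Nat.dvd_of_mod_eq_zero (by rw [← ht]; exact h3)) h0
      · exact h3
    have h1 : (range p).filter (fun r => ¬ p ∣ r ∧ ¬ p ∣ r + h) = (Ico 1 p).erase (p - t) := by
      ext r
      rw [mem_filter, mem_range, mem_erase, mem_Ico, hdt r]
      constructor
      · rintro ⟨h1, h2, h4⟩
        refine ⟨?_, ?_, h1⟩
        · intro h5
          apply h4
          rw [h5]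
          have : p - t + t = p := by omega
          rw [this]
        · rcases Nat.eq_zero_or_pos r with h3 | h3
          · exact absurd (h3 ▸ dvd_zero _) h2
          · exact h3
      · rintro ⟨h1, h2, h3⟩
        refine ⟨h3, fun h4 => ?_, fun h4 => ?_⟩
        · have := Nat.le_of_dvd (by omega) h4
          omega
        · obtain ⟨j, hj⟩ := h4
          have hj1 : j = 1 := by
            have h5 : 0 < p * j := by omega
            have h6 : 0 < j := Nat.pos_of_mul_pos_left h5 |> fun _ => by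
              rcases Nat.eq_zero_or_pos j with h7 | h7
              · rw [h7] at h5; omega
              · exact h7
            have h7 : p * j < p * 2 := by omega
            have h8 := Nat.lt_of_mul_lt_mul_left h7
            omega
          rw [hj1, mul_one] at hj
          omega
    rw [h1, card_erase_of_mem (by rw [mem_Ico]; omega), Nat.card_Ico, Nat.sub_sub, Nat.cast_sub (by omega)]
    push_cast
    have : (p : ℝ) - 1 ≠ 0 := by linarith
    field_simp
    ring

lemma cnt_eq (q h : ℕ) (hq : 1 ≤ q) :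
    (Cnt q h : ℝ) = (Nat.totient q : ℝ) * ∏ p ∈ q.primeFactors, (if p ∣ h then 1 else (1 - 1 / ((p : ℝ) - 1))) := by
  classical
  obtain ⟨R, hR⟩ : ∃ R, R = ∏ p ∈ q.primeFactors, p := ⟨_, rfl⟩
  have hSp : ∀ p ∈ q.primeFactors, p.Prime := fun p hp => Nat.prime_of_mem_primeFactors hp
  have hRq : R ∣ q := by rw [hR]; exact Nat.prod_primeFactors_dvd q
  obtain ⟨m, hm⟩ := hRq
  have hR1 : 1 ≤ R := by rw [hR]; exact Nat.pos_of_ne_zero (prod_ne_zero_iff.2 fun p hp => (hSp p hp).ne_zero)
  have hcop : ∀ x : ℕ, Nat.Coprime x q ↔ ∀ p ∈ q.primeFactors, ¬ p ∣ x := by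
    intro x
    constructor
    · intro h1 p hp h2
      have h3 := Nat.dvd_gcd h2 (Nat.dvd_of_mem_primeFactors hp)
      rw [h1] at h3
      exact (hSp p hp).one_lt.ne' (Nat.dvd_one.1 h3)
    · intro h1
      by_contra hne
      obtain ⟨p, hp, hpx, hpq⟩ := Nat.Prime.not_coprime_iff_dvd.1 hne
      exact h1 p (Nat.mem_primeFactors.2 ⟨hp, hpq, by omega⟩) hpx
  have e1 : Cnt q h = ((range (m * R)).filter (fun b => ∀ p ∈ q.primeFactors, ¬ p ∣ b ∧ ¬ p ∣ b + h)).card := by
    unfold Cnt
    have h1 : m * R = q := by rw [hm]; ring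
    rw [h1]
    congr 1
    apply filter_congr
    intro x _
    rw [hcop x, hcop (x + h)]
    constructor
    · rintro ⟨h2, h3⟩ p hp
      exact ⟨h2 p hp, h3 p hp⟩
    · intro h2
      exact ⟨fun p hp => (h2 p hp).1, fun p hp => (h2 p hp).2⟩
  have hper : ∀ b, (∀ p ∈ q.primeFactors, ¬ p ∣ (b + R) ∧ ¬ p ∣ (b + R) + h) ↔ (∀ p ∈ q.primeFactors, ¬ p ∣ b ∧ ¬ p ∣ b + h) := by
    intro b
    have hh : ∀ p ∈ q.primeFactors, ((p ∣ b + R ↔ p ∣ b) ∧ (p ∣ b + R + h ↔ p ∣ b + h)) := by
      intro p hp
      have hpR : p ∣ R := by rw [hR]; exact dvd_prod_of_mem _ hp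
      refine ⟨(Nat.dvd_add_iff_left hpR).symm, ?_⟩
      have : b + R + h = b + h + R := by ring
      rw [this]
      exact (Nat.dvd_add_iff_left hpR).symm
    constructor
    · intro h1 p hp
      obtain ⟨h2, h3⟩ := hh p hp
      rw [← h2, ← h3]
      exact h1 p hp
    · intro h1 p hp
      obtain ⟨h2, h3⟩ := hh p hp
      rw [h2, h3]
      exact h1 p hp
  rw [e1, per_card _ R hper m]
  have e2 : ((range R).filter (fun b => ∀ p ∈ q.primeFactors, ¬ p ∣ b ∧ ¬ p ∣ b + h)).card =
      ∏ p ∈ q.primeFactors, ((range p).filter (fun r => ¬ p ∣ r ∧ ¬ p ∣ r + h)).card := by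
    have h1 := crt_card (fun p b => ¬ p ∣ b ∧ ¬ p ∣ b + h) q.primeFactors hSp
    rw [← h1, ← hR]
    congr 1
    apply filter_congr
    intro b _
    have h2 : ∀ p : ℕ, (p ∣ b ↔ p ∣ b % p) := by
      intro p
      rw [Nat.dvd_iff_mod_eq_zero, Nat.dvd_iff_mod_eq_zero, Nat.mod_mod]
    have h3 : ∀ p : ℕ, (p ∣ b + h ↔ p ∣ b % p + h) := by
      intro p
      have e : b + h = (b % p + h) + p * (b / p) := by
        have := Nat.mod_add_div b p
        omega
      rw [e]
      exact (Nat.dvd_add_iff_left (dvd_mul_right _ _)).symm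
    constructor
    · intro h p hp
      obtain ⟨h4, h5⟩ := h p hp
      exact ⟨fun h6 => h4 ((h2 p).2 h6), fun h6 => h5 ((h3 p).2 h6)⟩
    · intro h p hp
      obtain ⟨h4, h5⟩ := h p hp
      exact ⟨fun h6 => h4 ((h2 p).1 h6), fun h6 => h5 ((h3 p).1 h6)⟩
  rw [e2]
  push_cast
  rw [prod_congr rfl (fun p hp => cnt_prime p h (hSp p hp)), prod_mul_distrib]
  have h1 := Nat.totient_mul_prod_primeFactors q
  rw [← hR] at h1
  have h2 : (Nat.totient q : ℝ) * R = q * ∏ p ∈ q.primeFactors, ((p : ℝ) - 1) := by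
    have h3 : ((Nat.totient q * R : ℕ) : ℝ) = ((q * ∏ p ∈ q.primeFactors, (p - 1) : ℕ) : ℝ) := by rw [h1]
    push_cast at h3
    rw [h3]
    congr 1
    apply prod_congr rfl
    intro p hp
    rw [Nat.cast_sub (hSp p hp).one_le]
    push_cast
    ring
  have h4 : (q : ℝ) = R * m := by rw [hm]; push_cast; ring
  have hRr : (R : ℝ) ≠ 0 := by
    have : (1 : ℝ) ≤ R := by exact_mod_cast hR1
    linarith
  have h5 : (Nat.totient q : ℝ) = m * ∏ p ∈ q.primeFactors, ((p : ℝ) - 1) := by
    rw [h4] at h2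
    apply mul_right_cancel₀ hRr
    rw [h2]
    ring
  rw [h5]
  ring

/-- the main term for progressions -/
lemma MT_mul (z q h : ℕ) (hq : 1 ≤ q) (hqz : ∀ p ∈ q.primeFactors, p ≤ z) : MT z q h * Cnt q h = MT z 1 h := by
  rw [cnt_eq q h hq]
  unfold MT
  have hφ : (Nat.totient q : ℝ) ≠ 0 := by
    have : 0 < Nat.totient q := Nat.totient_pos.2 (by omega)
    exact_mod_cast this.ne'
  have e1 : ∏ p ∈ q.primeFactors, (if p ∣ h then (1 : ℝ) else (1 - 1 / ((p : ℝ) - 1))) =
      ∏ p ∈ q.primeFactors.filter (fun p => ¬ p ∣ h), (1 - 1 / ((p : ℝ) - 1)) := by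
    rw [prod_filter]
    apply prod_congr rfl
    intro p _
    by_cases h1 : p ∣ h
    · rw [if_pos h1, if_neg (fun h2 => h2 h1)]
    · rw [if_neg h1, if_pos h1]
  have e2 : PS z 1 h = PS z q h ∪ q.primeFactors.filter (fun p => ¬ p ∣ h) := by
    ext p
    rw [mem_union, mem_PS, mem_PS, mem_filter, Nat.mem_primeFactors]
    constructor
    · rintro ⟨h1, h2, h3⟩
      by_cases h4 : p ∣ q
      · exact Or.inr ⟨⟨h1.2, h4, by omega⟩, h3⟩
      · exact Or.inl ⟨h1, h4, h3⟩
    · rintro (⟨h1, h2, h3⟩ | ⟨h1, h3⟩)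
      · exact ⟨h1, fun h4 => h1.2.one_lt.ne' (Nat.dvd_one.1 h4), h3⟩
      · exact ⟨⟨hqz p (Nat.mem_primeFactors.2 h1), h1.1⟩, fun h4 => h1.1.one_lt.ne' (Nat.dvd_one.1 h4), h3⟩
  have hdis : Disjoint (PS z q h) (q.primeFactors.filter (fun p => ¬ p ∣ h)) := by
    rw [disjoint_left]
    intro p hp hp2
    rw [mem_PS] at hp
    rw [mem_filter] at hp2
    exact hp.2.1 (Nat.dvd_of_mem_primeFactors hp2.1)
  rw [e1, e2, prod_union hdis, Nat.totient_one]
  field_simp
  push_cast
  ring

lemma MT_one (z h : ℕ) (hh : 2 ∣ h) (hh0 : h ≠ 0) (hz : 2 ≤ z) : MT z 1 h = singZ (sh h) z := by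
  rw [singZ_eq, pow_one]
  unfold MT
  rw [Nat.totient_one, Nat.cast_one, div_one]
  congr 1
  have e : PS z 1 h = (pz z).filter (fun p => ¬ p ∣ h) := by
    ext p
    rw [mem_PS, mem_filter, mem_pz]
    constructor
    · rintro ⟨h1, _, h3⟩; exact ⟨h1, h3⟩
    · rintro ⟨h1, h3⟩; exact ⟨h1, fun h4 => h1.2.one_lt.ne' (Nat.dvd_one.1 h4), h3⟩
  rw [e, prod_filter]
  apply prod_congr rfl
  intro p hp
  have hpp := (mem_pz.1 hp).2
  have h1 := nuP_sh h p hpp
  rw [nuP_eq _ _ hpp] at h1
  by_cases h2 : p ∣ h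
  · rw [if_pos h2] at h1
    have h3 : rhoP (sh h) p = 0 := by omega
    rw [if_neg (fun h4 => h4 h2), h3]
    simp
  · rw [if_neg h2] at h1
    have h3 : rhoP (sh h) p = 1 := by omega
    rw [if_pos h2, h3]
    push_cast
    ring

end Pool.Agent.W93.PP
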