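import Pool.Agent.W93.PP3
import Pool.Agent.W93.GB2

set_option autoImplicit false

/-! From the von Mangoldt function to the number of prime pairs. -/

namespace Pool.Agent.W93.PP
open Finset
open Pool.Agent.H373R2.T7

/-- Abel's inequality -/
lemma abel_ineq (a v : ℕ → ℝ) (M : ℝ) (x : ℕ) (hx : 2 ≤ x) (hA : ∀ y, 2 ≤ y → y ≤ x → |∑ n ∈ Icc 2 y, a n| ≤ M)
    (hv : ∀ n, 2 ≤ n → v (n + 1) ≤ v n) (hv0 : ∀ n, 2 ≤ n → 0 ≤ v n) : |∑ n ∈ Icc 2 x, a n * v n| ≤ M * v 2 := by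
  have key : ∀ y, 2 ≤ y → y ≤ x → |∑ n ∈ Icc 2 y, a n * v n - (∑ n ∈ Icc 2 y, a n) * v y| ≤ M * (v 2 - v y) := by
    intro y hy
    induction y, hy using Nat.le_induction with
    | base => intro _; simp
    | succ y hy ih =>
      intro hyx
      have h1 := ih (by omega)
      have h2 := hA y hy (by omega)
      have h3 := hv y hy
      rw [← Finset.insert_Icc_right_eq_Icc_add_one (by omega : 2 ≤ y + 1), sum_insert (by simp), sum_insert (by simp)]
      have e : a (y + 1) * v (y + 1) + ∑ n ∈ Icc 2 y, a n * v n - (a (y + 1) + ∑ n ∈ Icc 2 y, a n) * v (y + 1) =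
          (∑ n ∈ Icc 2 y, a n * v n - (∑ n ∈ Icc 2 y, a n) * v y) + (∑ n ∈ Icc 2 y, a n) * (v y - v (y + 1)) := by ring
      rw [e]
      calc |(∑ n ∈ Icc 2 y, a n * v n - (∑ n ∈ Icc 2 y, a n) * v y) + (∑ n ∈ Icc 2 y, a n) * (v y - v (y + 1))|
          ≤ |∑ n ∈ Icc 2 y, a n * v n - (∑ n ∈ Icc 2 y, a n) * v y| + |(∑ n ∈ Icc 2 y, a n) * (v y - v (y + 1))| := abs_add_le _ _
        _ ≤ M * (v 2 - v y) + M * (v y - v (y + 1)) := by
            apply add_le_add h1
            rw [abs_mul, abs_of_nonneg (by linarith : 0 ≤ v y - v (y + 1))]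
            exact mul_le_mul_of_nonneg_right h2 (by linarith)
        _ = M * (v 2 - v (y + 1)) := by ring
  have h1 := key x hx le_rfl
  have h2 := hA x hx le_rfl
  have h3 := hv0 x hx
  have h4 : |(∑ n ∈ Icc 2 x, a n) * v x| ≤ M * v x := by
    rw [abs_mul, abs_of_nonneg h3]
    exact mul_le_mul_of_nonneg_right h2 h3
  have h5 := abs_sub_abs_le_abs_sub (∑ n ∈ Icc 2 x, a n * v n) ((∑ n ∈ Icc 2 x, a n) * v x)
  linarith

lemma log_two_sq : 1 / Real.log 2 ^ 2 ≤ 3 := by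
  have h1 := Real.log_two_gt_d9
  have h2 : (0.6931 : ℝ) ^ 2 ≤ Real.log 2 ^ 2 := pow_le_pow_left₀ (by norm_num) (by linarith) 2
  rw [div_le_iff₀ (by positivity)]
  norm_num at h2
  linarith

lemma log_two_cube : 1 / Real.log 2 ^ 3 ≤ 4 := by
  have h1 := Real.log_two_gt_d9
  have h2 : (0.6931 : ℝ) ^ 3 ≤ Real.log 2 ^ 3 := pow_le_pow_left₀ (by norm_num) (by linarith) 3
  rw [div_le_iff₀ (by positivity)]
  norm_num at h2
  linarith

/-- the logarithmic integral -/
noncomputable def Li2 (x : ℝ) : ℝ := ∫ t in (2 : ℝ)..x, 1 / Real.log t ^ 2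

lemma anti : AntitoneOn (fun t : ℝ => 1 / Real.log t ^ 2) (Set.Ici 2) := by
  intro s hs t ht hst
  rw [Set.mem_Ici] at hs ht
  have h1 : 0 < Real.log s := Real.log_pos (by linarith)
  have h2 : Real.log s ≤ Real.log t := Real.log_le_log (by linarith) hst
  simp only
  apply one_div_le_one_div_of_le (by positivity)
  exact pow_le_pow_left₀ h1.le h2 2

lemma intble (s t : ℝ) (hs : 2 ≤ s) (ht : 2 ≤ t) : IntervalIntegrable (fun t : ℝ => 1 / Real.log t ^ 2) MeasureTheory.volume s t := by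
  apply AntitoneOn.intervalIntegrable
  apply anti.mono
  intro u hu
  rw [Set.mem_uIcc] at hu
  rw [Set.mem_Ici]
  rcases hu with h | h <;> linarith [h.1]

lemma sum_int (x : ℝ) (hx : 2 ≤ x) : |∑ n ∈ Icc 2 ⌊x⌋₊, 1 / Real.log (n : ℝ) ^ 2 - Li2 x| ≤ 3 := by
  obtain ⟨N, hN⟩ : ∃ N, N = ⌊x⌋₊ := ⟨_, rfl⟩
  rw [← hN]
  have hN2 : 2 ≤ N := by rw [hN]; exact Nat.le_floor (by exact_mod_cast hx)
  have hNx : (N : ℝ) ≤ x := by rw [hN]; exact Nat.floor_le (by linarith)
  have hxN : x < N + 1 := by rw [hN]; exact Nat.lt_floor_add_one x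
  obtain ⟨m, hm⟩ : ∃ m, N = 2 + m := ⟨N - 2, by omega⟩
  have hNr : (N : ℝ) = 2 + m := by rw [hm]; push_cast; ring
  have hanti : AntitoneOn (fun t : ℝ => 1 / Real.log t ^ 2) (Set.Icc (2 : ℝ) (2 + m)) := anti.mono (fun u hu => hu.1)
  have h1 := hanti.integral_le_sum
  have h2 := hanti.sum_le_integral
  have hsum : ∑ n ∈ Icc 2 N, 1 / Real.log (n : ℝ) ^ 2 = ∑ i ∈ range m, 1 / Real.log (2 + (i : ℝ)) ^ 2 + 1 / Real.log (2 + (m : ℝ)) ^ 2 := by
    rw [← sum_range_succ (f := fun i : ℕ => 1 / Real.log (2 + (i : ℝ)) ^ 2)]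
    apply sum_nbij' (i := fun n => n - 2) (j := fun i => i + 2)
    · intro n hn; rw [mem_Icc] at hn; rw [mem_range]; omega
    · intro i hi; rw [mem_range] at hi; rw [mem_Icc]; omega
    · intro n hn; rw [mem_Icc] at hn; omega
    · intro i _; omega
    · intro n hn
      rw [mem_Icc] at hn
      have : (n : ℝ) = 2 + ((n - 2 : ℕ) : ℝ) := by
        rw [Nat.cast_sub hn.1]; push_cast; ring
      rw [this]
  have hsum2 : ∑ n ∈ Icc 2 N, 1 / Real.log (n : ℝ) ^ 2 = 1 / Real.log 2 ^ 2 + ∑ i ∈ range m, 1 / Real.log (2 + ((i + 1 : ℕ) : ℝ)) ^ 2 := by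
    rw [hsum, ← sum_range_succ (f := fun i : ℕ => 1 / Real.log (2 + (i : ℝ)) ^ 2), sum_range_succ' (f := fun i : ℕ => 1 / Real.log (2 + (i : ℝ)) ^ 2), add_comm]
    simp
  have h3 : Li2 x = (∫ t in (2 : ℝ)..(2 + m), 1 / Real.log t ^ 2) + ∫ t in ((2 : ℝ) + m)..x, 1 / Real.log t ^ 2 := by
    unfold Li2
    have hm0 : (0 : ℝ) ≤ m := Nat.cast_nonneg _
    rw [intervalIntegral.integral_add_adjacent_intervals (intble _ _ le_rfl (by linarith)) (intble _ _ (by linarith) hx)]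
  have hm0 : (0 : ℝ) ≤ m := Nat.cast_nonneg _
  have h4 : 0 ≤ ∫ t in ((2 : ℝ) + m)..x, 1 / Real.log t ^ 2 := by
    apply intervalIntegral.integral_nonneg (by linarith)
    intro u _
    positivity
  have h5 : ∫ t in ((2 : ℝ) + m)..x, 1 / Real.log t ^ 2 ≤ 1 / Real.log (2 + (m : ℝ)) ^ 2 := by
    have h6 : ∫ t in ((2 : ℝ) + m)..x, 1 / Real.log t ^ 2 ≤ ∫ _t in ((2 : ℝ) + m)..x, 1 / Real.log (2 + (m : ℝ)) ^ 2 := by
      apply intervalIntegral.integral_mono_on (by linarith) (intble _ _ (by linarith) hx) (by simp)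
      intro u hu
      exact anti (Set.mem_Ici.2 (by linarith)) (Set.mem_Ici.2 (by linarith [hu.1])) hu.1
    refine h6.trans ?_
    rw [intervalIntegral.integral_const, smul_eq_mul]
    have h7 : 0 ≤ 1 / Real.log (2 + (m : ℝ)) ^ 2 := by positivity
    have h8 : x - (2 + m) ≤ 1 := by linarith
    nlinarith
  have h6 := log_two_sq
  have h7 : 0 ≤ 1 / Real.log (2 + (m : ℝ)) ^ 2 := by positivity
  rw [abs_le]
  constructor
  · rw [hsum, h3]
    linarith
  · rw [hsum2, h3]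
    linarith

/-- the weight -/
noncomputable def vv (h n : ℕ) : ℝ := 1 / (Real.log n * Real.log ((n : ℝ) + h))

lemma vv_anti (h n : ℕ) (hn : 2 ≤ n) : vv h (n + 1) ≤ vv h n := by
  have hnr : (2 : ℝ) ≤ n := by exact_mod_cast hn
  have hh0 : (0 : ℝ) ≤ h := Nat.cast_nonneg _
  have h1 : 0 < Real.log n := Real.log_pos (by linarith)
  have h2 : 0 < Real.log ((n : ℝ) + h) := Real.log_pos (by linarith)
  unfold vv
  push_cast
  apply one_div_le_one_div_of_le (by positivity)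
  apply mul_le_mul _ _ h2.le
  · exact Real.log_nonneg (by linarith)
  · exact Real.log_le_log (by linarith) (by linarith)
  · exact Real.log_le_log (by linarith) (by linarith)

lemma vv_nonneg (h n : ℕ) (hn : 2 ≤ n) : 0 ≤ vv h n := by
  have hnr : (2 : ℝ) ≤ n := by exact_mod_cast hn
  have hh0 : (0 : ℝ) ≤ h := Nat.cast_nonneg _
  have h1 : 0 < Real.log n := Real.log_pos (by linarith)
  have h2 : 0 < Real.log ((n : ℝ) + h) := Real.log_pos (by linarith)
  unfold vv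
  positivity

lemma vv_two (h : ℕ) : vv h 2 ≤ 3 := by
  have hh0 : (0 : ℝ) ≤ h := Nat.cast_nonneg _
  have h1 : 0 < Real.log 2 := Real.log_pos (by norm_num)
  have h2 : Real.log 2 ≤ Real.log ((2 : ℝ) + h) := Real.log_le_log (by norm_num) (by linarith)
  unfold vv
  push_cast
  refine le_trans ?_ log_two_sq
  apply one_div_le_one_div_of_le (by positivity)
  rw [pow_two]
  exact mul_le_mul_of_nonneg_left h2 h1.le

lemma vv_diff (h n : ℕ) (hn : 2 ≤ n) : |vv h n - 1 / Real.log (n : ℝ) ^ 2| ≤ 4 * ((h : ℝ) / n) := by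
  have hnr : (2 : ℝ) ≤ n := by exact_mod_cast hn
  have hh0 : (0 : ℝ) ≤ h := Nat.cast_nonneg _
  have hl2 : 0 < Real.log 2 := Real.log_pos (by norm_num)
  have h1 : Real.log 2 ≤ Real.log n := Real.log_le_log (by norm_num) hnr
  have h2 : Real.log n ≤ Real.log ((n : ℝ) + h) := Real.log_le_log (by linarith) (by linarith)
  have h0 : 0 < Real.log n := by linarith
  have h0' : 0 < Real.log ((n : ℝ) + h) := by linarith
  have h3 : Real.log ((n : ℝ) + h) - Real.log n ≤ h / n := by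
    rw [← Real.log_div (by linarith) (by linarith)]
    refine (Real.log_le_sub_one_of_pos (by positivity)).trans (le_of_eq ?_)
    field_simp
    ring
  have e : 1 / Real.log (n : ℝ) ^ 2 - vv h n = (Real.log ((n : ℝ) + h) - Real.log n) * (1 / (Real.log n ^ 2 * Real.log ((n : ℝ) + h))) := by
    unfold vv
    field_simp
  have h4 : 1 / (Real.log n ^ 2 * Real.log ((n : ℝ) + h)) ≤ 4 := by
    refine le_trans ?_ log_two_cube
    apply one_div_le_one_div_of_le (by positivity)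
    calc Real.log 2 ^ 3 = Real.log 2 ^ 2 * Real.log 2 := by ring
      _ ≤ Real.log n ^ 2 * Real.log ((n : ℝ) + h) := by
        apply mul_le_mul _ (h1.trans h2) hl2.le (by positivity)
        exact pow_le_pow_left₀ hl2.le h1 2
  rw [abs_sub_comm, e, abs_of_nonneg (by
    apply mul_nonneg (by linarith)
    positivity)]
  calc (Real.log ((n : ℝ) + h) - Real.log n) * (1 / (Real.log n ^ 2 * Real.log ((n : ℝ) + h))) ≤ (h / n) * 4 := by
        apply mul_le_mul h3 h4 (by positivity) (by positivity)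
    _ = _ := by ring

open Classical in
/-- the number of pairs with `p ≤ N` -/
noncomputable def cN (h a q N : ℕ) : ℕ := ((Icc 2 N).filter (fun p => p.Prime ∧ (p + h).Prime ∧ p ≡ a [MOD q])).card

open Classical in
noncomputable def wt (h a q n : ℕ) : ℝ := if n ≡ a [MOD q] then lamP (n : ℤ) * lamP ((n : ℤ) + (h : ℤ)) else 0

lemma wt_nonneg (h a q n : ℕ) : 0 ≤ wt h a q n := by
  unfold wt
  split_ifs
  · exact mul_nonneg (lamP_nonneg _) (lamP_nonneg _)
  · exact le_rfl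

lemma cN_eq (h a q N : ℕ) : (cN h a q N : ℝ) = ∑ n ∈ Icc 2 N, wt h a q n * vv h n := by
  classical
  unfold cN
  rw [card_filter]
  push_cast
  apply sum_congr rfl
  intro n hn
  rw [mem_Icc] at hn
  have hnr : (2 : ℝ) ≤ n := by exact_mod_cast hn.1
  have hh0 : (0 : ℝ) ≤ h := Nat.cast_nonneg _
  have h1 : 0 < Real.log n := Real.log_pos (by linarith)
  have h2 : 0 < Real.log ((n : ℝ) + h) := Real.log_pos (by linarith)
  unfold wt vv lamP
  have e : ((n : ℤ) + (h : ℤ)).toNat = n + h := by omega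
  rw [e, Int.toNat_natCast]
  by_cases h3 : n ≡ a [MOD q]
  · by_cases h4 : n.Prime
    · by_cases h5 : (n + h).Prime
      · rw [if_pos ⟨h4, h5, h3⟩, if_pos h3, if_pos h4, if_pos h5]
        push_cast
        field_simp
      · rw [if_neg (fun hh => h5 hh.2.1), if_neg h5, mul_zero, ite_self, zero_mul]
    · rw [if_neg (fun hh => h4 hh.1), if_neg h4, zero_mul, ite_self, zero_mul]
  · rw [if_neg (fun hh => h3 hh.2.2), if_neg h3, zero_mul]

/-- replacing prime powers -/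
lemma wt_near (h a q y X : ℕ) (hy : y ≤ X) (hhX : h ≤ X) (hX : 1 ≤ X) :
    |∑ n ∈ Icc 1 y, (if n ≡ a [MOD q] then ArithmeticFunction.vonMangoldt n else 0) * lamI ((n : ℤ) + (h : ℤ)) -
      ∑ n ∈ Icc 1 y, wt h a q n| ≤ 4 * √((2 * X : ℕ) : ℝ) * Real.log ((2 * X : ℕ) : ℝ) ^ 2 := by
  classical
  obtain ⟨M, hM⟩ : ∃ M : ℝ, M = Real.log ((2 * X : ℕ) : ℝ) := ⟨_, rfl⟩
  have hM0 : 0 ≤ M := by rw [hM]; exact Real.log_natCast_nonneg _
  have hXr : (1 : ℝ) ≤ ((2 * X : ℕ) : ℝ) := by exact_mod_cast (by omega : 1 ≤ 2 * X)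
  rw [← sum_sub_distrib]
  have h1 : ∀ n ∈ Icc 1 y, |(if n ≡ a [MOD q] then ArithmeticFunction.vonMangoldt n else 0) * lamI ((n : ℤ) + (h : ℤ)) - wt h a q n| ≤
      M * ((lamI ((n : ℤ) + 0) - lamP ((n : ℤ) + 0)) + (lamI ((n : ℤ) + (h : ℤ)) - lamP ((n : ℤ) + (h : ℤ)))) := by
    intro n hn
    rw [mem_Icc] at hn
    rw [add_zero]
    have a1 : lamI (n : ℤ) = ArithmeticFunction.vonMangoldt n := Pool.Agent.W93.GB.lam_nat n
    have a2 := lamP_le (n : ℤ)
    have a3 := lamP_le ((n : ℤ) + (h : ℤ))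
    have a4 := lamP_nonneg (n : ℤ)
    have a5 := lamP_nonneg ((n : ℤ) + (h : ℤ))
    have a6 : lamI ((n : ℤ) + (h : ℤ)) ≤ M := by
      rw [hM]
      apply lamI_le _ _ hXr
      push_cast
      have : (n : ℝ) ≤ X := by exact_mod_cast hn.2.trans hy
      have : (h : ℝ) ≤ X := by exact_mod_cast hhX
      linarith
    have a7 : lamI (n : ℤ) ≤ M := by
      rw [hM]
      apply lamI_le _ _ hXr
      push_cast
      have : (n : ℝ) ≤ X := by exact_mod_cast hn.2.trans hy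
      have : (0 : ℝ) ≤ X := Nat.cast_nonneg _
      linarith
    unfold wt
    rw [← a1]
    split_ifs with hc
    · have e : lamI (n : ℤ) * lamI ((n : ℤ) + (h : ℤ)) - lamP (n : ℤ) * lamP ((n : ℤ) + (h : ℤ)) =
          (lamI (n : ℤ) - lamP (n : ℤ)) * lamI ((n : ℤ) + (h : ℤ)) + lamP (n : ℤ) * (lamI ((n : ℤ) + (h : ℤ)) - lamP ((n : ℤ) + (h : ℤ))) := by ring
      rw [e, abs_of_nonneg (add_nonneg (mul_nonneg (by linarith) (by linarith)) (mul_nonneg a4 (by linarith))), mul_add]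
      apply add_le_add
      · rw [mul_comm M]
        exact mul_le_mul_of_nonneg_left a6 (by linarith)
      · exact mul_le_mul_of_nonneg_right (a2.trans a7) (by linarith)
    · rw [zero_mul, sub_zero, abs_zero]
      apply mul_nonneg hM0
      linarith
  refine (abs_sum_le_sum_abs _ _).trans ((sum_le_sum h1).trans ?_)
  rw [← mul_sum, sum_add_distrib]
  have h2 := pp_sum y (2 * X) 0 (by omega) (by
    intro n hn
    rw [mem_Icc] at hn
    push_cast
    omega)
  have h3 := pp_sum y (2 * X) h (by omega) (by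
    intro n hn
    rw [mem_Icc] at hn
    push_cast
    omega)
  rw [← hM] at h2 h3
  calc M * (∑ n ∈ Icc 1 y, (lamI ((n : ℤ) + 0) - lamP ((n : ℤ) + 0)) + ∑ n ∈ Icc 1 y, (lamI ((n : ℤ) + (h : ℤ)) - lamP ((n : ℤ) + (h : ℤ))))
      ≤ M * (2 * √((2 * X : ℕ) : ℝ) * M + 2 * √((2 * X : ℕ) : ℝ) * M) :=
        mul_le_mul_of_nonneg_left (add_le_add h2 h3) hM0
    _ = 4 * √((2 * X : ℕ) : ℝ) * M ^ 2 := by ring
    _ = _ := by rw [hM]

end Pool.Agent.W93.PP
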