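import Pool.Agent.W93.PP5

set_option autoImplicit false

/-! The deterministic part. -/

namespace Pool.Agent.W93.PP
open Finset
open Pool.Agent.H373R2.T7
open Pool.Agent.H560R3.GB (sing C₂)
open Pool.Agent.W93.GB

open Classical in
/-- the number of `p ≤ x` with `p ≡ a (mod q)`, `p` and `p + h` prime and `p + h ≤ x` -/
noncomputable def pc (h : ℕ) (x : ℝ) (a q : ℕ) : ℕ :=
  ((range (⌊x⌋₊ + 1)).filter (fun p => p.Prime ∧ (p + h).Prime ∧ (p : ℝ) + h ≤ x ∧ p ≡ a [MOD q])).card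

lemma pc_near (h : ℕ) (x : ℝ) (a q : ℕ) (hx : 2 ≤ x) : |(pc h x a q : ℝ) - cN h a q ⌊x⌋₊| ≤ h := by
  classical
  have hNx : ((⌊x⌋₊ : ℕ) : ℝ) ≤ x := Nat.floor_le (by linarith)
  unfold pc cN
  obtain ⟨N, hN⟩ : ∃ N, N = ⌊x⌋₊ := ⟨_, rfl⟩
  rw [← hN] at hNx ⊢
  have hsub : (range (N + 1)).filter (fun p => p.Prime ∧ (p + h).Prime ∧ (p : ℝ) + h ≤ x ∧ p ≡ a [MOD q]) ⊆
      (Icc 2 N).filter (fun p => p.Prime ∧ (p + h).Prime ∧ p ≡ a [MOD q]) := by
    intro p hp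
    rw [mem_filter, mem_range] at hp
    rw [mem_filter, mem_Icc]
    exact ⟨⟨hp.2.1.two_le, by omega⟩, hp.2.1, hp.2.2.1, hp.2.2.2.2⟩
  have h1 := card_le_card hsub
  have h2 : ((Icc 2 N).filter (fun p => p.Prime ∧ (p + h).Prime ∧ p ≡ a [MOD q])).card ≤
      ((range (N + 1)).filter (fun p => p.Prime ∧ (p + h).Prime ∧ (p : ℝ) + h ≤ x ∧ p ≡ a [MOD q])).card + h := by
    have h3 : (Icc 2 N).filter (fun p => p.Prime ∧ (p + h).Prime ∧ p ≡ a [MOD q]) ⊆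
        ((range (N + 1)).filter (fun p => p.Prime ∧ (p + h).Prime ∧ (p : ℝ) + h ≤ x ∧ p ≡ a [MOD q])) ∪ Ico (N + 1 - h) (N + 1) := by
      intro p hp
      rw [mem_filter, mem_Icc] at hp
      rw [mem_union]
      by_cases h4 : (p : ℝ) + h ≤ x
      · left
        rw [mem_filter, mem_range]
        exact ⟨by omega, hp.2.1, hp.2.2.1, h4, hp.2.2.2⟩
      · right
        rw [mem_Ico]
        have h5 : N < p + h := by
          push Not at h4
          have : (N : ℝ) < ((p + h : ℕ) : ℝ) := by push_cast; linarith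
          exact_mod_cast this
        omega
    refine (card_le_card h3).trans ((card_union_le _ _).trans ?_)
    rw [Nat.card_Ico]
    omega
  have h1r : (((range (N + 1)).filter (fun p => p.Prime ∧ (p + h).Prime ∧ (p : ℝ) + h ≤ x ∧ p ≡ a [MOD q])).card : ℝ) ≤
      (((Icc 2 N).filter (fun p => p.Prime ∧ (p + h).Prime ∧ p ≡ a [MOD q])).card : ℝ) := by exact_mod_cast h1
  have h2r : (((Icc 2 N).filter (fun p => p.Prime ∧ (p + h).Prime ∧ p ≡ a [MOD q])).card : ℝ) ≤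
      (((range (N + 1)).filter (fun p => p.Prime ∧ (p + h).Prime ∧ (p : ℝ) + h ≤ x ∧ p ≡ a [MOD q])).card : ℝ) + h := by exact_mod_cast h2
  have hh0 : (0 : ℝ) ≤ h := Nat.cast_nonneg _
  rw [abs_le]
  constructor <;> linarith

theorem counts (C : ℕ) : ∃ X0 : ℕ, ∀ X : ℕ, X0 ≤ X → ∀ h q a : ℕ, (h : ℝ) ≤ X / Real.log X ^ (C + 4) →
    ∀ S : ℝ, 0 ≤ S → S ≤ 3 * Real.log X →
    (∀ y : ℕ, y ≤ X → |∑ n ∈ Icc 1 y, (if n ≡ a [MOD q] then ArithmeticFunction.vonMangoldt n else 0) * lamI ((n : ℤ) + (h : ℤ)) - S * y| ≤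
      X / Real.log X ^ (C + 1)) →
    ∀ x : ℝ, 2 ≤ x → x ≤ X → |(pc h x a q : ℝ) - S * Li2 x| ≤ X / Real.log X ^ C := by
  classical
  obtain ⟨n1, h1⟩ := ev_log' (C + 4) 96
  obtain ⟨n2, h2⟩ := ev_L' 40
  refine ⟨max n1 (max n2 3), fun X hX h q a hh S hS0 hS hy x hx2 hxX => ?_⟩
  have a1 := h1 X (le_trans (le_max_left _ _) hX)
  have a2 := h2 X (le_trans (le_trans (le_max_left _ _) (le_max_right _ _)) hX)
  have hX3 : 3 ≤ X := le_trans (le_trans (le_max_right _ _) (le_max_right _ _)) hX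
  have hXr : (3 : ℝ) ≤ X := by exact_mod_cast hX3
  obtain ⟨L, hL⟩ : ∃ L, L = Real.log (X : ℝ) := ⟨_, rfl⟩
  rw [← hL] at a1 a2 hh hS hy ⊢
  have hL1 : 1 ≤ L := by linarith
  have hL0 : 0 < L := by linarith
  have hX0 : (0 : ℝ) < X := by linarith
  have hss : √(X : ℝ) * √(X : ℝ) = X := Real.mul_self_sqrt hX0.le
  have hs0 : 0 < √(X : ℝ) := Real.sqrt_pos.2 hX0
  obtain ⟨T, hT⟩ : ∃ T : ℝ, T = X / L ^ (C + 1) := ⟨_, rfl⟩
  have hT0 : 0 < T := by rw [hT]; positivity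
  rw [← hT] at hy
  have hTC : X / L ^ C = T * L := by rw [hT, pow_succ]; field_simp
  -- sizes
  have hlog2X : Real.log ((2 * X : ℕ) : ℝ) ≤ 2 * L := by
    push_cast
    rw [Real.log_mul (by norm_num) hX0.ne', ← hL]
    have : Real.log 2 ≤ 1 := by have := Real.log_two_lt_d9; linarith
    linarith
  have hlog2X0 : 0 ≤ Real.log ((2 * X : ℕ) : ℝ) := Real.log_natCast_nonneg _
  have hsq2X : √((2 * X : ℕ) : ℝ) ≤ 2 * √(X : ℝ) := by
    push_cast
    rw [Real.sqrt_mul (by norm_num)]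
    apply mul_le_mul_of_nonneg_right _ hs0.le
    rw [Real.sqrt_le_left (by norm_num)]
    norm_num
  obtain ⟨R, hR⟩ : ∃ R : ℝ, R = 4 * √((2 * X : ℕ) : ℝ) * Real.log ((2 * X : ℕ) : ℝ) ^ 2 := ⟨_, rfl⟩
  have hR0 : 0 ≤ R := by rw [hR]; positivity
  have hRT : R ≤ T := by
    have h3 : R ≤ 32 * √X * L ^ 2 := by
      rw [hR]
      calc 4 * √((2 * X : ℕ) : ℝ) * Real.log ((2 * X : ℕ) : ℝ) ^ 2 ≤ 4 * (2 * √(X : ℝ)) * (2 * L) ^ 2 := by gcongr
        _ = 32 * √X * L ^ 2 := by ring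
    refine h3.trans ?_
    rw [hT, le_div_iff₀ (by positivity)]
    calc 32 * √X * L ^ 2 * L ^ (C + 1) = √X * (32 * L ^ (C + 3)) := by ring
      _ ≤ √X * (96 * L ^ (C + 4)) := by
          apply mul_le_mul_of_nonneg_left _ hs0.le
          have : L ^ (C + 3) ≤ L ^ (C + 4) := pow_le_pow_right₀ hL1 (by omega)
          have h0 : 0 ≤ L ^ (C + 3) := by positivity
          linarith
      _ ≤ √X * √X := mul_le_mul_of_nonneg_left a1 hs0.le
      _ = X := hss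
  have hLT : L ≤ T := by
    rw [hT, le_div_iff₀ (by positivity)]
    calc L * L ^ (C + 1) = L ^ (C + 2) := by ring
      _ ≤ 96 * L ^ (C + 4) := by
          have : L ^ (C + 2) ≤ L ^ (C + 4) := pow_le_pow_right₀ hL1 (by omega)
          have h0 : 0 ≤ L ^ (C + 2) := by positivity
          linarith
      _ ≤ √X := a1
      _ ≤ √X * √X := by
          have : 1 ≤ √(X : ℝ) := by
            refine le_trans ?_ a1
            have := one_le_pow₀ (n := C + 4) hL1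
            linarith
          nlinarith
      _ = X := hss
  have hhr : (0 : ℝ) ≤ h := Nat.cast_nonneg _
  have hhT : L ^ 3 * (h : ℝ) ≤ T := by
    rw [hT, le_div_iff₀ (by positivity)]
    rw [le_div_iff₀ (by positivity)] at hh
    calc L ^ 3 * (h : ℝ) * L ^ (C + 1) = h * L ^ (C + 4) := by ring
      _ ≤ X := hh
  have hhX : h ≤ X := by
    have h3 : (h : ℝ) ≤ X := by
      refine hh.trans ?_
      apply div_le_self hX0.le (one_le_pow₀ hL1)
    exact_mod_cast h3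
  -- the counting function
  obtain ⟨N, hN⟩ : ∃ N, N = ⌊x⌋₊ := ⟨_, rfl⟩
  have hN2 : 2 ≤ N := by rw [hN]; exact Nat.le_floor (by exact_mod_cast hx2)
  have hNx : (N : ℝ) ≤ x := by rw [hN]; exact Nat.floor_le (by linarith)
  have hNX : N ≤ X := by exact_mod_cast hNx.trans hxX
  have hA : ∀ y, 2 ≤ y → y ≤ N → |∑ n ∈ Icc 2 y, (wt h a q n - S)| ≤ T + R + S := by
    intro y hy2 hyN
    have b1 := hy y (hyN.trans hNX)
    have b2 := wt_near h a q y X (hyN.trans hNX) hhX (by omega)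
    rw [← hR] at b2
    have b3 : ∑ n ∈ Icc 1 y, wt h a q n = ∑ n ∈ Icc 2 y, wt h a q n := by
      rw [← Finset.insert_Icc_succ_left_eq_Icc (by omega : 1 ≤ y), sum_insert (by simp)]
      have : wt h a q 1 = 0 := by
        unfold wt lamP
        simp
      rw [this, zero_add]
      rfl
    have b4 : ∑ _n ∈ Icc 2 y, S = S * y - S := by
      rw [sum_const, Nat.card_Icc, nsmul_eq_mul, Nat.cast_sub (by omega)]
      push_cast
      ring
    rw [sum_sub_distrib, b4, ← b3]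
    have e : ∑ n ∈ Icc 1 y, wt h a q n - (S * y - S) = -(∑ n ∈ Icc 1 y, (if n ≡ a [MOD q] then ArithmeticFunction.vonMangoldt n else 0) * lamI ((n : ℤ) + (h : ℤ)) -
      ∑ n ∈ Icc 1 y, wt h a q n) + (∑ n ∈ Icc 1 y, (if n ≡ a [MOD q] then ArithmeticFunction.vonMangoldt n else 0) * lamI ((n : ℤ) + (h : ℤ)) - S * y) + S := by ring
    rw [e]
    refine (abs_add_le _ _).trans ?_
    rw [abs_of_nonneg hS0]
    have b5 := abs_add_le (-(∑ n ∈ Icc 1 y, (if n ≡ a [MOD q] then ArithmeticFunction.vonMangoldt n else 0) * lamI ((n : ℤ) + (h : ℤ)) -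
      ∑ n ∈ Icc 1 y, wt h a q n)) (∑ n ∈ Icc 1 y, (if n ≡ a [MOD q] then ArithmeticFunction.vonMangoldt n else 0) * lamI ((n : ℤ) + (h : ℤ)) - S * y)
    rw [abs_neg] at b5
    linarith
  have hab := abel_ineq (fun n => wt h a q n - S) (vv h) (T + R + S) N hN2 hA (fun n hn => vv_anti h n hn) (fun n hn => vv_nonneg h n hn)
  have hv2 := vv_two h
  have e1 : ∑ n ∈ Icc 2 N, (wt h a q n - S) * vv h n = (cN h a q N : ℝ) - S * ∑ n ∈ Icc 2 N, vv h n := by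
    rw [cN_eq, mul_sum, ← sum_sub_distrib]
    apply sum_congr rfl
    intro n _
    ring
  rw [e1] at hab
  have hab' : |(cN h a q N : ℝ) - S * ∑ n ∈ Icc 2 N, vv h n| ≤ 3 * (T + R + S) := by
    refine hab.trans ?_
    rw [mul_comm]
    exact mul_le_mul_of_nonneg_right hv2 (by positivity)
  have hvd : |∑ n ∈ Icc 2 N, vv h n - ∑ n ∈ Icc 2 N, 1 / Real.log (n : ℝ) ^ 2| ≤ 8 * h * L := by
    rw [← sum_sub_distrib]
    refine (abs_sum_le_sum_abs _ _).trans ?_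
    have b1 : ∀ n ∈ Icc 2 N, |vv h n - 1 / Real.log (n : ℝ) ^ 2| ≤ 4 * (h : ℝ) * (1 / (n : ℝ)) := by
      intro n hn
      refine (vv_diff h n (mem_Icc.1 hn).1).trans (le_of_eq ?_)
      ring
    refine (sum_le_sum b1).trans ?_
    rw [← mul_sum]
    have b2 : ∑ n ∈ Icc 2 N, 1 / (n : ℝ) ≤ ∑ n ∈ Icc 1 N, 1 / (n : ℝ) :=
      sum_le_sum_of_subset_of_nonneg (Icc_subset_Icc_left (by omega)) fun _ _ _ => by positivity
    have b3 : ∑ n ∈ Icc 1 N, 1 / (n : ℝ) = ((harmonic N : ℚ) : ℝ) := by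
      rw [harmonic_eq_sum_Icc]
      push_cast
      simp
    have b4 : ((harmonic N : ℚ) : ℝ) ≤ 1 + Real.log N := harmonic_le_one_add_log N
    have b5 : Real.log N ≤ L := by
      rw [hL]
      apply Real.log_le_log (by exact_mod_cast (by omega : 0 < N))
      exact_mod_cast hNX
    have b6 : ∑ n ∈ Icc 2 N, 1 / (n : ℝ) ≤ 2 * L := by linarith
    calc 4 * (h : ℝ) * ∑ n ∈ Icc 2 N, 1 / (n : ℝ) ≤ 4 * h * (2 * L) := mul_le_mul_of_nonneg_left b6 (by positivity)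
      _ = 8 * h * L := by ring
  have hsi := sum_int x hx2
  rw [← hN] at hsi
  have hpc := pc_near h x a q hx2
  rw [← hN] at hpc
  have e2 : (pc h x a q : ℝ) - S * Li2 x = ((pc h x a q : ℝ) - cN h a q N) + ((cN h a q N : ℝ) - S * ∑ n ∈ Icc 2 N, vv h n) +
      S * (∑ n ∈ Icc 2 N, vv h n - ∑ n ∈ Icc 2 N, 1 / Real.log (n : ℝ) ^ 2) + S * (∑ n ∈ Icc 2 N, 1 / Real.log (n : ℝ) ^ 2 - Li2 x) := by ring
  rw [e2, hTC]
  have c1 : |S * (∑ n ∈ Icc 2 N, vv h n - ∑ n ∈ Icc 2 N, 1 / Real.log (n : ℝ) ^ 2)| ≤ 3 * L * (8 * h * L) := by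
    rw [abs_mul, abs_of_nonneg hS0]
    exact mul_le_mul hS hvd (abs_nonneg _) (by positivity)
  have c2 : |S * (∑ n ∈ Icc 2 N, 1 / Real.log (n : ℝ) ^ 2 - Li2 x)| ≤ 3 * L * 3 := by
    rw [abs_mul, abs_of_nonneg hS0]
    exact mul_le_mul hS hsi (abs_nonneg _) (by positivity)
  have c3 : 3 * L * (8 * h * L) ≤ T := by
    refine le_trans ?_ hhT
    have : 24 * L ^ 2 ≤ L ^ 3 := by nlinarith [sq_nonneg L]
    calc 3 * L * (8 * (h : ℝ) * L) = (24 * L ^ 2) * h := by ring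
      _ ≤ L ^ 3 * h := mul_le_mul_of_nonneg_right this hhr
  have c4 : (h : ℝ) ≤ T := by
    refine le_trans ?_ hhT
    exact le_mul_of_one_le_left hhr (one_le_pow₀ hL1)
  have d1 := abs_add_le (((pc h x a q : ℝ) - cN h a q N) + ((cN h a q N : ℝ) - S * ∑ n ∈ Icc 2 N, vv h n) +
      S * (∑ n ∈ Icc 2 N, vv h n - ∑ n ∈ Icc 2 N, 1 / Real.log (n : ℝ) ^ 2)) (S * (∑ n ∈ Icc 2 N, 1 / Real.log (n : ℝ) ^ 2 - Li2 x))
  have d2 := abs_add_le (((pc h x a q : ℝ) - cN h a q N) + ((cN h a q N : ℝ) - S * ∑ n ∈ Icc 2 N, vv h n))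
      (S * (∑ n ∈ Icc 2 N, vv h n - ∑ n ∈ Icc 2 N, 1 / Real.log (n : ℝ) ^ 2))
  have d3 := abs_add_le ((pc h x a q : ℝ) - cN h a q N) ((cN h a q N : ℝ) - S * ∑ n ∈ Icc 2 N, vv h n)
  have hfin : 28 * T ≤ T * L := by nlinarith
  linarith

/-- from a grid to all `y` -/
lemma grid (F : ℕ → ℝ) (hF : ∀ y y', y ≤ y' → F y ≤ F y') (S ε : ℝ) (hS : 0 ≤ S) (X s T : ℕ) (hs : 1 ≤ s) (hT : X < T * s)
    (h : ∀ i ∈ range (T + 1), |F (min (i * s) X) - S * ((min (i * s) X : ℕ) : ℝ)| ≤ ε) (y : ℕ) (hy : y ≤ X) :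
    |F y - S * y| ≤ ε + S * s := by
  obtain ⟨i, hi⟩ : ∃ i, i = y / s := ⟨_, rfl⟩
  have h1 : i * s ≤ y := by rw [hi]; exact Nat.div_mul_le_self _ _
  have h2 : y < (i + 1) * s := by
    rw [hi]
    have := Nat.lt_div_mul_add (a := y) (b := s) (by omega)
    rw [add_mul, one_mul]
    exact this
  have hiT : i < T := by
    by_contra hcon
    have : T * s ≤ i * s := Nat.mul_le_mul_right _ (by omega)
    omega
  have g1 := h i (mem_range.2 (by omega))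
  have g2 := h (i + 1) (mem_range.2 (by omega))
  have m1 : min (i * s) X = i * s := min_eq_left (by omega)
  rw [m1] at g1
  have f1 := hF (i * s) y h1
  have f2 := hF y (min ((i + 1) * s) X) (by
    rw [le_min_iff]
    exact ⟨h2.le, hy⟩)
  have m2 : ((min ((i + 1) * s) X : ℕ) : ℝ) ≤ (y : ℝ) + s := by
    have : min ((i + 1) * s) X ≤ y + s := by
      refine (min_le_left _ _).trans ?_
      rw [add_mul, one_mul]
      omega
    exact_mod_cast this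
  have m3 : (y : ℝ) - s ≤ ((i * s : ℕ) : ℝ) := by
    have : y ≤ i * s + s := by
      rw [add_mul, one_mul] at h2
      omega
    have h3 : (y : ℝ) ≤ ((i * s : ℕ) : ℝ) + s := by exact_mod_cast this
    linarith
  rw [abs_le] at g1 g2 ⊢
  have n1 := mul_le_mul_of_nonneg_left m2 hS
  have n2 := mul_le_mul_of_nonneg_left m3 hS
  constructor
  · nlinarith [g1.1]
  · nlinarith [g2.2]

end Pool.Agent.W93.PP
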