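import Pool.Agent.W93.PP8

set_option autoImplicit false

/-! Relative errors. -/

namespace Pool.Agent.W93.PP
open Finset
open Pool.Agent.H373R2.T7
open Pool.Agent.H560R3.GB (sing C₂)
open Pool.Agent.W93.GB

lemma Li2_asymp : ∃ X0 : ℕ, ∀ X : ℕ, X0 ≤ X → |Li2 X - X / Real.log X ^ 2| ≤ 20 * (X / Real.log X ^ 3) := by
  obtain ⟨n1, h1⟩ := ev_log' 3 10
  obtain ⟨n2, h2⟩ := ev_L' 4
  refine ⟨max n1 (max n2 16), fun X hX => ?_⟩
  have a1 := h1 X (le_trans (le_max_left _ _) hX)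
  have a2 := h2 X (le_trans (le_trans (le_max_left _ _) (le_max_right _ _)) hX)
  have hX16 : 16 ≤ X := le_trans (le_trans (le_max_right _ _) (le_max_right _ _)) hX
  have hXr : (16 : ℝ) ≤ X := by exact_mod_cast hX16
  have hX0 : (0 : ℝ) < X := by linarith
  obtain ⟨Y, hY⟩ : ∃ Y : ℝ, Y = X := ⟨_, rfl⟩
  rw [← hY] at a1 a2 hXr hX0 ⊢
  obtain ⟨L, hL⟩ : ∃ L, L = Real.log Y := ⟨_, rfl⟩
  rw [← hL] at a1 a2 ⊢
  have hL0 : 0 < L := by linarith
  have hss : √Y * √Y = Y := Real.mul_self_sqrt hX0.le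
  have hs0 : 0 < √Y := Real.sqrt_pos.2 hX0
  have hs4 : 4 ≤ √Y := by
    apply Real.le_sqrt_of_sq_le
    linarith
  have hsY : √Y ≤ Y := by nlinarith
  have hlog : ∀ t : ℝ, 2 ≤ t → 0 < Real.log t := fun t ht => Real.log_pos (by linarith)
  have hcont3 : ∀ s t : ℝ, 2 ≤ s → 2 ≤ t → IntervalIntegrable (fun t : ℝ => 1 / Real.log t ^ 3) MeasureTheory.volume s t := by
    intro s t hs ht
    apply ContinuousOn.intervalIntegrable
    intro u hu
    rw [Set.mem_uIcc] at hu
    have hu2 : 2 ≤ u := by rcases hu with h | h <;> linarith [h.1]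
    have h0 := hlog u hu2
    apply ContinuousAt.continuousWithinAt
    apply ContinuousAt.div continuousAt_const
    · exact (Real.continuousAt_log (by linarith)).pow 3
    · positivity
  have hder : ∀ t ∈ Set.uIcc (2 : ℝ) Y, HasDerivAt (fun t : ℝ => t / Real.log t ^ 2) (1 / Real.log t ^ 2 - 2 * (1 / Real.log t ^ 3)) t := by
    intro t ht
    rw [Set.uIcc_of_le (by linarith)] at ht
    have h0 := hlog t ht.1
    have ht0 : t ≠ 0 := by linarith [ht.1]
    have h3 : HasDerivAt (fun t : ℝ => Real.log t ^ 2) (((2 : ℕ) : ℝ) * Real.log t ^ (2 - 1) * t⁻¹) t := (Real.hasDerivAt_log ht0).pow 2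
    have h4 : HasDerivAt (fun t : ℝ => t / Real.log t ^ 2)
        ((1 * Real.log t ^ 2 - t * (((2 : ℕ) : ℝ) * Real.log t ^ (2 - 1) * t⁻¹)) / (Real.log t ^ 2) ^ 2) t :=
      (hasDerivAt_id' t).div h3 (by positivity)
    refine h4.congr_deriv ?_
    push_cast
    rw [pow_one]
    field_simp
  have hint : IntervalIntegrable (fun t : ℝ => 1 / Real.log t ^ 2 - 2 * (1 / Real.log t ^ 3)) MeasureTheory.volume 2 Y :=
    (intble 2 Y le_rfl (by linarith)).sub ((hcont3 2 Y le_rfl (by linarith)).const_mul 2)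
  have hftc := intervalIntegral.integral_eq_sub_of_hasDerivAt hder hint
  rw [intervalIntegral.integral_sub (intble 2 Y le_rfl (by linarith)) ((hcont3 2 Y le_rfl (by linarith)).const_mul 2),
    intervalIntegral.integral_const_mul] at hftc
  obtain ⟨I3, hI3⟩ : ∃ I3, I3 = ∫ t in (2 : ℝ)..Y, 1 / Real.log t ^ 3 := ⟨_, rfl⟩
  rw [← hI3, ← hL] at hftc
  have e1 : Li2 Y - Y / L ^ 2 = 2 * I3 - 2 / Real.log 2 ^ 2 := by
    unfold Li2
    linarith
  have hI30 : 0 ≤ I3 := by
    rw [hI3]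
    apply intervalIntegral.integral_nonneg (by linarith)
    intro u hu
    have := hlog u hu.1
    positivity
  have hI3le : I3 ≤ 4 * √Y + 8 * (Y / L ^ 3) := by
    have e2 : I3 = (∫ t in (2 : ℝ)..√Y, 1 / Real.log t ^ 3) + ∫ t in (√Y)..Y, 1 / Real.log t ^ 3 := by
      rw [hI3, intervalIntegral.integral_add_adjacent_intervals (hcont3 _ _ le_rfl (by linarith)) (hcont3 _ _ (by linarith) (by linarith))]
    have g1 : ∫ t in (2 : ℝ)..√Y, 1 / Real.log t ^ 3 ≤ 4 * √Y := by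
      have h6 : ∫ t in (2 : ℝ)..√Y, 1 / Real.log t ^ 3 ≤ ∫ _t in (2 : ℝ)..√Y, (4 : ℝ) := by
        apply intervalIntegral.integral_mono_on (by linarith) (hcont3 _ _ le_rfl (by linarith)) (by simp)
        intro u hu
        refine le_trans ?_ log_two_cube
        apply one_div_le_one_div_of_le (by have := hlog 2 le_rfl; positivity)
        exact pow_le_pow_left₀ (hlog 2 le_rfl).le (Real.log_le_log (by norm_num) hu.1) 3
      refine h6.trans ?_
      rw [intervalIntegral.integral_const, smul_eq_mul]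
      nlinarith
    have g2 : ∫ t in (√Y)..Y, 1 / Real.log t ^ 3 ≤ 8 * (Y / L ^ 3) := by
      have h6 : ∫ t in (√Y)..Y, 1 / Real.log t ^ 3 ≤ ∫ _t in (√Y)..Y, 8 / L ^ 3 := by
        apply intervalIntegral.integral_mono_on hsY (hcont3 _ _ (by linarith) (by linarith)) (by simp)
        intro u hu
        have h7 : L / 2 ≤ Real.log u := by
          have h8 : Real.log (√Y) = L / 2 := by rw [Real.log_sqrt hX0.le, ← hL]
          rw [← h8]
          exact Real.log_le_log hs0 hu.1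
        calc 1 / Real.log u ^ 3 ≤ 1 / (L / 2) ^ 3 := by
              apply one_div_le_one_div_of_le (by positivity)
              exact pow_le_pow_left₀ (by linarith) h7 3
          _ = 8 / L ^ 3 := by rw [div_pow]; field_simp; norm_num
      refine h6.trans ?_
      rw [intervalIntegral.integral_const, smul_eq_mul]
      have h9 : 0 ≤ 8 / L ^ 3 := by positivity
      calc (Y - √Y) * (8 / L ^ 3) ≤ Y * (8 / L ^ 3) := mul_le_mul_of_nonneg_right (by linarith) h9
        _ = 8 * (Y / L ^ 3) := by ring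
    rw [e2]
    linarith
  have hsmall : 8 * √Y + 6 ≤ 4 * (Y / L ^ 3) := by
    have h3 : 10 * √Y ≤ 4 * (Y / L ^ 3) := by
      rw [← mul_div_assoc, le_div_iff₀ (by positivity)]
      have h4 : √Y * (10 * L ^ 3) ≤ √Y * √Y := mul_le_mul_of_nonneg_left a1 hs0.le
      nlinarith
    linarith
  have h22 := log_two_sq
  have h23 : 0 ≤ 2 / Real.log 2 ^ 2 := by have := hlog 2 le_rfl; positivity
  have h24 : 2 / Real.log 2 ^ 2 ≤ 6 := by
    have : 2 / Real.log 2 ^ 2 = 2 * (1 / Real.log 2 ^ 2) := by ring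
    rw [this]; linarith
  rw [e1, abs_le]
  have h25 : 0 < Y / L ^ 3 := by positivity
  constructor
  · linarith
  · linarith

/-- the number of primes `p ≤ X` with `p - d` prime -/
def pi2 (X d : ℕ) : ℕ := ((Icc 1 X).filter (fun p => p.Prime ∧ (p - d).Prime)).card

lemma pi2_eq (X d : ℕ) : pi2 X d = pc d X 0 1 := by
  classical
  unfold pi2 pc
  rw [Nat.floor_natCast]
  apply card_nbij' (i := fun p => p - d) (j := fun m => m + d)
  · intro p hp
    simp only [coe_filter, mem_Icc, Set.mem_ofPred_eq, mem_range] at hp ⊢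
    have h1 := hp.2.2.pos
    have h2 : p - d + d = p := by omega
    refine ⟨by omega, hp.2.2, by rw [h2]; exact hp.2.1, ?_, Nat.modEq_one⟩
    have h3 : ((p - d : ℕ) : ℝ) + d = ((p - d + d : ℕ) : ℝ) := by push_cast; ring
    rw [h3, h2]
    exact_mod_cast hp.1.2
  · intro m hm
    simp only [coe_filter, mem_Icc, Set.mem_ofPred_eq, mem_range] at hm ⊢
    have h1 := hm.2.1.pos
    have h3 : m + d ≤ X := by exact_mod_cast hm.2.2.2.1
    refine ⟨⟨by omega, h3⟩, hm.2.2.1, ?_⟩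
    rw [Nat.add_sub_cancel]
    exact hm.2.1
  · intro p hp
    simp only [coe_filter, mem_Icc, Set.mem_ofPred_eq] at hp
    have h1 := hp.2.2.pos
    show p - d + d = p
    omega
  · intro m _
    simp

lemma rel_of_good : ∃ X0 : ℕ, ∀ X : ℕ, X0 ≤ X → ∀ A D : ℕ, GoodD A 0 4 X D → ∀ d : ℕ, D ≤ d → (d : ℝ) ≤ D + Real.log X ^ A → 2 ∣ d → 0 < d →
    |(pi2 X d : ℝ) * Real.log X ^ 2 / (sing d * X) - 1| ≤ 21 / Real.log X := by
  obtain ⟨X1, h1⟩ := Li2_asymp
  obtain ⟨n2, h2⟩ := ev_L' 1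
  refine ⟨max X1 (max n2 16), fun X hX A D hG d hd1 hd2 hd3 hd4 => ?_⟩
  have a1 := h1 X (le_trans (le_max_left _ _) hX)
  have a2 := h2 X (le_trans (le_trans (le_max_left _ _) (le_max_right _ _)) hX)
  have hX16 : 16 ≤ X := le_trans (le_trans (le_max_right _ _) (le_max_right _ _)) hX
  have hXr : (16 : ℝ) ≤ X := by exact_mod_cast hX16
  have hX0 : (0 : ℝ) < X := by linarith
  obtain ⟨δ, hδ⟩ := Nat.exists_eq_add_of_le hd1
  have hg := hG δ 1 0 (by rw [hδ] at hd2; push_cast at hd2; linarith) le_rfl (by simp) (by simp) (by simp) (by rw [← hδ]; exact hd3)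
    (by rw [← hδ]; omega) X (by linarith) le_rfl
  rw [← hδ, ← pi2_eq] at hg
  have hc1 : Cnt 1 d = 1 := by
    unfold Cnt
    simp
  rw [hc1, Nat.cast_one, div_one] at hg
  obtain ⟨L, hL⟩ : ∃ L, L = Real.log (X : ℝ) := ⟨_, rfl⟩
  rw [← hL] at a1 a2 hg ⊢
  have hL0 : 0 < L := by linarith
  have hs1 := one_le_sing d
  obtain ⟨s, hs⟩ : ∃ s, s = sing d := ⟨_, rfl⟩
  rw [← hs] at hg hs1 ⊢
  have hs0 : 0 < s := by linarith
  have e : (pi2 X d : ℝ) * L ^ 2 / (s * X) - 1 = ((pi2 X d : ℝ) - s * Li2 X) * (L ^ 2 / (s * X)) + (Li2 X - X / L ^ 2) * (L ^ 2 / X) := by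
    field_simp
    ring
  rw [e]
  refine (abs_add_le _ _).trans ?_
  have b1 : |((pi2 X d : ℝ) - s * Li2 X) * (L ^ 2 / (s * X))| ≤ 1 / L := by
    rw [abs_mul, abs_of_pos (by positivity : 0 < L ^ 2 / (s * X))]
    calc |(pi2 X d : ℝ) - s * Li2 X| * (L ^ 2 / (s * X)) ≤ (X / L ^ 4) * (L ^ 2 / (1 * X)) := by
          apply mul_le_mul hg _ (by positivity) (by positivity)
          apply div_le_div_of_nonneg_left (by positivity) (by positivity)
          exact mul_le_mul_of_nonneg_right hs1 hX0.le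
      _ = 1 / L / L := by field_simp
      _ ≤ 1 / L := div_le_self (by positivity) a2
  have b2 : |(Li2 X - X / L ^ 2) * (L ^ 2 / X)| ≤ 20 / L := by
    rw [abs_mul, abs_of_pos (by positivity : 0 < L ^ 2 / (X : ℝ))]
    calc |Li2 X - X / L ^ 2| * (L ^ 2 / X) ≤ 20 * (X / L ^ 3) * (L ^ 2 / X) := mul_le_mul_of_nonneg_right a1 (by positivity)
      _ = 20 / L := by field_simp
  have e3 : 21 / L = 1 / L + 20 / L := by ring
  rw [e3]
  exact add_le_add b1 b2

end Pool.Agent.W93.PP
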