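import Pool.Agent.W93.RD1

set_option autoImplicit false

/-! Random integers with independent digits: short intervals. -/

namespace Pool.Agent.W93.RD
open Finset

/-- splitting off the leading digit -/
lemma ex_succ (b H k : ℕ) (w : ℕ → ℕ → ℝ) (f : ℕ → ℝ) :
    ∑ d ∈ Str H (k + 1), pw w d * f (val b d) =
      ∑ a ∈ range H, w k a * ∑ d ∈ Str H k, pw w d * f (val b d + a * b ^ k) := by
  have h1 : ∀ a ∈ range H, w k a * ∑ d ∈ Str H k, pw w d * f (val b d + a * b ^ k) =
      ∑ d ∈ Str H k, w k a * (pw w d * f (val b d + a * b ^ k)) := by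
    intro a _
    rw [mul_sum]
  rw [sum_congr rfl h1, ← sum_product']
  apply sum_nbij' (i := fun d => (d (Fin.last k), fun j : Fin k => d j.castSucc))
    (j := fun p => (Fin.snoc (α := fun _ => ℕ) p.2 p.1 : Fin (k + 1) → ℕ))
  · intro d hd
    unfold Str at hd ⊢
    rw [Fintype.mem_piFinset] at hd
    rw [mem_product, Fintype.mem_piFinset]
    exact ⟨hd _, fun j => hd _⟩
  · intro p hp
    unfold Str at hp ⊢
    rw [mem_product, Fintype.mem_piFinset] at hp
    rw [Fintype.mem_piFinset]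
    intro j
    refine Fin.lastCases ?_ (fun i => ?_) j
    · rw [Fin.snoc_last]; exact hp.1
    · rw [Fin.snoc_castSucc]; exact hp.2 i
  · intro d _
    ext j
    refine Fin.lastCases ?_ (fun i => ?_) j
    · rw [Fin.snoc_last]
    · rw [Fin.snoc_castSucc]
  · intro p _
    ext
    · simp
    · simp
  · intro d _
    have e1 : pw w d = w k (d (Fin.last k)) * pw w (fun j : Fin k => d j.castSucc) := by
      unfold pw
      rw [Fin.prod_univ_castSucc, mul_comm]
      rfl
    have e2 : val b d = val b (fun j : Fin k => d j.castSucc) + d (Fin.last k) * b ^ k := by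
      unfold val
      rw [Fin.sum_univ_castSucc]
      rfl
    rw [e1, e2]
    ring

lemma pw_nonneg {H k : ℕ} (w : ℕ → ℕ → ℝ) (hw0 : ∀ j < k, ∀ a, 0 ≤ w j a) (d : Fin k → ℕ) : 0 ≤ pw w d :=
  prod_nonneg fun j _ => hw0 j j.2 _

lemma pw_sum (H k : ℕ) (w : ℕ → ℕ → ℝ) (hsum : ∀ j < k, ∑ a ∈ range H, w j a = 1) : ∑ d ∈ Str H k, pw w d = 1 := by
  unfold Str pw
  rw [← Finset.prod_univ_sum]
  apply prod_eq_one
  intro j _
  exact hsum j j.2

lemma val_le (b H k : ℕ) (hb : 2 ≤ b) (d : Fin k → ℕ) (hd : d ∈ Str H k) : val b d ≤ H * b ^ k := by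
  unfold Str at hd
  rw [Fintype.mem_piFinset] at hd
  unfold val
  have h1 : ∀ n : ℕ, ∑ j ∈ range n, b ^ j ≤ b ^ n := by
    intro n
    induction n with
    | zero => simp
    | succ n ih =>
      rw [sum_range_succ, pow_succ]
      have : b ^ n * 2 ≤ b ^ n * b := Nat.mul_le_mul_left _ hb
      omega
  calc ∑ j : Fin k, d j * b ^ (j : ℕ) ≤ ∑ j : Fin k, H * b ^ (j : ℕ) :=
        sum_le_sum fun j _ => Nat.mul_le_mul_right _ (mem_range.1 (hd j)).le
    _ = H * ∑ j ∈ range k, b ^ j := by rw [← mul_sum, Fin.sum_univ_eq_sum_range (fun j => b ^ j) k]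
    _ ≤ _ := Nat.mul_le_mul_left _ (h1 k)

/-- averages of translates -/
lemma tower (b H k s : ℕ) (w : ℕ → ℕ → ℝ) (hw0 : ∀ j < k + s, ∀ a, 0 ≤ w j a)
    (hsum : ∀ j < k + s, ∑ a ∈ range H, w j a = 1) (f : ℤ → ℝ) (S : ℝ)
    (h : ∀ c : ℤ, ∑ d ∈ Str H k, pw w d * f (c + val b d) ≤ S) (c : ℤ) :
    ∑ d ∈ Str H (k + s), pw w d * f (c + val b d) ≤ S := by
  induction s generalizing c with
  | zero => exact h c
  | succ s ih =>
    have h1 := ex_succ b H (k + s) w (fun x : ℕ => f (c + x))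
    rw [← add_assoc, h1]
    have h2 : ∀ a ∈ range H, w (k + s) a * ∑ d ∈ Str H (k + s), pw w d * f (c + ((val b d + a * b ^ (k + s) : ℕ) : ℤ)) ≤
        w (k + s) a * S := by
      intro a _
      apply mul_le_mul_of_nonneg_left _ (hw0 (k + s) (by omega) a)
      have h3 := ih (fun j hj => hw0 j (by omega)) (fun j hj => hsum j (by omega)) (c + ((a * b ^ (k + s) : ℕ) : ℤ))
      refine le_trans (le_of_eq ?_) h3
      apply sum_congr rfl
      intro d _
      congr 2
      push_cast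
      ring
    refine (sum_le_sum h2).trans (le_of_eq ?_)
    rw [← sum_mul, hsum (k + s) (by omega), one_mul]

/-- short intervals contain few of the integers -/
lemma anti (b H l T : ℕ) (hb : 2 ≤ b) (η : ℝ) (w : ℕ → ℕ → ℝ) (k : ℕ) (hk : k = l + T * (H + 1)) (hη : η ≤ 1)
    (hw0 : ∀ j < k, ∀ a, 0 ≤ w j a) (hw1 : ∀ j < k, ∀ a, w j a ≤ 1 - η)
    (hsum : ∀ j < k, ∑ a ∈ range H, w j a = 1) (lo : ℤ) (c : ℤ) :
    ∑ d ∈ Str H k, pw w d * (fun x : ℤ => if lo ≤ x ∧ x < lo + (b : ℤ) ^ l then (1 : ℝ) else 0) (c + val b d) ≤ (1 - η) ^ T := by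
  induction T generalizing c k with
  | zero =>
    rw [pow_zero]
    refine le_trans ?_ (pw_sum H k w hsum).le
    apply sum_le_sum
    intro d _
    have := pw_nonneg (H := H) w hw0 d
    simp only
    split_ifs
    · rw [mul_one]
    · rw [mul_zero]; exact this
  | succ T ih =>
    obtain ⟨K, hK⟩ : ∃ K, K = l + T * (H + 1) := ⟨_, rfl⟩
    have hk' : k = K + H + 1 := by rw [hk, hK]; ring
    have ih' := ih K hK (fun j hj => hw0 j (by omega)) (fun j hj => hw1 j (by omega)) (fun j hj => hsum j (by omega))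
    set I : ℤ → ℝ := fun x : ℤ => if lo ≤ x ∧ x < lo + (b : ℤ) ^ l then (1 : ℝ) else 0 with hI
    have hI0 : ∀ x, 0 ≤ I x := by
      intro x
      rw [hI]
      simp only
      split_ifs <;> norm_num
    subst hk'
    rw [ex_succ b H (K + H) w (fun x : ℕ => I (c + x))]
    have h1 : ∑ a ∈ range H, w (K + H) a * ∑ d ∈ Str H (K + H), pw w d * I (c + ((val b d + a * b ^ (K + H) : ℕ) : ℤ)) =
        ∑ d ∈ Str H (K + H), pw w d * (fun x : ℤ => ∑ a ∈ range H, w (K + H) a * I (x + a * (b : ℤ) ^ (K + H))) (c + val b d) := by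
      simp only [mul_sum]
      rw [sum_comm]
      apply sum_congr rfl
      intro d _
      apply sum_congr rfl
      intro a _
      push_cast
      rw [add_assoc]
      ring
    rw [h1]
    clear h1
    refine tower b H K H w (fun j hj => hw0 j (by omega)) (fun j hj => hsum j (by omega))
      (fun x : ℤ => ∑ a ∈ range H, w (K + H) a * I (x + a * (b : ℤ) ^ (K + H))) _ ?_ c
    intro c
    have h2 : ∑ d ∈ Str H K, pw w d * (fun x : ℤ => ∑ a ∈ range H, w (K + H) a * I (x + a * (b : ℤ) ^ (K + H))) (c + val b d) =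
        ∑ a ∈ range H, w (K + H) a * ∑ d ∈ Str H K, pw w d * I ((c + a * (b : ℤ) ^ (K + H)) + val b d) := by
      simp only [mul_sum]
      rw [sum_comm]
      apply sum_congr rfl
      intro a _
      apply sum_congr rfl
      intro d _
      have : c + (val b d : ℤ) + a * (b : ℤ) ^ (K + H) = c + a * (b : ℤ) ^ (K + H) + val b d := by ring
      rw [this]
      ring
    rw [h2]
    set G : ℕ → ℝ := fun a => ∑ d ∈ Str H K, pw w d * I ((c + a * (b : ℤ) ^ (K + H)) + val b d) with hG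
    have hG1 : ∀ a, G a ≤ (1 - η) ^ T := fun a => ih' _
    have hG0 : ∀ a, 0 ≤ G a := fun a => sum_nonneg fun d _ =>
      mul_nonneg (pw_nonneg (H := H) w (fun j hj => hw0 j (by omega)) d) (hI0 _)
    have hsupp : ∀ a, G a ≠ 0 → lo ≤ c + a * (b : ℤ) ^ (K + H) + H * (b : ℤ) ^ K ∧ c + a * (b : ℤ) ^ (K + H) < lo + (b : ℤ) ^ l := by
      intro a ha
      obtain ⟨d, hd, hne⟩ := exists_ne_zero_of_sum_ne_zero ha
      have h3 : I ((c + a * (b : ℤ) ^ (K + H)) + val b d) ≠ 0 := right_ne_zero_of_mul hne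
      rw [hI] at h3
      simp only [ne_eq, ite_eq_right_iff, one_ne_zero, imp_false, not_not] at h3
      have h4 : (val b d : ℤ) ≤ H * (b : ℤ) ^ K := by exact_mod_cast val_le b H K hb d hd
      have h5 : (0 : ℤ) ≤ val b d := Int.natCast_nonneg _
      constructor <;> omega
    have huniq : ∀ a a', G a ≠ 0 → G a' ≠ 0 → a ≤ a' := by
      intro a a' ha ha'
      by_contra hcon
      push Not at hcon
      obtain ⟨h3, h4⟩ := hsupp a ha
      obtain ⟨h5, h6⟩ := hsupp a' ha'
      have h7 : ((a' : ℤ) + 1) * (b : ℤ) ^ (K + H) ≤ a * (b : ℤ) ^ (K + H) := by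
        apply mul_le_mul_of_nonneg_right _ (by positivity)
        omega
      have h8 : (b : ℤ) ^ l ≤ (b : ℤ) ^ K := pow_le_pow_right₀ (by omega) (by omega)
      have h9 : ((H : ℤ) + 1) * (b : ℤ) ^ K ≤ (b : ℤ) ^ (K + H) := by
        rw [pow_add, mul_comm]
        apply mul_le_mul_of_nonneg_left _ (by positivity)
        have : H + 1 ≤ b ^ H := by
          calc H + 1 ≤ 2 ^ H := Nat.lt_two_pow_self
            _ ≤ b ^ H := Nat.pow_le_pow_left hb H
        exact_mod_cast this
      rw [add_mul, one_mul] at h7 h9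
      linarith
    by_cases hex : ∃ a ∈ range H, G a ≠ 0
    · obtain ⟨a, ha, hGa⟩ := hex
      rw [sum_eq_single a]
      · rw [pow_succ']
        exact mul_le_mul (hw1 (K + H) (by omega) a) (hG1 a) (hG0 a) (by linarith)
      · intro a' _ hne
        by_cases h3 : G a' = 0
        · rw [hG] at h3
          simp only at h3
          rw [h3, mul_zero]
        · exact absurd (le_antisymm (huniq _ _ h3 hGa) (huniq _ _ hGa h3)) hne
      · intro h; exact absurd ha h
    · push Not at hex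
      rw [sum_eq_zero]
      · apply pow_nonneg; linarith
      · intro a ha
        have h3 := hex a ha
        rw [hG] at h3
        simp only at h3
        rw [h3, mul_zero]

/-- short intervals contain few of the integers -/
lemma anti' (b H l T : ℕ) (hb : 2 ≤ b) (η : ℝ) (w : ℕ → ℕ → ℝ) (k : ℕ) (hk : l + T * (H + 1) ≤ k) (hη : η ≤ 1)
    (hw0 : ∀ j < k, ∀ a, 0 ≤ w j a) (hw1 : ∀ j < k, ∀ a, w j a ≤ 1 - η)
    (hsum : ∀ j < k, ∑ a ∈ range H, w j a = 1) (lo : ℤ) (c : ℤ) :
    ∑ d ∈ Str H k, pw w d * (fun x : ℤ => if lo ≤ x ∧ x < lo + (b : ℤ) ^ l then (1 : ℝ) else 0) (c + val b d) ≤ (1 - η) ^ T := by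
  obtain ⟨s, hs⟩ : ∃ s, k = l + T * (H + 1) + s := ⟨k - (l + T * (H + 1)), by omega⟩
  subst hs
  refine tower b H _ s w hw0 hsum (fun x : ℤ => if lo ≤ x ∧ x < lo + (b : ℤ) ^ l then (1 : ℝ) else 0) _ ?_ c
  intro c
  exact anti b H l T hb η w _ rfl hη (fun j hj => hw0 j (by omega)) (fun j hj => hw1 j (by omega)) (fun j hj => hsum j (by omega)) lo c

end Pool.Agent.W93.RD
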