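import Pool.Agent.W93.TD1

set_option autoImplicit false

/-! Tuples: the second moment of the correlations. -/

namespace Pool.Agent.W93.TD
open Finset
open Pool.Agent.H807R2.Dav
open Pool.Agent.H373R2.T7
open Pool.Agent.W93.DG
open Pool.Agent.W93.RD

/-- correlations on the lattice of frequencies -/
lemma EE_corr (f g : ℕ → ℝ) (X M N : ℕ) (hX : 1 ≤ X) (hM : 2 * X ≤ M) (hN : N ≤ X) (hf : ∀ n, N < n → f n = 0) (a : ℤ)
    (ha : -(X : ℤ) < a) (ha2 : N + a ≤ X) :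
    EE (fun r => (starRingEnd ℂ) (FF f X M r) * FF g X M r) M a =
      ((M * ∑ n ∈ Icc 1 N, f n * (if 1 ≤ (n : ℤ) + a then g ((n : ℤ) + a).toNat else 0) : ℝ) : ℂ) := by
  unfold EE
  have h1 : ∀ r ∈ range M, (starRingEnd ℂ) (FF f X M r) * FF g X M r * ee (-((a : ℝ) * ((r : ℝ) / (M : ℝ)))) =
      ∑ n ∈ Icc 1 X, ∑ m ∈ Icc 1 X, (((f n * g m : ℝ) : ℂ)) * ee ((r : ℝ) * ((((m : ℤ) - n - a : ℤ) : ℝ) / M)) := by
    intro r _
    unfold FF
    rw [map_sum, sum_mul_sum, sum_mul]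
    apply sum_congr rfl
    intro n _
    rw [sum_mul]
    apply sum_congr rfl
    intro m _
    have e1 : ee ((r : ℝ) * ((((m : ℤ) - n - a : ℤ) : ℝ) / M)) = ee (-((n : ℝ) * ((r : ℝ) / M))) * ee ((m : ℝ) * ((r : ℝ) / M)) *
        ee (-((a : ℝ) * ((r : ℝ) / (M : ℝ)))) := by
      rw [← ee_add, ← ee_add]
      congr 1
      push_cast
      ring
    rw [e1, map_mul, conj_ee, Complex.conj_ofReal]
    push_cast
    ring
  rw [sum_congr rfl h1, sum_comm]
  have h2 : ∀ n ∈ Icc 1 X, ∑ r ∈ range M, ∑ m ∈ Icc 1 X, (((f n * g m : ℝ) : ℂ)) * ee ((r : ℝ) * ((((m : ℤ) - n - a : ℤ) : ℝ) / M)) =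
      ((M * (f n * (if 1 ≤ (n : ℤ) + a then g ((n : ℤ) + a).toNat else 0)) : ℝ) : ℂ) := by
    intro n hn
    rw [mem_Icc] at hn
    rw [sum_comm]
    have h3 : ∀ m ∈ Icc 1 X, ∑ r ∈ range M, (((f n * g m : ℝ) : ℂ)) * ee ((r : ℝ) * ((((m : ℤ) - n - a : ℤ) : ℝ) / M)) =
        (((f n * g m : ℝ) : ℂ)) * (if (M : ℤ) ∣ (m : ℤ) - n - a then (M : ℂ) else 0) := by
      intro m _
      rw [← mul_sum, orth M (by omega)]
    rw [sum_congr rfl h3]
    rcases Nat.lt_or_ge N n with hNn | hNn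
    · simp [hf n hNn]
    by_cases hna : 1 ≤ (n : ℤ) + a
    · rw [if_pos hna]
      obtain ⟨y, hy⟩ : ∃ y : ℕ, (y : ℤ) = n + a := ⟨((n : ℤ) + a).toNat, by omega⟩
      have hy' : ((n : ℤ) + a).toNat = y := by omega
      rw [hy', sum_eq_single y]
      · rw [if_pos (by rw [hy]; simp)]
        push_cast
        ring
      · intro m hm hne
        rw [mem_Icc] at hm
        rw [if_neg, mul_zero]
        intro hd
        have := Int.eq_zero_of_abs_lt_dvd hd (by rw [abs_lt]; constructor <;> omega)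
        omega
      · intro h
        exfalso
        apply h
        rw [mem_Icc]
        omega
    · rw [if_neg hna, mul_zero, mul_zero, Complex.ofReal_zero]
      apply sum_eq_zero
      intro m hm
      rw [mem_Icc] at hm
      rw [if_neg, mul_zero]
      intro hd
      have := Int.eq_zero_of_abs_lt_dvd hd (by rw [abs_lt]; constructor <;> omega)
      omega
  rw [sum_congr rfl h2]
  have h4 : ∑ n ∈ Icc 1 N, f n * (if 1 ≤ (n : ℤ) + a then g ((n : ℤ) + a).toNat else 0) =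
      ∑ n ∈ Icc 1 X, f n * (if 1 ≤ (n : ℤ) + a then g ((n : ℤ) + a).toNat else 0) := by
    apply sum_subset (Icc_subset_Icc le_rfl hN)
    intro n hn hn'
    rw [mem_Icc] at hn hn'
    rw [hf n (by omega), zero_mul]
  rw [h4]
  push_cast
  rw [mul_sum]

lemma FF_sq_le (f : ℕ → ℝ) (X M N : ℕ) (hM : 1 ≤ M) (hX : X ≤ M) (hf : ∀ n, N < n → f n = 0) (Fb : ℝ) (hFb : ∀ n ∈ Icc 1 N, |f n| ≤ Fb) :
    ∑ r ∈ range M, ‖FF f X M r‖ ^ 2 ≤ M * (Fb ^ 2 * X) := by
  rw [FF_pars f X M hM hX]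
  apply mul_le_mul_of_nonneg_left _ (Nat.cast_nonneg _)
  have h1 : ∀ n ∈ Icc 1 X, f n ^ 2 ≤ Fb ^ 2 := by
    intro n hn
    rw [mem_Icc] at hn
    rcases Nat.lt_or_ge N n with h | h
    · rw [hf n h, zero_pow (by norm_num)]
      positivity
    · rw [← sq_abs]
      exact pow_le_pow_left₀ (abs_nonneg _) (hFb n (mem_Icc.2 ⟨hn.1, h⟩)) 2
  refine (sum_le_sum h1).trans (le_of_eq ?_)
  rw [sum_const, Nat.card_Icc, nsmul_eq_mul, Nat.add_sub_cancel, mul_comm]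

/-- the `L²` norm of the difference -/
lemma G_sq (E : ℕ) : ∃ N0 : ℕ, ∀ X : ℕ, N0 ≤ X → ∀ M : ℕ, X ≤ M → ∀ z : ℕ, 1 ≤ z → (z : ℝ) ≤ Real.log X ^ E →
    ∑ r ∈ range M, ‖FF (fun n => ArithmeticFunction.vonMangoldt n - lamz z n) X M r‖ ^ 2 ≤ M * (14 * X * Real.log X ^ 2) := by
  obtain ⟨N0, h0⟩ := Vz_inv_small E
  refine ⟨max N0 3, fun X hX M hXM z hz hzE => ?_⟩
  have hX3 : 3 ≤ X := le_trans (le_max_right _ _) hX
  have hV := h0 X (le_trans (le_max_left _ _) hX) z hz hzE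
  have hX0 : (0 : ℝ) < X := by exact_mod_cast (by omega : 0 < X)
  have hM0 : (0 : ℝ) < M := by exact_mod_cast (by omega : 0 < M)
  set L := Real.log X with hL
  have hL1 : 1 ≤ L := by
    rw [hL, Real.le_log_iff_exp_le hX0]
    have := Real.exp_one_lt_d9
    have : (3 : ℝ) ≤ X := by exact_mod_cast hX3
    linarith
  have h1 := sum_vM_sq X (by omega)
  rw [← hL] at h1
  rw [FF_pars _ X M (by omega) hXM]
  apply mul_le_mul_of_nonneg_left _ hM0.le
  have h3 : ∀ n ∈ Icc 1 X, (ArithmeticFunction.vonMangoldt n - lamz z n) ^ 2 ≤ 2 * ArithmeticFunction.vonMangoldt n ^ 2 + 2 * L ^ 2 := by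
    intro n _
    have h4 : lamz z n ≤ L := by
      refine le_trans ?_ hV
      unfold lamz
      split_ifs
      · exact le_rfl
      · exact (inv_pos.2 (Vz_pos z)).le
    have h5 : lamz z n ^ 2 ≤ L ^ 2 := pow_le_pow_left₀ (lamz_nonneg _ _) h4 2
    nlinarith [sq_nonneg (ArithmeticFunction.vonMangoldt n + lamz z n)]
  refine (sum_le_sum h3).trans ?_
  rw [sum_add_distrib, ← mul_sum, sum_const, Nat.card_Icc, nsmul_eq_mul]
  have h6 : ((X + 1 - 1 : ℕ) : ℝ) = X := by simp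
  rw [h6]
  have h7 : 6 * X * L ≤ 6 * X * L ^ 2 := by
    apply mul_le_mul_of_nonneg_left _ (by positivity)
    nlinarith
  nlinarith

lemma sqrt_num (M X Fb P : ℝ) (hM : 0 ≤ M) (hX : 0 ≤ X) (hF : 0 ≤ Fb) (V : ℕ) (K : ℝ) (hK : 0 < K)
    (hP : P ≤ M * X / K ^ (2 * V)) : √(M * (Fb ^ 2 * X)) * √P ≤ Fb * M * X / K ^ V := by
  have h1 : √(M * (Fb ^ 2 * X)) * √P ≤ √(M * (Fb ^ 2 * X)) * √(M * X / K ^ (2 * V)) :=
    mul_le_mul_of_nonneg_left (Real.sqrt_le_sqrt hP) (Real.sqrt_nonneg _)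
  refine h1.trans ?_
  rw [← Real.sqrt_mul (by positivity), Real.sqrt_le_left (by positivity)]
  apply le_of_eq
  rw [mul_comm 2 V, pow_mul]
  ring

lemma sqrt_num2 (M X Fb L K b : ℝ) (hM : 0 ≤ M) (hX : 0 ≤ X) (hF : 0 ≤ Fb) (hL : 0 ≤ L) (hLK : L ≤ b * K) :
    √(M * (Fb ^ 2 * X)) * √(M * (14 * X * L ^ 2)) ≤ 4 * b * K * (Fb * M * X) := by
  have h1 : √(M * (Fb ^ 2 * X)) * √(M * (14 * X * L ^ 2)) ≤ 4 * L * (Fb * M * X) := by
    rw [← Real.sqrt_mul (by positivity), Real.sqrt_le_left (by positivity)]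
    have h2 : 0 ≤ (L * (Fb * M * X)) ^ 2 := by positivity
    nlinarith
  refine h1.trans ?_
  have h3 : 0 ≤ Fb * M * X := by positivity
  nlinarith

/-- the second moment is small -/
theorem td_var (b H e : ℕ) (hb : 2 ≤ b) (η : ℝ) (hη : 0 < η) (hη1 : η ≤ 1) (U : ℕ) : ∃ B : ℕ, ∀ Ez : ℕ, ∃ k₀ : ℕ, ∀ k : ℕ, k₀ ≤ k →
    ∀ z : ℕ, Real.log ((b ^ (k + e) : ℕ) : ℝ) ^ B ≤ z → (z : ℝ) ≤ Real.log ((b ^ (k + e) : ℕ) : ℝ) ^ Ez →
    ∀ w : ℕ → ℕ → ℝ, (∀ j < k, ∀ a, 0 ≤ w j a) → (∀ j < k, ∀ a, w j a ≤ 1 - η) → (∀ j < k, ∑ a ∈ range H, w j a = 1) → ∀ c : ℤ,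
    ∀ (N : ℕ) (f : ℕ → ℝ) (Fb : ℝ), 0 ≤ Fb → (∀ n ∈ Icc 1 N, |f n| ≤ Fb) → (∀ n, N < n → f n = 0) →
    ∑ d ∈ Str H k, pw w d * ‖EE (fun r => (starRingEnd ℂ) (FF f (b ^ (k + e)) (b ^ (k + e + 1)) r) *
        FF (fun n => ArithmeticFunction.vonMangoldt n - lamz z n) (b ^ (k + e)) (b ^ (k + e + 1)) r) (b ^ (k + e + 1)) (c + val b d)‖ ^ 2 ≤
      (Fb * ((b ^ (k + e + 1) : ℕ) : ℝ) * ((b ^ (k + e) : ℕ) : ℝ)) ^ 2 / (k : ℝ) ^ U := by
  classical
  rcases Nat.eq_zero_or_pos H with hH0 | hH0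
  · refine ⟨0, fun _ => ⟨1, fun k hk z _ _ w _ _ hsum c => ?_⟩⟩
    exfalso
    have := hsum 0 (by omega)
    rw [hH0] at this
    simp at this
  obtain ⟨γ, hγ⟩ : ∃ γ, γ = 1 - 4 * (η / H) * ((1 / (b : ℝ) ^ 2) / H.factorial) ^ 2 := ⟨_, rfl⟩
  have hHr : (1 : ℝ) ≤ H := by exact_mod_cast hH0
  have hbr : (2 : ℝ) ≤ b := by exact_mod_cast hb
  have hfr : (1 : ℝ) ≤ H.factorial := by exact_mod_cast H.factorial_pos
  have hγ1 : γ < 1 := by
    rw [hγ]
    have : 0 < 4 * (η / H) * ((1 / (b : ℝ) ^ 2) / H.factorial) ^ 2 := by positivity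
    linarith
  have hγ0 : 0 ≤ γ := by
    rw [hγ]
    have h1 : η / H ≤ 1 := by rw [div_le_one (by linarith)]; linarith
    have h2 : (1 / (b : ℝ) ^ 2) / H.factorial ≤ 1 / 4 := by
      rw [div_div]
      apply div_le_div_of_nonneg_left (by norm_num) (by norm_num)
      have : (4 : ℝ) ≤ (b : ℝ) ^ 2 := by nlinarith
      nlinarith
    have h3 : ((1 / (b : ℝ) ^ 2) / H.factorial) ^ 2 ≤ (1 / 4) ^ 2 := pow_le_pow_left₀ (by positivity) h2 2
    have h4 : 4 * (η / H) * ((1 / (b : ℝ) ^ 2) / H.factorial) ^ 2 ≤ 4 * 1 * (1 / 4) ^ 2 := by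
      apply mul_le_mul _ h3 (by positivity) (by norm_num)
      linarith
    norm_num at h4 ⊢
    linarith
  obtain ⟨R, hR, hbad⟩ := bad_sq b hb
  obtain ⟨A₀, hsav⟩ := saving b R hb hR γ hγ0 hγ1 e (U + 6)
  obtain ⟨A, B, hUA, hB⟩ := hbad H.factorial (max (2 * (U + 6)) A₀)
  refine ⟨B, fun Ez => ?_⟩
  obtain ⟨k1, h1⟩ := hB Ez
  obtain ⟨N2, h2⟩ := G_sq Ez
  obtain ⟨k3, h3⟩ := hh_small b A 4 hb
  obtain ⟨C, hC⟩ : ∃ C : ℝ, C = 4 * b := ⟨_, rfl⟩
  have hC0 : 0 ≤ C := by rw [hC]; positivity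
  obtain ⟨k4, hk4⟩ := exists_nat_ge (C * (1 + 2 ^ e * C))
  refine ⟨k1 + N2 + k3 + k4 + 128 * b * (e + 1) + 4, fun k hk z hz1 hz2 w hw0 hw1 hsum c N f Fb hFb0 hFb hfN => ?_⟩
  have hvar := EE_var b H e k hb η hη w hw0 hw1 hsum (fun r => (starRingEnd ℂ) (FF f (b ^ (k + e)) (b ^ (k + e + 1)) r) *
        FF (fun n => ArithmeticFunction.vonMangoldt n - lamz z n) (b ^ (k + e)) (b ^ (k + e + 1)) r) c
  rw [← hγ] at hvar
  refine hvar.trans ?_
  clear hvar
  obtain ⟨K, hK⟩ : ∃ K, K = k + e := ⟨_, rfl⟩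
  rw [show k + e + 1 = K + 1 by rw [hK], ← hK]
  rw [← hK] at hz1 hz2
  obtain ⟨X, hX⟩ : ∃ X, X = b ^ K := ⟨_, rfl⟩
  obtain ⟨M, hM⟩ : ∃ M, M = b ^ (K + 1) := ⟨_, rfl⟩
  rw [← hX, ← hM]
  rw [← hX] at hz1 hz2
  obtain ⟨F, hF⟩ : ∃ F : ℕ → ℂ, F = fun r => (starRingEnd ℂ) (FF f X M r) := ⟨_, rfl⟩
  obtain ⟨G, hG⟩ : ∃ G : ℕ → ℂ, G = FF (fun n => ArithmeticFunction.vonMangoldt n - lamz z n) X M := ⟨_, rfl⟩
  have hFr : ∀ r, (starRingEnd ℂ) (FF f X M r) = F r := fun r => by rw [hF]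
  simp only [hFr, ← hG]
  have hKX : K < X := by rw [hX]; exact Nat.lt_pow_self (by omega)
  have hXM : X ≤ M := by rw [hX, hM]; exact Nat.pow_le_pow_right (by omega) (by omega)
  have hX0 : (0 : ℝ) < X := by exact_mod_cast (by omega : 0 < X)
  have hM0 : (0 : ℝ) < M := by exact_mod_cast (by omega : 0 < M)
  obtain ⟨hL1, hL2⟩ := logX b K hb
  rw [← hX] at hL1 hL2
  obtain ⟨L, hL⟩ : ∃ L, L = Real.log (X : ℝ) := ⟨_, rfl⟩
  rw [← hL] at hL1 hL2 hz1 hz2
  have hK4 : (4 : ℝ) ≤ K := by exact_mod_cast (by omega : 4 ≤ K)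
  have hL0 : 0 < L := by linarith
  have hz : 1 ≤ z := by
    have : (1 : ℝ) ≤ z := (one_le_pow₀ (by linarith : 1 ≤ L)).trans hz1
    exact_mod_cast this
  have hG2 := h2 X (by omega) M hXM z hz (by rw [← hL]; exact hz2)
  rw [← hG, ← hL] at hG2
  have hF2 : ∑ r ∈ range M, ‖F r‖ ^ 2 ≤ M * (Fb ^ 2 * X) := by
    refine le_trans (le_of_eq ?_) (FF_sq_le f X M N (by omega) hXM hfN Fb hFb)
    apply sum_congr rfl
    intro r _
    rw [hF, RCLike.norm_conj]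
  obtain ⟨T, hTd⟩ : ∃ T, T = ∑ r ∈ range M, ‖F r * G r‖ := ⟨_, rfl⟩
  have hT0 : 0 ≤ T := by rw [hTd]; exact sum_nonneg fun _ _ => norm_nonneg _
  obtain ⟨Y, hY⟩ : ∃ Y, Y = Fb * M * X := ⟨_, rfl⟩
  have hY0 : 0 ≤ Y := by rw [hY]; positivity
  have hT' : T ≤ C * (K : ℝ) ^ 2 * Y := by
    have e1 := Real.sum_mul_le_sqrt_mul_sqrt (range M) (fun r => ‖F r‖) (fun r => ‖G r‖)
    have e2 : T ≤ √(M * (Fb ^ 2 * X)) * √(M * (14 * X * L ^ 2)) := by
      rw [hTd]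
      simp only [norm_mul]
      refine e1.trans ?_
      exact mul_le_mul (Real.sqrt_le_sqrt hF2) (Real.sqrt_le_sqrt hG2) (Real.sqrt_nonneg _) (Real.sqrt_nonneg _)
    refine e2.trans ((sqrt_num2 M X Fb L K b hM0.le hX0.le hFb0 hL0.le hL2).trans ?_)
    rw [hC, ← hY]
    have : (K : ℝ) ≤ (K : ℝ) ^ 2 := by nlinarith
    gcongr
  -- the rows
  have hrow : ∀ r ∈ range M, ∑ r' ∈ range M, ‖F r' * G r'‖ *
      γ ^ ne b e k ((H.factorial * r' + H.factorial * (M - r)) % M) ≤ Y / (K : ℝ) ^ (U + 6) + 2 ^ e / (K : ℝ) ^ (U + 6) * T := by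
    intro r hr
    rw [mem_range] at hr
    obtain ⟨s, hs⟩ : ∃ s : ℕ → ℕ, s = fun r' => (H.factorial * r' + H.factorial * (M - r)) % M := ⟨_, rfl⟩
    have hss : ∀ r', (H.factorial * r' + H.factorial * (M - r)) % M = s r' := fun r' => by rw [hs]
    simp only [hss]
    rw [← sum_filter_add_sum_filter_not (range M) (fun r' => Bad b R K (hh b A K) (K / (16 * b)) (s r'))]
    apply add_le_add
    · have e1 := h1 K (by omega) z (by rw [← hX, ← hL]; exact hz1) (by rw [← hX, ← hL]; exact hz2) (H.factorial * (M - r)) H.factorial H.factorial_pos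
        ((Nat.lt_pow_self (by omega : 1 < b)).le) ((range M).filter (fun r' => Bad b R K (hh b A K) (K / (16 * b)) (s r'))) (by
          intro r' hr'
          rw [mem_filter, mem_range] at hr'
          rw [← hM, hss]
          exact hr')
      rw [← hX, ← hM, ← hG] at e1
      have e2 : ∑ r' ∈ (range M).filter (fun r' => Bad b R K (hh b A K) (K / (16 * b)) (s r')), ‖F r' * G r'‖ * γ ^ ne b e k (s r') ≤
          ∑ r' ∈ (range M).filter (fun r' => Bad b R K (hh b A K) (K / (16 * b)) (s r')), ‖F r'‖ * ‖G r'‖ := by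
        apply sum_le_sum
        intro r' _
        rw [norm_mul]
        exact mul_le_of_le_one_right (by positivity) (pow_le_one₀ hγ0 hγ1.le)
      have e3 := Real.sum_mul_le_sqrt_mul_sqrt ((range M).filter (fun r' => Bad b R K (hh b A K) (K / (16 * b)) (s r')))
        (fun r => ‖F r‖) (fun r => ‖G r‖)
      refine e2.trans (e3.trans ?_)
      have e4 : ∑ r' ∈ (range M).filter (fun r' => Bad b R K (hh b A K) (K / (16 * b)) (s r')), ‖F r'‖ ^ 2 ≤ M * (Fb ^ 2 * X) :=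
        (sum_le_sum_of_subset_of_nonneg (filter_subset _ _) fun _ _ _ => sq_nonneg _).trans hF2
      have e5 := sqrt_num M X Fb _ hM0.le hX0.le hFb0 (U + 6) K (by linarith) (e1.trans (by
        apply div_le_div_of_nonneg_left (by positivity) (by positivity)
        exact pow_le_pow_right₀ (by linarith) (le_max_left _ _)))
      rw [hY]
      exact (mul_le_mul_of_nonneg_right (Real.sqrt_le_sqrt e4) (Real.sqrt_nonneg _)).trans e5
    · have e1 : ∀ r' ∈ (range M).filter (fun r' => ¬ Bad b R K (hh b A K) (K / (16 * b)) (s r')),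
          ‖F r' * G r'‖ * γ ^ ne b e k (s r') ≤ ‖F r' * G r'‖ * (2 ^ e / (K : ℝ) ^ (U + 6)) := by
        intro r' hr'
        rw [mem_filter] at hr'
        apply mul_le_mul_of_nonneg_left _ (norm_nonneg _)
        apply hsav A ((le_max_right _ _).trans hUA) K _ (by omega)
        have h4 := h3 K (by omega)
        have hm : e + 1 ≤ K / (16 * b) / 8 := by
          rw [Nat.div_div_eq_div_mul]
          apply (Nat.le_div_iff_mul_le (by omega)).2
          calc (e + 1) * (16 * b * 8) = 128 * b * (e + 1) := by ring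
            _ ≤ K := by omega
        have hm2 : 2 * (K / (16 * b) / 8) ≤ K := by
          have a1 : K / (16 * b) / 8 * 8 ≤ K / (16 * b) := Nat.div_mul_le_self _ _
          have a2 : K / (16 * b) ≤ K := Nat.div_le_self _ _
          omega
        have hnb := hr'.2
        unfold Bad at hnb
        by_contra hcon
        push Not at hcon
        apply hnb
        refine ⟨?_, ?_, ?_⟩
        · have a1 := ne_window b (K - 1 - hh b A K) (hh b A K) e k (s r') (by omega) (by omega)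
          have a2 : ne b (K - 1 - hh b A K) (hh b A K) (s r') * R ≤ (ne b e k (s r') + e) * R := Nat.mul_le_mul_right _ (by omega)
          omega
        · have a1 := ne_window' b (hh b A K) e k (s r') (by omega)
          have a2 : ne b 1 (hh b A K) (s r') * R ≤ (ne b e k (s r') + e) * R := Nat.mul_le_mul_right _ a1
          omega
        · have a1 := ne_window b (K / (16 * b) / 8) (K - 2 * (K / (16 * b) / 8)) e k (s r') (by omega) (by omega)
          have a2 : ne b (K / (16 * b) / 8) (K - 2 * (K / (16 * b) / 8)) (s r') * R ≤ (ne b e k (s r') + e) * R :=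
            Nat.mul_le_mul_right _ (by omega)
          omega
      refine (sum_le_sum e1).trans ?_
      rw [← sum_mul, mul_comm]
      apply mul_le_mul_of_nonneg_left _ (by positivity)
      rw [hTd]
      exact sum_le_sum_of_subset_of_nonneg (filter_subset _ _) fun _ _ _ => norm_nonneg _
  have hsum2 : ∑ r ∈ range M, ‖F r * G r‖ * ∑ r' ∈ range M, ‖F r' * G r'‖ *
      γ ^ ne b e k ((H.factorial * r' + H.factorial * (M - r)) % M) ≤
      T * (Y / (K : ℝ) ^ (U + 6) + 2 ^ e / (K : ℝ) ^ (U + 6) * T) := by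
    have : ∀ r ∈ range M, ‖F r * G r‖ * ∑ r' ∈ range M, ‖F r' * G r'‖ *
      γ ^ ne b e k ((H.factorial * r' + H.factorial * (M - r)) % M) ≤ ‖F r * G r‖ * (Y / (K : ℝ) ^ (U + 6) + 2 ^ e / (K : ℝ) ^ (U + 6) * T) :=
      fun r hr => mul_le_mul_of_nonneg_left (hrow r hr) (norm_nonneg _)
    refine (sum_le_sum this).trans (le_of_eq ?_)
    rw [← sum_mul, hTd]
  refine hsum2.trans ?_
  have hfin := var_num T Y C (2 ^ e) K U (by linarith) hY0 hT0 hC0 (by positivity) hT'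
    (hk4.trans (by exact_mod_cast (by omega : k4 ≤ K)))
  refine hfin.trans ?_
  have hk0 : (0 : ℝ) < k := by exact_mod_cast (by omega : 0 < k)
  rw [← hY]
  apply div_le_div_of_nonneg_left (by positivity) (by positivity)
  apply pow_le_pow_left₀ hk0.le
  exact_mod_cast (by omega : k ≤ K)

end Pool.Agent.W93.TD
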