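import Pool.Agent.W93.TD3
import Pool.Agent.H560R3.GB.Tup3

set_option autoImplicit false

/-! Tuples: replacing the von Mangoldt function by the sieve model. -/

namespace Pool.Agent.W93.TD
open Finset
open Pool.Agent.H807R2.Dav
open Pool.Agent.H373R2.T7
open Pool.Agent.W93.DG
open Pool.Agent.W93.RD

/-- the sizes of the parameters -/
lemma sizes (b B e : ℕ) (hb : 2 ≤ b) (Cst : ℝ) : ∃ k₀ : ℕ, ∀ k : ℕ, k₀ ≤ k → ∀ N : ℕ, b ^ k ≤ B * N → N ≤ b ^ (k + e) →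
    1 ≤ N ∧ Cst ≤ Real.log N ∧ Real.log ((b ^ (k + e) : ℕ) : ℝ) ≤ 2 * Real.log N ∧ Real.log N ≤ Real.log ((b ^ (k + e) : ℕ) : ℝ) ∧
    Real.log N ≤ b * (e + 1) * k ∧ (k : ℝ) ≤ 4 * Real.log N := by
  have hbr : (2 : ℝ) ≤ b := by exact_mod_cast hb
  obtain ⟨D, hD⟩ : ∃ D : ℝ, D = Real.log ((b : ℝ) ^ e * (B + 1)) := ⟨_, rfl⟩
  obtain ⟨k₀, hk₀⟩ := exists_nat_ge (8 * D + 4 * |Cst|)
  refine ⟨k₀ + 1, fun k hk N h1 h2 => ?_⟩
  have hN1 : 1 ≤ N := by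
    rcases Nat.eq_zero_or_pos N with h | h
    · rw [h, mul_zero] at h1
      have : 0 < b ^ k := Nat.pow_pos (by omega)
      omega
    · exact h
  have hN0 : (0 : ℝ) < N := by exact_mod_cast hN1
  have hB0 : (0 : ℝ) ≤ B := Nat.cast_nonneg _
  obtain ⟨hL1, hL2⟩ := logX b (k + e) hb
  obtain ⟨LX, hLX⟩ : ∃ LX, LX = Real.log ((b ^ (k + e) : ℕ) : ℝ) := ⟨_, rfl⟩
  obtain ⟨L, hL⟩ : ∃ L, L = Real.log (N : ℝ) := ⟨_, rfl⟩
  rw [← hLX] at hL1 hL2 ⊢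
  rw [← hL]
  have a1 : L ≤ LX := by
    rw [hL, hLX]
    exact Real.log_le_log hN0 (by exact_mod_cast h2)
  have a2 : LX ≤ D + L := by
    rw [hLX, hD, hL, ← Real.log_mul (by positivity) hN0.ne']
    apply Real.log_le_log
    · exact_mod_cast Nat.pow_pos (by omega)
    · have e1 : ((b ^ (k + e) : ℕ) : ℝ) = (b : ℝ) ^ e * (b : ℝ) ^ k := by push_cast; rw [pow_add, mul_comm]
      rw [e1, mul_assoc]
      apply mul_le_mul_of_nonneg_left _ (by positivity)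
      have e2 : (b : ℝ) ^ k ≤ B * N := by exact_mod_cast h1
      linarith
  have a3 : (k₀ : ℝ) ≤ k := by exact_mod_cast (by omega : k₀ ≤ k)
  have he0 : (0 : ℝ) ≤ e := Nat.cast_nonneg _
  have hk1 : (1 : ℝ) ≤ k := by exact_mod_cast (by omega : 1 ≤ k)
  push_cast at hL1 hL2
  have hC := le_abs_self Cst
  have hC' := abs_nonneg Cst
  have hL0 : 0 ≤ L := by rw [hL]; exact Real.log_natCast_nonneg N
  refine ⟨hN1, by linarith, by linarith, a1, ?_, by linarith⟩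
  refine a1.trans (hL2.trans ?_)
  have : (k : ℝ) + e ≤ (e + 1) * k := by nlinarith
  calc (b : ℝ) * (k + e) ≤ b * ((e + 1) * k) := mul_le_mul_of_nonneg_left this (by linarith)
    _ = _ := by ring

lemma diff_num (L LX k X N D₀ C₀ : ℝ) (s U : ℕ) (hL : 1 ≤ L) (hLX0 : 0 ≤ LX) (hLX : LX ≤ 2 * L) (hk : 0 < k) (hLk : L ≤ D₀ * k)
    (hD₀ : 0 ≤ D₀) (hX : X ≤ C₀ * N) (hX0 : 0 ≤ X) (hN0 : 0 ≤ N) (hC₀ : 0 ≤ C₀) (hbig : s * 2 ^ (s + 1) * C₀ * D₀ ^ (U + s + 2) ≤ L) :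
    (s : ℝ) * (LX * LX ^ s * (X / k ^ (U + s + 2))) ≤ N / L ^ U := by
  have hL0 : 0 < L := by linarith
  have h1 : 1 / k ^ (U + s + 2) ≤ D₀ ^ (U + s + 2) / L ^ (U + s + 2) := by
    rw [div_le_div_iff₀ (by positivity) (by positivity), one_mul, ← mul_pow]
    exact pow_le_pow_left₀ hL0.le hLk _
  have h2 : LX ^ (s + 1) ≤ (2 * L) ^ (s + 1) := pow_le_pow_left₀ hLX0 hLX _
  calc (s : ℝ) * (LX * LX ^ s * (X / k ^ (U + s + 2))) = s * (LX ^ (s + 1) * (X * (1 / k ^ (U + s + 2)))) := by ring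
    _ ≤ s * ((2 * L) ^ (s + 1) * (C₀ * N * (D₀ ^ (U + s + 2) / L ^ (U + s + 2)))) := by
        gcongr
    _ = (s * 2 ^ (s + 1) * C₀ * D₀ ^ (U + s + 2)) * (N / L ^ U * (L ^ (s + 1) / L ^ (s + 2))) := by
        rw [mul_pow, show U + s + 2 = U + (s + 2) by ring, pow_add L U]
        field_simp
    _ ≤ L * (N / L ^ U * (L ^ (s + 1) / L ^ (s + 2))) := mul_le_mul_of_nonneg_right hbig (by positivity)
    _ = N / L ^ U := by
        rw [show s + 2 = (s + 1) + 1 by ring, pow_succ L (s + 1)]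
        field_simp

/-- the vectors of strings -/
def SS (s H k : ℕ) : Finset (Fin s → Fin k → ℕ) := Fintype.piFinset (fun _ : Fin s => Str H k)

/-- replacing the von Mangoldt function by the sieve model -/
theorem td_diff (s b H B : ℕ) (hb : 2 ≤ b) (η : ℝ) (hη : 0 < η) (hη1 : η ≤ 1) (U : ℕ) : ∃ B0 : ℕ, ∀ E : ℕ, ∃ k₀ : ℕ, ∀ k : ℕ, k₀ ≤ k →
    ∀ w : Fin s → ℕ → ℕ → ℝ, (∀ i, ∀ j < k, ∀ a, 0 ≤ w i j a) → (∀ i, ∀ j < k, ∀ a, w i j a ≤ 1 - η) →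
    (∀ i, ∀ j < k, ∑ a ∈ range H, w i j a = 1) →
    ∀ N : ℕ, b ^ k ≤ B * N → N ≤ B * b ^ k → ∀ c : Fin s → ℕ, (∀ i, c i ≤ B * b ^ k) →
    ∀ z : ℕ, Real.log N ^ B0 ≤ z → (z : ℝ) ≤ Real.log N ^ E →
    ∑ ω ∈ SS s H k, (∏ i, pw (w i) (ω i)) * |∑ n ∈ Icc 1 N, ArithmeticFunction.vonMangoldt n *
        (∏ i, lamI ((n : ℤ) + ((c i + val b (ω i) : ℕ) : ℤ)) - ∏ i, lamzI z ((n : ℤ) + ((c i + val b (ω i) : ℕ) : ℤ)))| ≤
        N / Real.log N ^ U := by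
  classical
  obtain ⟨e, he⟩ : ∃ e, e = 2 * B + H := ⟨_, rfl⟩
  obtain ⟨B1, hB1⟩ := td_one b H e hb η hη hη1 (U + s + 2)
  refine ⟨B1 + 1, fun E => ?_⟩
  obtain ⟨k1, h1⟩ := hB1 E
  obtain ⟨N2, h2⟩ := Vz_inv_small E
  obtain ⟨k3, h3⟩ := sizes b B e hb ((2 : ℝ) ^ B1 + 1 + s * 2 ^ (s + 1) * ((b : ℝ) ^ e * B) * ((b : ℝ) * (e + 1)) ^ (U + s + 2))
  refine ⟨k1 + k3 + N2 + 1, fun k hk w hw0 hw1 hsum N hN1 hN2 c hc z hz1 hz2 => ?_⟩
  have hbn : 0 < b := by omega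
  have hbe : 2 * B + H ≤ b ^ e := by rw [he]; exact (Nat.lt_pow_self (by omega)).le
  have hNX : N + B * b ^ k + H * b ^ k ≤ b ^ (k + e) := by
    calc N + B * b ^ k + H * b ^ k ≤ (2 * B + H) * b ^ k := by
          rw [add_mul, two_mul, add_mul]; omega
      _ ≤ b ^ e * b ^ k := Nat.mul_le_mul_right _ hbe
      _ = _ := by rw [← pow_add, add_comm]
  obtain ⟨hN0, a1, a2, a3, a4, a5⟩ := h3 k (by omega) N hN1 (by omega)
  obtain ⟨LX, hLX⟩ : ∃ LX, LX = Real.log ((b ^ (k + e) : ℕ) : ℝ) := ⟨_, rfl⟩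
  obtain ⟨L, hL⟩ : ∃ L, L = Real.log (N : ℝ) := ⟨_, rfl⟩
  rw [← hL] at a1 a2 a3 a4 a5 hz1 hz2 ⊢
  rw [← hLX] at a2 a3
  have hbr : (2 : ℝ) ≤ b := by exact_mod_cast hb
  have hc0 : 0 ≤ (s : ℝ) * 2 ^ (s + 1) * ((b : ℝ) ^ e * B) * ((b : ℝ) * (e + 1)) ^ (U + s + 2) := by positivity
  have hp2 : (0 : ℝ) < 2 ^ B1 := by positivity
  have hL1 : 1 ≤ L := by linarith
  have hL0 : 0 < L := by linarith
  have hLX1 : 1 ≤ LX := by linarith
  have hz : 1 ≤ z := by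
    have : (1 : ℝ) ≤ z := (one_le_pow₀ hL1).trans hz1
    exact_mod_cast this
  have hzX1 : LX ^ B1 ≤ z := by
    refine le_trans ?_ hz1
    calc LX ^ B1 ≤ (2 * L) ^ B1 := pow_le_pow_left₀ (by linarith) a2 _
      _ = 2 ^ B1 * L ^ B1 := mul_pow _ _ _
      _ ≤ L * L ^ B1 := mul_le_mul_of_nonneg_right (by linarith) (by positivity)
      _ = L ^ (B1 + 1) := by ring
  have hzX2 : (z : ℝ) ≤ LX ^ E := hz2.trans (pow_le_pow_left₀ hL0.le a3 _)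
  have hkX : k < b ^ (k + e) := by
    calc k ≤ k + e := by omega
      _ < b ^ (k + e) := Nat.lt_pow_self (by omega)
  have hV := h2 (b ^ (k + e)) (by omega) z hz (by rw [← hLX]; exact hzX2)
  rw [← hLX] at hV
  have hX0 : (0 : ℝ) < ((b ^ (k + e) : ℕ) : ℝ) := by exact_mod_cast (by omega : 0 < b ^ (k + e))
  have hup : ∀ i, ∀ n ∈ Icc 1 N, ∀ v ∈ Str H k, (((n : ℤ) + ((c i + val b v : ℕ) : ℤ) : ℤ) : ℝ) ≤ ((b ^ (k + e) : ℕ) : ℝ) := by
    intro i n hn v hv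
    rw [mem_Icc] at hn
    have h4 := val_le b H k hb v hv
    have h5 := hc i
    exact_mod_cast (by omega : n + (c i + val b v) ≤ b ^ (k + e))
  have hk0 : (0 : ℝ) < k := by exact_mod_cast (by omega : 0 < k)
  have key := tele_w N (fun _ : Fin s => Str H k) (fun i => pw (w i)) (fun i v _ => pw_nonneg (H := H) (w i) (hw0 i) v)
    (fun i => pw_sum H k (w i) (hsum i)) (fun i n v => lamI ((n : ℤ) + ((c i + val b v : ℕ) : ℤ)))
    (fun i n v => lamzI z ((n : ℤ) + ((c i + val b v : ℕ) : ℤ)))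
    LX (((b ^ (k + e) : ℕ) : ℝ) / (k : ℝ) ^ (U + s + 2)) hLX1 (by positivity) (by
      intro i n hn v hv
      rw [abs_of_nonneg (lamI_nonneg _), hLX]
      exact lamI_le _ _ (by exact_mod_cast (by omega : 1 ≤ b ^ (k + e))) (hup i n hn v hv)) (by
      intro i n hn v hv
      rw [abs_of_nonneg (lamzI_nonneg _ _)]
      exact (lamzI_le z _).trans hV) (by
      intro i K hK G hG
      exact h1 k (by omega) z (by rw [← hLX]; exact hzX1) (by rw [← hLX]; exact hzX2) (w i) (hw0 i) (hw1 i) (hsum i) N (c i)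
        (by have := hc i; omega) K hK G hG)
    univ LX (by linarith) (fun n _ => ArithmeticFunction.vonMangoldt n) (by
      intro n hn m _
      rw [mem_Icc] at hn
      rw [abs_of_nonneg ArithmeticFunction.vonMangoldt_nonneg]
      have q1 : Real.log (n : ℝ) ≤ L := by
        rw [hL]
        apply Real.log_le_log (by exact_mod_cast hn.1)
        exact_mod_cast hn.2
      exact ArithmeticFunction.vonMangoldt_le_log.trans (q1.trans a3)) (by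
      intro n m v i _; rfl)
  rw [card_univ, Fintype.card_fin] at key
  unfold SS
  refine key.trans ?_
  apply diff_num L LX k _ N (b * (e + 1)) ((b : ℝ) ^ e * B) s U hL1 (by linarith) a2 hk0 a4 (by positivity) _ hX0.le (Nat.cast_nonneg _)
    (by positivity) (by linarith)
  have e1 : ((b ^ (k + e) : ℕ) : ℝ) = (b : ℝ) ^ e * (b : ℝ) ^ k := by push_cast; rw [pow_add, mul_comm]
  rw [e1, mul_assoc]
  apply mul_le_mul_of_nonneg_left _ (by positivity)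
  exact_mod_cast hN1

end Pool.Agent.W93.TD
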